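import Mathlib

set_option autoImplicit false

namespace Pool.Agent.H8.Tau

open Set Filter Topology Function

section idx
variable {Z : Type}

/-- indexed γ-cover -/
def IG (u : ℕ → Set Z) : Prop := ∀ x, ∀ᶠ m in atTop, x ∈ u m

/-- indexed τ-cover -/
def IT (u : ℕ → Set Z) : Prop :=
  (∀ x, ∃ᶠ m in atTop, x ∈ u m) ∧
    ∀ x y, (∀ᶠ m in atTop, x ∈ u m → y ∈ u m) ∨ (∀ᶠ m in atTop, y ∈ u m → x ∈ u m)

/-- the linearity half of the definition of a τ-cover -/
def WT (𝒱 : Set (Set Z)) : Prop :=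
  ∀ x y, {V | V ∈ 𝒱 ∧ x ∈ V ∧ y ∉ V}.Finite ∨ {V | V ∈ 𝒱 ∧ y ∈ V ∧ x ∉ V}.Finite

def HH (Q : (ℕ → Set Z) → Prop) (O : Set Z → Prop) : Prop :=
  ∀ v : ℕ → ℕ → Set Z, (∀ n m, O (v n m)) → (∀ n m, v n m ≠ univ) → (∀ n, Injective (v n)) →
    (∀ n, Q (v n)) → ∃ g : ℕ → ℕ, WT (range fun n => v n (g n))

def Sel (O : Set Z → Prop) (C : Set Z) : Prop :=
  ∀ u : ℕ → ℕ → Set Z, (∀ n m, O (u n m)) → (∀ n, IG (u n)) →
    ∃ g : ℕ → ℕ, ∀ x ∈ C, ∀ᶠ n in atTop, x ∈ u n (g n)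

def Ps (u : ℕ → Set Z) (C : Set Z) : Prop :=
  ∃ g : ℕ → ℕ, (∀ n, n ≤ g n) ∧ ∀ x ∈ C, ∀ᶠ n in atTop, x ∈ u (g n)

def md (C : Set Z) (p : Z) (U : Set Z) : Set Z := (U ∪ Cᶜ) ∩ {p}ᶜ

lemma md_in {C U : Set Z} {p x : Z} (hp : p ∉ C) (hx : x ∈ C) : x ∈ md C p U ↔ x ∈ U := by
  have : x ≠ p := fun h => hp (h ▸ hx)
  simp [md, hx, this]

lemma md_out {C U : Set Z} {p x : Z} (hx : x ∉ C) : x ∈ md C p U ↔ x ≠ p := by
  simp [md, hx]

lemma md_inj {C U U' : Set Z} {p q : Z} (hp : p ∉ C) (h : md C p U = md C q U') : p = q := by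
  by_contra hne
  have : p ∈ md C q U' := (md_out hp).2 hne
  rw [← h] at this
  exact (md_out hp).1 this rfl

lemma ev_ne {p : ℕ → Z} (hp : Injective p) (x : Z) : ∀ᶠ m in atTop, x ≠ p m := by
  rw [← Nat.cofinite_eq_atTop, eventually_cofinite]
  refine ((finite_singleton x).preimage hp.injOn).subset fun m hm => ?_
  simpa using (not_not.1 hm).symm

lemma IG.md {u : ℕ → Set Z} (h : IG u) {C : Set Z} {p : ℕ → Z} (hp : Injective p) :
    IG fun m => md C (p m) (u m) := by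
  intro x
  filter_upwards [h x, ev_ne hp x] with m h1 h2 using ⟨Or.inl h1, h2⟩

lemma IT.md {u : ℕ → Set Z} (h : IT u) {C : Set Z} {p : ℕ → Z} (hp : Injective p)
    (hC : ∀ m, p m ∉ C) : IT fun m => md C (p m) (u m) := by
  have out : ∀ x ∉ C, ∀ᶠ m in atTop, x ∈ Tau.md C (p m) (u m) := fun x hx =>
    (ev_ne hp x).mono fun m hm => (md_out hx).2 hm
  refine ⟨fun x => ?_, fun x y => ?_⟩
  · exact ((h.1 x).and_eventually (ev_ne hp x)).mono fun m hm => ⟨Or.inl hm.1, hm.2⟩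
  · by_cases hx : x ∈ C
    · by_cases hy : y ∈ C
      · simp only [md_in (hC _) hx, md_in (hC _) hy]
        exact h.2 x y
      · exact Or.inl ((out y hy).mono fun m hm _ => hm)
    · exact Or.inr ((out x hx).mono fun m hm _ => hm)

lemma half {C D : Set Z} (hd : Disjoint C D) {p : ℕ → Z} (hp : Injective p) (hC : ∀ n, p n ∉ C)
    {w : ℕ → Set Z} {𝒱 : Set (Set Z)} (hw : ∀ n, md C (p n) (w n) ∈ 𝒱) {x y : Z} (hy : y ∈ D)
    (hx : x ∈ C) (hf : {V | V ∈ 𝒱 ∧ y ∈ V ∧ x ∉ V}.Finite) : ∀ᶠ n in atTop, x ∈ w n := by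
  have hi : Injective fun n => md C (p n) (w n) := fun a b h => hp (md_inj (hC a) h)
  have h1 := (hf.preimage hi.injOn).compl_mem_cofinite
  rw [Nat.cofinite_eq_atTop] at h1
  filter_upwards [h1, ev_ne hp y] with n hn hne
  by_contra hc
  exact hn ⟨hw n, (md_out fun h => disjoint_left.1 hd h hy).2 hne,
    fun h => hc ((md_in (hC n) hx).1 h)⟩

theorem dich {Q : (ℕ → Set Z) → Prop} {O : Set Z → Prop} (H : HH Q O) {C D : Set Z}
    (hd : Disjoint C D) (hC : C.Infinite) (hD : D.Infinite) (u w : ℕ → ℕ → Set Z)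
    (hu : ∀ n m p, O (md C p (u n m))) (hw : ∀ n m p, O (md D p (w n m)))
    (qu : ∀ n (p : ℕ → Z), Injective p → (∀ m, p m ∉ C) → Q fun m => md C (p m) (u n m))
    (qw : ∀ n (p : ℕ → Z), Injective p → (∀ m, p m ∉ D) → Q fun m => md D (p m) (w n m)) :
    (∃ g : ℕ → ℕ, ∀ x ∈ C, ∀ᶠ n in atTop, x ∈ u n (g n)) ∨
      ∃ g : ℕ → ℕ, ∀ x ∈ D, ∀ᶠ n in atTop, x ∈ w n (g n) := by
  let p : ℕ → ℕ → Z := fun n m => hD.natEmbedding _ (Nat.pair n m)
  let q : ℕ → ℕ → Z := fun n m => hC.natEmbedding _ (Nat.pair n m)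
  have hp : ∀ n m, p n m ∉ C := fun n m h => disjoint_left.1 hd h (hD.natEmbedding _ _).2
  have hq : ∀ n m, q n m ∉ D := fun n m h => disjoint_left.1 hd (hC.natEmbedding _ _).2 h
  have ip : ∀ n m n' m', p n m = p n' m' → n = n' ∧ m = m' := fun n m n' m' h =>
    Nat.pair_eq_pair.1 ((hD.natEmbedding _).injective (Subtype.ext h))
  have iq : ∀ n m n' m', q n m = q n' m' → n = n' ∧ m = m' := fun n m n' m' h =>
    Nat.pair_eq_pair.1 ((hC.natEmbedding _).injective (Subtype.ext h))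
  let v : ℕ → ℕ → Set Z := fun k m =>
    if k % 2 = 0 then md C (p (k / 2) m) (u (k / 2) m) else md D (q (k / 2) m) (w (k / 2) m)
  have v0 : ∀ n, v (2 * n) = fun m => md C (p n m) (u n m) := by
    intro n; funext m; simp [v]
  have v1 : ∀ n, v (2 * n + 1) = fun m => md D (q n m) (w n m) := by
    intro n; funext m
    have : (2 * n + 1) / 2 = n := by omega
    simp [v, this]
  have cs : ∀ (P : ℕ → Prop), (∀ n, P (2 * n)) → (∀ n, P (2 * n + 1)) → ∀ k, P k := by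
    intro P h0 h1 k
    obtain ⟨n, rfl | rfl⟩ := Nat.even_or_odd' k
    exacts [h0 n, h1 n]
  obtain ⟨g, hg⟩ := H v
    (cs _ (fun n m => by rw [v0]; exact hu _ _ _) (fun n m => by rw [v1]; exact hw _ _ _))
    (cs _ (fun n m h => by
        rw [v0] at h
        have h2 : md C (p n m) (u n m) = univ := h
        exact (md_out (hp n m)).1 (h2 ▸ mem_univ (p n m)) rfl)
      (fun n m h => by
        rw [v1] at h
        have h2 : md D (q n m) (w n m) = univ := h
        exact (md_out (hq n m)).1 (h2 ▸ mem_univ (q n m)) rfl))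
    (cs _ (fun n => by rw [v0]; exact fun a b h => (ip _ _ _ _ (md_inj (hp _ _) h)).2)
      (fun n => by rw [v1]; exact fun a b h => (iq _ _ _ _ (md_inj (hq _ _) h)).2))
    (cs _ (fun n => by rw [v0]; exact qu n _ (fun a b h => (ip _ _ _ _ h).2) (hp n))
      (fun n => by rw [v1]; exact qw n _ (fun a b h => (iq _ _ _ _ h).2) (hq n)))
  by_contra hc
  push Not at hc
  obtain ⟨x, hx, hx'⟩ := hc.1 fun n => g (2 * n)
  obtain ⟨y, hy, hy'⟩ := hc.2 fun n => g (2 * n + 1)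
  rcases hg x y with h | h
  · refine (not_eventually.2 hy') (half hd.symm (p := fun n => q n (g (2 * n + 1)))
      (fun a b h => (iq _ _ _ _ h).1) (fun n => hq _ _) (fun n => ?_) hx hy h)
    exact ⟨2 * n + 1, by simp only [v1]⟩
  · refine (not_eventually.2 hx') (half hd (p := fun n => p n (g (2 * n)))
      (fun a b h => (ip _ _ _ _ h).1) (fun n => hp _ _) (fun n => ?_) hy hx h)
    exact ⟨2 * n, by simp only [v0]⟩

lemma sel_finite (O : Set Z → Prop) {C : Set Z} (hC : C.Finite) : Sel O C := by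
  intro u _ hu
  choose g hg using fun n => ((eventually_all_finite hC).2 fun x _ => hu n x).exists
  exact ⟨g, fun x hx => Eventually.of_forall fun n => hg n x hx⟩

lemma sel_strong {O : Set Z → Prop} {C : Set Z} (hC : Sel O C) (u : ℕ → ℕ → Set Z)
    (ho : ∀ n m, O (u n m)) (hu : ∀ n, IG (u n)) :
    ∃ h : ℕ → ℕ → ℕ, (∀ n m, m ≤ h n m) ∧ ∀ x ∈ C, ∀ᶠ n in atTop, ∀ m, x ∈ u n (h n m) := by
  obtain ⟨g, hg⟩ := hC (fun k j => u k.unpair.1 (j + k.unpair.2)) (fun _ _ => ho _ _)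
    fun k x => (tendsto_add_atTop_nat _).eventually (hu _ x)
  refine ⟨fun n m => g (Nat.pair n m) + m, fun n m => Nat.le_add_left _ _, fun x hx => ?_⟩
  obtain ⟨N, hN⟩ := eventually_atTop.1 (hg x hx)
  filter_upwards [eventually_ge_atTop N] with n hn m
  simpa using hN (Nat.pair n m) (hn.trans (Nat.left_le_pair n m))

theorem sel_iUnion {O : Set Z → Prop} {C : ℕ → Set Z} (hC : ∀ k, Sel O (C k)) :
    Sel O (⋃ k, C k) := by
  intro u ho hu
  have step : ∀ k (φ : {φ : ℕ → ℕ → ℕ // ∀ n m, m ≤ φ n m}),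
      ∃ h : ℕ → ℕ → ℕ, (∀ n m, m ≤ h n m) ∧
        ∀ x ∈ C k, ∀ᶠ n in atTop, ∀ m, x ∈ u n (φ.1 n (h n m)) := fun k φ =>
    sel_strong (hC k) (fun n m => u n (φ.1 n m)) (fun _ _ => ho _ _) fun n x =>
      (tendsto_atTop_mono (φ.2 n) tendsto_id).eventually (hu n x)
  choose h h1 h2 using step
  let φ : ℕ → {φ : ℕ → ℕ → ℕ // ∀ n m, m ≤ φ n m} := fun k =>
    Nat.rec ⟨fun _ m => m, fun _ _ => le_rfl⟩
      (fun k ψ => ⟨fun n m => ψ.1 n (h k ψ n m), fun n m => (h1 k ψ n m).trans (ψ.2 _ _)⟩) k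
  have hs : ∀ k n m, (φ (k + 1)).1 n m = (φ k).1 n (h k (φ k) n m) := fun _ _ _ => rfl
  have hm : ∀ k l, k ≤ l → ∀ n m, ∃ m', (φ l).1 n m = (φ k).1 n m' := by
    intro k l hkl
    induction l, hkl using Nat.le_induction with
    | base => exact fun n m => ⟨m, rfl⟩
    | succ l _ ih => exact fun n m => by rw [hs]; exact ih _ _
  refine ⟨fun n => (φ n).1 n 0, fun x hx => ?_⟩
  obtain ⟨k, hk⟩ := mem_iUnion.1 hx
  filter_upwards [h2 k (φ k) x hk, eventually_ge_atTop (k + 1)] with n hn hkn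
  obtain ⟨m', hm'⟩ := hm (k + 1) n hkn n 0
  rw [hm', hs]
  exact hn m'

lemma IT.fin {u : ℕ → Set Z} (h : IT u) {F : Set Z} (hF : F.Finite) :
    ∃ᶠ m in atTop, F ⊆ u m := by
  have : F = ∅ ∨ ∃ z, ∀ᶠ m in atTop, z ∈ u m → F ⊆ u m := by
    induction F, hF using Set.Finite.induction_on with
    | empty => exact Or.inl rfl
    | @insert a s _ _ ih =>
      right
      rcases ih with rfl | ⟨z, hz⟩
      · exact ⟨a, Eventually.of_forall fun m hm => by simpa using hm⟩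
      · rcases h.2 a z with h' | h'
        · refine ⟨a, ?_⟩
          filter_upwards [hz, h'] with m h1 h2 h3 using insert_subset h3 (h1 (h2 h3))
        · refine ⟨z, ?_⟩
          filter_upwards [hz, h'] with m h1 h2 h3 using insert_subset (h2 h3) (h1 h3)
  rcases this with rfl | ⟨z, hz⟩
  · exact Frequently.of_forall fun _ => empty_subset _
  · exact ((h.1 z).and_eventually hz).mono fun m hm => hm.2 hm.1

lemma ps_seq {u : ℕ → Set Z} (h : IT u) (z : ℕ → Z) : Ps u (range z) := by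
  choose g h1 h2 using fun n =>
    frequently_atTop.1 (h.fin ((finite_Iic n).image z)) n
  refine ⟨g, h1, ?_⟩
  rintro _ ⟨k, rfl⟩
  filter_upwards [eventually_ge_atTop k] with n hn using h2 n ⟨k, hn, rfl⟩

lemma ps_finite {u : ℕ → Set Z} (h : IT u) {C : Set Z} (hC : C.Finite) : Ps u C := by
  choose g h1 h2 using fun n => frequently_atTop.1 (h.fin hC) n
  exact ⟨g, h1, fun x hx => Eventually.of_forall fun n => h2 n hx⟩

theorem ps_univ {u : ℕ → Set Z} (h : IT u) {C : ℕ → Set Z} (hC : ∀ k, Ps u (C k))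
    (hU : ⋃ k, C k = univ) : Ps u univ := by
  have up : ∀ D : Set Z, Ps u D → (∀ x, ∃ y ∈ D, ∀ᶠ m in atTop, y ∈ u m → x ∈ u m) →
      Ps u univ := by
    rintro D ⟨g, h1, h2⟩ hD
    refine ⟨g, h1, fun x _ => ?_⟩
    obtain ⟨y, hy, hxy⟩ := hD x
    filter_upwards [h2 y hy, (tendsto_atTop_mono h1 tendsto_id).eventually hxy] with n a b
      using b a
  by_cases hA : ∃ k, ∀ x, ∃ y ∈ C k, ∀ᶠ m in atTop, y ∈ u m → x ∈ u m
  · obtain ⟨k, hk⟩ := hA
    exact up _ (hC k) hk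
  · push Not at hA
    choose z hz using hA
    refine up _ (ps_seq h z) fun x => ?_
    obtain ⟨k, hk⟩ := mem_iUnion.1 (hU ▸ mem_univ x)
    refine ⟨z k, ⟨k, rfl⟩, (h.2 x (z k)).resolve_left fun h' => ?_⟩
    obtain ⟨m, h1, h2⟩ := ((hz k x hk).and_eventually h').exists
    exact h1.2 (h2 h1.1)

end idx

variable {Z : Type} [TopologicalSpace Z]

theorem localize [SecondCountableTopology Z] [T3Space Z] (G : Set Z → Prop)
    (hf : ∀ C : Set Z, C.Finite → G C)
    (hd : ∀ C D : Set Z, IsClosed C → IsClosed D → Disjoint C D → G C ∨ G D) :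
    ∃ C : ℕ → Set Z, (∀ k, G (C k)) ∧ ⋃ k, C k = univ := by
  let B : Set Z := {x | ∀ C ∈ 𝓝 x, IsClosed C → ¬ G C}
  have hB : B.Subsingleton := by
    intro x hx y hy
    by_contra hne
    obtain ⟨U, V, hU, hV, hxU, hyV, hUV⟩ := t2_separation hne
    obtain ⟨C, h1, h2, h3⟩ := exists_mem_nhds_isClosed_subset (hU.mem_nhds hxU)
    obtain ⟨D, h4, h5, h6⟩ := exists_mem_nhds_isClosed_subset (hV.mem_nhds hyV)
    exact (hd C D h2 h5 (hUV.mono h3 h6)).elim (hx C h1 h2) (hy D h4 h5)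
  have : ∀ x, ∃ C, G C ∧ (x ∈ Bᶜ → C ∈ 𝓝[Bᶜ] x) := by
    intro x
    by_cases hx : x ∈ B
    · exact ⟨∅, hf _ finite_empty, fun h => absurd hx h⟩
    · have hx' := hx
      simp only [B, mem_setOf_eq] at hx'
      push Not at hx'
      obtain ⟨C, h1, -, h2⟩ := hx'
      exact ⟨C, h2, fun _ => mem_nhdsWithin_of_mem_nhds h1⟩
  choose f h1 h2 using this
  obtain ⟨t, -, ht, hc⟩ := TopologicalSpace.countable_cover_nhdsWithin h2
  obtain ⟨C, hC⟩ := ((ht.image f).insert B).exists_eq_range (insert_nonempty _ _)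
  refine ⟨C, fun k => ?_, eq_univ_of_forall fun x => ?_⟩
  · have : C k ∈ insert B (f '' t) := hC ▸ mem_range_self k
    rcases this with h | ⟨y, -, h⟩
    · exact h ▸ hf _ hB.finite
    · exact h ▸ h1 y
  · rw [← sUnion_range, ← hC]
    by_cases hx : x ∈ B
    · exact ⟨B, mem_insert _ _, hx⟩
    · obtain ⟨y, hy, h⟩ := mem_iUnion₂.1 (hc hx)
      exact ⟨f y, Or.inr ⟨y, hy, rfl⟩, h⟩

/-- admissible classes of sets: open sets, Borel sets -/
def Adm (O : Set Z → Prop) : Prop := ∀ U C p, O U → IsClosed C → O (md C p U)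

lemma adm_open [T1Space Z] : Adm (IsOpen : Set Z → Prop) := fun _ _ _ h hC =>
  (h.union hC.isOpen_compl).inter isOpen_compl_singleton

theorem sel_univ [SecondCountableTopology Z] [T3Space Z] {O : Set Z → Prop} (hO : Adm O)
    (H : HH IG O) : Sel O univ := by
  obtain ⟨C, h1, h2⟩ := localize (Sel O) (fun C => sel_finite O) (by
    intro C D hC hD hd
    by_cases fC : C.Finite
    · exact Or.inl (sel_finite O fC)
    by_cases fD : D.Finite
    · exact Or.inr (sel_finite O fD)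
    by_contra hc
    simp only [Sel, not_or, not_forall] at hc
    obtain ⟨⟨u, ou, gu, nu⟩, w, ow, gw, nw⟩ := hc
    exact (dich H hd fC fD u w (fun n m p => hO _ _ _ (ou n m) hC)
      (fun n m p => hO _ _ _ (ow n m) hD) (fun n p hp _ => (gu n).md hp)
      (fun n p hp _ => (gw n).md hp)).elim nu nw)
  exact h2 ▸ sel_iUnion h1

theorem ps_of [SecondCountableTopology Z] [T3Space Z] {O : Set Z → Prop} (hO : Adm O)
    (H : HH IT O) {u : ℕ → Set Z} (ho : ∀ m, O (u m)) (hu : IT u) : Ps u univ := by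
  have sh : ∀ n, IT fun m => u (m + n) := fun n =>
    ⟨fun x => by
      rw [frequently_atTop]
      intro a
      obtain ⟨b, h1, h2⟩ := frequently_atTop.1 (hu.1 x) (a + n)
      exact ⟨b - n, by omega, by
        show x ∈ u (b - n + n)
        rwa [Nat.sub_add_cancel (by omega)]⟩,
    fun x y => (hu.2 x y).imp (tendsto_add_atTop_nat n).eventually
      (tendsto_add_atTop_nat n).eventually⟩
  obtain ⟨C, h1, h2⟩ := localize (Ps u) (fun C => ps_finite hu) (by
    intro C D hC hD hd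
    by_cases fC : C.Finite
    · exact Or.inl (ps_finite hu fC)
    by_cases fD : D.Finite
    · exact Or.inr (ps_finite hu fD)
    refine (dich H hd fC fD (fun n m => u (m + n)) (fun n m => u (m + n))
      (fun n m p => hO _ _ _ (ho _) hC) (fun n m p => hO _ _ _ (ho _) hD)
      (fun n p hp h => (sh n).md hp h) (fun n p hp h => (sh n).md hp h)).imp ?_ ?_ <;>
    exact fun ⟨g, hg⟩ => ⟨fun n => g n + n, fun n => Nat.le_add_left _ _, hg⟩)
  exact ps_univ hu h1 h2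

end Pool.Agent.H8.Tau
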