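import Mathlib
import Pool.Agent.H8.Tau

set_option autoImplicit false

namespace Pool.Agent.H8.Tau

open Set Filter Topology Function

section fam
variable {Z : Type}

/-- a cover of the space `Z` by sets of the class `O`, not containing `Z` -/
def Cov (O : Set Z → Prop) (𝒰 : Set (Set Z)) : Prop :=
  (∀ U ∈ 𝒰, O U) ∧ ⋃₀ 𝒰 = univ ∧ univ ∉ 𝒰

/-- ω-cover -/
def Om (O : Set Z → Prop) (𝒰 : Set (Set Z)) : Prop :=
  Cov O 𝒰 ∧ ∀ F : Set Z, F.Finite → ∃ U ∈ 𝒰, F ⊆ U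

/-- γ-cover -/
def Ga (O : Set Z → Prop) (𝒰 : Set (Set Z)) : Prop :=
  Cov O 𝒰 ∧ 𝒰.Infinite ∧ ∀ x, {U | U ∈ 𝒰 ∧ x ∉ U}.Finite

/-- τ-cover -/
def Ta (O : Set Z → Prop) (𝒰 : Set (Set Z)) : Prop :=
  Cov O 𝒰 ∧ (∀ x, {U | U ∈ 𝒰 ∧ x ∈ U}.Infinite) ∧
    ∀ x y, {U | U ∈ 𝒰 ∧ x ∈ U ∧ y ∉ U}.Finite ∨ {U | U ∈ 𝒰 ∧ y ∈ U ∧ x ∉ U}.Finite

/-- the selection principle S₁(A, B) -/
def S1 (A B : Set (Set Z) → Prop) : Prop :=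
  ∀ 𝒰 : ℕ → Set (Set Z), (∀ n, A (𝒰 n)) → ∃ U : ℕ → Set Z, (∀ n, U n ∈ 𝒰 n) ∧ B (range U)

lemma cov_range {O : Set Z → Prop} {U : ℕ → Set Z} (h1 : ∀ n, O (U n)) (h2 : ∀ n, U n ≠ univ)
    (h3 : ∀ x, ∃ n, x ∈ U n) : Cov O (range U) := by
  refine ⟨by rintro _ ⟨n, rfl⟩; exact h1 n, eq_univ_of_forall fun x => ?_, fun ⟨n, h⟩ => h2 n h⟩
  obtain ⟨n, hn⟩ := h3 x
  exact ⟨_, ⟨n, rfl⟩, hn⟩

lemma fin_img {U : ℕ → Set Z} {P : Set Z → Prop} (h : ∀ᶠ n in atTop, ¬ P (U n)) :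
    {V | V ∈ range U ∧ P V}.Finite := by
  obtain ⟨N, hN⟩ := eventually_atTop.1 h
  refine ((finite_Iio N).image U).subset ?_
  rintro _ ⟨⟨n, rfl⟩, h⟩
  exact ⟨n, not_le.1 fun h' => hN n h' h, rfl⟩

lemma ev_of_fin {U : ℕ → Set Z} (hi : Injective U) {S : Set (Set Z)} (hS : S.Finite) :
    ∀ᶠ n in atTop, U n ∉ S := by
  have h1 := (hS.preimage hi.injOn).compl_mem_cofinite
  rwa [Nat.cofinite_eq_atTop] at h1

lemma ga_range {O : Set Z → Prop} {U : ℕ → Set Z} (h1 : ∀ n, O (U n)) (h2 : ∀ n, U n ≠ univ)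
    (h3 : IG U) : Ga O (range U) := by
  refine ⟨cov_range h1 h2 fun x => (h3 x).exists, fun hf => ?_,
    fun x => fin_img ((h3 x).mono fun n hn h => h hn)⟩
  obtain ⟨W, hW⟩ := @Finite.exists_infinite_fiber _ _ _ hf.to_subtype (rangeFactorization U)
  obtain ⟨n, hn⟩ := W.2
  refine h2 n (eq_univ_of_forall fun x => ?_)
  obtain ⟨N, hN⟩ := eventually_atTop.1 (h3 x)
  obtain ⟨m, hm, h⟩ := (infinite_coe_iff.1 hW).exists_gt N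
  have : U m = U n := (congrArg Subtype.val hm).trans hn.symm
  exact this ▸ hN m h.le

lemma ta_range {O : Set Z → Prop} {U : ℕ → Set Z} (h1 : ∀ n, O (U n)) (h2 : ∀ n, U n ≠ univ)
    (hi : Injective U) (h3 : IT U) : Ta O (range U) := by
  refine ⟨cov_range h1 h2 fun x => (h3.1 x).exists, fun x hf => ?_, fun x y => ?_⟩
  · obtain ⟨n, h, h'⟩ := ((h3.1 x).and_eventually (ev_of_fin hi hf)).exists
    exact h' ⟨⟨n, rfl⟩, h⟩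
  · exact (h3.2 x y).imp (fun h => fin_img (h.mono fun n hn h => h.2 (hn h.1)))
      fun h => fin_img (h.mono fun n hn h => h.2 (hn h.1))

lemma Ga.ta {O : Set Z → Prop} {𝒰 : Set (Set Z)} (h : Ga O 𝒰) : Ta O 𝒰 := by
  refine ⟨h.1, fun x => (h.2.1.diff (h.2.2 x)).mono fun U hU => ⟨hU.1, ?_⟩,
    fun x y => Or.inl ((h.2.2 y).subset fun U hU => ⟨hU.1, hU.2.2⟩)⟩
  by_contra hc
  exact hU.2 ⟨hU.1, hc⟩

lemma Ga.enum {O : Set Z → Prop} {𝒰 : Set (Set Z)} (h : Ga O 𝒰) :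
    ∃ u : ℕ → Set Z, (∀ m, u m ∈ 𝒰) ∧ IG u := by
  refine ⟨fun m => h.2.1.natEmbedding _ m, fun m => (h.2.1.natEmbedding _ m).2, fun x => ?_⟩
  filter_upwards [ev_of_fin (Subtype.val_injective.comp (h.2.1.natEmbedding _).injective)
    (h.2.2 x)] with m hm
  by_contra hc
  exact hm ⟨(h.2.1.natEmbedding _ m).2, hc⟩

lemma Ta.enum [Nonempty Z] {O : Set Z → Prop} {𝒰 𝒱 : Set (Set Z)} (h : Ta O 𝒰) (hs : 𝒱 ⊆ 𝒰)
    (hc : 𝒱.Countable) (hl : ∀ x, {U | U ∈ 𝒱 ∧ x ∈ U}.Infinite) :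
    ∃ u : ℕ → Set Z, (∀ m, u m ∈ 𝒰) ∧ IT u := by
  have hi : 𝒱.Infinite := (hl (Classical.arbitrary Z)).mono fun U hU => hU.1
  haveI := hi.to_subtype
  haveI := hc.to_subtype
  obtain ⟨e⟩ : Nonempty (ℕ ≃ 𝒱) := nonempty_equiv_of_countable
  have hj : Injective fun m => (e m).1 := Subtype.val_injective.comp e.injective
  refine ⟨fun m => e m, fun m => hs (e m).2, fun x => ?_, fun x y => ?_⟩
  · by_contra hn
    refine hl x ((fin_img (U := fun m => (e m).1) (P := fun V => x ∈ V)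
      (not_frequently.1 hn)).subset fun U hU => ⟨⟨e.symm ⟨U, hU.1⟩, by simp⟩, hU.2⟩)
  · refine (h.2.2 x y).imp (fun h => ?_) fun h => ?_ <;>
    · filter_upwards [ev_of_fin hj h] with m hm h1
      by_contra h2
      exact hm ⟨hs (e m).2, h1, h2⟩

lemma hh_of {O : Set Z → Prop} {Q : (ℕ → Set Z) → Prop} {A B : Set (Set Z) → Prop}
    (H : S1 A B) (hB : ∀ 𝒱, B 𝒱 → WT 𝒱)
    (hA : ∀ u : ℕ → Set Z, (∀ m, O (u m)) → (∀ m, u m ≠ univ) → Injective u → Q u →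
      A (range u)) : HH Q O := by
  intro v h1 h2 h3 h4
  obtain ⟨U, hU, hT⟩ := H (fun n => range (v n)) fun n => hA _ (h1 n) (h2 n) (h3 n) (h4 n)
  choose g hg using hU
  exact ⟨g, by simpa only [hg] using hB _ hT⟩

lemma pick {O : Set Z → Prop} (H : Sel O univ) {𝒰 : ℕ → Set (Set Z)} (hc : ∀ n, Cov O (𝒰 n))
    (h : ∀ n, ∃ u : ℕ → Set Z, (∀ m, u m ∈ 𝒰 n) ∧ IG u) :
    ∃ U : ℕ → Set Z, (∀ n, U n ∈ 𝒰 n) ∧ IG U := by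
  choose u h1 h2 using h
  obtain ⟨g, hg⟩ := H u (fun n m => (hc n).1 _ (h1 n m)) h2
  exact ⟨fun n => u n (g n), fun n => h1 _ _, fun x => hg x trivial⟩

lemma fin_ga {O : Set Z → Prop} {𝒰 : ℕ → Set (Set Z)} (hc : ∀ n, Cov O (𝒰 n))
    (h : ∃ U : ℕ → Set Z, (∀ n, U n ∈ 𝒰 n) ∧ IG U) :
    ∃ U : ℕ → Set Z, (∀ n, U n ∈ 𝒰 n) ∧ Ga O (range U) := by
  obtain ⟨U, h1, h2⟩ := h
  exact ⟨U, h1, ga_range (fun n => (hc n).1 _ (h1 n)) (fun n h => (hc n).2.2 (h ▸ h1 n)) h2⟩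

lemma ps_ig {u : ℕ → Set Z} {𝒰 : Set (Set Z)} (h1 : ∀ m, u m ∈ 𝒰) (h : Ps u univ) :
    ∃ w : ℕ → Set Z, (∀ m, w m ∈ 𝒰) ∧ IG w := by
  obtain ⟨g, -, hg⟩ := h
  exact ⟨fun n => u (g n), fun n => h1 _, fun x => hg x trivial⟩

end fam

variable {Z : Type} [TopologicalSpace Z] [SecondCountableTopology Z]

lemma ctble_large {𝒰 : Set (Set Z)} (ho : ∀ U ∈ 𝒰, IsOpen U)
    (hl : ∀ x, {U | U ∈ 𝒰 ∧ x ∈ U}.Infinite) :
    ∃ 𝒱 ⊆ 𝒰, 𝒱.Countable ∧ ∀ x, {U | U ∈ 𝒱 ∧ x ∈ U}.Infinite := by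
  choose T h1 h2 using fun n : ℕ => TopologicalSpace.isOpen_iUnion_countable
    (fun s : {s : Finset (Set Z) // ↑s ⊆ 𝒰 ∧ s.card = n} => ⋂₀ (s.1 : Set (Set Z)))
    fun s => s.1.finite_toSet.isOpen_sInter fun U hU => ho U (s.2.1 hU)
  refine ⟨⋃ n, ⋃ s ∈ T n, (s.1 : Set (Set Z)),
    iUnion_subset fun n => iUnion₂_subset fun s _ => s.2.1,
    countable_iUnion fun n => (h1 n).biUnion fun s _ => s.1.countable_toSet, fun x hf => ?_⟩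
  obtain ⟨s, hs, hc⟩ := (hl x).exists_subset_card_eq (hf.toFinset.card + 1)
  have : x ∈ ⋃ i ∈ T (hf.toFinset.card + 1), ⋂₀ (i.1 : Set (Set Z)) := by
    rw [h2]
    exact mem_iUnion.2 ⟨⟨s, fun U hU => (hs hU).1, hc⟩, fun U hU => (hs hU).2⟩
  obtain ⟨t, ht, hx⟩ := mem_iUnion₂.1 this
  have h3 : t.1 ⊆ hf.toFinset := fun U hU => hf.mem_toFinset.2
    ⟨mem_iUnion.2 ⟨_, mem_iUnion₂.2 ⟨t, ht, hU⟩⟩, hx U hU⟩
  have := Finset.card_le_card h3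
  rw [t.2.2] at this
  omega

lemma Ta.enum' [Nonempty Z] {𝒰 : Set (Set Z)} (h : Ta IsOpen 𝒰) :
    ∃ u : ℕ → Set Z, (∀ m, u m ∈ 𝒰) ∧ IT u := by
  obtain ⟨𝒱, h1, h2, h3⟩ := ctble_large h.1.1 h.2.1
  exact h.enum h1 h2 h3

lemma it_om {O : Set Z → Prop} {𝒰 : Set (Set Z)} (hc : Cov O 𝒰)
    (h : ∃ u : ℕ → Set Z, (∀ m, u m ∈ 𝒰) ∧ IT u) : Om O 𝒰 := by
  obtain ⟨u, h1, h2⟩ := h
  refine ⟨hc, fun F hF => ?_⟩
  obtain ⟨m, hm⟩ := (h2.fin hF).exists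
  exact ⟨_, h1 m, hm⟩

lemma ig_it {u : ℕ → Set Z} (h : IG u) : IT u :=
  ⟨fun x => (h x).frequently, fun _ y => Or.inl ((h y).mono fun _ h _ => h)⟩

variable [T3Space Z]

theorem sel_G (H : S1 (Ga IsOpen) (Ta (Z := Z) IsOpen)) : Sel IsOpen (univ : Set Z) :=
  sel_univ adm_open (hh_of H (fun _ h => h.2.2) fun _ h1 h2 _ h4 => ga_range h1 h2 h4)

theorem hh_T (H : S1 (Ta IsOpen) (Ta (Z := Z) IsOpen)) : HH (Z := Z) IT IsOpen :=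
  hh_of H (fun _ h => h.2.2) fun _ h1 h2 h3 h4 => ta_range h1 h2 h3 h4

theorem sel_T (H : S1 (Ta IsOpen) (Ta (Z := Z) IsOpen)) : Sel IsOpen (univ : Set Z) :=
  sel_G fun 𝒰 h => H 𝒰 fun n => (h n).ta

theorem idx_G (H : S1 (Ga IsOpen) (Ta (Z := Z) IsOpen)) (𝒰 : ℕ → Set (Set Z))
    (h : ∀ n, Ga IsOpen (𝒰 n)) : ∃ U : ℕ → Set Z, (∀ n, U n ∈ 𝒰 n) ∧ IG U :=
  pick (sel_G H) (fun n => (h n).1) fun n => (h n).enum

theorem GG_of (H : S1 (Ga IsOpen) (Ta (Z := Z) IsOpen)) : S1 (Ga IsOpen) (Ga (Z := Z) IsOpen) :=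
  fun 𝒰 h => fin_ga (fun n => (h n).1) (idx_G H 𝒰 h)

omit [TopologicalSpace Z] [SecondCountableTopology Z] [T3Space Z] in
lemma ne_of {O : Set Z → Prop} {𝒰 : Set (Set Z)} (h : Cov O 𝒰) {U : Set Z} (hU : U ∈ 𝒰) :
    Nonempty Z := by
  by_contra hc
  rw [not_nonempty_iff] at hc
  exact h.2.2 (Subsingleton.elim U univ ▸ hU)

theorem TG_of (H : S1 (Ta IsOpen) (Ta (Z := Z) IsOpen)) : S1 (Ta IsOpen) (Ga (Z := Z) IsOpen) := by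
  intro 𝒰 h
  obtain ⟨U, hU, -⟩ := H 𝒰 h
  haveI := ne_of (h 0).1 (hU 0)
  refine fin_ga (fun n => (h n).1) (pick (sel_T H) (fun n => (h n).1) fun n => ?_)
  obtain ⟨u, h1, h2⟩ := (h n).enum'
  exact ps_ig h1 (ps_of adm_open (hh_T H) (fun m => (h n).1.1 _ (h1 m)) h2)

theorem idx_O (H : S1 (Om IsOpen) (Ta (Z := Z) IsOpen)) (𝒰 : ℕ → Set (Set Z))
    (h : ∀ n, Om IsOpen (𝒰 n)) : ∃ U : ℕ → Set Z, (∀ n, U n ∈ 𝒰 n) ∧ IG U := by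
  obtain ⟨U0, hU0, -⟩ := (h 0).2 ∅ finite_empty
  haveI := ne_of (h 0).1 hU0
  have H' : S1 (Ta IsOpen) (Ta (Z := Z) IsOpen) := fun 𝒱 hV =>
    H 𝒱 fun n => it_om (hV n).1 (hV n).enum'
  refine pick (sel_T H') (fun n => (h n).1) fun n => ?_
  obtain ⟨U, hU, hT⟩ := H (fun _ => 𝒰 n) fun _ => h n
  obtain ⟨u, h1, h2⟩ := hT.enum'
  refine ps_ig (fun m => ?_) (ps_of adm_open (hh_T H') (fun m => hT.1.1 _ (h1 m)) h2)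
  obtain ⟨k, hk⟩ := h1 m
  exact hk ▸ hU k

theorem OG_of (H : S1 (Om IsOpen) (Ta (Z := Z) IsOpen)) : S1 (Om IsOpen) (Ga (Z := Z) IsOpen) :=
  fun 𝒰 h => fin_ga (fun n => (h n).1) (idx_O H 𝒰 h)

omit [T3Space Z] in
theorem hur (H : Sel IsOpen (univ : Set Z)) (U : ℕ → Set (Set Z))
    (hU : ∀ n, (∀ V ∈ U n, IsOpen V) ∧ ⋃₀ U n = univ) :
    ∃ F : ℕ → Finset (Set Z), (∀ n, (↑(F n) : Set (Set Z)) ⊆ U n) ∧
      ∀ x : Z, ∀ᶠ n in atTop, x ∈ ⋃₀ (↑(F n) : Set (Set Z)) := by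
  classical
  rcases isEmpty_or_nonempty Z with hZ | ⟨⟨z⟩⟩
  · exact ⟨fun _ => ∅, fun _ => by simp, fun x => hZ.elim x⟩
  have : ∀ n, ∃ e : ℕ → Set Z, (∀ m, e m ∈ U n) ∧ ∀ x, ∃ m, x ∈ e m := by
    intro n
    obtain ⟨T, h1, h2, h3⟩ := TopologicalSpace.isOpen_sUnion_countable (U n) (hU n).1
    rw [(hU n).2] at h3
    obtain ⟨V, hV, -⟩ : z ∈ ⋃₀ T := h3 ▸ mem_univ z
    obtain ⟨e, rfl⟩ := h1.exists_eq_range ⟨V, hV⟩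
    refine ⟨e, fun m => h2 ⟨m, rfl⟩, fun x => ?_⟩
    obtain ⟨_, ⟨m, rfl⟩, hm⟩ : x ∈ ⋃₀ range e := h3 ▸ mem_univ x
    exact ⟨m, hm⟩
  choose e h1 h2 using this
  obtain ⟨g, hg⟩ := H (fun n m => ⋃ j ∈ Iic m, e n j)
    (fun n m => isOpen_biUnion fun j _ => (hU n).1 _ (h1 n j)) fun n x => by
      obtain ⟨m, hm⟩ := h2 n x
      filter_upwards [eventually_ge_atTop m] with k hk using mem_biUnion hk hm
  refine ⟨fun n => (Finset.Iic (g n)).image (e n), fun n V hV => ?_, fun x => ?_⟩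
  · obtain ⟨j, -, rfl⟩ := Finset.mem_image.1 hV
    exact h1 n j
  · filter_upwards [hg x trivial] with n hn
    obtain ⟨j, hj, hx⟩ := mem_iUnion₂.1 hn
    exact ⟨e n j, Finset.mem_coe.2 (Finset.mem_image.2 ⟨j, Finset.mem_Iic.2 hj, rfl⟩), hx⟩

end Pool.Agent.H8.Tau
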