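import Mathlib
import Pool.Agent.H8.Tau2

set_option autoImplicit false

namespace Pool.Agent.H8.Tau

open Set Filter Topology Function MeasureTheory
open scoped Cardinal ENNReal

/-- Sierpiński set: uncountable, meets every Lebesgue null set in a countable set -/
def Sier (S : Set ℝ) : Prop := ¬ S.Countable ∧ ∀ N : Set ℝ, volume N = 0 → (S ∩ N).Countable

theorem sier_of_CH (h : Cardinal.continuum.{0} = Cardinal.aleph 1) : ∃ S, Sier S := by
  obtain ⟨r, wo, hr⟩ := Cardinal.ord_eq ℝ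
  have hseg : ∀ a, {b | r b a}.Countable := by
    intro a
    have := Cardinal.card_typein_lt a hr
    rw [Cardinal.mk_real, h] at this
    rw [← Cardinal.le_aleph0_iff_set_countable, ← Order.lt_succ_iff, Cardinal.succ_aleph0]
    exact this
  have hc : #{t : Set ℝ | MeasurableSet t ∧ volume t = 0} ≤ #ℝ := by
    obtain ⟨b, hb, -, h2⟩ := TopologicalSpace.exists_countable_basis ℝ
    have h3 := MeasurableSpace.cardinal_measurableSet_le_continuum (s := b)
      (hb.le_aleph0.trans Cardinal.aleph0_le_continuum)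
    rw [← h2.borel_eq_generateFrom] at h3
    rw [Cardinal.mk_real]
    exact (Cardinal.mk_le_mk_of_subset fun t ht => ht.1).trans h3
  obtain ⟨e⟩ := hc
  haveI : Nonempty {t : Set ℝ | MeasurableSet t ∧ volume t = 0} := ⟨⟨∅, by simp⟩⟩
  let N := invFun e
  have hN : Surjective N := invFun_surjective e.injective
  have : ∀ a, ∃ x, ∀ b, ¬ r a b → x ∉ (N b).1 := by
    intro a
    have h1 : {b | ¬ r a b}.Countable := ((hseg a).insert a).mono fun b hb => by
      rcases trichotomous_of r a b with h | h | h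
      exacts [absurd h hb, Or.inl h.symm, Or.inr h]
    have h2 : volume (⋃ b ∈ {b | ¬ r a b}, (N b).1) = 0 :=
      (measure_biUnion_null_iff h1).2 fun b _ => (N b).2.2
    by_contra hc
    push Not at hc
    have : (⋃ b ∈ {b | ¬ r a b}, (N b).1) = univ := eq_univ_of_forall fun x => by
      obtain ⟨b, h1, h2⟩ := hc x
      exact mem_biUnion h1 h2
    rw [this] at h2
    simp at h2
  choose x hx using this
  refine ⟨range x, fun hc => ?_, fun M hM => ?_⟩
  · obtain ⟨b, hb⟩ := hN ⟨range x, hc.measurableSet, hc.measure_zero _⟩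
    exact hx b b (irrefl_of r b) (hb ▸ ⟨b, rfl⟩)
  · obtain ⟨t, h1, h2, h3⟩ := exists_measurable_superset_of_null hM
    obtain ⟨b, hb⟩ := hN ⟨t, h2, h3⟩
    refine ((hseg b).image x).mono ?_
    rintro _ ⟨⟨a, rfl⟩, h⟩
    refine ⟨a, ?_, rfl⟩
    by_contra hc
    exact hx a b hc (hb ▸ h1 h)

section abs
variable {α : Type} [MeasurableSpace α] {μ : Measure α} [IsFiniteMeasure μ] {S : Set α}

theorem coinit (hS : ∀ N, μ N = 0 → (S ∩ N).Countable)
    (hf : ∀ E, MeasurableSet E → Disjoint E S → μ E = 0) (R : α → α → Prop)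
    (hm : MeasurableSet {p : α × α | R p.1 p.2}) (ht : ∀ x y z, R x y → R y z → R x z)
    (hl : ∀ x ∈ S, ∀ y ∈ S, R x y ∨ R y x) :
    ∃ T ⊆ S, T.Countable ∧ ∀ y ∈ S, ∃ x ∈ T, R x y := by
  by_contra hc
  push Not at hc
  have hr : ∀ x ∈ S, R x x := fun x hx => (hl x hx x hx).elim id id
  let D : α → Set α := fun x => {y | R y x}
  have mD : ∀ x, MeasurableSet (D x) := fun x => measurable_prodMk_right hm
  obtain ⟨z, hz, hmin⟩ : ∃ z ∈ S, ∀ y ∈ S, μ (D z) ≤ μ (D y) := by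
    obtain ⟨y0, hy0, -⟩ := hc ∅ (empty_subset _) countable_empty
    obtain ⟨u, -, h2, h3⟩ := exists_seq_tendsto_sInf (S := (fun y => μ (D y)) '' S)
      ⟨_, y0, hy0, rfl⟩ (OrderBot.bddBelow _)
    choose w hw1 hw2 using h3
    obtain ⟨z, hz, h4⟩ := hc (range w) (range_subset_iff.2 hw1) (countable_range w)
    refine ⟨z, hz, fun y hy => le_trans (ge_of_tendsto' h2 fun n => ?_) (sInf_le ⟨y, hy, rfl⟩)⟩
    rw [← hw2 n]
    exact measure_mono fun v hv =>
      ht _ _ _ hv ((hl z hz _ (hw1 n)).resolve_right (h4 _ ⟨n, rfl⟩))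
  let P : Set (α × α) := {p | R p.1 z ∧ R p.2 z ∧ ¬ R p.2 p.1}
  have mP : MeasurableSet P := (measurable_fst (mD z)).inter ((measurable_snd (mD z)).inter
    (measurable_swap hm).compl)
  have h1 : ∀ᵐ y ∂μ, ∀ᵐ w ∂μ, (y, w) ∉ P := by
    have h0 : μ {y | μ (Prod.mk y ⁻¹' P) ≠ 0} = 0 := by
      refine hf _ ((measurable_measure_prodMk_left mP) (measurableSet_singleton 0)).compl
        (disjoint_left.2 fun y hy hyS => hy ?_)
      by_cases hyz : R y z
      · have hs : D y ⊆ D z := fun v hv => ht _ _ _ hv hyz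
        have : μ (D z \ D y) = 0 := by
          rw [measure_diff hs (mD y).nullMeasurableSet (measure_ne_top _ _)]
          exact tsub_eq_zero_of_le (hmin y hyS)
        refine measure_mono_null (fun w hw => ?_) this
        exact ⟨hw.2.1, hw.2.2⟩
      · refine measure_mono_null (fun w hw => ?_) measure_empty
        exact absurd hw.1 hyz
    refine measure_mono_null (fun y hy => ?_) h0
    intro h00
    refine hy (measure_mono_null (fun w hw => ?_) h00)
    exact not_not.1 hw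
  rw [Measure.ae_ae_comm (p := fun y w => (y, w) ∉ P) mP.compl] at h1
  have h2 := hS _ h1
  obtain ⟨w, hw, hw2⟩ := hc _ (insert_subset hz inter_subset_left) (h2.insert z)
  have hwz : R w z := (hl w hw z hz).resolve_right (hw2 z (mem_insert _ _))
  have h3 : ∀ᵐ y ∂μ, (y, w) ∉ P := by
    by_contra h
    exact hw2 w (Or.inr ⟨hw, h⟩) (hr w hw)
  obtain ⟨y, hy, hy2⟩ := hc _ (insert_subset hw inter_subset_left) ((hS _ h3).insert w)
  have h4 : ¬ R w y := hy2 w (mem_insert _ _)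
  exact hy2 y (Or.inr ⟨hy, not_not.2 ⟨ht _ _ _ ((hl y hy w hw).resolve_right h4) hwz, hwz, h4⟩⟩)
    (hr y hy)

theorem egor (hS : ∀ N, μ N = 0 → (S ∩ N).Countable) (u : ℕ → ℕ → Set α)
    (hm : ∀ n m, MeasurableSet (u n m)) (hu : ∀ n, ∀ x ∈ S, ∀ᶠ m in atTop, x ∈ u n m) :
    ∃ g : ℕ → ℕ, ∀ x ∈ S, ∀ᶠ n in atTop, x ∈ u n (g n) := by
  let W : ℕ → ℕ → Set α := fun n k => ⋂ m ≥ k, u n m
  have mW : ∀ n k, MeasurableSet (W n k) := fun n k =>
    MeasurableSet.biInter (to_countable _) fun m _ => hm n m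
  have hmono : ∀ n, Antitone fun k => (⋃ j, W n j) \ W n k := fun n a b hab =>
    diff_subset_diff_right (biInter_subset_biInter_left fun m hm => le_trans hab hm)
  have : ∀ n, ∃ k, μ ((⋃ j, W n j) \ W n k) ≤ 2⁻¹ ^ n := by
    intro n
    have h1 := tendsto_measure_iInter_atTop (μ := μ)
      (fun k => ((MeasurableSet.iUnion (mW n)).diff (mW n k)).nullMeasurableSet) (hmono n)
      ⟨0, measure_ne_top _ _⟩
    have h2 : ⋂ k, (⋃ j, W n j) \ W n k = ∅ := by
      rw [← diff_iUnion, diff_self]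
    rw [h2, measure_empty] at h1
    exact (h1.eventually (ge_mem_nhds (ENNReal.pow_pos (by simp) n))).exists
  choose k hk using this
  have h3 := ae_eventually_notMem (μ := μ) (s := fun n => (⋃ j, W n j) \ W n (k n))
    (ne_top_of_le_ne_top (by simp) (ENNReal.tsum_le_tsum hk))
  obtain ⟨e, he⟩ := countable_iff_exists_injOn.1 (hS _ h3)
  have hfin : ∀ n, {x | x ∈ S ∩ {x | ¬ ∀ᶠ n in atTop, x ∉ (⋃ j, W n j) \ W n (k n)} ∧
      e x ≤ n}.Finite := fun n =>
    Finite.of_finite_image ((finite_Iic n).subset (by rintro _ ⟨x, hx, rfl⟩; exact hx.2))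
      (he.mono fun x hx => hx.1)
  choose g h4 h5 using fun n => (((eventually_all_finite (hfin n)).2
    fun x hx => hu n x hx.1.1).and (eventually_ge_atTop (k n))).exists
  refine ⟨g, fun x hx => ?_⟩
  by_cases h : ∀ᶠ n in atTop, x ∉ (⋃ j, W n j) \ W n (k n)
  · filter_upwards [h] with n hn
    obtain ⟨j, hj⟩ := eventually_atTop.1 (hu n x hx)
    have : x ∈ W n (k n) := by
      by_contra hc
      exact hn ⟨mem_iUnion.2 ⟨j, mem_iInter₂.2 hj⟩, hc⟩
    exact mem_iInter₂.1 this _ (h5 n)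
  · filter_upwards [eventually_ge_atTop (e x)] with n hn using h4 n x ⟨⟨hx, h⟩, hn⟩

end abs

lemma Sier.meas {S : Set ℝ} (h : Sier S) : ∃ μ : Measure ℝ, IsFiniteMeasure μ ∧
    (∀ N, μ N = 0 → (S ∩ N).Countable) ∧ ∀ E, MeasurableSet E → Disjoint E S → μ E = 0 := by
  let ν := (volume : Measure ℝ).toFinite
  have mH := measurableSet_toMeasurable ν S
  refine ⟨ν.restrict (toMeasurable ν S), inferInstance, fun N hN => ?_, fun E hE hd => ?_⟩
  · rw [Measure.restrict_apply' mH, toFinite_apply_eq_zero_iff] at hN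
    refine (h.2 _ hN).mono fun x hx => ?_
    exact ⟨hx.1, hx.2, subset_toMeasurable _ _ hx.1⟩
  · rw [Measure.restrict_apply' mH, inter_comm,
      Measure.measure_toMeasurable_inter hE (measure_ne_top _ _), hd.symm.inter_eq, measure_empty]

lemma ext_open {S : Set ℝ} {U : Set S} (h : IsOpen U) :
    ∃ V : Set ℝ, MeasurableSet V ∧ ∀ x : S, x ∈ U ↔ x.1 ∈ V := by
  obtain ⟨V, h1, rfl⟩ := isOpen_induced_iff.1 h
  exact ⟨V, h1.measurableSet, fun _ => Iff.rfl⟩

theorem Sier.sel {S : Set ℝ} (h : Sier S) : Sel IsOpen (univ : Set S) := by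
  obtain ⟨μ, _, h1, -⟩ := h.meas
  intro u ho hu
  choose V hV1 hV2 using fun n m => ext_open (ho n m)
  obtain ⟨g, hg⟩ := egor h1 V hV1 fun n x hx => (hu n ⟨x, hx⟩).mono fun m => (hV2 n m _).1
  exact ⟨g, fun x _ => (hg x.1 x.2).mono fun n => (hV2 _ _ _).2⟩

theorem Sier.ps {S : Set ℝ} (h : Sier S) {u : ℕ → Set S} (ho : ∀ m, IsOpen (u m)) (hu : IT u) :
    Ps u univ := by
  obtain ⟨μ, _, h1, h2⟩ := h.meas
  choose V hV1 hV2 using fun m => ext_open (ho m)
  obtain ⟨T, h3, h4, h5⟩ := coinit h1 h2 (fun x y => ∀ᶠ m in atTop, x ∈ V m → y ∈ V m)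
    (by
      simp only [eventually_atTop, setOf_exists, setOf_forall]
      refine MeasurableSet.iUnion fun a => MeasurableSet.iInter fun b =>
        MeasurableSet.iInter fun _ => ?_
      have := (measurable_fst (hV1 b)).compl.union (measurable_snd (α := ℝ) (hV1 b))
      refine (congrArg MeasurableSet ?_).mp this
      ext p
      simp [imp_iff_not_or])
    (fun x y z a b => by filter_upwards [a, b] with m c d e using d (c e))
    fun x hx y hy => by simpa only [hV2] using hu.2 ⟨x, hx⟩ ⟨y, hy⟩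
  rcases T.eq_empty_or_nonempty with rfl | hT
  · exact ⟨id, fun _ => le_rfl, fun x _ => by simpa using h5 x.1 x.2⟩
  obtain ⟨z, rfl⟩ := h4.exists_eq_range hT
  obtain ⟨g, h6, h7⟩ := ps_seq hu fun n => ⟨z n, h3 ⟨n, rfl⟩⟩
  refine ⟨g, h6, fun x _ => ?_⟩
  obtain ⟨_, ⟨n, rfl⟩, h8⟩ := h5 x.1 x.2
  filter_upwards [h7 _ ⟨n, rfl⟩, (tendsto_atTop_mono h6 tendsto_id).eventually h8] with m a b
  exact (hV2 _ _).2 (b ((hV2 _ _).1 a))

theorem Sier.tg {S : Set ℝ} (h : Sier S) : S1 (Ta IsOpen) (Ga (Z := S) IsOpen) := by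
  intro 𝒰 hU
  haveI : Nonempty S := (nonempty_iff_ne_empty.2 fun e : S = ∅ => h.1 (e ▸ countable_empty)).to_subtype
  refine fin_ga (fun n => (hU n).1) (pick h.sel (fun n => (hU n).1) fun n => ?_)
  obtain ⟨u, h1, h2⟩ := (hU n).enum'
  exact ps_ig h1 (h.ps (fun m => (hU n).1.1 _ (h1 m)) h2)

theorem Sier.not_roth {S : Set ℝ} (h : Sier S) : ¬ S1 (Om IsOpen) (Cov (Z := S) IsOpen) := by
  intro H
  have h0 : volume S ≠ 0 := fun e => h.1 (by simpa using h.2 S e)
  obtain ⟨ε, hε, hs⟩ := ENNReal.exists_pos_sum_of_countable h0 ℕ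
  obtain ⟨U, hU, hc⟩ := H (fun n => {U | ∃ V : Set ℝ, IsOpen V ∧ volume V < ε n ∧
      U = Subtype.val ⁻¹' V}) fun n => by
    have hF : ∀ F : Set S, F.Finite → ∃ U ∈ {U : Set S | ∃ V : Set ℝ, IsOpen V ∧ volume V < ε n ∧
        U = Subtype.val ⁻¹' V}, F ⊆ U := by
      intro F hF
      obtain ⟨V, h1, h2, h3⟩ := (Subtype.val '' F).exists_isOpen_lt_of_lt (μ := volume) (ε n)
        (by rw [(hF.image _).measure_zero]; exact_mod_cast hε n)
      exact ⟨_, ⟨V, h2, h3, rfl⟩, fun x hx => h1 ⟨x, hx, rfl⟩⟩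
    refine ⟨⟨?_, eq_univ_of_forall fun x => ?_, ?_⟩, hF⟩
    · rintro _ ⟨V, h1, -, rfl⟩
      exact h1.preimage continuous_subtype_val
    · obtain ⟨U, h1, h2⟩ := hF {x} (finite_singleton x)
      exact ⟨U, h1, h2 rfl⟩
    · rintro ⟨V, -, h2, h3⟩
      have : volume S ≤ volume V := measure_mono fun x hx => (h3 ▸ mem_univ (⟨x, hx⟩ : S) :)
      exact absurd (((this.trans_lt h2).trans_le (ENNReal.le_tsum (f := fun i => (ε i : ℝ≥0∞))
        n)).trans hs) (lt_irrefl _)
  choose V h1 h2 h3 using hU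
  have : S ⊆ ⋃ n, V n := fun x hx => by
    obtain ⟨_, ⟨n, rfl⟩, hn⟩ : (⟨x, hx⟩ : S) ∈ ⋃₀ range U := hc.2.1 ▸ mem_univ _
    exact mem_iUnion.2 ⟨n, by rwa [h3 n] at hn⟩
  exact absurd (((measure_mono this).trans ((measure_iUnion_le _).trans
    (ENNReal.tsum_le_tsum fun n => (h2 n).le))).trans_lt hs) (lt_irrefl _)

end Pool.Agent.H8.Tau
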