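import Mathlib
import Pool.Agent.H8.Sier

set_option autoImplicit false

namespace Pool.Agent.H8.Tau

open Set Filter Topology Function MeasureTheory
open scoped Cardinal ENNReal

theorem enumCH (h : Cardinal.continuum.{0} = Cardinal.aleph 1) :
    ∃ r : ℝ → ℝ → Prop, IsWellOrder ℝ r ∧ (∀ a, {b | ¬ r a b}.Countable) ∧
      ∃ N : ℝ → Set ℝ, (∀ b, volume (N b) = 0) ∧ ∀ M, volume M = 0 → ∃ b, M ⊆ N b := by
  obtain ⟨r, wo, hr⟩ := Cardinal.ord_eq ℝ
  have hseg : ∀ a, {b | r b a}.Countable := by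
    intro a
    have := Cardinal.card_typein_lt a hr
    rw [Cardinal.mk_real, h] at this
    rw [← Cardinal.le_aleph0_iff_set_countable, ← Order.lt_succ_iff, Cardinal.succ_aleph0]
    exact this
  have hc : #{t : Set ℝ | MeasurableSet t ∧ volume t = 0} ≤ #ℝ := by
    obtain ⟨b, hb, -, h2⟩ := TopologicalSpace.exists_countable_basis ℝ
    have h3 := MeasurableSpace.cardinal_measurableSet_le_continuum (s := b)
      (hb.le_aleph0.trans Cardinal.aleph0_le_continuum)
    rw [← h2.borel_eq_generateFrom] at h3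
    rw [Cardinal.mk_real]
    exact (Cardinal.mk_le_mk_of_subset fun t ht => ht.1).trans h3
  obtain ⟨e⟩ := hc
  haveI : Nonempty {t : Set ℝ | MeasurableSet t ∧ volume t = 0} := ⟨⟨∅, by simp⟩⟩
  refine ⟨r, wo, fun a => ((hseg a).insert a).mono fun b hb => ?_, fun b => (invFun e b).1,
    fun b => (invFun e b).2.2, fun M hM => ?_⟩
  · rcases trichotomous_of r a b with h | h | h
    exacts [absurd h hb, Or.inl h.symm, Or.inr h]
  · obtain ⟨t, h1, h2, h3⟩ := exists_measurable_superset_of_null hM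
    obtain ⟨b, hb⟩ := invFun_surjective e.injective ⟨t, h2, h3⟩
    exact ⟨b, fun v hv => by simpa only [hb] using h1 hv⟩

theorem sier_sum (h : Cardinal.continuum.{0} = Cardinal.aleph 1) {D : Set ℝ} (hD : D.Countable) :
    ∃ S, Sier S ∧ (∀ x ∈ S, ∀ y ∈ S, x + y ∉ D) ∧ ∀ z ∉ D, ∃ x ∈ S, ∃ y ∈ S, x + y = z := by
  classical
  obtain ⟨r, wo, hseg, N, hN, hN2⟩ := enumCH h
  obtain ⟨z0, hz0⟩ : ∃ z, z ∉ D := by
    by_contra hc
    push Not at hc
    exact Cardinal.not_countable_real (hD.mono fun x _ => hc x)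
  let t : ℝ → ℝ := fun a => if a ∈ D then z0 else a
  have ht : ∀ a, t a ∉ D := fun a => by
    by_cases h : a ∈ D <;> simp [t, h, hz0]
  let Gd : ℝ → Set ℝ → ℝ → Prop := fun a P x =>
    (∀ b, ¬ r a b → x ∉ N b) ∧ x + x ∉ D ∧ ∀ y ∈ P, x + y ∉ D
  have step : ∀ a (P : Set ℝ), ∃ x, P.Countable → Gd a P x ∧ Gd a P (t a - x) := by
    intro a P
    by_cases hP : P.Countable
    swap
    · exact ⟨0, fun h => absurd h hP⟩
    have h1 : volume {x | ¬ Gd a P x} = 0 := by
      have e1 : volume (⋃ b ∈ {b | ¬ r a b}, N b) = 0 :=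
        (measure_biUnion_null_iff (hseg a)).2 fun b _ => hN b
      have e2 : ((fun d => d / 2) '' D ∪ image2 (fun d y => d - y) D P).Countable :=
        (hD.image _).union (hD.image2 hP _)
      refine measure_mono_null (fun x hx => ?_) (measure_union_null e1 (e2.measure_zero _))
      by_contra hc
      simp only [mem_union, not_or] at hc
      refine hx ⟨fun b hb h => hc.1 (mem_biUnion hb h), fun h => hc.2.1 ⟨_, h, by ring⟩,
        fun y hy h => hc.2.2 ⟨_, h, y, hy, by ring⟩⟩
    have h2 : volume ((fun x => t a - x) ⁻¹' {x | ¬ Gd a P x}) = 0 :=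
      (Measure.measurePreserving_sub_left volume (t a)).quasiMeasurePreserving.preimage_null h1
    by_contra hc
    have : {x | ¬ Gd a P x} ∪ (fun x => t a - x) ⁻¹' {x | ¬ Gd a P x} = univ :=
      eq_univ_of_forall fun x => by
        by_contra h3
        simp only [mem_union, not_or] at h3
        exact hc ⟨x, fun _ => ⟨not_not.1 h3.1, not_not.1 h3.2⟩⟩
    have h4 := measure_union_null h1 h2
    rw [this] at h4
    simp at h4
  choose F hF using step
  let G : ∀ a, (∀ b, r b a → ℝ) → ℝ := fun a ih =>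
    F a (range (fun b : {b // r b a} => ih b.1 b.2) ∪
      range (fun b : {b // r b a} => t b.1 - ih b.1 b.2))
  let x : ℝ → ℝ := wo.wf.fix G
  let P : ℝ → Set ℝ := fun a => range (fun b : {b // r b a} => x b.1) ∪
      range (fun b : {b // r b a} => t b.1 - x b.1)
  have hx : ∀ a, x a = F a (P a) := fun a => wo.wf.fix_eq G a
  have hP : ∀ a, (P a).Countable := fun a => by
    haveI : Countable {b // r b a} := ((hseg a).mono fun b hb => asymm_of r hb).to_subtype
    exact (countable_range _).union (countable_range _)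
  have key : ∀ a, ∀ v, (v = x a ∨ v = t a - x a) → Gd a (P a) v := by
    rintro a v (rfl | rfl)
    · rw [hx]; exact (hF a _ (hP a)).1
    · rw [hx]; exact (hF a _ (hP a)).2
  clear_value x
  refine ⟨{v | ∃ a, v = x a ∨ v = t a - x a}, ⟨fun hc => ?_, fun M hM => ?_⟩, ?_, fun z hz => ?_⟩
  · obtain ⟨b, hb⟩ := hN2 _ (hc.measure_zero volume)
    exact (key b _ (Or.inl rfl)).1 b (irrefl_of r b) (hb ⟨b, Or.inl rfl⟩)
  · obtain ⟨b, hb⟩ := hN2 M hM
    refine (((hseg b).image x).union ((hseg b).image fun a => t a - x a)).mono ?_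
    rintro v ⟨⟨a, ha⟩, h⟩
    have : ¬ r b a := fun hc => (key a v ha).1 b (asymm_of r hc) (hb h)
    rcases ha with rfl | rfl
    exacts [Or.inl ⟨a, this, rfl⟩, Or.inr ⟨a, this, rfl⟩]
  · have lt : ∀ a b v w, (v = x a ∨ v = t a - x a) → (w = x b ∨ w = t b - x b) → r b a →
        v + w ∉ D := by
      intro a b v w ha hb hr
      refine (key a v ha).2.2 w ?_
      rcases hb with rfl | rfl
      exacts [Or.inl ⟨⟨b, hr⟩, rfl⟩, Or.inr ⟨⟨b, hr⟩, rfl⟩]
    rintro v ⟨a, ha⟩ w ⟨b, hb⟩
    rcases trichotomous_of r a b with h | rfl | h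
    · rw [add_comm]; exact lt b a w v hb ha h
    · rcases ha with rfl | rfl <;> rcases hb with rfl | rfl
      · exact (key a _ (Or.inl rfl)).2.1
      · simpa using ht a
      · simpa using ht a
      · exact (key a _ (Or.inr rfl)).2.1
    · exact lt a b v w ha hb h
  · exact ⟨x z, ⟨z, Or.inl rfl⟩, t z - x z, ⟨z, Or.inr rfl⟩, by simp [t, hz]⟩

/-- open sets of reals witnessing a non-Menger complement of a countable set -/
theorem exists_W : ∃ (D : Set ℝ) (W : ℕ → ℕ → Set ℝ), D.Countable ∧ (∀ n k, IsOpen (W n k)) ∧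
    (∀ n, Monotone (W n)) ∧ (∀ n, ∀ z ∉ D, ∃ k, z ∈ W n k) ∧
    ∀ g : ℕ → ℕ, ∃ z ∉ D, ∀ n, z ∉ W n (g n) := by
  classical
  let c : (ℕ → Bool) → ℝ := fun A => (cantorSetHomeomorphNatToBool.symm A).1
  have hc : Continuous c := continuous_subtype_val.comp (Homeomorph.continuous _)
  have hi : Injective c := Subtype.val_injective.comp (Homeomorph.injective _)
  clear_value c
  let cnt : ℕ → (ℕ → Bool) → ℕ := fun k A => ((Finset.range k).filter fun i => A i = true).card
  have hcn : ∀ k, Continuous (cnt k) := fun k => by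
    simp only [cnt, Finset.card_filter]
    exact continuous_finset_sum _ fun i _ =>
      (continuous_of_discreteTopology (f := fun b : Bool => if b = true then 1 else 0)).comp
        (continuous_apply i)
  refine ⟨c '' {A | {i | A i = true}.Finite}, fun n k => (c '' {A | cnt k A ≤ n})ᶜ, ?_,
    fun n k => ?_, fun n a b hab => ?_, fun n z hz => ?_, fun g => ?_⟩
  · refine Countable.image ?_ _
    refine (countable_range fun s : Finset ℕ => fun i => decide (i ∈ s)).mono fun A hA => ?_
    exact ⟨hA.toFinset, funext fun i => by simp⟩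
  · exact ((isClosed_le (hcn k) continuous_const).isCompact.image hc).isClosed.isOpen_compl
  · refine compl_subset_compl.2 (image_mono fun A hA => ?_)
    exact le_trans (Finset.card_le_card (Finset.filter_subset_filter _ (Finset.range_mono hab))) hA
  · by_cases h : ∃ A, c A = z
    · obtain ⟨A, rfl⟩ := h
      have hA : {i | A i = true}.Infinite := fun hf => hz ⟨A, hf, rfl⟩
      obtain ⟨s, hs, hn⟩ := hA.exists_subset_card_eq (n + 1)
      refine ⟨s.sup id + 1, ?_⟩
      rintro ⟨B, hB, e⟩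
      rw [hi e] at hB
      have : s.card ≤ cnt (s.sup id + 1) A := Finset.card_le_card fun i hi =>
        Finset.mem_filter.2 ⟨Finset.mem_range.2 (Nat.lt_succ_of_le (Finset.le_sup (f := id) hi)),
          hs hi⟩
      exact absurd (hn ▸ this.trans hB) (by omega)
    · exact ⟨0, fun ⟨A, _, e⟩ => h ⟨A, e⟩⟩
  · let a : ℕ → ℕ := fun i => (Finset.range (i + 1)).sup g + i
    have ha : StrictMono a := strictMono_nat_of_lt_succ fun i =>
      Nat.add_lt_add_of_le_of_lt (Finset.sup_mono (Finset.range_mono (by omega))) (by omega)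
    refine ⟨c fun i => decide (i ∈ range a), ?_, fun n h => h ⟨_, ?_, rfl⟩⟩
    · rintro ⟨A, hA, e⟩
      rw [hi e] at hA
      exact infinite_range_of_injective ha.injective (hA.subset fun i hi => by simpa using hi)
    · refine le_trans (Finset.card_le_card (t := (Finset.range n).image a) fun i hi => ?_)
        (Finset.card_image_le.trans (by simp))
      obtain ⟨h1, h2⟩ := Finset.mem_filter.1 hi
      obtain ⟨j, rfl⟩ : i ∈ range a := by simpa using h2
      refine Finset.mem_image_of_mem _ (Finset.mem_range.2 ?_)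
      by_contra hc
      have h3 : g n ≤ (Finset.range (j + 1)).sup g :=
        Finset.le_sup (Finset.mem_range.2 (by omega))
      have h4 := Finset.mem_range.1 h1
      simp only [a] at h4
      omega

/-- Under CH there is a Sierpinski set whose square is not Menger (explicit witnesses). -/
theorem sier_sq (h : Cardinal.continuum.{0} = Cardinal.aleph 1) :
    ∃ S, Sier S ∧ ∃ W : ℕ → ℕ → Set ℝ, (∀ n k, IsOpen (W n k)) ∧ (∀ n, Monotone (W n)) ∧
      (∀ n, ∀ x ∈ S, ∀ y ∈ S, ∃ k, x + y ∈ W n k) ∧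
      ∀ g : ℕ → ℕ, ∃ x ∈ S, ∃ y ∈ S, ∀ n, x + y ∉ W n (g n) := by
  obtain ⟨D, W, h1, h2, h3, h4, h5⟩ := exists_W
  obtain ⟨S, h6, h7, h8⟩ := sier_sum h h1
  refine ⟨S, h6, W, h2, h3, fun n x hx y hy => h4 n _ (h7 x hx y hy), fun g => ?_⟩
  obtain ⟨z, hz, h9⟩ := h5 g
  obtain ⟨x, hx, y, hy, rfl⟩ := h8 z hz
  exact ⟨x, hx, y, hy, h9⟩

end Pool.Agent.H8.Tau
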