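import Mathlib
import Pool.Agent.H8.Sier2

set_option autoImplicit false

namespace Pool.Agent.H8.Tau

open Set Filter Topology Function

/-- S_fin(A, B) -/
def Sfin {Z : Type} (A B : Set (Set Z) → Prop) : Prop :=
  ∀ 𝒰 : ℕ → Set (Set Z), (∀ n, A (𝒰 n)) →
    ∃ F : ℕ → Set (Set Z), (∀ n, (F n).Finite ∧ F n ⊆ 𝒰 n) ∧ B (⋃ n, F n)

/-- U_fin(A, B) -/
def Ufin {Z : Type} (A B : Set (Set Z) → Prop) : Prop :=
  ∀ 𝒰 : ℕ → Set (Set Z), (∀ n, A (𝒰 n)) → (∀ n, ¬ ∃ F ⊆ 𝒰 n, F.Finite ∧ ⋃₀ F = univ) →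
    ∃ F : ℕ → Set (Set Z), (∀ n, (F n).Finite ∧ F n ⊆ 𝒰 n) ∧ B (range fun n => ⋃₀ F n)

lemma S1.sfin {Z : Type} {A B : Set (Set Z) → Prop} (h : S1 A B) : Sfin A B := by
  intro 𝒰 hU
  obtain ⟨U, h1, h2⟩ := h 𝒰 hU
  exact ⟨fun n => {U n}, fun n => ⟨finite_singleton _, singleton_subset_iff.2 (h1 n)⟩,
    by rwa [iUnion_singleton_eq_range]⟩

lemma S1.ufin {Z : Type} {A B : Set (Set Z) → Prop} (h : S1 A B) : Ufin A B := by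
  intro 𝒰 hU _
  obtain ⟨U, h1, h2⟩ := h 𝒰 hU
  exact ⟨fun n => {U n}, fun n => ⟨finite_singleton _, singleton_subset_iff.2 (h1 n)⟩,
    by simpa only [sUnion_singleton] using h2⟩

lemma S1.mono {Z : Type} {A A' B B' : Set (Set Z) → Prop} (h : S1 A B) (h1 : ∀ 𝒰, A' 𝒰 → A 𝒰)
    (h2 : ∀ 𝒰, B 𝒰 → B' 𝒰) : S1 A' B' := fun 𝒰 hU =>
  (h 𝒰 fun n => h1 _ (hU n)).imp fun _ h => ⟨h.1, h2 _ h.2⟩

lemma Sfin.mono {Z : Type} {A A' B B' : Set (Set Z) → Prop} (h : Sfin A B)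
    (h1 : ∀ 𝒰, A' 𝒰 → A 𝒰) (h2 : ∀ 𝒰, B 𝒰 → B' 𝒰) : Sfin A' B' := fun 𝒰 hU =>
  (h 𝒰 fun n => h1 _ (hU n)).imp fun _ h => ⟨h.1, h2 _ h.2⟩

lemma bound {α : Type} {F : Set α} (hF : F.Finite) {P : α → ℕ → Prop}
    (h : ∀ V ∈ F, ∃ k, P V k) (hm : ∀ V a b, a ≤ b → P V a → P V b) : ∃ k, ∀ V ∈ F, P V k :=
  ((eventually_all_finite hF).2 fun V hV => by
    obtain ⟨k, hk⟩ := h V hV
    filter_upwards [eventually_ge_atTop k] with b hb using hm V k b hb hk).exists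

section
variable {S : Set ℝ} {W : ℕ → ℕ → Set ℝ}

theorem not_sq (h1 : ∀ n k, IsOpen (W n k)) (h2 : ∀ n, Monotone (W n))
    (h3 : ∀ n, ∀ x ∈ S, ∀ y ∈ S, ∃ k, x + y ∈ W n k)
    (h4 : ∀ g : ℕ → ℕ, ∃ x ∈ S, ∃ y ∈ S, ∀ n, x + y ∉ W n (g n)) :
    ¬ Sfin (Ga IsOpen) (Cov (Z := Fin 2 → S) IsOpen) := by
  intro H
  let u : ℕ → ℕ → Set (Fin 2 → S) := fun n k => {p | (p 0).1 + (p 1).1 ∈ W n k}
  obtain ⟨F, hF, hc⟩ := H (fun n => range (u n)) fun n => ga_range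
    (fun k => (h1 n k).preimage (by fun_prop))
    (fun k e => by
      obtain ⟨x, hx, y, hy, h⟩ := h4 fun _ => k
      have : (![⟨x, hx⟩, ⟨y, hy⟩] : Fin 2 → S) ∈ u n k := e ▸ mem_univ _
      exact h n this)
    fun p => by
      obtain ⟨k, hk⟩ := h3 n _ (p 0).2 _ (p 1).2
      filter_upwards [eventually_ge_atTop k] with j hj using h2 n hj hk
  choose g hg using fun n => bound (hF n).1 (P := fun V k => V ⊆ u n k)
    (fun V hV => by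
      obtain ⟨k, rfl⟩ := (hF n).2 hV
      exact ⟨k, Subset.rfl⟩) fun V a b hab h p hp => h2 n hab (h hp)
  obtain ⟨x, hx, y, hy, h⟩ := h4 g
  obtain ⟨V, hV, hp⟩ : (![⟨x, hx⟩, ⟨y, hy⟩] : Fin 2 → S) ∈ ⋃₀ ⋃ n, F n := hc.2.1 ▸ mem_univ _
  obtain ⟨n, hn⟩ := mem_iUnion.1 hV
  exact h n (hg n V hn hp)

theorem not_oo (h1 : ∀ n k, IsOpen (W n k)) (h2 : ∀ n, Monotone (W n))
    (h3 : ∀ n, ∀ x ∈ S, ∀ y ∈ S, ∃ k, x + y ∈ W n k)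
    (h4 : ∀ g : ℕ → ℕ, ∃ x ∈ S, ∃ y ∈ S, ∀ n, x + y ∉ W n (g n)) :
    ¬ Sfin (Om IsOpen) (Om (Z := S) IsOpen) := by
  intro H
  let P : ℕ → Set S → ℕ → Prop := fun n V k => ∀ x ∈ V, ∀ y ∈ V, x.1 + y.1 ∈ W n k
  obtain ⟨F, hF, hc⟩ := H (fun n => {V | IsOpen V ∧ ∃ k, P n V k}) fun n => by
    have hf : ∀ F : Set S, F.Finite → ∃ U ∈ {V | IsOpen V ∧ ∃ k, P n V k}, F ⊆ U := by
      intro F hF
      obtain ⟨k, hk⟩ := bound (hF.prod hF) (P := fun p k => p.1.1 + p.2.1 ∈ W n k)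
        (fun p _ => h3 n _ p.1.2 _ p.2.2) fun p a b hab h => h2 n hab h
      obtain ⟨a, b, ha, hb, h5, h6, h7⟩ := generalized_tube_lemma hF.isCompact hF.isCompact
        (n := {p : S × S | p.1.1 + p.2.1 ∈ W n k}) ((h1 n k).preimage (by fun_prop)) hk
      exact ⟨a ∩ b, ⟨ha.inter hb, k, fun x hx y hy => h7 (mk_mem_prod hx.1 hy.2)⟩,
        subset_inter h5 h6⟩
    refine ⟨⟨fun V hV => hV.1, eq_univ_of_forall fun x => ?_, ?_⟩, hf⟩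
    · obtain ⟨U, h5, h6⟩ := hf {x} (finite_singleton x)
      exact ⟨U, h5, h6 rfl⟩
    · rintro ⟨-, k, hk⟩
      obtain ⟨x, hx, y, hy, h⟩ := h4 fun _ => k
      exact h n (hk ⟨x, hx⟩ trivial ⟨y, hy⟩ trivial)
  choose g hg using fun n => bound (hF n).1 (P := P n) (fun V hV => ((hF n).2 hV).2)
    fun V a b hab h x hx y hy => h2 n hab (h x hx y hy)
  obtain ⟨x, hx, y, hy, h⟩ := h4 g
  obtain ⟨V, hV, hp⟩ := hc.2 {⟨x, hx⟩, ⟨y, hy⟩} (toFinite _)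
  obtain ⟨n, hn⟩ := mem_iUnion.1 hV
  exact h n (hg n V hn _ (hp (Or.inl rfl)) _ (hp (Or.inr rfl)))

end

theorem pow_idx {Z : Type} [TopologicalSpace Z] (k : ℕ)
    (H : ∀ 𝒰 : ℕ → Set (Set Z), (∀ n, Om IsOpen (𝒰 n)) → ∃ U : ℕ → Set Z, (∀ n, U n ∈ 𝒰 n) ∧ IG U)
    (hk : 0 < k) (𝒰 : ℕ → Set (Set (Fin k → Z))) (h : ∀ n, Om IsOpen (𝒰 n)) :
    ∃ U : ℕ → Set (Fin k → Z), (∀ n, U n ∈ 𝒰 n) ∧ IG U := by
  obtain ⟨V, h1, h2⟩ := H (fun n => {V | IsOpen V ∧ ∃ U ∈ 𝒰 n, (pi univ fun _ => V) ⊆ U})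
    fun n => by
    have hf : ∀ F : Set Z, F.Finite →
        ∃ V ∈ {V | IsOpen V ∧ ∃ U ∈ 𝒰 n, (pi univ fun _ => V) ⊆ U}, F ⊆ V := by
      intro F hF
      have hF' : (pi univ fun _ : Fin k => F).Finite := Finite.pi fun _ => hF
      obtain ⟨U, hU, hFU⟩ := (h n).2 _ hF'
      have : ∀ p : Fin k → Z, ∃ v : Fin k → Set Z, (∀ i, IsOpen (v i) ∧ p i ∈ v i) ∧
          (p ∈ U → pi univ v ⊆ U) := by
        intro p
        by_cases hp : p ∈ U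
        · obtain ⟨v, h3, h4⟩ := isOpen_pi_iff'.1 ((h n).1.1 U hU) p hp
          exact ⟨v, h3, fun _ => h4⟩
        · exact ⟨fun _ => univ, fun _ => ⟨isOpen_univ, trivial⟩, fun h => absurd h hp⟩
      choose v h3 h4 using this
      let N : Z → Set Z := fun x => ⋂ p ∈ (pi univ fun _ : Fin k => F), ⋂ i, {y | p i = x → y ∈ v p i}
      refine ⟨⋃ x ∈ F, N x, ⟨isOpen_biUnion fun x _ => hF'.isOpen_biInter fun p _ =>
        isOpen_iInter_of_finite fun i => ?_, U, hU, fun q hq => ?_⟩, fun x hx => mem_biUnion hx ?_⟩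
      · by_cases e : p i = x
        · simpa [e] using (h3 p i).1
        · simp [e]
      · choose p hp1 hp2 using fun i => mem_iUnion₂.1 (hq i trivial)
        have hp : p ∈ pi univ fun _ : Fin k => F := fun i _ => hp1 i
        exact h4 p (hFU hp) fun i _ => mem_iInter.1 (mem_iInter₂.1 (hp2 i) p hp) i rfl
      · exact mem_iInter₂.2 fun p _ => mem_iInter.2 fun i e => e ▸ (h3 p i).2
    refine ⟨⟨fun V hV => hV.1, eq_univ_of_forall fun x => ?_, ?_⟩, hf⟩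
    · obtain ⟨U, h5, h6⟩ := hf {x} (finite_singleton x)
      exact ⟨U, h5, h6 rfl⟩
    · rintro ⟨-, U, hU, hs⟩
      exact (h n).1.2.2 (eq_univ_of_forall (fun p => hs fun _ _ => trivial) ▸ hU)
  choose U h3 h4 using fun n => (h1 n).2
  refine ⟨U, h3, fun p => ?_⟩
  filter_upwards [eventually_all.2 fun i => h2 (p i)] with n hn using h4 n fun i _ => hn i

end Pool.Agent.H8.Tau
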