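import Mathlib

set_option autoImplicit false

namespace Pool.Agent.H8.SG

open Set Filter Topology Function

def tr (x : ℕ → Bool) (l : ℕ) : Finset ℕ :=
  (Finset.range ((l + 1) ^ 2)).filter fun i => Nat.sqrt i = l ∧ x i = true

lemma mem_tr {x : ℕ → Bool} {l i : ℕ} : i ∈ tr x l ↔ Nat.sqrt i = l ∧ x i = true := by
  simp only [tr, Finset.mem_filter, Finset.mem_range, and_iff_right_iff_imp]
  rintro ⟨rfl, -⟩
  exact Nat.lt_succ_sqrt' i

lemma card_full (l : ℕ) : (tr (fun _ => true) l).card = 2 * l + 1 := by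
  have : tr (fun _ => true) l = Finset.Ico (l ^ 2) ((l + 1) ^ 2) := by
    ext i
    simp only [mem_tr, and_true, Finset.mem_Ico]
    rw [eq_comm, Nat.eq_sqrt']
  rw [this, Nat.card_Ico]
  have : (l + 1) ^ 2 = l ^ 2 + (2 * l + 1) := by ring
  omega

def Sub (x y : ℕ → Bool) : Prop := ∀ᶠ i in atTop, x i = true → y i = true

def Pos (x : ℕ → Bool) : Prop := ∀ m N b, b < 2 → ∃ l ≥ N, l % 2 = b ∧ l + m ≤ (tr x l).card

lemma Sub.refl (x : ℕ → Bool) : Sub x x := Eventually.of_forall fun _ => id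

lemma Sub.trans {x y z : ℕ → Bool} (h : Sub x y) (h' : Sub y z) : Sub x z := by
  filter_upwards [h, h'] with i a b c using b (a c)

lemma Pos.mono {x y : ℕ → Bool} (h : Pos x) (hs : Sub x y) : Pos y := by
  intro m N b hb
  obtain ⟨M, hM⟩ := eventually_atTop.1 hs
  obtain ⟨l, h1, h2, h3⟩ := h m (max N M) b hb
  refine ⟨l, le_of_max_le_left h1, h2, h3.trans (Finset.card_le_card fun i hi => ?_)⟩
  obtain ⟨h4, h5⟩ := mem_tr.1 hi
  exact mem_tr.2 ⟨h4, hM i ((le_of_max_le_right h1).trans (h4 ▸ Nat.sqrt_le_self i)) h5⟩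

lemma pos_full : Pos fun _ => true := fun m N b hb =>
  ⟨2 * (N + m) + b, by omega, by omega, by rw [card_full]; omega⟩

lemma avoid {s : Finset ℕ} {T : Finset (Finset ℕ)} (h : T.card < s.card) :
    ∃ t ⊆ s, t ∉ T ∧ s.card ≤ t.card + 1 := by
  by_contra hc
  push Not at hc
  refine absurd (Finset.card_le_card_of_injOn (s := s) (t := T) (fun i => s.erase i)
    (fun i hi => ?_) fun i hi j hj e => ?_) (not_le.2 h)
  · by_contra h1
    have := hc _ (Finset.erase_subset i s) h1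
    rw [Finset.card_erase_of_mem hi] at this
    omega
  · exact (Finset.erase_inj s hi).1 e

lemma cyl {y : ℕ → Bool} {O : Set (ℕ → Bool)} (hO : IsOpen O) (hy : y ∈ O) :
    ∃ N, ∀ x : ℕ → Bool, (∀ i < N, x i = y i) → x ∈ O := by
  obtain ⟨I, u, h1, h2⟩ := isOpen_pi_iff.1 hO y hy
  refine ⟨I.sup id + 1, fun x hx => h2 fun i hi => ?_⟩
  rw [hx i (Nat.lt_succ_of_le (Finset.le_sup (f := id) hi))]
  exact (h1 i hi).2

lemma open_tr (l : ℕ) (T : Finset (Finset ℕ)) : IsOpen {x | tr x l ∈ T} := by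
  refine isOpen_iff_mem_nhds.2 fun y hy => ?_
  have : ∀ᶠ x in 𝓝 y, ∀ i ∈ Finset.range ((l + 1) ^ 2), x i = y i :=
    (Finset.eventually_all _).2 fun i _ =>
      ((isOpen_discrete {y i}).preimage (continuous_apply (A := fun _ : ℕ => Bool) i)).mem_nhds
        (mem_singleton (y i))
  filter_upwards [this] with x hx
  have : tr x l = tr y l := Finset.filter_congr fun i hi => by rw [hx i hi]
  simpa only [mem_setOf_eq, this] using hy

def Fn : Set (ℕ → Bool) := {y | ∀ᶠ i in atTop, y i = false}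

lemma fin_low (a : ℕ) : {y : ℕ → Bool | ∀ i, a ≤ Nat.sqrt i → y i = false}.Finite := by
  refine Finite.of_finite_image (f := fun y (i : Fin (a ^ 2)) => y i) (toFinite _)
    fun y hy z hz e => funext fun i => ?_
  by_cases h : a ≤ Nat.sqrt i
  · rw [hy i h, hz i h]
  · exact congrFun e ⟨i, Nat.sqrt_lt'.1 (not_le.1 h)⟩

lemma gm {𝒱 : Set (Set (ℕ → Bool))} (ho : ∀ V ∈ 𝒱, IsOpen V) {Q : Set (ℕ → Bool)}
    (hω : ∀ F, F.Finite → F ⊆ Q ∪ Fn → ∃ V ∈ 𝒱, F ⊆ V) {F : Set (ℕ → Bool)} (hF : F.Finite)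
    (hQ : F ⊆ Q) (a : ℕ) : ∃ V ∈ 𝒱, F ⊆ V ∧ ∃ N, ∀ x : ℕ → Bool,
      (∀ i, a ≤ Nat.sqrt i → Nat.sqrt i < N → x i = false) → x ∈ V := by
  obtain ⟨V, hV, h⟩ := hω _ (hF.union (fin_low a)) (union_subset_union hQ fun y hy => by
    filter_upwards [eventually_ge_atTop (a ^ 2)] with i hi using hy i (Nat.le_sqrt'.2 hi))
  refine ⟨V, hV, fun y hy => h (Or.inl hy), ?_⟩
  obtain ⟨N, hN⟩ := ((eventually_all_finite (fin_low a)).2 fun y hy => by
    obtain ⟨N, hN⟩ := cyl (ho V hV) (h (Or.inr hy))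
    show ∀ᶠ M in atTop, ∀ x : ℕ → Bool, (∀ i < M, x i = y i) → x ∈ V
    filter_upwards [eventually_ge_atTop N] with M hM x hx using
      hN x fun i hi => hx i (hi.trans_le hM)).exists
  refine ⟨N, fun x hx => hN (fun i => if a ≤ Nat.sqrt i then false else x i)
    (fun i hi => if_pos hi) x fun i hi => ?_⟩
  split_ifs with h1
  · exact hx i h1 ((Nat.sqrt_le_self i).trans_lt hi)
  · rfl

theorem stage (Y : ℕ → ℕ → Bool) (hY : ∀ k, ∃ z, Pos z ∧ ∀ j ≤ k, ∀ i, z i = true → Y j i = true)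
    (Q : ℕ → ℕ → Bool) (𝒱 : ℕ → Set (Set (ℕ → Bool))) (ho : ∀ k, ∀ V ∈ 𝒱 k, IsOpen V)
    (hω : ∀ k F, F.Finite → F ⊆ range Q ∪ Fn → ∃ V ∈ 𝒱 k, F ⊆ V)
    (T : ℕ → Finset (Finset ℕ)) (hT : ∀ l, (T l).card ≤ l) :
    ∃ x, Pos x ∧ (∀ j, Sub x (Y j)) ∧ (∀ N b, b < 2 → ∃ l ≥ N, l % 2 = b ∧ tr x l ∉ T l) ∧
      ∃ V : ℕ → Set (ℕ → Bool), (∀ k, V k ∈ 𝒱 k) ∧ (∀ j, ∀ᶠ k in atTop, Q j ∈ V k) ∧
        ∀ y, Sub y x → ∀ᶠ k in atTop, y ∈ V k := by
  classical
  choose V hV1 hV2 N hN using fun a k => gm (ho k) (hω k) ((finite_Iic k).image Q)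
    (image_subset_range _ _) a
  choose z hz1 hz2 using hY
  have : ∀ a k, ∃ l, ∃ t : Finset ℕ, a ≤ l ∧ N a k ≤ l ∧ l % 2 = k % 2 ∧ t ⊆ tr (z k) l ∧
      t ∉ T l ∧ l + k ≤ t.card := by
    intro a k
    obtain ⟨l, h1, h2, h3⟩ := hz1 k (k + 1) (max a (N a k)) (k % 2) (by omega)
    obtain ⟨t, h4, h5, h6⟩ := avoid (s := tr (z k) l) (T := T l) (by have := hT l; omega)
    exact ⟨l, t, le_of_max_le_left h1, le_of_max_le_right h1, h2, h4, h5, by omega⟩
  choose ν t h1 h2 h3 h4 h5 h6 using this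
  let a : ℕ → ℕ := fun k => Nat.rec 0 (fun k c => ν c k + 1) k
  have ha : ∀ k, a (k + 1) = ν (a k) k + 1 := fun _ => rfl
  clear_value a
  have am : StrictMono a := strictMono_nat_of_lt_succ fun k => by have := h1 (a k) k; rw [ha]; omega
  have lv : ∀ k, ∀ i ∈ t (a k) k, Nat.sqrt i = ν (a k) k := fun k i hi => (mem_tr.1 (h4 _ _ hi)).1
  have nm : StrictMono fun k => ν (a k) k := strictMono_nat_of_lt_succ fun k => by
    have := h1 (a (k + 1)) (k + 1)
    rw [ha] at this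
    simp only [ha]
    omega
  let x : ℕ → Bool := fun i => decide (∃ k, i ∈ t (a k) k)
  have hx : ∀ i, x i = true ↔ ∃ k, i ∈ t (a k) k := fun i => by simp [x]
  clear_value x
  have trx : ∀ k, tr x (ν (a k) k) = t (a k) k := fun k => by
    ext i
    rw [mem_tr, hx]
    refine ⟨fun ⟨e, j, hj⟩ => ?_, fun h => ⟨lv k i h, k, h⟩⟩
    rwa [← nm.injective ((lv j i hj).symm.trans e)]
  refine ⟨x, fun m M b hb => ⟨_, ?_, ?_, by rw [trx (2 * (m + M) + b)]; exact le_trans (by omega) (h6 _ _)⟩,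
    fun j => ?_, fun M b hb => ⟨_, ?_, ?_, by rw [trx (2 * M + b)]; exact h5 _ _⟩,
    fun k => V (a k) k, fun k => hV1 _ _, fun j => ?_, fun y hy => ?_⟩
  · exact le_trans (show M ≤ 2 * (m + M) + b by omega) (nm.id_le (2 * (m + M) + b))
  · rw [h3]; omega
  · filter_upwards [eventually_ge_atTop (a j ^ 2)] with i hi hxi
    obtain ⟨k, hk⟩ := (hx i).1 hxi
    refine hz2 k j ?_ i (mem_tr.1 (h4 _ _ hk)).2
    by_contra hc
    have e1 := am.monotone (show k + 1 ≤ j by omega)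
    have e2 := Nat.le_sqrt'.2 hi
    rw [lv k i hk] at e2
    rw [ha] at e1
    omega
  · exact le_trans (show M ≤ 2 * M + b by omega) (nm.id_le (2 * M + b))
  · rw [h3]; omega
  · filter_upwards [eventually_ge_atTop j] with k hk using hV2 _ _ ⟨j, hk, rfl⟩
  · obtain ⟨M, hM⟩ := eventually_atTop.1 hy
    filter_upwards [eventually_ge_atTop M] with k hk
    refine hN _ _ y fun i e1 e2 => ?_
    by_contra hc
    obtain ⟨j, hj⟩ := (hx i).1 (hM i ((hk.trans (am.id_le k)).trans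
      (e1.trans (Nat.sqrt_le_self i))) (by simpa using hc))
    rw [lv j i hj] at e1 e2
    rcases lt_or_ge j k with h | h
    · have := am.monotone (show j + 1 ≤ k from h)
      rw [ha] at this
      omega
    · have e3 := nm.monotone h
      have := h2 (a k) k
      omega

end Pool.Agent.H8.SG
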