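import Mathlib
import Pool.Agent.H8.SG1

set_option autoImplicit false

namespace Pool.Agent.H8.SG

open Set Filter Topology Function
open scoped Cardinal

def cut (b : ℕ) (y : ℕ → Bool) : ℕ → Bool := fun i => y i && decide (Nat.sqrt i % 2 = b)

lemma cut_sub (b : ℕ) (y : ℕ → Bool) : Sub (cut b y) y :=
  Eventually.of_forall fun i h => by simp only [cut, Bool.and_eq_true] at h; exact h.1

lemma tr_cut_eq {b l : ℕ} (y : ℕ → Bool) (h : l % 2 = b) : tr (cut b y) l = tr y l := by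
  ext i
  simp only [mem_tr, cut, Bool.and_eq_true, decide_eq_true_eq]
  exact ⟨fun h' => ⟨h'.1, h'.2.1⟩, fun h' => ⟨h'.1, h'.2, h'.1 ▸ h⟩⟩

lemma tr_cut_ne {b l : ℕ} (y : ℕ → Bool) (h : l % 2 ≠ b) : tr (cut b y) l = ∅ := by
  ext i
  simp only [mem_tr, cut, Bool.and_eq_true, decide_eq_true_eq, Finset.notMem_empty, iff_false]
  exact fun h' => h (h'.1 ▸ h'.2.2)

lemma wo_of_CH (h : Cardinal.continuum.{0} = Cardinal.aleph 1) (J : Type) (hJ : #J ≤ 𝔠) :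
    ∃ r : J → J → Prop, IsWellOrder J r ∧ ∀ a, {b | r b a}.Countable := by
  obtain ⟨r, wo, hr⟩ := Cardinal.ord_eq J
  refine ⟨r, wo, fun a => ?_⟩
  have := (Cardinal.card_typein_lt a hr).trans_le hJ
  rw [h] at this
  rw [← Cardinal.le_aleph0_iff_set_countable, ← Order.lt_succ_iff, Cardinal.succ_aleph0]
  exact this

lemma chain_min (Y : ℕ → ℕ → Bool) (hc : ∀ a b, Sub (Y a) (Y b) ∨ Sub (Y b) (Y a)) (k : ℕ) :
    ∃ j, ∀ i ≤ k, Sub (Y j) (Y i) := by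
  induction k with
  | zero => exact ⟨0, fun i hi => by rw [Nat.le_zero.1 hi]; exact Sub.refl _⟩
  | succ k ih =>
    obtain ⟨j, hj⟩ := ih
    rcases hc j (k + 1) with h | h
    · exact ⟨j, fun i hi => (Nat.of_le_succ hi).elim (hj i) fun e => e ▸ h⟩
    · exact ⟨k + 1, fun i hi => (Nat.of_le_succ hi).elim (fun e => h.trans (hj i e))
        fun e => e ▸ Sub.refl _⟩

def St (𝒱 : ℕ → Set (Set (ℕ → Bool))) (T : ℕ → Finset (Finset ℕ)) (P : Set (ℕ → Bool))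
    (x : ℕ → Bool) : Prop :=
  Pos x ∧ (∀ y ∈ P, Sub x y) ∧
    ((∀ l, (T l).card ≤ l) → ∀ N b, b < 2 → ∃ l ≥ N, l % 2 = b ∧ tr x l ∉ T l) ∧
    ((∀ k F, F.Finite → F ⊆ (cut 0 '' P ∪ cut 1 '' P) ∪ Fn → ∃ V ∈ 𝒱 k, F ⊆ V) →
      ∃ V : ℕ → Set (ℕ → Bool), (∀ k, V k ∈ 𝒱 k) ∧
        (∀ y ∈ cut 0 '' P ∪ cut 1 '' P, ∀ᶠ k in atTop, y ∈ V k) ∧
        ∀ y, Sub y x → ∀ᶠ k in atTop, y ∈ V k)

lemma exists_St (𝒱 : ℕ → Set (Set (ℕ → Bool))) (ho : ∀ k, ∀ V ∈ 𝒱 k, IsOpen V)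
    (T : ℕ → Finset (Finset ℕ)) {P : Set (ℕ → Bool)} (hP : P.Countable) (h1 : ∀ y ∈ P, Pos y)
    (h2 : ∀ y ∈ P, ∀ z ∈ P, Sub y z ∨ Sub z y) : ∃ x, St 𝒱 T P x := by
  classical
  obtain ⟨Y, hY⟩ := (hP.insert fun _ => true).exists_eq_range (insert_nonempty _ _)
  obtain ⟨Q, hQ⟩ := (((hP.image (cut 0)).union (hP.image (cut 1))).insert
    fun _ => false).exists_eq_range (insert_nonempty _ _)
  have mY : ∀ j, Y j = (fun _ => true) ∨ Y j ∈ P := fun j =>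
    (hY ▸ mem_range_self j : Y j ∈ insert (fun _ => true) P)
  have hz : ∀ k, ∃ z, Pos z ∧ ∀ j ≤ k, ∀ i, z i = true → Y j i = true := by
    intro k
    obtain ⟨j, hj⟩ := chain_min Y (fun a b => by
      rcases mY a with ha | ha
      · exact Or.inr (Eventually.of_forall fun i _ => by rw [ha])
      rcases mY b with hb | hb
      · exact Or.inl (Eventually.of_forall fun i _ => by rw [hb])
      exact h2 _ ha _ hb) k
    refine ⟨fun i => decide (∀ j ≤ k, Y j i = true), Pos.mono (x := Y j) ?_ ?_,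
      fun j hj i hi => of_decide_eq_true hi j hj⟩
    · exact (mY j).elim (fun e => e ▸ pos_full) (h1 _)
    · filter_upwards [(eventually_all_finite (finite_Iic k)).2 hj] with i hi e
      exact decide_eq_true fun j hj => hi j hj e
  let C : Prop := ∀ k F, F.Finite → F ⊆ (cut 0 '' P ∪ cut 1 '' P) ∪ Fn → ∃ V ∈ 𝒱 k, F ⊆ V
  obtain ⟨x, a1, a2, a3, V, a4, a5, a6⟩ := stage Y hz Q (fun k => if C then 𝒱 k else {univ})
    (fun k V hV => by
      split_ifs at hV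
      exacts [ho k V hV, hV ▸ isOpen_univ])
    (fun k F hF hs => by
      split_ifs with hC
      · refine hC k F hF (hs.trans ?_)
        rw [← hQ]
        rintro y ((rfl | h) | h)
        exacts [Or.inr (Eventually.of_forall fun _ => rfl), Or.inl h, Or.inr h]
      · exact ⟨univ, rfl, subset_univ _⟩)
    (fun l => if (T l).card ≤ l then T l else ∅) (fun l => by split_ifs <;> simp [*])
  refine ⟨x, a1, fun y hy => ?_, fun hT => by simpa only [hT, if_true] using a3,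
    fun hC => ⟨V, fun k => by simpa only [if_pos (show C from hC)] using a4 k, fun y hy => ?_, a6⟩⟩
  · obtain ⟨j, rfl⟩ : y ∈ range Y := hY ▸ Or.inr hy
    exact a2 j
  · obtain ⟨j, rfl⟩ : y ∈ range Q := hQ ▸ Or.inr hy
    exact a5 j

theorem tower (h : Cardinal.continuum.{0} = Cardinal.aleph 1) {K : Set (Set (ℕ → Bool))}
    (hK : K.Countable) (ho : ∀ V ∈ K, IsOpen V) : ∃ X : Set (ℕ → Bool), Fn ⊆ X ∧
    (∀ 𝒱 : ℕ → Set (Set (ℕ → Bool)), (∀ k, 𝒱 k ⊆ K) →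
      (∀ k F, F.Finite → F ⊆ X → ∃ V ∈ 𝒱 k, F ⊆ V) →
      ∃ V : ℕ → Set (ℕ → Bool), (∀ k, V k ∈ 𝒱 k) ∧ ∀ y ∈ X, ∀ᶠ k in atTop, y ∈ V k) ∧
    ∀ T : ℕ → Finset (Finset ℕ), (∀ l, (T l).card ≤ l) → ∃ x, cut 0 x ∈ X ∧ cut 1 x ∈ X ∧
      ∀ N b, b < 2 → ∃ l ≥ N, l % 2 = b ∧ tr x l ∉ T l := by
  haveI := hK.to_subtype
  obtain ⟨r, wo, hseg⟩ := wo_of_CH h ((ℕ → Set K) × (ℕ → Finset (Finset ℕ))) (by
    have e1 : #(Set K) ≤ 𝔠 := by
      rw [Cardinal.mk_set, ← Cardinal.two_power_aleph0]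
      exact Cardinal.power_le_power_left two_ne_zero Cardinal.mk_le_aleph0
    have e2 : #(Finset (Finset ℕ)) ≤ 𝔠 := Cardinal.mk_le_aleph0.trans Cardinal.aleph0_le_continuum
    have e3 : ∀ α : Type, #α ≤ 𝔠 → #(ℕ → α) ≤ 𝔠 := fun α hα => by
      rw [← Cardinal.power_def, Cardinal.mk_nat, ← Cardinal.continuum_power_aleph0]
      exact Cardinal.power_le_power_right hα
    rw [Cardinal.mk_prod, Cardinal.lift_id, Cardinal.lift_id, ← Cardinal.continuum_mul_self]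
    exact mul_le_mul' (e3 _ e1) (e3 _ e2))
  have : ∀ (j : (ℕ → Set K) × (ℕ → Finset (Finset ℕ))) (P : Set (ℕ → Bool)), ∃ x,
      P.Countable → (∀ y ∈ P, Pos y) → (∀ y ∈ P, ∀ z ∈ P, Sub y z ∨ Sub z y) →
        St (fun k => Subtype.val '' j.1 k) j.2 P x := by
    intro j P
    by_cases hc : P.Countable ∧ (∀ y ∈ P, Pos y) ∧ ∀ y ∈ P, ∀ z ∈ P, Sub y z ∨ Sub z y
    · obtain ⟨x, hx⟩ := exists_St (fun k => Subtype.val '' j.1 k)
        (by rintro k _ ⟨V, -, rfl⟩; exact ho _ V.2) j.2 hc.1 hc.2.1 hc.2.2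
      exact ⟨x, fun _ _ _ => hx⟩
    · exact ⟨fun _ => true, fun a b c => absurd ⟨a, b, c⟩ hc⟩
  choose F hF using this
  let x : (ℕ → Set K) × (ℕ → Finset (Finset ℕ)) → ℕ → Bool :=
    wo.wf.fix fun a ih => F a (range fun b : {b // r b a} => ih b.1 b.2)
  have hx : ∀ a, x a = F a (range fun b : {b // r b a} => x b.1) := fun a => wo.wf.fix_eq _ a
  clear_value x
  have key : ∀ a, St (fun k => Subtype.val '' a.1 k) a.2
      (range fun b : {b // r b a} => x b.1) (x a) := by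
    intro a
    induction a using wo.wf.induction with
    | _ a ih =>
      haveI : Countable {b // r b a} := (hseg a).to_subtype
      rw [hx a]
      refine hF a _ (countable_range _) (by rintro _ ⟨b, rfl⟩; exact (ih b.1 b.2).1) ?_
      rintro _ ⟨b, rfl⟩ _ ⟨c, rfl⟩
      rcases trichotomous_of r b.1 c.1 with h | h | h
      · exact Or.inr ((ih c.1 c.2).2.1 _ ⟨⟨b.1, h⟩, rfl⟩)
      · exact Or.inl (by simp only [h]; exact Sub.refl _)
      · exact Or.inl ((ih b.1 b.2).2.1 _ ⟨⟨c.1, h⟩, rfl⟩)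
  refine ⟨(cut 0 '' range x ∪ cut 1 '' range x) ∪ Fn, subset_union_right, fun 𝒱 h1 h2 => ?_,
    fun T hT => ⟨x (fun _ => ∅, T), Or.inl (Or.inl ⟨_, ⟨_, rfl⟩, rfl⟩),
      Or.inl (Or.inr ⟨_, ⟨_, rfl⟩, rfl⟩), (key _).2.2.1 hT⟩⟩
  let a : (ℕ → Set K) × (ℕ → Finset (Finset ℕ)) := (fun k => Subtype.val ⁻¹' 𝒱 k, fun _ => ∅)
  have e : ∀ k, Subtype.val '' a.1 k = 𝒱 k := fun k =>
    image_preimage_eq_of_subset (by simpa using h1 k)
  have hs : (range fun b : {b // r b a} => x b.1) ⊆ range x := by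
    rintro _ ⟨b, rfl⟩; exact ⟨_, rfl⟩
  obtain ⟨V, a1, a2, a3⟩ := (key a).2.2.2 fun k F hF h => by
    simp only [e]
    exact h2 k F hF (h.trans (union_subset_union_left _
      (union_subset_union (image_mono hs) (image_mono hs))))
  refine ⟨V, fun k => e k ▸ a1 k, ?_⟩
  have sub : ∀ c, ¬ r c a → Sub (x c) (x a) := fun c hc => by
    rcases trichotomous_of r c a with h | h | h
    exacts [absurd h hc, h ▸ Sub.refl _, (key c).2.1 _ ⟨⟨a, h⟩, rfl⟩]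
  rintro y ((⟨_, ⟨c, rfl⟩, rfl⟩ | ⟨_, ⟨c, rfl⟩, rfl⟩) | hy)
  · by_cases hc : r c a
    exacts [a2 _ (Or.inl ⟨_, ⟨⟨c, hc⟩, rfl⟩, rfl⟩), a3 _ ((cut_sub _ _).trans (sub c hc))]
  · by_cases hc : r c a
    exacts [a2 _ (Or.inr ⟨_, ⟨⟨c, hc⟩, rfl⟩, rfl⟩), a3 _ ((cut_sub _ _).trans (sub c hc))]
  · exact a3 y (hy.mono fun i h1 h2 => by simp [h1] at h2)

end Pool.Agent.H8.SG
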