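import Mathlib
import Pool.Agent.H8.SG2

set_option autoImplicit false

namespace Pool.Agent.H8.SG

open Set Filter Topology Function
open scoped Cardinal

theorem rec_CH (h : Cardinal.continuum.{0} = Cardinal.aleph 1) {J A : Type} (hJ : #J ≤ 𝔠)
    (G : Set A → Prop) (T : J → Set A → Prop) {S₀ : Set A} (h0 : S₀.Countable) (g0 : G S₀)
    (hG : ∀ c : Set (Set A), c.Nonempty → IsChain (· ⊆ ·) c → (∀ s ∈ c, G s) → G (⋃₀ c))
    (step : ∀ S, S₀ ⊆ S → S.Countable → G S → ∀ j, ∃ S', S ⊆ S' ∧ S'.Countable ∧ G S' ∧ T j S') :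
    ∃ S, S₀ ⊆ S ∧ G S ∧ ∀ j, ∃ S' ⊆ S, T j S' := by
  obtain ⟨r, wo, hseg⟩ := wo_of_CH h J hJ
  have : ∀ (j : J) (S : Set A), ∃ S', S₀ ⊆ S → S.Countable → G S →
      S ⊆ S' ∧ S'.Countable ∧ G S' ∧ T j S' := by
    intro j S
    by_cases hc : S₀ ⊆ S ∧ S.Countable ∧ G S
    · obtain ⟨x, hx⟩ := step S hc.1 hc.2.1 hc.2.2 j
      exact ⟨x, fun _ _ _ => hx⟩
    · exact ⟨S, fun a b c => absurd ⟨a, b, c⟩ hc⟩
  choose F hF using this
  let x : J → Set A :=
    wo.wf.fix fun a ih => F a (⋃₀ insert S₀ (range fun b : {b // r b a} => ih b.1 b.2))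
  have hx : ∀ a, x a = F a (⋃₀ insert S₀ (range fun b : {b // r b a} => x b.1)) :=
    fun a => wo.wf.fix_eq _ a
  clear_value x
  let P : J → Prop := fun a =>
    ⋃₀ insert S₀ (range fun b : {b // r b a} => x b.1) ⊆ x a ∧ (x a).Countable ∧ G (x a) ∧ T a (x a)
  have ch : ∀ p : J → Prop, (∀ b, p b → P b) →
      G (⋃₀ insert S₀ (range fun b : {b // p b} => x b.1)) := by
    intro p hp
    have e0 : ∀ b, p b → S₀ ⊆ x b := fun b hb =>
      (subset_sUnion_of_mem (mem_insert _ _)).trans (hp b hb).1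
    have e1 : ∀ b c, p c → r b c → x b ⊆ x c := fun b c hc hr =>
      (subset_sUnion_of_mem (Or.inr ⟨⟨b, hr⟩, rfl⟩)).trans (hp c hc).1
    refine hG _ (insert_nonempty _ _) ?_ ?_
    · rintro _ (rfl | ⟨b, rfl⟩) _ (rfl | ⟨c, rfl⟩) -
      · exact Or.inl Subset.rfl
      · exact Or.inl (e0 _ c.2)
      · exact Or.inr (e0 _ b.2)
      · rcases trichotomous_of r b.1 c.1 with h | h | h
        · exact Or.inl (e1 _ _ c.2 h)
        · exact Or.inl (by simp only [h]; exact Subset.rfl)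
        · exact Or.inr (e1 _ _ b.2 h)
    · rintro _ (rfl | ⟨b, rfl⟩)
      exacts [g0, (hp _ b.2).2.2.1]
  have key : ∀ a, P a := by
    intro a
    induction a using wo.wf.induction with
    | _ a ih =>
      haveI : Countable {b // r b a} := (hseg a).to_subtype
      have := hF a _ (subset_sUnion_of_mem (mem_insert _ _))
        (((countable_range fun b : {b // r b a} => x b.1).insert S₀).sUnion (by
          rintro _ (rfl | ⟨b, rfl⟩)
          exacts [h0, (ih _ b.2).2.1])) (ch _ ih)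
      rwa [← hx a] at this
  exact ⟨_, subset_sUnion_of_mem (mem_insert _ _), ch (fun _ => True) fun b _ => key b, fun j =>
    ⟨x j, subset_sUnion_of_mem (Or.inr ⟨⟨j, trivial⟩, rfl⟩), (key j).2.2.2⟩⟩

lemma card_open (Z : Type) [TopologicalSpace Z] [SecondCountableTopology Z] :
    #{U : Set Z // IsOpen U} ≤ 𝔠 := by
  haveI := (TopologicalSpace.countable_countableBasis Z).to_subtype
  have e1 : #(Set (TopologicalSpace.countableBasis Z)) ≤ 𝔠 := by
    rw [Cardinal.mk_set, ← Cardinal.two_power_aleph0]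
    exact Cardinal.power_le_power_left two_ne_zero Cardinal.mk_le_aleph0
  refine le_trans (Cardinal.mk_le_of_surjective (f := fun s : Set (TopologicalSpace.countableBasis Z) =>
    (⟨⋃₀ (Subtype.val '' s), isOpen_sUnion (by
      rintro _ ⟨V, -, rfl⟩
      exact TopologicalSpace.isOpen_of_mem_countableBasis V.2)⟩ : {U : Set Z // IsOpen U}))
    fun U => ?_) e1
  obtain ⟨S, h1, h2⟩ := (TopologicalSpace.isBasis_countableBasis Z).open_eq_sUnion U.2
  refine ⟨Subtype.val ⁻¹' S, Subtype.ext ?_⟩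
  simp only
  rw [image_preimage_eq_of_subset (by simpa using h1), ← h2]

lemma card_seq (α : Type) (hα : #α ≤ 𝔠) : #(ℕ → α) ≤ 𝔠 := by
  rw [← Cardinal.power_def, Cardinal.mk_nat, ← Cardinal.continuum_power_aleph0]
  exact Cardinal.power_le_power_right hα

lemma card_prod {α β : Type} (hα : #α ≤ 𝔠) (hβ : #β ≤ 𝔠) : #(α × β) ≤ 𝔠 := by
  rw [Cardinal.mk_prod, Cardinal.lift_id, Cardinal.lift_id, ← Cardinal.continuum_mul_self]
  exact mul_le_mul' hα hβ

lemma card_ct (α : Type) [Countable α] : #α ≤ 𝔠 :=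
  Cardinal.mk_le_aleph0.trans Cardinal.aleph0_le_continuum

lemma intervals {I : Type} [Countable I] [Nonempty I] (Q : I → ℕ → ℕ → Prop)
    (h : ∀ r a, ∃ N, Q r a N) : ∃ S : ℕ → Bool, ∀ r c j, ∃ a ≥ j, ∃ N, Q r a N ∧
      ∀ m, a ≤ m → m < N → S m = c := by
  classical
  choose N hN using h
  obtain ⟨e, he⟩ := exists_surjective_nat (I × Bool)
  let a : ℕ → ℕ := fun k => Nat.rec 0 (fun k a => max (a + 1) (N (e k.unpair.2).1 a)) k
  have ha : ∀ k, a (k + 1) = max (a k + 1) (N (e k.unpair.2).1 (a k)) := fun _ => rfl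
  have hm : StrictMono a := strictMono_nat_of_lt_succ fun k => by rw [ha]; omega
  have ex : ∀ m, ∃ k, m < a (k + 1) := fun m => ⟨m, (hm.le_apply (x := m + 1))⟩
  refine ⟨fun m => (e (Nat.find (ex m)).unpair.2).2, fun r c j => ?_⟩
  obtain ⟨i, hi⟩ := he (r, c)
  have e1 : e (Nat.pair j i).unpair.2 = (r, c) := by rw [Nat.unpair_pair]; exact hi
  refine ⟨a (Nat.pair j i), (Nat.left_le_pair j i).trans hm.le_apply, _, hN r _, fun m h1 h2 => ?_⟩
  have : Nat.find (ex m) = Nat.pair j i := by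
    rw [Nat.find_eq_iff]
    refine ⟨by rw [ha, e1]; exact lt_max_of_lt_right h2, fun k hk => not_lt.2 ?_⟩
    exact (hm.monotone hk).trans h1
  simp only [this, e1]

end Pool.Agent.H8.SG
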