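import Mathlib
import Pool.Agent.H8.Tau3

set_option autoImplicit false

namespace Pool.Agent.H8.Tau

open Set Filter Topology Function MeasureTheory
open scoped Cardinal ENNReal

lemma cantor_null : volume cantorSet = 0 := by
  have hf : volume cantorSet ≠ ∞ := isCompact_cantorSet.measure_lt_top.ne
  have e1 : (fun x : ℝ => x / 3) '' cantorSet = (fun x => 3 * x) ⁻¹' cantorSet := by
    ext x
    exact ⟨by rintro ⟨y, hy, rfl⟩; simpa [mul_div_cancel₀] using hy, fun h => ⟨_, h, by ring⟩⟩
  have e2 : (fun x : ℝ => (2 + x) / 3) '' cantorSet =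
      (fun x => 3 * x) ⁻¹' ((fun x => x + (-2)) ⁻¹' cantorSet) := by
    ext x
    exact ⟨by rintro ⟨y, hy, rfl⟩; simpa [mul_div_cancel₀] using hy, fun h => ⟨_, h, by ring⟩⟩
  have h := measure_union_le (μ := volume) ((fun x : ℝ => x / 3) '' cantorSet)
    ((fun x : ℝ => (2 + x) / 3) '' cantorSet)
  rw [← cantorSet_eq_union_halves, e1, e2, Real.volume_preimage_mul_left (by norm_num),
    Real.volume_preimage_mul_left (by norm_num), measure_preimage_add_right, ← add_mul,
    ← ENNReal.ofReal_add (by positivity) (by positivity)] at h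
  by_contra h0
  have : ENNReal.ofReal (|(3 : ℝ)⁻¹| + |(3 : ℝ)⁻¹|) < 1 := by
    rw [ENNReal.ofReal_lt_one, abs_of_pos (by norm_num)]; norm_num
  exact absurd (ENNReal.mul_lt_mul_left h0 hf this) (by simpa using h)

def cnt (k : ℕ) (A : ℕ → Bool) : ℕ := ((Finset.range k).filter fun i => A i = true).card

lemma cnt_cont (k : ℕ) : Continuous (cnt k) := by
  unfold cnt
  simp only [Finset.card_filter]
  exact continuous_finset_sum _ fun i _ =>
    (continuous_of_discreteTopology (f := fun b : Bool => if b = true then 1 else 0)).comp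
      (continuous_apply i)

lemma cnt_mono (A : ℕ → Bool) : Monotone fun k => cnt k A := fun _ _ hab =>
  Finset.card_le_card (Finset.filter_subset_filter _ (Finset.range_mono hab))

lemma cnt_inf {A : ℕ → Bool} (hA : {i | A i = true}.Infinite) (n : ℕ) : ∃ k, n < cnt k A := by
  obtain ⟨s, hs, hn⟩ := hA.exists_subset_card_eq (n + 1)
  refine ⟨s.sup id + 1, ?_⟩
  have : s.card ≤ cnt (s.sup id + 1) A := Finset.card_le_card fun i hi =>
    Finset.mem_filter.2 ⟨Finset.mem_range.2 (Nat.lt_succ_of_le (Finset.le_sup (f := id) hi)),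
      hs hi⟩
  omega

/-- a perfect set of sparse infinite sets, missing infinitely many places -/
lemma sparse (g : ℕ → ℕ) : ∃ p : (ℕ → Bool) → ℕ → Bool, Continuous p ∧ Injective p ∧
    (∀ B, {i | p B i = true}.Infinite ∧ ∀ n, cnt (g n) (p B) ≤ n) ∧
    {i | ∀ B, p B i = false}.Infinite := by
  classical
  let a : ℕ → ℕ := fun i => (Finset.range (i + 1)).sup g + i
  have ha : StrictMono a := strictMono_nat_of_lt_succ fun i =>
    Nat.add_lt_add_of_le_of_lt (Finset.sup_mono (Finset.range_mono (by omega))) (by omega)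
  let b := invFun a
  have hb : ∀ j, b (a j) = j := leftInverse_invFun ha.injective
  let p : (ℕ → Bool) → ℕ → Bool := fun B i =>
    if i ∈ range a then (if b i % 3 = 0 then true else if b i % 3 = 1 then B (b i / 3) else false)
    else false
  refine ⟨p, continuous_pi fun i => ?_, fun B C h => funext fun j => ?_, fun B => ⟨?_, fun n => ?_⟩,
    ?_⟩
  · simp only [p]
    split_ifs
    exacts [continuous_const, continuous_apply _, continuous_const, continuous_const]
  · have := congrFun h (a (3 * j + 1))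
    have e1 : (3 * j + 1) % 3 = 1 := by omega
    have e2 : (3 * j + 1) / 3 = j := by omega
    simpa [p, hb, e1, e2] using this
  · refine (infinite_range_of_injective (f := fun j => a (3 * j))
      fun i j h => by have := ha.injective h; omega).mono ?_
    rintro _ ⟨j, rfl⟩
    simp [p, hb]
  · refine le_trans (Finset.card_le_card (t := (Finset.range n).image a) fun i hi => ?_)
      (Finset.card_image_le.trans (by simp))
    obtain ⟨h1, h2⟩ := Finset.mem_filter.1 hi
    obtain ⟨j, rfl⟩ : i ∈ range a := by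
      by_contra hc
      simp only [p, if_neg hc] at h2
      exact absurd h2 (by simp)
    refine Finset.mem_image_of_mem _ (Finset.mem_range.2 ?_)
    by_contra hc
    have h3 : g n ≤ (Finset.range (j + 1)).sup g :=
      Finset.le_sup (Finset.mem_range.2 (by omega))
    have h4 := Finset.mem_range.1 h1
    simp only [a] at h4
    omega
  · refine (infinite_range_of_injective (f := fun j => a (3 * j + 2))
      fun i j h => by have := ha.injective h; omega).mono ?_
    rintro _ ⟨j, rfl⟩ B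
    have e1 : (3 * j + 2) % 3 = 2 := by omega
    simp [p, hb, e1]

lemma fin_ctble : {A : ℕ → Bool | {i | A i = true}.Finite}.Countable := by
  classical
  refine (countable_range fun s : Finset ℕ => fun i => decide (i ∈ s)).mono fun A hA => ?_
  exact ⟨hA.toFinset, funext fun i => by simp⟩

theorem exists_W' : ∃ (D : Set ℝ) (W : ℕ → ℕ → Set ℝ), D.Countable ∧ (∀ n k, IsOpen (W n k)) ∧
    (∀ n, Monotone (W n)) ∧ (∀ n, ∀ z ∉ D, ∃ k, z ∈ W n k) ∧
    ∀ g : ℕ → ℕ, ∃ p : ℝ → ℝ, Measurable p ∧ Injective p ∧ volume (range p) = 0 ∧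
      ∀ t n, p t ∉ W n (g n) := by
  let c : (ℕ → Bool) → ℝ := fun A => (cantorSetHomeomorphNatToBool.symm A).1
  have hc : Continuous c := continuous_subtype_val.comp (Homeomorph.continuous _)
  have hi : Injective c := Subtype.val_injective.comp (Homeomorph.injective _)
  have hr : ∀ A, c A ∈ cantorSet := fun A => (cantorSetHomeomorphNatToBool.symm A).2
  clear_value c
  refine ⟨c '' {A | {i | A i = true}.Finite}, fun n k => (c '' {A | cnt k A ≤ n})ᶜ,
    fin_ctble.image _, fun n k => ?_, fun n a b hab => ?_, fun n z hz => ?_, fun g => ?_⟩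
  · exact ((isClosed_le (cnt_cont k) continuous_const).isCompact.image hc).isClosed.isOpen_compl
  · refine compl_subset_compl.2 (image_mono fun A hA => ?_)
    exact le_trans (cnt_mono A hab) hA
  · by_cases h : ∃ A, c A = z
    · obtain ⟨A, rfl⟩ := h
      obtain ⟨k, hk⟩ := cnt_inf (A := A) (fun hf => hz ⟨A, hf, rfl⟩) n
      refine ⟨k, ?_⟩
      rintro ⟨B, hB, e⟩
      rw [hi e] at hB
      exact absurd hB (not_le.2 hk)
    · exact ⟨0, fun ⟨A, _, e⟩ => h ⟨A, e⟩⟩
  · obtain ⟨p, h1, h2, h3, -⟩ := sparse g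
    obtain ⟨e, h4, h5⟩ := MeasurableSpace.measurable_injection_nat_bool_of_countablySeparated ℝ
    refine ⟨c ∘ p ∘ e, hc.measurable.comp (h1.measurable.comp h4), hi.comp (h2.comp h5),
      measure_mono_null ?_ cantor_null, fun t n h => h ⟨_, (h3 _).2 n, rfl⟩⟩
    rintro _ ⟨t, rfl⟩
    exact hr _

theorem sel_null {α : Type} [TopologicalSpace α] [MeasurableSpace α] [OpensMeasurableSpace α]
    {μ : Measure α} [IsFiniteMeasure μ] {S : Set α} (h : ∀ N, μ N = 0 → (S ∩ N).Countable)
    {Z : Type} [TopologicalSpace Z] {d : Z → α} (hd : IsInducing d) (hr : range d = S) :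
    Sel IsOpen (univ : Set Z) := by
  intro u ho hu
  choose V hV1 hV2 using fun n m => hd.isOpen_iff.1 (ho n m)
  obtain ⟨g, hg⟩ := egor h V (fun n m => (hV1 n m).measurableSet) fun n x hx => by
    obtain ⟨z, rfl⟩ : x ∈ range d := hr ▸ hx
    exact (hu n z).mono fun m hm => by rwa [← hV2] at hm
  exact ⟨g, fun x _ => (hg (d x) (hr ▸ ⟨x, rfl⟩)).mono fun n hn => by rwa [← hV2]⟩

theorem partner (h : Cardinal.continuum.{0} = Cardinal.aleph 1) {S : Set ℝ} (hS : Sier S) :
    ∃ Y : Set ℝ, Sel IsOpen (univ : Set Y) ∧ ∃ W : ℕ → ℕ → Set ℝ, (∀ n k, IsOpen (W n k)) ∧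
      (∀ n, Monotone (W n)) ∧ (∀ n, ∀ x ∈ S, ∀ y ∈ Y, ∃ k, x + y ∈ W n k) ∧
      ∀ g : ℕ → ℕ, ∃ x ∈ S, ∃ y ∈ Y, ∀ n, x + y ∉ W n (g n) := by
  obtain ⟨D, W, h1, h2, h3, h4, h5⟩ := exists_W'
  obtain ⟨r, wo, hseg, N, hN, hN2⟩ := enumCH h
  obtain ⟨γ⟩ : Nonempty (ℝ ≃ (ℕ → ℕ)) := Cardinal.eq.1 (by simp [Cardinal.mk_real])
  have : ∀ a, ∃ y, (∀ b, ¬ r a b → y ∉ N b) ∧ (∀ s ∈ S, s + y ∉ D) ∧
      ∃ x ∈ S, ∀ n, x + y ∉ W n (γ a n) := by
    intro a
    obtain ⟨p, p1, p2, p3, p4⟩ := h5 (γ a)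
    obtain ⟨M, m1, m2, m3⟩ := exists_measurable_superset_of_null
      ((measure_biUnion_null_iff (hseg a)).2 fun b _ => hN b)
    have f1 : ∀ᵐ t ∂(volume : Measure ℝ), ∀ᵐ s ∂(volume : Measure ℝ), p t - s ∉ M :=
      Eventually.of_forall fun t => measure_eq_zero_iff_ae_notMem.1
        ((Measure.measurePreserving_sub_left volume (p t)).quasiMeasurePreserving.preimage_null m3)
    rw [Measure.ae_ae_comm (p := fun t s => p t - s ∉ M)
      (((p1.comp measurable_fst).sub measurable_snd) m2.compl)] at f1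
    obtain ⟨s, hs, f2⟩ : ∃ s ∈ S, ∀ᵐ t ∂(volume : Measure ℝ), p t - s ∉ M := by
      by_contra hc
      push Not at hc
      refine hS.1 ((hS.2 _ f1).mono fun s hs => And.intro hs fun h0 => ?_)
      obtain ⟨t, a, b⟩ := ((hc s hs).and_eventually h0).exists
      exact b a
    have f3 : {t | ∃ s' ∈ S, s' + (p t - s) ∈ D}.Countable := by
      have : ∀ d, (S ∩ (fun x => d + s - x) ⁻¹' range p).Countable := fun d => hS.2 _
        ((Measure.measurePreserving_sub_left volume (d + s)).quasiMeasurePreserving.preimage_null p3)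
      refine ((h1.biUnion fun d _ => (this d).image fun x => d + s - x).preimage_of_injOn
        p2.injOn).mono ?_
      rintro t ⟨s', h6, h7⟩
      exact mem_biUnion h7 ⟨s', ⟨h6, t, by ring⟩, by ring⟩
    obtain ⟨t, t1, t2⟩ := (f2.and (measure_eq_zero_iff_ae_notMem.1 (f3.measure_zero volume))).exists
    exact ⟨p t - s, fun b hb hh => t1 (m1 (mem_biUnion hb hh)), fun s' h6 h7 => t2 ⟨s', h6, h7⟩,
      s, hs, fun n => by simpa using p4 t n⟩
  choose y y1 y2 y3 using this
  refine ⟨range y, sel_null (μ := (volume : Measure ℝ).toFinite) (fun M hM => ?_)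
    IsInducing.subtypeVal Subtype.range_coe, W, h2, h3, ?_, fun g => ?_⟩
  · obtain ⟨b, hb⟩ := hN2 M (toFinite_apply_eq_zero_iff.1 hM)
    refine ((hseg b).image y).mono ?_
    rintro _ ⟨⟨a, rfl⟩, ha⟩
    exact ⟨a, fun hc => y1 a b (asymm_of r hc) (hb ha), rfl⟩
  · rintro n x hx _ ⟨a, rfl⟩
    exact h4 n _ (y2 a x hx)
  · obtain ⟨x, hx, h6⟩ := y3 (γ.symm g)
    exact ⟨x, hx, _, ⟨_, rfl⟩, by simpa using h6⟩

end Pool.Agent.H8.Tau
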