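import Mathlib
import Pool.Agent.H8.Rec
import Pool.Agent.H8.Sier3

set_option autoImplicit false

namespace Pool.Agent.H8.SG

open Set Filter Topology Function
open scoped Cardinal

def Kb : Set (Set (ℕ → Bool)) :=
  sUnion '' {s | s.Finite ∧ s ⊆ TopologicalSpace.countableBasis (ℕ → Bool)}

lemma Kb_ct : Kb.Countable :=
  (countable_setOf_finite_subset (TopologicalSpace.countable_countableBasis _)).image _

lemma Kb_open {V : Set (ℕ → Bool)} (h : V ∈ Kb) : IsOpen V := by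
  obtain ⟨s, hs, rfl⟩ := h
  exact isOpen_sUnion fun V hV => TopologicalSpace.isOpen_of_mem_countableBasis (hs.2 hV)

lemma Kb_fin {F O : Set (ℕ → Bool)} (hF : F.Finite) (hO : IsOpen O) (h : F ⊆ O) :
    ∃ V ∈ Kb, F ⊆ V ∧ V ⊆ O := by
  choose! f h1 h2 h3 using fun p (hp : p ∈ F) =>
    (TopologicalSpace.isBasis_countableBasis (ℕ → Bool)).exists_subset_of_mem_open (h hp) hO
  refine ⟨_, ⟨f '' F, ⟨hF.image f, image_subset_iff.2 h1⟩, rfl⟩,
    fun p hp => ⟨_, ⟨p, hp, rfl⟩, h2 p hp⟩, ?_⟩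
  rintro q ⟨_, ⟨p, hp, rfl⟩, hq⟩
  exact h3 p hp hq

lemma thin {I : Set ℕ} (hI : I.Infinite) (c : ℕ → Bool) :
    IsMeagre {z : ℕ → Bool | ∀ i ∈ I, z i = c i} := by
  have hc : IsClosed {z : ℕ → Bool | ∀ i ∈ I, z i = c i} := by
    simp only [setOf_forall]
    exact isClosed_iInter fun i => isClosed_iInter fun _ =>
      isClosed_eq (continuous_apply i) continuous_const
  refine (hc.isNowhereDense_iff.2 (eq_empty_of_forall_notMem fun y hy => ?_)).isMeagre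
  obtain ⟨N, hN⟩ := cyl isOpen_interior hy
  obtain ⟨i, h1, h2⟩ := hI.exists_gt N
  have h3 := interior_subset (hN (update y i (!y i)) fun j hj => update_of_ne (by omega) _ _) i h1
  rw [update_self, interior_subset hy i h1] at h3
  simp at h3

lemma ct_meagre {A : Set (ℕ → Bool)} (h : A.Countable) : IsMeagre A := by
  have := isMeagre_biUnion h fun c _ => thin infinite_univ c
  refine this.mono fun c hc => mem_iUnion₂.2 ⟨c, hc, ?_⟩
  exact fun _ _ => rfl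

lemma add_self (x : ℕ → Bool) : x + x = 0 := funext fun i => by
  change xor (x i) (x i) = false
  simp

def Fi : Set (ℕ → Bool) := {A | {i | A i = true}.Finite}

section
variable {X : Set (ℕ → Bool)} (hX : ∀ M, IsMeagre M → (X ∩ M).Countable)
include hX

lemma avoidD {p : (ℕ → Bool) → ℕ → Bool} (hi : Injective p)
    (hp : {i | ∀ B, p B i = false}.Infinite) (x : ℕ → Bool) :
    ∀ᶠ B in residual (ℕ → Bool), ∀ x' ∈ X, x' + (p B + x) ∉ Fi := by
  have : {B | ∃ x' ∈ X, x' + (p B + x) ∈ Fi}.Countable := by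
    refine ((Tau.fin_ctble.biUnion fun d _ => (hX _ (thin hp (d + x))).image
      fun x' => d + x + x').preimage_of_injOn hi.injOn).mono ?_
    rintro B ⟨x', h1, h2⟩
    refine mem_biUnion h2 ⟨x', ⟨h1, fun i hi => ?_⟩, ?_⟩
    · change x' i = xor (xor (x' i) (xor (p B i) (x i))) (x i)
      rw [hi B]
      simp
    · have : x' + (p B + x) + x + x' = p B + (x + x) + (x' + x') := by abel
      simp only [this, add_self, add_zero]
  exact mem_of_superset (ct_meagre this) fun B hB x' h1 h2 => hB ⟨x', h1, h2⟩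

lemma dense_avoid : Dense {y | ∀ x ∈ X, x + y ∉ Fi} := by
  refine dense_iff_inter_open.2 ?_
  rintro W hW ⟨y, hy⟩
  obtain ⟨N, hN⟩ := cyl hW hy
  obtain ⟨p, -, h2, h3, h4⟩ := Tau.sparse fun _ => N
  obtain ⟨B, hB⟩ := (dense_of_mem_residual (avoidD hX h2 h4 y)).nonempty
  refine ⟨_, hN (p B + y) fun i hi => ?_, hB⟩
  have h5 := Finset.card_eq_zero.1 (Nat.le_zero.1 ((h3 B).2 0))
  have h6 := Finset.filter_eq_empty_iff.1 h5 (Finset.mem_range.2 hi)
  change xor (p B i) (y i) = y i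
  simp [h6]

lemma luz_pt (hu : ¬ X.Countable) {𝒪 : Set (Set (ℕ → Bool))} (hc : 𝒪.Countable)
    (ho : ∀ O ∈ 𝒪, IsOpen O ∧ Dense O) (g : ℕ → ℕ) : ∃ y, (∀ O ∈ 𝒪, y ∈ O) ∧
      (∀ x ∈ X, x + y ∉ Fi) ∧ ∃ x ∈ X, ∀ n, Tau.cnt (g n) (x + y) ≤ n := by
  obtain ⟨p, h1, h2, h3, h4⟩ := Tau.sparse g
  have hb := TopologicalSpace.isBasis_countableBasis (ℕ → Bool)
  have f1 : ∀ᶠ x in residual (ℕ → Bool), ∀ O ∈ 𝒪, ∀ W ∈ TopologicalSpace.countableBasis (ℕ → Bool),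
      ∃ B ∈ W, p B + x ∈ O := by
    refine (eventually_countable_ball hc).2 fun O hO =>
      (eventually_countable_ball (TopologicalSpace.countable_countableBasis _)).2 fun W hW => ?_
    obtain ⟨B, hB⟩ := TopologicalSpace.nonempty_of_mem_countableBasis hW
    exact mem_of_superset (residual_of_dense_open
      ((ho O hO).1.preimage (Homeomorph.addLeft (p B)).continuous)
      ((ho O hO).2.preimage (Homeomorph.addLeft (p B)).isOpenMap)) fun x hx => ⟨B, hB, hx⟩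
  obtain ⟨x, hx, f2⟩ : ∃ x ∈ X, ∀ O ∈ 𝒪, ∀ W ∈ TopologicalSpace.countableBasis (ℕ → Bool),
      ∃ B ∈ W, p B + x ∈ O := by
    by_contra hc
    refine hu ((hX _ (show IsMeagre {x | ¬ ∀ O ∈ 𝒪, ∀ W ∈ TopologicalSpace.countableBasis (ℕ → Bool),
      ∃ B ∈ W, p B + x ∈ O} from mem_of_superset f1 fun x hx h => h hx)).mono
        fun x hx => And.intro hx fun h => hc ⟨x, hx, h⟩)
  have f3 : ∀ᶠ B in residual (ℕ → Bool), ∀ O ∈ 𝒪, p B + x ∈ O :=
    (eventually_countable_ball hc).2 fun O hO => residual_of_dense_open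
      ((ho O hO).1.preimage (h1.add continuous_const))
      (hb.dense_iff.2 fun W hW _ => f2 O hO W hW)
  obtain ⟨B, b1, b2⟩ := (dense_of_mem_residual (f3.and (avoidD hX h2 h4 x))).nonempty
  refine ⟨_, b1, b2, x, hx, fun n => ?_⟩
  rw [add_left_comm, add_self, add_zero]
  exact (h3 B).2 n

theorem luz_partner (h : Cardinal.continuum.{0} = Cardinal.aleph 1) (hu : ¬ X.Countable) :
    ∃ Y : Set (ℕ → Bool), (∀ y ∈ Y, ∀ x ∈ X, x + y ∉ Fi) ∧
      (∀ g : ℕ → ℕ, ∃ y ∈ Y, ∃ x ∈ X, ∀ n, Tau.cnt (g n) (x + y) ≤ n) ∧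
      ∀ 𝒱 : ℕ → Set (Set (ℕ → Bool)), (∀ n, 𝒱 n ⊆ Kb) →
        (∀ n F, F.Finite → F ⊆ Y → ∃ V ∈ 𝒱 n, F ⊆ V) →
        ∃ U : ℕ → Set (ℕ → Bool), (∀ n, U n ∈ 𝒱 n) ∧ ∀ F, F.Finite → F ⊆ Y → ∃ n, F ⊆ U n := by
  classical
  obtain ⟨Q, q1, q2, q3⟩ := (dense_avoid hX).exists_countable_dense_subset
  haveI := Kb_ct.to_subtype
  refine (rec_CH h (J := (ℕ → ℕ) ⊕ (ℕ → Set Kb)) (A := (ℕ → Bool) ⊕ (ℕ → Set (ℕ → Bool)))
    (by
      rw [Cardinal.mk_sum, Cardinal.lift_id, Cardinal.lift_id, ← Cardinal.continuum_add_self]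
      refine add_le_add (card_seq _ (card_ct _)) (card_seq _ ?_)
      rw [Cardinal.mk_set, ← Cardinal.two_power_aleph0]
      exact Cardinal.power_le_power_left two_ne_zero Cardinal.mk_le_aleph0)
    (fun S => (∀ y, .inl y ∈ S → ∀ x ∈ X, x + y ∉ Fi) ∧ ∀ U, .inr U ∈ S → (∀ n, IsOpen (U n)) ∧
      ∀ F : Set (ℕ → Bool), F.Finite → Sum.inl '' F ⊆ S → ∃ᶠ n in atTop, F ⊆ U n)
    (fun j S => match j with
      | .inl g => ∃ y, .inl y ∈ S ∧ ∃ x ∈ X, ∀ n, Tau.cnt (g n) (x + y) ≤ n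
      | .inr 𝒱 => (∀ n F, F.Finite → Sum.inl '' F ⊆ S → ∃ V ∈ 𝒱 n, F ⊆ V.1) →
          ∃ U : ℕ → Kb, (∀ n, U n ∈ 𝒱 n) ∧ .inr (fun n => (U n).1) ∈ S)
    (S₀ := Sum.inl '' Q) (q2.image _) ?_ ?_ ?_).elim fun S ⟨_, hG, hT⟩ => ?_
  rotate_right
  · refine ⟨Sum.inl ⁻¹' S, hG.1, fun g => ?_, fun 𝒱 h1 h2 => ?_⟩
    · obtain ⟨S', h1, y, h2, h3⟩ := hT (.inl g)
      exact ⟨y, h1 h2, h3⟩
    · obtain ⟨S', h3, h4⟩ := hT (.inr fun n => Subtype.val ⁻¹' 𝒱 n)
      obtain ⟨U, h5, h6⟩ := h4 fun n F hF hs => by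
        obtain ⟨V, h5, h6⟩ := h2 n F hF (image_subset_iff.1 (hs.trans h3))
        exact ⟨⟨V, h1 n h5⟩, h5, h6⟩
      exact ⟨fun n => (U n).1, h5, fun F hF hs =>
        ((hG.2 _ (h3 h6)).2 F hF (image_subset_iff.2 hs)).exists⟩
  · refine ⟨?_, fun U h => by simp at h⟩
    rintro y ⟨z, hz, e⟩
    exact Sum.inl.inj e ▸ q1 hz
  · intro c h0 h1 h2
    refine ⟨fun y ⟨s, h3, h4⟩ => (h2 s h3).1 y h4, fun U ⟨s, h3, h4⟩ =>
      ⟨((h2 s h3).2 U h4).1, fun F hF hs => ?_⟩⟩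
    obtain ⟨t, h5, h6⟩ := DirectedOn.exists_mem_subset_of_finset_subset_biUnion (f := id) h0
      h1.directedOn (s := ((hF.image Sum.inl).insert (.inr U)).toFinset) (by
        rw [Finite.coe_toFinset]
        exact (insert_subset (mem_sUnion_of_mem h4 h3) hs).trans sUnion_eq_biUnion.subset)
    rw [Finite.coe_toFinset, insert_subset_iff] at h6
    exact ((h2 t h5).2 U h6.1).2 F hF h6.2
  · rintro S h0 hc hG (g | 𝒱)
    · have c1 : (Sum.inl ⁻¹' S).Countable := hc.preimage Sum.inl_injective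
      have c2 : (Sum.inr ⁻¹' S).Countable := hc.preimage Sum.inr_injective
      obtain ⟨y, y1, y2, y3⟩ := luz_pt hX hu (𝒪 := (fun t : (ℕ → Set (ℕ → Bool)) ×
          Set (ℕ → Bool) × ℕ => ⋃ n ∈ {n | t.2.2 ≤ n ∧ t.2.1 ⊆ t.1 n}, t.1 n) ''
          ((Sum.inr ⁻¹' S) ×ˢ {F | F.Finite ∧ F ⊆ Sum.inl ⁻¹' S} ×ˢ univ))
        ((c2.prod ((countable_setOf_finite_subset c1).prod countable_univ)).image _) (by
          rintro _ ⟨⟨U, F, j⟩, ⟨h1, h2, -⟩, rfl⟩
          refine ⟨isOpen_biUnion fun n _ => (hG.2 U h1).1 n, q3.mono fun q hq => ?_⟩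
          obtain ⟨n, h3, h4⟩ := frequently_atTop.1 ((hG.2 U h1).2 _ (h2.1.insert q)
            (image_subset_iff.2 (insert_subset (h0 ⟨q, hq, rfl⟩) h2.2))) j
          exact mem_biUnion (show n ∈ {n | j ≤ n ∧ F ⊆ U n} from
            ⟨h3, (subset_insert _ _).trans h4⟩) (h4 (mem_insert _ _))) g
      refine ⟨insert (.inl y) S, subset_insert _ _, hc.insert _, ⟨?_, fun U hU => ?_⟩,
        y, mem_insert _ _, y3⟩
      · rintro z (e | hz)
        exacts [Sum.inl.inj e ▸ y2, hG.1 z hz]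
      · replace hU : .inr U ∈ S := hU.resolve_left (by simp)
        refine ⟨(hG.2 U hU).1, fun F hF hs => frequently_atTop.2 fun j => ?_⟩
        obtain ⟨n, h1, h2⟩ := mem_iUnion₂.1 (y1 _ ⟨(U, F \ {y}, j), ⟨hU, ⟨hF.diff, fun z hz =>
          (hs ⟨z, hz.1, rfl⟩).resolve_left fun e => hz.2 (Sum.inl.inj e)⟩, trivial⟩, rfl⟩)
        refine ⟨n, h1.1, fun z hz => ?_⟩
        by_cases e : z = y
        exacts [e ▸ h2, h1.2 ⟨hz, e⟩]
    · by_cases H : ∀ n F, F.Finite → Sum.inl '' F ⊆ S → ∃ V ∈ 𝒱 n, F ⊆ V.1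
      swap
      · exact ⟨S, Subset.rfl, hc, hG, fun h => absurd h H⟩
      obtain ⟨e, he⟩ := (hc.preimage Sum.inl_injective).exists_eq_range
        (q3.nonempty.mono fun q hq => h0 ⟨q, hq, rfl⟩)
      choose U u1 u2 using fun n => H n (e '' Iic n) ((finite_Iic n).image e)
        (image_subset_iff.2 (he ▸ image_subset_range _ _))
      refine ⟨insert (.inr fun n => (U n).1) S, subset_insert _ _, hc.insert _,
        ⟨fun z hz => hG.1 z (hz.resolve_left (by simp)), fun V hV => ?_⟩,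
        fun _ => ⟨U, u1, mem_insert _ _⟩⟩
      have k : ∀ F : Set (ℕ → Bool), Sum.inl '' F ⊆ insert (.inr fun n => (U n).1) S →
          Sum.inl '' F ⊆ S := by
        rintro F hs _ ⟨z, hz, rfl⟩
        exact (hs ⟨z, hz, rfl⟩).resolve_left (by simp)
      rcases hV with hV | hV
      · obtain rfl := Sum.inr.inj hV
        refine ⟨fun n => Kb_open (U n).2, fun F hF hs => Eventually.frequently ?_⟩
        refine (eventually_all_finite hF).2 fun z hz => ?_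
        obtain ⟨m, rfl⟩ : z ∈ range e := he ▸ k F hs ⟨z, hz, rfl⟩
        filter_upwards [eventually_ge_atTop m] with n hn using u2 n ⟨m, hn, rfl⟩
      · exact ⟨(hG.2 V hV).1, fun F hF hs => (hG.2 V hV).2 F hF (k F hs)⟩

end

end Pool.Agent.H8.SG
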