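import Mathlib
import Pool.Agent.H8.Luz
import Pool.Agent.H8.Rec

set_option autoImplicit false

namespace Pool.Agent.H8.Silv

open Set Filter Topology Function Pool.Agent.H8.SG
open scoped Cardinal

/-- infinitely many free coordinates -/
def Fr (c : ℕ → Option Bool) : Prop := ∃ᶠ m in atTop, c m = none

/-- extension at one coordinate -/
def lo (a b : Option Bool) : Prop := b = none ∨ a = b

lemma lo.tr {a b c : Option Bool} (h : lo a b) (h' : lo b c) : lo a c := by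
  unfold lo at *; grind

lemma lo.rf (a : Option Bool) : lo a a := .inr rfl

lemma glue {σ : Type} (v : σ → ℕ → Option Bool) (hv : ∀ s, Fr (v s)) (T : ℕ → ℕ)
    (R : ℕ → ℕ → σ → σ → Prop) (step : ∀ n l s, ∃ s', R n l s s') (s0 : σ) :
    ∃ (s : ℕ → σ) (l : ℕ → ℕ) (D : ℕ → Option Bool), s 0 = s0 ∧ l 0 = 0 ∧ Fr D ∧
      (∀ n, R n (l n) (s n) (s (n + 1)) ∧ T (n + 1) ≤ l (n + 1) ∧
        ∃ a, l n ≤ a ∧ a < l (n + 1) ∧ v (s (n + 1)) a = none) ∧
      (∀ n m, l n ≤ m → m < l (n + 1) → D m = v (s (n + 1)) m) ∧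
      ∀ n m, l n ≤ m → ∃ k ≥ n, l k ≤ m ∧ m < l (k + 1) := by
  classical
  choose f hf using step
  choose a h1 h2 using fun s => frequently_atTop.1 (hv s)
  let p : ℕ → σ × ℕ := fun n => Nat.rec (s0, 0)
    (fun n p => (f n p.2 p.1, max (a (f n p.2 p.1) p.2 + 1) (T (n + 1)))) n
  have e1 : ∀ n, (p (n + 1)).1 = f n (p n).2 (p n).1 := fun _ => rfl
  have e2 : ∀ n, (p (n + 1)).2 = max (a (p (n + 1)).1 (p n).2 + 1) (T (n + 1)) := fun _ => rfl
  have e3 : ∀ n, a (p (n + 1)).1 (p n).2 < (p (n + 1)).2 := fun n => by rw [e2 n]; omega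
  have hm : StrictMono fun n => (p n).2 := strictMono_nat_of_lt_succ fun n =>
    (h1 _ _).trans_lt (e3 n)
  have ex : ∀ m, ∃ k, m < (p (k + 1)).2 := fun m => ⟨m, hm.le_apply (x := m + 1)⟩
  have e4 : ∀ n m, (p n).2 ≤ m → m < (p (n + 1)).2 → Nat.find (ex m) = n := fun n m h3 h4 =>
    (Nat.find_eq_iff _).2 ⟨h4, fun k hk => not_lt.2 ((hm.monotone hk).trans h3)⟩
  refine ⟨fun n => (p n).1, fun n => (p n).2, fun m => v (p (Nat.find (ex m) + 1)).1 m, rfl, rfl,
    frequently_atTop.2 fun n => ⟨_, hm.le_apply.trans (h1 (p (n + 1)).1 (p n).2), ?_⟩,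
    fun n => ⟨hf _ _ _, le_max_right _ _, _, h1 _ _, e3 n, h2 _ _⟩,
    fun n m h3 h4 => by simp only [e4 n m h3 h4], fun n m h3 => ⟨Nat.find (ex m), ?_, ?_,
      Nat.find_spec (ex m)⟩⟩
  · simp only [e4 n _ (h1 _ _) (e3 n), h2]
  · exact not_lt.1 fun h => (Nat.find_spec (ex m)).not_ge ((hm.monotone h).trans h3)
  · rcases h : Nat.find (ex m) with _ | k
    · exact Nat.zero_le _
    · exact not_lt.1 (Nat.find_min (ex m) (by omega))

lemma lower {S : Set (ℕ → Option Bool)} (hc : S.Countable) (h1 : ∀ c ∈ S, Fr c)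
    (h2 : ∀ c ∈ S, ∀ d ∈ S, (∀ᶠ m in atTop, lo (c m) (d m)) ∨ ∀ᶠ m in atTop, lo (d m) (c m)) :
    ∃ D, Fr D ∧ ∀ c ∈ S, ∀ᶠ m in atTop, lo (D m) (c m) := by
  rcases S.eq_empty_or_nonempty with rfl | hn
  · exact ⟨fun _ => none, .of_forall fun _ => rfl, by simp⟩
  obtain ⟨c, rfl⟩ := hc.exists_eq_range hn
  have : ∀ n, ∃ j, ∀ᶠ m in atTop, ∀ i < n, lo (c j m) (c i m) := fun n => by
    induction n with
    | zero => exact ⟨0, by simp⟩
    | succ n ih =>
      obtain ⟨j, hj⟩ := ih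
      rcases h2 _ (mem_range_self j) _ (mem_range_self n) with h | h
      · refine ⟨j, (hj.and h).mono fun m h3 i hi => ?_⟩
        rcases Nat.lt_succ_iff_lt_or_eq.1 hi with e | rfl
        exacts [h3.1 i e, h3.2]
      · refine ⟨n, (hj.and h).mono fun m h3 i hi => ?_⟩
        rcases Nat.lt_succ_iff_lt_or_eq.1 hi with e | rfl
        exacts [h3.2.tr (h3.1 i e), .rf _]
  choose j hj using this
  choose T hT using fun n => eventually_atTop.1 (hj n)
  obtain ⟨s, l, D, -, -, d1, d2, d3, d4⟩ := glue (fun n => c (j n)) (fun n => h1 _ ⟨_, rfl⟩) T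
    (fun n _ _ s => s = n) (fun n _ _ => ⟨n, rfl⟩) 0
  refine ⟨D, d1, ?_⟩
  rintro _ ⟨i, rfl⟩
  filter_upwards [eventually_ge_atTop (l (i + 1))] with m hm
  obtain ⟨_ | k, k1, k2, k3⟩ := d4 _ _ hm
  · omega
  · rw [d3 _ _ k2 k3, (d2 _).1]
    exact hT _ m ((d2 k).2.1.trans k2) i k1

/-- saturation below `l` -/
def sat (l : ℕ) (U : Set (ℕ → Bool)) : Set (ℕ → Bool) := {y | ∀ x, (∀ m ≥ l, x m = y m) → x ∈ U}

lemma low_fin (l : ℕ) : {t : ℕ → Bool | ∀ m ≥ l, t m = false}.Finite := by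
  refine (finite_range fun (s : Fin l → Bool) m => if h : m < l then s ⟨m, h⟩ else false).subset
    fun t ht => ⟨fun i => t i, funext fun m => ?_⟩
  by_cases h : m < l
  · simp [h]
  · simp [h, ht m (not_lt.1 h)]

lemma sat_eq (l : ℕ) (U : Set (ℕ → Bool)) :
    sat l U = ⋂ t ∈ {t : ℕ → Bool | ∀ m ≥ l, t m = false}, (· + t) ⁻¹' U := by
  ext y
  simp only [sat, mem_setOf_eq, mem_iInter, mem_preimage]
  refine ⟨fun h t ht => h _ fun m hm => ?_, fun h x hx => ?_⟩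
  · change xor (y m) (t m) = y m
    simp [ht m hm]
  · have := h (y + x) fun m hm => by
      change xor (y m) (x m) = false
      simp [hx m hm]
    rwa [← add_assoc, add_self, zero_add] at this

lemma unif {O : Set (ℕ → Bool)} (h1 : IsOpen O) (h2 : Dense O) (l : ℕ) :
    ∃ (N : ℕ) (r : ℕ → Bool), ∀ x : ℕ → Bool, (∀ m, l ≤ m → m < N → x m = r m) → x ∈ O := by
  have h3 : IsOpen (sat l O) := sat_eq l O ▸ (low_fin l).isOpen_biInter fun t _ =>
    h1.preimage (by fun_prop)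
  have h4 : sat l O ∈ residual _ := sat_eq l O ▸ (biInter_mem (low_fin l)).2 fun t _ =>
    tendsto_residual_of_isOpenMap (by fun_prop) (isOpenMap_add_right t)
      (residual_of_dense_open h1 h2)
  obtain ⟨y, hy⟩ := (dense_of_mem_residual h4).nonempty
  obtain ⟨N, hN⟩ := cyl h3 hy
  refine ⟨N, y, fun x hx => hN (fun m => if m < l then y m else x m) (fun i hi => ?_) x
    fun m hm => by simp [not_lt.2 hm]⟩
  by_cases h : i < l
  · simp [h]
  · simp [h, hx i (not_lt.1 h) hi]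

lemma silver {d : ℕ → Option Bool} (hd : Fr d) {B : ℕ → Set (ℕ → Bool)}
    (hB : ∀ i, MeasurableSet (B i)) (h : ∀ x : ℕ → Bool, (∀ m, lo (x m) (d m)) → ∃ i, x ∈ B i) :
    ∃ i d', Fr d' ∧ (∀ m, lo (d' m) (d m)) ∧
      ∀ x : ℕ → Bool, (∀ m, lo (x m) (d' m)) → x ∈ B i := by
  let e : (ℕ → Bool) → ℕ → Bool := fun x m => (d m).getD (x m)
  have he : Continuous e := continuous_pi fun m =>
    (continuous_of_discreteTopology (f := (d m).getD)).comp (continuous_apply m)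
  obtain ⟨i, hi⟩ : ∃ i, ¬ IsMeagre (e ⁻¹' B i) := by
    by_contra hc
    push Not at hc
    refine not_isMeagre_of_isOpen isOpen_univ univ_nonempty ((isMeagre_iUnion hc).mono fun x _ => ?_)
    refine mem_iUnion.2 (h _ fun m => ?_)
    rcases h : d m with _ | b <;> simp [lo, e, h]
  obtain ⟨O, o1, o2⟩ := (he.measurable (hB i)).residualEq_isOpen
  obtain ⟨y, hy⟩ : O.Nonempty := nonempty_iff_ne_empty.2 fun h => hi (by
    filter_upwards [eventuallyEq_set.1 o2] with x hx h' using (h ▸ hx.1 h' :))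
  obtain ⟨N₀, hN⟩ := cyl o1 hy
  obtain ⟨S, s1, s2, s3, s4⟩ := mem_residual_iff.1 (eventuallyEq_set.1 o2)
  obtain ⟨u, hu⟩ := (s3.insert univ).exists_eq_range (insert_nonempty _ _)
  have hu' : ∀ n, IsOpen (u n) ∧ Dense (u n) := fun n => by
    rcases hu.ge (mem_range_self n) with h | h
    exacts [h ▸ ⟨isOpen_univ, dense_univ⟩, ⟨s1 _ h, s2 _ h⟩]
  obtain ⟨s, l, D, -, l0, d1, d2, d3, d4⟩ := glue (σ := ℕ × (ℕ → Bool))
    (fun s m => if m < s.1 then some (s.2 m) else (d m).map fun _ => false)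
    (fun s => (hd.and_eventually (eventually_ge_atTop s.1)).mono fun m hm => by
      simp [hm.1, not_lt.2 hm.2]) id
    (fun n l _ s => ∀ x : ℕ → Bool, (∀ m, l ≤ m → m < s.1 → x m = s.2 m) →
      (n = 0 → l = 0 → x ∈ O) ∧ ∀ k, n = k + 1 → x ∈ u k)
    (fun n l _ => by
      rcases n with _ | k
      · exact ⟨(N₀, y), fun x hx => ⟨fun _ h => hN x fun i => hx i (by omega), by simp⟩⟩
      · obtain ⟨N, r, h⟩ := unif (hu' k).1 (hu' k).2 l
        exact ⟨(N, r), fun x hx => ⟨by simp, fun j hj => by obtain rfl : k = j := by omega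
                                                            exact h x hx⟩⟩) (0, y)
  have d5 : ∀ m, D m = none → d m = none := fun m hm => by
    obtain ⟨k, -, k2, k3⟩ := d4 0 m (by omega)
    rw [d3 _ _ k2 k3] at hm
    split_ifs at hm
    simpa using hm
  refine ⟨i, fun m => (D m).map (d m).getD, d1.mono fun m hm => by simp [hm], fun m => ?_,
    fun x hx => ?_⟩
  · rcases h : d m with _ | b
    · exact .inl rfl
    · rcases h' : D m with _ | c
      · simp [d5 m h'] at h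
      · simp [lo, h, h']
  have h1 : ∀ n, (n = 0 → l n = 0 → (fun m => (D m).getD (x m)) ∈ O) ∧
      ∀ k, n = k + 1 → (fun m => (D m).getD (x m)) ∈ u k := fun n => by
    obtain ⟨r1, -, a, a1, a2, a3⟩ := d2 n
    refine r1 _ fun m m1 m2 => ?_
    split_ifs at a3 with a4
    simp [d3 n m m1 (by omega), m2]
  have h2 : e (fun m => (D m).getD (x m)) = x := funext fun m => by
    have := hx m
    rcases h' : D m with _ | c
    · simp [e, h', d5 m h']
    · simp only [lo, h', Option.map_some, reduceCtorEq, false_or, Option.some.injEq] at this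
      simp [e, h', this]
  exact h2 ▸ (s4 fun t ht => by
    obtain ⟨k, rfl⟩ := hu.le (mem_insert_of_mem _ ht)
    exact (h1 (k + 1)).2 k rfl).2 ((h1 0).1 rfl l0)

/-- either a finite set of points fitting `d` kills one of the families, or one can select -/
lemma sel {d : ℕ → Option Bool} (hd : Fr d) {P : Set (ℕ → Bool)} (hP : P.Countable)
    {U : ℕ → ℕ → Set (ℕ → Bool)} (hU : ∀ n i, MeasurableSet (U n i)) :
    (∃ n F E, F.Finite ∧ E.Finite ∧ F ⊆ P ∧ (∀ x ∈ E, ∀ᶠ m in atTop, lo (x m) (d m)) ∧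
      ∀ i, ¬ F ∪ E ⊆ U n i) ∨ ∃ (g : ℕ → ℕ) (D : ℕ → Option Bool), Fr D ∧ (∀ m, lo (D m) (d m)) ∧
        (∀ x ∈ P, ∀ᶠ n in atTop, x ∈ U n (g n)) ∧
        ∀ x : ℕ → Bool, (∀ᶠ m in atTop, lo (x m) (D m)) → ∀ᶠ n in atTop, x ∈ U n (g n) := by
  classical
  refine or_iff_not_imp_left.2 fun H => ?_
  push Not at H
  obtain ⟨F, f1, f2, f3⟩ : ∃ F : ℕ → Set (ℕ → Bool), (∀ n, (F n).Finite) ∧ (∀ n, F n ⊆ P) ∧
      ∀ x ∈ P, ∀ᶠ n in atTop, x ∈ F n := by
    obtain ⟨f, hf⟩ := Set.countable_iff_exists_injOn.1 hP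
    exact ⟨fun n => P ∩ f ⁻¹' Iic n, fun n => .of_finite_image ((finite_Iic n).subset
      (image_subset_iff.2 fun x hx => hx.2)) (hf.mono inter_subset_left), fun n => inter_subset_left,
      fun x hx => (eventually_ge_atTop (f x)).mono fun n hn => ⟨hx, hn⟩⟩
  obtain ⟨s, l, D, s0, l0, d1, d2, d3, d4⟩ := glue
    (σ := {c : ℕ → Option Bool // Fr c ∧ ∀ m, lo (c m) (d m)}) Subtype.val (fun s => s.2.1) id
    (fun n l s s' => (∀ m, lo (s'.1 m) (s.1 m)) ∧ ∃ i, F n ⊆ U n i ∧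
      ∀ x : ℕ → Bool, (∀ m, lo (x m) (s'.1 m)) → x ∈ sat l (U n i))
    (fun n l s => by
      obtain ⟨i, c, c1, c2, c3⟩ := silver s.2.1 (B := fun i => {_x | F n ⊆ U n i} ∩ sat l (U n i))
        (fun i => (MeasurableSet.const _).inter (sat_eq l _ ▸ .biInter (low_fin l).countable
          fun t _ => measurable_add_const t (hU n i))) fun x hx => by
        obtain ⟨i, hi⟩ := H n (F n) ((x + ·) '' {t | ∀ m ≥ l, t m = false}) (f1 n)
          ((low_fin l).image _) (f2 n) (by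
            rintro _ ⟨t, ht, rfl⟩
            filter_upwards [eventually_ge_atTop l] with m hm
            have : (x + t) m = x m := by
              change xor (x m) (t m) = x m
              simp [ht m hm]
            exact this ▸ (hx m).tr (s.2.2 m))
        refine ⟨i, subset_union_left.trans hi, ?_⟩
        rw [sat_eq]
        exact mem_biInter fun t ht => hi (.inr ⟨t, ht, rfl⟩)
      refine ⟨⟨c, c1, fun m => (c2 m).tr (s.2.2 m)⟩, c2, i, (c3 (fun m => (c m).getD false)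
        fun m => ?_).1, fun x hx => (c3 x hx).2⟩
      rcases c m with _ | b <;> simp [lo]) ⟨d, hd, fun _ => .rf _⟩
  choose g g1 g2 using fun n => (d2 n).1.2
  have h1 : ∀ n k m, n ≤ k → lo ((s k).1 m) ((s n).1 m) := fun n k m h => by
    induction h with
    | refl => exact .rf _
    | step _ ih => exact ((d2 _).1.1 m).tr ih
  refine ⟨g, D, d1, fun m => ?_, fun x hx => (f3 x hx).mono fun n hn => g1 n hn, fun x hx => ?_⟩
  · obtain ⟨k, -, k2, k3⟩ := d4 0 m (by omega)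
    exact d3 _ _ k2 k3 ▸ (s _).2.2 m
  obtain ⟨M, hM⟩ := eventually_atTop.1 hx
  filter_upwards [eventually_ge_atTop (M + 1)] with n hn
  obtain ⟨j, rfl⟩ : ∃ j, n = j + 1 := ⟨n - 1, by omega⟩
  have h2 : j + 1 ≤ l (j + 1) := (d2 j).2.1
  refine g2 _ (fun m => if l (j + 1) ≤ m then x m else ((s (j + 2)).1 m).getD false) (fun m => ?_) x
    fun m hm => by simp [show l (j + 1) ≤ m from hm]
  split_ifs with h3
  · obtain ⟨k, k1, k2, k3⟩ := d4 _ m h3
    exact (d3 _ _ k2 k3 ▸ hM m (by omega)).tr (h1 _ _ m (by omega))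
  · rcases (s (j + 2)).1 m with _ | b <;> simp [lo]

lemma diag {d : ℕ → Option Bool} (hd : Fr d) {P : Set (ℕ → Bool)} (hP : P.Countable) :
    ∃ x : ℕ → Bool, (∀ m, lo (x m) (d m)) ∧ ∀ w ∈ P, ∃ᶠ m in atTop, x m ≠ w m := by
  obtain ⟨w, hw⟩ := (hP.insert 0).exists_eq_range (insert_nonempty _ _)
  obtain ⟨a, a1, a2⟩ := extraction_of_frequently_atTop hd
  refine ⟨fun m => (d m).getD (!w (invFun a m).unpair.1 m), fun m => ?_, fun v hv => ?_⟩
  · rcases h : d m with _ | b <;> simp [lo, h]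
  obtain ⟨k, rfl⟩ := hw.le (mem_insert_of_mem _ hv)
  refine frequently_atTop.2 fun n => ⟨a (Nat.pair k n), (Nat.right_le_pair k n).trans a1.le_apply, ?_⟩
  simp [a2, leftInverse_invFun a1.injective (Nat.pair k n)]

lemma sparse' {d : ℕ → Option Bool} (hd : Fr d) (g : ℕ → ℕ) : ∃ z : ℕ → Bool, z 0 = true ∧
    (∃ᶠ m in atTop, z m = true) ∧ (∀ m ≠ 0, z m = true → d m = none) ∧
    ∀ n, Tau.cnt (g n) z ≤ n + 1 := by
  classical
  choose a a1 a2 using frequently_atTop.1 hd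
  let b : ℕ → ℕ := fun k => a ((Finset.range (k + 1)).sup g + k)
  refine ⟨fun m => decide (m = 0 ∨ m ∈ range b), by simp, frequently_atTop.2 fun k =>
    ⟨b k, le_trans (by omega) (a1 _), by simp⟩, fun m h1 h2 => ?_, fun n => ?_⟩
  · obtain ⟨k, rfl⟩ : m ∈ range b := by simpa [h1] using h2
    exact a2 _
  · refine (Finset.card_le_card (t := insert 0 ((Finset.range n).image b)) fun m hm => ?_).trans
      ((Finset.card_insert_le _ _).trans (by simpa using Finset.card_image_le (s := .range n) (f := b)))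
    simp only [Finset.mem_filter, Finset.mem_range, decide_eq_true_eq] at hm
    obtain ⟨h1, rfl | ⟨k, rfl⟩⟩ := hm
    · simp
    refine Finset.mem_insert_of_mem (Finset.mem_image_of_mem _ (Finset.mem_range.2 ?_))
    by_contra h
    have h2 : g n ≤ (Finset.range (k + 1)).sup g := Finset.le_sup (Finset.mem_range.2 (by omega))
    have := a1 ((Finset.range (k + 1)).sup g + k)
    simp only [b] at h1
    omega

/-- invariants of the construction -/
def Gv (S : Set (((ℕ → Bool) × Bool) ⊕ ((ℕ → Option Bool) × (ℕ → Set (ℕ → Bool))))) : Prop :=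
  (∀ c, .inr c ∈ S → Fr c.1 ∧
    ∀ x : ℕ → Bool, (∀ᶠ m in atTop, lo (x m) (c.1 m)) → ∀ᶠ n in atTop, x ∈ c.2 n) ∧
  (∀ c c', .inr c ∈ S → .inr c' ∈ S →
    (∀ᶠ m in atTop, lo (c.1 m) (c'.1 m)) ∨ ∀ᶠ m in atTop, lo (c'.1 m) (c.1 m)) ∧
  (∀ p c, .inl p ∈ S → .inr c ∈ S → ∀ᶠ n in atTop, p.1 ∈ c.2 n) ∧
  ∀ x y, .inl (x, true) ∈ S → .inl (y, true) ∈ S → x 0 ≠ y 0 → ∃ᶠ m in atTop, x m ≠ y m

theorem bgam (h : Cardinal.continuum.{0} = Cardinal.aleph 1) : ∃ L Y : Set (ℕ → Bool), Y ⊆ L ∧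
    (∀ U : ℕ → ℕ → Set (ℕ → Bool), (∀ n i, MeasurableSet (U n i)) →
      (∀ n F, F.Finite → F ⊆ L → ∃ i, F ⊆ U n i) →
      ∃ g : ℕ → ℕ, ∀ x ∈ L, ∀ᶠ n in atTop, x ∈ U n (g n)) ∧
    (∀ x ∈ Y, ∀ y ∈ Y, x 0 ≠ y 0 → ∃ᶠ m in atTop, x m ≠ y m) ∧
    ∀ g : ℕ → ℕ, ∃ x ∈ Y, ∃ y ∈ Y, x 0 ≠ y 0 ∧ ∀ n, Tau.cnt (g n) (x + y) ≤ n + 1 := by
  refine (rec_CH h (J := (ℕ → ℕ → {D : Set (ℕ → Bool) // MeasurableSet D}) ⊕ (ℕ → ℕ)) ?_ Gv
    (fun j S => match j with
      | .inl U => (∃ n F, F.Finite ∧ (∀ x ∈ F, ∃ b, .inl (x, b) ∈ S) ∧ ∀ i, ¬ F ⊆ (U n i).1) ∨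
          ∃ (g : ℕ → ℕ) (D : ℕ → Option Bool), .inr (D, fun n => (U n (g n)).1) ∈ S
      | .inr g => ∃ x y, .inl (x, true) ∈ S ∧ .inl (y, true) ∈ S ∧ x 0 ≠ y 0 ∧
          ∀ n, Tau.cnt (g n) (x + y) ≤ n + 1)
    countable_empty (by simp [Gv]) ?_ ?_).elim fun S ⟨_, hG, hT⟩ => ?_
  rotate_right
  · refine ⟨{x | ∃ b, Sum.inl (x, b) ∈ S}, {x | Sum.inl (x, true) ∈ S}, fun x hx => ⟨_, hx⟩,
      fun U h1 h2 => ?_, fun x hx y hy => hG.2.2.2 x y hx hy, fun g => ?_⟩
    · obtain ⟨S', h3, ⟨n, F, h4, h5, h6⟩ | ⟨g, D, h4⟩⟩ := hT (.inl fun n i => ⟨U n i, h1 n i⟩)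
      · obtain ⟨i, hi⟩ := h2 n F h4 fun x hx => (h5 x hx).imp fun b hb => h3 hb
        exact (h6 i hi).elim
      · exact ⟨g, fun x ⟨b, hb⟩ => hG.2.2.1 _ _ hb (h3 h4)⟩
    · obtain ⟨S', h3, x, y, h4, h5, h6⟩ := hT (.inr g)
      exact ⟨x, h3 h4, y, h3 h5, h6⟩
  · obtain ⟨b, hb, -, h2⟩ := TopologicalSpace.exists_countable_basis (ℕ → Bool)
    have h3 := MeasurableSpace.cardinal_measurableSet_le_continuum (s := b)
      (hb.le_aleph0.trans Cardinal.aleph0_le_continuum)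
    rw [← h2.borel_eq_generateFrom, ← BorelSpace.measurable_eq] at h3
    rw [Cardinal.mk_sum, Cardinal.lift_id, Cardinal.lift_id, ← Cardinal.continuum_add_self]
    exact add_le_add (card_seq _ (card_seq _ h3)) (card_seq _ (card_ct _))
  · intro c _ h1 h2
    have e : ∀ a b, a ∈ ⋃₀ c → b ∈ ⋃₀ c → ∃ s, Gv s ∧ a ∈ s ∧ b ∈ s := by
      rintro a b ⟨s, h3, h4⟩ ⟨t, h5, h6⟩
      rcases h1.total h3 h5 with e | e
      exacts [⟨t, h2 t h5, e h4, h6⟩, ⟨s, h2 s h3, h4, e h6⟩]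
    refine ⟨fun a ⟨s, h3, h4⟩ => (h2 s h3).1 a h4, fun a b h3 h4 => ?_, fun a b h3 h4 => ?_,
      fun a b h3 h4 => ?_⟩ <;> obtain ⟨s, h5, h6, h7⟩ := e _ _ h3 h4
    exacts [h5.2.1 _ _ h6 h7, h5.2.2.1 _ _ h6 h7, h5.2.2.2 _ _ h6 h7]
  intro S _ hc hG j
  obtain ⟨d, d1, d2⟩ := lower (S := Prod.fst '' (Sum.inr ⁻¹' S))
    ((hc.preimage Sum.inr_injective).image _) (by rintro _ ⟨c, h1, rfl⟩; exact (hG.1 c h1).1)
    (by rintro _ ⟨c, h1, rfl⟩ _ ⟨c', h2, rfl⟩; exact hG.2.1 c c' h1 h2)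
  have d3 : ∀ x : ℕ → Bool, (∀ᶠ m in atTop, lo (x m) (d m)) → ∀ c, .inr c ∈ S →
      ∀ᶠ n in atTop, x ∈ c.2 n := fun x hx c h1 =>
    (hG.1 c h1).2 x ((hx.and (d2 _ ⟨c, h1, rfl⟩)).mono fun m hm => hm.1.tr hm.2)
  have hP : (Prod.fst '' (Sum.inl ⁻¹' S)).Countable := (hc.preimage Sum.inl_injective).image _
  rcases j with U | g
  · obtain ⟨n, F, E, h1, h2, h3, h4, h5⟩ | ⟨g, D, h1, h2, h3, h4⟩ := sel d1 hP fun n i => (U n i).2
    · refine ⟨S ∪ (fun x => .inl (x, false)) '' E, subset_union_left,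
        hc.union (h2.countable.image _), ⟨fun c h6 => hG.1 c (by simpa using h6),
          fun c c' h6 h7 => hG.2.1 c c' (by simpa using h6) (by simpa using h7), fun p c h6 h7 => ?_,
          fun x y h6 h7 => hG.2.2.2 x y (by simpa using h6) (by simpa using h7)⟩,
        .inl ⟨n, _, h1.union h2, ?_, h5⟩⟩
      · have h8 : .inr c ∈ S := by simpa using h7
        obtain h6 | ⟨x, h6, h9⟩ := h6
        · exact hG.2.2.1 p c h6 h8
        · obtain rfl := Sum.inl_injective h9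
          exact d3 x (h4 x h6) c h8
      · rintro x (hx | hx)
        · obtain ⟨p, h6, rfl⟩ := h3 hx
          exact ⟨p.2, .inl h6⟩
        · exact ⟨false, .inr ⟨x, hx, rfl⟩⟩
    · have e : ∀ c, .inr c ∈ S → ∀ᶠ m in atTop, lo (D m) (c.1 m) := fun c h5 =>
        (d2 _ ⟨c, h5, rfl⟩).mono fun m hm => (h2 m).tr hm
      refine ⟨insert (.inr (D, fun n => (U n (g n)).1)) S, subset_insert _ _, hc.insert _,
        ⟨fun c h5 => ?_, fun c c' h5 h6 => ?_, fun p c h5 h6 => ?_,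
          fun x y h6 h7 => hG.2.2.2 x y (by simpa using h6) (by simpa using h7)⟩,
        .inr ⟨g, D, mem_insert _ _⟩⟩
      · rcases h5 with h5 | h5
        · obtain rfl := Sum.inr_injective h5
          exact ⟨h1, h4⟩
        · exact hG.1 c h5
      · rcases h5 with h5 | h5 <;> rcases h6 with h6 | h6
        · obtain rfl := Sum.inr_injective (h5.trans h6.symm)
          exact .inl (.of_forall fun _ => .rf _)
        · obtain rfl := Sum.inr_injective h5
          exact .inl (e _ h6)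
        · obtain rfl := Sum.inr_injective h6
          exact .inr (e _ h5)
        · exact hG.2.1 c c' h5 h6
      · have h7 : .inl p ∈ S := by simpa using h5
        rcases h6 with h6 | h6
        · obtain rfl := Sum.inr_injective h6
          exact h3 _ ⟨p, h7, rfl⟩
        · exact hG.2.2.1 p c h7 h6
  · obtain ⟨z, z0, z1, z2, z3⟩ := sparse' d1 g
    obtain ⟨x, x1, x2⟩ := diag d1 (hP.union (hP.image (· + z)))
    have ex : ∀ m, (x + z) m = xor (x m) (z m) := fun _ => rfl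
    have a1 : ∀ m, z m = true → x m ≠ (x + z) m := fun m hm => by simp [ex, hm]
    have a2 : ∀ w, .inl (w, true) ∈ S → ∀ v, v = x ∨ v = x + z → ∃ᶠ m in atTop, v m ≠ w m := by
      rintro w hw _ (rfl | rfl)
      · exact x2 w (.inl ⟨_, hw, rfl⟩)
      · refine (x2 _ (.inr ⟨w, ⟨_, hw, rfl⟩, rfl⟩)).mono fun m hm h1 => hm ?_
        change x m = xor (w m) (z m)
        simp [← h1, ex]
    have a3 : ∀ v, v = x ∨ v = x + z → ∀ᶠ m in atTop, lo (v m) (d m) := by
      rintro _ (rfl | rfl)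
      · exact .of_forall x1
      · filter_upwards [eventually_ne_atTop 0] with m hm
        rcases h1 : z m with _ | _
        · simpa [ex, h1] using x1 m
        · exact .inl (z2 m hm h1)
    have a4 : ∀ p, Sum.inl p ∈ insert (.inl (x, true)) (insert (.inl (x + z, true)) S) →
        (p.1 = x ∨ p.1 = x + z) ∨ .inl p ∈ S := by
      rintro p (h1 | h1 | h1)
      exacts [.inl (.inl (by rw [Sum.inl_injective h1])), .inl (.inr (by rw [Sum.inl_injective h1])),
        .inr h1]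
    refine ⟨insert (.inl (x, true)) (insert (.inl (x + z, true)) S),
      (subset_insert _ _).trans (subset_insert _ _), (hc.insert _).insert _,
      ⟨fun c h6 => hG.1 c (by simpa using h6),
        fun c c' h6 h7 => hG.2.1 c c' (by simpa using h6) (by simpa using h7), fun p c h6 h7 => ?_,
        fun u v h6 h7 h8 => ?_⟩, x, x + z, mem_insert _ _, .inr (mem_insert _ _), a1 0 z0, by
        simpa [← add_assoc, add_self] using z3⟩
    · have h8 : .inr c ∈ S := by simpa using h7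
      exact (a4 p h6).elim (fun h9 => d3 _ (a3 _ h9) c h8) fun h9 => hG.2.2.1 p c h9 h8
    · rcases a4 _ h6 with h6 | h6 <;> rcases a4 _ h7 with h7 | h7
      · simp only at h6 h7
        rcases h6 with rfl | rfl <;> rcases h7 with rfl | rfl
        exacts [(h8 rfl).elim, z1.mono a1, z1.mono fun m hm => (a1 m hm).symm, (h8 rfl).elim]
      · exact a2 v h7 u h6
      · exact (a2 u h6 v h7).mono fun m => Ne.symm
      · exact hG.2.2.2 u v h6 h7 h8

end Pool.Agent.H8.Silv
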