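import Mathlib
import Pool.Agent.H8.Rec
import Pool.Agent.H8.Tau2

set_option autoImplicit false

namespace Pool.Agent.H8.SG

open Set Filter Topology Function
open scoped Cardinal

def Cone (s : Finset ℕ × ℕ) (b : Bool) (D : ℕ → Bool) : Set (ℕ → Bool) :=
  {x | (∀ i < s.2, x i = decide (i ∈ s.1)) ∧ ∀ i, s.2 ≤ i → x i = true → D i = b}

def Hit (O : Set (ℕ → Bool)) (s : Finset ℕ × ℕ) (b : Bool) (D : ℕ → Bool) : Prop :=
  ∃ x ∈ O, x ∈ Cone s b D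

lemma open_of {O : Set (ℕ → Bool)}
    (h : ∀ y ∈ O, ∃ N, ∀ x : ℕ → Bool, (∀ i < N, x i = y i) → x ∈ O) : IsOpen O := by
  refine isOpen_iff_mem_nhds.2 fun y hy => ?_
  obtain ⟨N, hN⟩ := h y hy
  have : ∀ᶠ x in 𝓝 y, ∀ i ∈ Finset.range N, x i = y i :=
    (Finset.eventually_all _).2 fun i _ =>
      ((isOpen_discrete {y i}).preimage (continuous_apply (A := fun _ : ℕ => Bool) i)).mem_nhds
        (mem_singleton (y i))
  filter_upwards [this] with x hx using hN x fun i hi => hx i (Finset.mem_range.2 hi)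

lemma open_hit {O : Set (ℕ → Bool)} (hO : IsOpen O) (s : Finset ℕ × ℕ) (b : Bool) :
    IsOpen {D | Hit O s b D} := by
  refine open_of ?_
  rintro D ⟨x, h1, h2, h3⟩
  obtain ⟨M, hM⟩ := cyl hO h1
  refine ⟨M, fun E hE => ⟨fun i => x i && decide (i < max M s.2), hM _ fun i hi => ?_,
    fun i hi => ?_, fun i hi h => ?_⟩⟩
  · simp [hi]
  · simp [hi, h2 i hi]
  · simp only [Bool.and_eq_true, decide_eq_true_eq] at h
    rw [hE i (by omega)]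
    exact h3 i hi h.1

lemma closed_cone (s : Finset ℕ × ℕ) (b : Bool) (D : ℕ → Bool) : IsClosed (Cone s b D) := by
  refine ⟨open_of fun y hy => ?_⟩
  simp only [Cone, mem_compl_iff, mem_setOf_eq, not_and_or, not_forall] at hy ⊢
  rcases hy with ⟨i, h1, h2⟩ | ⟨i, h1, h2, h3⟩
  · exact ⟨i + 1, fun x hx => Or.inl ⟨i, h1, by rwa [hx i (by omega)]⟩⟩
  · exact ⟨i + 1, fun x hx => Or.inr ⟨i, h1, by rwa [hx i (by omega)], h3⟩⟩

lemma baire {𝒪 : Set (Set (ℕ → Bool))} (hc : 𝒪.Countable) (ho : ∀ O ∈ 𝒪, IsOpen O) {b : Bool}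
    {D : ℕ → Bool} (h : ∀ O ∈ 𝒪, ∀ s, Hit O s b D) (s : Finset ℕ × ℕ) :
    ∃ x ∈ Cone s b D, ∀ O ∈ 𝒪, x ∈ O := by
  classical
  haveI : CompactSpace (Cone s b D) := isCompact_iff_compactSpace.1 (closed_cone s b D).isCompact
  haveI : Nonempty (Cone s b D) := ⟨⟨fun i => decide (i < s.2 ∧ i ∈ s.1),
    fun i hi => by simp [hi], fun i hi h => by simp at h; omega⟩⟩
  have := dense_biInter_of_isOpen (X := Cone s b D) (f := fun O => Subtype.val ⁻¹' O)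
    (fun O hO => (ho O hO).preimage continuous_subtype_val) hc fun O hO => by
      refine dense_iff_inter_open.2 ?_
      rintro _ ⟨V, hV, rfl⟩ ⟨y, hy⟩
      obtain ⟨M, hM⟩ := cyl hV hy
      obtain ⟨x, h1, h2, h3⟩ := h O hO
        ((Finset.range (max M s.2)).filter fun i => y.1 i = true, max M s.2)
      have e : ∀ i < max M s.2, x i = y.1 i := fun i hi => by
        rw [h2 i hi]
        simp only [Finset.mem_filter, Finset.mem_range, hi, true_and, Bool.decide_eq_true]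
      refine ⟨⟨x, fun i hi => ?_, fun i hi h => ?_⟩, hM x fun i hi => e i (by omega), h1⟩
      · rw [e i (by omega)]
        exact y.2.1 i hi
      · by_cases h4 : i < max M s.2
        · exact y.2.2 i hi (e i h4 ▸ h)
        · exact h3 i (not_lt.1 h4) h
  obtain ⟨x, hx⟩ := this.nonempty
  exact ⟨x.1, x.2, fun O hO => mem_iInter₂.1 hx O hO⟩

lemma compact_hit {O' : Set (ℕ → Bool)} (hO : IsOpen O') {U : ℕ → Set (ℕ → Bool)}
    (hU : ∀ m, IsOpen (U m)) {b : Bool} (s s' : Finset ℕ × ℕ)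
    (h : ∀ D, ¬ Hit O' s' (!b) D → ∃ x ∈ Cone s b D, ∃ᶠ m in atTop, x ∈ U m) (a : ℕ) :
    ∃ N, ∀ D, ¬ Hit O' s' (!b) D → ∃ m, a ≤ m ∧ m < N ∧ Hit (U m) s b D := by
  obtain ⟨t, ht⟩ := (open_hit hO s' (!b)).isClosed_compl.isCompact.elim_finite_subcover
    (fun m : ℕ => {D | Hit (U (a + m)) s b D}) (fun m => open_hit (hU _) s b) fun D hD => by
      obtain ⟨x, h1, h2⟩ := h D hD
      obtain ⟨m, h3, h4⟩ := frequently_atTop.1 h2 a
      obtain ⟨k, rfl⟩ := Nat.exists_eq_add_of_le h3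
      exact mem_iUnion.2 ⟨k, x, h4, h1⟩
  refine ⟨a + t.sup id + 1, fun D hD => ?_⟩
  obtain ⟨m, h1, h2⟩ := mem_iUnion₂.1 (ht hD)
  have : m ≤ t.sup id := Finset.le_sup (f := id) h1
  exact ⟨a + m, by omega, by omega, h2⟩

abbrev At := Bool × (Set (ℕ → Bool) ⊕ (ℕ → Bool))

def Gd (S : Set At) : Prop :=
  (∀ b O, (b, .inl O) ∈ S → IsOpen O) ∧ (∀ b O x, (b, .inl O) ∈ S → (b, .inr x) ∈ S → x ∈ O) ∧
    ∀ b O O', (b, .inl O) ∈ S → (!b, .inl O') ∈ S → ∀ D s s', Hit O s b D ∨ Hit O' s' (!b) D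

lemma ct_O {S : Set At} (hc : S.Countable) (b : Bool) : {O | (b, .inl O) ∈ S}.Countable :=
  hc.preimage_of_injOn (f := fun O => (b, Sum.inl O)) fun _ _ _ _ h => by simpa using h

lemma ct_P {S : Set At} (hc : S.Countable) (b : Bool) : {x | (b, .inr x) ∈ S}.Countable :=
  hc.preimage_of_injOn (f := fun O => (b, Sum.inr O)) fun _ _ _ _ h => by simpa using h

lemma Gd.ins {S : Set At} (h : Gd S) {b : Bool} {x : ℕ → Bool}
    (hx : ∀ O, (b, .inl O) ∈ S → x ∈ O) : Gd (insert (b, .inr x) S) := by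
  have e : ∀ c O, (c, Sum.inl O) ∈ insert (b, Sum.inr x) S → (c, Sum.inl O) ∈ S := fun c O h =>
    h.resolve_left (by simp)
  refine ⟨fun c O h1 => h.1 c O (e _ _ h1), fun c O y h1 h2 => ?_,
    fun c O O' h1 h2 => h.2.2 c O O' (e _ _ h1) (e _ _ h2)⟩
  rcases h2 with h2 | h2
  · obtain ⟨rfl, h3⟩ := Prod.mk.inj h2
    obtain rfl := Sum.inr.inj h3
    exact hx O (e _ _ h1)
  · exact h.2.1 c O y (e _ _ h1) h2

lemma Gd.big {S : Set At} (h : Gd S) (hc : S.Countable) {b : Bool} {D : ℕ → Bool}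
    {O' : Set (ℕ → Bool)} {s' : Finset ℕ × ℕ} (h1 : (!b, .inl O') ∈ S) (h2 : ¬ Hit O' s' (!b) D)
    (s : Finset ℕ × ℕ) : ∃ x ∈ Cone s b D, ∀ O, (b, .inl O) ∈ S → x ∈ O :=
  baire (ct_O hc b) (h.1 b) (fun O hO s => (h.2.2 b O O' hO h1 D s s').resolve_right h2) s

lemma Gd.pt {S : Set At} (h : Gd S) (hc : S.Countable) (D : ℕ → Bool) (s : Finset ℕ × ℕ) :
    ∃ b, ∃ x ∈ Cone s b D, ∀ O, (b, .inl O) ∈ S → x ∈ O := by
  by_cases h1 : ∀ O, (false, .inl O) ∈ S → ∀ s, Hit O s false D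
  · exact ⟨false, baire (ct_O hc _) (h.1 _) h1 s⟩
  · push Not at h1
    obtain ⟨O, h2, s', h3⟩ := h1
    exact ⟨true, h.big (b := true) hc h2 h3 s⟩

def Wd (U : ℕ → Set (ℕ → Bool)) (σ : ℕ → Bool) (p : ℕ × Bool) : Set (ℕ → Bool) :=
  ⋃ m ∈ {m | p.1 ≤ m ∧ σ m = p.2}, U m

lemma Gd.prom {S : Set At} (h : Gd S) (hc : S.Countable) {b : Bool} {U : ℕ → Set (ℕ → Bool)}
    (hU : ∀ m, IsOpen (U m)) (H : ∀ x, (∀ O, (b, .inl O) ∈ S → x ∈ O) → ∃ᶠ m in atTop, x ∈ U m) :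
    ∃ σ, Gd (S ∪ range fun p => (b, .inl (Wd U σ p))) := by
  haveI := (ct_O hc (!b)).to_subtype
  haveI := (ct_P hc b).to_subtype
  obtain ⟨σ, hσ⟩ := intervals (I := Option ({x | (b, .inr x) ∈ S} ⊕
      {O | (!b, .inl O) ∈ S} × (Finset ℕ × ℕ) × (Finset ℕ × ℕ)))
    (fun r a N => match r with
      | none => True
      | some (.inl x) => ∃ m, a ≤ m ∧ m < N ∧ x.1 ∈ U m
      | some (.inr (O', s, s')) => ∀ D, ¬ Hit O'.1 s' (!b) D → ∃ m, a ≤ m ∧ m < N ∧ Hit (U m) s b D)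
    (by
      rintro (_ | x | ⟨O', s, s'⟩) a
      · exact ⟨0, trivial⟩
      · obtain ⟨m, h1, h2⟩ := frequently_atTop.1 (H x.1 fun O hO => h.2.1 b O _ hO x.2) a
        exact ⟨m + 1, m, h1, by omega, h2⟩
      · refine compact_hit (h.1 _ _ O'.2) hU s s' (fun D hD => ?_) a
        obtain ⟨x, h1, h2⟩ := h.big hc O'.2 hD s
        exact ⟨x, h1, H x h2⟩)
  have k1 : ∀ p O', (!b, .inl O') ∈ S → ∀ D s s', Hit (Wd U σ p) s b D ∨ Hit O' s' (!b) D := by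
    intro p O' h1 D s s'
    obtain ⟨a, h2, N, h3, h4⟩ := hσ (some (.inr (⟨O', h1⟩, s, s'))) p.2 p.1
    refine or_iff_not_imp_right.2 fun hD => ?_
    obtain ⟨m, h5, h6, x, h7, h8⟩ := h3 D hD
    exact ⟨x, mem_biUnion (show m ∈ {m | p.1 ≤ m ∧ σ m = p.2} from ⟨h2.trans h5, h4 m h5 h6⟩) h7, h8⟩
  have e : ∀ c O, (c, Sum.inl O) ∈ (S ∪ range fun p => ((b, .inl (Wd U σ p)) : At)) →
      (c, Sum.inl O) ∈ S ∨ (c = b ∧ ∃ p, O = Wd U σ p) := by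
    rintro c O (h | ⟨p, h⟩)
    · exact Or.inl h
    · obtain ⟨rfl, h3⟩ := Prod.mk.inj h
      exact Or.inr ⟨rfl, p, (Sum.inl.inj h3).symm⟩
  refine ⟨σ, fun c O h1 => ?_, fun c O y h1 h2 => ?_, fun c O O' h1 h2 D s s' => ?_⟩
  · rcases e _ _ h1 with h1 | ⟨rfl, p, rfl⟩
    exacts [h.1 _ _ h1, isOpen_biUnion fun m _ => hU m]
  · replace h2 : (c, Sum.inr y) ∈ S := h2.resolve_right (by simp)
    rcases e _ _ h1 with h1 | ⟨rfl, p, rfl⟩
    · exact h.2.1 _ _ _ h1 h2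
    · obtain ⟨a, h3, N, ⟨m, h5, h6, h7⟩, h4⟩ := hσ (some (.inl ⟨y, h2⟩)) p.2 p.1
      exact mem_biUnion (show m ∈ {m | p.1 ≤ m ∧ σ m = p.2} from ⟨h3.trans h5, h4 m h5 h6⟩) h7
  · rcases e _ _ h1 with h1 | ⟨rfl, p, rfl⟩ <;> rcases e _ _ h2 with h2 | ⟨h3, q, rfl⟩
    · exact h.2.2 _ _ _ h1 h2 D s s'
    · subst h3
      have := k1 q O (by rwa [Bool.not_not]) D s' s
      rw [Bool.not_not] at this
      exact this.symm
    · exact k1 p O' h2 D s s'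
    · simp at h3

theorem reap (h : Cardinal.continuum.{0} = Cardinal.aleph 1) : ∃ X : Bool → Set (ℕ → Bool),
    (∀ b, ∀ x ∈ X b, ∃ᶠ i in atTop, x i = true) ∧ (∀ D s, ∃ b, ∃ x ∈ X b, x ∈ Cone s b D) ∧
    ∀ b (U : ℕ → Set (ℕ → Bool)), (∀ m, IsOpen (U m)) → (∀ x ∈ X b, ∃ᶠ m in atTop, x ∈ U m) →
      ∃ σ : ℕ → Bool, ∀ x ∈ X b, ∀ c, ∃ᶠ m in atTop, σ m = c ∧ x ∈ U m := by
  classical
  let B : ℕ → Set (ℕ → Bool) := fun k => {x | ∃ i ≥ k, x i = true}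
  refine (rec_CH h
    (J := ((ℕ → Bool) × Finset ℕ × ℕ) ⊕ (Bool × (ℕ → {U : Set (ℕ → Bool) // IsOpen U})))
    (by
      rw [Cardinal.mk_sum, Cardinal.lift_id, Cardinal.lift_id, ← Cardinal.continuum_add_self]
      exact add_le_add (card_prod (card_seq _ (card_ct _)) (card_ct _))
        (card_prod (card_ct _) (card_seq _ (card_open _)))) Gd
    (fun j S => match j with
      | .inl (D, s) => ∃ b x, (b, .inr x) ∈ S ∧ x ∈ Cone s b D
      | .inr (b, U) => (∃ x, (b, .inr x) ∈ S ∧ ¬ ∃ᶠ m in atTop, x ∈ (U m).1) ∨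
          ∃ σ, ∀ p, (b, .inl (Wd (fun m => (U m).1) σ p)) ∈ S)
    (S₀ := range fun p : Bool × ℕ => (p.1, .inl (B p.2))) (countable_range _) ?_ ?_ ?_).elim
      fun S ⟨h0, hG, hT⟩ => ?_
  rotate_right
  · refine ⟨fun b => {x | ((b, Sum.inr x) : At) ∈ S}, fun b x hx => frequently_atTop.2 fun k =>
      hG.2.1 b (B k) x (h0 ⟨(b, k), rfl⟩) hx, fun D s => ?_, fun b U h1 h2 => ?_⟩
    · obtain ⟨S', h1, b, x, h2, h3⟩ := hT (.inl (D, s))
      exact ⟨b, x, h1 h2, h3⟩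
    · obtain ⟨S', h3, ⟨x, h4, h5⟩ | ⟨σ, h4⟩⟩ := hT (.inr (b, fun m => ⟨U m, h1 m⟩))
      · exact absurd (h2 x (h3 h4)) h5
      · refine ⟨σ, fun x hx c => frequently_atTop.2 fun k => ?_⟩
        obtain ⟨m, h5, h6⟩ := mem_iUnion₂.1 (hG.2.1 b _ x (h3 (h4 (k, c))) hx)
        exact ⟨m, h5.1, h5.2, h6⟩
  · have e : ∀ b O, ((b, .inl O) : At) ∈ range (fun p : Bool × ℕ => ((p.1, .inl (B p.2)) : At)) →
        ∃ k, O = B k := by
      rintro b O ⟨p, h⟩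
      exact ⟨p.2, (Sum.inl.inj (Prod.mk.inj h).2).symm⟩
    refine ⟨fun b O h1 => ?_, fun b O x _ h2 => by simp at h2, fun b O O' h1 h2 D s s' => ?_⟩
    · obtain ⟨k, rfl⟩ := e _ _ h1
      refine open_of ?_
      rintro y ⟨i, h2, h3⟩
      exact ⟨i + 1, fun x hx => ⟨i, h2, by rwa [hx i (by omega)]⟩⟩
    · obtain ⟨k, rfl⟩ := e _ _ h1
      obtain ⟨k', rfl⟩ := e _ _ h2
      have : ∀ k (s : Finset ℕ × ℕ) c n, k ≤ n → s.2 ≤ n → D n = c → Hit (B k) s c D :=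
        fun k s c n h1 h2 h3 => ⟨fun i => decide ((i < s.2 ∧ i ∈ s.1) ∨ i = n), ⟨n, h1, by simp⟩,
          fun i hi => by simp [hi, show i ≠ n by omega], fun i hi h => by
            obtain rfl : i = n := by simp at h; omega
            exact h3⟩
      by_cases h3 : D (k + k' + s.2 + s'.2) = b
      · exact Or.inl (this _ _ _ _ (by omega) (by omega) h3)
      · exact Or.inr (this _ _ _ _ (by omega) (by omega) (Bool.eq_not_iff.2 h3))
  · intro c _ h1 h2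
    have two : ∀ p ∈ ⋃₀ c, ∀ q ∈ ⋃₀ c, ∃ s ∈ c, p ∈ s ∧ q ∈ s := by
      rintro p ⟨s, h3, h4⟩ q ⟨t, h5, h6⟩
      rcases h1.total h3 h5 with h | h
      exacts [⟨t, h5, h h4, h6⟩, ⟨s, h3, h4, h h6⟩]
    refine ⟨fun b O ⟨s, h3, h4⟩ => (h2 s h3).1 b O h4, fun b O x h3 h4 => ?_,
      fun b O O' h3 h4 => ?_⟩ <;> obtain ⟨s, h5, h6, h7⟩ := two _ h3 _ h4
    exacts [(h2 s h5).2.1 _ _ _ h6 h7, (h2 s h5).2.2 _ _ _ h6 h7]
  · rintro S - hc hG (⟨D, s⟩ | ⟨b, U⟩)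
    · obtain ⟨b, x, h1, h2⟩ := hG.pt hc D s
      exact ⟨_, subset_insert _ _, hc.insert _, hG.ins h2, b, x, mem_insert _ _, h1⟩
    · by_cases H : ∀ x, (∀ O, (b, .inl O) ∈ S → x ∈ O) → ∃ᶠ m in atTop, x ∈ (U m).1
      · obtain ⟨σ, hσ⟩ := hG.prom hc (fun m => (U m).2) H
        exact ⟨_, subset_union_left, hc.union (countable_range _), hσ,
          Or.inr ⟨σ, fun p => Or.inr ⟨p, rfl⟩⟩⟩
      · obtain ⟨x, hx⟩ := not_forall.1 H
        obtain ⟨h1, h2⟩ := Classical.not_imp.1 hx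
        exact ⟨_, subset_insert _ _, hc.insert _, hG.ins h1, Or.inl ⟨x, mem_insert _ _, h2⟩⟩

/-- `Split(Λ,Λ)` for a set of reals -/
def Split (X : Set ℝ) : Prop :=
  ∀ 𝒰 : Set (Set X), (∀ U ∈ 𝒰, IsOpen U) → (univ : Set X) ∉ 𝒰 →
    (∀ x : X, {U ∈ 𝒰 | x ∈ U}.Infinite) →
    ∃ 𝒱 𝒲 : Set (Set X), 𝒱 ⊆ 𝒰 ∧ 𝒲 ⊆ 𝒰 ∧ Disjoint 𝒱 𝒲 ∧
      (∀ x : X, {U ∈ 𝒱 | x ∈ U}.Infinite) ∧ (∀ x : X, {U ∈ 𝒲 | x ∈ U}.Infinite)

lemma split_yes {X : Set ℝ} {d : X → ℕ → Bool} (hd : IsInducing d)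
    (H : ∀ U : ℕ → Set (ℕ → Bool), (∀ m, IsOpen (U m)) →
      (∀ x ∈ range d, ∃ᶠ m in atTop, x ∈ U m) →
      ∃ σ : ℕ → Bool, ∀ x ∈ range d, ∀ c, ∃ᶠ m in atTop, σ m = c ∧ x ∈ U m) : Split X := by
  intro 𝒰 h1 _ h2
  rcases isEmpty_or_nonempty X with hX | ⟨⟨z⟩⟩
  · exact ⟨∅, ∅, by simp, by simp, by simp, fun x => hX.elim x, fun x => hX.elim x⟩
  obtain ⟨𝒱, h3, h4, h5⟩ := Tau.ctble_large h1 h2
  haveI := ((h5 z).mono fun U hU => hU.1 : 𝒱.Infinite).to_subtype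
  haveI := h4.to_subtype
  obtain ⟨e⟩ : Nonempty (ℕ ≃ 𝒱) := nonempty_equiv_of_countable
  have hj : Injective fun m => (e m).1 := Subtype.val_injective.comp e.injective
  choose U u1 u2 using fun m => hd.isOpen_iff.1 (h1 _ (h3 (e m).2))
  obtain ⟨σ, hσ⟩ := H U u1 (by
    rintro _ ⟨x, rfl⟩
    by_contra hn
    refine h5 x ((Tau.fin_img (U := fun m => (e m).1) (P := fun V => x ∈ V)
      ((not_frequently.1 hn).mono fun m hm => by rwa [← u2])).subset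
        fun U hU => ⟨⟨e.symm ⟨U, hU.1⟩, by simp⟩, hU.2⟩))
  have k : ∀ c (x : X), {U ∈ (fun m => (e m).1) '' {m | σ m = c} | x ∈ U}.Infinite := by
    intro c x hf
    obtain ⟨m, h6, h7⟩ := ((hσ _ ⟨x, rfl⟩ c).and_eventually (Tau.ev_of_fin hj hf)).exists
    exact h7 ⟨⟨m, h6.1, rfl⟩, by rw [← u2]; exact h6.2⟩
  refine ⟨_, _, ?_, ?_, ?_, k true, k false⟩
  · rintro _ ⟨m, -, rfl⟩; exact h3 (e m).2
  · rintro _ ⟨m, -, rfl⟩; exact h3 (e m).2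
  · exact disjoint_image_of_injective hj (disjoint_left.2 fun m a b => by simp_all)

lemma split_no {X : Set ℝ} {d : X → ℕ → Bool} (hd : Continuous d)
    (h1 : ∀ x, ∃ᶠ i in atTop, d x i = true) (h2 : ∀ D s, ∃ b x, d x ∈ Cone s b D) : ¬ Split X := by
  classical
  intro H
  let U : ℕ → Set X := fun n => {x | d x n = true}
  have hj : Injective U := fun a b e => by
    by_contra hne
    obtain ⟨-, x, h3, -⟩ := h2 (fun _ => true) ({a}, a + b + 1)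
    have : x ∈ U b := e ▸ (show d x a = true by rw [h3 a (by simp only; omega)]; simp)
    have h4 : d x b = true := this
    rw [h3 b (by simp only; omega)] at h4
    simp at h4
    exact hne h4.symm
  obtain ⟨𝒱, 𝒲, h3, h4, h5, h6, h7⟩ := H (range U)
    (by
      rintro _ ⟨n, rfl⟩
      exact (isOpen_discrete {true}).preimage ((continuous_apply n).comp hd))
    (by
      rintro ⟨n, hn⟩
      obtain ⟨-, x, h3, -⟩ := h2 (fun _ => true) (∅, n + 1)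
      have h4 : d x n = true := (hn ▸ mem_univ x : x ∈ U n)
      rw [h3 n (by simp)] at h4
      simp at h4)
    fun x hf => by
      obtain ⟨m, h6, h7⟩ := ((h1 x).and_eventually (Tau.ev_of_fin hj hf)).exists
      exact h7 ⟨⟨m, rfl⟩, h6⟩
  obtain ⟨b, x, -, h8⟩ := h2 (fun n => decide (U n ∈ 𝒲)) (∅, 0)
  cases b
  · obtain ⟨V, h9, h10⟩ := (h7 x).nonempty
    obtain ⟨n, rfl⟩ := h4 h9
    simpa [h9] using h8 n (Nat.zero_le _) h10
  · obtain ⟨V, h9, h10⟩ := (h6 x).nonempty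
    obtain ⟨n, rfl⟩ := h3 h9
    exact disjoint_left.1 h5 h9 (by simpa using h8 n (Nat.zero_le _) h10)

theorem split_union (h : Cardinal.continuum.{0} = Cardinal.aleph 1) :
    ∃ X Y : Set ℝ, Split X ∧ Split Y ∧ ¬ Split (X ∪ Y) := by
  obtain ⟨X, h1, h2, h3⟩ := reap h
  let H := cantorSetHomeomorphNatToBool
  clear_value H
  let R : Set (ℕ → Bool) → Set ℝ := fun X => {r | ∃ h : r ∈ cantorSet, H ⟨r, h⟩ ∈ X}
  have hR : ∀ X, R X ⊆ cantorSet := fun X r hr => hr.1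
  have hd : ∀ X, IsEmbedding (H ∘ inclusion (hR X)) := fun X =>
    H.isEmbedding.comp (IsEmbedding.inclusion (hR X))
  have hr : ∀ X, range (H ∘ inclusion (hR X)) = X := fun X => by
    ext y
    refine ⟨?_, fun hy => ⟨⟨(H.symm y).1, (H.symm y).2, by simpa using hy⟩, by simp⟩⟩
    rintro ⟨z, rfl⟩
    exact z.2.2
  have e : R (X true) ∪ R (X false) = R (X true ∪ X false) := by
    ext r
    exact ⟨fun h => h.elim (fun ⟨a, b⟩ => ⟨a, Or.inl b⟩) fun ⟨a, b⟩ => ⟨a, Or.inr b⟩,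
      fun ⟨a, b⟩ => b.imp (fun b => ⟨a, b⟩) fun b => ⟨a, b⟩⟩
  refine ⟨R (X true), R (X false), split_yes (hd _).isInducing (by rw [hr]; exact h3 _),
    split_yes (hd _).isInducing (by rw [hr]; exact h3 _), ?_⟩
  rw [e]
  refine split_no (hd _).continuous (fun x => x.2.2.elim (h1 _ _) (h1 _ _)) fun D s => ?_
  obtain ⟨b, x, h4, h5⟩ := h2 D s
  obtain ⟨y, rfl⟩ : x ∈ range (H ∘ inclusion (hR (X true ∪ X false))) := by
    rw [hr]
    cases b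
    exacts [Or.inr h4, Or.inl h4]
  exact ⟨b, y, h5⟩

end Pool.Agent.H8.SG
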