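import Mathlib
import Pool.Agent.H8.Silv
import Pool.Agent.H8.Split

set_option autoImplicit false

namespace Pool.Agent.H8.BCov

open Set Filter Topology Function Pool.Agent.H8.Silv Pool.Agent.H8.Tau

variable (Z : Type) [MeasurableSpace Z]

/-- countable Borel covers (nontrivial) -/
def BC (𝒰 : Set (Set Z)) : Prop :=
  𝒰.Countable ∧ (∀ U ∈ 𝒰, MeasurableSet U) ∧ ⋃₀ 𝒰 = univ ∧ univ ∉ 𝒰

/-- countable Borel ω-covers -/
def BO (𝒰 : Set (Set Z)) : Prop := BC Z 𝒰 ∧ ∀ F : Set Z, F.Finite → ∃ U ∈ 𝒰, F ⊆ U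

/-- countable Borel γ-covers -/
def BG (𝒰 : Set (Set Z)) : Prop := BC Z 𝒰 ∧ 𝒰.Infinite ∧ ∀ x, {U ∈ 𝒰 | x ∉ U}.Finite

variable {Z}

/-- single selection -/
def Sone (A B : Set (Set Z) → Prop) : Prop :=
  ∀ 𝒰 : ℕ → Set (Set Z), (∀ n, A (𝒰 n)) → ∃ U : ℕ → Set Z, (∀ n, U n ∈ 𝒰 n) ∧ B (range U)

/-- finite selection -/
def Sfin (A B : Set (Set Z) → Prop) : Prop :=
  ∀ 𝒰 : ℕ → Set (Set Z), (∀ n, A (𝒰 n)) →
    ∃ F : ℕ → Set (Set Z), (∀ n, (F n).Finite ∧ F n ⊆ 𝒰 n) ∧ B (⋃ n, F n)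

lemma Sone.fin {A B : Set (Set Z) → Prop} (h : Sone A B) : Sfin A B := fun 𝒰 hU => by
  obtain ⟨U, h1, h2⟩ := h 𝒰 hU
  exact ⟨fun n => {U n}, fun n => ⟨finite_singleton _, by simpa using h1 n⟩,
    by rwa [iUnion_singleton_eq_range]⟩

lemma BG.bo {𝒰 : Set (Set Z)} (h : BG Z 𝒰) : BO Z 𝒰 := ⟨h.1, fun F hF => by
  obtain ⟨U, h1, h2⟩ := (h.2.1.diff (hF.biUnion fun x _ => h.2.2 x)).nonempty
  exact ⟨U, h1, fun x hx => by_contra fun h3 => h2 (mem_biUnion hx ⟨h1, h3⟩)⟩⟩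

lemma Sone.bo (h : Sone (BO Z) (BG Z)) : Sone (BO Z) (BO Z) := fun 𝒰 hU =>
  (h 𝒰 hU).imp fun _ h => ⟨h.1, h.2.bo⟩

lemma pos {d : Z → ℕ → Bool} (hd : ∀ U, MeasurableSet U → ∃ V, MeasurableSet V ∧ d ⁻¹' V = U)
    (H : ∀ U : ℕ → ℕ → Set (ℕ → Bool), (∀ n i, MeasurableSet (U n i)) →
      (∀ n F, F.Finite → F ⊆ range d → ∃ i, F ⊆ U n i) →
      ∃ g : ℕ → ℕ, ∀ x ∈ range d, ∀ᶠ n in atTop, x ∈ U n (g n)) : Sone (BO Z) (BG Z) := by
  intro 𝒰 hU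
  choose u hu using fun n => (hU n).1.1.exists_eq_range
    (((hU n).2 ∅ finite_empty).imp fun _ h => h.1)
  have h1 : ∀ n i, u n i ∈ 𝒰 n := fun n i => hu n ▸ mem_range_self i
  choose V v1 v2 using fun n i => hd _ ((hU n).1.2.1 _ (h1 n i))
  obtain ⟨g, hg⟩ := H V v1 fun n F h2 h3 => by
    obtain ⟨E, -, e2, rfl⟩ := h2.exists_subset_finite_image_eq (s := univ) (by simpa using h3)
    obtain ⟨U, h4, h5⟩ := (hU n).2 E e2
    obtain ⟨i, rfl⟩ := (hu n).le h4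
    exact ⟨i, image_subset_iff.2 (v2 n i ▸ h5)⟩
  have h2 : ∀ x, {n | x ∉ u n (g n)}.Finite := fun x => by
    have := hg _ (mem_range_self x)
    rw [← Nat.cofinite_eq_atTop, eventually_cofinite] at this
    exact this.subset fun n hn h => hn (v2 n (g n) ▸ h)
  have h3 : ∀ n, u n (g n) ≠ univ := fun n e => (hU n).1.2.2.2 (e ▸ h1 n _)
  refine ⟨fun n => u n (g n), fun n => h1 n _, ⟨countable_range _, ?_, eq_univ_of_forall fun x => ?_,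
    fun ⟨n, e⟩ => h3 n e⟩, fun hf => ?_, fun x => ((h2 x).image fun n => u n (g n)).subset ?_⟩
  · rintro _ ⟨n, rfl⟩
    exact (hU n).1.2.1 _ (h1 n _)
  · obtain ⟨n, hn⟩ := (h2 x).exists_notMem
    exact ⟨_, mem_range_self n, not_not.1 hn⟩
  · haveI := hf.to_subtype
    obtain ⟨⟨_, k, rfl⟩, hk⟩ := Finite.exists_infinite_fiber (rangeFactorization fun n => u n (g n))
    obtain ⟨x, hx⟩ := (ne_univ_iff_exists_notMem _).1 (h3 k)
    refine (infinite_coe_iff.1 hk) ((h2 x).subset fun n hn h => hx ?_)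
    have e : u n (g n) = u k (g k) := congrArg Subtype.val hn
    exact e ▸ h
  · rintro _ ⟨⟨n, rfl⟩, h⟩
    exact ⟨n, h, rfl⟩

lemma bnd {α : Type} {F : Set α} (hF : F.Finite) {P : α → ℕ → Prop} (h : ∀ a ∈ F, ∃ k, P a k)
    (hm : ∀ a k l, k ≤ l → P a k → P a l) : ∃ k, ∀ a ∈ F, P a k :=
  (hF.eventually_all.2 fun a ha => by
    obtain ⟨k, hk⟩ := h a ha
    filter_upwards [eventually_ge_atTop k] with l hl using hm a k l hl hk).exists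

lemma negA {V : ℕ → ℕ → Set Z} (h1 : ∀ n k, MeasurableSet (V n k)) (h2 : ∀ n, Monotone (V n))
    (h3 : ∀ n z, ∃ k, z ∈ V n k) (h4 : ∀ g : ℕ → ℕ, ∃ z, ∀ n, z ∉ V n (g n))
    {B : Set (Set Z) → Prop} (hB : ∀ 𝒰, B 𝒰 → BC Z 𝒰) : ¬ Sfin (BO Z) B := fun H => by
  obtain ⟨F, h5, h6⟩ := H (fun n => range (V n)) fun n => ⟨⟨countable_range _,
    by rintro _ ⟨k, rfl⟩; exact h1 n k, eq_univ_of_forall fun z => (h3 n z).elim fun k hk =>
      ⟨_, mem_range_self k, hk⟩, fun ⟨k, e⟩ => (h4 fun _ => k).elim fun z hz => hz n (e ▸ trivial)⟩,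
    fun F hF => (bnd hF (fun z _ => h3 n z) fun z k l e h => h2 n e h).elim fun k hk =>
      ⟨_, mem_range_self k, hk⟩⟩
  choose g hg using fun n => bnd (h5 n).1 (P := fun U k => U ⊆ V n k)
    (fun U hU => ((h5 n).2 hU).imp fun k e => e.ge) fun U k l e h => h.trans (h2 n e)
  obtain ⟨z, hz⟩ := h4 g
  obtain ⟨U, h7, h8⟩ := (hB _ h6).2.2.1.ge (mem_univ z)
  obtain ⟨n, hn⟩ := mem_iUnion.1 h7
  exact hz n (hg n U hn h8)

lemma inf_add {x y : ℕ → Bool} (h : ∃ᶠ m in atTop, x m ≠ y m) : {i | (x + y) i = true}.Infinite := by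
  refine Nat.frequently_atTop_iff_infinite.1 (h.mono fun m hm => ?_)
  change xor (x m) (y m) = true
  simpa using hm

lemma negB {d : Z → ℕ → Bool} (hd : Measurable d)
    (h1 : ∀ x y, d x 0 ≠ d y 0 → ∃ᶠ m in atTop, d x m ≠ d y m)
    (h2 : ∀ g : ℕ → ℕ, ∃ x y, d x 0 ≠ d y 0 ∧ ∀ n, cnt (g n) (d x + d y) ≤ n + 1) :
    ¬ Sfin (BO Z) (BO Z) := fun H => by
  let P : ℕ → Set Z → ℕ → Prop := fun n U k =>
    ∀ x ∈ U, ∀ y ∈ U, d x 0 ≠ d y 0 → n + 1 < cnt k (d x + d y)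
  have hP : ∀ n U k l, k ≤ l → P n U k → P n U l := fun n U k l e h x hx y hy h3 =>
    (h x hx y hy h3).trans_le (cnt_mono _ e)
  have h3 : ∀ n (F : Set Z), F.Finite → ∃ U ∈ {U ∈ preimage d '' SG.Kb | ∃ k, P n U k}, F ⊆ U := by
    intro n F hF
    obtain ⟨k, hk⟩ := bnd (hF.prod hF) (P := fun p k => d p.1 0 ≠ d p.2 0 → n + 1 < cnt k (d p.1 + d p.2))
      (fun p _ => by
        by_cases h : d p.1 0 = d p.2 0
        · exact ⟨0, fun h' => (h' h).elim⟩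
        · exact (cnt_inf (inf_add (h1 _ _ h)) _).imp fun k hk _ => hk)
      fun p k l e h h' => (h h').trans_le (cnt_mono _ e)
    obtain ⟨V, v1, v2, v3⟩ := SG.Kb_fin (hF.image d) (O := {u | ∃ x ∈ F, ∀ i ≤ k, u i = d x i})
      (SG.open_of fun u ⟨x, hx, h⟩ =>
        ⟨k + 1, fun w hw => ⟨x, hx, fun i hi => (hw i (by omega)).trans (h i hi)⟩⟩)
      (image_subset_iff.2 fun x hx => ⟨x, hx, fun _ _ => rfl⟩)
    refine ⟨_, ⟨⟨V, v1, rfl⟩, k, fun x hx y hy h => ?_⟩, image_subset_iff.1 v2⟩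
    obtain ⟨a, a1, a2⟩ := v3 hx
    obtain ⟨b, b1, b2⟩ := v3 hy
    refine (hk (a, b) ⟨a1, b1⟩ (by rwa [← a2 0 (by omega), ← b2 0 (by omega)])).trans_eq ?_
    refine congrArg Finset.card (Finset.filter_congr fun i hi => ?_)
    have := (Finset.mem_range.1 hi).le
    simp only [Pi.add_apply, a2 i this, b2 i this]
  obtain ⟨F, h5, h6⟩ := H (fun n => {U ∈ preimage d '' SG.Kb | ∃ k, P n U k}) fun n =>
    ⟨⟨(SG.Kb_ct.image _).mono (sep_subset _ _), by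
      rintro _ ⟨⟨V, h, rfl⟩, -⟩
      exact hd (SG.Kb_open h).measurableSet, eq_univ_of_forall fun z =>
        (h3 n _ (finite_singleton z)).imp fun U h => ⟨h.1, h.2 rfl⟩, fun ⟨_, k, hk⟩ => by
      obtain ⟨x, y, h4, h5⟩ := h2 fun _ => k
      exact (hk x trivial y trivial h4).not_ge (h5 n)⟩, h3 n⟩
  choose g hg using fun n => bnd (h5 n).1 (fun U hU => ((h5 n).2 hU).2) (hP n)
  obtain ⟨x, y, h7, h8⟩ := h2 g
  obtain ⟨U, h9, h10⟩ := h6.2 {x, y} (toFinite _)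
  obtain ⟨n, hn⟩ := mem_iUnion.1 h9
  exact (hg n U hn x (h10 (by simp)) y (h10 (by simp)) h7).not_ge (h8 n)

theorem main (h : Cardinal.continuum.{0} = Cardinal.aleph 1) : ∃ X Y : Set ℝ, Y ⊆ X ∧
    Sone (BO X) (BG X) ∧ ¬ Sfin (BO Y) (BO Y) ∧ ∃ V : ℕ → ℕ → Set (X × X),
      (∀ n k, MeasurableSet (V n k)) ∧ (∀ n, Monotone (V n)) ∧ (∀ n z, ∃ k, z ∈ V n k) ∧
        ∀ g : ℕ → ℕ, ∃ z, ∀ n, z ∉ V n (g n) := by
  obtain ⟨L, Y, h1, h2, h3, h4⟩ := bgam h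
  let H := cantorSetHomeomorphNatToBool
  clear_value H
  let R : Set (ℕ → Bool) → Set ℝ := fun X => {r | ∃ h : r ∈ cantorSet, H ⟨r, h⟩ ∈ X}
  have hR : ∀ X, R X ⊆ cantorSet := fun X r hr => hr.1
  have hd : ∀ X, IsEmbedding (H ∘ inclusion (hR X)) := fun X =>
    H.isEmbedding.comp (IsEmbedding.inclusion (hR X))
  have hr : ∀ X, range (H ∘ inclusion (hR X)) = X := fun X => by
    ext y
    refine ⟨?_, fun hy => ⟨⟨(H.symm y).1, (H.symm y).2, by simpa using hy⟩, by simp⟩⟩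
    rintro ⟨z, rfl⟩
    exact z.2.2
  refine ⟨R L, R Y, fun r hr => ⟨hr.1, h1 hr.2⟩, pos (d := H ∘ inclusion (hR L)) (fun U hU => ?_)
    (by rw [hr]; exact h2), negB (hd Y).continuous.measurable
      (fun x y => h3 _ x.2.2 _ y.2.2) fun g => ?_, ?_⟩
  · have e : borel (R L) = (borel (ℕ → Bool)).comap (H ∘ inclusion (hR L)) :=
      (congrArg (@borel (R L)) (hd L).eq_induced).trans borel_comap
    obtain ⟨V, h5, h6⟩ := e.le U ((BorelSpace.measurable_eq (α := R L)).le U hU)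
    exact ⟨V, (BorelSpace.measurable_eq (α := ℕ → Bool)).ge V h5, h6⟩
  · obtain ⟨x, a1, y, a2, a3⟩ := h4 g
    obtain ⟨x, rfl⟩ := (hr Y).ge a1
    obtain ⟨y, rfl⟩ := (hr Y).ge a2
    exact ⟨x, y, a3⟩
  have hc : Continuous fun p : R L × R L => (H ∘ inclusion (hR L)) p.1 + (H ∘ inclusion (hR L)) p.2 :=
    ((hd L).continuous.comp continuous_fst).add ((hd L).continuous.comp continuous_snd)
  refine ⟨fun n k => (fun p : R L × R L => (H ∘ inclusion (hR L)) p.1 + (H ∘ inclusion (hR L)) p.2) ⁻¹'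
    ({z | {i | z i = true}.Finite} ∪ {z | n + 1 < cnt k z}), fun n k => hc.measurable
      (fin_ctble.measurableSet.union ((cnt_cont k).measurable (MeasurableSet.of_discrete (s := Ioi _)))),
    fun n k l e p hp => hp.imp_right fun h => lt_of_lt_of_le h (cnt_mono _ e), fun n z => ?_, fun g => ?_⟩
  · by_cases h5 : {i | ((H ∘ inclusion (hR L)) z.1 + (H ∘ inclusion (hR L)) z.2) i = true}.Finite
    · exact ⟨0, .inl h5⟩
    · exact (cnt_inf h5 _).imp fun k hk => .inr hk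
  · obtain ⟨x, a1, y, a2, a3, a4⟩ := h4 g
    have a5 := inf_add (h3 x a1 y a2 a3)
    obtain ⟨x, rfl⟩ := (hr L).ge (h1 a1)
    obtain ⟨y, rfl⟩ := (hr L).ge (h1 a2)
    exact ⟨(x, y), fun n h => h.elim a5 (a4 n).not_gt⟩

end Pool.Agent.H8.BCov
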