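import Mathlib

set_option autoImplicit false
open Set TopologicalSpace Topology Function

namespace Pool.Agent.H8.BR

abbrev L : Type := ℕ → Bool
def b : L := fun _ => false
def d (σ : ℕ → L) : L := fun n => Nat.casesOn n true fun m => σ m.unpair.1 m.unpair.2

lemma d_ne (σ : ℕ → L) : d σ ≠ b := fun h => by simpa [d, b] using congrFun h 0
lemma d_inj {σ ρ : ℕ → L} (h : d σ = d ρ) : σ = ρ := by
  funext i c
  simpa [d] using congrFun h (Nat.pair i c + 1)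

lemma third (u v : L) : ∃ w : L, w ≠ u ∧ w ≠ v := by
  refine ⟨fun n => if n = 0 then !u 0 else !v n, fun h => ?_, fun h => ?_⟩
  · simpa using congrFun h 0
  · simpa using congrFun h 1

def X : Type := ℕ → L

def Ag (x y : X) (k : ℕ) : Prop := ∀ l < k, x l = y l
def I : Set X := {σ | ∀ n, ∃ i, n ≤ i ∧ σ i = b}
def N (x : X) (k : ℕ) : Set X := {z | Ag z x (k + 1)}
def V (j : ℕ) (σ : X) : Set X := {z | z = σ ∨ ∃ i, j ≤ i ∧ σ i = b ∧ Ag z σ i ∧ z i = d σ}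
def Pr (x : X) (k : ℕ) : Prop := ∃ σ ∈ I, σ k = b ∧ Ag x σ k ∧ x k = d σ

lemma Ag.mono {x y : X} {k l : ℕ} (h : Ag x y k) (hl : l ≤ k) : Ag x y l :=
  fun i hi => h i (by omega)
lemma Ag.symm {x y : X} {k : ℕ} (h : Ag x y k) : Ag y x k := fun i hi => (h i hi).symm
lemma Ag.trans {x y z : X} {k : ℕ} (h : Ag x y k) (h' : Ag y z k) : Ag x z k :=
  fun i hi => (h i hi).trans (h' i hi)
lemma Ag.rfl {x : X} {k : ℕ} : Ag x x k := fun _ _ => _root_.rfl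

lemma first {z σ : X} (h : z ≠ σ) : ∃ i, Ag z σ i ∧ z i ≠ σ i := by
  classical
  have h1 : ∃ i, z i ≠ σ i := by
    by_contra hc; push Not at hc; exact h (funext hc)
  exact ⟨Nat.find h1, fun l hl => by simpa using Nat.find_min h1 hl, Nat.find_spec h1⟩

lemma mem_V {z σ : X} {i j : ℕ} (h1 : Ag z σ i) (h2 : z i ≠ σ i) :
    z ∈ V j σ ↔ j ≤ i ∧ σ i = b ∧ z i = d σ := by
  constructor
  · rintro (rfl | ⟨i', hj, hb, ha, hd⟩)
    · exact absurd rfl h2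
    · have : i' = i := by
        rcases lt_trichotomy i' i with h | h | h
        · exact absurd ((h1 i' h).trans hb) (hd ▸ d_ne σ)
        · exact h
        · exact absurd (ha i h) h2
      subst this; exact ⟨hj, hb, hd⟩
  · rintro ⟨hj, hb, hd⟩; exact Or.inr ⟨i, hj, hb, h1, hd⟩

lemma self_mem_V (j : ℕ) (σ : X) : σ ∈ V j σ := Or.inl rfl
lemma self_mem_N (x : X) (k : ℕ) : x ∈ N x k := Ag.rfl

lemma ag_update (σ : X) (i : ℕ) (w : L) : Ag (update σ i w) σ i := fun l hl =>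
  update_of_ne (by omega) _ _

lemma T0 {σ x : X} {k j : ℕ} (h : σ ∈ N x k) : ¬ N x k ⊆ V j σ := by
  intro hs
  obtain ⟨w, hw1, hw2⟩ := third (σ (k + 1)) (d σ)
  have h1 : update σ (k + 1) w ∈ N x k := (ag_update σ (k + 1) w).trans h
  have h2 := (mem_V (ag_update σ (k + 1) w) (by simpa using hw1)).1 (hs h1)
  exact hw2 (by simpa using h2.2.2)

lemma excl {σ ρ : X} {i j : ℕ} (h1 : σ ∈ V i ρ) (h2 : ρ ∈ V j σ) : ρ = σ := by
  by_contra hne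
  obtain ⟨l, ha, hl⟩ := first hne
  have e1 := (mem_V ha hl).1 h2
  have e2 := (mem_V ha.symm (Ne.symm hl)).1 h1
  exact d_ne σ (e1.2.2.symm.trans e2.2.1)

lemma exists_seq (P : ℕ → X → L → Prop)
    (h : ∀ n (s : X), ∃ w, ∀ s' : X, Ag s' s n → P n s' w) : ∃ x : X, ∀ n, P n x (x n) := by
  choose f hf using h
  let F : ℕ → X := fun n => Nat.rec (fun _ => b) (fun n s => update s n (f n s)) n
  have hF : ∀ n l, l < n → F n l = F (l + 1) l := by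
    intro n
    induction n with
    | zero => intro l hl; omega
    | succ n ih =>
      intro l hl
      rcases Nat.lt_succ_iff_lt_or_eq.1 hl with h | rfl
      · change update (F n) n (f n (F n)) l = _
        rw [update_of_ne (by omega), ih l h]
      · rfl
  refine ⟨fun l => F (l + 1) l, fun n => ?_⟩
  have : F (n + 1) n = f n (F n) := update_self _ _ _
  change P n _ (F (n + 1) n)
  rw [this]
  exact hf n (F n) _ (fun l hl => (hF n l hl).symm)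

theorem nonres {Y : Type} [TopologicalSpace Y] (e : X → Y) (V' : ℕ → X → Set Y)
    (hV : ∀ j σ, e ⁻¹' V' j σ = V j σ)
    (hV2 : ∀ i l σ, i ≤ l → (∀ i', i ≤ i' → i' < l → σ i' ≠ b) → V' i σ = V' l σ)
    (B : Set (Set Y)) (hB : ∀ j, ∀ σ ∈ I, V' j σ ∈ B) (hBo : ∀ W ∈ B, IsOpen W)
    (hB2 : ∀ W ∈ B, ∀ x, e x ∈ W → e ⁻¹' W = univ ∨ (∃ y k, ¬ Pr y k ∧ e ⁻¹' W = N y k) ∨
      ∃ j, ∃ σ ∈ I, W = V' j σ)
    (B0 B1 : Set (Set Y)) (hu : B = B0 ∪ B1) (hd : Disjoint B0 B1)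
    (h0 : IsTopologicalBasis B0) (h1 : IsTopologicalBasis B1) : False := by
  classical
  obtain ⟨x, hx⟩ := exists_seq (fun n s w =>
      (w = b ∧ ∀ σ ∈ I, Ag s σ n → σ n = b → V' n σ ∈ B0) ∨
      ∃ σ ∈ I, Ag s σ n ∧ σ n = b ∧ V' n σ ∉ B0 ∧ w = d σ) (fun n s => by
    by_cases h : ∃ σ ∈ I, Ag s σ n ∧ σ n = b ∧ V' n σ ∉ B0
    · obtain ⟨σ, h1, h2, h3, h4⟩ := h
      exact ⟨d σ, fun s' hs' => Or.inr ⟨σ, h1, hs'.trans h2, h3, h4, rfl⟩⟩
    · push Not at h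
      exact ⟨b, fun s' hs' => Or.inl ⟨rfl, fun σ h1 h2 h3 => h σ h1 (hs'.symm.trans h2) h3⟩⟩)
  have tr : ∀ {W : Set Y} {j σ}, W ⊆ V' j σ → e ⁻¹' W ⊆ V j σ := fun h => by
    rw [← hV]; exact preimage_mono h
  have nu : ∀ j σ, ¬ univ ⊆ V j σ := fun j σ h =>
    T0 (self_mem_N σ 0) ((subset_univ _).trans h)
  by_cases hI : x ∈ I
  · obtain ⟨W, hW, hxW, hs⟩ := h1.exists_subset_of_mem_open (a := e x) (u := V' 0 x)
      (by rw [← mem_preimage, hV]; exact self_mem_V 0 x) (hBo _ (hB 0 x hI))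
    rcases hB2 W (hu ▸ Or.inr hW) x hxW with h | ⟨y, k, -, h⟩ | ⟨j, σ, hσ, rfl⟩
    · exact nu 0 x (h ▸ tr hs)
    · exact T0 (show x ∈ N y k from h ▸ hxW) (h ▸ tr hs)
    · have h2 : x ∈ V j σ := hV j σ ▸ hxW
      have h3 : σ = x := excl h2 (tr hs (by rw [hV]; exact self_mem_V j σ))
      subst h3
      have h4 := hI j
      have h5 := Nat.find_spec h4
      rw [hV2 j (Nat.find h4) σ h5.1 (fun i' a1 a2 a3 => Nat.find_min h4 a2 ⟨a1, a3⟩)] at hW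
      rcases hx (Nat.find h4) with h | ⟨ρ, -, -, -, -, h⟩
      · exact Set.disjoint_left.1 hd (h.2 σ hσ Ag.rfl h5.2) hW
      · exact d_ne ρ (h.symm.trans h5.2)
  · simp only [I, mem_setOf_eq, not_forall, not_exists, not_and] at hI
    obtain ⟨k, hk⟩ := hI
    have hp : ∀ i, k ≤ i → ∃ σ ∈ I, Ag x σ i ∧ σ i = b ∧ V' i σ ∉ B0 ∧ x i = d σ := fun i hi =>
      (hx i).resolve_left fun h => hk i hi h.1
    obtain ⟨σ, hσ, ha, hb, -, hdσ⟩ := hp k le_rfl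
    obtain ⟨W, hW, hxW, hs⟩ := h0.exists_subset_of_mem_open (a := e x) (u := V' k σ)
      (by rw [← mem_preimage, hV]; exact Or.inr ⟨k, le_rfl, hb, ha, hdσ⟩) (hBo _ (hB k σ hσ))
    rcases hB2 W (hu ▸ Or.inl hW) x hxW with h | ⟨y, l, hl, h⟩ | ⟨j, ρ, hρ, rfl⟩
    · exact nu k σ (h ▸ tr hs)
    · have hxy : x ∈ N y l := h ▸ hxW
      by_cases hlk : k ≤ l
      · obtain ⟨τ, a1, a2, a3, -, a5⟩ := hp l hlk
        exact hl ⟨τ, a1, a3, (Ag.mono hxy (by omega)).symm.trans a2,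
          (hxy l (by omega)).symm.trans a5⟩
      · exact T0 (show σ ∈ N y l from (ha.mono (by omega)).symm.trans hxy) (h ▸ tr hs)
    · have hs' : V j ρ ⊆ V k σ := hV j ρ ▸ tr hs
      have h2 : x ∈ V j ρ := hV j ρ ▸ hxW
      rcases h2 with rfl | ⟨l, a1, a2, a3, a4⟩
      · obtain ⟨i, hi, hi'⟩ := hρ k
        exact hk i hi hi'
      by_cases hlk : k ≤ l
      · obtain ⟨τ, -, -, -, c4, c5⟩ := hp l hlk
        obtain rfl : ρ = τ := d_inj (a4.symm.trans c5)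
        refine c4 (hV2 j l ρ a1 (fun i' e1 e2 e3 => ?_) ▸ hW)
        have e4 : i' < k := by
          by_contra hc
          exact hk i' (by omega) ((a3 i' e2).trans e3)
        have e5 : update ρ i' (d ρ) ∈ V j ρ :=
          Or.inr ⟨i', e1, e3, ag_update _ _ _, update_self _ _ _⟩
        have e6 : Ag (update ρ i' (d ρ)) σ i' :=
          (ag_update _ _ _).trans ((a3.mono e2.le).symm.trans (ha.mono e4.le))
        have e7 := (mem_V e6 (by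
          rw [update_self, ← ha i' e4, a3 i' e2, e3]; exact d_ne ρ)).1 (hs' e5)
        omega
      · have e6 : Ag ρ σ l := a3.symm.trans (ha.mono (by omega))
        have e7 := (mem_V e6 (by
          rw [a2, ← ha l (by omega), a4]; exact (d_ne ρ).symm)).1 (hs' (self_mem_V j ρ))
        omega

def Base : Set (Set X) :=
  {W | W = ∅ ∨ W = univ ∨ (∃ y k, ¬ Pr y k ∧ W = N y k) ∨ ∃ j, ∃ σ ∈ I, W = V j σ}

lemma N_eq {x y : X} {k : ℕ} (h : x ∈ N y k) : N x k = N y k :=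
  Subset.antisymm (fun _ hz => Ag.trans hz h) (fun _ hz => Ag.trans hz (Ag.symm h))
lemma N_mono (x : X) {k l : ℕ} (h : k ≤ l) : N x l ⊆ N x k := fun _ hz => Ag.mono hz (by omega)
lemma V_mono (σ : X) {j l : ℕ} (h : j ≤ l) : V l σ ⊆ V j σ := by
  rintro z (rfl | ⟨i, a1, a2⟩)
  · exact Or.inl rfl
  · exact Or.inr ⟨i, h.trans a1, a2⟩
lemma V_sub_N (σ : X) (k : ℕ) : V (k + 1) σ ⊆ N σ k := by
  rintro z (rfl | ⟨i, a1, -, a3, -⟩)
  · exact Ag.rfl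
  · exact a3.mono a1
lemma N_sub_V {z σ : X} {i j : ℕ} (a1 : j ≤ i) (a2 : σ i = b) (a3 : Ag z σ i) (a4 : z i = d σ) :
    N z i ⊆ V j σ := fun w hw =>
  Or.inr ⟨i, a1, a2, (Ag.mono hw (by omega)).trans a3, (hw i (by omega)).trans a4⟩

lemma NV {σ y : X} {k : ℕ} (j : ℕ) (h : σ ∈ N y k) : N y k ∩ V j σ = V (max j (k + 1)) σ := by
  apply Subset.antisymm
  · rintro z ⟨hz, rfl | ⟨i, a1, a2, a3, a4⟩⟩
    · exact Or.inl rfl
    · refine Or.inr ⟨i, max_le a1 ?_, a2, a3, a4⟩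
      by_contra hc
      exact d_ne σ (a4.symm.trans (((hz i (by omega)).trans (h i (by omega)).symm).trans a2))
  · exact subset_inter (((V_mono σ (le_max_right _ _)).trans (V_sub_N σ k)).trans (N_eq h).subset)
      (V_mono σ (le_max_left _ _))

lemma VV {σ ρ : X} {i j : ℕ} (hne : ρ ≠ σ) (h : ρ ∈ V j σ) :
    ∃ k, V j σ ∩ V i ρ = V k ρ := by
  rcases h with h | ⟨k, a1, a2, a3, a4⟩
  · exact absurd h hne
  refine ⟨max i (k + 1), ?_⟩
  rw [← NV i (self_mem_N ρ k)]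
  refine Subset.antisymm ?_ (inter_subset_inter_left _ (N_sub_V a1 a2 a3 a4))
  rintro z ⟨hz, rfl | ⟨l, c1, c2, c3, c4⟩⟩
  · exact ⟨self_mem_N _ _, Or.inl rfl⟩
  refine ⟨?_, Or.inr ⟨l, c1, c2, c3, c4⟩⟩
  rcases lt_trichotomy l k with hl | rfl | hl
  · have := (mem_V (c3.trans (a3.mono hl.le)) (by
      rw [c4, ← a3 l hl, c2]; exact d_ne ρ)).1 hz
    exact absurd (d_inj (c4.symm.trans this.2.2)) hne
  · exact absurd (a4.symm.trans c2) (d_ne σ)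
  · exact c3.mono hl

lemma VV' {σ ρ z : X} {i j : ℕ} (h1 : z ∈ V j σ) (h2 : z ∈ V i ρ) : ρ ∈ V j σ ∨ σ ∈ V i ρ := by
  rcases h1 with rfl | ⟨k, a1, a2, a3, a4⟩
  · exact Or.inr h2
  rcases h2 with rfl | ⟨l, c1, c2, c3, c4⟩
  · exact Or.inl (Or.inr ⟨k, a1, a2, a3, a4⟩)
  rcases lt_trichotomy l k with hl | rfl | hl
  · exact Or.inr (N_sub_V c1 c2 c3 c4 (a3.symm.mono hl))
  · exact Or.inl (Or.inl (d_inj (c4.symm.trans a4)))
  · exact Or.inl (N_sub_V a1 a2 a3 a4 (c3.symm.mono hl))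

lemma base_NV {y σ : X} {k j : ℕ} (hy : ¬ Pr y k) (hσ : σ ∈ I) : N y k ∩ V j σ ∈ Base := by
  by_cases h : σ ∈ N y k
  · exact Or.inr (Or.inr (Or.inr ⟨_, σ, hσ, NV j h⟩))
  rcases (N y k ∩ V j σ).eq_empty_or_nonempty with h0 | ⟨z, hz, rfl | ⟨i, a1, a2, a3, a4⟩⟩
  · exact Or.inl h0
  · exact absurd hz h
  rcases lt_trichotomy i k with hl | rfl | hl
  · refine Or.inr (Or.inr (Or.inl ⟨y, k, hy, inter_eq_left.2 ?_⟩))
    rw [← N_eq hz]; exact (N_mono z hl.le).trans (N_sub_V a1 a2 a3 a4)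
  · exact absurd ⟨σ, hσ, a2, (Ag.mono hz (by omega)).symm.trans a3,
      (hz i (by omega)).symm.trans a4⟩ hy
  · exact absurd ((a3.symm.mono hl).trans hz) h

lemma base_inter {W W' : Set X} (h : W ∈ Base) (h' : W' ∈ Base) : W ∩ W' ∈ Base := by
  rcases h with rfl | rfl | ⟨y, k, hy, rfl⟩ | ⟨j, σ, hσ, rfl⟩
  · exact Or.inl (empty_inter _)
  · rwa [univ_inter]
  · rcases h' with rfl | rfl | ⟨y', k', hy', rfl⟩ | ⟨j, σ, hσ, rfl⟩
    · exact Or.inl (inter_empty _)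
    · exact Or.inr (Or.inr (Or.inl ⟨y, k, hy, inter_univ _⟩))
    · rcases (N y k ∩ N y' k').eq_empty_or_nonempty with h0 | ⟨z, hz, hz'⟩
      · exact Or.inl h0
      rcases le_total k k' with hk | hk
      · refine Or.inr (Or.inr (Or.inl ⟨y', k', hy', inter_eq_right.2 ?_⟩))
        rw [← N_eq hz, ← N_eq hz']; exact N_mono z hk
      · refine Or.inr (Or.inr (Or.inl ⟨y, k, hy, inter_eq_left.2 ?_⟩))
        rw [← N_eq hz, ← N_eq hz']; exact N_mono z hk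
    · exact base_NV hy hσ
  · rcases h' with rfl | rfl | ⟨y', k', hy', rfl⟩ | ⟨i, ρ, hρ, rfl⟩
    · exact Or.inl (inter_empty _)
    · exact Or.inr (Or.inr (Or.inr ⟨j, σ, hσ, inter_univ _⟩))
    · rw [inter_comm]; exact base_NV hy' hσ
    · by_cases hne : ρ = σ
      · subst hne
        rcases le_total i j with hk | hk
        · exact Or.inr (Or.inr (Or.inr ⟨j, ρ, hρ, inter_eq_left.2 (V_mono ρ hk)⟩))
        · exact Or.inr (Or.inr (Or.inr ⟨i, ρ, hρ, inter_eq_right.2 (V_mono ρ hk)⟩))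
      rcases (V j σ ∩ V i ρ).eq_empty_or_nonempty with h0 | ⟨z, hz, hz'⟩
      · exact Or.inl h0
      rcases VV' hz hz' with h | h
      · obtain ⟨k, hk⟩ := VV (i := i) hne h
        exact Or.inr (Or.inr (Or.inr ⟨k, ρ, hρ, hk⟩))
      · obtain ⟨k, hk⟩ := VV (i := j) (Ne.symm hne) h
        exact Or.inr (Or.inr (Or.inr ⟨k, σ, hσ, by rw [inter_comm, hk]⟩))

instance : TopologicalSpace X := generateFrom Base

lemma basis : IsTopologicalBasis Base :=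
  ⟨fun _ h1 _ h2 _ hx => ⟨_, base_inter h1 h2, hx, subset_rfl⟩,
    sUnion_eq_univ_iff.2 fun x => ⟨univ, Or.inr (Or.inl rfl), mem_univ x⟩, rfl⟩

lemma open_V (j : ℕ) {σ : X} (h : σ ∈ I) : IsOpen (V j σ) :=
  basis.isOpen (Or.inr (Or.inr (Or.inr ⟨j, σ, h, rfl⟩)))

lemma open_N (x : X) (k : ℕ) : IsOpen (N x k) := by
  rw [isOpen_iff_forall_mem_open]
  intro z hz
  rw [← N_eq hz]
  by_cases h : Pr z (k + 1)
  · obtain ⟨σ, a1, a2, a3, a4⟩ := h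
    exact ⟨V (k + 1) σ, (V_sub_N σ k).trans (N_eq a3).symm.subset, open_V _ a1,
      Or.inr ⟨_, le_rfl, a2, a3, a4⟩⟩
  · exact ⟨N z (k + 1), N_mono z (by omega),
      basis.isOpen (Or.inr (Or.inr (Or.inl ⟨z, _, h, rfl⟩))), self_mem_N _ _⟩

instance : T2Space X := ⟨fun x y hne => by
  obtain ⟨i, -, hi⟩ := first hne
  exact ⟨N x i, N y i, open_N _ _, open_N _ _, self_mem_N _ _, self_mem_N _ _,
    Set.disjoint_left.2 fun z h1 h2 => hi ((h1 i (by omega)).symm.trans (h2 i (by omega)))⟩⟩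

lemma no_isol (x : X) : ¬ IsOpen ({x} : Set X) := by
  intro h
  obtain ⟨W, hW, hx, hs⟩ := basis.exists_subset_of_mem_open (mem_singleton x) h
  have k1 : ∀ y k, x ∈ N y k → ¬ N y k ⊆ {x} := fun y k h1 h2 =>
    T0 (j := 0) h1 (h2.trans (singleton_subset_iff.2 (self_mem_V 0 x)))
  rcases hW with rfl | rfl | ⟨y, k, -, rfl⟩ | ⟨j, σ, hσ, rfl⟩
  · exact hx
  · exact k1 x 0 (self_mem_N _ _) ((subset_univ _).trans hs)
  · exact k1 y k hx hs
  · obtain ⟨i, a1, a2⟩ := hσ j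
    have e5 : update σ i (d σ) ∈ N (update σ i (d σ)) i := self_mem_N _ _
    have e6 := (N_sub_V a1 a2 (ag_update σ i (d σ)) (update_self _ _ _)).trans hs
    exact k1 _ i ((e6 e5) ▸ e5) e6

theorem base_nonres (B0 B1 : Set (Set X)) (hu : Base = B0 ∪ B1) (hd : Disjoint B0 B1)
    (h0 : IsTopologicalBasis B0) (h1 : IsTopologicalBasis B1) : False := by
  refine nonres id V (fun _ _ => rfl) (fun i l σ h1 h2 => Subset.antisymm ?_ (V_mono σ h1)) Base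
    (fun j σ h => Or.inr (Or.inr (Or.inr ⟨j, σ, h, rfl⟩))) (fun W h => basis.isOpen h)
    (fun W hW x hx => ?_) B0 B1 hu hd h0 h1
  · rintro z (rfl | ⟨i', a1, a2, a3⟩)
    · exact Or.inl rfl
    · exact Or.inr ⟨i', not_lt.1 fun h => h2 i' a1 h a2, a2, a3⟩
  · rcases hW with rfl | h
    · exact absurd hx id
    · exact h

instance : ParacompactSpace X := ⟨fun α s ho hc => by
  classical
  let sm : Set X → Prop := fun W => ∃ a, W ⊆ s a
  have hA : ∀ σ : X, (∀ k, ¬ sm (N σ k)) → ∃ j, σ ∈ I ∧ sm (V j σ) := fun σ h => by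
    obtain ⟨a, ha⟩ := mem_iUnion.1 (hc ▸ mem_univ σ)
    obtain ⟨W, hW, hx, hs⟩ := basis.exists_subset_of_mem_open ha (ho a)
    rcases hW with rfl | rfl | ⟨y, k, -, rfl⟩ | ⟨j, ρ, hρ, rfl⟩
    · exact absurd hx id
    · exact absurd ⟨a, (subset_univ _).trans hs⟩ (h 0)
    · exact absurd ⟨a, N_eq hx ▸ hs⟩ (h k)
    · rcases hx with rfl | ⟨i, a1, a2, a3, a4⟩
      · exact ⟨j, hρ, a, hs⟩
      · exact absurd ⟨a, (N_sub_V a1 a2 a3 a4).trans hs⟩ (h i)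
  choose! j hj using hA
  let G : Set X := {y | ∃ σ, (∀ k, ¬ sm (N σ k)) ∧ y ∈ V (j σ) σ}
  let F : Set (Set X) := {W | (∃ σ, (∀ k, ¬ sm (N σ k)) ∧ W = V (j σ) σ) ∨
    ∃ y k, y ∉ G ∧ sm (N y k) ∧ (∀ l < k, ¬ sm (N y l)) ∧ W = N y k}
  have hFo : ∀ W ∈ F, IsOpen W := by
    rintro _ (⟨σ, h, rfl⟩ | ⟨y, k, -, -, -, rfl⟩)
    · exact open_V _ (hj σ h).1
    · exact open_N _ _
  have hcov : ∀ y, ∃ W ∈ F, y ∈ W := fun y => by
    by_cases h : y ∈ G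
    · obtain ⟨σ, h1, h2⟩ := h
      exact ⟨_, Or.inl ⟨σ, h1, rfl⟩, h2⟩
    · have h1 : ∃ k, sm (N y k) := by
        by_contra h2
        exact h ⟨y, fun k hk => h2 ⟨k, hk⟩, self_mem_V _ _⟩
      exact ⟨_, Or.inr ⟨y, _, h, Nat.find_spec h1, fun l hl => Nat.find_min h1 hl, rfl⟩,
        self_mem_N _ _⟩
  have c1 : ∀ σ ρ, (∀ k, ¬ sm (N σ k)) → (∀ k, ¬ sm (N ρ k)) → ρ ∈ V (j σ) σ → ρ = σ := by
    rintro σ ρ h1 h2 (h | ⟨i, a1, a2, a3, a4⟩)
    · exact h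
    · obtain ⟨a, ha⟩ := (hj σ h1).2
      exact absurd ⟨a, (N_sub_V a1 a2 a3 a4).trans ha⟩ (h2 i)
  have c2 : ∀ σ y k z, (∀ k, ¬ sm (N σ k)) → y ∉ G → sm (N y k) → z ∈ V (j σ) σ → z ∉ N y k := by
    rintro σ y k z h1 h2 h3 (rfl | ⟨i, a1, a2, a3, a4⟩) hz
    · exact h1 k (N_eq hz ▸ h3)
    · by_cases hi : i ≤ k
      · exact h2 ⟨σ, h1, N_sub_V a1 a2 a3 a4 (Ag.mono (Ag.symm hz) (by omega))⟩
      · exact h1 k (N_eq (show σ ∈ N y k from (a3.symm.mono (by omega)).trans hz) ▸ h3)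
  have c3 : ∀ y k y' k' z, sm (N y k) → (∀ l < k', ¬ sm (N y' l)) → z ∈ N y k → z ∈ N y' k' →
      k' ≤ k := fun y k y' k' z h1 h2 h3 h4 => by
    by_contra hc
    refine h2 k (by omega) ?_
    rw [← N_eq (N_mono y' (by omega : k ≤ k') h4), N_eq h3]; exact h1
  have hdis : ∀ W ∈ F, ∀ W' ∈ F, ∀ z ∈ W, z ∈ W' → W = W' := by
    rintro _ (⟨σ, h, rfl⟩ | ⟨y, k, a1, a2, a3, rfl⟩) _ (⟨ρ, h', rfl⟩ | ⟨y', k', e1, e2, e3, rfl⟩)
      z hz hz'
    · rcases VV' hz hz' with h1 | h1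
      · rw [c1 _ _ h h' h1]
      · rw [c1 _ _ h' h h1]
    · exact absurd hz' (c2 _ _ _ _ h e1 e2 hz)
    · exact absurd hz (c2 _ _ _ _ h' a1 a2 hz')
    · obtain rfl : k = k' := le_antisymm (c3 _ _ _ _ _ e2 a3 hz' hz) (c3 _ _ _ _ _ a2 e3 hz hz')
      rw [← N_eq hz, N_eq hz']
  refine ⟨F, Subtype.val, fun W => hFo W W.2, eq_univ_of_forall fun y => ?_, fun y => ?_, ?_⟩
  · obtain ⟨W, h1, h2⟩ := hcov y
    exact mem_iUnion.2 ⟨⟨W, h1⟩, h2⟩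
  · obtain ⟨W, h1, h2⟩ := hcov y
    refine ⟨W, (hFo W h1).mem_nhds h2, (finite_singleton ⟨W, h1⟩).subset ?_⟩
    rintro W' ⟨z, h3, h4⟩
    exact Subtype.ext (hdis _ W'.2 _ h1 z h3 h4)
  · rintro ⟨_, ⟨σ, h, rfl⟩ | ⟨y, k, -, h, -, rfl⟩⟩
    · exact (hj σ h).2
    · exact h⟩

end Pool.Agent.H8.BR
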