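import Mathlib
import Pool.Agent.H8.BR1

set_option autoImplicit false
open Set TopologicalSpace Topology Function

namespace Pool.Agent.H8.BR

abbrev D : Type := Σ n : ℕ, (Fin n → Fin n → Bool)
def Y : Type := X ⊕ (D × L)

def ap (δ : D) (x : X) (k : ℕ) : Prop := k < δ.1 ∧ ∀ l c : Fin δ.1, l.1 ≤ k → δ.2 l c = x l c
def N' (x : X) (k : ℕ) : Set Y := {w | Sum.elim (fun z => z ∈ N x k) (fun p => ap p.1 x k) w}
def V' (j : ℕ) (σ : X) : Set Y :=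
  {w | w = Sum.inl σ ∨ ∃ i, j ≤ i ∧ σ i = b ∧ w ∈ N' (update σ i (d σ)) i}
def K' (δ : D) (K : Set L) : Set Y := {w | ∃ c ∈ K, w = Sum.inr (δ, c)}
def BaseY : Set (Set Y) :=
  {W | W = univ ∨ (∃ y k, ¬ Pr y k ∧ W = N' y k) ∨ (∃ j, ∃ σ ∈ I, W = V' j σ) ∨
    ∃ δ K, IsClopen K ∧ W = K' δ K}

lemma mem_upd {z σ : X} {i : ℕ} : z ∈ N (update σ i (d σ)) i ↔ Ag z σ i ∧ z i = d σ := by
  constructor
  · intro h
    exact ⟨(Ag.mono h (by omega)).trans (ag_update _ _ _), (h i (by omega)).trans (update_self _ _ _)⟩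
  · rintro ⟨h1, h2⟩ l hl
    rcases Nat.lt_succ_iff_lt_or_eq.1 hl with h | rfl
    · exact (h1 l h).trans (ag_update σ i _ l h).symm
    · rw [update_self]; exact h2

lemma inl_V' {z σ : X} {j : ℕ} : (Sum.inl z : Y) ∈ V' j σ ↔ z ∈ V j σ := by
  constructor
  · rintro (h | ⟨i, a1, a2, a3⟩)
    · exact Or.inl (Sum.inl.inj h)
    · exact Or.inr ⟨i, a1, a2, mem_upd.1 a3⟩
  · rintro (rfl | ⟨i, a1, a2, a3⟩)
    · exact Or.inl rfl
    · exact Or.inr ⟨i, a1, a2, mem_upd.2 a3⟩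

lemma N'_le {x y : X} {k l : ℕ} (h : k ≤ l) (hx : Ag x y (k + 1)) : N' x l ⊆ N' y k := by
  rintro (z | p) hw
  · exact (Ag.mono hw (by omega)).trans hx
  · exact ⟨lt_of_le_of_lt h hw.1, fun i c hi => (hw.2 i c (hi.trans h)).trans
      (congrFun (hx i (by omega)) c)⟩

lemma V'_mono (σ : X) {j l : ℕ} (h : j ≤ l) : V' l σ ⊆ V' j σ := by
  rintro z (rfl | ⟨i, a1, a2⟩)
  · exact Or.inl rfl
  · exact Or.inr ⟨i, h.trans a1, a2⟩

lemma V'_sub (σ : X) (k : ℕ) : V' (k + 1) σ ⊆ N' σ k := by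
  rintro z (rfl | ⟨i, a1, -, a3⟩)
  · exact Ag.rfl
  · exact N'_le (by omega) ((ag_update _ _ _).mono a1) a3

lemma locl {W : Set Y} (hW : W ∈ BaseY) {z : X} (hz : Sum.inl z ∈ W) :
    (∃ k, N' z k ⊆ W) ∨ (z ∈ I ∧ ∃ j, V' j z ⊆ W) := by
  rcases hW with rfl | ⟨y, k, -, rfl⟩ | ⟨j, σ, hσ, rfl⟩ | ⟨δ, K, -, rfl⟩
  · exact Or.inl ⟨0, subset_univ _⟩
  · exact Or.inl ⟨k, N'_le le_rfl hz⟩
  · rcases hz with h | ⟨i, a1, a2, a3⟩
    · obtain rfl := Sum.inl.inj h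
      exact Or.inr ⟨hσ, j, subset_rfl⟩
    · exact Or.inl ⟨i, fun w hw => Or.inr ⟨i, a1, a2, N'_le le_rfl a3 hw⟩⟩
  · obtain ⟨c, -, h⟩ := hz
    exact absurd h (by simp)

lemma betw (z : X) (k : ℕ) : ∃ W ∈ BaseY, Sum.inl z ∈ W ∧ W ⊆ N' z k := by
  by_cases h : Pr z (k + 1)
  · obtain ⟨σ, a1, a2, a3, a4⟩ := h
    exact ⟨V' (k + 1) σ, Or.inr (Or.inr (Or.inl ⟨_, σ, a1, rfl⟩)),
      inl_V'.2 (Or.inr ⟨_, le_rfl, a2, a3, a4⟩), (V'_sub σ k).trans (N'_le le_rfl a3.symm)⟩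
  · exact ⟨N' z (k + 1), Or.inr (Or.inl ⟨z, _, h, rfl⟩), Ag.rfl, N'_le (by omega) Ag.rfl⟩

lemma clop {W : Set Y} (hW : W ∈ BaseY) (δ : D) : IsClopen {c | (Sum.inr (δ, c) : Y) ∈ W} := by
  have k : ∀ P : Prop, IsClopen {_c : L | P} := fun P => by
    by_cases h : P <;> simp [h, isClopen_univ, isClopen_empty]
  rcases hW with rfl | ⟨y, k', -, rfl⟩ | ⟨j, σ, hσ, rfl⟩ | ⟨δ', K, hK, rfl⟩
  · exact isClopen_univ
  · exact k (ap δ y k')
  · have : {c | (Sum.inr (δ, c) : Y) ∈ V' j σ} =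
        {_c | ∃ i, j ≤ i ∧ σ i = b ∧ ap δ (update σ i (d σ)) i} := by
      ext c
      exact ⟨fun h => h.resolve_left (by simp), fun h => Or.inr h⟩
    rw [this]; exact k _
  · by_cases h : δ = δ'
    · subst h
      have : {c | (Sum.inr (δ, c) : Y) ∈ K' δ K} = K := by
        ext c
        exact ⟨fun ⟨c', h1, h2⟩ => (Prod.mk.inj (Sum.inr.inj h2)).2 ▸ h1, fun h => ⟨c, h, rfl⟩⟩
      rwa [this]
    · have : {c | (Sum.inr (δ, c) : Y) ∈ K' δ' K} = ∅ :=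
        eq_empty_of_forall_notMem fun c ⟨c', _, h2⟩ => h (Prod.mk.inj (Sum.inr.inj h2)).1
      rw [this]; exact isClopen_empty

lemma K'_mem {δ : D} {K : Set L} (h : IsClopen K) : K' δ K ∈ BaseY :=
  Or.inr (Or.inr (Or.inr ⟨δ, K, h, rfl⟩))

instance : TopologicalSpace Y := generateFrom BaseY

lemma basisY : IsTopologicalBasis BaseY := by
  refine ⟨?_, sUnion_eq_univ_iff.2 fun x => ⟨univ, Or.inl rfl, mem_univ x⟩, rfl⟩
  rintro W1 h1 W2 h2 (z | ⟨δ, c⟩) ⟨hz1, hz2⟩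
  · have mix : ∀ {W1 W2 : Set Y} k j, N' z k ⊆ W1 → z ∈ I → V' j z ⊆ W2 →
        ∃ W ∈ BaseY, Sum.inl z ∈ W ∧ W ⊆ W1 ∩ W2 := fun k j a1 a2 a3 =>
      ⟨V' (max j (k + 1)) z, Or.inr (Or.inr (Or.inl ⟨_, z, a2, rfl⟩)), Or.inl rfl,
        subset_inter (((V'_mono z (le_max_right _ _)).trans (V'_sub z k)).trans a1)
          ((V'_mono z (le_max_left _ _)).trans a3)⟩
    rcases locl h1 hz1 with ⟨k, a1⟩ | ⟨a1, j, a2⟩ <;> rcases locl h2 hz2 with ⟨k', c1⟩ | ⟨c1, j', c2⟩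
    · obtain ⟨W, e1, e2, e3⟩ := betw z (max k k')
      exact ⟨W, e1, e2, subset_inter (e3.trans ((N'_le (le_max_left _ _) Ag.rfl).trans a1))
        (e3.trans ((N'_le (le_max_right _ _) Ag.rfl).trans c1))⟩
    · exact mix k j' a1 c1 c2
    · rw [inter_comm]; exact mix k' j c1 a1 a2
    · exact ⟨V' (max j j') z, Or.inr (Or.inr (Or.inl ⟨_, z, a1, rfl⟩)), Or.inl rfl,
        subset_inter ((V'_mono z (le_max_left _ _)).trans a2)
          ((V'_mono z (le_max_right _ _)).trans c2)⟩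
  · refine ⟨K' δ _, K'_mem ((clop h1 δ).inter (clop h2 δ)), ⟨c, ⟨hz1, hz2⟩, rfl⟩, ?_⟩
    rintro _ ⟨c', h, rfl⟩
    exact h

lemma open_N' (x : X) (k : ℕ) : IsOpen (N' x k) := by
  rw [isOpen_iff_forall_mem_open]
  rintro (z | ⟨δ, c⟩) hz
  · obtain ⟨W, e1, e2, e3⟩ := betw z k
    exact ⟨W, e3.trans (N'_le le_rfl hz), basisY.isOpen e1, e2⟩
  · refine ⟨K' δ univ, ?_, basisY.isOpen (K'_mem isClopen_univ), c, mem_univ c, rfl⟩
    rintro _ ⟨c', -, rfl⟩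
    exact hz

lemma sepN {x y : X} {l k c m : ℕ} (h : x l c ≠ y l c) (hk : l ≤ k) (h1 : l ≤ m) (h2 : c ≤ m)
    {w : Y} (hx : w ∈ N' x m) : w ∉ N' y k := by
  intro hy
  rcases w with z | ⟨δ, c'⟩
  · exact h (congrFun ((hx l (by omega)).symm.trans (hy l (by omega))) c)
  · exact h ((hx.2 ⟨l, lt_of_le_of_lt h1 hx.1⟩ ⟨c, lt_of_le_of_lt h2 hx.1⟩ h1).symm.trans
      (hy.2 ⟨l, lt_of_le_of_lt h1 hx.1⟩ ⟨c, lt_of_le_of_lt h2 hx.1⟩ hk))

lemma nec {u v : L} (h : u ≠ v) : ∃ c, u c ≠ v c := by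
  by_contra hc; push Not at hc; exact h (funext hc)

lemma far {W : Set Y} (hW : W ∈ BaseY) {z : X} (hz : Sum.inl z ∉ W) :
    ∃ m, ∀ w ∈ N' z m, w ∉ W := by
  rcases hW with rfl | ⟨y, k, -, rfl⟩ | ⟨j, σ, hσ, rfl⟩ | ⟨δ, K, -, rfl⟩
  · exact absurd (mem_univ _) hz
  · have : ∃ l, l < k + 1 ∧ z l ≠ y l := by
      by_contra hc; push Not at hc; exact hz hc
    obtain ⟨l, h1, h2⟩ := this
    obtain ⟨c, hc⟩ := nec h2
    exact ⟨max l c, fun w hw => sepN hc (by omega) (le_max_left _ _) (le_max_right _ _) hw⟩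
  · rw [inl_V'] at hz
    obtain ⟨l, h1, h2⟩ := first (show z ≠ σ from fun h => hz (Or.inl h))
    obtain ⟨c, hc⟩ := nec h2
    have : ∃ c', j ≤ l → σ l = b → z l c' ≠ d σ c' := by
      by_cases h : j ≤ l ∧ σ l = b
      · obtain ⟨c', hc'⟩ := nec (show z l ≠ d σ from fun h' => hz ((mem_V h1 h2).2 ⟨h.1, h.2, h'⟩))
        exact ⟨c', fun _ _ => hc'⟩
      · exact ⟨0, fun a1 a2 => absurd ⟨a1, a2⟩ h⟩
    obtain ⟨c', hc'⟩ := this
    refine ⟨l + c + c', ?_⟩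
    rintro w hw (rfl | ⟨i, a1, a2, a3⟩)
    · exact h2 (hw l (by omega)).symm
    rcases lt_trichotomy i l with h | rfl | h
    · refine sepN (l := i) (c := 0) ?_ le_rfl (by omega) (by omega) hw a3
      rw [update_self, h1 i h, a2]; simp [b, d]
    · refine sepN (l := i) (c := c') ?_ le_rfl (by omega) (by omega) hw a3
      rw [update_self]; exact hc' a1 a2
    · refine sepN (l := l) (c := c) ?_ h.le (by omega) (by omega) hw a3
      rw [update_of_ne h.ne]; exact hc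
  · refine ⟨δ.1, ?_⟩
    rintro _ hw ⟨c, -, rfl⟩
    exact lt_irrefl _ hw.1

lemma closedY {W : Set Y} (hW : W ∈ BaseY) : IsClosed W := by
  rw [← isOpen_compl_iff, isOpen_iff_forall_mem_open]
  rintro (z | ⟨δ, c⟩) hz
  · obtain ⟨m, hm⟩ := far hW hz
    exact ⟨N' z m, hm, open_N' _ _, Ag.rfl⟩
  · refine ⟨K' δ _, ?_, basisY.isOpen (K'_mem (clop hW δ).compl), c, hz, rfl⟩
    rintro _ ⟨c', h, rfl⟩
    exact h

instance : RegularSpace Y := .of_exists_mem_nhds_isClosed_subset fun _ _ hs => by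
  obtain ⟨W, h1, h2, h3⟩ := basisY.mem_nhds_iff.1 hs
  exact ⟨W, (basisY.isOpen h1).mem_nhds h2, closedY h1, h3⟩

instance : T1Space Y := t1Space_iff_exists_open.2 (by
  rintro (x | ⟨δ, c⟩) w hne
  · rcases w with y | ⟨δ, c⟩
    · obtain ⟨i, -, hi⟩ := first (show x ≠ y from fun h => hne (h ▸ rfl))
      exact ⟨N' x i, open_N' _ _, Ag.rfl, fun h => hi (h i (by omega)).symm⟩
    · exact ⟨N' x δ.1, open_N' _ _, Ag.rfl, fun h => lt_irrefl _ h.1⟩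
  · by_cases h : ∃ c', w = Sum.inr (δ, c')
    · obtain ⟨c', rfl⟩ := h
      obtain ⟨i, hi⟩ := nec (show c ≠ c' from fun h => hne (h ▸ rfl))
      refine ⟨K' δ {u | u i = c i}, basisY.isOpen (K'_mem ?_), ⟨c, rfl, rfl⟩, ?_⟩
      · exact (isClopen_discrete {c i}).preimage (continuous_apply i)
      · rintro ⟨u, h1, h2⟩
        obtain rfl := (Prod.mk.inj (Sum.inr.inj h2)).2
        exact hi h1.symm
    · exact ⟨K' δ univ, basisY.isOpen (K'_mem isClopen_univ), ⟨c, mem_univ _, rfl⟩,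
        fun ⟨c', _, h2⟩ => h ⟨c', h2⟩⟩)

instance : T3Space Y := {}

lemma hasK {W : Set Y} (hW : W ∈ BaseY) (hn : W.Nonempty) :
    ∃ δ, {c | (Sum.inr (δ, c) : Y) ∈ W}.Nonempty := by
  have k : ∀ x k, (Sum.inr (⟨k + 1, fun l c => x l c⟩, b) : Y) ∈ N' x k := fun x k =>
    ⟨lt_add_one k, fun _ _ _ => rfl⟩
  rcases hW with rfl | ⟨y, k', -, rfl⟩ | ⟨j, σ, hσ, rfl⟩ | ⟨δ', K, hK, rfl⟩
  · exact ⟨⟨0, fun l => l.elim0⟩, b, mem_univ _⟩
  · exact ⟨_, b, k y k'⟩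
  · obtain ⟨i, a1, a2⟩ := hσ j
    exact ⟨_, b, Or.inr ⟨i, a1, a2, k _ i⟩⟩
  · obtain ⟨_, c, h, rfl⟩ := hn
    exact ⟨δ', c, c, h, rfl⟩

instance : SeparableSpace Y := by
  obtain ⟨s, hs, hd⟩ := exists_countable_dense L
  refine ⟨⟨Sum.inr '' ((univ : Set D) ×ˢ s), (countable_univ.prod hs).image _, ?_⟩⟩
  rw [basisY.dense_iff]
  intro W hW hn
  obtain ⟨δ, h⟩ := hasK hW hn
  obtain ⟨c, h1, h2⟩ := hd.inter_open_nonempty _ (clop hW δ).isOpen h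
  exact ⟨_, h1, (δ, c), ⟨mem_univ _, h2⟩, rfl⟩

lemma no_isolY (y : Y) : ¬ IsOpen ({y} : Set Y) := by
  intro h
  obtain ⟨W, hW, hx, hs⟩ := basisY.exists_subset_of_mem_open (mem_singleton y) h
  obtain ⟨δ, c, hc⟩ := hasK hW ⟨y, hx⟩
  have h1 : Filter.Tendsto (fun n => update c n (!c n)) Filter.atTop (𝓝 c) := by
    rw [tendsto_pi_nhds]
    intro i
    refine tendsto_const_nhds.congr' ?_
    filter_upwards [Filter.eventually_gt_atTop i] with n hn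
    rw [update_of_ne hn.ne]
  obtain ⟨n, hn⟩ := (h1.eventually ((clop hW δ).isOpen.mem_nhds hc)).exists
  have h2 := (hs hn).trans (hs hc).symm
  have h3 := congrFun (Prod.mk.inj (Sum.inr.inj h2)).2 n
  simp at h3

theorem baseY_nonres (B0 B1 : Set (Set Y)) (hu : BaseY = B0 ∪ B1) (hd : Disjoint B0 B1)
    (h0 : IsTopologicalBasis B0) (h1 : IsTopologicalBasis B1) : False := by
  refine nonres (Y := Y) Sum.inl V' (fun _ _ => Set.ext fun _ => inl_V')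
    (fun i l σ h1 h2 => Subset.antisymm ?_ (V'_mono σ h1)) BaseY
    (fun j σ h => Or.inr (Or.inr (Or.inl ⟨j, σ, h, rfl⟩))) (fun W h => basisY.isOpen h)
    (fun W hW x hx => ?_) B0 B1 hu hd h0 h1
  · rintro z (rfl | ⟨i', a1, a2, a3⟩)
    · exact Or.inl rfl
    · exact Or.inr ⟨i', not_lt.1 fun h => h2 i' a1 h a2, a2, a3⟩
  · rcases hW with rfl | ⟨y, k, h, rfl⟩ | h | ⟨δ, K, -, rfl⟩
    · exact Or.inl rfl
    · exact Or.inr (Or.inl ⟨y, k, h, rfl⟩)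
    · exact Or.inr (Or.inr h)
    · obtain ⟨c, -, h⟩ := hx
      exact absurd h (by simp)

end Pool.Agent.H8.BR
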