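import Mathlib

set_option autoImplicit false
open Set TopologicalSpace Topology Function

namespace Pool.Agent.H8.BL

abbrev X : Type := ℕ → ℝ

lemma exists_d : ∃ d : X → ℝ, Injective d ∧ ∀ σ, 0 < d σ := by
  have : Cardinal.mk X = Cardinal.mk ℝ := by simp [Cardinal.mk_real]
  obtain ⟨e⟩ := Cardinal.eq.1 this
  exact ⟨fun σ => Real.exp (e σ), Real.exp_injective.comp e.injective, fun _ => Real.exp_pos _⟩

noncomputable def d : X → ℝ := exists_d.choose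
lemma d_inj {σ ρ : X} (h : d σ = d ρ) : σ = ρ := exists_d.choose_spec.1 h
lemma d_pos (σ : X) : 0 < d σ := exists_d.choose_spec.2 σ

def Ag (x y : X) (k : ℕ) : Prop := ∀ l < k, x l = y l
def I : Set X := {σ | ∀ n, ∃ i, n ≤ i ∧ σ i = 0}
def Pr (x : X) (k : ℕ) : Prop := ∃ σ ∈ I, σ k = 0 ∧ Ag x σ k ∧ x k = d σ
def lx (x y : X) : Prop := ∃ i, Ag x y i ∧ x i < y i

lemma Ag.mono {x y : X} {k l : ℕ} (h : Ag x y k) (hl : l ≤ k) : Ag x y l :=
  fun i hi => h i (by omega)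
lemma Ag.symm {x y : X} {k : ℕ} (h : Ag x y k) : Ag y x k := fun i hi => (h i hi).symm
lemma Ag.trans {x y z : X} {k : ℕ} (h : Ag x y k) (h' : Ag y z k) : Ag x z k :=
  fun i hi => (h i hi).trans (h' i hi)
lemma Ag.rfl {x : X} {k : ℕ} : Ag x x k := fun _ _ => _root_.rfl
lemma ag_update (σ : X) (i : ℕ) (w : ℝ) : Ag (update σ i w) σ i := fun l hl =>
  update_of_ne (by omega) _ _

lemma exists_seq (P : ℕ → X → ℝ → Prop)
    (h : ∀ n (s : X), ∃ w, ∀ s' : X, Ag s' s n → P n s' w) : ∃ x : X, ∀ n, P n x (x n) := by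
  choose f hf using h
  let F : ℕ → X := fun n => Nat.rec (fun _ => 0) (fun n s => update s n (f n s)) n
  have hF : ∀ n l, l < n → F n l = F (l + 1) l := by
    intro n
    induction n with
    | zero => intro l hl; omega
    | succ n ih =>
      intro l hl
      rcases Nat.lt_succ_iff_lt_or_eq.1 hl with h | rfl
      · change update (F n) n (f n (F n)) l = _
        rw [update_of_ne (by omega), ih l h]
      · rfl
  refine ⟨fun l => F (l + 1) l, fun n => ?_⟩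
  have : F (n + 1) n = f n (F n) := update_self _ _ _
  change P n _ (F (n + 1) n)
  rw [this]
  exact hf n (F n) _ (fun l hl => (hF n l hl).symm)

structure P : Type where
  x : X
  r : ℝ
  h : r = 1 ∨ (x ∈ I ∧ r ≤ 0)

noncomputable instance : LinearOrder P :=
  LinearOrder.lift' (fun p : P => (toLex (toLex p.x, p.r) : Lex (Lex X × ℝ))) (by
    rintro ⟨x, r, h⟩ ⟨y, s, h'⟩ e
    have := toLex.injective e
    obtain ⟨h1, rfl⟩ := Prod.mk.inj this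
    obtain rfl := toLex.injective h1
    rfl)

lemma lt_iff {p q : P} : p < q ↔ lx p.x q.x ∨ (p.x = q.x ∧ p.r < q.r) := by
  change (toLex (toLex p.x, p.r) : Lex (Lex X × ℝ)) < toLex (toLex q.x, q.r) ↔ _
  rw [Prod.Lex.toLex_lt_toLex]
  exact Iff.rfl

noncomputable instance : TopologicalSpace P := Preorder.topology P
instance : OrderTopology P := ⟨rfl⟩

def e (x : X) : P := ⟨x, 1, Or.inl rfl⟩
def N (x : X) (k : ℕ) : Set P := {p | Ag p.x x (k + 1)}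
def V (j : ℕ) (σ : X) : Set P := (Ici (e σ) ∩ N σ j) ∪ N (update σ j (d σ)) j

def Base : Set (Set P) :=
  {W | (∃ y k, ¬ Pr y k ∧ W = N y k) ∨ (∃ j, ∃ σ ∈ I, σ j = 0 ∧ W = V j σ) ∨
    (IsOpen W ∧ ∀ p ∈ W, p.r ≤ 0)}

lemma r_le (p : P) : p.r ≤ 1 := by
  rcases p.h with h | h
  · exact h.le
  · linarith [h.2]

lemma lt_up (p : P) (k : ℕ) : p < e (update p.x k (p.x k + 1)) :=
  lt_iff.2 (Or.inl ⟨k, (ag_update _ _ _).symm, by simp [e]⟩)
lemma lt_down (p : P) (k : ℕ) : e (update p.x k (p.x k - 1)) < p :=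
  lt_iff.2 (Or.inl ⟨k, ag_update _ _ _, by simp [e]⟩)

lemma conv {a c p : P} {x : X} {k : ℕ} (ha : Ag a.x x k) (hc : Ag c.x x k) (h1 : a < p)
    (h2 : p < c) : Ag p.x x k := by
  rcases lt_iff.1 h1 with ⟨i, a1, a2⟩ | ⟨a1, -⟩
  swap
  · exact a1 ▸ ha
  rcases lt_iff.1 h2 with ⟨j, c1, c2⟩ | ⟨c1, -⟩
  swap
  · exact c1 ▸ hc
  by_cases hi : k ≤ i
  · exact (a1.mono hi).symm.trans ha
  by_cases hj : k ≤ j
  · exact (c1.mono hj).trans hc
  exfalso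
  rcases lt_trichotomy i j with h | rfl | h
  · have := c1 i h; have := ha i (by omega); have := hc i (by omega); linarith
  · have := ha i (by omega); have := hc i (by omega); linarith
  · have := a1 j h; have := ha j (by omega); have := hc j (by omega); linarith

lemma open_N (x : X) (k : ℕ) : IsOpen (N x k) := by
  rw [isOpen_iff_forall_mem_open]
  intro p hp
  exact ⟨Ioo _ _, fun q hq => conv ((ag_update _ _ _).trans hp) ((ag_update _ _ _).trans hp)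
    hq.1 hq.2, isOpen_Ioo, lt_down p (k + 1), lt_up p (k + 1)⟩

lemma open_Ici {σ : X} (h : σ ∈ I) : IsOpen (Ici (e σ)) := by
  have : Ici (e σ) = Ioi ⟨σ, 0, Or.inr ⟨h, le_rfl⟩⟩ := by
    ext p
    simp only [mem_Ici, mem_Ioi, ← not_lt, lt_iff]
    constructor
    · intro h1
      rcases lt_trichotomy p ⟨σ, 0, Or.inr ⟨h, le_rfl⟩⟩ with h2 | h2 | h2
      · exact absurd ((lt_iff.1 h2).imp_right fun h3 => ⟨h3.1, h3.2.trans zero_lt_one⟩) h1
      · exact absurd (Or.inr (by rw [h2]; exact ⟨rfl, zero_lt_one⟩)) h1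
      · exact lt_iff.1 h2
    · intro h1 h2
      rcases h2 with h2 | ⟨h2, h3⟩
      · have a1 : p < ⟨σ, 0, Or.inr ⟨h, le_rfl⟩⟩ := lt_iff.2 (Or.inl h2)
        exact lt_asymm a1 (lt_iff.2 h1)
      · rcases h1 with ⟨i, -, h1⟩ | h1
        · rw [h2] at h1; exact lt_irrefl _ h1
        · rcases p.h with h4 | h4
          · exact absurd h3 (by rw [h4]; exact lt_irrefl _)
          · exact absurd h1.2 (not_lt.2 h4.2)
  rw [this]; exact isOpen_Ioi

lemma open_V {σ : X} (h : σ ∈ I) (j : ℕ) : IsOpen (V j σ) :=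
  ((open_Ici h).inter (open_N _ _)).union (open_N _ _)

lemma mem_upd {p : P} {σ : X} {i : ℕ} :
    p ∈ N (update σ i (d σ)) i ↔ Ag p.x σ i ∧ p.x i = d σ := by
  constructor
  · intro h
    exact ⟨(Ag.mono h (by omega)).trans (ag_update _ _ _), (h i (by omega)).trans (update_self _ _ _)⟩
  · rintro ⟨h1, h2⟩ l hl
    rcases Nat.lt_succ_iff_lt_or_eq.1 hl with h | rfl
    · exact (h1 l h).trans (ag_update σ i _ l h).symm
    · rw [update_self]; exact h2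

lemma V_ag {σ : X} {j : ℕ} {p : P} (h : p ∈ V j σ) : Ag p.x σ j := by
  rcases h with h | h
  · exact Ag.mono h.2 (by omega)
  · exact (mem_upd.1 h).1

lemma V_ge {σ : X} {j : ℕ} (hj : σ j = 0) {p : P} (h : p ∈ V j σ) : e σ ≤ p := by
  rcases h with h | h
  · exact h.1
  · obtain ⟨h1, h2⟩ := mem_upd.1 h
    exact (lt_iff.2 (Or.inl ⟨j, h1.symm, by
      change σ j < _; rw [hj, h2]; exact d_pos σ⟩)).le

lemma self_V (σ : X) (j : ℕ) : e σ ∈ V j σ := Or.inl ⟨mem_Ici.2 le_rfl, Ag.rfl⟩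

lemma right_nb {x : X} {u : Set P} (hu : u ∈ 𝓝 (e x)) :
    ∃ k, ∀ q, e x ≤ q → Ag q.x x k → q ∈ u := by
  obtain ⟨y, hy, hs⟩ := exists_Ico_subset_of_mem_nhds hu ⟨_, lt_up (e x) 0⟩
  rcases lt_iff.1 hy with ⟨i, a1, a2⟩ | ⟨-, a2⟩
  · exact ⟨i + 1, fun q h1 h2 => hs ⟨h1, lt_iff.2 (Or.inl
      ⟨i, (h2.mono (by omega)).trans a1, (h2 i (by omega)).trans_lt a2⟩)⟩⟩
  · exact absurd a2 (not_lt.2 (r_le y))

lemma left_nb {x : X} (hx : x ∉ I) {u : Set P} (hu : u ∈ 𝓝 (e x)) :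
    ∃ k, ∀ q, q ≤ e x → Ag q.x x k → q ∈ u := by
  obtain ⟨y, hy, hs⟩ := exists_Ioc_subset_of_mem_nhds hu ⟨_, lt_down (e x) 0⟩
  rcases lt_iff.1 hy with ⟨i, a1, a2⟩ | ⟨a1, a2⟩
  · exact ⟨i + 1, fun q h1 h2 => hs ⟨lt_iff.2 (Or.inl
      ⟨i, a1.trans (h2.mono (by omega)).symm, a2.trans_eq (h2 i (by omega)).symm⟩), h1⟩⟩
  · rcases y.h with h | h
    · exact absurd a2 (by rw [h]; exact lt_irrefl _)
    · exact absurd (by have := h.1; rw [a1] at this; exact this) hx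

lemma basis : IsTopologicalBasis Base := by
  refine isTopologicalBasis_of_isOpen_of_nhds ?_ ?_
  · rintro _ (⟨y, k, -, rfl⟩ | ⟨j, σ, h, -, rfl⟩ | h)
    · exact open_N _ _
    · exact open_V h _
    · exact h.1
  rintro ⟨x, r, rfl | ⟨h1, h2⟩⟩ u hp hu
  · obtain ⟨k, hk⟩ := right_nb (x := x) (hu.mem_nhds hp)
    by_cases hx : x ∈ I
    · obtain ⟨j, j1, j2⟩ := hx k
      exact ⟨V j x, Or.inr (Or.inl ⟨j, x, hx, j2, rfl⟩), self_V x j,
        fun q hq => hk q (V_ge j2 hq) ((V_ag hq).mono j1)⟩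
    obtain ⟨k', hk'⟩ := left_nb hx (hu.mem_nhds hp)
    have h3 : ∀ q : P, Ag q.x x (max k k') → q ∈ u := fun q hq => (le_total q (e x)).elim
      (fun h => hk' q h (hq.mono (le_max_right _ _))) (fun h => hk q h (hq.mono (le_max_left _ _)))
    by_cases h : Pr x (max k k')
    · obtain ⟨σ, a1, a2, a3, a4⟩ := h
      exact ⟨V _ σ, Or.inr (Or.inl ⟨_, σ, a1, a2, rfl⟩), Or.inr (mem_upd.2 ⟨a3, a4⟩),
        fun q hq => h3 q ((V_ag hq).trans a3.symm)⟩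
    · exact ⟨N x _, Or.inl ⟨x, _, h, rfl⟩, Ag.rfl, fun q hq => h3 q (Ag.mono hq (by omega))⟩
  · refine ⟨u ∩ Ioo ⟨x, r - 1, Or.inr ⟨h1, by linarith⟩⟩ (e x),
      Or.inr (Or.inr ⟨hu.inter isOpen_Ioo, fun q hq => ?_⟩),
      ⟨hp, lt_iff.2 (Or.inr ⟨rfl, by simp⟩), lt_iff.2 (Or.inr ⟨rfl, h2.trans_lt zero_lt_one⟩)⟩,
      inter_subset_left⟩
    rcases lt_iff.1 hq.2.2 with ⟨i, a1, a2⟩ | ⟨-, a2⟩
    · have := conv (x := x) (k := i + 1) Ag.rfl Ag.rfl hq.2.1 hq.2.2 i (by omega)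
      exact absurd a2 (by rw [this]; exact lt_irrefl _)
    · rcases q.h with h | h
      · exact absurd a2 (by rw [h]; exact lt_irrefl _)
      · exact h.2

lemma no_isol (p : P) : ¬ IsOpen ({p} : Set P) := by
  intro h
  obtain ⟨x, r, rfl | ⟨h1, h2⟩⟩ := p
  · obtain ⟨k, hk⟩ := right_nb (x := x) (h.mem_nhds rfl)
    exact (lt_up (e x) k).ne' (hk _ (lt_up (e x) k).le (ag_update _ _ _))
  · obtain ⟨y, hy, hs⟩ := exists_Ioc_subset_of_mem_nhds (h.mem_nhds rfl) ⟨_, lt_down _ 0⟩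
    have k : ∀ s : ℝ, ∀ hs' : s < r, ¬ y < ⟨x, s, Or.inr ⟨h1, hs'.le.trans h2⟩⟩ := fun s hs' h3 => by
      have h4 : (⟨x, s, Or.inr ⟨h1, hs'.le.trans h2⟩⟩ : P) < ⟨x, r, Or.inr ⟨h1, h2⟩⟩ :=
        lt_iff.2 (Or.inr ⟨rfl, hs'⟩)
      exact h4.ne (hs ⟨h3, h4.le⟩)
    rcases lt_iff.1 hy with a1 | ⟨a1, a2⟩
    · exact k (r - 1) (by linarith) (lt_iff.2 (Or.inl a1))
    · have a3 : y.r < r := a2
      exact k ((y.r + r) / 2) (by linarith)
        (lt_iff.2 (Or.inr ⟨a1, show y.r < (y.r + r) / 2 by linarith⟩))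

theorem nonres (B0 : Set (Set P)) (h0 : B0 ⊆ Base) (b0 : IsTopologicalBasis B0)
    (b1 : IsTopologicalBasis (Base \ B0)) : False := by
  obtain ⟨x, hx⟩ := exists_seq (fun n s w =>
      (w = 0 ∧ ∀ σ ∈ I, Ag s σ n → σ n = 0 → V n σ ∈ B0) ∨
      ∃ σ ∈ I, Ag s σ n ∧ σ n = 0 ∧ V n σ ∉ B0 ∧ w = d σ) (fun n s => by
    by_cases h : ∃ σ ∈ I, Ag s σ n ∧ σ n = 0 ∧ V n σ ∉ B0
    · obtain ⟨σ, h1, h2, h3, h4⟩ := h
      exact ⟨d σ, fun s' hs' => Or.inr ⟨σ, h1, hs'.trans h2, h3, h4, rfl⟩⟩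
    · push Not at h
      exact ⟨0, fun s' hs' => Or.inl ⟨rfl, fun σ h1 h2 h3 => h σ h1 (hs'.symm.trans h2) h3⟩⟩)
  have T0 : ∀ {σ y : X} {k j : ℕ}, σ j = 0 → e σ ∈ N y k → ¬ N y k ⊆ V j σ :=
    fun {σ y k j} h1 h2 h3 => absurd (V_ge h1 (h3 ((ag_update σ (k + 1) _).trans h2)))
      (not_le.2 (lt_down (e σ) (k + 1)))
  by_cases hI : x ∈ I
  · obtain ⟨i, -, hi⟩ := hI 0
    obtain ⟨W, hW, hxW, hs⟩ := b1.exists_subset_of_mem_open (self_V x i) (open_V hI i)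
    rcases hW.1 with ⟨y, k, -, rfl⟩ | ⟨j, σ, hσ, hj, rfl⟩ | h
    · exact T0 hi hxW hs
    · have h3 : e σ = e x := le_antisymm (V_ge hj hxW) (V_ge hi (hs (self_V σ j)))
      obtain rfl : σ = x := congrArg P.x h3
      rcases hx j with h | ⟨ρ, -, -, -, -, h⟩
      · exact hW.2 (h.2 σ hσ Ag.rfl hj)
      · exact (d_pos ρ).ne' (h.symm.trans hj)
    · exact absurd (h.2 _ hxW) (by simp [e])
  · simp only [I, mem_setOf_eq, not_forall, not_exists, not_and] at hI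
    obtain ⟨k, hk⟩ := hI
    have hp : ∀ i, k ≤ i → ∃ σ ∈ I, Ag x σ i ∧ σ i = 0 ∧ V i σ ∉ B0 ∧ x i = d σ := fun i hi =>
      (hx i).resolve_left fun h => hk i hi h.1
    obtain ⟨σ, hσ, ha, hb, -, hdσ⟩ := hp k le_rfl
    obtain ⟨W, hW, hxW, hs⟩ := b0.exists_subset_of_mem_open (a := e x) (u := V k σ)
      (Or.inr (mem_upd.2 ⟨ha, hdσ⟩)) (open_V hσ k)
    rcases h0 hW with ⟨y, l, hl, rfl⟩ | ⟨j, ρ, hρ, hj, rfl⟩ | h
    · by_cases hlk : k ≤ l
      · obtain ⟨τ, a1, a2, a3, -, a5⟩ := hp l hlk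
        exact hl ⟨τ, a1, a3, (Ag.mono hxW (by omega)).symm.trans a2,
          (hxW l (by omega)).symm.trans a5⟩
      · exact T0 hb (show e σ ∈ N y l from (ha.mono (by omega)).symm.trans hxW) hs
    · by_cases hjk : k ≤ j
      · obtain ⟨τ, -, -, -, c4, c5⟩ := hp j hjk
        rcases hxW with h | h
        · exact hk j hjk ((h.2 j (by omega)).trans hj)
        · obtain rfl : ρ = τ := d_inj ((mem_upd.1 h).2.symm.trans c5)
          exact c4 hW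
      · have a1 := V_ag (hs (self_V ρ j)) j (by omega)
        have a2 := V_ag (hs (Or.inr (Ag.rfl : e (update ρ j (d ρ)) ∈ N _ j))) j (by omega)
        simp only [e, update_self] at a1 a2
        exact (d_pos ρ).ne' (a2.trans (a1.symm.trans hj))
    · exact absurd (h.2 _ hxW) (by simp [e])

end Pool.Agent.H8.BL
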