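import Mathlib

set_option autoImplicit false
open Set TopologicalSpace Topology Function

namespace Pool.Agent.H8.BP

section
variable {Z : Type} [TopologicalSpace Z]

def IsB (S : Set (Set Z)) : Prop := ∀ y U, y ∈ U → IsOpen U → ∃ W ∈ S, y ∈ W ∧ W ⊆ U

lemma avoid [T1Space Z] (hi : ∀ x : Z, ¬ IsOpen ({x} : Set Z)) {S : Set (Set Z)} (hS : IsB S)
    (ho : ∀ W ∈ S, IsOpen W) {F : Set (Set Z)} (hF : F.Finite) {y : Z} {U : Set Z} (hy : y ∈ U)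
    (hU : IsOpen U) : ∃ W ∈ S, y ∈ W ∧ W ⊆ U ∧ W ∉ F := by
  have : ∃ U', IsOpen U' ∧ y ∈ U' ∧ U' ⊆ U ∧ ∀ T ∈ F, IsOpen T → y ∈ T → ¬ T ⊆ U' := by
    induction F, hF using Set.Finite.induction_on with
    | empty => exact ⟨U, hU, hy, subset_rfl, by simp⟩
    | @insert T F _ _ ih =>
      obtain ⟨U', a1, a2, a3, a4⟩ := ih
      by_cases h : IsOpen T ∧ y ∈ T
      · have : ∃ p ∈ T, p ≠ y := by
          by_contra hc
          push Not at hc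
          exact hi y ((eq_singleton_iff_unique_mem.2 ⟨h.2, hc⟩) ▸ h.1)
        obtain ⟨p, p1, p2⟩ := this
        refine ⟨U' \ {p}, a1.sdiff isClosed_singleton, ⟨a2, p2.symm⟩, diff_subset.trans a3, ?_⟩
        rintro T' (rfl | h') b1 b2 b3
        · exact (b3 p1).2 rfl
        · exact a4 T' h' b1 b2 (b3.trans diff_subset)
      · refine ⟨U', a1, a2, a3, ?_⟩
        rintro T' (rfl | h') b1 b2
        · exact absurd ⟨b1, b2⟩ h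
        · exact a4 T' h' b1 b2
  obtain ⟨U', a1, a2, a3, a4⟩ := this
  obtain ⟨W, w1, w2, w3⟩ := hS y U' a2 a1
  exact ⟨W, w1, w2, w3.trans a3, fun h => a4 W h (ho W w1) w2 w3⟩

lemma cover [T1Space Z] (hi : ∀ x : Z, ¬ IsOpen ({x} : Set Z)) {S : Set (Set Z)} (hS : IsB S)
    (ho : ∀ W ∈ S, IsOpen W) (c : Z → Set Z) (hc : ∀ z, z ∈ c z ∧ IsOpen (c z)) :
    ∃ G ⊆ S, (∀ W ∈ G, ∃ z, W ⊆ c z) ∧ (∀ y, ∃ W ∈ G, y ∈ W) ∧ IsB (S \ G) := by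
  let r : Set Z → Set Z → Prop := WellOrderingRel
  have wf : WellFounded r := (WellOrderingRel.isWellOrder).wf
  refine ⟨{W ∈ S | (∃ z, W ⊆ c z) ∧ ∀ W' ∈ S, (∃ z, W' ⊆ c z) → r W' W → ¬ W ⊆ W'},
    sep_subset _ _, fun W h => h.2.1, fun y => ?_, fun y U hy hU => ?_⟩
  · obtain ⟨W, w1, w2, w3⟩ := hS y _ (hc y).1 (hc y).2
    obtain ⟨m, hm, hmin⟩ := wf.has_min {W ∈ S | (∃ z, W ⊆ c z) ∧ y ∈ W} ⟨W, w1, ⟨y, w3⟩, w2⟩
    exact ⟨m, ⟨hm.1, hm.2.1, fun W' a1 a2 a3 a4 => hmin W' ⟨a1, a2, a4 hm.2.2⟩ a3⟩, hm.2.2⟩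
  · obtain ⟨W, w1, w2, w3⟩ := hS y _ (⟨hy, (hc y).1⟩ : y ∈ U ∩ c y) (hU.inter (hc y).2)
    obtain ⟨m, hm, hmin⟩ := wf.has_min {W ∈ S | y ∈ W ∧ W ⊆ U ∩ c y} ⟨W, w1, w2, w3⟩
    obtain ⟨W', a1, a2, a3, a4⟩ := avoid hi hS ho (finite_singleton m) hm.2.1 (ho m hm.1)
    refine ⟨W', ⟨a1, fun h => ?_⟩, a2, (a3.trans hm.2.2).trans inter_subset_left⟩
    rcases trichotomous_of r m W' with h1 | h1 | h1
    · exact h.2.2 m hm.1 ⟨y, hm.2.2.trans inter_subset_right⟩ h1 a3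
    · exact a4 h1.symm
    · exact hmin W' ⟨a1, a2, a3.trans hm.2.2⟩ h1

structure Data (Z : Type) [TopologicalSpace Z] where
  A : Set Z
  R : Z → Set Z
  c : ℕ → Z → Set Z
  hc : ∀ n z, z ∈ c n z ∧ IsOpen (c n z)
  anti : ∀ n m z, n ≤ m → c m z ⊆ c n z
  hR : ∀ a ∈ A, a ∈ R a ∧ IsOpen (R a)
  asym : ∀ a ∈ A, ∀ a' ∈ A, a ∈ R a' → a' ∈ R a → a = a'
  dev : ∀ y ∉ A, ∀ U, y ∈ U → IsOpen U → ∃ n, ∀ z, y ∈ c n z → c n z ⊆ U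
  loc : ∀ a ∈ A, ∀ U, a ∈ U → IsOpen U → ∃ n, R a ∩ c n a ⊆ U
  lin : ∀ G : Set (Set Z), (∀ W ∈ G, IsOpen W) → (∀ y, ∃ W ∈ G, y ∈ W) →
    ∃ G' ⊆ G, (∀ y ∉ A, ∃ W ∈ G', y ∈ W) ∧ {a ∈ A | ∃ W ∈ G', a ∈ W ∧ W ⊆ R a}.Countable

def Data.bad (D : Data Z) (G : Set (Set Z)) : Set Z := {a ∈ D.A | ∃ W ∈ G, a ∈ W ∧ W ⊆ D.R a}

lemma rem [T1Space Z] (hi : ∀ x : Z, ¬ IsOpen ({x} : Set Z)) (D : Data Z) {S : Set (Set Z)}
    (hS : IsB S) (ho : ∀ W ∈ S, IsOpen W) {C : Set Z} (hC : C.Countable) (hA : C ⊆ D.A) (n : ℕ) :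
    ∃ G ⊆ S, (∀ a ∈ C, ∃ W ∈ G, a ∈ W ∧ W ⊆ D.R a ∩ D.c n a) ∧ G.Countable ∧ IsB (S \ G) := by
  obtain ⟨f, hf⟩ := Set.countable_iff_exists_injOn.1 hC
  have h1 : ∀ a ∈ C, ∃ W' ∈ S, ∃ W ∈ S, a ∈ W ∧ W ⊆ W' ∧ W ≠ W' ∧
      W' ⊆ D.R a ∩ D.c (max n (f a)) a := fun a ha => by
    obtain ⟨W', a1, a2, a3⟩ := hS a (D.R a ∩ D.c (max n (f a)) a)
      ⟨(D.hR a (hA ha)).1, (D.hc _ _).1⟩ ((D.hR a (hA ha)).2.inter (D.hc _ _).2)
    obtain ⟨W, b1, b2, b3, b4⟩ := avoid hi hS ho (finite_singleton W') a2 (ho _ a1)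
    exact ⟨W', a1, W, b1, b2, b3, b4, a3⟩
  choose! W' a1 W a2 a3 a4 a5 a6 using h1
  have key : ∀ a ∈ C, ∀ y ∈ D.A, ∀ T, y ∈ T → T ⊆ D.R y → T = W a → a = y :=
    fun a ha y hy T t1 t2 t3 => D.asym a (hA ha) y hy (t2 (t3 ▸ a3 a ha))
      (a6 a ha (a4 a ha (t3 ▸ t1))).1
  refine ⟨W '' C, by rintro _ ⟨a, ha, rfl⟩; exact a2 a ha, fun a ha => ⟨_, ⟨a, ha, rfl⟩, a3 a ha,
    ((a4 a ha).trans (a6 a ha)).trans (inter_subset_inter_right _ (D.anti _ _ _ (le_max_left _ _)))⟩,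
    hC.image _, fun y U hy hU => ?_⟩
  by_cases hyA : y ∈ D.A
  · obtain ⟨T, t1, t2, t3, t4⟩ := avoid hi hS ho (finite_singleton (W y))
      (⟨hy, (D.hR y hyA).1⟩ : y ∈ U ∩ D.R y) (hU.inter (D.hR y hyA).2)
    refine ⟨T, ⟨t1, ?_⟩, t2, t3.trans inter_subset_left⟩
    rintro ⟨a, ha, rfl⟩
    obtain rfl := key a ha y hyA _ t2 (t3.trans inter_subset_right) rfl
    exact t4 rfl
  · obtain ⟨n0, hn⟩ := D.dev y hyA U hy hU
    have hfin : (C ∩ f ⁻¹' Iio n0).Finite :=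
      Finite.of_finite_image ((finite_Iio n0).subset (by rintro _ ⟨a, ha, rfl⟩; exact ha.2))
        (hf.mono inter_subset_left)
    obtain ⟨T, t1, t2, t3, t4⟩ := avoid hi hS ho (hfin.image W) hy hU
    by_cases hT : T ∈ W '' C
    · obtain ⟨a, ha, rfl⟩ := hT
      have h2 : n0 ≤ f a := not_lt.1 fun h => t4 ⟨a, ⟨ha, h⟩, rfl⟩
      have h3 : W' a ⊆ D.c n0 a := ((a6 a ha).trans inter_subset_right).trans
        (D.anti _ _ _ (h2.trans (le_max_right _ _)))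
      refine ⟨W' a, ⟨a1 a ha, ?_⟩, a4 a ha t2, h3.trans (hn a (h3 (a4 a ha t2)))⟩
      rintro ⟨a', ha', e⟩
      obtain rfl := key a' ha' a (hA ha) _ (a4 a ha (a3 a ha))
        ((a6 a ha).trans inter_subset_left) e.symm
      exact a5 _ ha e
    · exact ⟨T, ⟨t1, hT⟩, t2, t3⟩

lemma Data.bad_count (D : Data Z) {G : Set (Set Z)} (h : G.Countable) : (D.bad G).Countable := by
  refine (h.biUnion (t := fun W _ => {a ∈ D.A | a ∈ W ∧ W ⊆ D.R a}) fun W _ => ?_).mono ?_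
  · exact Set.Subsingleton.countable fun a ha a' ha' =>
      D.asym a ha.1 a' ha'.1 (ha'.2.2 ha.2.1) (ha.2.2 ha'.2.1)
  · rintro a ⟨h1, W, h2, h3⟩
    exact mem_biUnion h2 ⟨h1, h3⟩

lemma IsB.mono {S S' : Set (Set Z)} (h : IsB S) (hs : S ⊆ S') : IsB S' := fun y U a1 a2 =>
  let ⟨W, w1, w2⟩ := h y U a1 a2; ⟨W, hs w1, w2⟩

theorem resolv [T1Space Z] (hi : ∀ x : Z, ¬ IsOpen ({x} : Set Z)) (D : Data Z)
    (B : Set (Set Z)) (hB : IsTopologicalBasis B) :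
    ∃ B0 B1 : Set (Set Z), B = B0 ∪ B1 ∧ Disjoint B0 B1 ∧ IsTopologicalBasis B0 ∧
      IsTopologicalBasis B1 := by
  have step : ∀ (n : ℕ) (S : Set (Set Z)), ∃ G, IsB (B \ S) → (D.bad S).Countable →
      G ⊆ B \ S ∧ IsB (B \ (S ∪ G)) ∧ (D.bad (S ∪ G)).Countable ∧
      (∀ y ∉ D.A, ∃ W ∈ G, y ∈ W ∧ ∃ z, W ⊆ D.c n z) ∧
      ∀ a ∈ D.bad S, ∃ W ∈ G, a ∈ W ∧ W ⊆ D.R a ∩ D.c n a := fun n S => by
    by_cases h : IsB (B \ S) ∧ (D.bad S).Countable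
    swap
    · exact ⟨∅, fun h1 h2 => absurd ⟨h1, h2⟩ h⟩
    obtain ⟨G1, a1, a2, a3, a4⟩ := rem hi D h.1 (fun W hW => hB.isOpen hW.1) h.2
      (sep_subset _ _) n
    obtain ⟨G2, b1, b2, b3, b4⟩ := cover hi a4 (fun W hW => hB.isOpen hW.1.1) (D.c n) (D.hc n)
    obtain ⟨G3, c1, c2, c3⟩ := D.lin G2 (fun W hW => hB.isOpen (b1 hW).1.1) b3
    refine ⟨G1 ∪ G3, fun _ _ => ⟨union_subset a1 (c1.trans (b1.trans diff_subset)),
      b4.mono ?_, ((h.2.union (D.bad_count a3)).union c3).mono ?_, fun y hy => ?_, fun a ha => ?_⟩⟩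
    · rintro W ⟨⟨⟨w1, w2⟩, w3⟩, w4⟩
      exact ⟨w1, fun h => h.elim w2 fun h => h.elim w3 fun h => w4 (c1 h)⟩
    · rintro a ⟨h1, W, h2 | h2 | h2, h3⟩
      · exact Or.inl (Or.inl ⟨h1, W, h2, h3⟩)
      · exact Or.inl (Or.inr ⟨h1, W, h2, h3⟩)
      · exact Or.inr ⟨h1, W, h2, h3⟩
    · obtain ⟨W, w1, w2⟩ := c2 y hy
      exact ⟨W, Or.inr w1, w2, b2 W (c1 w1)⟩
    · obtain ⟨W, w1, w2⟩ := a2 a ha
      exact ⟨W, Or.inl w1, w2⟩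
  choose g hg using step
  let S : ℕ → Set (Set Z) := fun n => Nat.rec ∅ (fun n S => S ∪ g n S) n
  have hB' : IsB B := fun y U a1 a2 => hB.exists_subset_of_mem_open a1 a2
  have hS : ∀ n, IsB (B \ S n) ∧ (D.bad (S n)).Countable := by
    intro n
    induction n with
    | zero => exact ⟨hB'.mono fun W h => ⟨h, id⟩, D.bad_count countable_empty⟩
    | succ n ih => exact ⟨(hg n _ ih.1 ih.2).2.1, (hg n _ ih.1 ih.2).2.2.1⟩
  have hG := fun n => hg n _ (hS n).1 (hS n).2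
  have Smono : Monotone S := monotone_nat_of_le_succ fun n => subset_union_left
  have hdis : ∀ n m W, W ∈ g n (S n) → W ∈ g m (S m) → n = m := by
    have : ∀ n m W, n < m → W ∈ g n (S n) → W ∉ g m (S m) := fun n m W h h1 h2 =>
      ((hG m).1 h2).2 (Smono h (Or.inr h1 : W ∈ S (n + 1)))
    intro n m W h1 h2
    rcases lt_trichotomy n m with h | h | h
    · exact absurd h2 (this _ _ _ h h1)
    · exact h
    · exact absurd h1 (this _ _ _ h h2)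
  have hseq : ∀ a ∈ D.A, ∃ w : ℕ → Set Z, Injective w ∧
      ∀ k, w k ∈ B ∧ a ∈ w k ∧ w k ⊆ D.R a ∩ D.c k a := fun a ha => by
    have h1 : ∀ (k : ℕ) (T : Set Z), ∃ W, a ∈ T → IsOpen T →
        W ∈ B ∧ a ∈ W ∧ W ⊆ D.R a ∩ D.c k a ∧ W ⊂ T := fun k T => by
      by_cases h : a ∈ T ∧ IsOpen T
      · obtain ⟨W, w1, w2, w3, w4⟩ := avoid hi hB' (fun W h => hB.isOpen h) (finite_singleton T)
          (⟨⟨(D.hR a ha).1, (D.hc k a).1⟩, h.1⟩ : a ∈ (D.R a ∩ D.c k a) ∩ T)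
          (((D.hR a ha).2.inter (D.hc k a).2).inter h.2)
        exact ⟨W, fun _ _ => ⟨w1, w2, w3.trans inter_subset_left,
          ssubset_iff_subset_ne.2 ⟨w3.trans inter_subset_right, w4⟩⟩⟩
      · exact ⟨∅, fun h1 h2 => absurd ⟨h1, h2⟩ h⟩
    choose f hf using h1
    let w : ℕ → Set Z := fun n => Nat.rec univ (fun n T => f n T) n
    have h2 : ∀ k, a ∈ w k ∧ IsOpen (w k) := by
      intro k
      induction k with
      | zero => exact ⟨mem_univ _, isOpen_univ⟩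
      | succ k ih => exact ⟨(hf k _ ih.1 ih.2).2.1, hB.isOpen (hf k _ ih.1 ih.2).1⟩
    have h3 : StrictAnti w := strictAnti_nat_of_succ_lt fun k => (hf k _ (h2 k).1 (h2 k).2).2.2.2
    exact ⟨fun k => w (k + 1), fun k l h => Nat.succ.inj (h3.injective h), fun k =>
      ⟨(hf k _ (h2 k).1 (h2 k).2).1, (h2 (k + 1)).1, (hf k _ (h2 k).1 (h2 k).2).2.2.1⟩⟩
  choose! w hw1 hw2 using hseq
  let E : ℕ → Set (Set Z) := fun n => g n (S n) ∪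
    {W | ∃ a ∈ D.A, (∀ m, a ∉ D.bad (S m)) ∧ W = w a n}
  have E1 : ∀ n, E n ⊆ B := by
    rintro n W (h | ⟨a, ha, -, rfl⟩)
    · exact ((hG n).1 h).1
    · exact (hw2 a ha n).1
  have E2 : ∀ n m W, W ∈ E n → W ∈ E m → n = m := by
    have k : ∀ n m a, a ∈ D.A → (∀ m, a ∉ D.bad (S m)) → w a m ∉ g n (S n) := fun n m a a1 a2 a3 =>
      a2 (n + 1) ⟨a1, _, Or.inr a3, (hw2 a a1 m).2.1, (hw2 a a1 m).2.2.trans inter_subset_left⟩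
    rintro n m W (h | ⟨a, ha, h1, rfl⟩) (h' | ⟨a', ha', h1', e⟩)
    · exact hdis n m W h h'
    · exact absurd (e ▸ h) (k n m a' ha' h1')
    · exact absurd h' (k m n a ha h1)
    · obtain rfl : a = a' := D.asym a ha a' ha' ((hw2 a' ha' m).2.2 (e ▸ (hw2 a ha n).2.1)).1
        ((hw2 a ha n).2.2 (e.symm ▸ (hw2 a' ha' m).2.1)).1
      exact hw1 a ha e
  have E3 : ∀ y U, y ∈ U → IsOpen U → ∃ n0, ∀ n, n0 ≤ n → ∃ W ∈ E n, y ∈ W ∧ W ⊆ U := by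
    intro y U hy hU
    by_cases hA : y ∈ D.A
    · obtain ⟨n1, h1⟩ := D.loc y hA U hy hU
      by_cases hb : ∃ m, y ∈ D.bad (S m)
      · obtain ⟨m, h2, W, h3, h4⟩ := hb
        refine ⟨max n1 m, fun n hn => ?_⟩
        obtain ⟨W', a1, a2, a3⟩ := (hG n).2.2.2.2 y ⟨h2, W, Smono (le_of_max_le_right hn) h3, h4⟩
        exact ⟨W', Or.inl a1, a2, (a3.trans (inter_subset_inter_right _
          (D.anti _ _ _ (le_of_max_le_left hn)))).trans h1⟩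
      · exact ⟨n1, fun n hn => ⟨w y n, Or.inr ⟨y, hA, fun m h => hb ⟨m, h⟩, rfl⟩, (hw2 y hA n).2.1,
          ((hw2 y hA n).2.2.trans (inter_subset_inter_right _ (D.anti _ _ _ hn))).trans h1⟩⟩
    · obtain ⟨n1, h1⟩ := D.dev y hA U hy hU
      refine ⟨n1, fun n hn => ?_⟩
      obtain ⟨W, a1, a2, z, a3⟩ := (hG n).2.2.2.1 y hA
      have a4 := a3.trans (D.anti _ _ _ hn)
      exact ⟨W, Or.inl a1, a2, a4.trans (h1 z (a4 a2))⟩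
  refine ⟨⋃ n, E (2 * n), B \ ⋃ n, E (2 * n),
    (union_diff_cancel (iUnion_subset fun n => E1 _)).symm, disjoint_sdiff_right, ?_, ?_⟩
  · refine isTopologicalBasis_of_isOpen_of_nhds
      (fun W hW => hB.isOpen (iUnion_subset (fun n => E1 _) hW)) fun y U a1 a2 => ?_
    obtain ⟨n0, h⟩ := E3 y U a1 a2
    obtain ⟨W, w1, w2⟩ := h (2 * n0) (by omega)
    exact ⟨W, mem_iUnion.2 ⟨n0, w1⟩, w2⟩
  · refine isTopologicalBasis_of_isOpen_of_nhds (fun W hW => hB.isOpen hW.1) fun y U a1 a2 => ?_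
    obtain ⟨n0, h⟩ := E3 y U a1 a2
    obtain ⟨W, w1, w2⟩ := h (2 * n0 + 1) (by omega)
    refine ⟨W, ⟨E1 _ w1, fun h' => ?_⟩, w2⟩
    obtain ⟨m, hm⟩ := mem_iUnion.1 h'
    have := E2 _ _ W w1 hm
    omega

end

end Pool.Agent.H8.BP
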