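import Mathlib
import Pool.Agent.H8.BR1
import Pool.Agent.H8.BR4

set_option autoImplicit false
open Set TopologicalSpace Topology Function

namespace Pool.Agent.H8.BP

open Pool.Agent.H8.BR (L b d d_ne d_inj X Ag I Pr N exists_seq ag_update N_eq N_mono first)

def M : Type := X
def Y : Type := X

def NM (x : X) (k : ℕ) : Set M := N x k
instance : TopologicalSpace M := generateFrom {W | ∃ x k, W = NM x k}

lemma basisM : IsTopologicalBasis {W : Set M | ∃ x k, W = NM x k} := by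
  refine ⟨?_, sUnion_eq_univ_iff.2 fun x => ⟨NM x 0, ⟨x, 0, rfl⟩, Ag.rfl⟩, rfl⟩
  rintro _ ⟨x, k, rfl⟩ _ ⟨y, l, rfl⟩ z ⟨h1, h2⟩
  exact ⟨NM z (max k l), ⟨_, _, rfl⟩, Ag.rfl, subset_inter
    ((N_mono z (le_max_left _ _)).trans (N_eq h1).subset)
    ((N_mono z (le_max_right _ _)).trans (N_eq h2).subset)⟩

lemma open_NM (x : X) (k : ℕ) : IsOpen (NM x k) := basisM.isOpen ⟨x, k, rfl⟩

lemma locM {x : M} {U : Set M} (hx : x ∈ U) (hU : IsOpen U) : ∃ k, NM x k ⊆ U := by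
  obtain ⟨_, ⟨y, k, rfl⟩, h1, h2⟩ := basisM.exists_subset_of_mem_open hx hU
  exact ⟨k, (N_eq h1).subset.trans h2⟩

instance : T2Space M := ⟨fun x y hne => by
  obtain ⟨i, -, hi⟩ := first (z := x) (σ := y) hne
  exact ⟨NM x i, NM y i, open_NM _ _, open_NM _ _, Ag.rfl, Ag.rfl,
    Set.disjoint_left.2 fun z h1 h2 => hi ((h1 i (by omega)).symm.trans (h2 i (by omega)))⟩⟩

lemma isolM (x : M) : ¬ IsOpen ({x} : Set M) := fun h => by
  obtain ⟨k, hk⟩ := locM (mem_singleton x) h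
  exact BR.T0 (j := 0) (BR.self_mem_N x k)
    (fun z hz => (hk hz : z = x) ▸ BR.self_mem_V 0 z)

def dataM : Data M where
  A := ∅
  R := fun _ => ∅
  c := fun n z => NM z n
  hc := fun n z => ⟨Ag.rfl, open_NM z n⟩
  anti := fun _ _ z h => N_mono z h
  hR := by simp
  asym := by simp
  dev := fun y _ U h1 h2 => let ⟨k, hk⟩ := locM h1 h2
    ⟨k, fun _ hz => (N_eq hz).symm.subset.trans hk⟩
  loc := by simp
  lin := fun G _ h => ⟨G, subset_rfl, fun y _ => h y, by simp⟩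

def cyl (y : X) (k : ℕ) : Set Y := {w | ∀ i ≤ k, ∀ c ≤ k, w i c = y i c}
def R (σ : X) : Set Y := {w | w = σ ∨ ∃ j, σ j = b ∧ w ∈ cyl (update σ j (d σ)) j}
def BY : Set (Set Y) := {W | (∃ y k, W = cyl y k) ∨ ∃ σ ∈ I, ∃ k, W = R σ ∩ cyl σ k}

lemma self_cyl (y : X) (k : ℕ) : y ∈ cyl y k := fun _ _ _ _ => rfl
lemma cyl_le {x y : X} {k l : ℕ} (h : k ≤ l) (hx : x ∈ cyl y k) : cyl x l ⊆ cyl y k :=
  fun _ hw i hi c hc => (hw i (hi.trans h) c (hc.trans h)).trans (hx i hi c hc)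
lemma cyl_symm {x y : X} {k : ℕ} (hx : x ∈ cyl y k) : y ∈ cyl x k :=
  fun i hi c hc => (hx i hi c hc).symm

lemma R_asym {σ ρ : X} (h1 : σ ∈ R ρ) (h2 : ρ ∈ R σ) : σ = ρ := by
  rcases h1 with h1 | ⟨l, a1, a2⟩
  · exact h1
  rcases h2 with h2 | ⟨j, c1, c2⟩
  · exact h2.symm
  have e1 := a2 l le_rfl 0 (Nat.zero_le _)
  have e2 := c2 j le_rfl 0 (Nat.zero_le _)
  rw [update_self] at e1 e2
  exfalso
  rcases lt_trichotomy j l with h | rfl | h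
  · have := a2 j h.le 0 (Nat.zero_le _)
    rw [update_of_ne h.ne, c1, e2] at this
    simp [b, d] at this
  · rw [c1] at e1; simp [b, d] at e1
  · have := c2 l h.le 0 (Nat.zero_le _)
    rw [update_of_ne h.ne, a1, e1] at this
    simp [b, d] at this

lemma loclY {W : Set Y} (hW : W ∈ BY) {y : X} (hy : y ∈ W) :
    ∃ k, cyl y k ⊆ W ∨ (y ∈ I ∧ R y ∩ cyl y k ⊆ W) := by
  rcases hW with ⟨x, k, rfl⟩ | ⟨σ, hσ, k, rfl⟩
  · exact ⟨k, Or.inl (cyl_le le_rfl hy)⟩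
  · obtain ⟨rfl | ⟨j, a1, a2⟩, h2⟩ := hy
    · exact ⟨k, Or.inr ⟨hσ, subset_rfl⟩⟩
    · exact ⟨max j k, Or.inl (subset_inter
        (fun w hw => Or.inr ⟨j, a1, cyl_le (le_max_left _ _) a2 hw⟩) (cyl_le (le_max_right _ _) h2))⟩

instance : TopologicalSpace Y := generateFrom BY

lemma basisY : IsTopologicalBasis BY := by
  refine ⟨?_, sUnion_eq_univ_iff.2 fun x => ⟨cyl x 0, Or.inl ⟨x, 0, rfl⟩, self_cyl _ _⟩, rfl⟩
  rintro W1 h1 W2 h2 z ⟨z1, z2⟩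
  obtain ⟨k, hk⟩ := loclY h1 z1
  obtain ⟨l, hl⟩ := loclY h2 z2
  have e1 := cyl_le (le_max_left k l) (self_cyl z k)
  have e2 := cyl_le (le_max_right k l) (self_cyl z l)
  by_cases hz : z ∈ I
  · refine ⟨R z ∩ cyl z (max k l), Or.inr ⟨z, hz, _, rfl⟩, ⟨Or.inl rfl, self_cyl _ _⟩,
      fun w hw => ⟨?_, ?_⟩⟩
    · exact hk.elim (fun h => h (e1 hw.2)) (fun h => h.2 ⟨hw.1, e1 hw.2⟩)
    · exact hl.elim (fun h => h (e2 hw.2)) (fun h => h.2 ⟨hw.1, e2 hw.2⟩)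
  · exact ⟨cyl z (max k l), Or.inl ⟨_, _, rfl⟩, self_cyl _ _, subset_inter
      (e1.trans (hk.resolve_right fun h => hz h.1)) (e2.trans (hl.resolve_right fun h => hz h.1))⟩

lemma open_cyl (x : X) (k : ℕ) : IsOpen (cyl x k) := basisY.isOpen (Or.inl ⟨x, k, rfl⟩)

lemma locY {y : Y} {U : Set Y} (hy : y ∈ U) (hU : IsOpen U) :
    ∃ k, cyl y k ⊆ U ∨ (y ∈ I ∧ R y ∩ cyl y k ⊆ U) := by
  obtain ⟨W, h0, h1, h2⟩ := basisY.exists_subset_of_mem_open hy hU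
  obtain ⟨k, hk⟩ := loclY h0 h1
  exact ⟨k, hk.imp (fun h => h.trans h2) (fun h => ⟨h.1, h.2.trans h2⟩)⟩

lemma open_R {σ : X} (h : σ ∈ I) : IsOpen (R σ) := by
  rw [isOpen_iff_forall_mem_open]
  rintro w (rfl | ⟨j, a1, a2⟩)
  · exact ⟨R w ∩ cyl w 0, inter_subset_left, basisY.isOpen (Or.inr ⟨w, h, 0, rfl⟩), Or.inl rfl,
      self_cyl _ _⟩
  · exact ⟨_, fun w hw => Or.inr ⟨j, a1, hw⟩, open_cyl _ _, a2⟩

lemma nec {x y : X} (h : x ≠ y) : ∃ k, ∀ w ∈ cyl x k, w ∉ cyl y k := by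
  have : ∃ i c, x i c ≠ y i c := by
    by_contra hc; push Not at hc; exact h (funext fun i => funext (hc i))
  obtain ⟨i, c, hc⟩ := this
  exact ⟨max i c, fun w h1 h2 => hc ((h1 i (le_max_left _ _) c (le_max_right _ _)).symm.trans
    (h2 i (le_max_left _ _) c (le_max_right _ _)))⟩

instance : T2Space Y := ⟨fun x y hne => by
  obtain ⟨k, hk⟩ := nec hne
  exact ⟨cyl x k, cyl y k, open_cyl _ _, open_cyl _ _, self_cyl _ _, self_cyl _ _,
    Set.disjoint_left.2 hk⟩⟩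

lemma upd_cyl (σ : X) {j k : ℕ} (h : k < j) (w : L) : update σ j w ∈ cyl σ k :=
  fun i hi c _ => by rw [update_of_ne (by omega)]

lemma isolY (y : Y) : ¬ IsOpen ({y} : Set Y) := fun h => by
  obtain ⟨k, hk | ⟨hy, hk⟩⟩ := locY (mem_singleton y) h
  · obtain ⟨w, hw, -⟩ := BR.third (y (k + 1)) b
    have := congrFun (hk (upd_cyl y (lt_add_one k) w)) (k + 1)
    rw [update_self] at this; exact hw this
  · obtain ⟨j, j1, j2⟩ := hy (k + 1)
    have := congrFun (hk ⟨Or.inr ⟨j, j2, self_cyl _ _⟩, upd_cyl y j1 (d y)⟩) j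
    rw [update_self, j2] at this; exact d_ne _ this

lemma cyl_count : {W : Set Y | ∃ y k, W = cyl y k}.Countable := by
  refine (countable_range (fun δ : Σ k : ℕ, (Fin (k + 1) → Fin (k + 1) → Bool) =>
    ({w | ∀ i c : Fin (δ.1 + 1), w i c = δ.2 i c} : Set Y))).mono ?_
  rintro _ ⟨y, k, rfl⟩
  refine ⟨⟨k, fun i c => y i c⟩, Set.ext fun w => ⟨fun h i hi c hc => ?_, fun h i c => ?_⟩⟩
  · exact h ⟨i, Nat.lt_succ_of_le hi⟩ ⟨c, Nat.lt_succ_of_le hc⟩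
  · exact h i (Nat.le_of_lt_succ i.2) c (Nat.le_of_lt_succ c.2)

def dataY : Data Y where
  A := I
  R := R
  c := fun n z => cyl z n
  hc := fun n z => ⟨self_cyl _ _, open_cyl z n⟩
  anti := fun _ _ z h => cyl_le h (self_cyl _ _)
  hR := fun _ h => ⟨Or.inl rfl, open_R h⟩
  asym := fun _ _ _ _ => R_asym
  dev := fun y hy U h1 h2 => let ⟨k, hk⟩ := locY h1 h2
    ⟨k, fun _ hz => (cyl_le le_rfl (cyl_symm hz)).trans (hk.resolve_right fun h => hy h.1)⟩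
  loc := fun y _ U h1 h2 => let ⟨k, hk⟩ := locY h1 h2
    ⟨k, hk.elim (fun h => inter_subset_right.trans h) (fun h => h.2)⟩
  lin := fun G ho h => by
    have h1 : ∀ T : Set Y, ∃ W, (∃ W ∈ G, T ⊆ W) → W ∈ G ∧ T ⊆ W := fun T => by
      by_cases h : ∃ W ∈ G, T ⊆ W
      · exact ⟨h.choose, fun _ => h.choose_spec⟩
      · exact ⟨∅, fun h' => absurd h' h⟩
    choose f hf using h1
    refine ⟨f '' {T | (∃ y k, T = cyl y k) ∧ ∃ W ∈ G, T ⊆ W}, ?_, fun y hy => ?_, ?_⟩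
    · rintro _ ⟨T, hT, rfl⟩
      exact (hf T hT.2).1
    · obtain ⟨W, w1, w2⟩ := h y
      obtain ⟨k, hk⟩ := locY w2 (ho W w1)
      have h2 : ∃ W ∈ G, cyl y k ⊆ W := ⟨W, w1, hk.resolve_right fun h => hy h.1⟩
      exact ⟨_, ⟨_, ⟨⟨y, k, rfl⟩, h2⟩, rfl⟩, (hf _ h2).2 (self_cyl _ _)⟩
    · refine (((cyl_count.mono (sep_subset _ (fun T => ∃ W ∈ G, T ⊆ W))).image f).biUnion
        (t := fun W _ => {a : Y | a ∈ W ∧ W ⊆ R a}) fun W _ => ?_).mono ?_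
      · exact Set.Subsingleton.countable fun a ha a' ha' => R_asym (ha'.2 ha.1) (ha.2 ha'.1)
      · rintro a ⟨-, W, h2, h3⟩
        exact mem_biUnion h2 h3

def e (x : X) : M × Y := (x, x)
def N' (x : X) (k : ℕ) : Set (M × Y) := NM x k ×ˢ cyl x k
def V' (j : ℕ) (σ : X) : Set (M × Y) := (univ ×ˢ R σ ∩ N' σ j) ∪ N' (update σ j (d σ)) j
def Base : Set (Set (M × Y)) :=
  {W | (∃ y k, ¬ Pr y k ∧ W = N' y k) ∨ (∃ j, ∃ σ ∈ I, σ j = b ∧ W = V' j σ) ∨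
    (IsOpen W ∧ ∀ x, e x ∉ W)}

lemma mem_N' {x y : X} {k : ℕ} (h : Ag x y (k + 1)) : e x ∈ N' y k :=
  ⟨h, fun i hi c _ => congrFun (h i (by omega)) c⟩
lemma N'_le {x y : X} {k l : ℕ} (h : k ≤ l) (hx : Ag x y (k + 1)) : N' x l ⊆ N' y k :=
  prod_mono ((N_mono x h).trans (N_eq hx).subset) (cyl_le h (mem_N' hx).2)
lemma open_N' (x : X) (k : ℕ) : IsOpen (N' x k) := (open_NM _ _).prod (open_cyl _ _)
lemma open_V' {σ : X} (h : σ ∈ I) (j : ℕ) : IsOpen (V' j σ) :=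
  ((isOpen_univ.prod (open_R h)).inter (open_N' _ _)).union (open_N' _ _)
lemma self_V' (σ : X) (j : ℕ) : e σ ∈ V' j σ := Or.inl ⟨⟨mem_univ _, Or.inl rfl⟩, mem_N' Ag.rfl⟩
lemma V'_R {σ : X} {j : ℕ} (hj : σ j = b) {p : M × Y} (h : p ∈ V' j σ) : p.2 ∈ R σ :=
  h.elim (fun h => h.1.2) (fun h => Or.inr ⟨j, hj, h.2⟩)
lemma V'_sub (σ : X) {j k : ℕ} (h : k < j) : V' j σ ⊆ N' σ k :=
  union_subset (inter_subset_right.trans (N'_le h.le Ag.rfl))
    (N'_le h.le ((ag_update _ _ _).mono h))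
lemma ag_upd {z σ : X} {i : ℕ} (h1 : Ag z σ i) (h2 : z i = d σ) :
    Ag z (update σ i (d σ)) (i + 1) := by
  intro l hl
  rcases Nat.lt_succ_iff_lt_or_eq.1 hl with h | rfl
  · exact (h1 l h).trans (ag_update σ i _ l h).symm
  · rw [update_self]; exact h2

lemma basis : IsTopologicalBasis Base := by
  refine isTopologicalBasis_of_isOpen_of_nhds ?_ ?_
  · rintro _ (⟨y, k, -, rfl⟩ | ⟨j, σ, h, -, rfl⟩ | h)
    · exact open_N' _ _
    · exact open_V' h _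
    · exact h.1
  rintro ⟨x, y⟩ u hp hu
  by_cases hxy : (x : X) = y
  swap
  · obtain ⟨k, hk⟩ := nec hxy
    exact ⟨u ∩ NM x k ×ˢ cyl y k, Or.inr (Or.inr ⟨hu.inter ((open_NM _ _).prod (open_cyl _ _)),
      fun z hz => hk z (mem_N' hz.2.1).2 hz.2.2⟩), ⟨hp, Ag.rfl, self_cyl _ _⟩, inter_subset_left⟩
  subst hxy
  obtain ⟨u1, u2, o1, o2, m1, m2, hs⟩ := isOpen_prod_iff.1 hu _ _ hp
  obtain ⟨k1, h1⟩ := locM m1 o1
  obtain ⟨k2, h2⟩ := locY m2 o2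
  have a1 : ∀ p ∈ N' x (max k1 k2), p.1 ∈ u1 := fun p hp => h1 (N_mono _ (le_max_left _ _) hp.1)
  have a2 : ∀ p ∈ N' x (max k1 k2), p.2 ∈ cyl x k2 := fun p hp =>
    cyl_le (le_max_right _ _) (self_cyl _ _) hp.2
  by_cases hx : (x : X) ∈ I
  · obtain ⟨j, j1, j2⟩ := hx (max k1 k2 + 1)
    refine ⟨V' j x, Or.inr (Or.inl ⟨j, x, hx, j2, rfl⟩), self_V' x j, fun q hq => hs ⟨?_, ?_⟩⟩
    · exact a1 q (V'_sub x j1 hq)
    · exact h2.elim (fun h => h (a2 q (V'_sub x j1 hq)))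
        (fun h => h.2 ⟨V'_R j2 hq, a2 q (V'_sub x j1 hq)⟩)
  have h3 : N' x (max k1 k2) ⊆ u := fun q hq =>
    hs ⟨a1 q hq, h2.resolve_right (fun h => hx h.1) (a2 q hq)⟩
  by_cases h : Pr x (max k1 k2 + 1)
  · obtain ⟨σ, c1, c2, c3, c4⟩ := h
    exact ⟨V' _ σ, Or.inr (Or.inl ⟨_, σ, c1, c2, rfl⟩), Or.inr (mem_N' (ag_upd c3 c4)),
      ((V'_sub σ (lt_add_one _)).trans (N'_le le_rfl c3.symm)).trans h3⟩
  · exact ⟨N' x _, Or.inl ⟨x, _, h, rfl⟩, mem_N' Ag.rfl, (N'_le (by omega) Ag.rfl).trans h3⟩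

lemma out_R (σ : X) (k : ℕ) : ∃ w ∈ cyl σ k, w ∉ R σ := by
  refine ⟨update σ 0 (update (σ 0) (k + 1) (!σ 0 (k + 1))), fun i _ c hc => ?_, ?_⟩
  · by_cases h : i = 0
    · subst h; rw [update_self, update_of_ne (by omega)]
    · rw [update_of_ne h]
  · rintro (h | ⟨j, a1, a2⟩)
    · have := congrFun (congrFun h 0) (k + 1)
      simp at this
    · by_cases hj : j ≤ k
      · have := a2 j le_rfl 0 (Nat.zero_le _)
        rw [update_self] at this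
        by_cases h : j = 0
        · subst h; rw [update_self, update_of_ne (by omega), a1] at this; simp [b, d] at this
        · rw [update_of_ne h, a1] at this; simp [b, d] at this
      · have := a2 0 (Nat.zero_le _) (k + 1) (by omega)
        rw [update_self, update_self, update_of_ne (by omega)] at this
        simp at this

theorem nonres (B0 B1 : Set (Set (M × Y))) (hu : Base = B0 ∪ B1) (hd : Disjoint B0 B1)
    (b0 : IsTopologicalBasis B0) (b1 : IsTopologicalBasis B1) : False := by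
  obtain ⟨x, hx⟩ := exists_seq (fun n s w =>
      (w = b ∧ ∀ σ ∈ I, Ag s σ n → σ n = b → V' n σ ∈ B0) ∨
      ∃ σ ∈ I, Ag s σ n ∧ σ n = b ∧ V' n σ ∉ B0 ∧ w = d σ) (fun n s => by
    by_cases h : ∃ σ ∈ I, Ag s σ n ∧ σ n = b ∧ V' n σ ∉ B0
    · obtain ⟨σ, h1, h2, h3, h4⟩ := h
      exact ⟨d σ, fun s' hs' => Or.inr ⟨σ, h1, hs'.trans h2, h3, h4, rfl⟩⟩
    · push Not at h
      exact ⟨b, fun s' hs' => Or.inl ⟨rfl, fun σ h1 h2 h3 => h σ h1 (hs'.symm.trans h2) h3⟩⟩)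
  have T0 : ∀ {σ y : X} {k j : ℕ}, σ j = b → Ag σ y (k + 1) → ¬ N' y k ⊆ V' j σ :=
    fun {σ y k j} h1 h2 h3 => by
      obtain ⟨w, w1, w2⟩ := out_R σ k
      exact w2 (V'_R (p := (σ, w)) h1 (h3 (N'_le le_rfl h2 ⟨Ag.rfl, w1⟩)))
  by_cases hI : x ∈ I
  · obtain ⟨i, -, hi⟩ := hI 0
    obtain ⟨W, hW, hxW, hs⟩ := b1.exists_subset_of_mem_open (self_V' x i) (open_V' hI i)
    rcases (hu ▸ Or.inr hW : W ∈ Base) with ⟨y, k, -, rfl⟩ | ⟨j, σ, hσ, hj, rfl⟩ | h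
    · exact T0 hi hxW.1 hs
    · obtain rfl : x = σ := R_asym (V'_R hj hxW) (V'_R hi (hs (self_V' σ j)))
      rcases hx j with h | ⟨ρ, -, -, -, -, h⟩
      · exact Set.disjoint_left.1 hd (h.2 x hσ Ag.rfl hj) hW
      · exact d_ne ρ (h.symm.trans hj)
    · exact h.2 _ hxW
  · simp only [I, mem_setOf_eq, not_forall, not_exists, not_and] at hI
    obtain ⟨k, hk⟩ := hI
    have hp : ∀ i, k ≤ i → ∃ σ ∈ I, Ag x σ i ∧ σ i = b ∧ V' i σ ∉ B0 ∧ x i = d σ := fun i hi =>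
      (hx i).resolve_left fun h => hk i hi h.1
    obtain ⟨σ, hσ, ha, hb, -, hdσ⟩ := hp k le_rfl
    obtain ⟨W, hW, hxW, hs⟩ := b0.exists_subset_of_mem_open (a := e x) (u := V' k σ)
      (Or.inr (mem_N' (ag_upd ha hdσ))) (open_V' hσ k)
    rcases (hu ▸ Or.inl hW : W ∈ Base) with ⟨y, l, hl, rfl⟩ | ⟨j, ρ, hρ, hj, rfl⟩ | h
    · have hxy : Ag x y (l + 1) := hxW.1
      by_cases hlk : k ≤ l
      · obtain ⟨τ, a1, a2, a3, -, a5⟩ := hp l hlk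
        exact hl ⟨τ, a1, a3, (hxy.mono (by omega)).symm.trans a2,
          (hxy l (by omega)).symm.trans a5⟩
      · exact T0 hb ((ha.mono (by omega)).symm.trans hxy) hs
    · by_cases hjk : k ≤ j
      · obtain ⟨τ, -, -, -, c4, c5⟩ := hp j hjk
        rcases hxW with h | h
        · exact hk j hjk ((h.2.1 j (by omega)).trans hj)
        · have h' : x j = update ρ j (d ρ) j := h.1 j (by omega)
          rw [update_self] at h'
          obtain rfl : ρ = τ := d_inj (h'.symm.trans c5)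
          exact c4 hW
      · have a1 : ρ j = σ j := (V'_sub σ (not_le.1 hjk) (hs (self_V' ρ j))).1 j (by omega)
        have a2 : update ρ j (d ρ) j = σ j :=
          (V'_sub σ (not_le.1 hjk) (hs (Or.inr (mem_N' Ag.rfl)))).1 j (by omega)
        rw [update_self] at a2
        exact d_ne ρ (a2.trans (a1.symm.trans hj))
    · exact h.2 _ hxW

end Pool.Agent.H8.BP
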