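import Mathlib

namespace Pool.Agent.H8.Card

open Set Filter
open scoped Cardinal

def Dominating (D : Set (ℕ → ℕ)) : Prop :=
  ∀ g : ℕ → ℕ, ∃ f ∈ D, ∀ᶠ n in atTop, g n ≤ f n

def Reaping (R : Set (Set ℕ)) : Prop :=
  (∀ r ∈ R, r.Infinite) ∧ ∀ A : Set ℕ, ∃ r ∈ R, (r ∩ A).Finite ∨ (r \ A).Finite

/-- the dominating number -/
noncomputable def dNum : Cardinal := sInf {c | ∃ D, Dominating D ∧ #D = c}

/-- the reaping number -/
noncomputable def rNum : Cardinal := sInf {c | ∃ R, Reaping R ∧ #R = c}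

theorem exD : ∃ D, Dominating D ∧ #D = dNum :=
  csInf_mem (s := {c | ∃ D, Dominating D ∧ #D = c})
    ⟨_, univ, fun g => ⟨g, trivial, Eventually.of_forall fun _ => le_rfl⟩, rfl⟩

theorem exR : ∃ R, Reaping R ∧ #R = rNum := by
  refine csInf_mem (s := {c | ∃ R, Reaping R ∧ #R = c})
    ⟨_, {r | r.Infinite}, ⟨fun _ h => h, fun A => ?_⟩, rfl⟩
  by_cases h : A.Infinite
  · exact ⟨A, h, Or.inr (by simp)⟩
  · exact ⟨univ, infinite_univ, Or.inl (by simpa using h)⟩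

theorem notDom {ι : Type} (h : #ι < dNum) (φ : ι → ℕ → ℕ) :
    ∃ g : ℕ → ℕ, ∀ i N, ∃ n ≥ N, φ i n < g n := by
  have : ¬ Dominating (range φ) := fun hD =>
    absurd ((csInf_le' (show #(range φ) ∈ {c | ∃ D, Dominating D ∧ #D = c} from
      ⟨_, hD, rfl⟩)).trans Cardinal.mk_range_le) (not_le.2 h)
  simp only [Dominating, not_forall, not_exists, not_and] at this
  obtain ⟨g, hg⟩ := this
  refine ⟨g, fun i N => ?_⟩
  have := hg _ ⟨i, rfl⟩
  rw [eventually_atTop] at this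
  push Not at this
  exact this N

theorem notReap {ι : Type} (h : #ι < rNum) (r : ι → Set ℕ) (hr : ∀ i, (r i).Infinite) :
    ∃ A : Set ℕ, ∀ i, (r i ∩ A).Infinite ∧ (r i \ A).Infinite := by
  have hnr : ¬ Reaping (range r) := fun hR =>
    absurd ((csInf_le' (show #(range r) ∈ {c | ∃ R, Reaping R ∧ #R = c} from ⟨_, hR, rfl⟩)).trans
      Cardinal.mk_range_le) (not_le.2 h)
  simp only [Reaping, not_and, not_forall, not_exists, not_or] at hnr
  obtain ⟨A, hA⟩ := hnr (by rintro _ ⟨y, rfl⟩; exact hr y)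
  exact ⟨A, fun i => hA _ ⟨i, rfl⟩⟩

def up (g : ℕ → ℕ) (n : ℕ) : ℕ := (Finset.range (n + 1)).sup g + n + 1

theorem le_up (g : ℕ → ℕ) {m n : ℕ} (h : m ≤ n) : g m < up g n := by
  have : g m ≤ (Finset.range (n + 1)).sup g := Finset.le_sup (f := g) (Finset.mem_range.2 (by omega))
  unfold up; omega

theorem lt_up (g : ℕ → ℕ) (n : ℕ) : n < up g n := by unfold up; omega

theorem up_mono (g : ℕ → ℕ) {m n : ℕ} (h : m ≤ n) : up g m ≤ up g n := by
  have : (Finset.range (m + 1)).sup g ≤ (Finset.range (n + 1)).sup g :=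
    Finset.sup_mono (Finset.range_mono (by omega))
  unfold up; omega

theorem aleph0_lt_d : ℵ₀ < dNum := by
  obtain ⟨D, hD, hc⟩ := exD
  rw [← hc]
  by_contra hn
  rw [not_lt, Cardinal.le_aleph0_iff_set_countable] at hn
  obtain ⟨g, hg, -⟩ := hD 0
  obtain ⟨e, rfl⟩ := hn.exists_eq_range ⟨g, hg⟩
  obtain ⟨_, ⟨i, rfl⟩, h⟩ := hD fun n => up (fun j => e j n) n
  obtain ⟨n, h1, h2⟩ := (h.and (eventually_ge_atTop i)).exists
  exact absurd (le_up (fun j => e j n) h2) (not_lt.2 h1)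

theorem aleph0_lt_r : ℵ₀ < rNum := by
  obtain ⟨R, hR, hc⟩ := exR
  rw [← hc]
  by_contra hn
  rw [not_lt, Cardinal.le_aleph0_iff_set_countable] at hn
  obtain ⟨g, hg, -⟩ := hR.2 ∅
  obtain ⟨e, rfl⟩ := hn.exists_eq_range ⟨g, hg⟩
  choose nx hnx hlt using fun i => (hR.1 _ ⟨i, rfl⟩).exists_gt
  obtain ⟨s, hs0⟩ : ∃ s : ℕ → ℕ, ∀ k, s (k + 1) = nx (k / 2).unpair.1 (s k) :=
    ⟨fun k => Nat.rec 0 (fun k x => nx (k / 2).unpair.1 x) k, fun _ => rfl⟩
  have hs : StrictMono s := strictMono_nat_of_lt_succ fun k => by rw [hs0]; exact hlt _ _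
  have hm : ∀ i j b, b < 2 → s (2 * Nat.pair i j + b + 1) ∈ e i := by
    intro i j b hb
    have h2 : (2 * Nat.pair i j + b) / 2 = Nat.pair i j := by omega
    rw [hs0, h2, Nat.unpair_pair]
    exact hnx _ _
  have hi : ∀ i b, Function.Injective fun j => s (2 * Nat.pair i j + b + 1) := by
    intro i b j k h
    have := hs.injective h
    have h2 : Nat.pair i j = Nat.pair i k := by omega
    exact (Nat.pair_eq_pair.1 h2).2
  obtain ⟨_, ⟨i, rfl⟩, h | h⟩ := hR.2 (s '' {k | k % 2 = 0})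
  · refine infinite_of_injective_forall_mem (hi i 1) (fun j => ?_) h
    exact ⟨hm i j 1 (by norm_num), 2 * Nat.pair i j + 1 + 1,
      by simp only [mem_setOf_eq]; omega, rfl⟩
  · refine infinite_of_injective_forall_mem (hi i 0) (fun j => ?_) h
    refine ⟨hm i j 0 (by norm_num), ?_⟩
    rintro ⟨k, hk, hk2⟩
    have := hs.injective hk2
    simp only [mem_setOf_eq] at hk
    omega

/-- fewer than `min d r` functions: a set and its complement contain long intervals -/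
theorem low {ι : Type} (hd : #ι < dNum) (hr : #ι < rNum) (φ : ι → ℕ → ℕ) :
    ∃ A : Set ℕ, ∀ i N, (∃ a ≥ N, Icc a (φ i a) ⊆ A) ∧ ∃ a ≥ N, Icc a (φ i a) ⊆ Aᶜ := by
  classical
  obtain ⟨g, hg⟩ := notDom hd fun i x => up (φ i) (up (φ i) x)
  let m : ℕ → ℕ := fun n => (up g)^[n] 0
  have hm : ∀ n, m (n + 1) = up g (m n) := fun n => Function.iterate_succ_apply' _ _ _
  have hs : StrictMono m := strictMono_nat_of_lt_succ fun k => by rw [hm]; exact lt_up _ _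
  let r : ι → Set ℕ := fun i => {n | ∃ a, m n ≤ a ∧ φ i a < m (n + 1)}
  have hri : ∀ i, (r i).Infinite := by
    intro i
    refine infinite_of_forall_exists_gt fun N => ?_
    obtain ⟨x, hx, hx2⟩ := hg i (m (N + 1))
    have hex : ∃ n, x < m (n + 1) := ⟨x, lt_of_lt_of_le (Nat.lt_succ_self x) (hs.id_le _)⟩
    have h1 := Nat.find_spec hex
    set n := Nat.find hex
    have h2 : N < n := by
      by_contra hc
      have := hs.monotone (show n + 1 ≤ N + 1 by omega)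
      omega
    have h3 : m n ≤ x := by
      have := Nat.find_min hex (show n - 1 < n by omega)
      rw [show n - 1 + 1 = n by omega] at this
      omega
    by_cases h4 : up (φ i) x < m (n + 1)
    · exact ⟨n, ⟨x, h3, (le_up _ le_rfl).trans h4⟩, h2⟩
    · refine ⟨n + 1, ⟨m (n + 1), le_rfl, ?_⟩, by omega⟩
      rw [hm (n + 1)]
      have a1 := le_up (φ i) (not_lt.1 h4)
      have a2 := le_up g h1.le
      omega
  obtain ⟨S, hS⟩ := notReap hr r hri
  refine ⟨{x | ∃ n ∈ S, m n ≤ x ∧ x < m (n + 1)}, fun i N => ⟨?_, ?_⟩⟩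
  · obtain ⟨n, ⟨⟨a, h1, h2⟩, hn⟩, hN⟩ := (hS i).1.exists_gt N
    exact ⟨a, hN.le.trans ((hs.id_le n).trans h1), fun x hx =>
      ⟨n, hn, h1.trans hx.1, lt_of_le_of_lt hx.2 h2⟩⟩
  · obtain ⟨n, ⟨⟨a, h1, h2⟩, hn⟩, hN⟩ := (hS i).2.exists_gt N
    refine ⟨a, hN.le.trans ((hs.id_le n).trans h1), fun x hx => ?_⟩
    rintro ⟨k, hk, h3, h4⟩
    have a1 : m n < m (k + 1) := lt_of_le_of_lt (h1.trans hx.1) h4
    have a2 : m k < m (n + 1) := lt_of_le_of_lt (h3.trans hx.2) h2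
    rw [hs.lt_iff_lt] at a1 a2
    exact hn ((show k = n by omega) ▸ hk)

/-- a family of size `min d r` witnessing the failure of `low` -/
theorem high : ∃ (ι : Type) (φ : ι → ℕ → ℕ), #ι = min dNum rNum ∧ ∀ A : Set ℕ,
    ∃ i N, (∀ a ≥ N, ¬ Icc a (φ i a) ⊆ A) ∨ ∀ a ≥ N, ¬ Icc a (φ i a) ⊆ Aᶜ := by
  rcases le_total dNum rNum with h | h
  · obtain ⟨D, hD, hc⟩ := exD
    refine ⟨D, Subtype.val, by rw [min_eq_left h, hc], fun A => ?_⟩
    have key : ∀ A : Set ℕ, A.Infinite → ∃ i : D, ∃ N, ∀ a ≥ N, ¬ Icc a (i.1 a) ⊆ Aᶜ := by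
      intro A hA
      choose nx hnx hlt using hA.exists_gt
      obtain ⟨f, hf, h⟩ := hD nx
      obtain ⟨N, hN⟩ := eventually_atTop.1 h
      exact ⟨⟨f, hf⟩, N, fun a ha hs => hs ⟨(hlt a).le, hN a ha⟩ (hnx a)⟩
    by_cases hA : A.Infinite
    · obtain ⟨i, N, h⟩ := key A hA
      exact ⟨i, N, Or.inr h⟩
    · obtain ⟨i, N, h⟩ := key Aᶜ (not_infinite.1 hA).infinite_compl
      exact ⟨i, N, Or.inl (by simpa using h)⟩
  · obtain ⟨R, hR, hc⟩ := exR
    choose nx hnx hlt using fun i : R => (hR.1 _ i.2).exists_gt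
    refine ⟨R, nx, by rw [min_eq_right h, hc], fun A => ?_⟩
    obtain ⟨r, hr, h | h⟩ := hR.2 A
    · obtain ⟨N, hN⟩ := h.bddAbove
      refine ⟨⟨r, hr⟩, N, Or.inl fun a ha hs => ?_⟩
      have := hN ⟨hnx ⟨r, hr⟩ a, hs ⟨(hlt _ a).le, le_rfl⟩⟩
      have := hlt ⟨r, hr⟩ a
      omega
    · obtain ⟨N, hN⟩ := h.bddAbove
      refine ⟨⟨r, hr⟩, N, Or.inr fun a ha hs => ?_⟩
      have := hN ⟨hnx ⟨r, hr⟩ a, hs ⟨(hlt _ a).le, le_rfl⟩⟩
      have := hlt ⟨r, hr⟩ a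
      omega

end Pool.Agent.H8.Card
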