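import Mathlib
import Pool.Agent.H8.Card

namespace Pool.Agent.H8.Card

open Set Filter
open scoped Cardinal

/-- `B` is a base of the nonprincipal ultrafilter `U` on `ℕ` -/
def UBase (U : Ultrafilter ℕ) (B : Set (Set ℕ)) : Prop :=
  (∀ n : ℕ, ({n} : Set ℕ) ∉ U) ∧ (∀ b ∈ B, b ∈ U) ∧ ∀ a ∈ U, ∃ b ∈ B, b ⊆ a

/-- the ultrafilter number -/
noncomputable def uNum : Cardinal := sInf {c | ∃ U B, UBase U B ∧ #B = c}

/-- the strong polarized relation for `κ × ω` and two colours -/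
def Polar (κ : Cardinal) : Prop :=
  ∀ c : κ.ord.ToType → ℕ → Fin 2, ∃ (A : Set κ.ord.ToType) (B : Set ℕ),
    #A = κ ∧ B.Infinite ∧ ∃ i, ∀ a ∈ A, ∀ n ∈ B, c a n = i

theorem inf_of_mem {U : Ultrafilter ℕ} (h : ∀ n : ℕ, ({n} : Set ℕ) ∉ U) {a : Set ℕ} (ha : a ∈ U) :
    a.Infinite := by
  intro hf
  obtain ⟨n, -, hn⟩ := (Ultrafilter.finite_biUnion_mem_iff (f := U) (s := fun n => {n}) hf).1
    (by simpa using ha)
  exact h n hn

theorem exU : ∃ U B, UBase U B ∧ #B = uNum := by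
  refine csInf_mem (s := {c | ∃ U B, UBase U B ∧ #B = c})
    ⟨_, hyperfilter ℕ, {a | a ∈ hyperfilter ℕ}, ⟨fun n => ?_, fun _ h => h,
      fun a ha => ⟨a, ha, subset_rfl⟩⟩, rfl⟩
  exact (finite_singleton n).notMem_hyperfilter

theorem r_le_u : rNum ≤ uNum := by
  obtain ⟨U, B, h, hc⟩ := exU
  rw [← hc]
  refine csInf_le' ⟨B, ⟨fun b hb => inf_of_mem h.1 (h.2.1 b hb), fun A => ?_⟩, rfl⟩
  rcases U.mem_or_compl_mem A with hA | hA
  · obtain ⟨b, hb, hs⟩ := h.2.2 _ hA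
    exact ⟨b, hb, Or.inr (by rw [diff_eq_empty.2 hs]; exact finite_empty)⟩
  · obtain ⟨b, hb, hs⟩ := h.2.2 _ hA
    refine ⟨b, hb, Or.inl ?_⟩
    rw [(disjoint_iff_inter_eq_empty).1 (subset_compl_iff_disjoint_right.1 hs)]
    exact finite_empty

theorem split_dir {ι : Type} [Nonempty ι] (h : #ι < uNum) (r : ι → Set ℕ)
    (hr : ∀ i, (r i).Infinite) (hd : ∀ i j, ∃ k, r k ⊆ r i ∧ r k ⊆ r j) :
    ∃ S : Set ℕ, ∀ i, (r i ∩ S).Infinite ∧ (r i \ S).Infinite := by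
  let b : ι × ℕ → Set ℕ := fun p => r p.1 ∩ Ici p.2
  haveI : (⨅ p, 𝓟 (b p)).NeBot := by
    refine iInf_neBot_of_directed (fun p q => ?_) fun p => Set.Nonempty.principal_neBot ?_
    · obtain ⟨k, h1, h2⟩ := hd p.1 q.1
      exact ⟨(k, max p.2 q.2), principal_mono.2 fun n hn => ⟨h1 hn.1, (le_max_left p.2 q.2).trans hn.2⟩,
        principal_mono.2 fun n hn => ⟨h2 hn.1, (le_max_right p.2 q.2).trans hn.2⟩⟩
    · obtain ⟨n, h1, h2⟩ := (hr p.1).exists_gt p.2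
      exact ⟨n, h1, h2.le⟩
  set W := Ultrafilter.of (⨅ p, 𝓟 (b p))
  have hW : ∀ p, b p ∈ W := fun p => Ultrafilter.of_le _ (mem_iInf_of_mem p (mem_principal_self _))
  have hn : ∀ n : ℕ, ({n} : Set ℕ) ∉ W := by
    intro n hn
    obtain ⟨m, h1, h2⟩ := Ultrafilter.nonempty_of_mem
      (inter_mem hn (hW (Classical.arbitrary ι, n + 1)))
    have : n + 1 ≤ m := h2.2
    rw [mem_singleton_iff] at h1
    omega
  have hc : #(range b) < uNum := by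
    refine Cardinal.mk_range_le.trans_lt ?_
    have := aleph0_lt_r.trans_le r_le_u
    rw [Cardinal.mk_prod, Cardinal.lift_id, Cardinal.lift_id, Cardinal.mk_nat]
    exact Cardinal.mul_lt_of_lt this.le h this
  have : ¬ UBase W (range b) := fun hB =>
    absurd (csInf_le' (show #(range b) ∈ {c | ∃ U B, UBase U B ∧ #B = c} from ⟨W, _, hB, rfl⟩))
      (not_le.2 hc)
  simp only [UBase, not_and, not_forall, not_exists] at this
  obtain ⟨S, hS, hb⟩ := this hn (by rintro _ ⟨p, rfl⟩; exact hW p)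
  refine ⟨S, fun i => ⟨inf_of_mem hn (inter_mem (mem_of_superset (hW (i, 0)) inter_subset_left) hS),
    fun hf => ?_⟩⟩
  obtain ⟨N, hN⟩ := hf.bddAbove
  refine hb _ ⟨(i, N + 1), rfl⟩ fun n hn => ?_
  by_contra hc
  have := hN ⟨hn.1, hc⟩
  have : N + 1 ≤ n := hn.2
  omega

/-- fewer than `min d u` functions -/
theorem lowU {ι : Type} (hd : #ι < dNum) (hu : #ι < uNum) (φ₀ : ι → ℕ → ℕ) :
    ∃ A : Set ℕ, ∀ i N, (∃ a ≥ N, Icc a (φ₀ i a) ⊆ A) ∧ ∃ a ≥ N, Icc a (φ₀ i a) ⊆ Aᶜ := by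
  classical
  have hF : ∀ c, ℵ₀ < c → #ι < c → #(Finset ι) < c := by
    intro c h0 h
    cases finite_or_infinite ι
    · exact lt_trans (Cardinal.lt_aleph0_of_finite _) h0
    · rwa [Cardinal.mk_finset_of_infinite]
  let φ : Finset ι → ℕ → ℕ := fun F a => F.sup fun i => φ₀ i a
  obtain ⟨g, hg⟩ := notDom (hF _ aleph0_lt_d hd) fun i x => up (φ i) (up (φ i) x)
  obtain ⟨m, hm⟩ : ∃ m : ℕ → ℕ, ∀ n, m (n + 1) = up g (m n) :=
    ⟨fun n => (up g)^[n] 0, fun n => Function.iterate_succ_apply' _ _ _⟩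
  have hs : StrictMono m := strictMono_nat_of_lt_succ fun k => by rw [hm]; exact lt_up _ _
  let r : Finset ι → Set ℕ := fun i => {n | ∃ a, m n ≤ a ∧ a < m (n + 1) ∧ φ i a < m (n + 1)}
  have hri : ∀ i, (r i).Infinite := by
    intro i
    refine infinite_of_forall_exists_gt fun N => ?_
    obtain ⟨x, hx, hx2⟩ := hg i (m (N + 1))
    have hex : ∃ n, x < m (n + 1) := ⟨x, lt_of_lt_of_le (Nat.lt_succ_self x) (hs.id_le _)⟩
    have h1 := Nat.find_spec hex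
    set n := Nat.find hex
    have h2 : N < n := by
      by_contra hc
      have := hs.monotone (show n + 1 ≤ N + 1 by omega)
      omega
    have h3 : m n ≤ x := by
      have := Nat.find_min hex (show n - 1 < n by omega)
      rw [show n - 1 + 1 = n by omega] at this
      omega
    by_cases h4 : up (φ i) x < m (n + 1)
    · exact ⟨n, ⟨x, h3, h1, (le_up _ le_rfl).trans h4⟩, h2⟩
    · refine ⟨n + 1, ⟨m (n + 1), le_rfl, hs (by omega), ?_⟩, by omega⟩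
      rw [hm (n + 1)]
      have a1 := le_up (φ i) (not_lt.1 h4)
      have a2 := le_up g h1.le
      omega
  have hmono : ∀ F G, F ⊆ G → r G ⊆ r F := fun F G h n ⟨a, h1, h2, h3⟩ =>
    ⟨a, h1, h2, lt_of_le_of_lt (Finset.sup_mono h) h3⟩
  obtain ⟨S, hS⟩ := split_dir (hF _ (aleph0_lt_r.trans_le r_le_u) hu) r hri fun F G =>
    ⟨F ∪ G, hmono _ _ Finset.subset_union_left, hmono _ _ Finset.subset_union_right⟩
  have e : ∀ i a, φ {i} a = φ₀ i a := fun i a => Finset.sup_singleton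
  refine ⟨{x | ∃ n ∈ S, m n ≤ x ∧ x < m (n + 1)}, fun i N => ⟨?_, ?_⟩⟩
  · obtain ⟨n, ⟨⟨a, h1, -, h2⟩, hn⟩, hN⟩ := (hS {i}).1.exists_gt N
    rw [e] at h2
    exact ⟨a, hN.le.trans ((hs.id_le n).trans h1), fun x hx =>
      ⟨n, hn, h1.trans hx.1, lt_of_le_of_lt hx.2 h2⟩⟩
  · obtain ⟨n, ⟨⟨a, h1, -, h2⟩, hn⟩, hN⟩ := (hS {i}).2.exists_gt N
    rw [e] at h2
    refine ⟨a, hN.le.trans ((hs.id_le n).trans h1), fun x hx => ?_⟩
    rintro ⟨k, hk, h3, h4⟩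
    have a1 : m n < m (k + 1) := lt_of_le_of_lt (h1.trans hx.1) h4
    have a2 : m k < m (n + 1) := lt_of_le_of_lt (h3.trans hx.2) h2
    rw [hs.lt_iff_lt] at a1 a2
    exact hn ((show k = n by omega) ▸ hk)

theorem mk_Iic_d {c : Cardinal} (h : ℵ₀ ≤ c) (i : c.ord.ToType) : #(Iic i) < c := by
  rw [← Iio_insert]
  exact Cardinal.mk_insert_le.trans_lt (Cardinal.add_lt_of_lt h (Cardinal.mk_Iio_toType_ord_lt i)
    (Cardinal.one_lt_aleph0.trans_le h))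

theorem enumD : ∃ f : dNum.ord.ToType → ℕ → ℕ, Dominating (range f) := by
  obtain ⟨D, hD, hc⟩ := exD
  obtain ⟨e⟩ : Nonempty (dNum.ord.ToType ≃ D) := Cardinal.eq.1 (by simp [hc])
  refine ⟨fun a => e a, fun g => ?_⟩
  obtain ⟨f, hf, h⟩ := hD g
  exact ⟨f, ⟨e.symm ⟨f, hf⟩, by simp⟩, h⟩

theorem not_polar (h : dNum ≤ uNum) : ¬ Polar dNum := by
  classical
  intro hP
  obtain ⟨f, hf⟩ := enumD
  choose X hX using fun a : dNum.ord.ToType => lowU (ι := Iic a) (mk_Iic_d aleph0_lt_d.le a)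
    ((mk_Iic_d aleph0_lt_d.le a).trans_le h) fun b => f b
  obtain ⟨A, B, hA, hB, i, hi⟩ := hP fun a n => if n ∈ X a then 0 else 1
  choose nx hnx hlt using hB.exists_gt
  obtain ⟨_, ⟨b, rfl⟩, hb⟩ := hf nx
  obtain ⟨N, hN⟩ := eventually_atTop.1 hb
  obtain ⟨a, ha, hab⟩ : ∃ a ∈ A, b ≤ a := by
    by_contra hn
    push Not at hn
    have := (Cardinal.mk_le_mk_of_subset (show A ⊆ Iio b from hn)).trans_lt
      (Cardinal.mk_Iio_toType_ord_lt b)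
    rw [hA] at this
    exact lt_irrefl _ this
  obtain ⟨⟨x, hx, h1⟩, y, hy, h2⟩ := hX a ⟨b, hab⟩ N
  have e1 := hi a ha _ (hnx x)
  have e2 := hi a ha _ (hnx y)
  rw [if_pos (h1 ⟨(hlt x).le, hN x hx⟩)] at e1
  rw [if_neg (h2 ⟨(hlt y).le, hN y hy⟩)] at e2
  exact absurd (e1.trans e2.symm) (by decide)

/-- if `u < d` then `d` is regular -/
theorem d_regular (h : uNum < dNum) : dNum.IsRegular := by
  obtain ⟨U, B, hB, hc⟩ := exU
  have bd : ∀ (ι : Type) (φ : ι → ℕ → ℕ), #ι < dNum → ∃ g : ℕ → ℕ, ∀ i, {n | φ i n < g n} ∈ U := by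
    intro ι φ hι
    choose nx hnx hlt using fun b : B => (inf_of_mem hB.1 (hB.2.1 b b.2)).exists_gt
    obtain ⟨g, hg⟩ := notDom (ι := ι × B) (by
      rw [Cardinal.mk_prod, Cardinal.lift_id, Cardinal.lift_id]
      exact Cardinal.mul_lt_of_lt aleph0_lt_d.le hι (hc ▸ h)) fun p n => φ p.1 (nx p.2 n)
    refine ⟨up g, fun i => ?_⟩
    by_contra hn
    obtain ⟨b, hb, hs⟩ := hB.2.2 _ (Ultrafilter.compl_mem_iff_notMem.2 hn)
    obtain ⟨n, -, h2⟩ := hg (i, ⟨b, hb⟩) 0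
    exact hs (hnx ⟨b, hb⟩ n) (h2.trans (le_up g (hlt _ n).le))
  refine ⟨aleph0_lt_d.le, not_lt.1 fun hlt => ?_⟩
  obtain ⟨f, hf⟩ := enumD
  obtain ⟨s, hs, hcs⟩ := Order.exists_cof_eq dNum.ord.ToType
  rw [Ordinal.cof_toType] at hcs
  choose g hg using fun a : s => bd (Iic a.1) (fun b => f b) (mk_Iic_d aleph0_lt_d.le a.1)
  obtain ⟨G, hG⟩ := bd s g (hcs ▸ hlt)
  obtain ⟨_, ⟨b, rfl⟩, hb⟩ := hf G
  obtain ⟨a, ha, hab⟩ := hs b
  obtain ⟨N, hN⟩ := eventually_atTop.1 hb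
  obtain ⟨n, ⟨h1, h2⟩, h3⟩ :=
    (inf_of_mem hB.1 (inter_mem (hg ⟨a, ha⟩ ⟨b, hab⟩) (hG ⟨a, ha⟩))).exists_gt N
  have := hN n h3.le
  simp only [mem_setOf_eq] at h1 h2
  omega

/-- the splitting number -/
noncomputable def sNum : Cardinal :=
  sInf {c | ∃ S : Set (Set ℕ), (∀ X : Set ℕ, X.Infinite →
    ∃ s ∈ S, (X ∩ s).Infinite ∧ (X \ s).Infinite) ∧ #S = c}

theorem s_le_d : sNum ≤ dNum := by
  obtain ⟨D, hD, hc⟩ := exD
  choose A hA using fun f : D => low (ι := Unit) (by simpa using Cardinal.one_lt_aleph0.trans aleph0_lt_d)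
    (by simpa using Cardinal.one_lt_aleph0.trans aleph0_lt_r) fun _ => f.1
  rw [← hc]
  refine le_trans (b := #(range A)) (csInf_le' ⟨range A, fun X hX => ?_, rfl⟩) Cardinal.mk_range_le
  choose nx hnx hlt using hX.exists_gt
  obtain ⟨f, hf, h⟩ := hD nx
  obtain ⟨N, hN⟩ := eventually_atTop.1 h
  refine ⟨_, ⟨⟨f, hf⟩, rfl⟩, infinite_of_forall_exists_gt fun n => ?_,
    infinite_of_forall_exists_gt fun n => ?_⟩
  · obtain ⟨a, ha, h⟩ := (hA ⟨f, hf⟩ () (N + n)).1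
    have := hlt a
    exact ⟨nx a, ⟨hnx a, h ⟨this.le, hN a (by omega)⟩⟩, by omega⟩
  · obtain ⟨a, ha, h⟩ := (hA ⟨f, hf⟩ () (N + n)).2
    have := hlt a
    exact ⟨nx a, ⟨hnx a, h ⟨this.le, hN a (by omega)⟩⟩, by omega⟩

/-- Aubrey's theorem -/
theorem min_r_u : min dNum rNum = min dNum uNum := by
  refine le_antisymm (min_le_min_left _ r_le_u) (not_lt.1 fun h => ?_)
  obtain ⟨ι, φ, hι, hφ⟩ := high
  rw [← hι, lt_min_iff] at h
  obtain ⟨A, hA⟩ := lowU h.1 h.2 φ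
  obtain ⟨i, N, h | h⟩ := hφ A
  · obtain ⟨a, h1, h2⟩ := (hA i N).1
    exact h a h1 h2
  · obtain ⟨a, h1, h2⟩ := (hA i N).2
    exact h a h1 h2

end Pool.Agent.H8.Card
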