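import Mathlib
import Pool.Agent.H8.Card2

namespace Pool.Agent.H8.Card

open Set Filter
open scoped Cardinal

/-- `I` is a barely independent family over the cardinal `κ` -/
def Barely (κ : Cardinal) (I : Set (Set κ.ord.ToType)) : Prop :=
  I.Infinite ∧ (∀ A ∈ I, #A = κ) ∧
  (∀ 𝒜 ⊆ I, 𝒜.Finite → ∀ h : Set κ.ord.ToType → Bool,
    #{x | ∀ A ∈ 𝒜, (x ∈ A ↔ h A = true)} = κ) ∧
  ∀ 𝒜 ⊆ I, 𝒜.Countable → 𝒜.Infinite → ∀ h : Set κ.ord.ToType → Bool,
    #{x | ∀ A ∈ 𝒜, (x ∈ A ↔ h A = true)} < κ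

theorem no_barely {κ : Cardinal.{0}} (h0 : ℵ₀ < κ.ord.cof)
    (H : ∀ x : κ.ord.ToType → Set ℕ, ∃ (ι : Type) (B : ι → Set ℕ), #ι < κ.ord.cof ∧
      (∀ i, (B i).Infinite) ∧ ∀ a, ∃ i, (B i ∩ x a).Finite ∨ (B i \ x a).Finite) :
    ¬ ∃ I, Barely κ I := by
  rintro ⟨I, h1, -, -, h4⟩
  let A : ℕ → Set κ.ord.ToType := fun n => (h1.natEmbedding _ n).1
  have hA : Function.Injective A := Subtype.val_injective.comp (h1.natEmbedding _).injective
  obtain ⟨ι, B, hι, hB, hx⟩ := H fun a => {n | a ∈ A n}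
  have : ∀ a, ∃ p : ι × Bool × ℕ, ∀ n ∈ B p.1, p.2.2 < n → (a ∈ A n ↔ p.2.1 = true) := by
    intro a
    obtain ⟨i, h | h⟩ := hx a
    · obtain ⟨N, hN⟩ := h.bddAbove
      refine ⟨(i, false, N), fun n hn h => ⟨fun h' => ?_, fun h' => by simp at h'⟩⟩
      exact absurd (hN ⟨hn, h'⟩) (not_le.2 h)
    · obtain ⟨N, hN⟩ := h.bddAbove
      refine ⟨(i, true, N), fun n hn h => ⟨fun _ => rfl, fun _ => by_contra fun h' => ?_⟩⟩
      exact absurd (hN ⟨hn, h'⟩) (not_le.2 h)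
  choose p hp using this
  obtain ⟨⟨i, b, N⟩, hq⟩ := Cardinal.infinite_pigeonhole p
    (by simpa using h0.le.trans (Ordinal.cof_ord_le κ)) (by
      rw [Cardinal.mk_prod, Cardinal.lift_id, Cardinal.lift_id, Cardinal.mk_ord_toType]
      exact Cardinal.mul_lt_of_lt h0.le hι (Cardinal.mk_le_aleph0.trans_lt h0))
  have := h4 (A '' (B i \ Iic N)) (by rintro _ ⟨n, -, rfl⟩; exact (h1.natEmbedding _ n).2)
    ((to_countable _).image _) (((hB i).diff (finite_Iic N)).image hA.injOn) fun _ => b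
  refine absurd (lt_of_le_of_lt (Cardinal.mk_le_mk_of_subset (s := p ⁻¹' {(i, b, N)}) ?_) this) ?_
  · rintro a ha _ ⟨n, hn, rfl⟩
    have := hp a
    rw [mem_singleton_iff.1 ha] at this
    exact this n hn.1 (not_le.1 hn.2)
  · rw [hq]; simp

theorem no_barely_s {κ : Cardinal.{0}} (h0 : ℵ₀ < κ.ord.cof) (h : κ < sNum) :
    ¬ ∃ I, Barely κ I := by
  refine no_barely h0 fun x => ?_
  by_contra hn
  have : sNum ≤ #(range x) := csInf_le' ⟨range x, fun X hX => by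
    by_contra hc
    refine hn ⟨Unit, fun _ => X, by simpa using Cardinal.one_lt_aleph0.trans h0, fun _ => hX,
      fun a => ⟨(), ?_⟩⟩
    by_contra h2
    exact hc ⟨_, ⟨a, rfl⟩, not_or.1 h2⟩, rfl⟩
  exact absurd (this.trans Cardinal.mk_range_le) (by simpa using h)

theorem no_barely_r {κ : Cardinal.{0}} (h : rNum < κ.ord.cof) : ¬ ∃ I, Barely κ I := by
  refine no_barely (aleph0_lt_r.trans h) fun x => ?_
  obtain ⟨R, hR, hc⟩ := exR
  refine ⟨R, Subtype.val, hc ▸ h, fun r => hR.1 _ r.2, fun a => ?_⟩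
  obtain ⟨r, hr, h⟩ := hR.2 (x a)
  exact ⟨⟨r, hr⟩, h⟩

end Pool.Agent.H8.Card
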