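import Mathlib

open MeasureTheory Set Filter Topology Asymptotics Complex

namespace Pool.Agent.H8.Barnes

/-- lattice value -/
noncomputable def lam (α : ℝ) (p : ℕ × ℕ) : ℝ := 1 + p.1 + p.2 * α

def S (α x : ℝ) : Set (ℕ × ℕ) := {p | lam α p ≤ x}

noncomputable def N (α x : ℝ) : ℝ := ((S α x).ncard : ℝ)

noncomputable def P (α x : ℝ) : ℝ := (Ici (1 : ℝ)).indicator (fun x => x ^ 2 / (2 * α)) x

noncomputable def E (α x : ℝ) : ℝ := N α x - P α x

variable {α : ℝ}

theorem one_le_lam (hα : 0 < α) (p : ℕ × ℕ) : 1 ≤ lam α p := by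
  unfold lam
  have : (0 : ℝ) ≤ p.1 := Nat.cast_nonneg _
  have : (0 : ℝ) ≤ p.2 * α := by positivity
  linarith

theorem S_eq (hα : 0 < α) {x : ℝ} (hx : 1 ≤ x) :
    S α x = ↑((Finset.range (⌊(x - 1) / α⌋₊ + 1)).biUnion
      (fun n => (Finset.range (⌊x - 1 - n * α⌋₊ + 1)).image (fun m => (m, n)))) := by
  ext ⟨m, n⟩
  simp only [S, lam, mem_setOf_eq, Finset.coe_biUnion, Finset.coe_range, mem_iUnion, mem_Iio,
    Finset.coe_image, mem_image, Prod.mk.injEq, Nat.lt_succ_iff]
  have hm : (0 : ℝ) ≤ m := Nat.cast_nonneg _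
  constructor
  · intro h
    have hn : (0 : ℝ) ≤ n * α := by positivity
    refine ⟨n, ?_, m, ?_, rfl, rfl⟩
    · apply Nat.le_floor
      rw [le_div_iff₀ hα]; linarith
    · apply Nat.le_floor; linarith
  · rintro ⟨n', h1, m', h2, rfl, rfl⟩
    have h3 : (n' : ℝ) ≤ (x - 1) / α := (Nat.le_floor_iff (div_nonneg (by linarith) hα.le)).1 h1
    rw [le_div_iff₀ hα] at h3
    have h4 := (Nat.le_floor_iff (by linarith)).1 h2
    linarith

theorem S_empty (hα : 0 < α) {x : ℝ} (hx : x < 1) : S α x = ∅ := by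
  ext p
  simp only [S, mem_setOf_eq, mem_empty_iff_false, iff_false, not_le]
  exact hx.trans_le (one_le_lam hα p)

theorem S_finite (hα : 0 < α) (x : ℝ) : (S α x).Finite := by
  rcases lt_or_ge x 1 with h | h
  · rw [S_empty hα h]; exact finite_empty
  · rw [S_eq hα h]; exact Finset.finite_toSet _

theorem N_mono (hα : 0 < α) : Monotone (N α) := by
  intro x y hxy
  unfold N
  exact_mod_cast ncard_le_ncard (fun p hp => le_trans hp hxy) (S_finite hα y)

theorem N_eq (hα : 0 < α) {x : ℝ} (hx : 1 ≤ x) :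
    N α x = ∑ n ∈ Finset.range (⌊(x - 1) / α⌋₊ + 1), ((⌊x - 1 - n * α⌋₊ : ℝ) + 1) := by
  unfold N
  rw [S_eq hα hx, ncard_coe_finset, Finset.card_biUnion]
  · push_cast
    refine Finset.sum_congr rfl fun n _ => ?_
    rw [Finset.card_image_of_injective _ (fun a b h => by simpa using h)]
    simp
  · intro a _ b _ hab
    rw [Function.onFun, Finset.disjoint_left]
    intro p hp hq
    simp only [Finset.mem_image] at hp hq
    obtain ⟨_, _, rfl⟩ := hp
    obtain ⟨_, _, h⟩ := hq
    exact hab (by simpa using (congrArg Prod.snd h).symm)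

theorem sum_lin (y : ℝ) (M : ℕ) :
    ∑ n ∈ Finset.range (M + 1), (y - n * α) = (M + 1) * y - α * M * (M + 1) / 2 := by
  induction M with
  | zero => simp
  | succ k ih => rw [Finset.sum_range_succ, ih]; push_cast; ring

theorem E_bound (hα : 0 < α) : ∃ C : ℝ, 0 < C ∧ ∀ x, 0 ≤ x → |E α x| ≤ C * x := by
  refine ⟨2 / α + α + 2, by positivity, fun x hx0 => ?_⟩
  rcases lt_or_ge x 1 with h | hx
  · have : E α x = 0 := by
      simp [E, N, P, S_empty hα h, indicator_of_notMem (show x ∉ Ici (1 : ℝ) by simpa using h)]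
    rw [this, abs_zero]; positivity
  set M := ⌊(x - 1) / α⌋₊ with hM
  have hy : 0 ≤ (x - 1) / α := div_nonneg (by linarith) hα.le
  have hM1 : (M : ℝ) ≤ (x - 1) / α := Nat.floor_le hy
  have hM2 : (x - 1) / α < M + 1 := Nat.lt_floor_add_one _
  have hM0 : (0 : ℝ) ≤ M := Nat.cast_nonneg _
  have hlo : ∑ n ∈ Finset.range (M + 1), (x - 1 - n * α) ≤ N α x := by
    rw [N_eq hα hx]
    exact Finset.sum_le_sum fun n _ => (Nat.lt_floor_add_one _).le
  have hhi : N α x ≤ ∑ n ∈ Finset.range (M + 1), (x - 1 - n * α) + (M + 1) := by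
    rw [N_eq hα hx]
    have : ((M : ℝ) + 1) = ∑ n ∈ Finset.range (M + 1), (1 : ℝ) := by simp
    rw [this, ← Finset.sum_add_distrib]
    refine Finset.sum_le_sum fun n hn => ?_
    have hn' : (n : ℝ) ≤ M := by exact_mod_cast Nat.lt_succ_iff.1 (Finset.mem_range.1 hn)
    have : (n : ℝ) ≤ (x - 1) / α := hn'.trans hM1
    rw [le_div_iff₀ hα] at this
    have := Nat.floor_le (show 0 ≤ x - 1 - n * α by linarith)
    linarith
  rw [sum_lin] at hlo hhi
  have hP : P α x = x ^ 2 / (2 * α) := by simp [P, indicator_of_mem (show x ∈ Ici (1 : ℝ) from hx)]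
  obtain ⟨θ, hθ⟩ : ∃ θ : ℝ, θ = (x - 1) / α - M := ⟨_, rfl⟩
  have hθ0 : 0 ≤ θ := by linarith
  have hθ1 : θ < 1 := by linarith
  have hxe : x - 1 = α * (M + θ) := by rw [hθ]; field_simp; ring
  have hP2 : x ^ 2 / (2 * α) = α * (M + θ) ^ 2 / 2 + (M + θ) + 1 / (2 * α) := by
    have : x = α * (M + θ) + 1 := by linarith
    rw [this]; field_simp; ring
  have key : (M + 1) * (x - 1) - α * M * (M + 1) / 2 - α * (M + θ) ^ 2 / 2 =
      α * M / 2 + α * (θ - θ ^ 2 / 2) := by rw [hxe]; ring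
  have hαM : α * M ≤ x := by nlinarith
  have hMx : (M : ℝ) + θ ≤ x / α := by
    rw [le_div_iff₀ hα]; nlinarith
  have h1α : 1 / (2 * α) ≤ x / α := by
    rw [div_le_div_iff₀ (by positivity) hα]; nlinarith
  have hθ2 : α * (θ - θ ^ 2 / 2) ≤ α * x := by
    apply mul_le_mul_of_nonneg_left _ hα.le; nlinarith
  have hθ3 : 0 ≤ α * (θ - θ ^ 2 / 2) := by
    apply mul_nonneg hα.le; nlinarith
  have e : (2 / α + α + 2) * x = 2 * (x / α) + α * x + 2 * x := by ring
  have : 0 ≤ x / α := by positivity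
  have : 0 ≤ α * M := by positivity
  have : 0 ≤ 1 / (2 * α) := by positivity
  have : 0 ≤ α * x := by positivity
  unfold E
  rw [hP, hP2, e, abs_le]
  constructor <;> nlinarith

theorem N_meas (hα : 0 < α) : Measurable (N α) := (N_mono hα).measurable

theorem P_meas : Measurable (P α) := by
  unfold P
  exact Measurable.indicator (by fun_prop) measurableSet_Ici

theorem E_meas (hα : 0 < α) : Measurable (E α) := (N_meas hα).sub P_meas

theorem E_zero (hα : 0 < α) {x : ℝ} (h : x < 1) : E α x = 0 := by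
  simp [E, N, P, S_empty hα h, indicator_of_notMem (show x ∉ Ici (1 : ℝ) by simpa using h)]

/-- complex version -/
noncomputable def Ec (α x : ℝ) : ℂ := (E α x : ℂ)

theorem Ec_locInt (hα : 0 < α) : LocallyIntegrableOn (Ec α) (Ioi 0) := by
  obtain ⟨C, hC, hb⟩ := E_bound hα
  have hm : Measurable (Ec α) := Complex.measurable_ofReal.comp (E_meas hα)
  have hc : ContinuousOn (fun x : ℝ => C * x) (Ioi 0) := by fun_prop
  refine (hc.locallyIntegrableOn measurableSet_Ioi).mono hm.aestronglyMeasurable ?_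
  refine Eventually.of_forall fun x => ?_
  simp only [Ec, Complex.norm_real, Real.norm_eq_abs]
  rcases lt_or_ge x 0 with hx | hx
  · rw [E_zero hα (by linarith), abs_zero]; exact abs_nonneg _
  · rw [abs_of_nonneg (by positivity : 0 ≤ C * x)]
    exact hb x hx

theorem Ec_top (hα : 0 < α) : Ec α =O[atTop] (fun x : ℝ => x ^ (-(-1 : ℝ))) := by
  obtain ⟨C, hC, hb⟩ := E_bound hα
  refine IsBigO.of_bound C ?_
  filter_upwards [eventually_ge_atTop 0] with x hx
  simp only [Ec, Complex.norm_real, Real.norm_eq_abs, neg_neg, Real.rpow_one]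
  rw [abs_of_nonneg hx]
  exact hb x hx

theorem Ec_zero (hα : 0 < α) (b : ℝ) : Ec α =O[𝓝[>] 0] (fun x : ℝ => x ^ (-b)) := by
  refine IsBigO.of_bound 0 ?_
  have : Iio (1 : ℝ) ∈ 𝓝[>] (0 : ℝ) := mem_nhdsWithin_of_mem_nhds (Iio_mem_nhds one_pos)
  filter_upwards [this] with x hx
  simp [Ec, E_zero hα hx]

noncomputable def Mel (α : ℝ) (s : ℂ) : ℂ := mellin (Ec α) (-s)

theorem Ec_conv (hα : 0 < α) {s : ℂ} (hs : 1 < s.re) : MellinConvergent (Ec α) (-s) :=
  mellinConvergent_of_isBigO_rpow (Ec_locInt hα) (Ec_top hα) (by simp; linarith)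
    (Ec_zero hα (-s.re - 1)) (by simp)

theorem Mel_diff (hα : 0 < α) {s : ℂ} (hs : 1 < s.re) : DifferentiableAt ℂ (Mel α) s := by
  have := mellin_differentiableAt_of_isBigO_rpow (s := -s) (Ec_locInt hα) (Ec_top hα)
    (by simp; linarith) (Ec_zero hα (-s.re - 1)) (by simp)
  exact this.comp s differentiableAt_id.neg

theorem Mel_conj (s : ℂ) : Mel α ((starRingEnd ℂ) s) = (starRingEnd ℂ) (Mel α s) := by
  unfold Mel mellin
  rw [← integral_conj]
  refine setIntegral_congr_fun measurableSet_Ioi fun x hx => ?_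
  have hx' : 0 < x := hx
  have harg : (x : ℂ).arg ≠ Real.pi := by
    rw [Complex.arg_ofReal_of_nonneg hx'.le]; exact Real.pi_ne_zero.symm
  simp only [smul_eq_mul, map_mul, Ec, Complex.conj_ofReal]
  congr 1
  have := Complex.cpow_conj (x : ℂ) (-s - 1) harg
  rw [Complex.conj_ofReal] at this
  rw [← this]; simp

noncomputable def Z0 (α : ℝ) (s : ℂ) : ℂ := s * Mel α s + s / (2 * α * (s - 2))

theorem Z0_diff (hα : 0 < α) {s : ℂ} (hs : 1 < s.re) (h2 : s ≠ 2) :
    DifferentiableAt ℂ (Z0 α) s := by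
  unfold Z0
  have h := Mel_diff hα hs
  have hα' : (α : ℂ) ≠ 0 := by exact_mod_cast hα.ne'
  have : (2 * α * (s - 2) : ℂ) ≠ 0 := mul_ne_zero (mul_ne_zero two_ne_zero hα') (sub_ne_zero.2 h2)
  fun_prop (disch := assumption)

theorem summable_lam (hα : 0 < α) {σ : ℝ} (hσ : 2 < σ) :
    Summable (fun p : ℕ × ℕ => lam α p ^ (-σ)) := by
  have h1 : Summable (fun n : ℕ => ((n : ℝ) + 1) ^ (-(σ / 2))) := by
    have := (Real.summable_nat_rpow.2 (show -(σ / 2) < -1 by linarith))
    have := (summable_nat_add_iff 1).2 this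
    simpa using this
  have h2 := h1.mul_of_nonneg h1 (fun n => by positivity) (fun n => by positivity)
  set c : ℝ := min 1 α with hc
  have hc0 : 0 < c := lt_min one_pos hα
  refine Summable.of_nonneg_of_le (fun p => ?_) (fun p => ?_) (h2.mul_left (c ^ (-(σ / 2))))
  · have := one_le_lam hα p
    positivity
  · have hl := one_le_lam hα p
    have hm : (0 : ℝ) ≤ p.1 := Nat.cast_nonneg _
    have hn : (0 : ℝ) ≤ p.2 := Nat.cast_nonneg _
    have ha : (p.1 : ℝ) + 1 ≤ lam α p := by unfold lam; nlinarith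
    have hb : c * ((p.2 : ℝ) + 1) ≤ lam α p := by
      unfold lam
      have : c ≤ 1 := min_le_left _ _
      have : c ≤ α := min_le_right _ _
      nlinarith
    have e : lam α p ^ (-σ) = lam α p ^ (-(σ / 2)) * lam α p ^ (-(σ / 2)) := by
      rw [← Real.rpow_add (by linarith)]; ring_nf
    have i1 : lam α p ^ (-(σ / 2)) ≤ ((p.1 : ℝ) + 1) ^ (-(σ / 2)) :=
      Real.rpow_le_rpow_of_nonpos (by positivity) ha (by linarith)
    have i2 : lam α p ^ (-(σ / 2)) ≤ (c * ((p.2 : ℝ) + 1)) ^ (-(σ / 2)) :=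
      Real.rpow_le_rpow_of_nonpos (by positivity) hb (by linarith)
    rw [Real.mul_rpow hc0.le (by positivity)] at i2
    rw [e]
    calc _ ≤ ((p.1 : ℝ) + 1) ^ (-(σ / 2)) * (c ^ (-(σ / 2)) * ((p.2 : ℝ) + 1) ^ (-(σ / 2))) :=
          mul_le_mul i1 i2 (by positivity) (by positivity)
      _ = _ := by ring

/-- single term -/
noncomputable def term (l : ℝ) (s : ℂ) (x : ℝ) : ℂ :=
  (Ici l).indicator (fun x : ℝ => (x : ℂ) ^ (-s - 1)) x

theorem term_int {l : ℝ} (hl : 0 < l) {s : ℂ} (hs : 0 < s.re) : Integrable (term l s) := by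
  unfold term
  rw [integrable_indicator_iff measurableSet_Ici, integrableOn_Ici_iff_integrableOn_Ioi]
  exact integrableOn_Ioi_cpow_of_lt (by simp; linarith) hl

theorem term_integral {l : ℝ} (hl : 0 < l) {s : ℂ} (hs : 0 < s.re) :
    ∫ x, term l s x = (l : ℂ) ^ (-s) / s := by
  unfold term
  have hs0 : s ≠ 0 := by rintro rfl; simp at hs
  rw [integral_indicator measurableSet_Ici, integral_Ici_eq_integral_Ioi,
    integral_Ioi_cpow_of_lt (by simp; linarith) hl]
  have : -s - 1 + 1 = -s := by ring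
  rw [this]; field_simp

theorem term_norm_integral {l : ℝ} (hl : 0 < l) {s : ℂ} (hs : 0 < s.re) :
    ∫ x, ‖term l s x‖ = l ^ (-s.re) / s.re := by
  have : ∀ x, ‖term l s x‖ = (Ici l).indicator (fun x : ℝ => x ^ (-s.re - 1)) x := by
    intro x
    unfold term
    by_cases hx : x ∈ Ici l
    · rw [indicator_of_mem hx, indicator_of_mem hx,
        Complex.norm_cpow_eq_rpow_re_of_pos (hl.trans_le hx)]
      simp
    · simp [indicator_of_notMem hx]
  simp_rw [this]
  rw [integral_indicator measurableSet_Ici, integral_Ici_eq_integral_Ioi,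
    integral_Ioi_rpow_of_lt (by linarith) hl]
  have : -s.re - 1 + 1 = -s.re := by ring
  rw [this]; field_simp

theorem tsum_term (hα : 0 < α) (s : ℂ) (x : ℝ) :
    ∑' p, term (lam α p) s x = (x : ℂ) ^ (-s - 1) * (N α x : ℂ) := by
  rw [tsum_eq_sum (s := (S_finite hα x).toFinset)]
  · rw [Finset.sum_congr rfl (g := fun _ => (x : ℂ) ^ (-s - 1))]
    · rw [Finset.sum_const, N, ncard_eq_toFinset_card _ (S_finite hα x)]
      simp [mul_comm]
    · intro p hp
      have : x ∈ Ici (lam α p) := by simpa [S] using hp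
      simp [term, indicator_of_mem this]
  · intro p hp
    have : x ∉ Ici (lam α p) := by simpa [S] using hp
    simp [term, indicator_of_notMem this]

theorem hasSum_Z0 (hα : 0 < α) {s : ℂ} (hs : 2 < s.re) :
    HasSum (fun p : ℕ × ℕ => (lam α p : ℂ) ^ (-s)) (Z0 α s) := by
  have hl : ∀ p, 0 < lam α p := fun p => one_pos.trans_le (one_le_lam hα p)
  have hs0 : s ≠ 0 := by rintro rfl; norm_num at hs
  have hs2 : s - 2 ≠ 0 := by
    intro h; have := congrArg Complex.re h; simp at this; linarith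
  have hα' : (α : ℂ) ≠ 0 := by exact_mod_cast hα.ne'
  have h1 := hasSum_integral_of_summable_integral_norm (μ := volume)
    (F := fun p => term (lam α p) s) (fun p => term_int (hl p) (by linarith)) (by
      simp_rw [fun p => term_norm_integral (hl p) (show 0 < s.re by linarith)]
      exact (summable_lam hα hs).div_const _)
  simp_rw [fun p => term_integral (hl p) (show 0 < s.re by linarith), tsum_term hα] at h1
  have h2 := h1.mul_left s
  have e1 : ∀ p, s * ((lam α p : ℂ) ^ (-s) / s) = (lam α p : ℂ) ^ (-s) := fun p => by field_simp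
  simp_rw [e1] at h2
  suffices hZ : Z0 α s = s * ∫ x : ℝ, (x : ℂ) ^ (-s - 1) * (N α x : ℂ) by rw [hZ]; exact h2
  have hs' : 0 < (s - 2).re := by simp; linarith
  have hP : ∀ x : ℝ, (x : ℂ) ^ (-s - 1) * (N α x : ℂ) =
      (Ioi (0 : ℝ)).indicator (fun x : ℝ => (x : ℂ) ^ (-s - 1) • Ec α x) x +
        term 1 (s - 2) x / (2 * α) := by
    intro x
    rcases lt_or_ge x 1 with hx | hx
    · have : x ∉ Ici (1 : ℝ) := by simpa using hx
      have h0 : Ec α x = 0 := by simp [Ec, E_zero hα hx]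
      by_cases hx0 : x ∈ Ioi (0 : ℝ)
      · simp [term, indicator_of_notMem this, N, S_empty hα hx, indicator_of_mem hx0, h0]
      · simp [term, indicator_of_notMem this, N, S_empty hα hx, indicator_of_notMem hx0]
    · have h1 : x ∈ Ici (1 : ℝ) := hx
      have h0 : x ∈ Ioi (0 : ℝ) := one_pos.trans_le hx
      have hx0 : (x : ℂ) ≠ 0 := by exact_mod_cast (ne_of_gt h0)
      simp only [term, indicator_of_mem h1, indicator_of_mem h0, Ec, E, P, smul_eq_mul]
      have : (x : ℂ) ^ (-(s - 2) - 1) = (x : ℂ) ^ (-s - 1) * x ^ 2 := by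
        rw [show -(s - 2) - 1 = (-s - 1) + 2 by ring, Complex.cpow_add _ _ hx0]; simp
      rw [this]; push_cast; field_simp; ring
  simp_rw [hP]
  have hc : IntegrableOn (fun x : ℝ => (x : ℂ) ^ (-s - 1) • Ec α x) (Ioi 0) :=
    Ec_conv hα (by linarith)
  rw [integral_add ((integrable_indicator_iff measurableSet_Ioi).2 hc)
    ((term_int one_pos hs').div_const _), integral_indicator measurableSet_Ioi, integral_div,
    term_integral one_pos hs']
  simp only [Z0, Mel, mellin]
  simp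
  field_simp

end Pool.Agent.H8.Barnes
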