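import Mathlib

open MeasureTheory Set FourierTransform
open scoped SchwartzMap ContDiff Manifold

namespace Pool.Agent.H8

/-- Duality form of the Plancherel inequality. -/
theorem dual_ineq (g : ℝ → ℂ) (hg : Integrable g) (hF : Integrable (fun ξ => ‖𝓕 g ξ‖ ^ 2))
    (ψ : ℝ → ℝ) (hψ : ContDiff ℝ ∞ ψ) (hc : HasCompactSupport ψ) (h0 : ∀ u, 0 ≤ ψ u)
    (h1 : ∀ u, ψ u ≤ 1) (A : ℝ) (hA : 0 < A) (hlow : ∀ u, ψ u ≠ 0 → A ≤ -(g u).re) :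
    A ^ 2 * ∫ u, ψ u ≤ ∫ ξ, ‖𝓕 g ξ‖ ^ 2 := by
  have hc' : HasCompactSupport (fun u => (ψ u : ℂ)) := hc.comp_left (g := fun x : ℝ => (x : ℂ)) (by simp)
  have hψ' : ContDiff ℝ ∞ (fun u => (ψ u : ℂ)) := Complex.ofRealCLM.contDiff.comp hψ
  set Ψ : 𝓢(ℝ, ℂ) := hc'.toSchwartzMap hψ' with hΨ
  have hΨu : ∀ u, Ψ u = (ψ u : ℂ) := fun u => rfl
  set Φ : 𝓢(ℝ, ℂ) := 𝓕⁻ Ψ with hΦ
  have hΦΨ : 𝓕 Φ = Ψ := FourierTransform.fourier_fourierInv_eq Ψ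
  have hmul : ∫ ξ, 𝓕 g ξ * Φ ξ = ∫ x, g x * Ψ x := by
    have := VectorFourier.integral_bilin_fourierIntegral_eq_flip (ContinuousLinearMap.mul ℂ ℂ)
      (L := innerₗ ℝ) (μ := volume) (ν := volume)
      Real.continuous_fourierChar continuous_inner hg Φ.integrable
    rw [← hΦΨ, SchwartzMap.fourier_coe]
    simpa using! this
  have hpl : ∫ ξ, ‖Φ ξ‖ ^ 2 = ∫ x, ‖Ψ x‖ ^ 2 := by
    rw [← hΦΨ]; exact (SchwartzMap.integral_norm_sq_fourier Φ).symm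
  have hψi : Integrable ψ := hψ.continuous.integrable_of_hasCompactSupport hc
  have hΦ2 : Integrable (fun ξ => ‖Φ ξ‖ ^ 2) := by
    have := (Φ.memLp 2 (volume : Measure ℝ)).integrable_norm_pow (by norm_num)
    simpa using this
  have hΨ2 : ∫ x, ‖Ψ x‖ ^ 2 ≤ ∫ x, ψ x := by
    apply integral_mono_of_nonneg (Filter.Eventually.of_forall fun x => by positivity) hψi
    refine Filter.Eventually.of_forall fun x => ?_
    simp only [hΨu, Complex.norm_real, Real.norm_eq_abs, sq_abs]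
    nlinarith [h0 x, h1 x]
  have hgΨ : Integrable (fun x => g x * Ψ x) := by
    refine Integrable.mono' hg.norm (hg.1.mul Ψ.continuous.aestronglyMeasurable) ?_
    refine Filter.Eventually.of_forall fun x => ?_
    rw [norm_mul, hΨu, Complex.norm_real, Real.norm_eq_abs, abs_of_nonneg (h0 x)]
    nlinarith [norm_nonneg (g x), h1 x, h0 x]
  have hlo : A * ∫ u, ψ u ≤ ‖∫ x, g x * Ψ x‖ := by
    have e1 : (∫ x, g x * Ψ x).re = ∫ x, (g x * Ψ x).re := by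
      simpa using (integral_re hgΨ).symm
    have e2 : A * ∫ u, ψ u ≤ ∫ x, -(g x * Ψ x).re := by
      rw [← integral_const_mul]
      apply integral_mono (hψi.const_mul A) (hgΨ.re.neg)
      intro x
      simp only [hΨu, Pi.neg_apply, RCLike.re_to_complex, Complex.mul_re, Complex.ofReal_re,
        Complex.ofReal_im, mul_zero, sub_zero]
      by_cases hx : ψ x = 0
      · simp [hx]
      · nlinarith [hlow x hx, h0 x]
    rw [integral_neg, ← e1] at e2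
    have := Complex.abs_re_le_norm (∫ x, g x * Ψ x)
    have := neg_abs_le (∫ x, g x * Ψ x).re
    linarith
  have hup : ‖∫ ξ, 𝓕 g ξ * Φ ξ‖ ≤
      ∫ ξ, ((1 / (2 * A)) * ‖𝓕 g ξ‖ ^ 2 + (A / 2) * ‖Φ ξ‖ ^ 2) := by
    apply norm_integral_le_of_norm_le ((hF.const_mul _).add (hΦ2.const_mul _))
    refine Filter.Eventually.of_forall fun x => ?_
    rw [norm_mul]
    have : 0 ≤ (1 / (2 * A)) * (‖𝓕 g x‖ - A * ‖Φ x‖) ^ 2 := by positivity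
    have e : (1 / (2 * A)) * (‖𝓕 g x‖ - A * ‖Φ x‖) ^ 2 =
      (1 / (2 * A)) * ‖𝓕 g x‖ ^ 2 + (A / 2) * ‖Φ x‖ ^ 2 - ‖𝓕 g x‖ * ‖Φ x‖ := by
      field_simp; ring
    simp only [Pi.add_apply]
    linarith
  rw [integral_add (hF.const_mul _) (hΦ2.const_mul _), integral_const_mul, integral_const_mul,
    hmul, hpl] at hup
  have h3 : A * ∫ u, ψ u ≤ 1 / (2 * A) * (∫ ξ, ‖𝓕 g ξ‖ ^ 2) + A / 2 * ∫ u, ψ u := by
    have := mul_le_mul_of_nonneg_left hΨ2 (show 0 ≤ A / 2 by positivity)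
    linarith
  have h4 : A / 2 * ∫ u, ψ u ≤ 1 / (2 * A) * (∫ ξ, ‖𝓕 g ξ‖ ^ 2) := by linarith
  have h5 := mul_le_mul_of_nonneg_left h4 (show 0 ≤ 2 * A by positivity)
  have e5 : 2 * A * (1 / (2 * A) * (∫ ξ, ‖𝓕 g ξ‖ ^ 2)) = ∫ ξ, ‖𝓕 g ξ‖ ^ 2 := by field_simp
  rw [e5] at h5
  nlinarith

/-- Set form: `K` closed inside `U` open and bounded. -/
theorem exists_cutoff (U K : Set ℝ) (hU : IsOpen U) (hK : IsClosed K) (hKU : K ⊆ U) (R : ℝ)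
    (hR : U ⊆ Icc (-R) R) :
    ∃ ψ : ℝ → ℝ, ContDiff ℝ ∞ ψ ∧ HasCompactSupport ψ ∧ (∀ u, 0 ≤ ψ u) ∧ (∀ u, ψ u ≤ 1) ∧
      (∀ u, ψ u ≠ 0 → u ∈ U) ∧ ∀ u ∈ K, ψ u = 1 := by
  obtain ⟨f, hf, hr, hs, h1⟩ :=
    exists_contMDiff_support_eq_eq_one_iff (n := ⊤) 𝓘(ℝ, ℝ) hU hK hKU
  refine ⟨f, hf.contDiff, ?_, fun u => (hr ⟨u, rfl⟩).1, fun u => (hr ⟨u, rfl⟩).2, ?_,
    fun u hu => (h1 u).1 hu⟩
  · exact HasCompactSupport.of_support_subset_isCompact isCompact_Icc (hs ▸ hR)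
  · intro u hu
    rw [← hs]; exact hu

end Pool.Agent.H8
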