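import Mathlib
import Pool.Agent.H8.BarnesA
import Pool.Agent.H8.Dual

open MeasureTheory Set Filter Topology Asymptotics Complex FourierTransform

namespace Pool.Agent.H8.Barnes

theorem dyadic (W H : ℝ → ℝ) (hW : Continuous W) (hW0 : ∀ t, 0 ≤ W t) (hH : Continuous H)
    (hH0 : ∀ t, 0 ≤ H t) (C τ : ℝ) (hC : 0 ≤ C) (hτ : 1 ≤ τ)
    (hb : ∀ ρ, τ ≤ ρ → ∫ t in Icc (-ρ ^ 4) (ρ ^ 4), W t ≤ C * ρ ^ 5)
    (h1 : ∀ t, H t ≤ 4096 / τ ^ 8 * W t) (h2 : ∀ t, t ≠ 0 → H t ≤ 16 / t ^ 2 * W t) :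
    Integrable H ∧ ∫ t, H t ≤ 8192 * C / τ ^ 3 := by
  set F : ℕ → ℝ → ℝ := fun j => (Icc (-(2 ^ j * τ) ^ 4) ((2 ^ j * τ) ^ 4)).indicator
    (fun t => 4096 / (2 ^ j * τ) ^ 8 * W t) with hF
  have hFi : ∀ j, Integrable (F j) := fun j =>
    (integrable_indicator_iff measurableSet_Icc).2
      ((hW.const_mul _).continuousOn.integrableOn_compact isCompact_Icc)
  have hF0 : ∀ j t, 0 ≤ F j t := fun j t =>
    indicator_nonneg (fun t _ => mul_nonneg (by positivity) (hW0 t)) t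
  have hFb : ∀ j, ∫ t, F j t ≤ 4096 * C / τ ^ 3 * (1 / 2) ^ j := by
    intro j
    have h2j : (1 : ℝ) ≤ 2 ^ j := one_le_pow₀ (by norm_num)
    have hρ : τ ≤ 2 ^ j * τ := by nlinarith
    simp only [hF]
    rw [integral_indicator measurableSet_Icc, integral_const_mul]
    calc _ ≤ 4096 / (2 ^ j * τ) ^ 8 * (C * (2 ^ j * τ) ^ 5) :=
          mul_le_mul_of_nonneg_left (hb _ hρ) (by positivity)
      _ = 4096 * C / τ ^ 3 * (1 / 2) ^ j * (1 / (2 ^ j) ^ 2) := by
          rw [one_div_pow]; field_simp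
      _ ≤ 4096 * C / τ ^ 3 * (1 / 2) ^ j * 1 := by
          apply mul_le_mul_of_nonneg_left _ (by positivity)
          rw [div_le_one (by positivity)]; nlinarith
      _ = _ := mul_one _
  have hpt : ∀ t, ∃ j, H t ≤ F j t := by
    intro t
    have hex : ∃ j : ℕ, |t| ≤ (2 ^ j * τ) ^ 4 := by
      obtain ⟨j, hj⟩ := pow_unbounded_of_one_lt |t| (show (1 : ℝ) < 2 by norm_num)
      refine ⟨j, hj.le.trans ?_⟩
      have h2j : (1 : ℝ) ≤ 2 ^ j := one_le_pow₀ (by norm_num)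
      have : (2 : ℝ) ^ j ≤ 2 ^ j * τ := by nlinarith
      exact this.trans (le_self_pow₀ (h2j.trans this) (by norm_num))
    classical
    refine ⟨Nat.find hex, ?_⟩
    have hs := Nat.find_spec hex
    simp only [hF]
    rw [indicator_of_mem (by rw [mem_Icc, ← abs_le]; exact hs)]
    rcases Nat.eq_zero_or_pos (Nat.find hex) with h0 | h0
    · rw [h0]; simpa using h1 t
    · obtain ⟨k, hk⟩ : ∃ k, Nat.find hex = k + 1 := ⟨_, (Nat.succ_pred_eq_of_pos h0).symm⟩
      have hm := Nat.find_min hex (show k < Nat.find hex by omega)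
      push Not at hm
      have hp : 0 < ((2 : ℝ) ^ k * τ) ^ 4 := by positivity
      have ht : t ≠ 0 := by
        rintro rfl; rw [abs_zero] at hm; linarith
      refine (h2 t ht).trans (mul_le_mul_of_nonneg_right ?_ (hW0 t))
      rw [hk, div_le_div_iff₀ (by positivity) (by positivity)]
      have : (((2 : ℝ) ^ k * τ) ^ 4) ^ 2 ≤ t ^ 2 := by
        rw [← sq_abs t]; exact pow_le_pow_left₀ hp.le hm.le 2
      have e : ((2 : ℝ) ^ (k + 1) * τ) ^ 8 = 256 * (((2 : ℝ) ^ k * τ) ^ 4) ^ 2 := by ring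
      rw [e]; linarith
  have hsum : Summable (fun j : ℕ => 4096 * C / τ ^ 3 * (1 / 2 : ℝ) ^ j) :=
    summable_geometric_two.mul_left _
  have hl : ∫⁻ t, ENNReal.ofReal (H t) ≤ ENNReal.ofReal (8192 * C / τ ^ 3) := by
    calc ∫⁻ t, ENNReal.ofReal (H t) ≤ ∫⁻ t, ∑' j, ENNReal.ofReal (F j t) := by
          refine lintegral_mono fun t => ?_
          obtain ⟨j, hj⟩ := hpt t
          exact (ENNReal.ofReal_le_ofReal hj).trans (ENNReal.le_tsum j)
      _ = ∑' j, ∫⁻ t, ENNReal.ofReal (F j t) :=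
          lintegral_tsum fun j => (hFi j).1.aemeasurable.ennreal_ofReal
      _ ≤ ∑' j, ENNReal.ofReal (4096 * C / τ ^ 3 * (1 / 2 : ℝ) ^ j) := by
          refine ENNReal.tsum_le_tsum fun j => ?_
          rw [← ofReal_integral_eq_lintegral_ofReal (hFi j) (Eventually.of_forall (hF0 j))]
          exact ENNReal.ofReal_le_ofReal (hFb j)
      _ = ENNReal.ofReal (∑' j : ℕ, 4096 * C / τ ^ 3 * (1 / 2 : ℝ) ^ j) :=
          (ENNReal.ofReal_tsum_of_nonneg (fun j => by positivity) hsum).symm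
      _ = _ := by
          rw [tsum_mul_left, tsum_geometric_two]; congr 1; ring
  have hI : Integrable H := by
    refine ⟨hH.aestronglyMeasurable, ?_⟩
    rw [hasFiniteIntegral_iff_ofReal (Eventually.of_forall hH0)]
    exact hl.trans_lt ENNReal.ofReal_lt_top
  refine ⟨hI, ?_⟩
  rw [← ofReal_integral_eq_lintegral_ofReal hI (Eventually.of_forall hH0)] at hl
  exact (ENNReal.ofReal_le_ofReal_iff (by positivity)).1 hl

variable {α : ℝ}

/-- the point `5/4 + i t` -/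
noncomputable def sl (t : ℝ) : ℂ := ((5 / 4 : ℝ) : ℂ) + t * I

@[simp] theorem sl_re (t : ℝ) : (sl t).re = 5 / 4 := by simp [sl]
@[simp] theorem sl_im (t : ℝ) : (sl t).im = t := by simp [sl]

theorem sl_neg (t : ℝ) : sl (-t) = (starRingEnd ℂ) (sl t) := by
  apply Complex.ext <;> simp

theorem sl_cont : Continuous sl := by unfold sl; fun_prop

noncomputable def W (α t : ℝ) : ℝ := ‖sl t * Mel α (sl t)‖ ^ 2

theorem Mel_sl_cont (hα : 0 < α) : Continuous (fun t => Mel α (sl t)) :=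
  continuous_iff_continuousAt.2 fun t =>
    ContinuousAt.comp (f := sl) (Mel_diff hα (by simp; norm_num)).continuousAt sl_cont.continuousAt

theorem W_cont (hα : 0 < α) : Continuous (W α) :=
  ((sl_cont.mul (Mel_sl_cont hα)).norm).pow 2

theorem W_neg (t : ℝ) : W α (-t) = W α t := by
  unfold W
  rw [sl_neg, Mel_conj, ← map_mul, Complex.norm_conj]

theorem sl_sub_two (t : ℝ) : 3 / 4 ≤ ‖sl t - 2‖ := by
  have := Complex.abs_re_le_norm (sl t - 2)
  simp at this
  norm_num at this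
  exact this

theorem Z0_sl_cont (hα : 0 < α) : Continuous (fun t => Z0 α (sl t)) :=
  continuous_iff_continuousAt.2 fun t =>
    ContinuousAt.comp (f := sl) (Z0_diff hα (by simp; norm_num) (by
      intro h; have := sl_sub_two t; rw [h] at this; norm_num at this)).continuousAt
      sl_cont.continuousAt

theorem W_le (hα : 0 < α) (t : ℝ) : W α t ≤ 2 * ‖Z0 α (sl t)‖ ^ 2 + 8 / α ^ 2 := by
  have h1 := sl_sub_two t
  have h2 : ‖sl t / (2 * α * (sl t - 2))‖ ≤ 2 / α := by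
    rw [norm_div, norm_mul, norm_mul, Complex.norm_real, Real.norm_eq_abs, abs_of_pos hα,
      Complex.norm_two, div_le_div_iff₀ (by positivity) hα]
    have : ‖sl t‖ ≤ ‖sl t - 2‖ + 2 := by
      have := norm_add_le (sl t - 2) 2
      simpa using this
    nlinarith
  have h3 : sl t * Mel α (sl t) = Z0 α (sl t) - sl t / (2 * α * (sl t - 2)) := by
    unfold Z0; ring
  unfold W
  rw [h3]
  have h4 := norm_sub_le (Z0 α (sl t)) (sl t / (2 * α * (sl t - 2)))
  have h5 : ‖Z0 α (sl t) - sl t / (2 * α * (sl t - 2))‖ ^ 2 ≤ (‖Z0 α (sl t)‖ + 2 / α) ^ 2 :=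
    pow_le_pow_left₀ (norm_nonneg _) (by linarith) 2
  have e : 8 / α ^ 2 = 2 * (2 / α) ^ 2 := by field_simp; norm_num
  rw [e]
  nlinarith [sq_nonneg (‖Z0 α (sl t)‖ - 2 / α)]

theorem W_bound (hα : 0 < α)
    (h : (fun T : ℝ => ∫ t in (1 : ℝ)..T, ‖Z0 α (sl t)‖ ^ 2) =O[atTop]
      (fun T : ℝ => T ^ (1 + 1 / 4 : ℝ))) :
    ∃ C τ₀ : ℝ, 0 ≤ C ∧ ∀ ρ, τ₀ ≤ ρ → ∫ t in Icc (-ρ ^ 4) (ρ ^ 4), W α t ≤ C * ρ ^ 5 := by
  obtain ⟨c, hc0, hc⟩ := h.exists_pos
  obtain ⟨T₀, hT⟩ := eventually_atTop.1 hc.bound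
  have hW := W_cont hα
  have hW0 : ∀ t, 0 ≤ W α t := fun t => by unfold W; positivity
  set c1 := ∫ t in (0 : ℝ)..1, W α t with hc1
  have hc10 : 0 ≤ c1 := intervalIntegral.integral_nonneg zero_le_one fun t _ => hW0 t
  refine ⟨2 * (c1 + 2 * c + 8 / α ^ 2), max 1 T₀, by positivity, fun ρ hρ => ?_⟩
  have hρ1 : 1 ≤ ρ := (le_max_left _ _).trans hρ
  have hρ4 : ρ ≤ ρ ^ 4 := le_self_pow₀ hρ1 (by norm_num)
  have hρ5 : ρ ^ 4 ≤ ρ ^ 5 := pow_le_pow_right₀ hρ1 (by norm_num)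
  have hT' := hT (ρ ^ 4) ((le_max_right _ _).trans (hρ.trans hρ4))
  have e1 : ((ρ ^ 4 : ℝ)) ^ (1 + 1 / 4 : ℝ) = ρ ^ 5 := by
    rw [← Real.rpow_natCast, ← Real.rpow_mul (by linarith), ← Real.rpow_natCast]
    norm_num
  rw [e1, Real.norm_eq_abs, Real.norm_eq_abs, abs_of_nonneg (by positivity : 0 ≤ ρ ^ 5)] at hT'
  have hT2 := (le_abs_self _).trans hT'
  have hZ := Z0_sl_cont hα
  have i1 : ∫ t in (1 : ℝ)..ρ ^ 4, W α t ≤
      ∫ t in (1 : ℝ)..ρ ^ 4, (2 * ‖Z0 α (sl t)‖ ^ 2 + 8 / α ^ 2) :=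
    intervalIntegral.integral_mono_on (by linarith) (hW.intervalIntegrable _ _)
      (Continuous.intervalIntegrable (by fun_prop) _ _) fun t _ => W_le hα t
  rw [intervalIntegral.integral_add (Continuous.intervalIntegrable (by fun_prop) _ _)
    (Continuous.intervalIntegrable (by fun_prop) _ _), intervalIntegral.integral_const_mul,
    intervalIntegral.integral_const, smul_eq_mul] at i1
  have i2 : ∫ t in (0 : ℝ)..ρ ^ 4, W α t = c1 + ∫ t in (1 : ℝ)..ρ ^ 4, W α t :=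
    (intervalIntegral.integral_add_adjacent_intervals (hW.intervalIntegrable _ _)
      (hW.intervalIntegrable _ _)).symm
  have i3 : ∫ t in (-ρ ^ 4)..0, W α t = ∫ t in (0 : ℝ)..ρ ^ 4, W α t := by
    have := intervalIntegral.integral_comp_neg (a := 0) (b := ρ ^ 4) (W α)
    simp only [W_neg, neg_zero] at this
    exact this.symm
  rw [integral_Icc_eq_integral_Ioc, ← intervalIntegral.integral_of_le (by linarith),
    ← intervalIntegral.integral_add_adjacent_intervals (b := 0) (hW.intervalIntegrable _ _)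
      (hW.intervalIntegrable _ _), i3, i2]
  have h8 : 0 ≤ 8 / α ^ 2 := by positivity
  have h15 : 1 ≤ ρ ^ 5 := by linarith
  nlinarith

/-- the differenced function -/
noncomputable def g (α h u : ℝ) : ℂ :=
  Real.exp (-(5 / 4) * u) • (Ec α (Real.exp h * Real.exp u) - Ec α (Real.exp u))

theorem fourier_g (hα : 0 < α) (h t : ℝ) :
    𝓕 (g α h) (t / (2 * Real.pi)) = (Complex.exp (sl t * h) - 1) * Mel α (sl t) := by
  have hl : 0 < Real.exp h := Real.exp_pos h
  have c0 := Ec_conv hα (s := sl t) (by simp; norm_num)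
  have c1 := (MellinConvergent.comp_mul_left hl).2 c0
  have e1 := (hasMellin_sub c1 c0).2
  rw [mellin_comp_mul_left _ _ hl, ← mellin_comp_inv, mellin_eq_fourier] at e1
  simp only [sl_re, sl_im, ← Real.exp_neg, neg_neg] at e1
  have : g α h = fun u => Real.exp (-(5 / 4) * u) •
    (Ec α (Real.exp h * Real.exp u) - Ec α (Real.exp u)) := rfl
  rw [this, e1]
  unfold Mel
  have : ((Real.exp h : ℝ) : ℂ) ^ (sl t) = Complex.exp (sl t * h) := by
    rw [Complex.ofReal_exp, Complex.cpow_def_of_ne_zero (Complex.exp_ne_zero _),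
      Complex.log_exp (by simp [Real.pi_pos]) (by simp [Real.pi_pos.le]), mul_comm]
  rw [this, smul_eq_mul]; ring

theorem g_int (hα : 0 < α) {h : ℝ} (h0 : 0 ≤ h) (h1 : h ≤ 1) : Integrable (g α h) := by
  obtain ⟨C, hC, hb⟩ := E_bound hα
  have hm : Measurable (Ec α) := Complex.measurable_ofReal.comp (E_meas hα)
  have hgm : Measurable (g α h) := by
    have m1 : Measurable (fun u : ℝ => Real.exp (-(5 / 4) * u)) := by fun_prop
    have m2 : Measurable (fun u : ℝ => Real.exp h * Real.exp u) := by fun_prop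
    exact m1.smul ((hm.comp m2).sub (hm.comp Real.measurable_exp))
  have hi : Integrable ((Ioi (-2 : ℝ)).indicator
      (fun u => C * (Real.exp h + 1) * Real.exp (-(1 / 4) * u))) :=
    (integrable_indicator_iff measurableSet_Ioi).2
      ((exp_neg_integrableOn_Ioi (-2) (show (0 : ℝ) < 1 / 4 by norm_num)).const_mul _)
  refine hi.mono' hgm.aestronglyMeasurable (Eventually.of_forall fun u => ?_)
  by_cases hu : u ∈ Ioi (-2 : ℝ)
  · rw [indicator_of_mem hu]
    unfold g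
    rw [norm_smul, Real.norm_eq_abs, abs_of_pos (Real.exp_pos _)]
    have b1 := hb (Real.exp h * Real.exp u) (by positivity)
    have b2 := hb (Real.exp u) (by positivity)
    have b3 : ‖Ec α (Real.exp h * Real.exp u) - Ec α (Real.exp u)‖ ≤
        C * (Real.exp h + 1) * Real.exp u := by
      refine (norm_sub_le _ _).trans ?_
      simp only [Ec, Complex.norm_real, Real.norm_eq_abs]
      linarith
    calc _ ≤ Real.exp (-(5 / 4) * u) * (C * (Real.exp h + 1) * Real.exp u) :=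
          mul_le_mul_of_nonneg_left b3 (Real.exp_pos _).le
      _ = C * (Real.exp h + 1) * (Real.exp (-(5 / 4) * u) * Real.exp u) := by ring
      _ = _ := by rw [← Real.exp_add]; congr 2; ring
  · rw [indicator_of_notMem hu]
    have hu' : u ≤ -2 := by simpa using hu
    have a1 : Real.exp h * Real.exp u < 1 := by
      rw [← Real.exp_add, Real.exp_lt_one_iff]; linarith
    have a2 : Real.exp u < 1 := by rw [Real.exp_lt_one_iff]; linarith
    simp [g, Ec, E_zero hα a1, E_zero hα a2]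

theorem exp_bounds {h : ℝ} (h0 : 0 ≤ h) (h1 : h ≤ 1 / 2) (t : ℝ) :
    ‖Complex.exp (sl t * h) - 1‖ ≤ 4 ∧ ‖Complex.exp (sl t * h) - 1‖ ≤ 64 * h * ‖sl t‖ := by
  have e1 : Complex.exp (sl t * h) = (Real.exp (5 / 4 * h) : ℝ) * Complex.exp (I * (t * h : ℝ)) := by
    rw [Complex.ofReal_exp, ← Complex.exp_add]; congr 1; unfold sl; push_cast; ring
  have b1 : |Real.exp (5 / 4 * h) - 1| ≤ 2 * |5 / 4 * h| :=
    Real.abs_exp_sub_one_le (by rw [abs_of_nonneg (by positivity)]; linarith)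
  rw [abs_of_nonneg (by positivity : 0 ≤ 5 / 4 * h)] at b1
  have b2 := (abs_le.1 b1).2
  have hn : ‖Complex.exp (I * (t * h : ℝ))‖ = 1 := by
    rw [mul_comm]; exact Complex.norm_exp_ofReal_mul_I _
  have hep := Real.exp_pos (5 / 4 * h)
  constructor
  · refine (norm_sub_le _ _).trans ?_
    rw [e1, norm_mul, hn, Complex.norm_real, Real.norm_eq_abs, abs_of_pos hep, norm_one]
    linarith
  · have e2 : Complex.exp (sl t * h) - 1 =
        (Real.exp (5 / 4 * h) : ℝ) * (Complex.exp (I * (t * h : ℝ)) - 1) +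
          ((Real.exp (5 / 4 * h) - 1 : ℝ) : ℂ) := by
      rw [e1]; push_cast; ring
    have b3 : ‖Complex.exp (I * (t * h : ℝ)) - 1‖ ≤ ‖t * h‖ :=
      Real.norm_exp_I_mul_ofReal_sub_one_le
    have b4 : |t| ≤ ‖sl t‖ := by simpa using Complex.abs_im_le_norm (sl t)
    have b5 : 5 / 4 ≤ ‖sl t‖ := by
      have := Complex.abs_re_le_norm (sl t)
      rw [sl_re, abs_of_pos (by norm_num)] at this; exact this
    rw [e2]
    refine (norm_add_le _ _).trans ?_
    rw [norm_mul, Complex.norm_real, Complex.norm_real, Real.norm_eq_abs, Real.norm_eq_abs,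
      abs_of_pos hep]
    rw [Real.norm_eq_abs, abs_mul, abs_of_nonneg h0] at b3
    have b6 : |t| * h ≤ ‖sl t‖ * h := mul_le_mul_of_nonneg_right b4 h0
    have b7 : Real.exp (5 / 4 * h) * ‖Complex.exp (I * (t * h : ℝ)) - 1‖ ≤ 3 * (‖sl t‖ * h) :=
      mul_le_mul (by linarith) (b3.trans b6) (norm_nonneg _) (by norm_num)
    nlinarith

theorem g_upper (hα : 0 < α) (C τ : ℝ) (hC : 0 ≤ C) (hτ : 2 ≤ τ)
    (hb : ∀ ρ, τ ≤ ρ → ∫ t in Icc (-ρ ^ 4) (ρ ^ 4), W α t ≤ C * ρ ^ 5) :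
    Integrable (fun ξ => ‖𝓕 (g α (1 / τ ^ 4)) ξ‖ ^ 2) ∧
      ∫ ξ, ‖𝓕 (g α (1 / τ ^ 4)) ξ‖ ^ 2 ≤ 8192 * C / τ ^ 3 := by
  set h := 1 / τ ^ 4 with hh
  have h0 : 0 ≤ h := by positivity
  have h1 : h ≤ 1 / 2 := by
    rw [hh, div_le_div_iff₀ (by positivity) (by norm_num)]
    have := le_self_pow₀ (show 1 ≤ τ by linarith) (show 4 ≠ 0 by norm_num)
    linarith
  set H : ℝ → ℝ := fun t => ‖(Complex.exp (sl t * h) - 1) * Mel α (sl t)‖ ^ 2 with hH
  have hM := Mel_sl_cont hα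
  have hs := sl_cont
  obtain ⟨i1, i2⟩ := dyadic (W α) H (W_cont hα) (fun t => by unfold W; positivity)
    (by simp only [hH]; fun_prop) (fun t => by positivity) C τ hC (by linarith) hb
    (fun t => by
      simp only [hH, W, norm_mul, mul_pow]
      have := pow_le_pow_left₀ (norm_nonneg _) (exp_bounds h0 h1 t).2 2
      have e : 4096 / τ ^ 8 * (‖sl t‖ ^ 2 * ‖Mel α (sl t)‖ ^ 2) =
          (64 * h * ‖sl t‖) ^ 2 * ‖Mel α (sl t)‖ ^ 2 := by
        rw [hh]; field_simp; ring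
      rw [e]
      exact mul_le_mul_of_nonneg_right this (by positivity))
    (fun t ht => by
      simp only [hH, W, norm_mul, mul_pow]
      have := pow_le_pow_left₀ (norm_nonneg _) (exp_bounds h0 h1 t).1 2
      have b4 : |t| ≤ ‖sl t‖ := by simpa using Complex.abs_im_le_norm (sl t)
      have b5 : t ^ 2 ≤ ‖sl t‖ ^ 2 := by
        rw [← sq_abs t]; exact pow_le_pow_left₀ (abs_nonneg _) b4 2
      rw [← mul_assoc]
      refine mul_le_mul_of_nonneg_right (this.trans ?_) (by positivity)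
      rw [div_mul_eq_mul_div, le_div_iff₀ (by positivity)]
      nlinarith)
  have hpi : 2 * Real.pi ≠ 0 := by positivity
  have e : (fun ξ => ‖𝓕 (g α h) ξ‖ ^ 2) = fun ξ => H (2 * Real.pi * ξ) := by
    funext ξ
    simp only [hH]
    rw [← fourier_g hα, mul_div_cancel_left₀ _ hpi]
  rw [e]
  refine ⟨i1.comp_mul_left' hpi, ?_⟩
  rw [Measure.integral_comp_mul_left, smul_eq_mul]
  have : |(2 * Real.pi)⁻¹| ≤ 1 := by
    rw [abs_of_pos (by positivity)]
    apply inv_le_one_of_one_le₀; linarith [Real.pi_gt_three]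
  have h3 : 0 ≤ ∫ t, H t := integral_nonneg fun t => by simp only [hH]; positivity
  nlinarith

end Pool.Agent.H8.Barnes
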