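import Mathlib
import Pool.Agent.H8.BarnesB

open MeasureTheory Set Filter Topology Asymptotics Complex FourierTransform

namespace Pool.Agent.H8.Barnes

variable {α : ℝ}

theorem psi_lower (ψ : ℝ → ℝ) (hc : Continuous ψ) (hi : Integrable ψ) (h0 : ∀ u, 0 ≤ ψ u)
    (Q : ℝ) (hQ : 0 < Q) (n : ℕ) (hn : 1 ≤ n)
    (h1 : ∀ k : ℕ, n ≤ k → k < 2 * n → ∀ u, (k : ℝ) + 1 / 4 ≤ Q * Real.exp u →
      Q * Real.exp u ≤ k + 1 / 2 → ψ u = 1) : 1 / 8 ≤ ∫ u, ψ u := by
  have hn' : (1 : ℝ) ≤ n := by exact_mod_cast hn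
  set a : ℕ → ℝ := fun k => Real.log (((n : ℝ) + k) / Q) with ha
  have hsum := intervalIntegral.sum_integral_adjacent_intervals (f := ψ) (μ := volume) (a := a)
    (n := n) (fun k _ => hc.intervalIntegrable _ _)
  have hmono : ∀ x y : ℝ, 0 < x → x ≤ y → Real.log (x / Q) ≤ Real.log (y / Q) := fun x y hx hxy =>
    Real.log_le_log (by positivity) (by gcongr)
  have hk : ∀ k ∈ Finset.range n, 1 / (8 * (n : ℝ)) ≤ ∫ u in a k..a (k + 1), ψ u := by
    intro k hk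
    have hkn : k < n := Finset.mem_range.1 hk
    have hk0 : (0 : ℝ) ≤ k := Nat.cast_nonneg _
    have hkn' : (k : ℝ) + 1 ≤ n := by exact_mod_cast hkn
    set b := Real.log (((n : ℝ) + k + 1 / 4) / Q) with hb
    set c := Real.log (((n : ℝ) + k + 1 / 2) / Q) with hc'
    have hbc : b ≤ c := hmono _ _ (by linarith) (by linarith)
    have i1 : ∫ u in b..c, ψ u ≤ ∫ u in a k..a (k + 1), ψ u :=
      intervalIntegral.integral_mono_interval (hmono _ _ (by linarith) (by linarith)) hbc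
        (hmono _ _ (by linarith) (by push_cast; linarith)) (Eventually.of_forall h0)
        (hc.intervalIntegrable _ _)
    have i2 : ∫ u in b..c, ψ u = ∫ u in b..c, (1 : ℝ) := by
      refine intervalIntegral.integral_congr fun u hu => ?_
      rw [uIcc_of_le hbc] at hu
      have u1 := Real.exp_le_exp.2 hu.1
      have u2 := Real.exp_le_exp.2 hu.2
      rw [hb, Real.exp_log (by positivity), div_le_iff₀ hQ] at u1
      rw [hc', Real.exp_log (by positivity), le_div_iff₀ hQ] at u2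
      exact h1 (n + k) (by omega) (by omega) u (by push_cast; linarith) (by push_cast; linarith)
    rw [i2, intervalIntegral.integral_const, smul_eq_mul, mul_one] at i1
    refine le_trans ?_ i1
    rw [hb, hc', ← Real.log_div (by positivity) (by positivity)]
    refine le_trans ?_ (Real.one_sub_inv_le_log_of_pos (by positivity))
    have : 1 - ((((n : ℝ) + k + 1 / 2) / Q) / (((n : ℝ) + k + 1 / 4) / Q))⁻¹ =
        1 / (4 * ((n : ℝ) + k + 1 / 2)) := by
      field_simp; ring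
    rw [this]
    apply one_div_le_one_div_of_le (by positivity); linarith
  have h2 := Finset.sum_le_sum hk
  rw [hsum, Finset.sum_const, Finset.card_range, nsmul_eq_mul] at h2
  have e : (n : ℝ) * (1 / (8 * n)) = 1 / 8 := by field_simp
  rw [e] at h2
  refine h2.trans ?_
  rw [intervalIntegral.integral_of_le (hmono _ _ (by simp; linarith) (by simp))]
  exact setIntegral_le_integral hi (Eventually.of_forall h0)

theorem gap (hα : 0 < α) (q : ℕ) (p : ℤ) (hq : 32 ≤ α * q) (hq1 : 1 ≤ q)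
    (hp : |α - p / q| < 1 / (q : ℝ) ^ 13) (k : ℕ) (hk2 : k < 2 * q ^ 12) (x y : ℝ) (hxy : x ≤ y)
    (hx : (k : ℝ) + 1 / 8 < q * x) (hy : q * y < k + 3 / 4) : S α y = S α x := by
  have hQ : (1 : ℝ) ≤ q := by exact_mod_cast hq1
  have hQ0 : (0 : ℝ) < q := by linarith
  refine Subset.antisymm ?_ (fun r hr => le_trans hr hxy)
  rintro ⟨m, n⟩ hr
  simp only [S, lam, mem_setOf_eq] at hr ⊢
  by_contra hc
  push Not at hc
  have hk2' : (k : ℝ) + 1 ≤ 2 * (q : ℝ) ^ 12 := by exact_mod_cast hk2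
  have hm : (0 : ℝ) ≤ m := Nat.cast_nonneg _
  have hn : (0 : ℝ) ≤ n := Nat.cast_nonneg _
  have h1 : q * (n * α) ≤ 2 * (q : ℝ) ^ 12 := by nlinarith
  have h2 : 32 * (n : ℝ) ≤ 2 * (q : ℝ) ^ 12 := by nlinarith
  set δ := α - p / q with hδ
  have h3 : |n * q * δ| ≤ 1 / 16 := by
    rw [abs_mul, abs_of_nonneg (by positivity : (0 : ℝ) ≤ n * q)]
    calc _ ≤ n * q * (1 / (q : ℝ) ^ 13) := mul_le_mul_of_nonneg_left hp.le (by positivity)
      _ = n / (q : ℝ) ^ 12 := by field_simp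
      _ ≤ _ := by rw [div_le_iff₀ (by positivity)]; linarith
  have h4 : q * (1 + m + n * α) = ((q * (1 + m) + n * p : ℤ) : ℝ) + n * q * δ := by
    rw [hδ]; push_cast; field_simp; ring
  set z : ℤ := q * (1 + m) + n * p
  have h5 : q * x < q * (1 + m + n * α) := mul_lt_mul_of_pos_left hc hQ0
  have h6 : q * (1 + m + n * α) ≤ q * y := mul_le_mul_of_nonneg_left hr hQ0.le
  obtain ⟨h7, h8⟩ := abs_le.1 h3
  have h9 : ((k : ℤ) : ℝ) < z := by push_cast; linarith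
  have h10 : (z : ℝ) < ((k + 1 : ℤ) : ℝ) := by push_cast; linarith
  have := Int.cast_lt.1 h9
  have := Int.cast_lt.1 h10
  omega

theorem g_lower (hα : 0 < α) (q : ℕ) (p : ℤ) (hq : 32 ≤ α * q) (hq1 : 1 ≤ q)
    (hp : |α - p / q| < 1 / (q : ℝ) ^ 13) (k : ℕ) (hk1 : q ^ 12 ≤ k) (hk2 : k < 2 * q ^ 12) (u : ℝ)
    (hx : (k : ℝ) + 1 / 8 < q * Real.exp u) (hy : q * Real.exp u < k + 5 / 8) :
    (q : ℝ) ^ 8 * (1 / (3 * (q : ℝ) ^ 3) ^ 4) / α ≤ -(g α (1 / (3 * (q : ℝ) ^ 3) ^ 4) u).re := by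
  have hQ : (1 : ℝ) ≤ q := by exact_mod_cast hq1
  have hQ0 : (0 : ℝ) < q := by linarith
  set h : ℝ := 1 / (3 * (q : ℝ) ^ 3) ^ 4 with hh
  have hQ12 : (1 : ℝ) ≤ (q : ℝ) ^ 12 := one_le_pow₀ hQ
  have hhe : h * (q : ℝ) ^ 12 = 1 / 81 := by rw [hh]; field_simp; norm_num
  have h0 : 0 < h := by positivity
  have h1 : h ≤ 1 := by nlinarith
  have hk1' : (q : ℝ) ^ 12 ≤ k := by exact_mod_cast hk1
  have hk2' : (k : ℝ) + 1 ≤ 2 * (q : ℝ) ^ 12 := by exact_mod_cast hk2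
  set x := Real.exp u with hxd
  have hx0 : 0 < x := Real.exp_pos u
  have hl1 : 1 ≤ Real.exp h := Real.one_le_exp h0.le
  have hl2 : Real.exp h ≤ 1 + 2 * h := by
    have := Real.abs_exp_sub_one_le (x := h) (by rw [abs_of_pos h0]; exact h1)
    rw [abs_of_pos h0] at this
    linarith [(abs_le.1 this).2]
  have hS : S α (Real.exp h * x) = S α x := by
    refine gap hα q p hq hq1 hp k hk2 x _ (by nlinarith) hx ?_
    have a1 : q * (Real.exp h * x) ≤ (1 + 2 * h) * (q * x) := by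
      rw [show q * (Real.exp h * x) = Real.exp h * (q * x) by ring]
      exact mul_le_mul_of_nonneg_right hl2 (by positivity)
    have a2 : h * (q * x) ≤ h * (2 * (q : ℝ) ^ 12) :=
      mul_le_mul_of_nonneg_left (by linarith) h0.le
    nlinarith
  have hxY : (q : ℝ) ^ 11 ≤ x := by
    have : q * (q : ℝ) ^ 11 ≤ q * x := by
      rw [show q * (q : ℝ) ^ 11 = (q : ℝ) ^ 12 by ring]; linarith
    exact le_of_mul_le_mul_left this hQ0
  have hx1 : 1 ≤ x := (one_le_pow₀ hQ).trans hxY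
  have hx2 : 1 ≤ Real.exp h * x := by nlinarith
  have hre : (g α h u).re = Real.exp (-(5 / 4) * u) *
      (x ^ 2 / (2 * α) - (Real.exp h * x) ^ 2 / (2 * α)) := by
    simp only [g, Ec, E, N, P, ← hxd, hS, indicator_of_mem (show x ∈ Ici (1 : ℝ) from hx1),
      indicator_of_mem (show Real.exp h * x ∈ Ici (1 : ℝ) from hx2), ← Complex.ofReal_sub,
      Complex.real_smul, ← Complex.ofReal_mul, Complex.ofReal_re]
    ring
  have hv : (q : ℝ) ^ 8 ≤ Real.exp (-(5 / 4) * u) * x ^ 2 := by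
    have e : Real.exp (-(5 / 4) * u) * x ^ 2 = Real.exp (3 / 4 * u) := by
      rw [hxd, ← Real.exp_nat_mul, ← Real.exp_add]; congr 1; push_cast; ring
    rw [e]
    have e2 : Real.exp (3 / 4 * u) ^ 4 = x ^ 3 := by
      rw [hxd, ← Real.exp_nat_mul, ← Real.exp_nat_mul]; congr 1; push_cast; ring
    refine le_of_pow_le_pow_left₀ (n := 4) (by norm_num) (Real.exp_pos _).le ?_
    rw [e2]
    calc ((q : ℝ) ^ 8) ^ 4 = (q : ℝ) ^ 32 := by ring
      _ ≤ (q : ℝ) ^ 33 := pow_le_pow_right₀ hQ (by norm_num)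
      _ = ((q : ℝ) ^ 11) ^ 3 := by ring
      _ ≤ _ := pow_le_pow_left₀ (by positivity) hxY 3
  have hl3 : 2 * h ≤ Real.exp h ^ 2 - 1 := by
    have := Real.add_one_le_exp h
    nlinarith
  rw [hre]
  have e : -(Real.exp (-(5 / 4) * u) * (x ^ 2 / (2 * α) - (Real.exp h * x) ^ 2 / (2 * α))) =
      (Real.exp (-(5 / 4) * u) * x ^ 2) * ((Real.exp h ^ 2 - 1) / 2) / α := by
    field_simp; ring
  rw [e]
  gcongr
  linarith

theorem not_bigO (hα : 0 < α) (hL : Liouville α) :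
    ¬ (fun T : ℝ => ∫ t in (1 : ℝ)..T, ‖Z0 α (sl t)‖ ^ 2) =O[atTop]
      (fun T : ℝ => T ^ (1 + 1 / 4 : ℝ)) := by
  intro hO
  obtain ⟨C, τ₀, hC, hb⟩ := W_bound hα hO
  have hev : ∀ᶠ q : ℕ in atTop, max (max 1 τ₀) (max (32 / α) (8 * 243 * 8192 * C * α ^ 2 + 1)) ≤
    (q : ℝ) := tendsto_natCast_atTop_atTop.eventually_ge_atTop _
  obtain ⟨q, ⟨p, -, hp⟩, hq⟩ := ((hL.frequently_exists_num 13).and_eventually hev).exists
  simp only [max_le_iff] at hq
  obtain ⟨⟨hQ, hq2⟩, hq3, hq4⟩ := hq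
  have hq1 : 1 ≤ q := by exact_mod_cast hQ
  have hQ0 : (0 : ℝ) < q := by linarith
  rw [div_le_iff₀' hα] at hq3
  set τ : ℝ := 3 * (q : ℝ) ^ 3 with hτ
  have hq3' : (q : ℝ) ≤ (q : ℝ) ^ 3 := le_self_pow₀ hQ (by norm_num)
  obtain ⟨i1, i2⟩ := g_upper hα C τ hC (by linarith) (fun ρ hρ => hb ρ (by linarith))
  set n := q ^ 12 with hn
  have hn1 : 1 ≤ n := Nat.one_le_pow _ _ hq1
  have hcont : Continuous (fun u => (q : ℝ) * Real.exp u) := by fun_prop
  obtain ⟨ψ, hψ, hc, h0, h1, hU, hK⟩ := exists_cutoff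
    (⋃ k ∈ Finset.Ico n (2 * n), (fun u => (q : ℝ) * Real.exp u) ⁻¹'
      Ioo ((k : ℝ) + 1 / 8) (k + 5 / 8))
    (⋃ k ∈ Finset.Ico n (2 * n), (fun u => (q : ℝ) * Real.exp u) ⁻¹'
      Icc ((k : ℝ) + 1 / 4) (k + 1 / 2))
    (isOpen_biUnion fun k _ => isOpen_Ioo.preimage hcont)
    (isClosed_biUnion_finset fun k _ => isClosed_Icc.preimage hcont)
    (iUnion₂_mono fun k _ u hu => ⟨by linarith [hu.1], by linarith [hu.2]⟩) (2 * n) (by
      intro u hu
      simp only [mem_iUnion, Finset.mem_Ico, mem_preimage, mem_Ioo] at hu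
      obtain ⟨k, ⟨k1, k2⟩, u1, u2⟩ := hu
      have k1' : (n : ℝ) ≤ k := by exact_mod_cast k1
      have k2' : (k : ℝ) + 1 ≤ 2 * n := by exact_mod_cast k2
      have hqn : (q : ℝ) ≤ n := by
        rw [hn]; push_cast; exact le_self_pow₀ hQ (by norm_num)
      have := Real.add_one_le_exp u
      have he := Real.exp_pos u
      have a1 : 1 ≤ Real.exp u := by
        by_contra hh; push Not at hh; nlinarith
      have a2 : 0 ≤ u := Real.one_le_exp_iff.1 a1
      constructor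
      · linarith
      · nlinarith)
  have hτ1 : 1 ≤ τ := by linarith
  have hh1 : 1 / τ ^ 4 ≤ 1 := by
    rw [div_le_one (by positivity)]; exact one_le_pow₀ hτ1
  have hd := dual_ineq (g α (1 / τ ^ 4)) (g_int hα (by positivity) hh1) i1 ψ hψ hc h0 h1
    ((q : ℝ) ^ 8 * (1 / τ ^ 4) / α) (by positivity) (by
      intro u hu
      have := hU u hu
      simp only [mem_iUnion, Finset.mem_Ico, mem_preimage, mem_Ioo] at this
      obtain ⟨k, ⟨k1, k2⟩, u1, u2⟩ := this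
      exact g_lower hα q p hq3 hq1 hp k k1 k2 u u1 u2)
  have hl := psi_lower ψ hψ.continuous (hψ.continuous.integrable_of_hasCompactSupport hc) h0 q hQ0
    n hn1 (fun k k1 k2 u u1 u2 => hK u (by
      simp only [mem_iUnion, Finset.mem_Ico, mem_preimage, mem_Icc]
      exact ⟨k, ⟨k1, k2⟩, u1, u2⟩))
  have h2 : ((q : ℝ) ^ 8 * (1 / τ ^ 4) / α) ^ 2 * (1 / 8) ≤ 8192 * C / τ ^ 3 :=
    (mul_le_mul_of_nonneg_left hl (by positivity)).trans (hd.trans i2)
  have e : ((q : ℝ) ^ 8 * (1 / τ ^ 4) / α) ^ 2 * (1 / 8) = (q / (8 * 243 * α ^ 2)) / τ ^ 3 := by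
    rw [hτ]; field_simp; norm_num
  rw [e, div_le_div_iff_of_pos_right (by positivity), div_le_iff₀ (by positivity)] at h2
  nlinarith

theorem unique_cont (hα : 0 < α) (Z : ℂ → ℂ)
    (hd : DifferentiableOn ℂ Z {s | 1 < s.re ∧ s ≠ 2}) (he : ∀ s : ℂ, 2 < s.re → Z s = Z0 α s)
    {s : ℂ} (h1 : 1 < s.re) (h2 : 0 < s.im) : Z s = Z0 α s := by
  set U : Set ℂ := {s | 1 < s.re} ∩ {s | 0 < s.im} with hU
  have ho : IsOpen U := (isOpen_lt continuous_const Complex.continuous_re).inter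
    (isOpen_lt continuous_const Complex.continuous_im)
  have hcv : Convex ℝ U := (convex_halfSpace_re_gt 1).inter (convex_halfSpace_im_gt 0)
  have hne : ∀ s ∈ U, s ≠ 2 := by
    rintro s hs rfl
    simpa using hs.2
  have a1 : AnalyticOnNhd ℂ Z U :=
    (hd.mono fun s hs => ⟨hs.1, hne s hs⟩).analyticOnNhd ho
  have a2 : AnalyticOnNhd ℂ (Z0 α) U :=
    DifferentiableOn.analyticOnNhd
      (fun s hs => (Z0_diff hα hs.1 (hne s hs)).differentiableWithinAt) ho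
  have h0 : (3 + I : ℂ) ∈ U := by constructor <;> simp
  refine a1.eqOn_of_preconnected_of_eventuallyEq a2 hcv.isPreconnected h0 ?_ ⟨h1, h2⟩
  have : {s : ℂ | 2 < s.re} ∈ 𝓝 (3 + I : ℂ) :=
    (isOpen_lt continuous_const Complex.continuous_re).mem_nhds (by simp; norm_num)
  filter_upwards [this] with s hs using he s hs

end Pool.Agent.H8.Barnes
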