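import Mathlib

open Metric Set MeasureTheory Polynomial

namespace Pool.Agent.H8.Brouwer

variable {E : Type*} [NormedAddCommGroup E] [InnerProductSpace ℝ E] [FiniteDimensional ℝ E]

theorem det_poly (A : E →L[ℝ] E) : ∃ Q : ℝ[X], Q.natDegree ≤ Module.finrank ℝ E ∧
    ∀ t : ℝ, Q.eval t = (1 + t • A).det := by
  classical
  set b := Module.finBasis ℝ E
  set M := LinearMap.toMatrix b b (A : E →ₗ[ℝ] E)
  refine ⟨((X : ℝ[X]) • M.map C + (1 : Matrix _ _ ℝ).map C).det, ?_, fun t => ?_⟩
  · simpa using Polynomial.natDegree_det_X_add_C_le M 1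
  · rw [← coe_evalRingHom, RingHom.map_det, ContinuousLinearMap.det, ← LinearMap.det_toMatrix b]
    congr 1
    have : ((1 + t • A : E →L[ℝ] E) : E →ₗ[ℝ] E) = LinearMap.id + t • (A : E →ₗ[ℝ] E) := rfl
    rw [this, map_add (LinearMap.toMatrix b b), map_smul (LinearMap.toMatrix b b),
      LinearMap.toMatrix_id]
    ext i j
    simp [M, Matrix.one_apply, add_comm]
    split_ifs <;> simp [mul_comm]

theorem det_ne {A : E →L[ℝ] E} (h : Function.Injective A) : A.det ≠ 0 := by
  intro h0
  have := (LinearMap.det_eq_zero_iff_ker_ne_bot (f := (A : E →ₗ[ℝ] E))).1 h0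
  exact this (LinearMap.ker_eq_bot.2 h)

theorem inj_small {A : E →L[ℝ] E} {C t : ℝ} (hA : ‖A‖ ≤ C) (ht : 0 ≤ t) (h : t * C < 1) :
    Function.Injective (1 + t • A : E →L[ℝ] E) := by
  rw [injective_iff_map_eq_zero]
  intro v hv
  have h1 : v = -(t • A v) := by
    rw [eq_neg_iff_add_eq_zero]; simpa using hv
  have h2 : ‖v‖ ≤ t * (C * ‖v‖) := by
    conv_lhs => rw [h1]
    rw [norm_neg, norm_smul, Real.norm_eq_abs, abs_of_nonneg ht]
    gcongr
    exact (A.le_opNorm v).trans (by gcongr)
  have : ‖v‖ = 0 := by nlinarith [norm_nonneg v]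
  exact norm_eq_zero.1 this

theorem det_pos {A : E →L[ℝ] E} {C t : ℝ} (hA : ‖A‖ ≤ C) (ht : 0 ≤ t) (h : t * C < 1) :
    0 < (1 + t • A).det := by
  by_contra hn
  push Not at hn
  have hc : Continuous fun s : ℝ => (1 + s • A).det :=
    ContinuousLinearMap.continuous_det.comp (by fun_prop)
  have h0 : (0:ℝ) ∈ Icc ((1 + t • A).det) ((1 + (0:ℝ) • A).det) := by
    refine ⟨hn, ?_⟩
    rw [zero_smul, add_zero]
    have : (1 : E →L[ℝ] E).det = 1 := LinearMap.det_id
    rw [this]; exact zero_le_one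
  obtain ⟨s, hs, e⟩ := intermediate_value_Icc' ht hc.continuousOn h0
  have hC : 0 ≤ C := (norm_nonneg _).trans hA
  exact det_ne (inj_small hA hs.1 (by nlinarith [hs.2])) e

theorem no_retraction (H : E → E) (hH : ContDiff ℝ 1 H) (R : ℝ) (hR : 0 < R)
    (h1 : ∀ x, ‖H x‖ = R) (h2 : ∀ x, ‖x‖ = R → H x = x) : False := by
  classical
  borelize E
  set μ : Measure E := Measure.addHaar
  set A : E → E →L[ℝ] E := fun x => fderiv ℝ H x - 1 with hA
  have hAc : Continuous A := (hH.continuous_fderiv (by norm_num)).sub continuous_const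
  obtain ⟨C, hC⟩ := (isCompact_closedBall (0:E) R).exists_bound_of_continuousOn hAc.continuousOn
  have hC0 : 0 ≤ C := (norm_nonneg _).trans (hC 0 (by simp [hR.le]))
  have hsd : ∀ x, HasStrictFDerivAt H (fderiv ℝ H x) x := fun x =>
    hH.contDiffAt.hasStrictFDerivAt (by norm_num)
  have hg : ∀ x, HasStrictFDerivAt (fun x => H x - x) (A x) x := fun x =>
    (hsd x).sub (hasStrictFDerivAt_id x)
  have hlip : ∀ x ∈ closedBall (0:E) R, ∀ y ∈ closedBall (0:E) R,
      ‖(H y - y) - (H x - x)‖ ≤ C * ‖y - x‖ := fun x hx y hy =>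
    (convex_closedBall 0 R).norm_image_sub_le_of_norm_hasFDerivWithin_le
      (fun z _ => (hg z).hasFDerivAt.hasFDerivWithinAt) hC hx hy
  have key : ∀ t : ℝ, 0 < t → t < 1 → t * C < 1 →
      ∫ x in ball (0:E) R, (1 + t • A x).det ∂μ = μ.real (ball 0 R) := by
    intro t h0 ht1 htC
    set F : E → E := fun x => x + t • (H x - x) with hF
    have hFd : ∀ x, HasStrictFDerivAt F (1 + t • A x) x := fun x =>
      (hasStrictFDerivAt_id x).add ((hg x).const_smul t)
    have hFc : Continuous F := continuous_iff_continuousAt.2 fun x => (hFd x).continuousAt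
    have hinj : InjOn F (ball 0 R) := by
      intro x hx y hy e
      have h3 := hlip x (ball_subset_closedBall hx) y (ball_subset_closedBall hy)
      have h4 : y - x = -(t • ((H y - y) - (H x - x))) := by
        simp only [hF] at e
        rw [smul_sub, neg_sub, sub_eq_sub_iff_add_eq_add, add_comm (t • (H x - x)), e]
      have h5 : ‖y - x‖ ≤ t * (C * ‖y - x‖) := by
        conv_lhs => rw [h4]
        rw [norm_neg, norm_smul, Real.norm_eq_abs, abs_of_pos h0]
        gcongr
      have : ‖y - x‖ = 0 := by nlinarith [norm_nonneg (y - x)]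
      exact (sub_eq_zero.1 (norm_eq_zero.1 this)).symm
    have hopen : IsOpen (F '' ball 0 R) := by
      rw [isOpen_iff_mem_nhds]
      rintro _ ⟨x, hx, rfl⟩
      have hi := inj_small (hC x (ball_subset_closedBall hx)) h0.le htC
      have hs : Function.Surjective ((1 + t • A x : E →L[ℝ] E) : E →ₗ[ℝ] E) :=
        LinearMap.injective_iff_surjective.1 hi
      rw [← (hFd x).map_nhds_eq_of_surj (LinearMap.range_eq_top.2 hs)]
      exact Filter.image_mem_map (isOpen_ball.mem_nhds hx)
    have hsub : F '' ball 0 R ⊆ ball 0 R := by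
      rintro _ ⟨x, hx, rfl⟩
      rw [mem_ball_zero_iff] at *
      have : F x = (1 - t) • x + t • H x := by simp only [hF]; module
      rw [this]
      refine (norm_add_le _ _).trans_lt ?_
      rw [norm_smul, norm_smul, h1, Real.norm_eq_abs, Real.norm_eq_abs, abs_of_pos h0,
        abs_of_pos (by linarith)]
      nlinarith
    have himg : F '' ball 0 R = ball 0 R := by
      refine Subset.antisymm hsub ?_
      refine (convex_ball (0:E) R).isPreconnected.subset_of_closure_inter_subset hopen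
        ⟨F 0, hsub ⟨0, mem_ball_self hR, rfl⟩, 0, mem_ball_self hR, rfl⟩ ?_
      rintro y ⟨hy1, hy2⟩
      have hcl : IsClosed (F '' closedBall 0 R) := ((isCompact_closedBall 0 R).image hFc).isClosed
      obtain ⟨x, hx, rfl⟩ := closure_minimal (image_mono ball_subset_closedBall) hcl hy1
      refine ⟨x, ?_, rfl⟩
      rw [mem_closedBall_zero_iff] at hx
      rw [mem_ball_zero_iff] at *
      refine lt_of_le_of_ne hx fun e => ?_
      simp only [hF, h2 x e, sub_self, smul_zero, add_zero] at hy2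
      exact hy2.ne e
    have := integral_image_eq_integral_abs_det_fderiv_smul μ measurableSet_ball
      (fun x _ => (hFd x).hasFDerivAt.hasFDerivWithinAt) hinj (fun _ => (1:ℝ))
    rw [himg, setIntegral_const, smul_eq_mul, mul_one] at this
    rw [this]
    refine setIntegral_congr_fun measurableSet_ball fun x hx => ?_
    simp only [smul_eq_mul, mul_one]
    exact (abs_of_pos (det_pos (hC x (ball_subset_closedBall hx)) h0.le htC)).symm
  set N := Module.finrank ℝ E
  set v : ℕ → ℝ := fun i => 1 / (C + 2 + i) with hv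
  have hvi : InjOn v (Finset.range (N + 1)) := by
    intro i _ j _ e
    simp only [hv] at e
    rw [div_eq_div_iff (by positivity) (by positivity)] at e
    exact_mod_cast (by linarith : (i:ℝ) = j)
  set l : ℕ → ℝ := fun i => (Lagrange.basis (Finset.range (N + 1)) v i).eval 1 with hl
  have hl1 : ∑ i ∈ Finset.range (N + 1), l i = 1 := by
    simp only [hl]
    rw [← eval_finset_sum, Lagrange.sum_basis hvi (by simp), eval_one]
  have hz : ∀ x, ∑ i ∈ Finset.range (N + 1), l i * (1 + v i • A x).det = 0 := by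
    intro x
    obtain ⟨Q, hQ, hq⟩ := det_poly (A x)
    have e1 := Lagrange.eq_interpolate (f := Q) hvi (by
      rw [Finset.card_range]
      exact degree_le_natDegree.trans_lt (by exact_mod_cast Nat.lt_succ_of_le hQ))
    have e2 : Q.eval 1 = ∑ i ∈ Finset.range (N + 1), l i * (1 + v i • A x).det := by
      conv_lhs => rw [e1]
      rw [Lagrange.interpolate_apply, eval_finset_sum]
      refine Finset.sum_congr rfl fun i _ => ?_
      rw [eval_mul, eval_C, hq, mul_comm]
    rw [← e2, hq]
    have e3 : 1 + (1:ℝ) • A x = fderiv ℝ H x := by simp [hA]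
    rw [e3]
    by_contra hd
    have hk : LinearMap.ker (fderiv ℝ H x : E →ₗ[ℝ] E) = ⊥ := by
      by_contra hk
      exact hd ((LinearMap.det_eq_zero_iff_ker_ne_bot).2 hk)
    obtain ⟨w, hw⟩ := LinearMap.injective_iff_surjective.1 (LinearMap.ker_eq_bot.1 hk) (H x)
    have d1 := (hsd x).hasFDerivAt.norm_sq
    have d2 : HasFDerivAt (fun x => ‖H x‖ ^ 2) (0 : E →L[ℝ] ℝ) x := by
      simp_rw [h1]; exact hasFDerivAt_const _ _
    have d3 := congrArg (fun L : E →L[ℝ] ℝ => L w) (d1.unique d2)
    have hw' : fderiv ℝ H x w = H x := hw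
    simp [hw', h1] at d3
    exact hR.ne' d3
  have hint : ∀ i ∈ Finset.range (N + 1),
      IntegrableOn (fun x => l i * (1 + v i • A x).det) (ball (0:E) R) μ := by
    intro i _
    have : Continuous fun x => l i * (1 + v i • A x).det :=
      continuous_const.mul (ContinuousLinearMap.continuous_det.comp (by fun_prop))
    exact (this.continuousOn.integrableOn_compact (isCompact_closedBall 0 R)).mono_set
      ball_subset_closedBall
  have e := integral_finset_sum (μ := μ.restrict (ball 0 R)) _ hint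
  simp_rw [hz] at e
  rw [integral_zero] at e
  have e2 : ∀ i ∈ Finset.range (N + 1), ∫ x in ball (0:E) R, l i * (1 + v i • A x).det ∂μ =
      l i * μ.real (ball 0 R) := by
    intro i _
    have : (0:ℝ) ≤ i := i.cast_nonneg
    rw [integral_const_mul, key]
    · simp only [hv]; positivity
    · simp only [hv]; rw [div_lt_one (by positivity)]; linarith
    · simp only [hv]; rw [div_mul_eq_mul_div, div_lt_one (by positivity)]; linarith
  rw [Finset.sum_congr rfl e2, ← Finset.sum_mul, hl1, one_mul] at e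
  have : 0 < μ.real (ball (0:E) R) :=
    ENNReal.toReal_pos (measure_ball_pos μ 0 hR).ne' measure_ball_lt_top.ne
  linarith

theorem brouwer_c1 (G : E → E) (hG : ContDiff ℝ 1 G) (h1 : ∀ x, ‖G x‖ ≤ 1) : ∃ x, G x = x := by
  by_contra hn
  push Not at hn
  let χ : ContDiffBump (0:E) := ⟨1, 2, one_pos, one_lt_two⟩
  set W : E → E := fun x => x - χ x • G x with hW
  have hWc : ContDiff ℝ 1 W := contDiff_id.sub (χ.contDiff.smul hG)
  have hW0 : ∀ x, W x ≠ 0 := by
    intro x h
    have h2 : x = χ x • G x := sub_eq_zero.1 h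
    have h3 : ‖x‖ ≤ 1 := by
      rw [h2, norm_smul, Real.norm_eq_abs, abs_of_nonneg χ.nonneg]
      exact mul_le_one₀ χ.le_one (norm_nonneg _) (h1 x)
    rw [χ.one_of_mem_closedBall (by simpa using h3), one_smul] at h2
    exact hn x h2.symm
  refine no_retraction (fun x => (2 / ‖W x‖) • W x) ?_ 2 two_pos (fun x => ?_) fun x hx => ?_
  · exact (contDiff_const.div (hWc.norm ℝ hW0) fun x => norm_ne_zero_iff.2 (hW0 x)).smul hWc
  · have := norm_pos_iff.2 (hW0 x)
    rw [norm_smul, Real.norm_eq_abs, abs_of_pos (by positivity)]; field_simp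
  · have : W x = x := by
      simp only [hW]; rw [χ.zero_of_le_dist (by simp [hx, χ]), zero_smul, sub_zero]
    simp only [this, hx]; simp

theorem brouwer_simplex {ι : Type*} [Fintype ι] [Nonempty ι] (G : (ι → ℝ) → ι → ℝ)
    (hG : ContDiff ℝ 1 G) (hm : MapsTo G (stdSimplex ℝ ι) (stdSimplex ℝ ι)) :
    ∃ w ∈ stdSimplex ℝ ι, G w = w := by
  classical
  have hne : (stdSimplex ℝ ι).Nonempty := ⟨_, single_mem_stdSimplex ℝ (Classical.arbitrary ι)⟩
  obtain ⟨w, hw, hmin⟩ := (isCompact_stdSimplex ℝ ι).exists_isMinOn hne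
    (f := fun w => ‖G w - w‖) (hG.continuous.sub continuous_id).norm.continuousOn
  refine ⟨w, hw, sub_eq_zero.1 (norm_eq_zero.1 (le_antisymm ?_ (norm_nonneg _)))⟩
  refine le_of_forall_pos_le_add fun ε hε => ?_
  set N : ℝ := (Fintype.card ι : ℝ) with hN
  have hN0 : 0 < N := by rw [hN]; exact_mod_cast Fintype.card_pos
  set η := ε / (N + 1) with hη
  have hη0 : 0 < η := by positivity
  set e : ℝ → ℝ := fun u => Real.sqrt (u ^ 2 + η ^ 2) with he
  have hec : ContDiff ℝ 1 e := ContDiff.sqrt (by fun_prop) fun u => by positivity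
  have hep : ∀ u, 0 < e u := fun u => Real.sqrt_pos.2 (by positivity)
  set π : (ι → ℝ) → ι → ℝ := fun y i => e (y i) / ∑ j, e (y j) with hπ
  have hsp : ∀ y : ι → ℝ, 0 < ∑ j, e (y j) := fun y =>
    Finset.sum_pos (fun j _ => hep _) Finset.univ_nonempty
  have hπc : ContDiff ℝ 1 π := by
    rw [contDiff_pi]
    intro i
    exact (hec.comp (contDiff_apply ℝ ℝ i)).div
      (ContDiff.sum fun j _ => hec.comp (contDiff_apply ℝ ℝ j)) fun y => (hsp y).ne'
  have hπm : ∀ y, π y ∈ stdSimplex ℝ ι := fun y =>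
    ⟨fun i => (div_pos (hep _) (hsp y)).le, by
      simp only [hπ]; rw [← Finset.sum_div, div_self (hsp y).ne']⟩
  set L := EuclideanSpace.equiv ι ℝ
  obtain ⟨x, hx⟩ := brouwer_c1 (fun x => L.symm (G (π (L x))))
    (L.symm.contDiff.comp (hG.comp (hπc.comp L.contDiff))) (fun x => by
      have h := hm (hπm (L x))
      rw [EuclideanSpace.norm_eq, Real.sqrt_le_one, ← h.2]
      refine Finset.sum_le_sum fun i _ => ?_
      have h1 := h.1 i
      have h2 := (mem_Icc_of_mem_stdSimplex h i).2
      have : (L.symm (G (π (L x)))) i = G (π (L x)) i := rfl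
      rw [this, Real.norm_eq_abs, sq_abs]; nlinarith)
  set y := L x with hy
  have hy2 : G (π y) = y := by
    have := congrArg L hx
    rwa [L.apply_symm_apply] at this
  have hys : y ∈ stdSimplex ℝ ι := hy2 ▸ hm (hπm y)
  have h3 := hmin (hπm y)
  simp only [mem_setOf_eq, hy2] at h3
  refine h3.trans ?_
  rw [zero_add, pi_norm_le_iff_of_nonneg hε.le]
  intro i
  have b1 : ∀ j, y j ≤ e (y j) := fun j => Real.le_sqrt_of_sq_le (by nlinarith)
  have b2 : ∀ j, e (y j) ≤ y j + η := fun j =>
    Real.sqrt_le_iff.2 ⟨by linarith [hys.1 j], by nlinarith [hys.1 j]⟩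
  have b3 : 1 ≤ ∑ j, e (y j) := hys.2 ▸ Finset.sum_le_sum fun j _ => b1 j
  have b4 : ∑ j, e (y j) ≤ 1 + N * η := by
    refine (Finset.sum_le_sum fun j _ => b2 j).trans ?_
    rw [Finset.sum_add_distrib, hys.2]; simp [hN]
  have b5 : ε = (N + 1) * η := by rw [hη]; field_simp
  have b6 := (mem_Icc_of_mem_stdSimplex hys i).2
  have b7 := hys.1 i
  have b8 : e (y i) / ∑ j, e (y j) ≤ e (y i) := div_le_self (hep _).le b3
  have b9 : y i - N * η ≤ e (y i) / ∑ j, e (y j) := by
    rw [le_div_iff₀ (hsp y)]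
    have := b1 i
    have h5 : 0 < N * η := by positivity
    nlinarith [mul_le_mul_of_nonneg_left b4 b7]
  have h5 : 0 < N * η := by positivity
  simp only [Pi.sub_apply, hπ, Real.norm_eq_abs, abs_le]
  constructor <;> nlinarith [b2 i]

end Pool.Agent.H8.Brouwer
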