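import Mathlib

namespace Pool.Agent.H8.CE
open Finset Matrix
open scoped Classical

def IsCh {Λ : Type} [AddCommGroup Λ] (χ : Λ → ℝ) : Prop :=
  χ 0 = 1 ∧ ∀ v w, χ (v + w) = χ v * χ w

section gen
variable {Λ : Type} [AddCommGroup Λ] [Fintype Λ]

theorem IsCh.sum {χ : Λ → ℝ} (h : IsCh χ) :
    ∑ v, χ v = if ∀ v, χ v = 1 then (Fintype.card Λ : ℝ) else 0 := by
  split_ifs with h1
  · simp [h1]
  · push Not at h1
    obtain ⟨v0, hv0⟩ := h1
    have e : ∑ v, χ v = ∑ v, χ (v0 + v) := (Equiv.sum_comp (Equiv.addLeft v0) χ).symm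
    simp only [h.2, ← Finset.mul_sum] at e
    have : (χ v0 - 1) * ∑ v, χ v = 0 := by linarith
    rcases mul_eq_zero.mp this with h3 | h3
    · exact absurd (by linarith) hv0
    · exact h3

omit [Fintype Λ] in
theorem IsCh.pm {χ : Λ → ℝ} (h : IsCh χ) (h2 : ∀ v : Λ, v + v = 0) (v : Λ) :
    χ v = 1 ∨ χ v = -1 := by
  have := h.2 v v
  rw [h2, h.1] at this
  exact mul_self_eq_one_iff.mp this.symm

theorem quad {χ : Λ → ℝ} (h : IsCh χ) (h2 : ∀ v : Λ, v + v = 0) (f : Λ → ℝ) :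
    χ ⬝ᵥ ((Matrix.of fun v w => f (v + w)) *ᵥ χ) = Fintype.card Λ * ∑ u, f u * χ u := by
  simp only [dotProduct, Matrix.mulVec, Matrix.of_apply]
  have : ∀ v, χ v * ∑ w, f (v + w) * χ w = ∑ u, f u * χ u := by
    intro v
    rw [Finset.mul_sum, ← Equiv.sum_comp (Equiv.addLeft v) (fun u => f u * χ u)]
    refine Finset.sum_congr rfl fun w _ => ?_
    simp only [Equiv.coe_addLeft, h.2]; ring
  simp [this]

theorem bochner (h2 : ∀ v : Λ, v + v = 0) (f : Λ → ℝ)
    (hf : ∀ χ, IsCh χ → 0 ≤ ∑ u, f u * χ u) :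
    (Matrix.of fun v w => f (v + w)).PosSemidef := by
  have hre : ∀ (ψ : AddChar Λ ℂ) (v : Λ), (((ψ v).re : ℝ) : ℂ) = ψ v := by
    intro ψ v
    have : ψ v * ψ v = 1 := by rw [← AddChar.map_add_eq_mul, h2, AddChar.map_zero_eq_one]
    rcases mul_self_eq_one_iff.mp this with h | h <;> simp [h]
  have hch : ∀ ψ : AddChar Λ ℂ, IsCh fun v => (ψ v).re := by
    intro ψ
    refine ⟨by simp, fun v w => ?_⟩
    apply Complex.ofReal_injective
    push_cast
    rw [hre, hre, hre, AddChar.map_add_eq_mul]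
  have horth : ∀ v : Λ, ∑ ψ : AddChar Λ ℂ, (ψ v).re = if v = 0 then (Fintype.card Λ : ℝ) else 0 := by
    intro v
    rw [← Complex.re_sum, AddChar.sum_apply_eq_ite]
    split_ifs <;> simp
  have hN : (0 : ℝ) < Fintype.card Λ := by exact_mod_cast Fintype.card_pos
  have hinv : ∀ a : Λ, Fintype.card Λ * f a =
      ∑ ψ : AddChar Λ ℂ, (∑ u, f u * (ψ u).re) * (ψ a).re := by
    intro a
    simp only [Finset.sum_mul]
    rw [Finset.sum_comm]
    have : ∀ u, ∑ ψ : AddChar Λ ℂ, f u * (ψ u).re * (ψ a).re =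
        if u = a then f u * Fintype.card Λ else 0 := by
      intro u
      have e : ∀ ψ : AddChar Λ ℂ, f u * (ψ u).re * (ψ a).re = f u * (ψ (u + a)).re := fun ψ => by
        have := (hch ψ).2 u a
        simp only at this
        rw [this]; ring
      simp only [e, ← Finset.mul_sum, horth]
      have : u + a = 0 ↔ u = a := by
        constructor
        · intro h
          calc u = u + (a + a) := by rw [h2, add_zero]
            _ = a := by rw [← add_assoc, h, zero_add]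
        · rintro rfl; exact h2 _
      simp [this]
    simp only [this]
    simp [mul_comm]
  refine Matrix.PosSemidef.of_dotProduct_mulVec_nonneg ?_ fun x => ?_
  · ext v w; simp [add_comm]
  · refine le_of_mul_le_mul_left ?_ hN
    have : (Fintype.card Λ : ℝ) * (star x ⬝ᵥ ((Matrix.of fun v w => f (v + w)) *ᵥ x)) =
        ∑ ψ : AddChar Λ ℂ, (∑ u, f u * (ψ u).re) * (∑ v, x v * (ψ v).re) ^ 2 := by
      simp only [dotProduct, Matrix.mulVec, Matrix.of_apply, star_trivial]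
      calc (Fintype.card Λ : ℝ) * ∑ v, x v * ∑ w, f (v + w) * x w
          = ∑ v, ∑ w, x v * x w * (Fintype.card Λ * f (v + w)) := by
            simp only [Finset.mul_sum]
            exact Finset.sum_congr rfl fun v _ => Finset.sum_congr rfl fun w _ => by ring
        _ = ∑ v, ∑ w, ∑ ψ : AddChar Λ ℂ,
              (∑ u, f u * (ψ u).re) * ((x v * (ψ v).re) * (x w * (ψ w).re)) := by
            refine Finset.sum_congr rfl fun v _ => Finset.sum_congr rfl fun w _ => ?_
            rw [hinv, Finset.mul_sum]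
            refine Finset.sum_congr rfl fun ψ _ => ?_
            have := (hch ψ).2 v w
            simp only at this
            rw [this]; ring
        _ = ∑ ψ : AddChar Λ ℂ, ∑ v, ∑ w,
              (∑ u, f u * (ψ u).re) * ((x v * (ψ v).re) * (x w * (ψ w).re)) := by
            simp_rw [Finset.sum_comm (s := (univ : Finset Λ)) (t := (univ : Finset (AddChar Λ ℂ)))]
        _ = _ := by
            refine Finset.sum_congr rfl fun ψ _ => ?_
            rw [sq, Finset.sum_mul_sum, Finset.mul_sum]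
            exact Finset.sum_congr rfl fun v _ => by rw [Finset.mul_sum]
    rw [this, mul_zero]
    exact Finset.sum_nonneg fun ψ _ => mul_nonneg (hf _ (hch ψ)) (sq_nonneg _)
end gen

abbrev X (t : ℕ) := Fin t → ZMod 2
abbrev Γ (t : ℕ) := Fin t → X t

def R {t : ℕ} (p : X t × X t) : Γ t := fun i => p.1 i • p.2

theorem z2 (a : ZMod 2) : a + a = 0 := by revert a; decide

theorem avg {t : ℕ} {χ : Γ t → ℝ} (h : IsCh χ) :
    0 ≤ ∑ p : X t × X t, χ (R p) ∧ ∑ p : X t × X t, χ (R p) ≤ (Fintype.card (X t) : ℝ) ^ 2 ∧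
    (¬ (∀ g, χ g = 1) → 2 * ∑ p : X t × X t, χ (R p) ≤ (Fintype.card (X t) : ℝ) ^ 2) := by
  have hx : ∀ x : X t, IsCh fun y : X t => χ (R (x, y)) := by
    intro x
    refine ⟨?_, fun v w => ?_⟩
    · have : R (x, (0 : X t)) = 0 := by ext i j; simp [R]
      simp only [this, h.1]
    · have : R (x, v + w) = R (x, v) + R (x, w) := by ext i j; simp [R, mul_add]
      simp only [this, h.2]
  set H : Finset (X t) := univ.filter fun x => ∀ y, χ (R (x, y)) = 1 with hH
  have e : ∑ p : X t × X t, χ (R p) = H.card * (Fintype.card (X t) : ℝ) := by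
    rw [Fintype.sum_prod_type]
    have : ∀ x : X t, ∑ y, χ (R (x, y)) =
        if ∀ y, χ (R (x, y)) = 1 then (Fintype.card (X t) : ℝ) else 0 := fun x => (hx x).sum
    simp only [this]
    rw [← Finset.sum_filter, Finset.sum_const, nsmul_eq_mul]
  have hc : (H.card : ℝ) ≤ Fintype.card (X t) := by exact_mod_cast Finset.card_le_univ H
  have h0 : (0 : ℝ) ≤ Fintype.card (X t) := Nat.cast_nonneg _
  refine ⟨by rw [e]; positivity, by rw [e, sq]; exact mul_le_mul_of_nonneg_right hc h0, fun hn => ?_⟩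
  have hex : ∃ x0, x0 ∉ H := by
    by_contra hall
    push Not at hall
    refine hn fun g => ?_
    have hs : ∀ s : Finset (Fin t), χ (∑ i ∈ s, R (Pi.single i 1, g i)) = 1 := by
      intro s
      induction s using Finset.induction_on with
      | empty => simpa using h.1
      | insert a s ha ih =>
        rw [Finset.sum_insert ha, h.2, ih, (Finset.mem_filter.mp (hall _)).2, one_mul]
    have : g = ∑ i, R (Pi.single i 1, g i) := by
      ext i j
      simp [R, Finset.sum_apply, Pi.single_apply, ite_apply]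
    rw [this]; exact hs _
  obtain ⟨x0, hx0⟩ := hex
  have hinj : H.card ≤ (univ \ H).card := by
    refine Finset.card_le_card_of_injOn (fun x => x + x0) (fun x hx' => ?_)
      (fun a _ b _ hab => add_right_cancel hab)
    simp only [Finset.coe_sdiff, Finset.coe_univ, Set.mem_diff, Set.mem_univ, true_and,
      Finset.mem_coe]
    intro hm
    refine hx0 (Finset.mem_filter.mpr ⟨Finset.mem_univ _, fun y => ?_⟩)
    have e1 : R (x + x0, y) = R (x, y) + R (x0, y) := by ext i j; simp [R, add_mul]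
    have a1 := (Finset.mem_filter.mp hm).2 y
    have a2 := (Finset.mem_filter.mp (Finset.mem_coe.mp hx')).2 y
    rw [e1, h.2, a2, one_mul] at a1
    exact a1
  rw [Finset.card_univ_diff] at hinj
  have hle : H.card ≤ Fintype.card (X t) := Finset.card_le_univ H
  have : 2 * (H.card : ℝ) ≤ Fintype.card (X t) := by
    have : 2 * H.card ≤ Fintype.card (X t) := by omega
    exact_mod_cast this
  rw [e, sq]; nlinarith

noncomputable def w {t : ℕ} (g : Γ t) : ℝ :=
  (∑ p : X t × X t, if R p = g then 1 else 0) / (Fintype.card (X t) : ℝ) ^ 2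

theorem cX (t : ℕ) : (0 : ℝ) < (Fintype.card (X t) : ℝ) ^ 2 := by
  have : (0 : ℝ) < Fintype.card (X t) := by exact_mod_cast Fintype.card_pos
  positivity

theorem w_sum {t : ℕ} (χ : Γ t → ℝ) :
    ∑ g, w g * χ g = (∑ p : X t × X t, χ (R p)) / (Fintype.card (X t) : ℝ) ^ 2 := by
  simp only [w, div_mul_eq_mul_div, ← Finset.sum_div, Finset.sum_mul]
  rw [Finset.sum_comm]
  simp

theorem w_nonneg {t : ℕ} (g : Γ t) : 0 ≤ w g :=
  div_nonneg (Finset.sum_nonneg fun _ _ => by split_ifs <;> norm_num) (cX t).le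

theorem w_ge {t : ℕ} (g : Γ t) : w g = 0 ∨ 1 / (Fintype.card (X t) : ℝ) ^ 2 ≤ w g := by
  by_cases h : ∃ p, R p = g
  · obtain ⟨p, hp⟩ := h
    right
    refine div_le_div_of_nonneg_right ?_ (cX t).le
    have := Finset.single_le_sum (f := fun p : X t × X t => if R p = g then (1 : ℝ) else 0)
      (fun _ _ => by split_ifs <;> norm_num) (Finset.mem_univ p)
    simpa [hp] using this
  · left
    push Not at h
    simp [w, h]

theorem w_tot (t : ℕ) : ∑ g : Γ t, w g = 1 := by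
  have := w_sum (t := t) fun _ => 1
  simp only [mul_one, Finset.sum_const, Finset.card_univ, Fintype.card_prod, nsmul_eq_mul] at this
  rw [this, div_eq_one_iff_eq (cX t).ne']
  push_cast; ring

abbrev C := ZMod 2 × ZMod 2 × ZMod 2 × ZMod 2
def S : Finset C := {(1,0,0,0), (0,1,0,0), (0,0,1,0), (0,0,0,1), (1,1,1,1)}

theorem S_tri : ∀ a ∈ S, ∀ b ∈ S, a + b ∉ S := by
  intro a ha b hb
  simp only [S, Finset.mem_insert, Finset.mem_singleton] at ha hb
  rcases ha with rfl | rfl | rfl | rfl | rfl <;> rcases hb with rfl | rfl | rfl | rfl | rfl <;>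
  decide
theorem S_zero : (0 : C) ∉ S := by decide
theorem C2 : ∀ c : C, c + c = 0 := by decide

theorem S_sum (χ : C → ℝ) : ∑ c ∈ S, χ c =
    χ (1,0,0,0) + χ (0,1,0,0) + χ (0,0,1,0) + χ (0,0,0,1) + χ (1,1,1,1) := by
  rw [S, Finset.sum_insert (by decide), Finset.sum_insert (by decide),
    Finset.sum_insert (by decide), Finset.sum_insert (by decide), Finset.sum_singleton]
  ring

theorem S_bd {χ : C → ℝ} (h : IsCh χ) : -3 ≤ ∑ c ∈ S, χ c ∧ ∑ c ∈ S, χ c ≤ 5 := by
  have e : χ (1,1,1,1) = χ (1,0,0,0) * χ (0,1,0,0) * χ (0,0,1,0) * χ (0,0,0,1) := by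
    rw [← h.2, ← h.2, ← h.2]; congr 1
  rw [S_sum, e]
  rcases h.pm C2 (1,0,0,0) with a | a <;> rcases h.pm C2 (0,1,0,0) with b | b <;>
  rcases h.pm C2 (0,0,1,0) with c | c <;> rcases h.pm C2 (0,0,0,1) with d | d <;>
  rw [a, b, c, d] <;> norm_num

abbrev V (t : ℕ) := C × Γ t × ZMod 2

theorem V2 {t : ℕ} (v : V t) : v + v = 0 := by
  refine Prod.ext (C2 _) (Prod.ext ?_ (z2 _))
  ext i j; exact z2 _

noncomputable def F {t : ℕ} (W : Γ t × ZMod 2 → ℝ) (v : V t) : ℝ :=
  if v = 0 then 1 else if v.1 ∈ S then W v.2 else 0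

theorem F_sum {t : ℕ} (W : Γ t × ZMod 2 → ℝ) {χ : V t → ℝ} (h : IsCh χ) :
    ∑ u, F W u * χ u = 1 + (∑ c ∈ S, χ (c, 0)) *
      (∑ g, W (g, 0) * χ (0, g, 0) + (∑ g, W (g, 1) * χ (0, g, 0)) * χ (0, 0, 1)) := by
  have e : ∀ u : V t, F W u * χ u = (if u = 0 then 1 else 0) +
      (if u.1 ∈ S then χ (u.1, 0) else 0) * (W u.2 * χ (0, u.2)) := by
    intro u
    have : χ u = χ (u.1, 0) * χ (0, u.2) := by rw [← h.2]; simp
    by_cases h0 : u = 0
    · subst h0; simp [F, h.1, S_zero]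
    · by_cases h1 : u.1 ∈ S
      · simp only [F, h0, h1, if_true, if_false]; rw [this]; ring
      · simp [F, h0, h1]
  simp only [e, Finset.sum_add_distrib]
  congr 1
  · simp
  · rw [Fintype.sum_prod_type]
    simp only [← Finset.mul_sum]
    rw [← Finset.sum_mul, ← Finset.sum_filter]
    congr 1
    · simp
    · rw [Fintype.sum_prod_type, Finset.sum_mul, ← Finset.sum_add_distrib]
      refine Finset.sum_congr rfl fun g _ => ?_
      have : (univ : Finset (ZMod 2)) = {0, 1} := by decide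
      rw [this, Finset.sum_pair (by decide)]
      have e2 : χ (0, g, 1) = χ (0, g, 0) * χ (0, 0, 1) := by rw [← h.2]; simp
      rw [e2]; ring

noncomputable def W0 (t : ℕ) (p : Γ t × ZMod 2) : ℝ :=
  if p.2 = 0 then (1 / 15) / Fintype.card (Γ t) else (4 / 15) * w p.1

theorem W0_nonneg (t : ℕ) (p : Γ t × ZMod 2) : 0 ≤ W0 t p := by
  unfold W0
  split_ifs
  · positivity
  · exact mul_nonneg (by norm_num) (w_nonneg _)

theorem psd (t : ℕ) : (Matrix.of fun v u : V t => F (W0 t) (v + u)).PosSemidef := by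
  refine bochner V2 _ fun χ h => ?_
  rw [F_sum _ h]
  have h1 : IsCh fun c : C => χ (c, 0) := ⟨h.1, fun a b => by rw [← h.2]; simp⟩
  have h2 : IsCh fun g : Γ t => χ (0, g, 0) := ⟨h.1, fun a b => by rw [← h.2]; simp⟩
  obtain ⟨b1, b2⟩ := S_bd h1
  obtain ⟨a1, a2, a3⟩ := avg h2
  have hN : (0 : ℝ) < Fintype.card (Γ t) := by exact_mod_cast Fintype.card_pos
  have e0 : ∑ g, W0 t (g, 0) * χ (0, g, 0) = if ∀ g, χ (0, g, 0) = 1 then 1 / 15 else 0 := by
    simp only [W0, if_true, ← Finset.mul_sum]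
    rw [h2.sum]
    split_ifs
    · field_simp
    · simp
  have e1 : ∑ g, W0 t (g, 1) * χ (0, g, 0) =
      4 / 15 * ((∑ p : X t × X t, χ (0, R p, 0)) / (Fintype.card (X t) : ℝ) ^ 2) := by
    rw [← w_sum (fun g => χ (0, g, 0)), Finset.mul_sum]
    refine Finset.sum_congr rfl fun g _ => ?_
    simp only [W0, if_neg (show ¬ (1 : ZMod 2) = 0 by decide)]; ring
  rw [e0, e1]
  set E := (∑ p : X t × X t, χ (0, R p, 0)) / (Fintype.card (X t) : ℝ) ^ 2 with hE
  have E0 : 0 ≤ E := div_nonneg a1 (cX t).le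
  have E1 : E ≤ 1 := (div_le_one (cX t)).mpr a2
  set s := ∑ c ∈ S, χ (c, 0)
  split_ifs with hall
  · rcases h.pm V2 (0, 0, 1) with hz | hz <;> rw [hz] <;> nlinarith
  · have E2 : E ≤ 1 / 2 := by
      rw [hE, div_le_iff₀ (cX t)]
      have := a3 hall
      linarith
    rcases h.pm V2 (0, 0, 1) with hz | hz <;> rw [hz] <;> nlinarith

theorem F_pow {t : ℕ} (W : Γ t × ZMod 2 → ℝ) {β : ℝ} (hβ : β ≠ 0) (v : V t) :
    F W v ^ β = F (fun p => W p ^ β) v := by
  unfold F
  split_ifs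
  · simp
  · rfl
  · exact Real.zero_rpow hβ

theorem not_psd (t : ℕ) (s : ℝ) (hs : 0 < s)
    (h1 : 5 / 6 ≤ ((4 / 15) * (1 / (Fintype.card (X t) : ℝ) ^ 2)) ^ s)
    (h2 : ((1 / 15) / (Fintype.card (Γ t) : ℝ)) ^ s ≤ 1 / 4) :
    ¬ ((Matrix.of fun v u : V t => F (W0 t) (v + u)).map fun x : ℝ => x ^ (1 + s)).PosSemidef := by
  intro hP
  have hβ : (1 + s) ≠ 0 := by linarith
  have e : ((Matrix.of fun v u : V t => F (W0 t) (v + u)).map fun x : ℝ => x ^ (1 + s)) =
      Matrix.of fun v u : V t => F (fun p => W0 t p ^ (1 + s)) (v + u) := by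
    ext v u; simp [F_pow _ hβ]
  rw [e] at hP
  let χ : V t → ℝ := fun v => if v.2.2 = 0 then 1 else -1
  have hχ : IsCh χ := by
    refine ⟨by simp [χ], fun v u => ?_⟩
    have : ∀ a b : ZMod 2, (if a + b = 0 then (1 : ℤ) else -1) =
        (if a = 0 then 1 else -1) * (if b = 0 then 1 else -1) := by decide
    have := congrArg (Int.cast : ℤ → ℝ) (this v.2.2 u.2.2)
    simpa [χ] using this
  have := hP.dotProduct_mulVec_nonneg χ
  rw [star_trivial, quad hχ V2, F_sum _ hχ] at this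
  have hN : (0 : ℝ) < Fintype.card (V t) := by exact_mod_cast Fintype.card_pos
  have hM : (0 : ℝ) < Fintype.card (Γ t) := by exact_mod_cast Fintype.card_pos
  have h3 := le_of_mul_le_mul_left (le_trans (le_of_eq (mul_zero _)) this) hN
  have c1 : ∑ c ∈ S, χ (c, 0) = 5 := by rw [S_sum]; simp [χ]; norm_num
  have c2 : χ (0, 0, 1) = -1 := if_neg (show ¬ (1 : ZMod 2) = 0 by decide)
  have c3 : ∀ g, χ (0, g, 0) = 1 := fun g => if_pos rfl
  simp only [c1, c2, c3, mul_one] at h3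
  have d0 : ∑ g : Γ t, W0 t (g, 0) ^ (1 + s) ≤ 1 / 15 * (1 / 4) := by
    simp only [W0, if_true, Finset.sum_const, Finset.card_univ, nsmul_eq_mul]
    rw [Real.rpow_add (by positivity), Real.rpow_one, ← mul_assoc, mul_div_cancel₀ _ hM.ne']
    linarith
  have d1 : 4 / 15 * (5 / 6) ≤ ∑ g : Γ t, W0 t (g, 1) ^ (1 + s) := by
    have : (4 / 15 * (5 / 6) : ℝ) = ∑ g : Γ t, 4 / 15 * w g * (5 / 6) := by
      rw [← Finset.sum_mul, ← Finset.mul_sum, w_tot]; norm_num
    rw [this]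
    refine Finset.sum_le_sum fun g _ => ?_
    simp only [W0, if_neg (show ¬ (1 : ZMod 2) = 0 by decide)]
    rcases w_ge g with h0 | h0
    · rw [h0, mul_zero, zero_mul, Real.zero_rpow hβ]
    · have hp : 0 < 1 / (Fintype.card (X t) : ℝ) ^ 2 := one_div_pos.mpr (cX t)
      have hw : 0 < w g := lt_of_lt_of_le hp h0
      rw [Real.rpow_add (by positivity), Real.rpow_one]
      refine mul_le_mul_of_nonneg_left (le_trans h1 ?_) (by positivity)
      exact Real.rpow_le_rpow (by positivity) (by linarith) hs.le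
  linarith

theorem num1 : (5 / 6 : ℝ) ≤ ((4 / 15) * (1 / (Fintype.card (X 17) : ℝ) ^ 2)) ^ (1 / 144 : ℝ) := by
  have hc : (Fintype.card (X 17) : ℝ) = 2 ^ 17 := by simp; norm_num
  rw [hc]
  have : (5 / 6 : ℝ) = ((5 / 6 : ℝ) ^ (144 : ℕ)) ^ (1 / 144 : ℝ) := by
    rw [one_div]; exact (Real.pow_rpow_inv_natCast (by norm_num) (by norm_num)).symm
  rw [this]
  exact Real.rpow_le_rpow (by positivity) (by norm_num) (by norm_num)

theorem num2 : ((1 / 15) / (Fintype.card (Γ 17) : ℝ)) ^ (1 / 144 : ℝ) ≤ 1 / 4 := by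
  have hc : (Fintype.card (Γ 17) : ℝ) = (2 ^ 17) ^ 17 := by
    rw [Fintype.card_fun, Fintype.card_fun, ZMod.card, Fintype.card_fin]; norm_num
  rw [hc]
  have : (1 / 4 : ℝ) = ((1 / 4 : ℝ) ^ (144 : ℕ)) ^ (1 / 144 : ℝ) := by
    rw [one_div (144 : ℝ)]; exact (Real.pow_rpow_inv_natCast (by norm_num) (by norm_num)).symm
  rw [this]
  exact Real.rpow_le_rpow (by positivity) (by norm_num) (by norm_num)

def G (t : ℕ) : SimpleGraph (V t) where
  Adj v u := v.1 + u.1 ∈ S
  symm := ⟨fun v u h => by rwa [add_comm]⟩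
  loopless := ⟨fun v h => by rw [C2] at h; exact S_zero h⟩

theorem four {s : ℕ} (hs : 4 ≤ s) (a b : Fin s) :
    ∃ i j : Fin s, i ≠ j ∧ i ≠ a ∧ i ≠ b ∧ j ≠ a ∧ j ≠ b := by
  have h : 1 < (univ \ ({a, b} : Finset (Fin s))).card := by
    rw [Finset.card_univ_diff, Fintype.card_fin]
    have := Finset.card_le_two (a := a) (b := b)
    omega
  obtain ⟨i, hi, j, hj, hij⟩ := Finset.one_lt_card.mp h
  simp only [Finset.mem_sdiff, Finset.mem_univ, true_and, Finset.mem_insert, Finset.mem_singleton,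
    not_or] at hi hj
  exact ⟨i, j, hij, hi.1, hi.2, hj.1, hj.2⟩

theorem rle (t s : ℕ) (h : ∃ f : Fin s → V t, Function.Injective f ∧ ∃ a b : Fin s, a ≠ b ∧
    ∀ i j : Fin s, i ≠ j → ¬(i = a ∧ j = b) → ¬(i = b ∧ j = a) → (G t).Adj (f i) (f j)) : s ≤ 3 := by
  by_contra hs
  obtain ⟨f, -, a, b, -, h⟩ := h
  obtain ⟨i, j, h1, h2, h3, h4, h5⟩ := four (by omega) a b
  have e1 : (f i).1 + (f j).1 ∈ S := h i j h1 (by tauto) (by tauto)
  have e2 : (f i).1 + (f a).1 ∈ S := h i a h2 (by tauto) (by tauto)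
  have e3 : (f j).1 + (f a).1 ∈ S := h j a h4 (by tauto) (by tauto)
  refine S_tri _ e2 _ e3 ?_
  have : (f i).1 + (f a).1 + ((f j).1 + (f a).1) = (f i).1 + (f j).1 + ((f a).1 + (f a).1) := by abel
  rw [this, C2, add_zero]; exact e1

theorem rge (t : ℕ) : ∃ f : Fin 3 → V t, Function.Injective f ∧ ∃ a b : Fin 3, a ≠ b ∧
    ∀ i j : Fin 3, i ≠ j → ¬(i = a ∧ j = b) → ¬(i = b ∧ j = a) → (G t).Adj (f i) (f j) := by
  let c : Fin 3 → C := ![(1,0,0,0), (0,1,0,0), 0]
  have hc : Function.Injective c := by decide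
  have ha : ∀ i j : Fin 3, i ≠ j → ¬(i = 0 ∧ j = 1) → ¬(i = 1 ∧ j = 0) → c i + c j ∈ S := by decide
  exact ⟨fun i => (c i, 0), fun i j h => hc (congrArg Prod.fst h), 0, 1, by decide, ha⟩

theorem supp (t : ℕ) (v u : V t) (h : v ≠ u) (h' : ¬ (G t).Adj v u) : F (W0 t) (v + u) = 0 := by
  have : v + u ≠ 0 := fun h0 => h (by
    calc v = v + (u + u) := by rw [V2, add_zero]
      _ = u := by rw [← add_assoc, h0, zero_add])
  unfold F
  rw [if_neg this, if_neg (show (v + u).1 ∉ S from h')]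

theorem F_nonneg (t : ℕ) (v : V t) : 0 ≤ F (W0 t) v := by
  unfold F
  split_ifs
  · norm_num
  · exact W0_nonneg _ _
  · exact le_rfl

theorem cardV (t : ℕ) : 2 ≤ Fintype.card (V t) :=
  Fintype.one_lt_card_iff.mpr ⟨(0, 0, 0), (0, 0, 1), fun h => by
    have := congrArg (fun v : V t => v.2.2) h
    exact absurd this (show ¬ (0 : ZMod 2) = 1 by decide)⟩

end Pool.Agent.H8.CE
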