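import Mathlib

set_option autoImplicit false

namespace Pool.Agent.H8.Cal

open Set Filter Topology Function

lemma basic {X : Type} {O : Set (X → ℝ)} (hO : IsOpen O) (h : 0 ∈ O) :
    ∃ I : Set X, I.Finite ∧ ∀ g : X → ℝ, (∀ x ∈ I, g x = 0) → g ∈ O := by
  obtain ⟨I, u, h1, h2⟩ := isOpen_pi_iff.1 hO _ h
  exact ⟨I, I.finite_toSet, fun g hg => h2 fun x hx => hg x hx ▸ (h1 x hx).2⟩

lemma core {X : Type} [TopologicalSpace X] [T35Space X]
    (h : ∀ D : Set (X → ℝ), (∀ d ∈ D, Continuous d) →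
        (∀ d ∈ D, ∃ U : Set (X → ℝ), IsOpen U ∧ U ∩ D = {d}) →
        ∀ f ∈ closure D, Continuous f →
          ∃ 𝒰 : Set (Set (X → ℝ)), 𝒰.Countable ∧ (∀ U ∈ 𝒰, IsOpen U ∧ f ∈ U) ∧
            ⋂₀ 𝒰 ∩ {g | g ∈ closure D ∧ Continuous g} = {f})
    {ι : Type} {r : ι → ι → Prop} (wo : IsWellOrder ι r) (V : ι → Set X)
    (h1 : ∀ i, IsOpen (V i) ∧ (V i).Nonempty) (h2 : ∀ i j, r i j → V j ⊆ V i)
    (h3 : ∀ Q : Set X, Q.Countable → ∃ i, ∀ x ∈ Q, x ∉ V i) : False := by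
  let P : ι → (X → ℝ) → Prop := fun i f => Continuous f ∧ (∃ x ∉ V i, f x ≠ 0) ∧
    ∀ j, r j i → ∀ x ∉ V j, f x = 0
  have : ∀ i, ∃ f, (∃ f, P i f) → P i f := fun i => by
    by_cases h : ∃ f, P i f
    exacts [h.imp fun f hf _ => hf, ⟨0, fun h' => absurd h' h⟩]
  choose G hG using this
  have ha : ∀ Q : Set X, Q.Countable → ∃ i, (∃ f, P i f) ∧ ∀ x ∈ Q, G i x = 0 := fun Q hQ => by
    obtain ⟨i₀, h4⟩ := h3 Q hQ
    obtain ⟨y, hy⟩ := (h1 i₀).2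
    obtain ⟨f, h5, h6, h7⟩ := CompletelyRegularSpace.completely_regular y (V i₀)ᶜ
      (h1 i₀).1.isClosed_compl fun h => h hy
    obtain ⟨i, ⟨x, h8, h9⟩, h10⟩ := wo.wf.has_min {i | ∃ x ∉ V i, 1 - (f x : ℝ) ≠ 0}
      ((h3 {y} (countable_singleton y)).imp fun i hi => ⟨y, hi y rfl, by simp [h6]⟩)
    have h11 : ∃ f, P i f := ⟨fun x => 1 - (f x : ℝ), by fun_prop, ⟨x, h8, h9⟩,
      fun j hj x hx => by_contra fun hc => h10 j ⟨x, hx, hc⟩ hj⟩
    refine ⟨i, h11, fun z hz => (hG i h11).2.2 i₀ ?_ z (h4 z hz)⟩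
    have h12 : x ∈ V i₀ := by_contra fun hc => h9 (by simp [h7 hc])
    rcases trichotomous_of r i₀ i with h | h | h
    exacts [h, absurd (h ▸ h12) h8, absurd (h2 _ _ h h12) h8]
  let F : Set (X → ℝ) := G '' {i | ∃ f, P i f}
  let D : Set (X → ℝ) := {d ∈ F | ∃ U, IsOpen U ∧ U ∩ F = {d}}
  have hb : F ⊆ closure D := by
    rintro _ ⟨i₀, h4, rfl⟩
    refine mem_closure_iff.2 fun O hO h5 => ?_
    obtain ⟨i, ⟨h6, h7⟩, h8⟩ := wo.wf.has_min {i | (∃ f, P i f) ∧ G i ∈ O} ⟨i₀, h4, h5⟩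
    obtain ⟨x, h9, h10⟩ := (hG i h6).2.1
    refine ⟨G i, h7, ⟨i, h6, rfl⟩, O ∩ {g | g x ≠ 0},
      hO.inter (isOpen_ne_fun (continuous_apply x) continuous_const),
      Set.eq_singleton_iff_unique_mem.2 ⟨⟨⟨h7, h10⟩, i, h6, rfl⟩, ?_⟩⟩
    rintro _ ⟨⟨h11, h12⟩, j, h13, rfl⟩
    rcases trichotomous_of r i j with h | h | h
    exacts [absurd ((hG j h13).2.2 i h x h9) h12, h ▸ rfl, absurd h (h8 j ⟨h13, h11⟩)]
  have hc : (0 : X → ℝ) ∈ closure D := closure_minimal hb isClosed_closure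
    (mem_closure_iff.2 fun O hO h4 => by
      obtain ⟨I, h5, h6⟩ := basic hO h4
      obtain ⟨i, h7, h8⟩ := ha I h5.countable
      exact ⟨G i, h6 _ h8, i, h7, rfl⟩)
  obtain ⟨𝒰, h4, h5, h6⟩ := h D (by rintro _ ⟨⟨i, hi, rfl⟩, -⟩; exact (hG i hi).1) (by
    rintro d ⟨h4, U, h5, h6⟩
    exact ⟨U, h5, Set.eq_singleton_iff_unique_mem.2 ⟨⟨(h6.ge rfl).1, h4, U, h5, h6⟩,
      fun e he => h6.le ⟨he.1, he.2.1⟩⟩⟩) 0 hc continuous_const
  choose! I h7 h8 using fun U hU => basic (h5 U hU).1 (h5 U hU).2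
  obtain ⟨i, h9, h10⟩ := ha (⋃ U ∈ 𝒰, I U) (h4.biUnion fun U hU => (h7 U hU).countable)
  obtain ⟨x, -, h11⟩ := (hG i h9).2.1
  exact h11 (congrFun (h6.le ⟨fun U hU => h8 U hU _ fun x hx => h10 x (mem_biUnion hU hx),
    hb ⟨i, h9, rfl⟩, (hG i h9).1⟩) x)

lemma sep {X : Type} [TopologicalSpace X] [T35Space X]
    (h : ∀ D : Set (X → ℝ), (∀ d ∈ D, Continuous d) →
        (∀ d ∈ D, ∃ U : Set (X → ℝ), IsOpen U ∧ U ∩ D = {d}) →
        ∀ f ∈ closure D, Continuous f →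
          ∃ 𝒰 : Set (Set (X → ℝ)), 𝒰.Countable ∧ (∀ U ∈ 𝒰, IsOpen U ∧ f ∈ U) ∧
            ⋂₀ 𝒰 ∩ {g | g ∈ closure D ∧ Continuous g} = {f})
    (A : Set (X → ℝ)) (h1 : A.Countable) (h2 : ∀ f ∈ A, Continuous f)
    (h3 : ∀ f, Continuous f → f ∈ closure A) : TopologicalSpace.SeparableSpace X := by
  rcases isEmpty_or_nonempty X with hX | ⟨⟨x₀⟩⟩
  · infer_instance
  obtain ⟨a, rfl⟩ := h1.exists_eq_range (closure_nonempty_iff.1 ⟨0, h3 0 continuous_const⟩)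
  let d : ℕ → X → ℝ := fun n x => a n.unpair.1 x - a n.unpair.1 x₀ + 1 / ((n : ℝ) + 1)
  have h4 : ∀ n, d n x₀ = 1 / ((n : ℝ) + 1) := fun n => by simp [d]
  have h5 : ∀ g : X → ℝ, Continuous g → g x₀ = 0 → g ∈ closure (range d) := fun g hg h0 => by
    have h5 : Continuous fun f : X → ℝ => fun x => f x - f x₀ := by fun_prop
    have h6 := map_mem_closure h5 (h3 g hg) (t := closure (range d)) (by
      rintro _ ⟨k, rfl⟩
      refine mem_closure_of_tendsto (b := atTop) (f := fun m => d (Nat.pair k m))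
        (tendsto_pi_nhds.2 fun x => ?_) (Eventually.of_forall fun m => mem_range_self _)
      simpa [d] using (tendsto_one_div_add_atTop_nhds_zero_nat (𝕜 := ℝ)).comp
        (tendsto_atTop_mono (fun m => Nat.right_le_pair k m) tendsto_id) |>.const_add
          (a k x - a k x₀))
    simpa [h0] using h6
  obtain ⟨𝒰, h6, h7, h8⟩ := h (range d) (by
    rintro _ ⟨n, rfl⟩
    exact ((h2 _ (mem_range_self _)).sub continuous_const).add continuous_const) (by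
    rintro _ ⟨n, rfl⟩
    refine ⟨{g | 1 / ((n : ℝ) + 3 / 2) < g x₀ ∧ g x₀ < 1 / ((n : ℝ) + 1 / 2)},
      IsOpen.and (isOpen_lt continuous_const (continuous_apply _))
        (isOpen_lt (continuous_apply _) continuous_const),
      Set.eq_singleton_iff_unique_mem.2 ⟨⟨⟨?_, ?_⟩, mem_range_self _⟩, ?_⟩⟩
    · rw [h4]; exact one_div_lt_one_div_of_lt (by positivity) (by linarith)
    · rw [h4]; exact one_div_lt_one_div_of_lt (by positivity) (by linarith)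
    · rintro _ ⟨⟨h6, h7⟩, m, rfl⟩
      rw [h4, one_div_lt_one_div (by positivity) (by positivity)] at h6 h7
      congr 1
      refine le_antisymm (Nat.lt_add_one_iff.1 ?_) (Nat.lt_add_one_iff.1 ?_)
      · exact_mod_cast (by linarith : (m : ℝ) < n + 1)
      · exact_mod_cast (by linarith : (n : ℝ) < m + 1)) 0 (h5 0 continuous_const rfl)
    continuous_const
  choose! I h9 h10 using fun U hU => basic (h7 U hU).1 (h7 U hU).2
  refine ⟨insert x₀ (⋃ U ∈ 𝒰, I U), (h6.biUnion fun U hU => (h9 U hU).countable).insert _,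
    fun y => by_contra fun hy => ?_⟩
  obtain ⟨f, h11, h12, h13⟩ := CompletelyRegularSpace.completely_regular y _ isClosed_closure hy
  have h14 : ∀ x ∈ insert x₀ (⋃ U ∈ 𝒰, I U), 1 - (f x : ℝ) = 0 := fun x hx => by
    simp [h13 (subset_closure hx)]
  have h15 : Continuous fun x => 1 - (f x : ℝ) := by fun_prop
  simpa [h12] using congrFun (h8.le ⟨fun U hU => h10 U hU _ fun x hx =>
    h14 x (Or.inr (mem_biUnion hU hx)), h5 _ h15 (h14 _ (Or.inl rfl)), h15⟩) y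

end Pool.Agent.H8.Cal
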