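import Mathlib

namespace Pool.Agent.H8.Card

open Set Filter
open scoped Cardinal

/-- the bounding number -/
noncomputable def bNum : Cardinal :=
  sInf {c | ∃ B : Set (ℕ → ℕ), (¬ ∃ g : ℕ → ℕ, ∀ f ∈ B, ∀ᶠ n in atTop, f n ≤ g n) ∧ #B = c}

/-- groupwise dense families of infinite subsets of `ℕ` -/
def GDense (G : Set (Set ℕ)) : Prop :=
  (∀ M ∈ G, M.Infinite) ∧ (∀ M ∈ G, ∀ M' : Set ℕ, M'.Infinite → (M' \ M).Finite → M' ∈ G) ∧
  ∀ p : ℕ → ℕ, p 0 = 0 → StrictMono p →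
    ∃ J : Set ℕ, J.Infinite ∧ (⋃ j ∈ J, Ico (p j) (p (j + 1))) ∈ G

/-- the groupwise density number -/
noncomputable def gNum : Cardinal :=
  sInf {c | ∃ 𝒢 : Set (Set (Set ℕ)), (∀ G ∈ 𝒢, GDense G) ∧ ⋂₀ 𝒢 = ∅ ∧ #𝒢 = c}

/-- the groupwise density number for ideals -/
noncomputable def gfNum : Cardinal :=
  sInf {c | ∃ 𝒢 : Set (Set (Set ℕ)), (∀ G ∈ 𝒢, GDense G ∧ ∀ M ∈ G, ∀ M' ∈ G, M ∪ M' ∈ G) ∧
    ⋂₀ 𝒢 = ∅ ∧ #𝒢 = c}

theorem bdd {ι : Type} (h : #ι < bNum) (φ : ι → ℕ → ℕ) :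
    ∃ g : ℕ → ℕ, ∀ i, ∀ᶠ n in atTop, φ i n ≤ g n := by
  by_contra hn
  have : bNum ≤ #(range φ) := csInf_le' ⟨range φ, fun ⟨g, hg⟩ =>
    hn ⟨g, fun i => hg _ ⟨i, rfl⟩⟩, rfl⟩
  exact absurd (this.trans Cardinal.mk_range_le) (not_le.2 h)

theorem core {ι : Type} (hb : #ι < bNum) (hg : #ι < max gNum gfNum) (Y : ι → Set (ℕ → ℕ → Prop))
    (hY : ∀ a, ∀ p : ℕ → ℕ, StrictMono p → ∃ j : ℕ → ℕ, (∀ n, n ≤ j n) ∧ ∀ y ∈ Y a,
      ∀ᶠ n in atTop, ∀ n' ≤ n, ∀ m ∈ Ico (p (j n)) (p (j n + 1)), y n' m) :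
    ∃ m : ℕ → ℕ, ∀ a, ∀ y ∈ Y a, ∀ᶠ n in atTop, y n (m n) := by
  classical
  let G : ι → Set (Set ℕ) := fun a => {M | M.Infinite ∧ ∃ k : ℕ → ℕ, ∀ y ∈ Y a,
    ∃ N, ∀ m ∈ M, N ≤ m → ∀ n, k n ≤ m → y n m}
  have h1 : ∀ a, GDense (G a) ∧ ∀ M ∈ G a, ∀ M' ∈ G a, M ∪ M' ∈ G a := by
    intro a
    refine ⟨⟨fun M h => h.1, ?_, fun p _ hp => ?_⟩, ?_⟩
    · rintro M ⟨-, k, hk⟩ M' h1 h2
      obtain ⟨L, hL⟩ := h2.bddAbove
      refine ⟨h1, k, fun y hy => ?_⟩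
      obtain ⟨N, hN⟩ := hk y hy
      refine ⟨N + L + 1, fun m hm h3 => hN m ?_ (by omega)⟩
      by_contra hc
      have := hL ⟨hm, hc⟩
      omega
    · obtain ⟨j, hj, hy⟩ := hY a p hp
      have hJ : (range j).Infinite := infinite_of_forall_exists_gt fun n =>
        ⟨j (n + 1), ⟨_, rfl⟩, hj (n + 1)⟩
      let k : ℕ → ℕ := fun n => (Finset.range n).sup fun i => p (j i + 1)
      have hk : ∀ n i m, k n ≤ m → m < p (j i + 1) → n ≤ i := by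
        intro n i m h1 h2
        by_contra hc
        have : p (j i + 1) ≤ k n :=
          Finset.le_sup (f := fun i => p (j i + 1)) (Finset.mem_range.2 (not_le.1 hc))
        omega
      refine ⟨range j, hJ, infinite_of_forall_exists_gt fun n => ?_, k, fun y hy' => ?_⟩
      · refine ⟨p (j (n + 1)), mem_biUnion (mem_range_self (n + 1)) ⟨le_rfl, hp (by omega)⟩, ?_⟩
        exact lt_of_lt_of_le (hj (n + 1)) (hp.id_le _)
      · obtain ⟨N, hN⟩ := eventually_atTop.1 (hy y hy')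
        refine ⟨k N, fun m hm h1 n h2 => ?_⟩
        obtain ⟨_, ⟨i, rfl⟩, hi⟩ := mem_iUnion₂.1 hm
        exact hN i (hk _ _ _ h1 hi.2) n (hk _ _ _ h2 hi.2) m hi
    · rintro M ⟨h1, k, hk⟩ M' ⟨-, k', hk'⟩
      refine ⟨h1.mono subset_union_left, fun n => max (k n) (k' n), fun y hy => ?_⟩
      obtain ⟨N, hN⟩ := hk y hy
      obtain ⟨N', hN'⟩ := hk' y hy
      refine ⟨N + N', fun m hm h3 n h4 => ?_⟩
      rcases hm with hm | hm
      · exact hN m hm (by omega) n (le_of_max_le_left h4)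
      · exact hN' m hm (by omega) n (le_of_max_le_right h4)
  have h2 : (⋂₀ range G).Nonempty := by
    rw [nonempty_iff_ne_empty]
    intro he
    rcases lt_max_iff.1 hg with h | h
    · have : gNum ≤ #(range G) :=
        csInf_le' ⟨range G, by rintro _ ⟨a, rfl⟩; exact (h1 a).1, he, rfl⟩
      exact absurd (this.trans Cardinal.mk_range_le) (not_le.2 h)
    · have : gfNum ≤ #(range G) :=
        csInf_le' ⟨range G, by rintro _ ⟨a, rfl⟩; exact h1 a, he, rfl⟩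
      exact absurd (this.trans Cardinal.mk_range_le) (not_le.2 h)
  obtain ⟨M, hM⟩ := h2
  cases isEmpty_or_nonempty ι with
  | inl h => exact ⟨id, fun a => h.elim a⟩
  | inr h =>
  have hI : M.Infinite := (hM _ ⟨Classical.arbitrary ι, rfl⟩).1
  choose k hk using fun a => (hM _ ⟨a, rfl⟩).2
  obtain ⟨K, hK⟩ := bdd hb k
  choose nx hnx hlt using hI.exists_gt
  refine ⟨fun n => nx (K n + n), fun a y hy => ?_⟩
  obtain ⟨N, hN⟩ := hk a y hy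
  filter_upwards [hK a, eventually_ge_atTop N] with n h1 h2
  have := hlt (K n + n)
  exact hN _ (hnx _) (by omega) n (by omega)

end Pool.Agent.H8.Card
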