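import Mathlib

set_option autoImplicit false
open Set Cardinal Function Filter Topology

namespace Pool.Agent.H8.CovM

/-- The line is not covered by `ι` many meagre sets. -/
def NoCov (ι : Type) : Prop := ∀ M : ι → Set ℝ, (∀ i, IsMeagre (M i)) → (⋃ i, M i) ≠ Set.univ

lemma NoCov.mono {ι κ : Type} [Nonempty κ] (h : NoCov ι) (hk : #κ ≤ #(Option ι × ℕ)) :
    NoCov κ := by
  obtain ⟨f⟩ := hk
  obtain ⟨g, hg⟩ := f.injective.hasLeftInverse
  intro M hM e
  have m : ∀ o, IsMeagre (⋃ n, M (g (o, n))) := fun o => isMeagre_iUnion fun n => hM _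
  have c : ∀ x, ∃ o, x ∈ ⋃ n, M (g (o, n)) := fun x => by
    obtain ⟨k, hk⟩ := mem_iUnion.1 (e ▸ mem_univ x : x ∈ ⋃ i, M i)
    exact ⟨(f k).1, mem_iUnion.2 ⟨(f k).2, by rwa [Prod.mk.eta, hg]⟩⟩
  rcases isEmpty_or_nonempty ι with hi | hi
  · refine not_isMeagre_of_isOpen isOpen_univ univ_nonempty ((m none).mono fun x _ => ?_)
    obtain ⟨_ | i, ho⟩ := c x
    · exact ho
    · exact hi.elim i
  · refine h (fun i => (⋃ n, M (g (some i, n))) ∪ ⋃ n, M (g (none, n)))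
      (fun i => (m _).union (m _)) (eq_univ_of_forall fun x => ?_)
    obtain ⟨_ | i, ho⟩ := c x
    · exact mem_iUnion.2 ⟨hi.some, Or.inr ho⟩
    · exact mem_iUnion.2 ⟨i, Or.inl ho⟩

section
variable {P : Type} (r : P → P → Prop) (e : ℕ → P)

open Classical in
/-- An automaton reading binary digits. -/
noncomputable def St : ℕ → ℤ → P × ℕ
  | 0, _ => (e 0, 0)
  | k + 1, a => if a % 2 = 0 then ((St k (a / 2)).1, (St k (a / 2)).2 + 1) else
      (if r (e (St k (a / 2)).2) (St k (a / 2)).1 then e (St k (a / 2)).2 else (St k (a / 2)).1, 0)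

/-- The dyadic interval. -/
def J (k : ℕ) (a : ℤ) : Set ℝ := Ioo ((a : ℝ) / 2 ^ k) ((a + 1) / 2 ^ k)

lemma J0 (k : ℕ) (a : ℤ) : J (k + 1) (2 * a) ⊆ J k a := by
  have : (0 : ℝ) < 2 ^ k := by positivity
  refine Ioo_subset_Ioo (le_of_eq ?_) ?_
  · push_cast; field_simp; ring
  · push_cast; rw [div_le_div_iff₀ (by positivity) this, pow_succ]; nlinarith

lemma J1 (k : ℕ) (a : ℤ) : J (k + 1) (2 * a + 1) ⊆ J k a := by
  have : (0 : ℝ) < 2 ^ k := by positivity
  refine Ioo_subset_Ioo ?_ (le_of_eq ?_)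
  · push_cast; rw [div_le_div_iff₀ this (by positivity), pow_succ]; nlinarith
  · push_cast; field_simp; ring

lemma St0 (k : ℕ) (a : ℤ) : St r e (k + 1) (2 * a) = ((St r e k a).1, (St r e k a).2 + 1) := by
  rw [St, if_pos (by omega), show 2 * a / 2 = a by omega]

open Classical in
lemma St1 (k : ℕ) (a : ℤ) : St r e (k + 1) (2 * a + 1) =
    (if r (e (St r e k a).2) (St r e k a).1 then e (St r e k a).2 else (St r e k a).1, 0) := by
  rw [St, if_neg (by omega), show (2 * a + 1) / 2 = a by omega]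

lemma reach (n k : ℕ) (a : ℤ) : ∃ a', J (k + n) a' ⊆ J k a ∧
    St r e (k + n) a' = ((St r e k a).1, (St r e k a).2 + n) := by
  induction n with
  | zero => exact ⟨a, subset_rfl, rfl⟩
  | succ n ih =>
    obtain ⟨b, h1, h2⟩ := ih
    exact ⟨2 * b, (J0 _ _).trans h1, by rw [← add_assoc, St0, h2]; rfl⟩

lemma fl {k : ℕ} {a : ℤ} {x : ℝ} (h : x ∈ J k a) : ⌊2 ^ k * x⌋ = a := by
  have : (0 : ℝ) < 2 ^ k := by positivity
  rw [Int.floor_eq_iff]
  exact ⟨by linarith [(div_lt_iff₀' this).1 h.1], (lt_div_iff₀' this).1 h.2⟩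

end

/-- Martin's axiom for countable preorders, from a lower bound on the covering number. -/
theorem chain {ι P : Type} [Countable P] [Nonempty P] (h : NoCov ι) (r : P → P → Prop)
    (hr : ∀ p, r p p) (D : ι → Set P) (hD : ∀ i p, ∃ q ∈ D i, r q p) :
    ∃ c : ℕ → P, (∀ k, r (c (k + 1)) (c k)) ∧ ∀ i m, ∃ k, m ≤ k ∧ c k ∈ D i := by
  classical
  obtain ⟨e, he⟩ := exists_surjective_nat P
  have := h (fun i => ⋃ m, {x | ∀ k, m ≤ k → (St r e k ⌊2 ^ k * x⌋).1 ∉ D i}) fun i => by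
    refine isMeagre_iUnion fun m => IsNowhereDense.isMeagre ?_
    rw [IsNowhereDense, eq_empty_iff_forall_notMem]
    intro x hx
    obtain ⟨ε, hε, hb⟩ := Metric.isOpen_iff.1 isOpen_interior x hx
    obtain ⟨k0, hk0⟩ := exists_pow_lt_of_lt_one hε (by norm_num : (1 / 2 : ℝ) < 1)
    let k := k0 + m
    have hk : (0 : ℝ) < 2 ^ k := by positivity
    have hk' : 1 / (2 : ℝ) ^ k < ε := by
      refine lt_of_le_of_lt ?_ hk0
      rw [one_div_pow]
      exact one_div_le_one_div_of_le (by positivity) (pow_le_pow_right₀ one_le_two (by omega))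
    have j1 : J k ⌊2 ^ k * x⌋ ⊆ Metric.ball x ε := fun y hy => by
      have h1 := Int.floor_le (2 ^ k * x)
      have h2 := Int.lt_floor_add_one (2 ^ k * x)
      have h3 := (div_lt_iff₀' hk).1 hy.1
      have h4 := (lt_div_iff₀' hk).1 hy.2
      rw [Metric.mem_ball, Real.dist_eq]
      refine lt_trans ?_ hk'
      rw [lt_div_iff₀ hk, ← abs_of_pos hk, ← abs_mul, abs_lt]
      constructor <;> linarith
    obtain ⟨q, q1, q2⟩ := hD i (St r e (k + 1) (2 * ⌊2 ^ k * x⌋ + 1)).1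
    obtain ⟨n, rfl⟩ := he q
    obtain ⟨b, b1, b2⟩ := reach r e n (k + 1) (2 * ⌊2 ^ k * x⌋ + 1)
    have b3 : (St r e (k + 1 + n + 1) (2 * b + 1)).1 = e n := by
      have : (St r e (k + 1) (2 * ⌊2 ^ k * x⌋ + 1)).2 = 0 := by rw [St1]
      rw [St1, b2, this, zero_add, if_pos q2]
    have j2 : (J (k + 1 + n + 1) (2 * b + 1)).Nonempty :=
      nonempty_Ioo.2 (div_lt_div_of_pos_right (lt_add_one _) (by positivity))
    obtain ⟨y, hy⟩ := j2
    have := interior_subset (hb (j1 (J1 _ _ (b1 (J1 _ _ hy)))))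
    obtain ⟨z, z1, z2⟩ := mem_closure_iff.1 this _ isOpen_Ioo hy
    exact z2 (k + 1 + n + 1) (by omega) (by rw [fl z1, b3]; exact q1)
  obtain ⟨x, hx⟩ := (ne_univ_iff_exists_notMem _).1 this
  refine ⟨fun k => (St r e k ⌊2 ^ k * x⌋).1, fun k => ?_, fun i m => ?_⟩
  · have : ⌊2 ^ (k + 1) * x⌋ / 2 = ⌊2 ^ k * x⌋ := by
      have := Int.floor_div_natCast (2 ^ (k + 1) * x) 2
      rw [show (2 : ℝ) ^ (k + 1) * x / (2 : ℕ) = 2 ^ k * x by push_cast; ring] at this
      exact_mod_cast this.symm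
    beta_reduce
    rw [St, this]
    split_ifs with h1 h2
    · exact hr _
    · exact h2
    · exact hr _
  · by_contra hc
    push Not at hc
    exact hx (mem_iUnion.2 ⟨i, mem_iUnion.2 ⟨m, hc⟩⟩)

end Pool.Agent.H8.CovM
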