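import Mathlib

open Set

namespace Pool.Agent.H8.Cval

def Ach (x : ℕ → ℝ) : Set ℝ := {s | ∃ A : Set ℕ, s = ∑' n, A.indicator x n}

theorem ach_cons {x : ℕ → ℝ} (hx : Summable x) (s : ℝ) :
    s ∈ Ach x ↔ s ∈ Ach (fun n => x (n + 1)) ∨ s - x 0 ∈ Ach (fun n => x (n + 1)) := by
  classical
  have key : ∀ A : Set ℕ, ∑' n, A.indicator x n =
      A.indicator x 0 + ∑' n, {n | n + 1 ∈ A}.indicator (fun n => x (n + 1)) n := by
    intro A
    rw [(hx.indicator A).tsum_eq_zero_add]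
    rfl
  constructor
  · rintro ⟨A, rfl⟩
    rw [key]
    by_cases h : 0 ∈ A
    · right; exact ⟨{n | n + 1 ∈ A}, by rw [indicator_of_mem h]; ring⟩
    · left; exact ⟨{n | n + 1 ∈ A}, by rw [indicator_of_notMem h]; ring⟩
  · rintro (⟨A, h⟩ | ⟨A, h⟩)
    · refine ⟨{n | ∃ m ∈ A, n = m + 1}, ?_⟩
      rw [key, indicator_of_notMem (by simp), h]
      simp
    · refine ⟨{n | n = 0 ∨ ∃ m ∈ A, n = m + 1}, ?_⟩
      rw [key, indicator_of_mem (by simp), ← sub_eq_iff_eq_add', h]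
      simp

theorem ach_smul (x : ℕ → ℝ) (c : ℝ) (hc : c ≠ 0) (s : ℝ) :
    s ∈ Ach (fun n => x n / c) ↔ c * s ∈ Ach x := by
  have key : ∀ A : Set ℕ, ∑' n, A.indicator (fun n => x n / c) n = (∑' n, A.indicator x n) / c := by
    intro A
    rw [← tsum_div_const]
    refine tsum_congr fun n => ?_
    by_cases h : n ∈ A <;> simp [h]
  constructor
  · rintro ⟨A, h⟩; exact ⟨A, by rw [h, key]; field_simp⟩
  · rintro ⟨A, h⟩; exact ⟨A, by rw [key, ← h]; field_simp⟩

theorem ach_compact {x : ℕ → ℝ} (hx : Summable x) : IsCompact (Ach x) := by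
  classical
  have : Ach x = range fun b : ℕ → Bool => ∑' n, if b n then x n else 0 := by
    ext s; constructor
    · rintro ⟨A, rfl⟩
      refine ⟨fun n => decide (n ∈ A), tsum_congr fun n => ?_⟩
      by_cases h : n ∈ A <;> simp [h]
    · rintro ⟨b, rfl⟩
      refine ⟨{n | b n}, tsum_congr fun n => ?_⟩
      by_cases h : b n <;> simp [h]
  rw [this]
  refine isCompact_range (continuous_tsum (u := fun n => ‖x n‖) (fun n => ?_) hx.norm fun n b => ?_)
  · exact (continuous_of_discreteTopology (f := fun t : Bool => if t then x n else 0)).comp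
      (continuous_apply n)
  · split_ifs <;> simp

theorem ach_symm {x : ℕ → ℝ} (hx : Summable x) {s : ℝ} (hs : s ∈ Ach x) :
    ∑' n, x n - s ∈ Ach x := by
  obtain ⟨A, rfl⟩ := hs
  refine ⟨Aᶜ, ?_⟩
  rw [← hx.tsum_sub (hx.indicator A)]
  refine tsum_congr fun n => ?_
  by_cases h : n ∈ A <;> simp [h]

theorem ach_nonneg {x : ℕ → ℝ} (hx : ∀ n, 0 ≤ x n) {s : ℝ} (hs : s ∈ Ach x) : 0 ≤ s := by
  obtain ⟨A, rfl⟩ := hs
  exact tsum_nonneg fun n => indicator_nonneg (fun n _ => hx n) n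

theorem ach_zero (x : ℕ → ℝ) : (0:ℝ) ∈ Ach x := ⟨∅, by simp⟩

noncomputable def y (n : ℕ) : ℝ := (if n % 2 = 0 then 3 else 2) / 4 ^ (n / 2 + 1)

theorem y_pos (n : ℕ) : 0 < y n := by unfold y; split_ifs <;> positivity

theorem y_shift : (fun n => y (n + 1 + 1)) = fun n => y n / 4 := by
  funext n
  unfold y
  rw [show (n + 1 + 1) % 2 = n % 2 by omega, show (n + 1 + 1) / 2 = n / 2 + 1 by omega, pow_succ]
  ring

theorem y_summable : Summable y := by
  refine Summable.of_nonneg_of_le (fun n => (y_pos n).le) (fun n => ?_)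
    ((summable_geometric_two).mul_left 3)
  unfold y
  have h : (2:ℝ) ^ n ≤ 4 ^ (n / 2 + 1) := by
    rw [show (4:ℝ) = 2 ^ 2 by norm_num, ← pow_mul]
    exact pow_le_pow_right₀ one_le_two (by omega)
  rw [one_div, inv_pow, ← div_eq_mul_inv]
  refine div_le_div₀ (by norm_num) (by split_ifs <;> norm_num) (by positivity) h

def K : Set ℝ := Ach y

theorem K_iff (s : ℝ) :
    s ∈ K ↔ 4 * s ∈ K ∨ 4 * s - 2 ∈ K ∨ 4 * s - 3 ∈ K ∨ 4 * s - 5 ∈ K := by
  have h1 : Summable fun n => y (n + 1) := (summable_nat_add_iff 1).2 y_summable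
  have e : ∀ s, s ∈ Ach (fun n => y (n + 1)) ↔ 4 * s ∈ K ∨ 4 * s - 2 ∈ K := by
    intro s
    rw [ach_cons h1, y_shift, ach_smul _ _ (by norm_num), ach_smul _ _ (by norm_num)]
    have : 4 * (s - y (0 + 1)) = 4 * s - 2 := by simp [y]; ring
    rw [this]; rfl
  conv_lhs => rw [K, ach_cons y_summable, e, e]
  have : 4 * (s - y 0) = 4 * s - 3 := by simp [y]; ring
  rw [this, show 4 * s - 3 - 2 = 4 * s - 5 by ring, or_assoc]

theorem y_tsum : ∑' n, y n = 5 / 3 := by
  have h1 : Summable fun n => y (n + 1) := (summable_nat_add_iff 1).2 y_summable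
  have e1 := y_summable.tsum_eq_zero_add
  have e2 := h1.tsum_eq_zero_add
  rw [y_shift, tsum_div_const] at e2
  have a0 : y 0 = 3 / 4 := by simp [y]
  have a1 : y (0 + 1) = 2 / 4 := by simp [y]
  linarith

theorem K_symm {s : ℝ} (hs : s ∈ K) : 5 / 3 - s ∈ K := y_tsum ▸ ach_symm y_summable hs
theorem K_nonneg {s : ℝ} (hs : s ∈ K) : 0 ≤ s := ach_nonneg (fun n => (y_pos n).le) hs
theorem K_le {s : ℝ} (hs : s ∈ K) : s ≤ 5 / 3 := by linarith [K_nonneg (K_symm hs)]
theorem K_zero : (0:ℝ) ∈ K := ach_zero y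
theorem K_compact : IsCompact K := ach_compact y_summable

theorem K_of {u : ℝ} (hu : u ∈ K) : u / 4 ∈ K ∧ (2 + u) / 4 ∈ K ∧ (3 + u) / 4 ∈ K ∧
    (5 + u) / 4 ∈ K := by
  refine ⟨(K_iff _).2 (.inl ?_), (K_iff _).2 (.inr (.inl ?_)), (K_iff _).2 (.inr (.inr (.inl ?_))),
    (K_iff _).2 (.inr (.inr (.inr ?_)))⟩ <;> convert hu using 1 <;> ring

theorem approx (n : ℕ) : (∀ s ∈ Icc (2/3:ℝ) 1, ∃ u ∈ K, |s - u| ≤ 1 / 4 ^ n) ∧
    (∀ s ∈ Icc (0:ℝ) (2/3), ∃ u, (u ∈ K ∨ u + 1 ∈ K) ∧ |s - u| ≤ 1 / 4 ^ n) := by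
  induction n with
  | zero =>
    exact ⟨fun s hs => ⟨0, K_zero, by rw [abs_le]; constructor <;> linarith [hs.1, hs.2]⟩,
      fun s hs => ⟨0, .inl K_zero, by rw [abs_le]; constructor <;> linarith [hs.1, hs.2]⟩⟩
  | succ n ih =>
    obtain ⟨i1, i2⟩ := ih
    have fin : ∀ s c u : ℝ, |4 * s - c - u| ≤ 1 / 4 ^ n → |s - (c + u) / 4| ≤ 1 / 4 ^ (n + 1) := by
      intro s c u h
      rw [show s - (c + u) / 4 = (4 * s - c - u) / 4 by ring, abs_div, pow_succ, ← div_div]
      norm_num at h ⊢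
      linarith
    constructor
    · intro s hs
      rcases le_total (4 * s) 3 with h | h
      · obtain ⟨u, hu, h2⟩ := i1 (4 * s - 2) ⟨by linarith [hs.1], by linarith⟩
        exact ⟨_, (K_of hu).2.1, fin _ _ _ h2⟩
      rcases le_total (4 * s) (11 / 3) with h' | h'
      · obtain ⟨u, hu, h2⟩ := i2 (4 * s - 3) ⟨by linarith, by linarith⟩
        refine ⟨(3 + u) / 4, ?_, fin _ _ _ h2⟩
        rcases hu with hu | hu
        · exact (K_of hu).2.2.1
        · convert (K_of hu).2.1 using 1; ring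
      · obtain ⟨u, hu, h2⟩ := i1 (4 * s - 3) ⟨by linarith, by linarith [hs.2]⟩
        exact ⟨_, (K_of hu).2.2.1, fin _ _ _ h2⟩
    · intro s hs
      rcases le_total (4 * s) (2 / 3) with h | h
      · obtain ⟨u, hu, h2⟩ := i2 (4 * s - 0) ⟨by linarith [hs.1], by linarith⟩
        refine ⟨(0 + u) / 4, ?_, fin _ _ _ h2⟩
        rcases hu with hu | hu
        · left; convert (K_of hu).1 using 1; ring
        · right; convert (K_of hu).2.2.1 using 1; ring
      rcases le_total (4 * s) 1 with h1 | h1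
      · obtain ⟨u, hu, h2⟩ := i1 (4 * s - 0) ⟨by linarith, by linarith⟩
        refine ⟨(0 + u) / 4, .inl ?_, fin _ _ _ h2⟩
        convert (K_of hu).1 using 1; ring
      rcases le_total (4 * s) (5 / 3) with h3 | h3
      · obtain ⟨u, hu, h2⟩ := i2 (4 * s - 1) ⟨by linarith, by linarith⟩
        refine ⟨(1 + u) / 4, ?_, fin _ _ _ h2⟩
        rcases hu with hu | hu
        · right; convert (K_of hu).2.2.2 using 1; ring
        · left; convert (K_of hu).1 using 1; ring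
      rcases le_total (4 * s) 2 with h4 | h4
      · obtain ⟨u, hu, h2⟩ := i1 (4 * s - 1) ⟨by linarith, by linarith⟩
        refine ⟨(1 + u) / 4, .inr ?_, fin _ _ _ h2⟩
        convert (K_of hu).2.2.2 using 1; ring
      · obtain ⟨u, hu, h2⟩ := i2 (4 * s - 2) ⟨by linarith, by linarith [hs.2]⟩
        refine ⟨(2 + u) / 4, ?_, fin _ _ _ h2⟩
        rcases hu with hu | hu
        · left; exact (K_of hu).2.1
        · right; convert (K_of hu).2.2.2 using 1; ring

theorem small (ε : ℝ) (hε : 0 < ε) : ∃ n : ℕ, 1 / (4:ℝ) ^ n < ε := by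
  obtain ⟨n, hn⟩ := exists_pow_lt_of_lt_one hε (by norm_num : (1/4:ℝ) < 1)
  exact ⟨n, by rwa [one_div_pow] at hn⟩

theorem J_sub {s : ℝ} (hs : s ∈ Icc (2/3:ℝ) 1) : s ∈ K := by
  rw [← K_compact.isClosed.closure_eq, Metric.mem_closure_iff]
  intro ε hε
  obtain ⟨n, hn⟩ := small ε hε
  obtain ⟨u, hu, h⟩ := (approx n).1 s hs
  exact ⟨u, hu, by rw [Real.dist_eq]; linarith⟩

theorem K_small {s : ℝ} (hs : s ∈ K) (h : s < 1 / 2) : 4 * s ∈ K := by
  rcases (K_iff s).1 hs with h1 | h1 | h1 | h1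
  · exact h1
  all_goals linarith [K_nonneg h1]

theorem K_mid {s : ℝ} (hs : s ∈ K) (h : 5 / 12 < s) (h' : s < 3 / 4) : 4 * s - 2 ∈ K := by
  rcases (K_iff s).1 hs with h1 | h1 | h1 | h1
  · linarith [K_le h1]
  · exact h1
  all_goals linarith [K_nonneg h1]

theorem gap0 (j : ℕ) : 11 / 24 / (4:ℝ) ^ j ∉ K := by
  induction j with
  | zero => intro h; have := K_le (K_small h (by norm_num)); norm_num at this
  | succ j ih =>
    intro h
    have h1 : (1:ℝ) ≤ 4 ^ (j + 1) := one_le_pow₀ (by norm_num)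
    apply ih
    convert K_small h (by rw [div_lt_iff₀ (by positivity)]; linarith) using 1
    rw [pow_succ]; field_simp

theorem gapL {g : ℝ} (h1 : 2 / 3 < g) (h2 : g < 1) (k : ℕ) : 2 / 3 - g / (4:ℝ) ^ k ∉ K := by
  induction k with
  | zero => intro h; have := K_nonneg h; norm_num at this; linarith
  | succ j ih =>
    intro h
    have h3 : (1:ℝ) ≤ 4 ^ j := one_le_pow₀ (by norm_num)
    have h4 : g / 4 ^ j ≤ g := div_le_self (by linarith) h3
    have h5 : 0 < g / 4 ^ j := by positivity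
    have e : g / 4 ^ (j + 1) = g / 4 ^ j / 4 := by rw [pow_succ, div_div]
    rw [e] at h
    apply ih
    convert K_mid h (by linarith) (by linarith) using 1
    ring

theorem gapP (j : ℕ) : 2 / 15 - 5 / 24 / (16:ℝ) ^ j ∉ K := by
  induction j with
  | zero => intro h; have := K_nonneg h; norm_num at this
  | succ j ih =>
    intro h
    have h3 : (1:ℝ) ≤ 16 ^ j := one_le_pow₀ (by norm_num)
    have h4 : 5 / 24 / (16:ℝ) ^ j ≤ 5 / 24 := div_le_self (by norm_num) h3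
    have h5 : 0 < 5 / 24 / (16:ℝ) ^ j := by positivity
    have e : 5 / 24 / (16:ℝ) ^ (j + 1) = 5 / 24 / 16 ^ j / 16 := by rw [pow_succ, div_div (5 / 24)]
    rw [e] at h
    apply ih
    convert K_mid (K_small h (by linarith)) (by linarith) (by linarith) using 1
    ring

theorem memP (j : ℕ) : 2 / 15 - 53 / 60 / (16:ℝ) ^ (j + 1) ∈ K := by
  induction j with
  | zero => convert (K_of (K_of (K_of K_zero).2.2.2).1).1 using 1; norm_num
  | succ j ih =>
    convert (K_of (K_of ih).2.1).1 using 1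
    rw [pow_succ _ (j + 1), ← div_div (53 / 60)]; ring

noncomputable def x : ℕ → ℝ
  | 0 => 8 / 15
  | n + 1 => y n

theorem x_pos (n : ℕ) : 0 < x n := by
  cases n with
  | zero => norm_num [x]
  | succ n => exact y_pos n

theorem x_summable : Summable x := (summable_nat_add_iff 1).1 y_summable

def E : Set ℝ := Ach x

theorem E_iff (s : ℝ) : s ∈ E ↔ s ∈ K ∨ s - 8 / 15 ∈ K := ach_cons x_summable s

theorem E_compact : IsCompact E := ach_compact x_summable

theorem E_symm {s : ℝ} (hs : s ∈ E) : 11 / 5 - s ∈ E := by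
  rw [E_iff] at *
  rcases hs with h | h
  · right; convert K_symm h using 1; ring
  · left; convert K_symm h using 1; ring

theorem E_dec (n : ℕ) : ∃ F : Finset ℝ, ∀ s, s ∈ E ↔ ∃ f ∈ F, ∃ u ∈ K, s = f + u / 4 ^ n := by
  classical
  induction n with
  | zero =>
    refine ⟨{0, 8 / 15}, fun s => ?_⟩
    rw [E_iff]
    constructor
    · rintro (h | h)
      · exact ⟨0, by simp, s, h, by simp⟩
      · exact ⟨8 / 15, by simp, _, h, by simp⟩
    · rintro ⟨f, hf, u, hu, rfl⟩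
      simp only [Finset.mem_insert, Finset.mem_singleton] at hf
      rcases hf with rfl | rfl
      · left; simpa using hu
      · right; simpa using hu
  | succ n ih =>
    obtain ⟨F, hF⟩ := ih
    refine ⟨(F ×ˢ ({0, 2, 3, 5} : Finset ℝ)).image fun q => q.1 + q.2 / 4 ^ (n + 1), fun s => ?_⟩
    rw [hF]
    constructor
    · rintro ⟨f, hf, u, hu, rfl⟩
      have : ∃ d ∈ ({0, 2, 3, 5} : Finset ℝ), 4 * u - d ∈ K := by
        rcases (K_iff u).1 hu with h | h | h | h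
        · exact ⟨0, by simp, by simpa using h⟩
        · exact ⟨2, by simp, h⟩
        · exact ⟨3, by simp, h⟩
        · exact ⟨5, by simp, h⟩
      obtain ⟨d, hd, h⟩ := this
      refine ⟨_, Finset.mem_image.2 ⟨(f, d), Finset.mem_product.2 ⟨hf, hd⟩, rfl⟩, _, h, ?_⟩
      rw [pow_succ]; field_simp; ring
    · rintro ⟨g, hg, u, hu, rfl⟩
      obtain ⟨⟨f, d⟩, hq, rfl⟩ := Finset.mem_image.1 hg
      obtain ⟨hf, hd⟩ := Finset.mem_product.1 hq
      refine ⟨f, hf, (d + u) / 4, ?_, ?_⟩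
      · simp only [Finset.mem_insert, Finset.mem_singleton] at hd
        rcases hd with rfl | rfl | rfl | rfl
        · simpa using (K_of hu).1
        · exact (K_of hu).2.1
        · exact (K_of hu).2.2.1
        · exact (K_of hu).2.2.2
      · simp only; rw [pow_succ]; field_simp; ring

theorem E_clint : closure (interior E) = E := by
  refine Subset.antisymm (closure_minimal interior_subset E_compact.isClosed) fun s hs => ?_
  rw [Metric.mem_closure_iff]
  intro ε hε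
  obtain ⟨n, hn⟩ := small ε hε
  obtain ⟨F, hF⟩ := E_dec n
  obtain ⟨f, hf, u, hu, rfl⟩ := (hF s).1 hs
  have hp : (0:ℝ) < 4 ^ n := by positivity
  refine ⟨f + 5 / 6 / 4 ^ n, ?_, ?_⟩
  · rw [mem_interior]
    refine ⟨Ioo (f + 2 / 3 / 4 ^ n) (f + 1 / 4 ^ n), fun t ht => ?_, isOpen_Ioo, ?_, ?_⟩
    · refine (hF t).2 ⟨f, hf, (t - f) * 4 ^ n, J_sub ⟨?_, ?_⟩, by field_simp; ring⟩
      · rw [← div_le_iff₀ hp]; linarith [ht.1]
      · rw [← le_div_iff₀ hp]; linarith [ht.2]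
    · exact add_lt_add_right (div_lt_div_of_pos_right (by norm_num) hp) _
    · exact add_lt_add_right (div_lt_div_of_pos_right (by norm_num) hp) _
  · rw [Real.dist_eq, show f + u / 4 ^ n - (f + 5 / 6 / 4 ^ n) = (u - 5 / 6) / 4 ^ n by ring,
      abs_div, abs_of_pos hp]
    refine lt_of_le_of_lt ?_ hn
    gcongr
    rw [abs_le]; constructor <;> linarith [K_nonneg hu, K_le hu]

theorem gapR {z c : ℝ} (hz : z < c) (h : ∀ t ∈ Ioo z c, t ∉ E) {w : ℝ} (hw : c < w) :
    ∃ t ∈ Ioo c w, t ∉ E := by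
  obtain ⟨n, hn⟩ := small ((c - z) / 2) (by linarith)
  obtain ⟨F, hF⟩ := E_dec n
  obtain ⟨δ, hδ, hδ1, hδ2⟩ : ∃ δ > 0, δ ≤ w - c ∧ ∀ f ∈ F, c < f → c + δ ≤ f := by
    classical
    have hne : (insert w (F.filter fun f => c < f)).Nonempty := Finset.insert_nonempty _ _
    refine ⟨(insert w (F.filter fun f => c < f)).min' hne - c, ?_, ?_, fun f hf hc => ?_⟩
    · have := Finset.min'_mem _ hne
      rw [Finset.mem_insert, Finset.mem_filter] at this
      rcases this with h | h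
      · rw [h]; linarith
      · linarith [h.2]
    · have := Finset.min'_le (insert w (F.filter fun f => c < f)) w (by simp); linarith
    · have := Finset.min'_le (insert w (F.filter fun f => c < f)) f (by simp [hf, hc]); linarith
  obtain ⟨j, hj⟩ := small δ hδ
  have hp : (0:ℝ) < 4 ^ n := by positivity
  have hp1 : (1:ℝ) ≤ 4 ^ n := one_le_pow₀ (by norm_num)
  have h1 : 0 < 11 / 24 / (4:ℝ) ^ j / 4 ^ n := by positivity
  have h2 : 11 / 24 / (4:ℝ) ^ j / 4 ^ n < δ := by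
    refine (div_le_self (by positivity) hp1).trans_lt (lt_of_le_of_lt ?_ hj)
    gcongr; norm_num
  refine ⟨c + 11 / 24 / 4 ^ j / 4 ^ n, ⟨by linarith, by linarith⟩, fun hm => ?_⟩
  obtain ⟨f, hf, u, hu, e⟩ := (hF _).1 hm
  have h3 : 0 ≤ u / 4 ^ n := div_nonneg (K_nonneg hu) hp.le
  have h4 : u / 4 ^ n ≤ 2 * (1 / 4 ^ n) := by
    rw [mul_one_div]; gcongr; linarith [K_le hu]
  rcases lt_trichotomy f c with h5 | h5 | h5
  · have hfE : f ∈ E := (hF f).2 ⟨f, hf, 0, K_zero, by simp⟩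
    have : f ≤ z := by by_contra h6; exact h f ⟨not_le.1 h6, h5⟩ hfE
    linarith
  · rw [h5, add_right_inj, div_left_inj' hp.ne'] at e
    exact gap0 j (e ▸ hu)
  · linarith [hδ2 f hf h5]

theorem gapLft {z c : ℝ} (hz : c < z) (h : ∀ t ∈ Ioo c z, t ∉ E) {w : ℝ} (hw : w < c) :
    ∃ t ∈ Ioo w c, t ∉ E := by
  obtain ⟨t, ht, h2⟩ := gapR (z := 11 / 5 - z) (c := 11 / 5 - c) (w := 11 / 5 - w) (by linarith)
    (fun t ht hE => h _ ⟨by linarith [ht.2], by linarith [ht.1]⟩ (E_symm hE)) (by linarith)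
  exact ⟨11 / 5 - t, ⟨by linarith [ht.2], by linarith [ht.1]⟩,
    fun hE => h2 (by simpa using E_symm hE)⟩

theorem single {c : ℝ} (hc : c ∈ E) (h1 : ∀ w, w < c → ∃ t ∈ Ioo w c, t ∉ E)
    (h2 : ∀ w, c < w → ∃ t ∈ Ioo c w, t ∉ E) : connectedComponentIn E c = {c} := by
  refine Subset.antisymm (fun w hw => ?_) (singleton_subset_iff.2 (mem_connectedComponentIn hc))
  have ho := (isPreconnected_connectedComponentIn (F := E) (x := c)).ordConnected
  have hc' := mem_connectedComponentIn hc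
  rcases lt_trichotomy w c with h | h | h
  · obtain ⟨t, ht, h3⟩ := h1 w h
    exact absurd (connectedComponentIn_subset _ _ (ho.out hw hc' ⟨ht.1.le, ht.2.le⟩)) h3
  · exact h
  · obtain ⟨t, ht, h3⟩ := h2 w h
    exact absurd (connectedComponentIn_subset _ _ (ho.out hc' hw ⟨ht.1.le, ht.2.le⟩)) h3

theorem endL {p : ℝ} (hp : p ∈ E) :
    sInf (connectedComponentIn E p) ∈ closure {y ∈ E | connectedComponentIn E y = {y}} := by
  set C := connectedComponentIn E p with hC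
  have hCE : C ⊆ E := connectedComponentIn_subset _ _
  have hpC : p ∈ C := mem_connectedComponentIn hp
  have hb : BddBelow C := E_compact.bddBelow.mono hCE
  have haE : sInf C ∈ E :=
    closure_minimal hCE E_compact.isClosed (csInf_mem_closure ⟨p, hpC⟩ hb)
  have ho : C.OrdConnected := isPreconnected_connectedComponentIn.ordConnected
  rw [Metric.mem_closure_iff]
  intro ε hε
  obtain ⟨z, hz, hzE⟩ : ∃ z ∈ Ico (sInf C - ε / 2) (sInf C), z ∉ E := by
    by_contra hcon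
    push Not at hcon
    have hsub : Icc (sInf C - ε / 2) p ⊆ E := by
      intro t ht
      rcases lt_trichotomy t (sInf C) with h | h | h
      · exact hcon t ⟨ht.1, h⟩
      · rw [h]; exact haE
      · obtain ⟨q, hq, hqt⟩ := exists_lt_of_csInf_lt ⟨p, hpC⟩ h
        exact hCE (ho.out hq hpC ⟨hqt.le, ht.2⟩)
    have hap := csInf_le hb hpC
    have := isPreconnected_Icc.subset_connectedComponentIn ⟨by linarith, le_rfl⟩ hsub
    have := csInf_le hb (this ⟨le_rfl, by linarith⟩)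
    linarith
  obtain ⟨c, hc, hmin⟩ := (E_compact.inter_right (isClosed_Ici (a := z))).exists_isLeast
    ⟨sInf C, haE, hz.2.le⟩
  have hzc : z < c := lt_of_le_of_ne hc.2 (by rintro rfl; exact hzE hc.1)
  have hg : ∀ t ∈ Ioo z c, t ∉ E := fun t ht hE => absurd (hmin ⟨hE, ht.1.le⟩) (not_le.2 ht.2)
  have hca : c ≤ sInf C := hmin ⟨haE, hz.2.le⟩
  refine ⟨c, ⟨hc.1, single hc.1 (fun w hw => ?_) fun w hw => gapR hzc hg hw⟩, ?_⟩
  · obtain ⟨t, h1, h2⟩ := exists_between (max_lt hw hzc)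
    exact ⟨t, ⟨(le_max_left _ _).trans_lt h1, h2⟩, hg t ⟨(le_max_right _ _).trans_lt h1, h2⟩⟩
  · rw [Real.dist_eq, abs_lt]; constructor <;> linarith [hz.1]

theorem endR {p : ℝ} (hp : p ∈ E) :
    sSup (connectedComponentIn E p) ∈ closure {y ∈ E | connectedComponentIn E y = {y}} := by
  set C := connectedComponentIn E p with hC
  have hCE : C ⊆ E := connectedComponentIn_subset _ _
  have hpC : p ∈ C := mem_connectedComponentIn hp
  have hb : BddAbove C := E_compact.bddAbove.mono hCE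
  have haE : sSup C ∈ E :=
    closure_minimal hCE E_compact.isClosed (csSup_mem_closure ⟨p, hpC⟩ hb)
  have ho : C.OrdConnected := isPreconnected_connectedComponentIn.ordConnected
  rw [Metric.mem_closure_iff]
  intro ε hε
  obtain ⟨z, hz, hzE⟩ : ∃ z ∈ Ioc (sSup C) (sSup C + ε / 2), z ∉ E := by
    by_contra hcon
    push Not at hcon
    have hsub : Icc p (sSup C + ε / 2) ⊆ E := by
      intro t ht
      rcases lt_trichotomy t (sSup C) with h | h | h
      · obtain ⟨q, hq, hqt⟩ := exists_lt_of_lt_csSup ⟨p, hpC⟩ h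
        exact hCE (ho.out hpC hq ⟨ht.1, hqt.le⟩)
      · rw [h]; exact haE
      · exact hcon t ⟨h, ht.2⟩
    have hap := le_csSup hb hpC
    have := isPreconnected_Icc.subset_connectedComponentIn ⟨le_rfl, by linarith⟩ hsub
    have := le_csSup hb (this ⟨by linarith, le_rfl⟩)
    linarith
  obtain ⟨c, hc, hmax⟩ := (E_compact.inter_right (isClosed_Iic (a := z))).exists_isGreatest
    ⟨sSup C, haE, hz.1.le⟩
  have hzc : c < z := lt_of_le_of_ne hc.2 (by rintro rfl; exact hzE hc.1)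
  have hg : ∀ t ∈ Ioo c z, t ∉ E := fun t ht hE => absurd (hmax ⟨hE, ht.2.le⟩) (not_le.2 ht.1)
  have hca : sSup C ≤ c := hmax ⟨haE, hz.1.le⟩
  refine ⟨c, ⟨hc.1, single hc.1 (fun w hw => gapLft hzc hg hw) fun w hw => ?_⟩, ?_⟩
  · obtain ⟨t, h1, h2⟩ := exists_between (lt_min hw hzc)
    exact ⟨t, ⟨h1, h2.trans_le (min_le_left _ _)⟩, hg t ⟨h1, h2.trans_le (min_le_right _ _)⟩⟩
  · rw [Real.dist_eq, abs_lt]; constructor <;> linarith [hz.2]

theorem gapB {g : ℝ} (h1 : 2 / 3 < g) (h2 : g < 1) (k : ℕ) : 1 / 6 - g / (4:ℝ) ^ k / 4 ∉ E := by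
  have h5 : 0 < g / 4 ^ k := by have : 0 < g := by linarith
                                positivity
  rw [E_iff]
  rintro (h | h)
  · apply gapL h1 h2 k
    convert K_small h (by linarith) using 1; ring
  · linarith [K_nonneg h]

theorem p16 (j : ℕ) : (16:ℝ) ^ j = 4 ^ j * 4 ^ j := by rw [← mul_pow]; norm_num

theorem aL : ∀ w : ℝ, w < 2 / 3 → ¬ Icc w (2 / 3) ⊆ E := by
  intro w hw h
  obtain ⟨j, hj⟩ := small (2 / 3 - w) (by linarith)
  have hp1 : (1:ℝ) ≤ 4 ^ j := one_le_pow₀ (by norm_num)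
  have h1 : 5 / 24 / (16:ℝ) ^ j ≤ 1 / 4 ^ j := by
    rw [p16]; gcongr
    · norm_num
    · nlinarith
  have h2 : 0 < 5 / 24 / (16:ℝ) ^ j := by positivity
  have := h (a := 2 / 3 - 5 / 24 / (16:ℝ) ^ j) ⟨by linarith, by linarith⟩
  rw [E_iff] at this
  rcases this with h3 | h3
  · apply gapL (g := 5 / 6) (by norm_num) (by norm_num) (j + j + 1)
    convert h3 using 2
    rw [p16, pow_succ, pow_add]; field_simp; norm_num
  · apply gapP j
    convert h3 using 1; ring

theorem bL : ∀ w : ℝ, w < 1 / 6 → ¬ Icc w (1 / 6) ⊆ E := by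
  intro w hw h
  obtain ⟨j, hj⟩ := small (1 / 6 - w) (by linarith)
  have h1 : 5 / 6 / (4:ℝ) ^ j ≤ 1 / 4 ^ j := by gcongr; norm_num
  have h2 : 0 < 5 / 6 / (4:ℝ) ^ j := by positivity
  exact gapB (g := 5 / 6) (by norm_num) (by norm_num) j (h ⟨by linarith, by linarith⟩)

theorem aR : Icc (2 / 3 : ℝ) 1 ⊆ E := fun _ hs => (E_iff _).2 (.inl (J_sub hs))

theorem bR : Icc (1 / 6 : ℝ) (1 / 4) ⊆ E := fun s hs => (E_iff _).2 (.inl ((K_iff _).2
  (.inl (J_sub ⟨by linarith [hs.1], by linarith [hs.2]⟩))))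

theorem notrans {ε t : ℝ} (hε : ε > 0) :
    E ∩ Icc (2 / 3 - ε) (2 / 3) ≠ (fun z => z + t) '' (E ∩ Icc (1 / 6 - ε) (1 / 6)) := by
  intro h
  have h1 : (2 / 3 : ℝ) ∈ E ∩ Icc (2 / 3 - ε) (2 / 3) :=
    ⟨aR ⟨le_rfl, by norm_num⟩, by linarith, le_rfl⟩
  have h2 : (1 / 6 + t : ℝ) ∈ E ∩ Icc (2 / 3 - ε) (2 / 3) := by
    rw [h]; exact ⟨1 / 6, ⟨bR ⟨le_rfl, by norm_num⟩, by linarith, le_rfl⟩, rfl⟩
  rw [h] at h1
  obtain ⟨z, hz, e⟩ := h1
  have ht : t = 1 / 2 := by simp only at e; linarith [hz.2.2, h2.2.2]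
  obtain ⟨j, hj⟩ := small ε hε
  have hp1 : (1:ℝ) ≤ 4 ^ j := one_le_pow₀ (by norm_num)
  have h3 : 53 / 60 / (16:ℝ) ^ (j + 1) ≤ 1 / 4 ^ j := by
    rw [pow_succ, p16]; gcongr
    · norm_num
    · nlinarith
  have h4 : 0 < 53 / 60 / (16:ℝ) ^ (j + 1) := by positivity
  have h5 : 2 / 3 - 53 / 60 / (16:ℝ) ^ (j + 1) ∈ E ∩ Icc (2 / 3 - ε) (2 / 3) := by
    refine ⟨(E_iff _).2 (.inr ?_), by linarith, by linarith⟩
    convert memP j using 1; ring
  rw [h] at h5
  obtain ⟨v, hv, e2⟩ := h5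
  apply gapB (g := 53 / 60) (by norm_num) (by norm_num) (j + j + 1)
  convert hv.1 using 1
  simp only at e2
  have : 53 / 60 / (4:ℝ) ^ (j + j + 1) / 4 = 53 / 60 / (16:ℝ) ^ (j + 1) := by
    rw [pow_succ, pow_succ, p16, pow_add]; field_simp; norm_num
  linarith

end Pool.Agent.H8.Cval
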