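import Mathlib

set_option autoImplicit false

namespace Pool.Agent.H8.DD

open Set Filter Topology Function

theorem close {I O : Type} (W : O → Set I → Prop) (hm : ∀ o C C', C' ⊆ C → W o C → W o C')
    (ρ : Finset I → Set O) (hρ : ∀ F, (ρ F).Countable)
    (h : ∀ C : Set I, C.Countable → ∃ F : Finset I, ↑F ⊆ C ∧ ∃ o ∈ ρ F, W o C) :
    ∃ o, ∀ C : Set I, C.Countable → W o C := by
  by_contra hc
  push Not at hc
  choose c h1 h2 using hc
  let S : ℕ → Set I := fun k => Nat.rec ∅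
    (fun _ A => A ∪ ⋃ F ∈ {F : Finset I | ↑F ⊆ A}, ⋃ o ∈ ρ F, c o) k
  have hs : ∀ k, S (k + 1) = S k ∪ ⋃ F ∈ {F : Finset I | ↑F ⊆ S k}, ⋃ o ∈ ρ F, c o := fun _ => rfl
  have hcnt : ∀ k, (S k).Countable := by
    intro k
    induction k with
    | zero => exact countable_empty
    | succ k ih =>
      rw [hs]
      refine ih.union (Countable.biUnion ?_ fun F _ => (hρ F).biUnion fun o _ => h1 o)
      refine ((countable_setOf_finite_subset ih).preimage_of_injOn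
        (f := fun F : Finset I => (F : Set I)) Finset.coe_injective.injOn).mono
          fun F hF => ?_
      exact ⟨F.finite_toSet, hF⟩
  have hmono : Monotone S := monotone_nat_of_le_succ fun k => by rw [hs]; exact subset_union_left
  obtain ⟨F, hF, o, ho, hW⟩ := h _ (countable_iUnion hcnt)
  obtain ⟨k, hk⟩ := ((eventually_all_finite F.finite_toSet).2 fun i hi => by
    obtain ⟨k, hk⟩ := mem_iUnion.1 (hF hi)
    show ∀ᶠ l in atTop, i ∈ S l
    filter_upwards [eventually_ge_atTop k] with l hl using hmono hl hk).exists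
  refine h2 o (hm o _ _ (fun i hi => mem_iUnion.2 ⟨k + 1, ?_⟩) hW)
  rw [hs]
  exact Or.inr (mem_biUnion (show F ∈ {F : Finset I | ↑F ⊆ S k} from hk) (mem_biUnion ho hi))

inductive T : Type
  | nil : T
  | mk : (ℕ → T) → T

def D : T → Set T
  | .nil => ∅
  | .mk f => {β | (∀ n, ∃ s : Finset T, (∀ β ∈ s, β ∉ D (f n)) ∧
      {y | ∃ m, f m = y ∧ ∀ β ∈ s, β ∉ D (f m)}.Finite) ∧ β ∈ range f}

def Disc (E : Set T) : Prop :=
  ∀ d ∈ E, ∃ s : Finset T, (∀ β ∈ s, β ∉ D d) ∧ {y | y ∈ E ∧ ∀ β ∈ s, β ∉ D y}.Finite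

lemma disc_iff (f : ℕ → T) : (∀ n, ∃ s : Finset T, (∀ β ∈ s, β ∉ D (f n)) ∧
      {y | ∃ m, f m = y ∧ ∀ β ∈ s, β ∉ D (f m)}.Finite) ↔ Disc (range f) := by
  have e : ∀ s : Finset T, {y | ∃ m, f m = y ∧ ∀ β ∈ s, β ∉ D (f m)} =
      {y | y ∈ range f ∧ ∀ β ∈ s, β ∉ D y} := fun s => by
    ext y
    exact ⟨fun ⟨m, h1, h2⟩ => ⟨⟨m, h1⟩, h1 ▸ h2⟩, fun ⟨⟨m, h1⟩, h2⟩ => ⟨m, h1, h1 ▸ h2⟩⟩
  simp only [e, Disc, forall_mem_range]

lemma D_mk (f : ℕ → T) : D (.mk f) = {β | Disc (range f) ∧ β ∈ range f} := by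
  simp only [D, disc_iff]

lemma D_ctble (x : T) : (D x).Countable := by
  cases x with
  | nil => exact countable_empty
  | mk f => exact (countable_range f).mono fun β h => h.2

lemma D_disc (x : T) : Disc (D x) := by
  cases x with
  | nil => exact fun d h => h.elim
  | mk f =>
    rw [D_mk]
    intro d hd
    obtain ⟨s, h1, h2⟩ := hd.1 d hd.2
    exact ⟨s, h1, h2.subset fun y hy => ⟨hy.1.2, hy.2⟩⟩

lemma not_self (x : T) : x ∉ D x := by
  have : ∀ x : T, ∀ f, x = .mk f → x ∉ range f := by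
    intro x
    induction x with
    | nil => intro f h; cases h
    | mk g ih =>
      rintro f h ⟨n, hn⟩
      cases h
      exact ih n g hn ⟨n, rfl⟩
  cases x with
  | nil => exact fun h => h.elim
  | mk f => exact fun h => this _ f rfl h.2

lemma ctble_fs {M : Set T} (hM : M.Countable) : {s : Finset T | ↑s ⊆ M}.Countable :=
  ((countable_setOf_finite_subset hM).preimage_of_injOn
    (f := fun F : Finset T => (F : Set T)) Finset.coe_injective.injOn).mono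
      fun F hF => And.intro F.finite_toSet hF

theorem noTrans (n : ℕ) : ∀ (I : Set T) (t : T → Finset T), ¬ I.Countable →
    (I.Pairwise fun i j => Disjoint (t i) (t j)) → (∀ i ∈ I, (t i).card ≤ n) →
    ¬ ∀ C ⊆ I, C.Countable → ∃ E, Disc E ∧ {j | j ∈ C ∧ ∀ d ∈ t j, d ∉ E}.Finite := by
  classical
  induction n with
  | zero =>
    intro I t hI _ hc H
    have hi : I.Infinite := fun h => hI h.countable
    obtain ⟨C, h1, h2, h3⟩ : ∃ C ⊆ I, C.Infinite ∧ C.Countable :=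
      ⟨range fun n => (hi.natEmbedding _ n).1, range_subset_iff.2 fun n => (hi.natEmbedding _ n).2,
        infinite_range_of_injective (Subtype.val_injective.comp (hi.natEmbedding _).injective),
        countable_range _⟩
    obtain ⟨E, -, hE⟩ := H C h1 h3
    refine h2 (hE.subset fun j hj => ⟨hj, fun d hd => ?_⟩)
    rw [Finset.card_eq_zero.1 (Nat.le_zero.1 (hc j (h1 hj)))] at hd
    simp at hd
  | succ n ih =>
    intro I t hI hd hc H
    obtain ⟨e, he⟩ := close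
      (fun (e : Finset T) C => ∃ E, Disc E ∧ ∀ j ∈ C, j ∈ I → j ∉ e → ∃ d ∈ t j, d ∈ E)
      (fun o C C' hs ⟨E, h1, h2⟩ => ⟨E, h1, fun j hj => h2 j (hs hj)⟩) (fun F => {F})
      (fun F => countable_singleton F) fun C hC => by
        obtain ⟨E, h1, h2⟩ := H (C ∩ I) inter_subset_right (hC.mono inter_subset_left)
        refine ⟨h2.toFinset, fun j hj => (h2.mem_toFinset.1 hj).1.1, _, rfl, E, h1,
          fun j hj hjI hn => ?_⟩
        by_contra h
        push Not at h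
        exact hn (h2.mem_toFinset.2 ⟨⟨hj, hjI⟩, h⟩)
    have : ∀ i, i ∈ I → i ∉ e → ∃ o : T × Finset T, ∀ C : Set T, C.Countable →
        o.1 ∈ t i ∧ (∀ β ∈ o.2, β ∉ D o.1) ∧ ∃ E : Set T, Disc E ∧
          (∀ j ∈ C, j ∈ I → j ∉ e → ∃ d ∈ t j, d ∈ E) ∧
          {y | y ∈ E ∧ ∀ β ∈ o.2, β ∉ D y}.Finite := by
      intro i hi hie
      refine close _ (fun o C C' hs ⟨a, b, E, h1, h2, h3⟩ =>
        ⟨a, b, E, h1, fun j hj => h2 j (hs hj), h3⟩)
        (fun F => (t i : Set T) ×ˢ {s : Finset T | ↑s ⊆ ⋃ j ∈ insert i F, ⋃ d ∈ t j, D d})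
        (fun F => (t i).countable_toSet.prod (ctble_fs ((insert i F).countable_toSet.biUnion
          fun j _ => (t j).countable_toSet.biUnion fun d _ => D_ctble d))) fun C hC => ?_
      obtain ⟨E, h1, h2⟩ := he _ (hC.insert i)
      obtain ⟨d, h3, h4⟩ := h2 i (mem_insert _ _) hi hie
      obtain ⟨s, h5, h6⟩ := h1 d h4
      have : ∀ β, ∃ j, (∃ j ∈ C, ∃ d ∈ t j, β ∈ D d) → j ∈ C ∧ ∃ d ∈ t j, β ∈ D d := by
        intro β
        by_cases h : ∃ j ∈ C, ∃ d ∈ t j, β ∈ D d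
        · obtain ⟨j, hj⟩ := h
          exact ⟨j, fun _ => hj⟩
        · exact ⟨i, fun h' => absurd h' h⟩
      choose φ hφ using this
      let s' := s.filter fun β => ∃ j ∈ C, ∃ d ∈ t j, β ∈ D d
      refine ⟨s'.image φ, fun j hj => ?_, (d, s'), ⟨h3, fun β hβ => ?_⟩, h3,
        fun β hβ => h5 β (Finset.mem_filter.1 hβ).1, E ∩ ⋃ j ∈ C, t j, fun y hy => ?_,
        fun j hj a b => ?_, h6.subset fun y hy => ⟨hy.1.1, fun β hβ hD => ?_⟩⟩
      · obtain ⟨β, hβ, rfl⟩ := Finset.mem_image.1 hj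
        exact (hφ β (Finset.mem_filter.1 hβ).2).1
      · obtain ⟨-, y, h7, h8⟩ := hφ β (Finset.mem_filter.1 hβ).2
        exact mem_biUnion (Finset.mem_insert_of_mem (Finset.mem_image_of_mem φ hβ))
          (mem_biUnion h7 h8)
      · obtain ⟨u, h7, h8⟩ := h1 y hy.1
        exact ⟨u, h7, h8.subset fun z hz => ⟨hz.1.1, hz.2⟩⟩
      · obtain ⟨y, h7, h8⟩ := h2 j (Or.inr hj) a b
        exact ⟨y, h7, h8, mem_biUnion hj h7⟩
      · obtain ⟨j, hj, h7⟩ := mem_iUnion₂.1 hy.1.2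
        exact hy.2 β (Finset.mem_filter.2 ⟨hβ, j, hj, y, h7, hD⟩) hD
    choose! o ho using this
    obtain ⟨r, hr⟩ := close
      (fun (r : Finset T) M => ¬ {i | (i ∈ I ∧ i ∉ e) ∧ r ⊆ (o i).2 ∧
        ∀ β ∈ (o i).2, β ∈ M → β ∈ r}.Countable)
      (fun r C C' hs h h' => h (h'.mono fun i hi =>
        And.intro hi.1 ⟨hi.2.1, fun β a b => hi.2.2 β a (hs b)⟩)) (fun F => {F})
      (fun F => countable_singleton F) fun M hM => by
        by_contra h
        push Not at h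
        refine hI ((e.countable_toSet.union ((ctble_fs hM).biUnion fun F hF =>
          h F hF F rfl)).mono fun i hi => ?_)
        by_cases hie : i ∈ e
        · exact Or.inl hie
        · exact Or.inr (mem_biUnion (x := (o i).2.filter (· ∈ M))
            (fun β hβ => (Finset.mem_filter.1 hβ).2)
            ⟨⟨hi, hie⟩, Finset.filter_subset _ _, fun β a b => Finset.mem_filter.2 ⟨a, b⟩⟩)
    refine ih {i | (i ∈ I ∧ i ∉ e) ∧ r ⊆ (o i).2} (fun i => (t i).erase (o i).1)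
      (fun h => hr ∅ countable_empty (h.mono fun i hi => And.intro hi.1 hi.2.1))
      (fun i hi j hj hne => (hd hi.1.1 hj.1.1 hne).mono (Finset.erase_subset _ _)
        (Finset.erase_subset _ _))
      (fun i hi => by
        rw [Finset.card_erase_of_mem (ho i hi.1.1 hi.1.2 ∅ countable_empty).1]
        have := hc i hi.1.1
        omega) fun C hCI hC => ?_
    obtain ⟨i, hi, -, h1⟩ := Set.Infinite.nonempty fun h0 => hr (⋃ j ∈ C, ⋃ d ∈ t j, D d)
      (hC.biUnion fun j _ => (t j).countable_toSet.biUnion fun d _ => D_ctble d) h0.countable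
    obtain ⟨-, -, E, h2, h3, h4⟩ := ho i hi.1 hi.2 C hC
    choose! y h5 h6 using fun j (hj : j ∈ C) => h3 j hj (hCI hj).1.1 (hCI hj).1.2
    refine ⟨E, h2, Finite.of_finite_image (f := y) (h4.subset ?_) fun a ha b hb hab => ?_⟩
    · rintro _ ⟨j, ⟨hj, h7⟩, rfl⟩
      refine ⟨h6 j hj, fun β hβ hD => h7 _ (Finset.mem_erase.2 ⟨fun h8 => ?_, h5 j hj⟩) (h6 j hj)⟩
      exact (ho j (hCI hj).1.1 (hCI hj).1.2 ∅ countable_empty).2.1 β
        ((hCI hj).2 (h1 β hβ (mem_biUnion hj (mem_biUnion (h5 j hj) hD)))) (h8 ▸ hD)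
    · by_contra hne
      exact Finset.disjoint_left.1 (hd (hCI ha.1).1.1 (hCI hb.1).1.1 hne) (h5 a ha.1)
        (hab ▸ h5 b hb.1)

def W (s F : Finset T) : Set T := {x | (∀ β ∈ s, β ∉ D x) ∧ x ∉ F}

theorem cover (Y : Set T) (s F : T → Finset T) (h : ∀ y ∈ Y, y ∈ W (s y) (F y)) :
    ∃ C ⊆ Y, C.Countable ∧ Y ⊆ ⋃ y ∈ C, W (s y) (F y) := by
  classical
  by_contra hc
  let Sm : Set T → Prop := fun A => ∃ C ⊆ Y, C.Countable ∧ A ∩ Y ⊆ ⋃ y ∈ C, W (s y) (F y)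
  have s1 : ∀ A B, A ⊆ B → Sm B → Sm A := fun A B hs ⟨C, a, b, c⟩ =>
    ⟨C, a, b, (inter_subset_inter_left _ hs).trans c⟩
  have s2 : ∀ A, A.Countable → Sm A := fun A hA => ⟨A ∩ Y, inter_subset_right,
    hA.mono inter_subset_left, fun y hy => mem_biUnion hy (h y hy.2)⟩
  have s3 : ∀ {ι : Type} (J : Set ι) (A : ι → Set T), J.Countable → (∀ j ∈ J, Sm (A j)) →
      Sm (⋃ j ∈ J, A j) := by
    intro ι J A hJ hA
    choose! C a b c using hA
    refine ⟨⋃ j ∈ J, C j, iUnion₂_subset a, hJ.biUnion b, fun y hy => ?_⟩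
    obtain ⟨j, hj, h1⟩ := mem_iUnion₂.1 hy.1
    obtain ⟨z, hz, h2⟩ := mem_iUnion₂.1 (c j hj ⟨h1, hy.2⟩)
    exact mem_biUnion (mem_biUnion hj hz) h2
  have s4 : ∀ A B, Sm A → Sm B → Sm (A ∪ B) := fun A B ⟨C, a, b, c⟩ ⟨C', a', b', c'⟩ =>
    ⟨C ∪ C', union_subset a a', b.union b', fun y hy => hy.1.elim
      (fun h => biUnion_subset_biUnion_left subset_union_left (c ⟨h, hy.2⟩))
      fun h => biUnion_subset_biUnion_left subset_union_right (c' ⟨h, hy.2⟩)⟩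
  obtain ⟨⟨r, n⟩, hr⟩ := close
    (fun (o : Finset T × ℕ) M => ¬ Sm {y | y ∈ Y ∧ o.1 ⊆ s y ∧ (s y).card ≤ o.2 ∧
      ∀ β ∈ s y, β ∈ M → β ∈ o.1})
    (fun r C C' hs h h' => h (s1 _ _ (fun i hi =>
      And.intro hi.1 ⟨hi.2.1, hi.2.2.1, fun β a b => hi.2.2.2 β a (hs b)⟩) h'))
    (fun F => {F} ×ˢ univ) (fun F => (countable_singleton F).prod countable_univ) fun M hM => by
      by_contra h0
      push Not at h0
      obtain ⟨C, a, b, c⟩ := s3 ({G : Finset T | ↑G ⊆ M} ×ˢ (univ : Set ℕ)) _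
        ((ctble_fs hM).prod countable_univ) fun o ho => h0 o.1 ho.1 o ⟨rfl, trivial⟩
      refine hc ⟨C, a, b, fun y hy => c ⟨?_, hy⟩⟩
      exact mem_biUnion (x := ((s y).filter (· ∈ M), (s y).card))
        ⟨fun β hβ => (Finset.mem_filter.1 hβ).2, trivial⟩
        ⟨hy, Finset.filter_subset _ _, le_rfl, fun β a b => Finset.mem_filter.2 ⟨a, b⟩⟩
  obtain ⟨I, hI⟩ := zorn_subset {I : Set T | (∀ y ∈ I, y ∈ Y ∧ r ⊆ s y ∧ (s y).card ≤ n) ∧
      I.Pairwise fun i j => Disjoint (s i \ r) (s j \ r)} fun c hc1 hc2 =>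
    ⟨⋃₀ c, ⟨fun y ⟨A, hA, hy⟩ => (hc1 hA).1 y hy,
      (pairwise_sUnion hc2.directedOn).2 fun A hA => (hc1 hA).2⟩, fun A => subset_sUnion_of_mem⟩
  refine noTrans n I (fun y => s y \ r) (fun hIc => ?_) hI.prop.2
    (fun i hi => (Finset.card_le_card Finset.sdiff_subset).trans (hI.prop.1 i hi).2.2)
    fun C hCI hC => ?_
  · refine hr (⋃ y ∈ I, s y) (hIc.biUnion fun y _ => (s y).countable_toSet)
      (s1 _ _ (fun y hy => ?_) (s2 I hIc))
    have hd : ∀ j ∈ I, Disjoint (s y \ r) (s j \ r) := fun j hj =>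
      Finset.disjoint_left.2 fun β h1 h2 => (Finset.mem_sdiff.1 h1).2
        (hy.2.2.2 β (Finset.mem_sdiff.1 h1).1 (mem_biUnion hj (Finset.mem_sdiff.1 h2).1))
    refine hI.le_of_ge (y := insert y I) ⟨?_, hI.prop.2.insert fun j hj _ =>
      ⟨hd j hj, (hd j hj).symm⟩⟩ (subset_insert _ _) (mem_insert _ _)
    rintro z (rfl | hz)
    exacts [⟨hy.1, hy.2.1, hy.2.2.1⟩, hI.prop.1 z hz]
  · have h1 : Sm ((⋃ y ∈ C, W (s y) (F y)) ∪ ⋃ y ∈ C, F y) :=
      s4 _ _ ⟨C, fun y hy => (hI.prop.1 y (hCI hy)).1, hC, inter_subset_left⟩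
        (s2 _ (hC.biUnion fun y _ => (F y).countable_toSet))
    obtain ⟨x, hx, h2⟩ := not_subset.1 fun hs => hr ∅ countable_empty (s1 _ _ hs h1)
    refine ⟨D x, D_disc x, finite_empty.subset fun y ⟨hy, h3⟩ => h2 (Or.inl (mem_biUnion hy
      ⟨fun β hβ hD => ?_, fun h4 => h2 (Or.inr (mem_biUnion hy h4))⟩))⟩
    by_cases h5 : β ∈ r
    · exact (h x hx.1).1 β (hx.2.1 h5) hD
    · exact h3 β (Finset.mem_sdiff.2 ⟨hβ, h5⟩) hD

def top : TopologicalSpace T where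
  IsOpen V := ∀ x ∈ V, ∃ s F, x ∈ W s F ∧ W s F ⊆ V
  isOpen_univ := fun x _ => ⟨∅, ∅, by simp [W], subset_univ _⟩
  isOpen_inter := by
    classical
    intro A B hA hB x hx
    obtain ⟨s, F, h1, h2⟩ := hA x hx.1
    obtain ⟨s', F', h3, h4⟩ := hB x hx.2
    refine ⟨s ∪ s', F ∪ F', ⟨fun β hβ => (Finset.mem_union.1 hβ).elim (h1.1 β) (h3.1 β),
      fun h => (Finset.mem_union.1 h).elim h1.2 h3.2⟩, fun y hy => ⟨h2 ⟨fun β hβ =>
        hy.1 β (Finset.mem_union_left _ hβ), fun h => hy.2 (Finset.mem_union_left _ h)⟩,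
      h4 ⟨fun β hβ => hy.1 β (Finset.mem_union_right _ hβ),
        fun h => hy.2 (Finset.mem_union_right _ h)⟩⟩⟩
  isOpen_sUnion := fun S hS x ⟨V, hV, hx⟩ => by
    obtain ⟨s, F, h1, h2⟩ := hS V hV x hx
    exact ⟨s, F, h1, h2.trans (subset_sUnion_of_mem hV)⟩

theorem main : ∃ (X : Type) (_ : TopologicalSpace X),
    T1Space X ∧ HereditarilyLindelofSpace X ∧
    ¬ (∀ U : X → Set X, (∀ x, U x ∈ nhds x) →
        ∃ D : Set X, DiscreteTopology D ∧ (⋃ x ∈ D, U x) = Set.univ) := by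
  letI := top
  have hl : HereditarilyLindelofSpace T := ⟨fun Y _ => isLindelof_of_countable_subcover
    fun {ι} U hU hY => by
      rcases Y.eq_empty_or_nonempty with rfl | ⟨y0, hy0⟩
      · exact ⟨∅, countable_empty, empty_subset _⟩
      haveI : Nonempty ι := ⟨(mem_iUnion.1 (hY hy0)).choose⟩
      choose! i hi using fun y (hy : y ∈ Y) => mem_iUnion.1 (hY hy)
      choose! s F h1 h2 using fun y (hy : y ∈ Y) => hU (i y) y (hi y hy)
      obtain ⟨C, a, b, c⟩ := cover Y s F h1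
      refine ⟨i '' C, b.image i, fun y hy => ?_⟩
      obtain ⟨z, hz, h3⟩ := mem_iUnion₂.1 (c hy)
      exact mem_biUnion ⟨z, hz, rfl⟩ (h2 z (a hz) h3)⟩
  refine ⟨T, top, ⟨fun y => isOpen_compl_iff.1 fun x hx => ⟨∅, {y}, by simpa [W] using hx,
    fun z hz => by simpa [W] using hz⟩⟩, hl, fun H => ?_⟩
  obtain ⟨E, h1, h2⟩ := H (fun β => W {β} ∅) fun β => IsOpen.mem_nhds
    (fun x hx => ⟨_, _, hx, Subset.rfl⟩) (by simpa [W] using not_self β)
  have hE : E.Countable := countable_coe_iff.1 (countable_of_Lindelof_of_discrete (X := E))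
  obtain ⟨x0, hx0, -⟩ := mem_iUnion₂.1 (h2 ▸ mem_univ T.nil : T.nil ∈ ⋃ x ∈ E, W {x} ∅)
  obtain ⟨f, rfl⟩ := hE.exists_eq_range ⟨x0, hx0⟩
  obtain ⟨β, hβ, h3⟩ := mem_iUnion₂.1
    (h2 ▸ mem_univ (T.mk f) : T.mk f ∈ ⋃ x ∈ range f, W {x} ∅)
  refine h3.1 β (by simp) ?_
  rw [D_mk]
  refine ⟨fun d hd => ?_, hβ⟩
  obtain ⟨V, h4, h5⟩ := isOpen_induced_iff.1 (isOpen_discrete ({⟨d, hd⟩} : Set (range f)))
  obtain ⟨s, F, h6, h7⟩ := h4 d (show (⟨d, hd⟩ : range f) ∈ Subtype.val ⁻¹' V from h5 ▸ rfl)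
  refine ⟨s, h6.1, (F.finite_toSet.insert d).subset fun y hy => ?_⟩
  by_cases h8 : y ∈ F
  · exact Or.inr h8
  · have : (⟨y, hy.1⟩ : range f) ∈ Subtype.val ⁻¹' V := h7 ⟨hy.2, h8⟩
    rw [h5] at this
    exact Or.inl (congrArg Subtype.val this)

end Pool.Agent.H8.DD
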