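import Mathlib

namespace Pool.Agent.H8.Dens

open Set Filter Topology

open Classical in
/-- the number of elements of `A` below `n` -/
noncomputable def cnt (A : Set ℕ) (n : ℕ) : ℝ := (((Finset.range n).filter (· ∈ A)).card : ℝ)

/-- `S` has relative density `ρ` in `R` -/
def HasDens (S R : Set ℕ) (ρ : ℝ) : Prop :=
  Tendsto (fun n => cnt (S ∩ R) n / cnt R n) atTop (𝓝 ρ)

open Classical in
theorem cnt_eq (A : Set ℕ) (n : ℕ) :
    cnt A n = ∑ i ∈ Finset.range n, if i ∈ A then (1 : ℝ) else 0 := by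
  simp [cnt]

theorem cnt_nonneg (A : Set ℕ) (n : ℕ) : 0 ≤ cnt A n := Nat.cast_nonneg _

theorem cnt_mono {A B : Set ℕ} (h : A ⊆ B) (n : ℕ) : cnt A n ≤ cnt B n := by
  classical
  rw [cnt_eq, cnt_eq]
  refine Finset.sum_le_sum fun i _ => ?_
  by_cases h1 : i ∈ A
  · simp [h1, h h1]
  · simp only [h1, if_false]; split_ifs <;> norm_num

theorem cnt_union {A B : Set ℕ} (h : Disjoint A B) (n : ℕ) : cnt (A ∪ B) n = cnt A n + cnt B n := by
  classical
  rw [cnt_eq, cnt_eq, cnt_eq, ← Finset.sum_add_distrib]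
  refine Finset.sum_congr rfl fun i _ => ?_
  by_cases h1 : i ∈ A
  · have : i ∉ B := disjoint_left.1 h h1
    simp [h1, this]
  · simp [h1]

theorem cnt_le {A B : Set ℕ} {u v : ℕ} (h : ∀ x, u ≤ x → x < v → x ∈ A → x ∈ B) :
    cnt A v ≤ cnt B v + u := by
  classical
  unfold cnt
  have : (Finset.range v).filter (· ∈ A) ⊆ (Finset.range v).filter (· ∈ B) ∪ Finset.range u := by
    intro x hx
    simp only [Finset.mem_filter, Finset.mem_range, Finset.mem_union] at hx ⊢
    by_cases h1 : x < u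
    · exact Or.inr h1
    · exact Or.inl ⟨hx.1, h x (not_lt.1 h1) hx.1 hx.2⟩
  have := (Finset.card_le_card this).trans (Finset.card_union_le _ _)
  rw [Finset.card_range] at this
  exact_mod_cast this

theorem cnt_empty (n : ℕ) : cnt ∅ n = 0 := by simp [cnt]

theorem cnt_top {R : Set ℕ} (h : R.Infinite) : Tendsto (cnt R) atTop atTop := by
  classical
  refine tendsto_natCast_atTop_atTop.comp (tendsto_atTop.2 fun k => ?_)
  obtain ⟨s, hs, hk⟩ := h.exists_subset_card_eq k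
  obtain ⟨N, hN⟩ := s.bddAbove
  filter_upwards [eventually_gt_atTop N] with n hn
  rw [← hk]
  refine Finset.card_le_card fun x hx => ?_
  simp only [Finset.mem_filter, Finset.mem_range]
  exact ⟨lt_of_le_of_lt (hN hx) hn, hs hx⟩

theorem inf_of {S R : Set ℕ} {ρ : ℝ} (hR : R.Infinite) (h : HasDens S R ρ) (h0 : 0 < ρ) :
    (S ∩ R).Infinite := by
  intro hf
  obtain ⟨N, hN⟩ := hf.bddAbove
  have h1 : Tendsto (fun n => ((N + 1 : ℕ) : ℝ) / cnt R n) atTop (𝓝 0) :=
    tendsto_const_nhds.div_atTop (cnt_top hR)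
  refine absurd (le_of_tendsto_of_tendsto' h h1 fun n => ?_) (not_le.2 h0)
  refine div_le_div_of_nonneg_right ?_ (cnt_nonneg _ _)
  have := cnt_le (A := S ∩ R) (B := ∅) (u := N + 1) (v := n) fun x h1 _ h2 => by
    have := hN h2
    omega
  rwa [cnt_empty, zero_add] at this

theorem ev_pos {R : Set ℕ} (hR : R.Infinite) : ∀ᶠ n in atTop, 0 < cnt R n :=
  (cnt_top hR).eventually_gt_atTop 0

theorem d_univ {R : Set ℕ} (hR : R.Infinite) : HasDens univ R 1 := by
  refine tendsto_const_nhds.congr' ?_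
  filter_upwards [ev_pos hR] with n hn
  rw [univ_inter, div_self hn.ne']

theorem d_empty (R : Set ℕ) : HasDens ∅ R 0 := by simp [HasDens, cnt_empty]

theorem d_add {A B R : Set ℕ} {a b : ℝ} (h : Disjoint A B) (ha : HasDens A R a)
    (hb : HasDens B R b) : HasDens (A ∪ B) R (a + b) := by
  refine (Tendsto.add ha hb).congr fun n => ?_
  rw [union_inter_distrib_right, cnt_union (h.mono inter_subset_left inter_subset_left), add_div]

theorem d_sub {A B R : Set ℕ} {a b : ℝ} (ha : HasDens A R a)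
    (hb : HasDens (A ∩ B) R b) : HasDens (A \ B) R (a - b) := by
  refine (Tendsto.sub ha hb).congr fun n => ?_
  have := cnt_union (A := A ∩ B ∩ R) (B := (A \ B) ∩ R)
    (disjoint_left.2 fun x h1 h2 => h2.1.2 h1.1.2) n
  rw [← union_inter_distrib_right, inter_union_diff] at this
  rw [this]; ring

theorem d_chain {S T R : Set ℕ} {t ρ : ℝ} (hR : (R ∩ T).Infinite) (ht : HasDens T R t)
    (h : HasDens S (R ∩ T) ρ) : HasDens (T ∩ S) R (ρ * t) := by
  refine (Tendsto.mul h ht).congr' ?_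
  filter_upwards [ev_pos hR] with n hn
  rw [inter_comm T R, show T ∩ S ∩ R = S ∩ (R ∩ T) by ext; simp; tauto]
  field_simp

theorem agree {A B S : Set ℕ} {a b : ℝ} (u v : ℕ → ℕ) (hv : Tendsto v atTop atTop)
    (h : ∀ j x, u j ≤ x → x < v j → (x ∈ A ↔ x ∈ B))
    (hB : ∀ j : ℕ, (j + 1 : ℝ) * u j < cnt B (v j)) (ha : HasDens S A a) (hb : HasDens S B b) :
    a = b := by
  have hp : ∀ j, 0 < cnt B (v j) := fun j => lt_of_le_of_lt (by positivity) (hB j)
  have key : ∀ T : Set ℕ, Tendsto (fun j => cnt (T ∩ A) (v j) / cnt B (v j) -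
      cnt (T ∩ B) (v j) / cnt B (v j)) atTop (𝓝 0) := by
    intro T
    refine squeeze_zero_norm (fun j => ?_) tendsto_one_div_add_atTop_nhds_zero_nat
    have h1 := cnt_le (A := T ∩ A) (B := T ∩ B) fun x h1 h2 h3 => ⟨h3.1, (h j x h1 h2).1 h3.2⟩
    have h2 := cnt_le (A := T ∩ B) (B := T ∩ A) fun x h1 h2 h3 => ⟨h3.1, (h j x h1 h2).2 h3.2⟩
    rw [← sub_div, Real.norm_eq_abs, abs_div, abs_of_pos (hp j), div_le_div_iff₀ (hp j)
      (by positivity)]
    have h3 : |cnt (T ∩ A) (v j) - cnt (T ∩ B) (v j)| ≤ u j := abs_le.2 ⟨by linarith, by linarith⟩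
    have := hB j
    have : (0 : ℝ) ≤ j + 1 := by positivity
    nlinarith
  have k1 := (key S).add (hb.comp hv)
  have k2 := (key univ).add (tendsto_const_nhds (x := (1 : ℝ)))
  have k3 := k1.div k2 (by norm_num)
  refine tendsto_nhds_unique (ha.comp hv) ?_
  rw [zero_add, zero_add, div_one] at k3
  refine k3.congr fun j => ?_
  have := (hp j).ne'
  simp only [Pi.div_apply, Function.comp, univ_inter, sub_add_cancel, div_self this]
  field_simp

theorem mix {R R' : Set ℕ} (hR : R.Infinite) (hR' : R'.Infinite) : ∃ M : Set ℕ, M.Infinite ∧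
    ∀ S a b c, HasDens S R a → HasDens S R' b → HasDens S M c → a = b := by
  have h1 : ∀ k x : ℕ, ∃ y, x < y ∧ (k + 1 : ℝ) * x < cnt R y ∧ (k + 1 : ℝ) * x < cnt R' y :=
    fun k x => ((eventually_gt_atTop x).and (((cnt_top hR).eventually_gt_atTop _).and
      ((cnt_top hR').eventually_gt_atTop _))).exists
  choose f f1 f2 f3 using h1
  obtain ⟨n, hn⟩ : ∃ n : ℕ → ℕ, ∀ k, n (k + 1) = f k (n k) :=
    ⟨fun k => Nat.rec 0 f k, fun _ => rfl⟩
  have hs : StrictMono n := strictMono_nat_of_lt_succ fun k => by rw [hn]; exact f1 _ _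
  let M : Set ℕ := {x | ∃ k, n k ≤ x ∧ x < n (k + 1) ∧ (k % 2 = 0 ∧ x ∈ R ∨ k % 2 = 1 ∧ x ∈ R')}
  have hM : ∀ k x, n k ≤ x → x < n (k + 1) →
      (x ∈ M ↔ (k % 2 = 0 ∧ x ∈ R ∨ k % 2 = 1 ∧ x ∈ R')) := by
    intro k x a1 a2
    refine ⟨?_, fun h => ⟨k, a1, a2, h⟩⟩
    rintro ⟨l, b1, b2, h⟩
    have c1 := hs.lt_iff_lt.1 (lt_of_le_of_lt a1 b2)
    have c2 := hs.lt_iff_lt.1 (lt_of_le_of_lt b1 a2)
    rwa [show k = l by omega]
  have hk : ∀ (j k : ℕ) (y : ℝ), j ≤ k → (k + 1 : ℝ) * n k < y → (j + 1 : ℝ) * n k < y := by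
    intro j k y h1 h2
    refine lt_of_le_of_lt (mul_le_mul_of_nonneg_right ?_ (by positivity)) h2
    exact_mod_cast Nat.succ_le_succ h1
  refine ⟨M, infinite_of_forall_exists_gt fun j => ?_, fun S a b c ha hb hc => ?_⟩
  · by_contra hc
    push Not at hc
    have h1 := cnt_le (A := R) (B := ∅) (u := n (2 * j + 2)) (v := n (2 * j + 2 + 1))
      fun x a1 a2 a3 => by
        have := hc x ((hM _ x a1 a2).2 (Or.inl ⟨by omega, a3⟩))
        have := hs.id_le (2 * j + 2)
        simp only [id] at this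
        omega
    have h2 := hk 0 (2 * j + 2) _ (by omega) (f2 _ _)
    rw [cnt_empty, hn] at h1
    simp at h2
    linarith
  · have t : ∀ i, Tendsto (fun j => n (2 * j + i + 1)) atTop atTop := fun i =>
      hs.tendsto_atTop.comp (tendsto_atTop_mono (fun j => by simp only [id]; omega) tendsto_id)
    rw [← agree (fun j => n (2 * j + 0)) _ (t 0) (fun j x a1 a2 => by
        rw [hM _ x a1 a2]; simp) (fun j => hk j _ _ (by omega) (by rw [hn]; exact f2 _ _)) hc ha,
      ← agree (fun j => n (2 * j + 1)) _ (t 1) (fun j x a1 a2 => by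
        rw [hM _ x a1 a2]; simp [Nat.add_mod])
        (fun j => hk j _ _ (by omega) (by rw [hn (2 * j + 1)]; exact f3 _ _)) hc hb]

theorem fin_half {ι : Type} [Finite ι] (R : ι → Set ℕ) (hR : ∀ i, (R i).Infinite) :
    ∃ S, ∀ i, HasDens S (R i) (1 / 2) := by
  classical
  haveI := Fintype.ofFinite ι
  let τ : ℕ → ι → Prop := fun n i => n ∈ R i
  let c : (ι → Prop) → ℕ → ℕ := fun θ n => Nat.count (fun m => τ m = θ) n
  let S : Set ℕ := {n | c (τ n) n % 2 = 0}
  have h1 : ∀ θ n, (∑ m ∈ Finset.range n, if τ m = θ then (if m ∈ S then (1 : ℝ) else -1) else 0) =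
      if c θ n % 2 = 0 then 0 else 1 := by
    intro θ n
    induction n with
    | zero => simp [c]
    | succ n ih =>
      rw [Finset.sum_range_succ, ih]
      have : c θ (n + 1) = c θ n + if τ n = θ then 1 else 0 := Nat.count_succ _ _
      rw [this]
      by_cases h : τ n = θ
      · subst h
        simp only [S, mem_setOf_eq, if_true]
        by_cases h2 : c (τ n) n % 2 = 0
        · rw [if_pos h2, if_pos h2, if_neg (by omega)]; norm_num
        · rw [if_neg h2, if_neg h2, if_pos (by omega)]; norm_num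
      · simp [h]
  refine ⟨S, fun i => ?_⟩
  have h2 : ∀ n, |2 * cnt (S ∩ R i) n - cnt (R i) n| ≤ Fintype.card (ι → Prop) := by
    intro n
    have : 2 * cnt (S ∩ R i) n - cnt (R i) n = ∑ θ : ι → Prop, if θ i then
        (∑ m ∈ Finset.range n, if τ m = θ then (if m ∈ S then (1 : ℝ) else -1) else 0) else 0 := by
      have e : ∀ θ : ι → Prop, (if θ i then (∑ m ∈ Finset.range n, if τ m = θ then
          (if m ∈ S then (1 : ℝ) else -1) else 0) else 0) = ∑ m ∈ Finset.range n,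
          if τ m = θ then (if θ i then (if m ∈ S then (1 : ℝ) else -1) else 0) else 0 := by
        intro θ
        by_cases h : θ i <;> simp [h]
      simp only [e]
      rw [Finset.sum_comm, cnt_eq, cnt_eq, Finset.mul_sum, ← Finset.sum_sub_distrib]
      refine Finset.sum_congr rfl fun m _ => ?_
      rw [Finset.sum_ite_eq, if_pos (Finset.mem_univ _)]
      by_cases a1 : m ∈ S <;> by_cases a2 : m ∈ R i <;> simp [τ, a1, a2]
      norm_num
    rw [this]
    refine (Finset.abs_sum_le_sum_abs _ _).trans ?_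
    refine (Finset.sum_le_card_nsmul _ _ 1 fun θ _ => ?_).trans (by simp)
    rw [h1]
    split_ifs <;> norm_num
  have h3 : Tendsto (fun n => (2 * cnt (S ∩ R i) n - cnt (R i) n) / cnt (R i) n) atTop (𝓝 0) := by
    refine squeeze_zero_norm (fun n => ?_)
      (tendsto_const_nhds (x := (Fintype.card (ι → Prop) : ℝ)).div_atTop (cnt_top (hR i)))
    rw [Real.norm_eq_abs, abs_div, abs_of_nonneg (cnt_nonneg _ _)]
    exact div_le_div_of_nonneg_right (h2 n) (cnt_nonneg _ _)
  have h4 := (h3.add_const 1).div_const 2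
  rw [zero_add] at h4
  refine h4.congr' ?_
  filter_upwards [ev_pos (hR i)] with n hn
  field_simp
  ring

theorem greedy {ι : Type} (R : ι → Set ℕ) (hR : ∀ i, (R i).Infinite) {ε : ℝ} (hε : 0 < ε)
    (H : ∀ R' : ι → Set ℕ, (∀ i, (R' i).Infinite) →
      ∃ S, ∃ ρ ∈ Icc ε (1 - ε), ∀ i, HasDens S (R' i) ρ) : ∃ S, ∀ i, HasDens S (R i) (1 / 2) := by
  let Inv : Set ℕ × Set ℕ × ℝ × ℝ → Prop := fun p => Disjoint p.1 p.2.1 ∧
    (∀ i, HasDens p.1 (R i) p.2.2.1 ∧ HasDens p.2.1 (R i) p.2.2.2) ∧ p.2.2.1 ≤ 1 / 2 ∧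
    1 / 2 ≤ p.2.2.1 + p.2.2.2 ∧ 0 < p.2.2.2
  have step : ∀ p : {p // Inv p}, ∃ q : {p // Inv p}, p.1.1 ⊆ q.1.1 ∧
      q.1.1 ∪ q.1.2.1 ⊆ p.1.1 ∪ p.1.2.1 ∧ q.1.2.2.2 ≤ (1 - ε) * p.1.2.2.2 := by
    rintro ⟨⟨A, T, a, t⟩, h1, h2, h3, h4, h5⟩
    dsimp only at h1 h2 h3 h4 h5
    have hI : ∀ i, (R i ∩ T).Infinite := fun i => by
      rw [inter_comm]; exact inf_of (hR i) (h2 i).2 h5
    obtain ⟨S, ρ, ⟨r1, r2⟩, hS⟩ := H _ hI
    have d1 : ∀ i, HasDens (T ∩ S) (R i) (ρ * t) := fun i => d_chain (hI i) (h2 i).2 (hS i)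
    by_cases hc : a + ρ * t ≤ 1 / 2
    · refine ⟨⟨(A ∪ T ∩ S, T \ S, a + ρ * t, t - ρ * t), ?_, fun i =>
        ⟨d_add (h1.mono_right inter_subset_left) (h2 i).1 (d1 i), d_sub (h2 i).2 (d1 i)⟩, hc,
        by dsimp only; linarith, by dsimp only; nlinarith⟩, subset_union_left, ?_,
        by dsimp only; nlinarith⟩
      · exact disjoint_union_left.2 ⟨h1.mono_right diff_subset, disjoint_left.2 fun x a b => b.2 a.2⟩
      · exact union_subset (union_subset_union_right _ inter_subset_left)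
          (diff_subset.trans subset_union_right)
    · refine ⟨⟨(A, T ∩ S, a, ρ * t), h1.mono_right inter_subset_left, fun i =>
        ⟨(h2 i).1, d1 i⟩, h3, (not_le.1 hc).le, by dsimp only; nlinarith⟩, subset_rfl,
        union_subset_union_right _ inter_subset_left, by dsimp only; nlinarith⟩
  choose F F1 F2 F3 using step
  obtain ⟨p, p0, hp⟩ : ∃ p : ℕ → {p // Inv p}, (p 0).1.2.2.2 = 1 ∧ ∀ k, p (k + 1) = F (p k) :=
    ⟨fun k => Nat.rec ⟨(∅, univ, 0, 1), by simp, fun i => ⟨d_empty _, d_univ (hR i)⟩,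
      by norm_num, by norm_num, by norm_num⟩ (fun _ q => F q) k, rfl, fun _ => rfl⟩
  have m1 : Monotone fun k => (p k).1.1 := monotone_nat_of_le_succ fun k => by
    rw [hp]; exact F1 _
  have m2 : Antitone fun k => (p k).1.1 ∪ (p k).1.2.1 := antitone_nat_of_succ_le fun k => by
    rw [hp]; exact F2 _
  have h1 : 0 < 1 - ε := by
    have := F3 (p 0)
    have := (F (p 0)).2.2.2.2.2
    rw [p0] at *
    linarith
  have m3 : ∀ k, (p k).1.2.2.2 ≤ (1 - ε) ^ k := by
    intro k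
    induction k with
    | zero => simp [p0]
    | succ k ih =>
      rw [hp, pow_succ']
      exact (F3 _).trans (mul_le_mul_of_nonneg_left ih h1.le)
  refine ⟨⋃ k, (p k).1.1, fun i => Metric.tendsto_nhds.2 fun δ hδ => ?_⟩
  obtain ⟨k, hk⟩ := exists_pow_lt_of_lt_one (half_pos hδ) (show 1 - ε < 1 by linarith)
  obtain ⟨q1, q2, q3, q4, q5⟩ := (p k).2
  have hs : (⋃ k, (p k).1.1) ⊆ (p k).1.1 ∪ (p k).1.2.1 := iUnion_subset fun j => by
    rcases le_total j k with h | h
    · exact (m1 h).trans subset_union_left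
    · exact subset_union_left.trans (m2 h)
  filter_upwards [Metric.tendsto_nhds.1 (q2 i).1 _ (half_pos hδ),
    Metric.tendsto_nhds.1 (d_add q1 (q2 i).1 (q2 i).2) _ (half_pos hδ)] with n a1 a2
  have b1 := div_le_div_of_nonneg_right (cnt_mono (inter_subset_inter_left (R i)
    (subset_iUnion (fun k => (p k).1.1) k)) n) (cnt_nonneg (R i) n)
  have b2 := div_le_div_of_nonneg_right (cnt_mono (inter_subset_inter_left (R i) hs) n)
    (cnt_nonneg (R i) n)
  have := m3 k
  rw [Real.dist_eq, abs_lt] at a1 a2 ⊢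
  constructor <;> linarith [a1.1, a2.2]

end Pool.Agent.H8.Dens
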