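import Mathlib
import Pool.Agent.H8.Rec

set_option autoImplicit false

namespace Pool.Agent.H8.FExt

open Set Filter Topology Function Pool.Agent.H8.SG
open scoped Cardinal

lemma mem_bd {α β : Type} (V : Ultrafilter α) (m : α → Ultrafilter β) (s : Set β) :
    s ∈ V.bind m ↔ ∀ᶠ n in V, s ∈ m n := Iff.rfl

lemma ex_ne {a b : Ultrafilter ℕ} (h : a ≠ b) : ∃ C, C ∈ a ∧ C ∉ b := by
  by_contra hc
  push Not at hc
  exact h (Ultrafilter.coe_le_coe.1 (show (b : Filter ℕ) ≤ a from fun s hs => hc s hs)).symm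

lemma disj (V : Filter ℕ) [V.NeBot] (hV : V ≤ atTop) (p : Ultrafilter ℕ)
    (a b : ℕ → Ultrafilter ℕ) (P : ℕ → Prop) (h1 : ∀ R ∈ p, ∀ᶠ n in V, R ∈ a n ∧ R ∈ b n)
    (h2 : ∀ᶠ n in V, p ≠ a n ∧ p ≠ b n ∧ P n) :
    ∃ (n : ℕ → ℕ) (D : ℕ → Set ℕ), (∀ k, k ≤ n k ∧ P (n k) ∧ D k ∈ a (n k) ∧ D k ∈ b (n k)) ∧
      ∀ k l, k ≠ l → Disjoint (D k) (D l) := by
  have : ∀ (k : ℕ) (R : {R // R ∈ p}), ∃ (n : ℕ) (R' : {R // R ∈ p}), k ≤ n ∧ P n ∧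
      R.1 \ R'.1 ∈ a n ∧ R.1 \ R'.1 ∈ b n ∧ R'.1 ⊆ R.1 := by
    intro k R
    obtain ⟨n, ⟨h3, h4⟩, ⟨h5, h6, h7⟩, h8⟩ :=
      ((h1 R.1 R.2).and (h2.and (hV (eventually_ge_atTop k)))).exists
    obtain ⟨X, hX, hX'⟩ := ex_ne h5
    obtain ⟨Y, hY, hY'⟩ := ex_ne h6
    refine ⟨n, ⟨R.1 ∩ (X ∩ Y), inter_mem R.2 (inter_mem hX hY)⟩, h8, h7, ?_, ?_, inter_subset_left⟩
    · exact mem_of_superset (inter_mem h3 (Ultrafilter.compl_mem_iff_notMem.2 hX'))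
        fun x hx => ⟨hx.1, fun h => hx.2 h.2.1⟩
    · exact mem_of_superset (inter_mem h4 (Ultrafilter.compl_mem_iff_notMem.2 hY'))
        fun x hx => ⟨hx.1, fun h => hx.2 h.2.2⟩
  choose n F hF using this
  let R : ℕ → {R // R ∈ p} := fun k => Nat.rec ⟨univ, univ_mem⟩ (fun k R => F k R) k
  have hR : Antitone fun k => (R k).1 := antitone_nat_of_succ_le fun k => (hF k (R k)).2.2.2.2
  have hd : ∀ k l, k < l → Disjoint ((R k).1 \ (R (k + 1)).1) ((R l).1 \ (R (l + 1)).1) :=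
    fun k l hkl => Set.disjoint_left.2 fun x hx hy => hx.2 (hR (Nat.succ_le_of_lt hkl) hy.1)
  refine ⟨fun k => n k (R k), fun k => (R k).1 \ (R (k + 1)).1, fun k =>
    ⟨(hF k _).1, (hF k _).2.1, (hF k _).2.2.1, (hF k _).2.2.2.1⟩, fun k l hkl => ?_⟩
  rcases lt_or_gt_of_ne hkl with h | h
  exacts [hd k l h, (hd l k h).symm]

lemma sep1 (V : Filter ℕ) [V.NeBot] (hV : V ≤ atTop) (p : Ultrafilter ℕ)
    (b : ℕ → Ultrafilter ℕ) (P : ℕ → Prop) (h1 : ∀ R ∈ p, ∀ᶠ n in V, R ∈ b n)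
    (h2 : ∀ᶠ n in V, p ≠ b n ∧ P n) : ∃ C ∈ p, ∃ᶠ n in atTop, P n ∧ C ∉ b n := by
  obtain ⟨n, D, h3, h4⟩ := disj V hV p b b P (fun R hR => (h1 R hR).mono fun n h => ⟨h, h⟩)
    (h2.mono fun n h => ⟨h.1, h.1, h.2⟩)
  have key : ∀ i : ℕ, (⋃ k, D (2 * k + i)) ∉ p → ∃ C ∈ p, ∃ᶠ n in atTop, P n ∧ C ∉ b n := by
    intro i hi
    refine ⟨_, Ultrafilter.compl_mem_iff_notMem.2 hi, frequently_atTop.2 fun k =>
      ⟨n (2 * k + i), le_trans (by omega) (h3 _).1, (h3 _).2.1, ?_⟩⟩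
    exact Ultrafilter.compl_notMem_iff.2
      (mem_of_superset (h3 _).2.2.1 (subset_iUnion (fun k => D (2 * k + i)) k))
  by_cases h0 : (⋃ k, D (2 * k + 0)) ∈ p
  · refine key 1 fun h5 => ?_
    obtain ⟨x, hx, hy⟩ := Ultrafilter.nonempty_of_mem (inter_mem h0 h5)
    obtain ⟨k, hk⟩ := mem_iUnion.1 hx
    obtain ⟨l, hl⟩ := mem_iUnion.1 hy
    exact Set.disjoint_left.1 (h4 _ _ (by omega)) hk hl
  · exact key 0 h0

lemma sep (a b : ℕ → Ultrafilter ℕ) (P : ℕ → Prop) (h : ∃ᶠ n in atTop, P n ∧ a n ≠ b n) :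
    ∃ C, ∃ᶠ n in atTop, P n ∧ C ∈ a n ∧ C ∉ b n := by
  obtain ⟨V, hV, hP⟩ : ∃ V : Ultrafilter ℕ, ↑V ≤ (atTop : Filter ℕ) ∧
      ∀ᶠ n in V, P n ∧ a n ≠ b n := by
    haveI := frequently_iff_neBot.1 h
    obtain ⟨V, hV⟩ := Ultrafilter.exists_le (atTop ⊓ 𝓟 {n | P n ∧ a n ≠ b n})
    exact ⟨V, hV.trans inf_le_left, le_principal_iff.1 (hV.trans inf_le_right)⟩
  by_cases he : V.bind a = V.bind b
  swap
  · obtain ⟨C, h1, h2⟩ := ex_ne he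
    rw [← Ultrafilter.compl_mem_iff_notMem, mem_bd] at h2
    refine ⟨C, (Eventually.frequently ?_).filter_mono hV⟩
    filter_upwards [hP, (mem_bd _ _ _).1 h1, h2] with n h3 h4 h5
    exact ⟨h3.1, h4, Ultrafilter.compl_mem_iff_notMem.1 h5⟩
  have ha : ∀ R ∈ V.bind a, ∀ᶠ n in V, R ∈ a n := fun R hR => hR
  have hb : ∀ R ∈ V.bind a, ∀ᶠ n in V, R ∈ b n := fun R hR => (mem_bd _ _ _).1 (he ▸ hR)
  generalize V.bind a = p at ha hb
  by_cases h1 : ∀ᶠ n in V, p = a n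
  · obtain ⟨C, hC, h2⟩ := sep1 V hV p b (fun n => P n ∧ p = a n) hb (by
      filter_upwards [hP, h1] with n h3 h4 using ⟨h4 ▸ h3.2, h3.1, h4⟩)
    exact ⟨C, h2.mono fun n h => ⟨h.1.1, h.1.2 ▸ hC, h.2⟩⟩
  by_cases h2 : ∀ᶠ n in V, p = b n
  · obtain ⟨C, hC, h3⟩ := sep1 V hV p a (fun n => P n ∧ p = b n) ha (by
      filter_upwards [hP, h2] with n h3 h4 using ⟨h4 ▸ h3.2.symm, h3.1, h4⟩)
    exact ⟨Cᶜ, h3.mono fun n h => ⟨h.1.1, Ultrafilter.compl_mem_iff_notMem.2 h.2,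
      Ultrafilter.compl_notMem_iff.2 (h.1.2 ▸ hC)⟩⟩
  rw [← Ultrafilter.eventually_not] at h1 h2
  obtain ⟨n, D, h3, h4⟩ := disj V hV p a b (fun n => P n ∧ a n ≠ b n)
    (fun R hR => (ha R hR).and (hb R hR)) (h1.and (h2.and hP))
  choose E hE hE' using fun k => ex_ne (h3 k).2.1.2
  refine ⟨⋃ k, D k ∩ E k, frequently_atTop.2 fun k => ⟨n k, (h3 k).1, (h3 k).2.1.1,
    mem_of_superset (inter_mem (h3 k).2.2.1 (hE k)) (subset_iUnion (fun k => D k ∩ E k) k),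
    fun h5 => hE' k (mem_of_superset (inter_mem h5 (h3 k).2.2.2) ?_)⟩⟩
  rintro x ⟨hx, hy⟩
  obtain ⟨l, hl⟩ := mem_iUnion.1 hx
  by_cases hkl : l = k
  · exact hkl ▸ hl.2
  · exact (Set.disjoint_left.1 (h4 _ _ hkl) hl.1 hy).elim

lemma gen (h : Cardinal.continuum.{0} = Cardinal.aleph 1) {J : Type} (hJ : #J ≤ 𝔠)
    (D : J → Set ℕ → Prop) (hD : ∀ j (S : Set ℕ), S.Infinite → ∃ S' ⊆ S, S'.Infinite ∧ D j S') :
    ∃ V : Ultrafilter ℕ, ↑V ≤ (atTop : Filter ℕ) ∧ ∀ j, ∃ S ∈ V, D j S := by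
  have hle : ∀ 𝒮 : Set (Set ℕ), range Ici ⊆ 𝒮 → generate 𝒮 ≤ atTop := fun 𝒮 h𝒮 s hs => by
    obtain ⟨k, hk⟩ := mem_atTop_sets.1 hs
    exact mem_of_superset (mem_generate_of_mem (h𝒮 ⟨k, rfl⟩)) hk
  obtain ⟨𝒮, h1, h2, h3⟩ := rec_CH h hJ (fun 𝒮 : Set (Set ℕ) => (generate 𝒮).NeBot)
    (fun j 𝒮 => ∃ S ∈ 𝒮, D j S) (S₀ := range Ici) (countable_range _)
    (neBot_of_le (f := atTop) (le_generate_iff.2 (by rintro _ ⟨k, rfl⟩; exact Ici_mem_atTop k)))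
    (fun c hc hch hG => generate_neBot_iff.2 fun t ht htf => by
      obtain ⟨s, hs, hts⟩ := DirectedOn.exists_mem_subset_of_finset_subset_biUnion (f := id) hc
        hch.directedOn (s := htf.toFinset) (by simpa [sUnion_eq_biUnion] using ht)
      exact generate_neBot_iff.1 (hG s hs) t (by simpa using hts) htf)
    (fun 𝒮 h0 hc hG j => by
      haveI : (generate 𝒮).IsCountablyGenerated := ⟨⟨𝒮, hc, rfl⟩⟩
      obtain ⟨x, hx⟩ := exists_seq_tendsto (generate 𝒮)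
      obtain ⟨S, hS, hSi, hj⟩ := hD j (range x)
        (infinite_of_not_bddAbove (not_bddAbove_of_tendsto_atTop (hx.mono_right (hle 𝒮 h0))))
      refine ⟨{S} ∪ 𝒮, subset_union_right, (countable_singleton _).union hc, ?_,
        S, Or.inl rfl, hj⟩
      rw [generate_union, generate_singleton, inf_comm, ← frequently_mem_iff_neBot, frequently_iff]
      intro U hU
      have hf : {n | x n ∉ U}.Finite := by
        have := hx hU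
        rw [← Nat.cofinite_eq_atTop] at this
        exact this
      obtain ⟨y, hy, hy'⟩ := hSi.exists_notMem_finite (hf.image x)
      obtain ⟨n, rfl⟩ := hS hy
      exact ⟨x n, by_contra fun hn => hy' ⟨n, hn, rfl⟩, hy⟩)
  obtain ⟨V, hV⟩ := Ultrafilter.exists_le (generate 𝒮)
  refine ⟨V, hV.trans (hle 𝒮 h1), fun j => ?_⟩
  obtain ⟨𝒮', h4, S, h5, h6⟩ := h3 j
  exact ⟨S, hV (mem_generate_of_mem (h4 h5)), h6⟩

def Haus (u : Ultrafilter ℕ) : Prop := ∀ f g : ℕ → ℕ, u.map f = u.map g → f =ᶠ[u] g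

def RK (a b : Ultrafilter ℕ) : Prop := ∃ f : ℕ → ℕ, b.map f = a

def Clu (η : Ultrafilter ℕ) (ξ : ℕ → Ultrafilter ℕ) : Prop := ∀ A ∈ η, ∃ᶠ n in atTop, A ∈ ξ n

lemma RK.refl (a : Ultrafilter ℕ) : RK a a := ⟨id, rfl⟩

lemma RK.trans {a b c : Ultrafilter ℕ} (h1 : RK a b) (h2 : RK b c) : RK a c := by
  obtain ⟨f, rfl⟩ := h1
  obtain ⟨g, rfl⟩ := h2
  exact ⟨f ∘ g, rfl⟩

lemma Haus.rk {a b : Ultrafilter ℕ} (h : Haus b) (h1 : RK a b) : Haus a := by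
  obtain ⟨k, rfl⟩ := h1
  exact fun f g e => h (f ∘ k) (g ∘ k) e

lemma rk_pure (n : ℕ) (b : Ultrafilter ℕ) : RK (pure n) b :=
  ⟨fun _ => n, Ultrafilter.coe_injective (by
    simp only [Ultrafilter.coe_map, Ultrafilter.coe_pure]; exact map_const)⟩

lemma haus_pure (n : ℕ) : Haus (pure n) := fun f g e => by
  rw [Ultrafilter.map_pure, Ultrafilter.map_pure] at e
  exact Ultrafilter.pure_injective e

lemma sum (h : Cardinal.continuum.{0} = Cardinal.aleph 1) (W : ℕ → Ultrafilter ℕ)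
    (hW : ∀ n, Haus (W n)) : ∃ η, Haus η ∧ ∀ ξ : ℕ → Ultrafilter ℕ,
      (∀ᶠ n in atTop, RK (ξ n) (W n)) → ∃ ζ, RK ζ η ∧ Clu ζ ξ := by
  classical
  have hc := card_seq _ (card_seq ℕ (card_ct ℕ))
  obtain ⟨V, hV, hD⟩ := gen h (card_prod hc hc) (fun j S =>
    (∀ n ∈ S, (W n).map (j.1 n) = (W n).map (j.2 n)) ∨
      ∃ C, ∀ n ∈ S, C ∈ (W n).map (j.1 n) ∧ C ∉ (W n).map (j.2 n)) (fun j S hS => by
    by_cases h1 : ∃ᶠ n in atTop, n ∈ S ∧ (W n).map (j.1 n) ≠ (W n).map (j.2 n)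
    · obtain ⟨C, hC⟩ := sep _ _ _ h1
      exact ⟨_, fun n hn => hn.1, Nat.frequently_atTop_iff_infinite.1 hC,
        Or.inr ⟨C, fun n hn => hn.2⟩⟩
    · refine ⟨{n | n ∈ S ∧ (W n).map (j.1 n) = (W n).map (j.2 n)}, fun n hn => hn.1,
        Nat.frequently_atTop_iff_infinite.1 ?_, Or.inl fun n hn => hn.2⟩
      refine ((Nat.frequently_atTop_iff_infinite.2 hS).and_eventually (not_frequently.1 h1)).mono
        fun n hn => ⟨hn.1, by_contra fun h2 => hn.2 ⟨hn.1, h2⟩⟩)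
  refine ⟨V.bind fun n => (W n).map (Nat.pair n), fun F G e => ?_, fun ξ hξ => ?_⟩
  · obtain ⟨S, hS, h1 | ⟨C, h1⟩⟩ :=
      hD (fun n x => F (Nat.pair n x), fun n x => G (Nat.pair n x))
    · exact (mem_bd _ _ _).2 (mem_of_superset hS fun n hn => hW n _ _ (h1 n hn))
    · have h2 : C ∈ (V.bind fun n => (W n).map (Nat.pair n)).map F :=
        (mem_bd _ _ _).2 (mem_of_superset hS fun n hn => (h1 n hn).1)
      rw [e] at h2
      obtain ⟨n, h3, h4⟩ := (((mem_bd _ _ _).1 h2).and hS).exists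
      exact ((h1 n h4).2 h3).elim
  · have : ∀ n, ∃ f : ℕ → ℕ, RK (ξ n) (W n) → (W n).map f = ξ n := fun n => by
      by_cases h1 : RK (ξ n) (W n)
      · exact h1.imp fun f hf _ => hf
      · exact ⟨id, fun h2 => absurd h2 h1⟩
    choose f hf using this
    refine ⟨_, ⟨fun z => f z.unpair.1 z.unpair.2, rfl⟩, fun A hA => ?_⟩
    refine (Eventually.frequently ?_).filter_mono hV
    filter_upwards [(mem_bd _ _ _).1 hA, hV hξ] with n h1 h2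
    rw [← hf n h2]
    simpa [Ultrafilter.mem_map, preimage_preimage] using h1

lemma up (h : Cardinal.continuum.{0} = Cardinal.aleph 1) (S : Set (Ultrafilter ℕ))
    (hc : S.Countable) (hn : S.Nonempty) (hH : ∀ u ∈ S, Haus u)
    (hd : ∀ a ∈ S, ∀ b ∈ S, RK a b ∨ RK b a) : ∃ η, Haus η ∧ (∀ u ∈ S, RK u η) ∧
      ∀ u ∈ S, ∀ ξ : ℕ → Ultrafilter ℕ, (∀ n, RK (ξ n) u) → ∃ ζ, RK ζ η ∧ Clu ζ ξ := by
  obtain ⟨e, rfl⟩ := hc.exists_eq_range hn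
  have : ∀ n, ∃ w ∈ range e, ∀ k ≤ n, RK (e k) w := by
    intro n
    induction n with
    | zero => exact ⟨e 0, ⟨0, rfl⟩, fun k hk => by rw [Nat.le_zero.1 hk]; exact RK.refl _⟩
    | succ n ih =>
      obtain ⟨w, hw, h1⟩ := ih
      rcases hd w hw _ ⟨n + 1, rfl⟩ with h2 | h2
      · refine ⟨_, ⟨n + 1, rfl⟩, fun k hk => ?_⟩
        rcases Nat.le_succ_iff.1 hk with h3 | rfl
        exacts [(h1 k h3).trans h2, RK.refl _]
      · refine ⟨w, hw, fun k hk => ?_⟩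
        rcases Nat.le_succ_iff.1 hk with h3 | rfl
        exacts [h1 k h3, h2]
  choose W hW hW' using this
  obtain ⟨η, h1, h2⟩ := sum h W fun n => hH _ (hW n)
  have h3 : ∀ u ∈ range e, ∀ ξ : ℕ → Ultrafilter ℕ, (∀ n, RK (ξ n) u) →
      ∃ ζ, RK ζ η ∧ Clu ζ ξ := by
    rintro _ ⟨k, rfl⟩ ξ hξ
    exact h2 ξ ((eventually_ge_atTop k).mono fun n hn => (hξ n).trans (hW' n k hn))
  refine ⟨η, h1, fun u hu => ?_, h3⟩
  obtain ⟨ζ, h4, h5⟩ := h3 u hu (fun _ => u) fun _ => RK.refl u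
  rwa [Ultrafilter.coe_le_coe.1 (show (u : Filter ℕ) ≤ ζ from fun A hA => (h5 A hA).exists.choose_spec)]

theorem main (h : Cardinal.continuum.{0} = Cardinal.aleph 1) : ∃ Y : Set (Ultrafilter ℕ),
    (∀ n, pure n ∈ Y) ∧ (∀ u ∈ Y, Haus u) ∧ (∀ u ∈ Y, ∀ v, RK v u → v ∈ Y) ∧
    (∀ a ∈ Y, ∀ b ∈ Y, ∃ c ∈ Y, RK a c ∧ RK b c) ∧
    ∀ ξ : ℕ → Ultrafilter ℕ, (∀ n, ξ n ∈ Y) → ∃ ζ ∈ Y, Clu ζ ξ := by
  obtain ⟨r, wo, hseg⟩ := wo_of_CH h ℝ Cardinal.mk_real.le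
  have : ∀ S : Set (Ultrafilter ℕ), ∃ η, S.Countable → S.Nonempty → (∀ u ∈ S, Haus u) →
      (∀ a ∈ S, ∀ b ∈ S, RK a b ∨ RK b a) → Haus η ∧ (∀ u ∈ S, RK u η) ∧
      ∀ u ∈ S, ∀ ξ : ℕ → Ultrafilter ℕ, (∀ n, RK (ξ n) u) → ∃ ζ, RK ζ η ∧ Clu ζ ξ := by
    intro S
    by_cases hc : S.Countable ∧ S.Nonempty ∧ (∀ u ∈ S, Haus u) ∧
      ∀ a ∈ S, ∀ b ∈ S, RK a b ∨ RK b a
    · obtain ⟨η, hη⟩ := up h S hc.1 hc.2.1 hc.2.2.1 hc.2.2.2
      exact ⟨η, fun _ _ _ _ => hη⟩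
    · exact ⟨pure 0, fun a b c d => absurd ⟨a, b, c, d⟩ hc⟩
  choose F hF using this
  let x : ℝ → Ultrafilter ℕ :=
    wo.wf.fix fun a ih => F (insert (pure 0) (range fun b : {b // r b a} => ih b.1 b.2))
  have hx : ∀ a, x a = F (insert (pure 0) (range fun b : {b // r b a} => x b.1)) :=
    fun a => wo.wf.fix_eq _ a
  clear_value x
  have key : ∀ a, Haus (x a) ∧ (∀ b, r b a → RK (x b) (x a)) ∧ ∀ b, r b a →
      ∀ ξ : ℕ → Ultrafilter ℕ, (∀ n, RK (ξ n) (x b)) → ∃ ζ, RK ζ (x a) ∧ Clu ζ ξ := by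
    intro a
    induction a using wo.wf.induction with
    | _ a ih =>
      haveI : Countable {b // r b a} := (hseg a).to_subtype
      have := hF _ ((countable_range fun b : {b // r b a} => x b.1).insert (pure 0))
        (insert_nonempty _ _) (by
          rintro _ (rfl | ⟨b, rfl⟩)
          exacts [haus_pure 0, (ih _ b.2).1]) (by
          rintro _ (rfl | ⟨b, rfl⟩) _ (rfl | ⟨c, rfl⟩)
          · exact Or.inl (RK.refl _)
          · exact Or.inl (rk_pure _ _)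
          · exact Or.inr (rk_pure _ _)
          · rcases trichotomous_of r b.1 c.1 with h | h | h
            · exact Or.inl ((ih _ c.2).2.1 _ h)
            · exact Or.inl (by simp only [h]; exact RK.refl _)
            · exact Or.inr ((ih _ b.2).2.1 _ h))
      rw [← hx a] at this
      exact ⟨this.1, fun b hb => this.2.1 _ (Or.inr ⟨⟨b, hb⟩, rfl⟩),
        fun b hb => this.2.2 _ (Or.inr ⟨⟨b, hb⟩, rfl⟩)⟩
  have ub : ∀ β : ℕ → ℝ, ∃ a, ∀ n, r (β n) a := by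
    intro β
    by_contra hc
    push Not at hc
    refine Cardinal.not_countable_real ((countable_iUnion fun n =>
      (hseg (β n)).insert (β n)).mono fun a _ => ?_)
    obtain ⟨n, hn⟩ := hc a
    rcases trichotomous_of r (β n) a with h | h | h
    exacts [absurd h hn, mem_iUnion.2 ⟨n, Or.inl h.symm⟩, mem_iUnion.2 ⟨n, Or.inr h⟩]
  refine ⟨{u | ∃ a, RK u (x a)}, fun n => ⟨0, rk_pure _ _⟩, fun u ⟨a, ha⟩ => (key a).1.rk ha,
    fun u ⟨a, ha⟩ v hv => ⟨a, hv.trans ha⟩, fun u ⟨a, ha⟩ v ⟨b, hb⟩ => ?_, fun ξ hξ => ?_⟩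
  · obtain ⟨c, hc⟩ := ub fun n => if n = 0 then a else b
    exact ⟨x c, ⟨c, RK.refl _⟩, ha.trans ((key c).2.1 _ (hc 0)), hb.trans ((key c).2.1 _ (hc 1))⟩
  · choose β hβ using hξ
    obtain ⟨a, ha⟩ := ub β
    obtain ⟨c, hc⟩ := ub fun _ => a
    obtain ⟨ζ, h1, h2⟩ := (key c).2.2 a (hc 0) ξ fun n => (hβ n).trans ((key a).2.1 _ (ha n))
    exact ⟨ζ, ⟨c, h1⟩, h2⟩

end Pool.Agent.H8.FExt
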