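import Mathlib
import Pool.Agent.H8.CovM

set_option autoImplicit false
open Set Function Filter Topology TopologicalSpace

namespace Pool.Agent.H8.Free

lemma shrink {X : Type} [TopologicalSpace X] {J τ : Type} (n : τ → ℕ)
    (N : ∀ t, Set (Fin (n t) → X)) (hN : ∀ t, IsNowhereDense (N t)) (φ : ∀ t, Fin (n t) → J)
    (S : Set τ) (hS : S.Finite) (W : J → Set X) (hW : ∀ j, IsOpen (W j) ∧ (W j).Nonempty) :
    ∃ W' : J → Set X, (∀ j, IsOpen (W' j) ∧ (W' j).Nonempty ∧ W' j ⊆ W j) ∧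
      ∀ t ∈ S, Injective (φ t) → ∀ y, (∀ k, y k ∈ W' (φ t k)) → y ∉ N t := by
  induction S, hS using Set.Finite.induction_on with
  | empty => exact ⟨W, fun j => ⟨(hW j).1, (hW j).2, subset_rfl⟩, by simp⟩
  | @insert t S _ _ ih =>
    obtain ⟨V, v1, v2⟩ := ih
    by_cases hi : Injective (φ t)
    · have o1 : IsOpen (Set.pi univ fun k => V (φ t k)) :=
        isOpen_set_pi finite_univ fun k _ => (v1 _).1
      have o2 : (Set.pi univ fun k => V (φ t k)).Nonempty := univ_pi_nonempty_iff.2 fun k => (v1 _).2.1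
      have : ¬ (Set.pi univ fun k => V (φ t k)) ⊆ closure (N t) := fun h =>
        o2.not_subset_empty (hN t ▸ interior_maximal h o1)
      obtain ⟨y, y1, y2⟩ := not_subset.1 this
      obtain ⟨u, u1, u2⟩ := isOpen_pi_iff'.1 isClosed_closure.isOpen_compl y y2
      refine ⟨fun j => V j ∩ ⋂ k, ⋂ (_ : φ t k = j), u k, fun j => ⟨(v1 j).1.inter
        (isOpen_iInter_of_finite fun k => isOpen_iInter_of_finite fun _ => (u1 k).1), ?_,
        inter_subset_left.trans (v1 j).2.2⟩, ?_⟩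
      · by_cases hj : ∃ k, φ t k = j
        · obtain ⟨k, rfl⟩ := hj
          exact ⟨y k, y1 k trivial, mem_iInter₂.2 fun k' h => hi h ▸ (u1 k').2⟩
        · obtain ⟨z, hz⟩ := (v1 j).2.1
          exact ⟨z, hz, mem_iInter₂.2 fun k' h => (hj ⟨k', h⟩).elim⟩
      · rintro s (rfl | hs) h z hz
        · exact fun h' => u2 (fun k _ => mem_iInter₂.1 (hz k).2 k rfl) (subset_closure h')
        · exact v2 s hs h z fun k => (hz k).1
    · refine ⟨V, v1, ?_⟩
      rintro s (rfl | hs) h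
      · exact absurd h hi
      · exact v2 s hs h

/-- Following targets on a set in an ultrafilter is nowhere meagre. -/
lemma dodge {X : Type} [MetricSpace X] [CompleteSpace X] (c : ℕ → Set (Set X))
    (h1 : ∀ t, ∀ W ∈ c t, IsOpen W ∧ W.Nonempty)
    (h2 : ∀ t, ∀ W ∈ c t, ∃ W' ∈ c (t + 1), W' ⊆ W)
    (h3 : ∀ O : Set X, IsOpen O → O.Nonempty → ∀ m, ∃ t, m ≤ t ∧ ∃ W ∈ c t, W ⊆ O)
    (𝒰 : Ultrafilter ℕ) (hU : (𝒰 : Filter ℕ) ≤ atTop) (U : Set X) (hU1 : IsOpen U)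
    (hU2 : U.Nonempty) : ¬ IsMeagre ({x | {t | ∃ W ∈ c t, x ∈ W} ∈ 𝒰} ∩ U) := by
  intro hm
  obtain ⟨S, s1, s2, s3⟩ := mem_residual_iff.1 hm
  obtain ⟨G, hG⟩ : ∃ G : ℕ → Set X, insert univ S = range G :=
    (s3.1.insert univ).exists_eq_range (insert_nonempty _ _)
  have g1 : ∀ i, IsOpen (G i) ∧ Dense (G i) := fun i => by
    rcases (hG ▸ mem_range_self i : G i ∈ insert univ S) with h | h
    · rw [h]; exact ⟨isOpen_univ, dense_univ⟩
    · exact ⟨s1 _ h, s2 _ h⟩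
  have follow : ∀ t P, P ∈ c t → ∀ t', t ≤ t' → ∃ Q ∈ c t', Q ⊆ P ∧
      ∀ s, t ≤ s → s ≤ t' → ∃ W ∈ c s, Q ⊆ W := fun t P hP t' ht => by
    induction ht with
    | refl => exact ⟨P, hP, subset_rfl, fun s a b => ⟨P, le_antisymm a b ▸ hP, subset_rfl⟩⟩
    | @step m _ ih =>
      obtain ⟨Q, q1, q2, q3⟩ := ih
      obtain ⟨Q', q4, q5⟩ := h2 m Q q1
      refine ⟨Q', q4, q5.trans q2, fun s a b => ?_⟩
      rcases b.lt_or_eq with b | rfl
      · obtain ⟨W, w1, w2⟩ := q3 s a (Nat.lt_succ_iff.1 b)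
        exact ⟨W, w1, q5.trans w2⟩
      · exact ⟨Q', q4, subset_rfl⟩
  let A := {p : ℕ × Set X // p.2 ∈ c p.1}
  have step : ∀ (i : ℕ) (p : A) (t' : ℕ), ∃ q : A, t' < q.1.1 ∧ closure q.1.2 ⊆ p.1.2 ∩ G (i / 2) ∧
      (∀ x ∈ q.1.2, ∀ y ∈ q.1.2, dist x y ≤ 2 * (1 / 2) ^ i) ∧
      ∀ s, p.1.1 ≤ s → s ≤ t' → ∃ W ∈ c s, closure q.1.2 ⊆ W := fun i p t' => by
    obtain ⟨Q, q1, q2, q3⟩ := follow p.1.1 p.1.2 p.2 (max p.1.1 t') (le_max_left _ _)
    obtain ⟨z, hz⟩ := (g1 (i / 2)).2.inter_open_nonempty Q (h1 _ _ q1).1 (h1 _ _ q1).2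
    obtain ⟨ε, e1, e2⟩ := Metric.nhds_basis_closedBall.mem_iff.1
      (((h1 _ _ q1).1.inter (g1 (i / 2)).1).mem_nhds hz)
    obtain ⟨t, t1, W, w1, w2⟩ := h3 (Metric.ball z (min ε ((1 / 2) ^ i))) Metric.isOpen_ball
      (Metric.nonempty_ball.2 (by positivity)) (t' + 1)
    have w3 : closure W ⊆ Q ∩ G (i / 2) := (closure_minimal (w2.trans (Metric.ball_subset_closedBall.trans
      (Metric.closedBall_subset_closedBall (min_le_left _ _)))) Metric.isClosed_closedBall).trans e2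
    refine ⟨⟨(t, W), w1⟩, t1, w3.trans (inter_subset_inter_left _ q2), fun x hx y hy => ?_,
      fun s a b => ?_⟩
    · have a := (Metric.mem_ball.1 (w2 hx)).trans_le (min_le_right _ _)
      have b := (Metric.mem_ball.1 (w2 hy)).trans_le (min_le_right _ _)
      linarith [dist_triangle_right x y z]
    · obtain ⟨V, v1, v2⟩ := q3 s a (b.trans (le_max_right _ _))
      exact ⟨V, v1, (w3.trans inter_subset_left).trans v2⟩
  choose nx n1 n2 n3 n4 using step
  obtain ⟨t0, -, W0, a1, a2⟩ := h3 U hU1 hU2 0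
  let p0 : A := ⟨(t0, W0), a1⟩
  let st : ℕ → A × A := fun i => Nat.rec (p0, p0) (fun i s => (s.2, nx i s.1 s.2.1.1)) i
  let p : ℕ → A := fun i => (st i).1
  have hp : ∀ i, p (i + 2) = nx i (p i) (p (i + 1)).1.1 := fun i => rfl
  have pt : ∀ b : ℕ, ∃ x, ∀ j, x ∈ closure (p (2 * j + b + 2)).1.2 := fun b => by
    have d : ∀ j, closure (p (2 * (j + 1) + b + 2)).1.2 ⊆ closure (p (2 * j + b + 2)).1.2 :=
      fun j => by
        rw [show 2 * (j + 1) + b + 2 = (2 * j + b + 2) + 2 by ring, hp]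
        exact ((n2 _ _ _).trans inter_subset_left).trans subset_closure
    have d' : Antitone fun j => closure (p (2 * j + b + 2)).1.2 := antitone_nat_of_succ_le d
    have bd : ∀ j, Metric.diam (closure (p (2 * j + b + 2)).1.2) ≤ 2 * (1 / 2) ^ j := fun j => by
      rw [Metric.diam_closure]
      refine (Metric.diam_le_of_forall_dist_le (by positivity) (n3 _ _ _)).trans ?_
      exact mul_le_mul_of_nonneg_left
        (pow_le_pow_of_le_one (by norm_num) (by norm_num) (by omega)) zero_le_two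
    obtain ⟨x, hx⟩ := Metric.nonempty_iInter_of_nonempty_biInter
      (s := fun j => closure (p (2 * j + b + 2)).1.2) (fun j => isClosed_closure)
      (fun j => (Metric.isBounded_iff.2 ⟨_, fun x hx y hy => n3 _ _ _ x hx y hy⟩).closure)
      (fun N => by
        obtain ⟨z, hz⟩ := (h1 _ _ (p (2 * N + b + 2)).2).2
        exact ⟨z, mem_iInter₂.2 fun j hj => d' hj (subset_closure hz)⟩)
      (squeeze_zero (fun _ => Metric.diam_nonneg) bd (by
        simpa using (tendsto_pow_atTop_nhds_zero_of_lt_one (r := (1 / 2 : ℝ)) (by norm_num)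
          (by norm_num)).const_mul 2))
    exact ⟨x, mem_iInter.1 hx⟩
  choose x hx using pt
  have bad : ∀ b, b < 2 → {t | ∃ W ∈ c t, x b ∈ W} ∉ 𝒰 := fun b hb h => by
    refine s3.2 (mem_sInter.2 fun g hg => ?_) ⟨h, a2 ?_⟩
    · obtain ⟨i, rfl⟩ : g ∈ range G := hG ▸ mem_insert_of_mem _ hg
      have := (n2 _ _ _ (hp _ ▸ hx b i)).2
      rwa [show (2 * i + b) / 2 = i by omega] at this
    · have := (n2 _ _ _ (hp _ ▸ hx b 0)).1
      interval_cases b <;> exact this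
  have cov : ∀ s, t0 ≤ s → ∃ i, (p i).1.1 ≤ s ∧ s ≤ (p (i + 1)).1.1 := fun s hs => by
    have gr : ∀ i, i ≤ (p (i + 1)).1.1 := fun i => by
      induction i with
      | zero => exact Nat.zero_le _
      | succ i ih => exact lt_of_le_of_lt ih (n1 _ _ _)
    have ex : ∃ i, s ≤ (p (i + 1)).1.1 := ⟨s, gr s⟩
    refine ⟨Nat.find ex, ?_, Nat.find_spec ex⟩
    rcases h : Nat.find ex with _ | j
    · exact hs
    · exact (not_le.1 (Nat.find_min ex (m := j) (by omega))).le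
  have : {t | ∃ W ∈ c t, x 0 ∈ W} ∪ {t | ∃ W ∈ c t, x 1 ∈ W} ∈ 𝒰 := by
    refine mem_of_superset (hU (mem_atTop t0)) fun s hs => ?_
    obtain ⟨i, i1, i2⟩ := cov s hs
    obtain ⟨W, w1, w2⟩ := n4 i (p i) _ s i1 i2
    rcases Nat.even_or_odd' i with ⟨j, rfl | rfl⟩
    · exact Or.inl ⟨W, w1, w2 (hx 0 j)⟩
    · exact Or.inr ⟨W, w1, w2 (hx 1 j)⟩
  rcases Ultrafilter.union_mem_iff.1 this with h | h
  · exact bad 0 (by omega) h
  · exact bad 1 (by omega) h

theorem main (X : Type) [TopologicalSpace X] [PolishSpace X] (ι : Type) (n : ι → ℕ)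
    (R : ∀ i, Set (Fin (n i) → X)) (hR : ∀ i, IsMeagre (R i)) (H : CovM.NoCov ι) :
    ∃ A : Set X, (∀ U : Set X, IsOpen U → U.Nonempty → ¬ IsMeagre (A ∩ U)) ∧
      ∀ (i : ι) (x : Fin (n i) → X), Injective x → (∀ k, x k ∈ A) → x ∉ R i := by
  classical
  letI := upgradeIsCompletelyMetrizable X
  have hN : ∀ i, ∃ N : ℕ → Set (Fin (n i) → X), (∀ j, IsNowhereDense (N j)) ∧ R i ⊆ ⋃ j, N j :=
    fun i => by
      obtain ⟨S, s1, s2, s3⟩ := isMeagre_iff_countable_union_isNowhereDense.1 (hR i)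
      obtain ⟨G, hG⟩ := (s2.insert ∅).exists_eq_range (insert_nonempty _ _)
      refine ⟨G, fun j => ?_, s3.trans ?_⟩
      · rcases (hG ▸ mem_range_self j : G j ∈ insert ∅ S) with h | h
        · rw [h]; exact isNowhereDense_empty
        · exact s1 _ h
      · rw [← sUnion_range, ← hG]
        exact sUnion_subset_sUnion (subset_insert _ _)
  choose N N1 N2 using hN
  let β := ↥(countableBasis X)
  haveI : Countable β := (countable_countableBasis X).to_subtype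
  have bo : ∀ B : β, IsOpen B.1 ∧ B.1.Nonempty := fun B =>
    ⟨isOpen_of_mem_countableBasis B.2, nonempty_of_mem_countableBasis B.2⟩
  let good : Finset (ι × ℕ) × ℕ → Finset β → Prop := fun a T =>
    (∀ p ∈ a.1, ∀ W : Fin (n p.1) → β, Injective W → (∀ k, W k ∈ T) → ∀ y, (∀ k, y k ∈ (W k).1) →
      y ∉ N p.1 p.2) ∧ ∀ W ∈ T, ∀ x ∈ W.1, ∀ y ∈ W.1, dist x y ≤ 2 * (1 / 2) ^ a.2
  have H' : CovM.NoCov ((Finset (ι × ℕ) × ℕ) × Option β) := H.mono (by
    have h1 : Cardinal.mk (Finset (ι × ℕ)) ≤ Cardinal.mk (Option ι × ℕ) := by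
      rw [← Cardinal.mk_finset_of_infinite (Option ι × ℕ)]
      exact Cardinal.mk_le_of_injective (Finset.map_injective
        ((Function.Embedding.some).prodMap (Function.Embedding.refl ℕ)))
    have h2 : Cardinal.aleph0 ≤ Cardinal.mk (Option ι × ℕ) := Cardinal.aleph0_le_mk _
    rw [Cardinal.mk_prod (Finset (ι × ℕ) × ℕ), Cardinal.mk_prod (Finset (ι × ℕ))]
    simp only [Cardinal.lift_id]
    exact Cardinal.mul_le_of_le h2 (Cardinal.mul_le_of_le h2 h1 (Cardinal.mk_le_aleph0.trans h2))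
      (Cardinal.mk_le_aleph0.trans h2))
  obtain ⟨c, c1, c2⟩ := CovM.chain H' (fun T' T : Finset β => ∀ W ∈ T, ∃ W' ∈ T', W'.1 ⊆ W.1)
    (fun T W hW => ⟨W, hW, subset_rfl⟩)
    (fun a => {T | good a.1 T ∧ ∀ B, a.2 = some B → ∃ W ∈ T, W.1 ⊆ B.1}) (by
      rintro ⟨a, o⟩ T
      let T1 := T ∪ o.toFinset
      obtain ⟨W', w1, w2⟩ := shrink (τ := Σ p : ι × ℕ, (Fin (n p.1) → T1)) (fun t => n t.1.1)
        (fun t => N t.1.1 t.1.2) (fun t => N1 _ _) (fun t => t.2) {t | t.1 ∈ a.1}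
        ((a.1.sigma fun p => Finset.univ).finite_toSet.subset fun t ht => by simpa using ht)
        (fun j => j.1.1) (fun j => bo _)
      have : ∀ j, ∃ B : β, B.1 ⊆ W' j ∧ ∀ x ∈ B.1, ∀ y ∈ B.1, dist x y ≤ 2 * (1 / 2) ^ a.2 :=
        fun j => by
          obtain ⟨z, hz⟩ := (w1 j).2.1
          obtain ⟨B, b1, -, b3⟩ := (isBasis_countableBasis X).exists_subset_of_mem_open
            (mem_inter hz (Metric.mem_ball_self (by positivity : (0 : ℝ) < (1 / 2) ^ a.2)))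
            ((w1 j).1.inter Metric.isOpen_ball)
          refine ⟨⟨B, b1⟩, b3.trans inter_subset_left, fun x hx y hy => ?_⟩
          linarith [dist_triangle_right x y z, Metric.mem_ball.1 (b3 hx).2,
            Metric.mem_ball.1 (b3 hy).2]
      choose B b1 b2 using this
      have b3 : ∀ W ∈ T1, ∃ W' ∈ Finset.univ.image B, W'.1 ⊆ W.1 := fun W hW =>
        ⟨B ⟨W, hW⟩, Finset.mem_image_of_mem _ (Finset.mem_univ _), (b1 _).trans (w1 _).2.2⟩
      refine ⟨Finset.univ.image B, ⟨⟨fun p hp W hi hW y hy => ?_, fun W hW => ?_⟩, fun B' h => ?_⟩,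
        fun W hW => b3 W (Finset.mem_union_left _ hW)⟩
      · choose φ _ hφ using fun k => Finset.mem_image.1 (hW k)
        exact w2 ⟨p, φ⟩ hp (fun k k' e => hi (by rw [← hφ, ← hφ]; exact congrArg B e)) y
          fun k => b1 _ (hφ k ▸ hy k)
      · obtain ⟨j, -, rfl⟩ := Finset.mem_image.1 hW
        exact b2 j
      · exact b3 B' (Finset.mem_union_right _ (by simpa using h)))
  let F : Filter ℕ := atTop ⊓ ⨅ a, 𝓟 {t | good a (c t)}
  have hF : F.NeBot := by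
    have : (⨅ a, atTop ⊓ 𝓟 {t | good a (c t)} : Filter ℕ).NeBot := by
      refine iInf_neBot_of_directed (fun a b => ⟨(a.1 ∪ b.1, max a.2 b.2), ?_, ?_⟩) fun a => ?_
      · exact inf_le_inf_left _ (principal_mono.2 fun t ht => ⟨fun p hp =>
          ht.1 p (Finset.mem_union_left _ hp), fun W hW x hx y hy => (ht.2 W hW x hx y hy).trans
            (mul_le_mul_of_nonneg_left (pow_le_pow_of_le_one (by norm_num) (by norm_num)
              (le_max_left _ _)) zero_le_two)⟩)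
      · exact inf_le_inf_left _ (principal_mono.2 fun t ht => ⟨fun p hp =>
          ht.1 p (Finset.mem_union_right _ hp), fun W hW x hx y hy => (ht.2 W hW x hx y hy).trans
            (mul_le_mul_of_nonneg_left (pow_le_pow_of_le_one (by norm_num) (by norm_num)
              (le_max_right _ _)) zero_le_two)⟩)
      · refine frequently_iff_neBot.1 (frequently_atTop.2 fun m => ?_)
        obtain ⟨k, k1, k2⟩ := c2 (a, none) m
        exact ⟨k, k1, k2.1⟩
    exact this.mono (le_inf ((iInf_le _ (∅, 0)).trans inf_le_left)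
      (le_iInf fun a => (iInf_le _ a).trans inf_le_right))
  obtain ⟨𝒰, hU⟩ := Ultrafilter.exists_le F
  refine ⟨{x | {t | ∃ W ∈ Subtype.val '' (c t : Set β), x ∈ W} ∈ 𝒰},
    dodge (fun t => Subtype.val '' (c t : Set β)) ?_ ?_ ?_ 𝒰 (hU.trans inf_le_left), ?_⟩
  · rintro t _ ⟨W, -, rfl⟩
    exact bo W
  · rintro t _ ⟨W, hW, rfl⟩
    obtain ⟨W', a, b⟩ := c1 t W hW
    exact ⟨_, ⟨W', a, rfl⟩, b⟩
  · rintro O o1 ⟨z, hz⟩ m
    obtain ⟨B, b1, -, b3⟩ := (isBasis_countableBasis X).exists_subset_of_mem_open hz o1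
    obtain ⟨k, k1, k2⟩ := c2 ((∅, 0), some ⟨B, b1⟩) m
    obtain ⟨W, w1, w2⟩ := k2.2 _ rfl
    exact ⟨k, k1, _, ⟨W, w1, rfl⟩, w2.trans b3⟩
  · intro i x hi hx hxR
    obtain ⟨j, hj⟩ := mem_iUnion.1 (N2 i hxR)
    have : ∀ᶠ m : ℕ in atTop, ∀ k k', k ≠ k' → 2 * (1 / 2 : ℝ) ^ m < dist (x k) (x k') := by
      refine eventually_all.2 fun k => eventually_all.2 fun k' => ?_
      by_cases h : k = k'
      · exact Eventually.of_forall fun _ h' => absurd h h'
      · have t : Tendsto (fun m : ℕ => 2 * (1 / 2 : ℝ) ^ m) atTop (𝓝 0) := by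
          simpa using (tendsto_pow_atTop_nhds_zero_of_lt_one (r := (1 / 2 : ℝ)) (by norm_num)
            (by norm_num)).const_mul 2
        exact (t.eventually (gt_mem_nhds (dist_pos.2 (hi.ne h)))).mono fun _ h _ => h
    obtain ⟨m, hm⟩ := this.exists
    have e1 : ∀ᶠ t in (𝒰 : Filter ℕ), good ({(i, j)}, m) (c t) :=
      le_principal_iff.1 (hU.trans (inf_le_right.trans (iInf_le _ _)))
    have e2 : ∀ᶠ t in (𝒰 : Filter ℕ), ∀ k, ∃ W ∈ Subtype.val '' (c t : Set β), x k ∈ W :=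
      eventually_all.2 hx
    obtain ⟨t, t1, t2⟩ := (e1.and e2).exists
    have t3 : ∀ k, ∃ W ∈ c t, x k ∈ W.1 := fun k => by
      obtain ⟨_, ⟨W, a, rfl⟩, b⟩ := t2 k
      exact ⟨W, a, b⟩
    choose W w1 w2 using t3
    refine t1.1 (i, j) (Finset.mem_singleton_self _) W (fun k k' e => ?_) w1 x w2 hj
    by_contra h
    exact absurd (t1.2 _ (w1 k) _ (w2 k) _ (e ▸ w2 k')) (not_le.2 (hm k k' h))

end Pool.Agent.H8.Free
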