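import Mathlib
import Pool.Agent.H8.Rec

set_option autoImplicit false

namespace Pool.Agent.H8.SG

open Set Filter Topology Function MeasureTheory
open scoped Cardinal ENNReal

lemma fusion {X I : Type} [MeasurableSpace X] {μ : Measure X} [Countable I] [Nonempty I]
    (𝓛 : Set (Set X)) (Q : I → Set X → Prop)
    (step : ∀ r, ∀ L ∈ 𝓛, ∀ δ ≠ 0, ∃ L' ∈ 𝓛, L' ⊆ L ∧ μ (L \ L') ≤ δ ∧
      ∃ η ≠ 0, ∀ K ⊆ L', μ (L' \ K) ≤ η → Q r K) {L₀ : Set X} (h0 : L₀ ∈ 𝓛) {ε : ℝ≥0∞}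
    (hε : ε ≠ 0) : ∃ c ⊆ 𝓛, ⋂₀ c ⊆ L₀ ∧ μ (L₀ \ ⋂₀ c) ≤ ε ∧ ∀ r, Q r (⋂₀ c) := by
  choose! f f1 f2 f3 g g1 g2 using step
  obtain ⟨e, he⟩ := exists_surjective_nat I
  let s : ℕ → Set X × ℝ≥0∞ := fun j => Nat.rec (L₀, ε)
    (fun j p => (f (e j) p.1 (p.2 / 2), min (p.2 / 2) (g (e j) p.1 (p.2 / 2)))) j
  have hs : ∀ j, s (j + 1) = (f (e j) (s j).1 ((s j).2 / 2),
    min ((s j).2 / 2) (g (e j) (s j).1 ((s j).2 / 2))) := fun _ => rfl
  have inv : ∀ j, (s j).1 ∈ 𝓛 ∧ (s j).2 / 2 ≠ 0 := by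
    intro j
    induction j with
    | zero => exact ⟨h0, (ENNReal.half_pos hε).ne'⟩
    | succ j ih =>
      rw [hs]
      exact ⟨f1 _ _ ih.1 _ ih.2, (ENNReal.half_pos (lt_min ih.2.bot_lt
        (g1 _ _ ih.1 _ ih.2).bot_lt).ne').ne'⟩
  have anti : Antitone fun j => (s j).1 :=
    antitone_nat_of_succ_le fun j => f2 _ _ (inv j).1 _ (inv j).2
  have k1 : ∀ j i, μ ((s j).1 \ (s (j + i)).1) + (s (j + i)).2 ≤ (s j).2 := by
    intro j i
    induction i with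
    | zero => simp
    | succ i ih =>
      refine le_trans ?_ ih
      have h1 : μ ((s j).1 \ (s (j + i + 1)).1) ≤ μ ((s j).1 \ (s (j + i)).1) + (s (j + i)).2 / 2 :=
        (measure_mono fun x hx => by
          by_cases h : x ∈ (s (j + i)).1
          exacts [Or.inr ⟨h, hx.2⟩, Or.inl ⟨hx.1, h⟩]).trans ((measure_union_le _ _).trans
            (add_le_add_right (f3 _ _ (inv _).1 _ (inv _).2) _))
      have h2 : (s (j + i + 1)).2 ≤ (s (j + i)).2 / 2 := min_le_left _ _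
      calc _ ≤ μ ((s j).1 \ (s (j + i)).1) + (s (j + i)).2 / 2 + (s (j + i)).2 / 2 := add_le_add h1 h2
        _ = _ := by rw [add_assoc, ENNReal.add_halves]
  have k2 : ∀ j, μ ((s j).1 \ ⋂₀ range fun j => (s j).1) ≤ (s j).2 := fun j => by
    have : ((s j).1 \ ⋂₀ range fun j => (s j).1) ⊆ ⋃ i, (s j).1 \ (s (j + i)).1 := fun x hx => by
      obtain ⟨i, hi⟩ : ∃ i, x ∉ (s i).1 := by simpa using hx.2
      exact mem_iUnion.2 ⟨i, hx.1, fun h => hi (anti (Nat.le_add_left i j) h)⟩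
    refine (measure_mono this).trans ?_
    rw [Monotone.measure_iUnion fun a b h => diff_subset_diff_right (anti (by omega))]
    exact iSup_le fun i => le_self_add.trans (k1 j i)
  refine ⟨range fun j => (s j).1, range_subset_iff.2 fun j => (inv j).1,
    sInter_subset_of_mem ⟨0, rfl⟩, k2 0, fun r => ?_⟩
  obtain ⟨j, rfl⟩ := he r
  exact g2 _ _ (inv j).1 _ (inv j).2 _ (sInter_subset_of_mem ⟨j + 1, rfl⟩)
    ((k2 (j + 1)).trans (min_le_right _ _))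

lemma clop_ct : {V : Set (ℕ → Bool) | IsClopen V}.Countable := by
  haveI := TopologicalSpace.Clopens.countable_iff_secondCountable.2
    (inferInstance : SecondCountableTopology (ℕ → Bool))
  exact (countable_range fun V : TopologicalSpace.Clopens (ℕ → Bool) => (V : Set (ℕ → Bool))).mono
    fun V hV => mem_range.2 ⟨⟨V, hV⟩, rfl⟩

lemma card_meas : #{ν : Measure (ℕ → Bool) // IsFiniteMeasure ν} ≤ 𝔠 := by
  obtain ⟨e, he⟩ := clop_ct.exists_eq_range ⟨∅, isClopen_empty⟩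
  refine (Cardinal.mk_le_of_injective (f := fun ν n => (ν.1 (e n)).toReal) fun a b h => ?_).trans
    (card_seq ℝ Cardinal.mk_real.le)
  haveI := a.2
  haveI := b.2
  have k : ∀ s ∈ {V : Set (ℕ → Bool) | IsClopen V}, a.1 s = b.1 s := by
    rw [he]
    rintro _ ⟨n, rfl⟩
    exact (ENNReal.toReal_eq_toReal_iff' (measure_ne_top _ _) (measure_ne_top _ _)).1 (congrFun h n)
  exact Subtype.ext (ext_of_generate_finite _
    (BorelSpace.measurable_eq.trans isTopologicalBasis_isClopen.borel_eq_generateFrom)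
    (fun s hs t ht _ => IsClopen.inter hs ht) k (k _ isClopen_univ))

def Gm (μ : Measure (ℕ → Bool)) (K O : Set (ℕ → Bool)) : Prop :=
  ∀ V, IsClopen V → μ (V ∩ K) ≠ 0 → μ (O ∩ (V ∩ K)) ≠ 0

lemma supp_pt {μ : Measure (ℕ → Bool)} {A : Set (ℕ → Bool)} (h : μ A ≠ 0) :
    ∃ x, ∀ U, IsOpen U → x ∈ U → μ (U ∩ A) ≠ 0 := by
  obtain ⟨x, hx⟩ := Measure.nonempty_support (μ := μ.restrict A) (by simpa using h)
  refine ⟨x, fun U h1 h2 => ?_⟩
  rw [← Measure.restrict_apply h1.measurableSet]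
  exact ((Measure.mem_support_iff_forall x).1 hx U (h1.mem_nhds h2)).ne'

lemma gm_pt {μ : Measure (ℕ → Bool)} {K : Set (ℕ → Bool)} (hK : IsClosed K) (h0 : μ K ≠ 0)
    {𝒪 : Set (Set (ℕ → Bool))} (hc : 𝒪.Countable) (ho : ∀ O ∈ 𝒪, IsOpen O ∧ Gm μ K O) :
    ∃ x ∈ K, ∀ O ∈ 𝒪, x ∈ O := by
  haveI : CompactSpace (μ.restrict K).support :=
    isCompact_iff_compactSpace.1 Measure.isClosed_support.isCompact
  haveI := (Measure.nonempty_support (μ := μ.restrict K) (by simpa using h0)).to_subtype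
  obtain ⟨x, hx⟩ := (dense_biInter_of_isOpen (X := (μ.restrict K).support)
    (f := fun O => Subtype.val ⁻¹' O) (fun O hO => (ho O hO).1.preimage continuous_subtype_val) hc
    fun O hO => by
      refine dense_iff_inter_open.2 ?_
      rintro _ ⟨U, hU, rfl⟩ ⟨y, hy⟩
      obtain ⟨V, h1, h2, h3⟩ := isTopologicalBasis_isClopen.exists_subset_of_mem_open
        (show y.1 ∈ U from hy) hU
      have h4 := (Measure.mem_support_iff_forall _).1 y.2 V (h1.2.mem_nhds h2)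
      rw [Measure.restrict_apply h1.2.measurableSet] at h4
      have h5 := (ho O hO).2 V h1 h4.ne'
      rw [← inter_assoc, ← Measure.restrict_apply ((ho O hO).1.inter h1.2).measurableSet] at h5
      obtain ⟨z, h6, h7⟩ := Measure.nonempty_inter_support_of_pos h5.bot_lt
      exact ⟨⟨z, h7⟩, h3 h6.2, h6.1⟩).nonempty
  exact ⟨x, Measure.support_subset_of_isClosed hK (ae_restrict_mem hK.measurableSet) x.2,
    fun O hO => mem_iInter₂.1 hx O hO⟩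

inductive Am | k (K : Set (ℕ → Bool)) | o (O : Set (ℕ → Bool)) | c (C : ℕ → Set (ℕ → Bool))
  | p (x : ℕ → Bool)

structure Gs (μ : Measure (ℕ → Bool)) (S : Set Am) : Prop where
  k : ∀ K, .k K ∈ S → IsClosed K
  o : ∀ O, .o O ∈ S → IsOpen O
  ko : ∀ K O, .k K ∈ S → .o O ∈ S → Gm μ K O
  kc : ∀ K C, .k K ∈ S → .c C ∈ S → ∀ ε ≠ 0, ∃ K', .k K' ∈ S ∧ K' ⊆ K ∧ μ (K \ K') ≤ ε ∧
    ∃ n, K' ⊆ C n
  po : ∀ x O, .p x ∈ S → .o O ∈ S → x ∈ O
  pc : ∀ x C, .p x ∈ S → .c C ∈ S → ∃ n, x ∈ C n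

variable {μ : Measure (ℕ → Bool)} [IsFiniteMeasure μ] [NullSingletonClass μ]

lemma Gs.fus {S : Set Am} (h : Gs μ S) (hc : S.Countable) {𝒟 : Set (Set (ℕ → Bool))}
    (hD : 𝒟.Countable) (hn : ∀ D ∈ 𝒟, D.Nonempty) {K : Set (ℕ → Bool)} (hK : .k K ∈ S)
    {ε : ℝ≥0∞} (hε : ε ≠ 0) : ∃ K' ⊆ K, IsClosed K' ∧ μ (K \ K') ≤ ε ∧
      (∀ O, .o O ∈ S → Gm μ K' O) ∧ (∀ C, .c C ∈ S → ∃ n, K' ⊆ C n) ∧ ∀ D ∈ 𝒟, ¬ D ⊆ K' := by
  haveI := (hc.preimage (f := Am.o) fun _ _ => Am.o.inj).to_subtype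
  haveI := (hc.preimage (f := Am.c) fun _ _ => Am.c.inj).to_subtype
  haveI := hD.to_subtype
  haveI := clop_ct.to_subtype
  obtain ⟨c, c1, c2, c3, c4⟩ := fusion (μ := μ)
    (I := Option (({V : Set (ℕ → Bool) | IsClopen V} × (Am.o ⁻¹' S)) ⊕ (Am.c ⁻¹' S) ⊕ 𝒟))
    {L | ∃ K W, .k K ∈ S ∧ IsClopen W ∧ L = W ∩ K}
    (fun r K => match r with
      | none => True
      | some (.inl (V, O)) => μ (V.1 ∩ K) ≠ 0 → μ (O.1 ∩ (V.1 ∩ K)) ≠ 0
      | some (.inr (.inl C)) => ∃ n, K ⊆ C.1 n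
      | some (.inr (.inr D)) => ¬ D.1 ⊆ K)
    (by
      rintro (_ | ⟨V, O⟩ | C | D) _ ⟨K, W, h1, h2, rfl⟩ δ hδ
      · exact ⟨_, ⟨K, W, h1, h2, rfl⟩, Subset.rfl, by simp, 1, by simp, fun _ _ _ => trivial⟩
      · refine ⟨_, ⟨K, W, h1, h2, rfl⟩, Subset.rfl, by simp, ?_⟩
        by_cases h3 : μ (V.1 ∩ W ∩ K) = 0
        · exact ⟨1, by simp, fun L h4 _ h5 => absurd (measure_mono_null (s := V.1 ∩ L)
            (fun x hx => mem_inter (mem_inter hx.1 (h4 hx.2).1) (h4 hx.2).2) h3) h5⟩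
        · have h4 := h.ko K O h1 O.2 _ (IsClopen.inter V.2 h2) h3
          refine ⟨_, (ENNReal.half_pos h4).ne', fun L h5 h6 _ h7 => ?_⟩
          refine not_le.2 (ENNReal.half_lt_self h4 (measure_ne_top _ _)) (le_trans ?_ h6)
          refine (measure_mono fun x hx => ?_).trans
            ((measure_union_le (O.1 ∩ (V.1 ∩ L)) ((W ∩ K) \ L)).trans_eq (by rw [h7, zero_add]))
          by_cases h8 : x ∈ L
          exacts [Or.inl ⟨hx.1, hx.2.1.1, h8⟩, Or.inr ⟨⟨hx.2.1.2, hx.2.2⟩, h8⟩]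
      · obtain ⟨K', h3, h4, h5, n, h6⟩ := h.kc K C h1 C.2 δ hδ
        exact ⟨_, ⟨K', W, h3, h2, rfl⟩, inter_subset_inter_right _ h4,
          le_trans (measure_mono fun x hx => mem_diff_of_mem hx.1.2 fun h => hx.2 ⟨hx.1.1, h⟩) h5, 1, by simp,
          fun L h7 _ => ⟨n, h7.trans (inter_subset_right.trans h6)⟩⟩
      · obtain ⟨p, hp⟩ := hn _ D.2
        obtain ⟨U, h3, h4, h5⟩ := exists_isOpen_lt_of_lt (μ := μ) {p} δ (by simpa using hδ.bot_lt)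
        obtain ⟨V, h6, h7, h8⟩ := isTopologicalBasis_isClopen.exists_subset_of_mem_open (h3 rfl) h4
        refine ⟨_, ⟨K, W ∩ Vᶜ, h1, h2.inter h6.compl, rfl⟩, fun x hx => ⟨hx.1.1, hx.2⟩,
          (measure_mono fun x hx => h8 ?_).trans h5.le, 1, by simp,
          fun L h9 _ h10 => (h9 (h10 hp)).1.2 h7⟩
        by_contra h9
        exact hx.2 ⟨⟨hx.1.1, h9⟩, hx.1.2⟩)
    (L₀ := K) ⟨K, univ, hK, isClopen_univ, (univ_inter _).symm⟩ hε
  refine ⟨_, c2, isClosed_sInter fun L hL => ?_, c3, fun O hO V hV => c4 (some (.inl (⟨V, hV⟩, ⟨O, hO⟩))),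
    fun C hC => c4 (some (.inr (.inl ⟨C, hC⟩))), fun D hD => c4 (some (.inr (.inr ⟨D, hD⟩)))⟩
  obtain ⟨K, W, h1, h2, rfl⟩ := c1 hL
  exact h2.1.inter (h.k K h1)

lemma Gs.addP {S : Set Am} (h : Gs μ S) (hc : S.Countable) (h0 : μ univ ≠ 0) (hu : .k univ ∈ S)
    {E : ℕ → Set (ℕ → Bool)} (hE : ∀ n, IsClosed (E n) ∧ μ (E n) = 0) :
    ∃ x, Gs μ (insert (.p x) S) ∧ ∀ n, x ∉ E n := by
  obtain ⟨K, -, h1, h2, h3, h4, -⟩ := h.fus hc countable_empty (by simp) hu (ENNReal.half_pos h0).ne'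
  obtain ⟨x, h5, h6⟩ := gm_pt (μ := μ) h1 (fun h5 => not_le.2
      (ENNReal.half_lt_self h0 (measure_ne_top _ _)) (by rwa [measure_diff_null h5] at h2))
    ((hc.preimage (f := Am.o) fun _ _ => Am.o.inj).union (countable_range fun n => (E n)ᶜ)) (by
      rintro O (hO | ⟨n, rfl⟩)
      · exact ⟨h.o O hO, h3 O hO⟩
      · exact ⟨(hE n).1.isOpen_compl, fun V _ h => by
          rwa [inter_comm, ← diff_eq, measure_diff_null (hE n).2]⟩)
  refine ⟨x, ⟨by simpa using h.k, by simpa using h.o, by simpa using h.ko, by simpa using h.kc,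
    ?_, ?_⟩, fun n => h6 _ (Or.inr ⟨n, rfl⟩)⟩
  · simp only [mem_insert_iff, Am.p.injEq, reduceCtorEq, false_or]
    rintro y O (rfl | hy) hO
    exacts [h6 O (Or.inl hO), h.po y O hy hO]
  · simp only [mem_insert_iff, Am.p.injEq, reduceCtorEq, false_or]
    rintro y C (rfl | hy) hC
    exacts [(h4 C hC).imp fun n hn => hn h5, h.pc y C hy hC]

omit [IsFiniteMeasure μ] [NullSingletonClass μ] in
lemma Gs.addO {S : Set Am} (h : Gs μ S) (hc : S.Countable) (ν : Measure (ℕ → Bool))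
    [IsFiniteMeasure ν] [NullSingletonClass ν] {ε : ℝ≥0∞} (hε : ε ≠ 0) :
    ∃ O, Gs μ (insert (.o O) S) ∧ ν O < ε := by
  choose! f hf using fun A (hA : μ A ≠ 0) => supp_pt hA
  obtain ⟨O, h1, h2, h3⟩ := exists_isOpen_lt_of_lt (μ := ν) _ ε
    (((((clop_ct.image2 (hc.preimage (f := Am.k) fun _ _ => Am.k.inj) (· ∩ ·)).image f).union
      (hc.preimage (f := Am.p) fun _ _ => Am.p.inj)).measure_zero ν).trans_lt hε.bot_lt)
  refine ⟨O, ⟨by simpa using h.k, ?_, ?_, by simpa using h.kc, ?_, by simpa using h.pc⟩, h3⟩ <;>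
    simp only [mem_insert_iff, Am.o.injEq, reduceCtorEq, false_or]
  · rintro O (rfl | hO)
    exacts [h2, h.o O hO]
  · rintro K O hK (rfl | hO)
    exacts [fun V hV h4 => hf _ h4 _ h2 (h1 (Or.inl ⟨_, ⟨V, hV, K, hK, rfl⟩, rfl⟩)), h.ko K O hK hO]
  · rintro y O hy (rfl | hO)
    exacts [h1 (Or.inr hy), h.po y O hy hO]

lemma Gs.addC {S : Set Am} (h : Gs μ S) (hc : S.Countable) {𝒟 : Set (Set (ℕ → Bool))}
    (hD : 𝒟.Countable) (hn : ∀ D ∈ 𝒟, D.Nontrivial) : ∃ S', S ⊆ S' ∧ S'.Countable ∧ Gs μ S' ∧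
      ∃ C, .c C ∈ S' ∧ ∀ n, IsClosed (C n) ∧ ∀ D ∈ 𝒟, ¬ D ⊆ C n := by
  choose! f f1 f2 f3 f4 f5 f6 using fun K (j : ℕ) (hK : .k K ∈ S) => h.fus hc hD
    (fun D hD => (hn D hD).nonempty) hK (ε := (j : ℝ≥0∞)⁻¹) (by simp)
  have c1 := (hc.preimage (f := Am.k) fun _ _ => Am.k.inj).image2 countable_univ f
  obtain ⟨C, hC⟩ := ((c1.union ((hc.preimage (f := Am.p) fun _ _ => Am.p.inj).image
    singleton)).insert ∅).exists_eq_range (insert_nonempty _ _)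
  have e : ∀ K, K ∈ image2 f (Am.k ⁻¹' S) univ → ∃ n, K ⊆ C n := fun K hK => by
    obtain ⟨n, rfl⟩ : K ∈ range C := hC ▸ Or.inr (Or.inl hK)
    exact ⟨n, Subset.rfl⟩
  refine ⟨insert (.c C) (S ∪ Am.k '' image2 f (Am.k ⁻¹' S) univ),
    subset_union_left.trans (subset_insert _ _), (hc.union (c1.image _)).insert _,
    ⟨?_, by simpa using h.o, ?_, ?_, by simpa using h.po, ?_⟩, C, mem_insert _ _, fun n => ?_⟩
  rotate_right
  · obtain h1 | ⟨K, h1, j, -, h2⟩ | ⟨x, -, h2⟩ : C n ∈ insert ∅ (image2 f (Am.k ⁻¹' S) univ ∪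
      singleton '' (Am.p ⁻¹' S)) := hC ▸ mem_range_self n
    · rw [h1]
      exact ⟨isClosed_empty, fun D hD h => (hn D hD).nonempty.ne_empty (subset_empty_iff.1 h)⟩
    · exact h2 ▸ ⟨f2 K j h1, f6 K j h1⟩
    · exact h2 ▸ ⟨isClosed_singleton, fun D hD => (hn D hD).not_subset_singleton⟩
  all_goals simp only [mem_insert_iff, mem_union, mem_image, Am.k.injEq, Am.c.injEq, reduceCtorEq,
    false_or, exists_eq_right, and_false, exists_false, or_false]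
  · rintro _ (hK | ⟨K, hK, j, -, rfl⟩)
    exacts [h.k _ hK, f2 K j hK]
  · rintro _ O (hK | ⟨K, hK, j, -, rfl⟩) hO
    exacts [h.ko _ _ hK hO, f4 K j hK O hO]
  · rintro K C' (hK | hK) (rfl | hC') ε hε
    · obtain ⟨j, hj⟩ := ENNReal.exists_inv_nat_lt hε
      exact ⟨f K j, Or.inr ⟨K, hK, j, trivial, rfl⟩, f1 K j hK, (f3 K j hK).trans hj.le,
        e _ ⟨K, hK, j, trivial, rfl⟩⟩
    · obtain ⟨K', h1, h2⟩ := h.kc K C' hK hC' ε hε
      exact ⟨K', Or.inl h1, h2⟩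
    · exact ⟨K, Or.inr hK, Subset.rfl, by simp, e _ hK⟩
    · obtain ⟨K', h1, j, -, rfl⟩ := hK
      exact ⟨_, Or.inr ⟨K', h1, j, trivial, rfl⟩, Subset.rfl, by simp, f5 K' j h1 C' hC'⟩
  · rintro y C' hy (rfl | hC')
    · obtain ⟨n, hn⟩ : {y} ∈ range C' := hC ▸ Or.inr (Or.inr ⟨y, hy, rfl⟩)
      exact ⟨n, hn ▸ rfl⟩
    · exact h.pc y C' hy hC'

end Pool.Agent.H8.SG
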