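import Mathlib
import Pool.Agent.H8.Card3

namespace Pool.Agent.H8.GG

open Set Filter Pool.Agent.H8.Card
open scoped Cardinal

variable {Z : Type} [TopologicalSpace Z]

/-- `C` is an open γ-cover of `X`, given by open subsets of the ambient space -/
def Gam (X : Set Z) (C : Set (Set Z)) : Prop :=
  (∀ V ∈ C, IsOpen V) ∧ C.Infinite ∧ (∀ V ∈ C, ¬ X ⊆ V) ∧ ∀ x ∈ X, {V | V ∈ C ∧ x ∉ V}.Finite

/-- S₁(Γ, Γ) -/
def S1 (X : Set Z) : Prop :=
  ∀ 𝒰 : ℕ → Set (Set Z), (∀ n, Gam X (𝒰 n)) →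
    ∃ U : ℕ → Set Z, (∀ n, U n ∈ 𝒰 n) ∧ Gam X (range U)

theorem gam_range {X : Set Z} {U : ℕ → Set Z} (h1 : ∀ n, IsOpen (U n)) (h2 : ∀ n, ¬ X ⊆ U n)
    (h3 : ∀ x ∈ X, ∀ᶠ n in atTop, x ∈ U n) : Gam X (range U) := by
  refine ⟨by rintro _ ⟨n, rfl⟩; exact h1 n, fun hf => ?_, by rintro _ ⟨n, rfl⟩; exact h2 n,
    fun x hx => ?_⟩
  · obtain ⟨W, hW⟩ := @Finite.exists_infinite_fiber _ _ _ hf.to_subtype (rangeFactorization U)
    obtain ⟨n, hn⟩ := W.2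
    refine h2 n fun x hx => ?_
    obtain ⟨N, hN⟩ := eventually_atTop.1 (h3 x hx)
    obtain ⟨m, hm, h⟩ := (infinite_coe_iff.1 hW).exists_gt N
    have : U m = U n := (congrArg Subtype.val hm).trans hn.symm
    exact this ▸ hN m h.le
  · obtain ⟨N, hN⟩ := eventually_atTop.1 (h3 x hx)
    refine ((finite_Iio N).image U).subset ?_
    rintro _ ⟨⟨n, rfl⟩, h⟩
    exact ⟨n, not_le.1 fun h' => h (hN n h'), rfl⟩

theorem sel {X : Set Z} (hX : S1 X) (V : ℕ → ℕ → Set Z) (ho : ∀ n j, IsOpen (V n j))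
    (hV : ∀ n, ∀ x ∈ X, ∀ᶠ j in atTop, x ∈ V n j) :
    ∃ j : ℕ → ℕ, (∀ n, n ≤ j n) ∧ ∀ x ∈ X, ∀ᶠ n in atTop, x ∈ V n (j n) := by
  classical
  let E : ℕ → Set Z := fun k => V k.unpair.1 k.unpair.2
  let H : ℕ → Prop := fun n => ∃ N, ∀ j ≥ N, ¬ X ⊆ V n j
  have easy : ∀ n, ¬ H n → ∃ j ≥ n, X ⊆ V n j := by
    intro n h
    by_contra hc
    push Not at hc
    exact h ⟨n, hc⟩
  have hard : ∀ n k, H n → ∃ C, Gam X C ∧ ∀ W ∈ C, (∃ j ≥ k, V n j = W) ∧ W ∉ E '' Iic k := by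
    rintro n k ⟨N, hN⟩
    have := gam_range (X := X) (U := fun j => V n (j + N + k)) (fun _ => ho _ _)
      (fun j => hN _ (by omega)) fun x hx => by
        obtain ⟨L, hL⟩ := eventually_atTop.1 (hV n x hx)
        filter_upwards [eventually_ge_atTop L] with j hj using hL _ (by omega)
    refine ⟨range (fun j => V n (j + N + k)) \ E '' Iic k, ⟨fun W h => this.1 W h.1,
      this.2.1.diff ((finite_Iic k).image E), fun W h => this.2.2.1 W h.1,
      fun x hx => (this.2.2.2 x hx).subset fun W h => ⟨h.1.1, h.2⟩⟩, ?_⟩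
    rintro _ ⟨⟨j, rfl⟩, h⟩
    exact ⟨⟨j + N + k, by omega, rfl⟩, h⟩
  by_cases h0 : ∃ n, H n
  · obtain ⟨n0, h0⟩ := h0
    have : ∀ n, ∃ C, Gam X C ∧ (H n → ∀ W ∈ C, (∃ j ≥ n, V n j = W) ∧ W ∉ E '' Iic n) := by
      intro n
      by_cases h : H n
      · obtain ⟨C, h1, h2⟩ := hard n n h
        exact ⟨C, h1, fun _ => h2⟩
      · obtain ⟨C, h1, -⟩ := hard n0 n h0
        exact ⟨C, h1, fun h' => absurd h' h⟩
    choose C hC1 hC2 using this
    obtain ⟨U, hU, hG⟩ := hX C hC1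
    have : ∀ n, ∃ j ≥ n, X ⊆ V n j ∨ (V n j = U n ∧ U n ∉ E '' Iic n) := by
      intro n
      by_cases h : H n
      · obtain ⟨⟨j, h1, h2⟩, h3⟩ := hC2 n h _ (hU n)
        exact ⟨j, h1, Or.inr ⟨h2, h3⟩⟩
      · obtain ⟨j, h1, h2⟩ := easy n h
        exact ⟨j, h1, Or.inl h2⟩
    choose j hj1 hj2 using this
    refine ⟨j, hj1, fun x hx => ?_⟩
    have hW : ∀ W ∈ {W | W ∈ range U ∧ x ∉ W}, ∀ᶠ n in atTop, W ∈ range E → W ∈ E '' Iic n := by
      intro W _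
      by_cases h : W ∈ range E
      · obtain ⟨k, rfl⟩ := h
        filter_upwards [eventually_ge_atTop k] with n hn _ using ⟨k, hn, rfl⟩
      · exact Eventually.of_forall fun _ h' => absurd h' h
    filter_upwards [(eventually_all_finite (hG.2.2.2 x hx)).2 hW] with n hn
    rcases hj2 n with h | ⟨h1, h2⟩
    · exact h hx
    · by_contra hc
      rw [h1] at hc
      exact h2 (hn _ ⟨⟨n, rfl⟩, hc⟩ ⟨Nat.pair n (j n), by simp [E, h1]⟩)
  · push Not at h0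
    choose j hj1 hj2 using fun n => easy n (h0 n)
    exact ⟨j, hj1, fun x hx => Eventually.of_forall fun n => hj2 n hx⟩

theorem union {ι : Type} (hb : #ι < bNum) (hg : #ι < max gNum gfNum) (X : ι → Set Z)
    (hX : ∀ a, S1 (X a)) : S1 (⋃ a, X a) := by
  intro 𝒰 h𝒰
  let e : ℕ → ℕ → Set Z := fun n m => ((h𝒰 n).2.1.natEmbedding _ m).1
  have he : ∀ n m, e n m ∈ 𝒰 n := fun n m => ((h𝒰 n).2.1.natEmbedding _ m).2
  have hi : ∀ n, Function.Injective (e n) := fun n =>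
    Subtype.val_injective.comp ((h𝒰 n).2.1.natEmbedding _).injective
  have hev : ∀ n, ∀ x ∈ ⋃ a, X a, ∀ᶠ m in atTop, x ∈ e n m := by
    intro n x hx
    rw [← Nat.cofinite_eq_atTop, eventually_cofinite]
    exact (((h𝒰 n).2.2.2 x hx).preimage (hi n).injOn).subset fun m hm => ⟨he n m, hm⟩
  obtain ⟨m, hm⟩ := core hb hg (fun a => {y | ∃ x ∈ X a, y = fun n m => x ∈ e n m}) (by
    intro a p hp
    obtain ⟨j, h1, h2⟩ := sel (hX a)
      (fun n j => ⋂ n' ∈ Iic n, ⋂ m ∈ Ico (p j) (p (j + 1)), e n' m)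
      (fun n j => (finite_Iic n).isOpen_biInter fun n' _ => (finite_Ico _ _).isOpen_biInter
        fun m _ => (h𝒰 n').1 _ (he n' m)) (by
        intro n x hx
        obtain ⟨N, hN⟩ := eventually_atTop.1 ((eventually_all_finite (finite_Iic n)).2
          fun n' _ => hev n' x (mem_iUnion_of_mem a hx))
        filter_upwards [eventually_ge_atTop N] with j hj
        exact mem_iInter₂.2 fun n' hn' => mem_iInter₂.2 fun m hm =>
          hN m (hj.trans ((hp.id_le j).trans hm.1)) n' hn')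
    refine ⟨j, h1, ?_⟩
    rintro _ ⟨x, hx, rfl⟩
    filter_upwards [h2 x hx] with n hn n' hn' m hm
    exact mem_iInter₂.1 (mem_iInter₂.1 hn n' hn') m hm)
  refine ⟨fun n => e n (m n), fun n => he _ _, gam_range (fun n => (h𝒰 n).1 _ (he _ _))
    (fun n => (h𝒰 n).2.2.1 _ (he _ _)) fun x hx => ?_⟩
  obtain ⟨a, ha⟩ := mem_iUnion.1 hx
  exact hm a _ ⟨x, ha, rfl⟩

end Pool.Agent.H8.GG
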