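import Pool.Agent.H25.Gab2

set_option autoImplicit false

namespace Pool.Agent.H8.GabR

open Pool.Agent.H25.Gab

theorem riesz_rep {ι H I : Type} [DecidableEq ι] [NormedAddCommGroup H] [InnerProductSpace ℂ H]
    [Add I] [One I] (hI : Function.Injective fun k : I => k + 1) (f : ι → H)
    (hR : IsRieszBasis f) (σ : I ≃ ι) : HasBoundedRep fun k => f (σ k) := by
  obtain ⟨K, _, _, e, U, hU⟩ := hR
  obtain ⟨V, hV⟩ := exists_iso (fun i => σ (σ.symm i + 1))
    (σ.injective.comp (hI.comp σ.symm.injective)) (fun _ => 1) (fun _ => norm_one)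
  let T : H →L[ℂ] H := (U : K →L[ℂ] H) ∘L (e.repr.symm.toContinuousLinearEquiv : L2 ι →L[ℂ] K) ∘L
    V.toContinuousLinearMap ∘L (e.repr.toContinuousLinearEquiv : K →L[ℂ] L2 ι) ∘L
      (U.symm : H →L[ℂ] K)
  refine ⟨T.toLinearMap, fun k => ?_, ‖T‖, fun x _ => T.le_opNorm x⟩
  have h1 : ∀ i, e.repr (e i) = dl i := fun i => e.repr_self i
  have h2 : ∀ i, e.repr.symm (dl i) = e i := fun i => by rw [← h1, LinearIsometryEquiv.symm_apply_apply]
  show U (e.repr.symm (V (e.repr (U.symm (f (σ k)))))) = f (σ (k + 1))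
  rw [← hU, ContinuousLinearEquiv.symm_apply_apply, h1, hV, one_smul, h2, hU, Equiv.symm_apply_apply]

end Pool.Agent.H8.GabR
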