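import Mathlib
import Pool.Agent.H8.Sier3

set_option autoImplicit false

namespace Pool.Agent.H8.Grz

open Set Filter Topology Function MeasureTheory Pool.Agent.H8.Tau
open scoped Cardinal ENNReal

/-- Fubini property for traces on arbitrary sets -/
def Fub {Y Z : Type} [MeasurableSpace Y] [MeasurableSpace Z] (F : Filter Y) (G : Filter Z) : Prop :=
  ∀ D : Set (Y × Z), MeasurableSet D → ∀ (S : Set Y) (T : Set Z),
    (∀ z ∈ T, ∀ᶠ y in F, y ∈ S → (y, z) ∉ D) → ∀ᶠ y in F, y ∈ S → ∀ᶠ z in G, z ∈ T → (y, z) ∉ D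

lemma ae_tr {Y : Type} [MeasurableSpace Y] (μ : Measure Y) [IsFiniteMeasure μ] (S : Set Y)
    {E : Set Y} (hE : MeasurableSet E) :
    (∀ᵐ y ∂μ, y ∈ S → y ∉ E) ↔ μ.restrict (toMeasurable μ S) E = 0 := by
  rw [Measure.restrict_apply hE, inter_comm, Measure.measure_toMeasurable_inter hE (measure_ne_top _ _),
    ae_iff]
  simp only [Classical.not_imp, not_not]
  rfl

lemma fub_ae {Y Z : Type} [MeasurableSpace Y] [MeasurableSpace Z] (μ : Measure Y) (ν : Measure Z)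
    [IsFiniteMeasure μ] [IsFiniteMeasure ν] : Fub (ae μ) (ae ν) := by
  intro D hD S T h
  have m1 : ∀ z, MeasurableSet ((fun y => (y, z)) ⁻¹' D) := fun z => measurable_prodMk_right hD
  have m2 : ∀ y, MeasurableSet (Prod.mk y ⁻¹' D) := fun y => measurable_prodMk_left hD
  have h1 := (ae_tr ν T (E := {z | μ.restrict (toMeasurable μ S) ((fun y => (y, z)) ⁻¹' D) = 0}ᶜ)
    (measurable_measure_prodMk_right hD (measurableSet_singleton 0)).compl).1
    (.of_forall fun z hz hc => hc ((ae_tr μ S (m1 z)).1 (h z hz)))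
  have h2 : ∀ᵐ z ∂ν.restrict (toMeasurable ν T), ∀ᵐ y ∂μ.restrict (toMeasurable μ S), (y, z) ∉ D := by
    filter_upwards [(show _ ∈ ae _ from h1)] with z hz using measure_eq_zero_iff_ae_notMem.1 hz
  rw [← Measure.ae_ae_comm (p := fun y z => (y, z) ∉ D) hD.compl] at h2
  have h3 := (ae_tr μ S (E := {y | ν.restrict (toMeasurable ν T) (Prod.mk y ⁻¹' D) = 0}ᶜ)
    (measurable_measure_prodMk_left hD (measurableSet_singleton 0)).compl).2
    (mem_ae_iff.1 (by filter_upwards [h2] with y hy using measure_eq_zero_iff_ae_notMem.2 hy))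
  filter_upwards [h3] with y hy hS using (ae_tr ν T (m2 y)).2 (not_not.1 (hy hS))

lemma ku {Y Z : Type} [TopologicalSpace Y] [TopologicalSpace Z] [SecondCountableTopology Z]
    {D : Set (Y × Z)} (h : D ∈ residual (Y × Z)) :
    ∀ᶠ y in residual Y, ∀ᶠ z in residual Z, (y, z) ∈ D := by
  obtain ⟨S, h1, h2, h3, h4⟩ := mem_residual_iff.1 h
  obtain ⟨b, hb, hn, hB⟩ := TopologicalSpace.exists_countable_basis Z
  have : ∀ t ∈ S, ∀ V ∈ b, ∀ᶠ y in residual Y, ∃ z ∈ V, (y, z) ∈ t := fun t ht V hV => by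
    have e : {y | ∃ z ∈ V, (y, z) ∈ t} = Prod.fst '' (t ∩ Prod.snd ⁻¹' V) := by
      ext y; simp only [mem_setOf_eq, mem_image, mem_inter_iff, mem_preimage, Prod.exists]
      exact ⟨fun ⟨z, a, b⟩ => ⟨y, z, ⟨b, a⟩, rfl⟩, fun ⟨_, z, ⟨a, b⟩, e⟩ => ⟨z, b, e ▸ a⟩⟩
    refine residual_of_dense_open (e ▸ isOpenMap_fst _ ((h1 t ht).inter
      ((hB.isOpen hV).preimage continuous_snd))) (dense_iff_inter_open.2 fun U hU ⟨y, hy⟩ => ?_)
    obtain ⟨z, hz⟩ := nonempty_iff_ne_empty.2 fun e : V = ∅ => hn (e ▸ hV)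
    obtain ⟨p, ⟨a1, a2⟩, a3⟩ := (h2 t ht).inter_open_nonempty _ (hU.prod (hB.isOpen hV)) ⟨(y, z), hy, hz⟩
    exact ⟨p.1, a1, p.2, a2, a3⟩
  filter_upwards [(eventually_countable_ball h3).2 fun t ht =>
    (eventually_countable_ball hb).2 (this t ht)] with y hy
  filter_upwards [(eventually_countable_ball h3).2 fun t ht => residual_of_dense_open
    (s := Prod.mk y ⁻¹' t) ((h1 t ht).preimage (by fun_prop))
    (hB.dense_iff.2 fun V hV _ => hy t ht V hV)] with z hz using h4 hz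

lemma fub_res (Y Z : Type) [TopologicalSpace Y] [TopologicalSpace Z] [SecondCountableTopology Y]
    [SecondCountableTopology Z] [MeasurableSpace Y] [BorelSpace Y] [MeasurableSpace Z]
    [BorelSpace Z] : Fub (residual Y) (residual Z) := by
  intro D hD S T h
  obtain ⟨O, hO, e⟩ := hD.residualEq_isOpen
  have e1 : {p | p ∈ D ↔ p ∈ O} ∈ residual _ := eventuallyEq_set.1 e
  have e2 := ku (tendsto_residual_of_isOpenMap continuous_swap
    (Homeomorph.prodComm Z Y).isOpenMap e1)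
  obtain ⟨b, hb, -, hB⟩ := TopologicalSpace.exists_countable_basis Y
  obtain ⟨c, hc, -, hC⟩ := TopologicalSpace.exists_countable_basis Z
  have k1 : ∀ᶠ y in residual Y, ∀ U ∈ b, (∀ᶠ y in residual Y, y ∈ S → y ∉ U) → y ∈ S → y ∉ U :=
    (eventually_countable_ball hb).2 fun U _ => eventually_imp_distrib_left.2 id
  have k2 : ∀ᶠ z in residual Z, ∀ V ∈ c, (∀ᶠ z in residual Z, z ∈ T → z ∉ V) → z ∈ T → z ∉ V :=
    (eventually_countable_ball hc).2 fun U _ => eventually_imp_distrib_left.2 id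
  filter_upwards [k1, ku e1] with y a1 a2 hy
  filter_upwards [k2, a2] with z a3 a4 hz hp
  obtain ⟨_, ⟨U, hU, V, hV, rfl⟩, a5, a6⟩ := (hB.prod hC).exists_subset_of_mem_open (a4.1 hp) hO
  refine a1 U hU (by_contra fun a7 => a3 V hV ?_ hz a5.2) hy a5.1
  filter_upwards [e2] with w a8 hw a9
  refine a7 ?_
  filter_upwards [a8, h w hw] with x b1 b2 hx b3 using b2 hx (b1.2 (a6 ⟨b3, a9⟩))

lemma univ_gd (Y : Type) [TopologicalSpace Y] [SecondCountableTopology Y] [MeasurableSpace Y]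
    [BorelSpace Y] : ∃ M : (ℕ → Bool) → Set Y, MeasurableSet {p : Y × (ℕ → Bool) | p.1 ∈ M p.2} ∧
      ∀ s, IsGδ s → ∃ c, M c = s := by
  classical
  obtain ⟨b, hb, -, hB⟩ := TopologicalSpace.exists_countable_basis Y
  obtain ⟨u, hu⟩ := (hb.insert ∅).exists_eq_range (insert_nonempty _ _)
  have ho : ∀ n, IsOpen (u n) := fun n => by
    rcases hu.ge (mem_range_self n) with h | h
    · exact h ▸ isOpen_empty
    · exact hB.isOpen h
  refine ⟨fun c => ⋂ k, ⋃ n, {y | c (Nat.pair k n) = true ∧ y ∈ u n}, ?_, fun s hs => ?_⟩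
  · simp only [mem_iInter, mem_iUnion, setOf_forall, setOf_exists, mem_setOf_eq, setOf_and]
    exact .iInter fun k => .iUnion fun n => .inter
      ((show Measurable fun x : Y × (ℕ → Bool) => x.2 (Nat.pair k n) by fun_prop)
        (measurableSet_singleton true))
      (measurable_fst (ho n).measurableSet)
  · obtain ⟨U, hU, rfl⟩ := isGδ_iff_eq_iInter_nat.1 hs
    refine ⟨fun m => decide (u m.unpair.2 ⊆ U m.unpair.1), iInter_congr fun k => ?_⟩
    ext y
    simp only [Nat.unpair_pair, decide_eq_true_eq, mem_iUnion, mem_setOf_eq]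
    refine ⟨fun ⟨n, h1, h2⟩ => h1 h2, fun h => ?_⟩
    obtain ⟨V, h1, h2, h3⟩ := hB.exists_subset_of_mem_open h (hU k)
    obtain ⟨n, rfl⟩ := hu.le (mem_insert_of_mem _ h1)
    exact ⟨n, h3, h2⟩

/-- the strict eventual domination of enumerations -/
def Rl (f g : ℕ → Bool) : Prop := ∀ᶠ m in atTop, ∃ k, cnt k g ≤ m ∧ m < cnt k f

lemma Rl_meas : MeasurableSet {p : (ℕ → Bool) × (ℕ → Bool) | Rl p.1 p.2} := by
  simp only [Rl, eventually_atTop, setOf_exists, setOf_forall, setOf_and]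
  refine .iUnion fun a => .iInter fun m => .iInter fun _ => .iUnion fun k => .inter ?_ ?_
  · exact ((cnt_cont k).comp continuous_snd).measurable (MeasurableSet.of_discrete (s := Iic m))
  · exact ((cnt_cont k).comp continuous_fst).measurable (MeasurableSet.of_discrete (s := Ioi m))

lemma Rl_asymm {f g : ℕ → Bool} (h : Rl f g) : ¬ Rl g f := fun h' => by
  obtain ⟨m, ⟨k, h1, h2⟩, l, h3, h4⟩ := (h.and h').exists
  rcases le_total k l with e | e
  · have := cnt_mono f e; simp only at this; omega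
  · have := cnt_mono g e; simp only at this; omega

theorem scale : ∃ (B : Set (ℕ → Bool)) (r : (ℕ → Bool) → (ℕ → Bool) → Prop), IsWellOrder _ r ∧
    (∀ f ∈ B, {i | f i = true}.Infinite) ∧ (∀ f ∈ B, ∀ g ∈ B, r f g → Rl f g) ∧
    ∀ C : ℕ → Set (ℕ → Bool), (∀ n, IsClosed (C n)) →
      (∀ n, ∀ f ∈ C n, {i | f i = true}.Infinite) → ∃ f ∈ B, ∀ n, f ∉ C n := by
  let r : (ℕ → Bool) → (ℕ → Bool) → Prop := WellOrderingRel
  have wf : WellFounded r := IsWellFounded.wf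
  let p : (ℕ → Bool) → Prop := wf.fix fun g ih =>
    {i | g i = true}.Infinite ∧ ∀ f (h : r f g), ih f h → Rl f g
  have hp : ∀ g, p g ↔ {i | g i = true}.Infinite ∧ ∀ f, r f g → p f → Rl f g := fun g =>
    iff_of_eq (wf.fix_eq _ g)
  refine ⟨{g | p g}, r, inferInstance, fun f hf => ((hp f).1 hf).1,
    fun f hf g hg h => ((hp g).1 hg).2 f h hf, fun C h1 h2 => by_contra fun hc => ?_⟩
  push Not at hc
  have : ∀ n m, ∃ k, ∀ f ∈ C n, m < cnt k f := fun n m => by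
    obtain ⟨k, hk⟩ := (h1 n).isCompact.elim_directed_cover (fun k => {f | m < cnt k f})
      (fun k => (isOpen_discrete (Ioi m)).preimage (cnt_cont k))
      (fun f hf => mem_iUnion.2 (cnt_inf (h2 n f hf) m))
      (Monotone.directed_le fun a b hab f hf => lt_of_lt_of_le hf (cnt_mono f hab))
    exact ⟨k, hk⟩
  choose k hk using this
  obtain ⟨q, -, -, hq, -⟩ := sparse fun m => (Finset.range (m + 1)).sup fun n => k n m
  have h3 : ∀ f, p f → Rl f (q 0) := fun f hf => by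
    obtain ⟨n, hn⟩ := hc f hf
    filter_upwards [eventually_ge_atTop n] with m hm
    exact ⟨_, (hq 0).2 m, (hk n m f hn).trans_le (cnt_mono f
      (Finset.le_sup (f := fun n => k n m) (Finset.mem_range.2 (by omega))))⟩
  have h4 := h3 _ ((hp _).2 ⟨(hq 0).1, fun f _ => h3 f⟩)
  exact Rl_asymm h4 h4

theorem plewik {Z : Type} [MeasurableSpace Z] {G : Filter Z} (hG : Fub G G)
    {π : Z → ℕ → Bool} (hπ : Measurable π) {B : Set (ℕ → Bool)}
    {r : (ℕ → Bool) → (ℕ → Bool) → Prop} (wo : IsWellOrder _ r)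
    (hB : ∀ f ∈ B, ∀ g ∈ B, r f g → Rl f g) {X : Set Z} (hX : ∀ x ∈ X, π x ∈ B)
    (hf : ∀ f, ∀ᶠ x in G, x ∈ X → π x ≠ f) : ∀ᶠ x in G, x ∉ X := by
  have core : ∀ T ⊆ X, (∀ y ∈ T, ∀ᶠ x in G, x ∈ X → ¬ r (π x) (π y)) → ∀ᶠ x in G, x ∉ T := by
    intro T hT h
    have h1 : ∀ x ∈ X, ∀ y ∈ X, Rl (π x) (π y) → r (π x) (π y) := fun x hx y hy h2 => by
      rcases trichotomous_of r (π x) (π y) with e | e | e
      · exact e
      · exact (Rl_asymm h2 (e ▸ h2)).elim
      · exact (Rl_asymm h2 (hB _ (hX y hy) _ (hX x hx) e)).elim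
    have h2 := hG {p | Rl (π p.1) (π p.2)} ((hπ.prodMap hπ) Rl_meas) T T fun y hy =>
      (h y hy).mono fun x h3 hx h4 => h3 (hT hx) (h1 x (hT hx) y (hT hy) h4)
    by_contra hc
    refine hc ?_
    filter_upwards [h2] with x h3 hx
    refine hc ?_
    filter_upwards [h3 hx, h x hx, hf (π x)] with y h4 h5 h6 hy
    rcases trichotomous_of r (π x) (π y) with e | e | e
    · exact h4 hy (hB _ (hX x (hT hx)) _ (hX y (hT hy)) e)
    · exact h6 (hT hy) e.symm
    · exact h5 (hT hy) e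
  have h1 : ∀ f, ∀ᶠ x in G, x ∈ X → ¬ r (π x) f := fun f => by
    induction f using wo.wf.induction with
    | _ f ih =>
      filter_upwards [core {x ∈ X | r (π x) f} (sep_subset _ _) fun y hy => ih _ hy.2] with x h2 h3 h4
      exact h2 ⟨h3, h4⟩
  exact core X le_rfl fun y _ => h1 _

theorem grz {Y Z : Type} [MeasurableSpace Y] [MeasurableSpace Z] {P : Filter Y} {G : Filter Z}
    (hG : Fub P G) {A : Set Y} (hA : ¬ ∀ᶠ y in P, y ∉ A) (M : (ℕ → Bool) → Set Y)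
    (hM : MeasurableSet {p : Y × (ℕ → Bool) | p.1 ∈ M p.2}) {r : A → A → Prop} [IsWellOrder _ r]
    {c : A → ℕ → Bool} (h1 : ∀ a, ∀ᶠ y in P, y ∉ M (c a)) (h2 : ∀ a b, r a b → a.1 ∈ M (c b))
    {x : A → Z} {δ : Z → ℕ → Bool} (hδ : Measurable δ) (h3 : ∀ a, δ (x a) = c a)
    (h4 : ∀ a, ∀ᶠ z in G, z ∉ x '' {b | r b a}) (h5 : ∀ w, ∀ᶠ z in G, z ≠ w) :
    ∀ᶠ z in G, z ∉ range x := by
  have h6 := hG {p | p.1 ∈ M (δ p.2)} ((measurable_id.prodMap hδ) hM) A (range x) (by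
    rintro _ ⟨a, rfl⟩
    filter_upwards [h1 a] with y hy _ h7 using hy (h3 a ▸ h7))
  by_contra hc
  refine hA ?_
  filter_upwards [h6] with y h7 hy
  refine hc ?_
  filter_upwards [h7 hy, h4 ⟨y, hy⟩, h5 (x ⟨y, hy⟩)] with z h8 h9 h10 hz
  obtain ⟨b, rfl⟩ := hz
  rcases trichotomous_of r ⟨y, hy⟩ b with e | e | e
  · exact h8 (mem_range_self b) (show y ∈ M (δ (x b)) from h3 b ▸ h2 _ _ e)
  · exact h10 (e ▸ rfl)
  · exact h9 (mem_image_of_mem x e)

/-- spreading the code `c` over the set `f` -/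
def spr (f c : ℕ → Bool) (m : ℕ) : Bool :=
  f m.unpair.2 && decide (m.unpair.1 ≤ m.unpair.2) && Nat.casesOn m.unpair.1 true c

lemma spr_cont (c : ℕ → Bool) : Continuous fun f => spr f c :=
  continuous_pi fun m => (continuous_of_discreteTopology (f := fun b : Bool =>
    b && decide (m.unpair.1 ≤ m.unpair.2) && Nat.casesOn m.unpair.1 true c)).comp (continuous_apply _)

lemma spr_fin {f : ℕ → Bool} (h : {i | f i = true}.Finite) (c : ℕ → Bool) :
    {i | spr f c i = true}.Finite := by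
  refine ((h.biUnion fun n _ => (finite_Iic n).image fun k => Nat.pair k n)).subset fun m hm => ?_
  simp only [spr, mem_setOf_eq, Bool.and_eq_true, decide_eq_true_eq] at hm
  exact mem_biUnion hm.1.1 ⟨_, hm.1.2, Nat.pair_unpair m⟩

theorem main {Y : Type} [TopologicalSpace Y] [MeasurableSpace Y] [BorelSpace Y] {P : Filter Y}
    {A : Set Y} (hA : ¬ ∀ᶠ y in P, y ∉ A) (M : (ℕ → Bool) → Set Y)
    (hM : MeasurableSet {p : Y × (ℕ → Bool) | p.1 ∈ M p.2})
    (hs : ∀ s : Set Y, #s < #A → ∃ c, s ⊆ M c ∧ ∀ᶠ y in P, y ∉ M c) :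
    ∃ X : Set ((ℕ → Bool) × Y),
      (∀ (Z : Type) [MeasurableSpace Z] (G : Filter Z) (φ : (ℕ → Bool) × Y ≃ᵐ Z), Fub P G → Fub G G →
        (∀ s : Set Z, #s < #A → ∀ᶠ z in G, z ∉ s) → (∀ w, ∀ᶠ z in G, z ≠ w) →
        ∀ᶠ z in G, z ∉ φ '' X) ∧
      ∀ a ∈ A, ∀ C : ℕ → Set ((ℕ → Bool) × Y), (∀ n, IsClosed (C n)) → X ⊆ ⋃ n, C n →
        ∃ n t, {i | t i = true}.Finite ∧ (t, a) ∈ C n := by
  obtain ⟨B, r, wo, b1, b2, b3⟩ := scale
  obtain ⟨s, ws, h1⟩ := Cardinal.ord_eq A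
  have h2 : ∀ {Z : Type} (x : A → Z) a, #(x '' {b | s b a}) < #A := fun x a =>
    Cardinal.mk_image_le.trans_lt (Cardinal.card_typein_lt a h1)
  choose c c1 c2 using fun a => hs _ (h2 Subtype.val a)
  refine ⟨{p | ∃ f ∈ B, ∃ a : A, p = (spr f (c a), a.1)}, fun Z _ G φ g1 g2 g3 g4 => ?_,
    fun a ha C h3 h4 => by_contra fun hc => ?_⟩
  · have e : ∀ f d, (fun n => spr f d (Nat.pair 0 n)) = f := fun f d => funext fun n => by simp [spr]
    refine plewik g2 (π := fun z n => (φ.symm z).1 (Nat.pair 0 n)) (by fun_prop) wo b2 ?_ fun f => ?_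
    · rintro _ ⟨_, ⟨f, hf, a, rfl⟩, rfl⟩
      simpa [e] using hf
    by_cases hf : f ∈ B
    · choose n n1 n2 using (b1 f hf).exists_gt
      filter_upwards [grz g1 hA M hM (r := s) c2 (fun a b h => c1 b (mem_image_of_mem _ h))
        (x := fun a => φ (spr f (c a), a.1)) (δ := fun z k => (φ.symm z).1 (Nat.pair (k + 1) (n k)))
        (by fun_prop) (fun a => funext fun k => by
          have := n1 k
          have := n2 k
          simp_all [spr]) (fun a => g3 _ (h2 _ a)) g4] with z hz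
      rintro ⟨_, ⟨g, -, a, rfl⟩, rfl⟩ h5
      simp only [MeasurableEquiv.symm_apply_apply, e] at h5
      exact hz ⟨a, h5 ▸ rfl⟩
    · refine .of_forall ?_
      rintro _ ⟨_, ⟨g, hg, a, rfl⟩, rfl⟩ h5
      simp only [MeasurableEquiv.symm_apply_apply, e] at h5
      exact hf (h5 ▸ hg)
  · push Not at hc
    obtain ⟨f, h5, h6⟩ := b3 (fun n => (fun f => (spr f (c ⟨a, ha⟩), a)) ⁻¹' C n)
      (fun n => (h3 n).preimage ((spr_cont _).prodMk continuous_const))
      fun n f hf h7 => hc n _ (spr_fin h7 _) hf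
    obtain ⟨n, hn⟩ := mem_iUnion.1 (h4 ⟨f, h5, ⟨a, ha⟩, rfl⟩)
    exact h6 n hn

end Pool.Agent.H8.Grz
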