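import Mathlib

set_option autoImplicit false

namespace Pool.Agent.H8.Half

variable {ι X : Type} [MulAction (FreeGroup (Option ι)) X]

def gg (ι : Type) : FreeGroup (Option ι) := FreeGroup.of none
def ff (i : ι) : FreeGroup (Option ι) := FreeGroup.of (some i)

def Ln (ι : Type) {X : Type} [MulAction (FreeGroup (Option ι)) X] (x y : X) : Prop :=
  ∃ k : ℤ, x = (gg ι) ^ k • y

theorem Ln.refl (x : X) : Ln ι x x := ⟨0, by simp⟩
theorem Ln.symm {x y : X} (h : Ln ι x y) : Ln ι y x := by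
  obtain ⟨k, rfl⟩ := h
  exact ⟨-k, by rw [smul_smul, ← zpow_add]; simp⟩
theorem Ln.trans {x y z : X} (h : Ln ι x y) (h' : Ln ι y z) : Ln ι x z := by
  obtain ⟨k, rfl⟩ := h
  obtain ⟨l, rfl⟩ := h'
  exact ⟨k + l, by rw [smul_smul, ← zpow_add]⟩
theorem Ln.g (x : X) : Ln ι (gg ι • x) x := ⟨1, by simp⟩

def lnS (ι : Type) (X : Type) [MulAction (FreeGroup (Option ι)) X] : Setoid X :=
  ⟨Ln ι, ⟨Ln.refl, Ln.symm, Ln.trans⟩⟩

noncomputable def rep (ι : Type) {X : Type} [MulAction (FreeGroup (Option ι)) X] (x : X) : X :=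
  (Quotient.mk (lnS ι X) x).out

theorem rep_ln (x : X) : Ln ι (rep ι x) x := Quotient.mk_out (s := lnS ι X) x
theorem rep_eq {x y : X} (h : Ln ι x y) : rep ι x = rep ι y := by
  unfold rep; rw [Quotient.sound (s := lnS ι X) h]

inductive Reach (B : Set (X × ι)) (y0 : X) : ℕ → X → Prop
  | base (x : X) : Ln ι x y0 → Reach B y0 0 x
  | fwd (n : ℕ) (x y : X) (i : ι) : Reach B y0 n y → (y, i) ∉ B → Ln ι x (ff i • y) →
      Reach B y0 (n + 1) x
  | bwd (n : ℕ) (x y : X) (i : ι) : Reach B y0 n (ff i • y) → (y, i) ∉ B → Ln ι x y →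
      Reach B y0 (n + 1) x

theorem Reach.ln {B : Set (X × ι)} {y0 x x' : X} {n : ℕ} (h : Reach B y0 n x) (h' : Ln ι x' x) :
    Reach B y0 n x' := by
  cases h with
  | base _ h => exact .base _ (h'.trans h)
  | fwd n _ y i h1 h2 h3 => exact .fwd n _ y i h1 h2 (h'.trans h3)
  | bwd n _ y i h1 h2 h3 => exact .bwd n _ y i h1 h2 (h'.trans h3)

def Conn (B : Set (X × ι)) (x y : X) : Prop := ∃ n, Reach B x n y

theorem Conn.trans {B : Set (X × ι)} {x y z : X} (h : Conn B x y) (h' : Conn B y z) :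
    Conn B x z := by
  obtain ⟨n, h'⟩ := h'
  induction h' with
  | base z hz => obtain ⟨m, h⟩ := h; exact ⟨m, h.ln hz⟩
  | fwd n z w i _ h2 h3 ih => obtain ⟨m, ih⟩ := ih; exact ⟨m + 1, .fwd m _ w i ih h2 h3⟩
  | bwd n z w i _ h2 h3 ih => obtain ⟨m, ih⟩ := ih; exact ⟨m + 1, .bwd m _ w i ih h2 h3⟩

theorem Conn.symm {B : Set (X × ι)} {x y : X} (h : Conn B x y) : Conn B y x := by
  obtain ⟨n, h⟩ := h
  induction h with
  | base z hz => exact ⟨0, .base _ hz.symm⟩
  | fwd n z w i _ h2 h3 ih =>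
    exact Conn.trans ⟨1, .bwd 0 w w i (.base _ h3.symm) h2 (Ln.refl _)⟩ ih
  | bwd n z w i _ h2 h3 ih =>
    exact Conn.trans ⟨1, .fwd 0 _ w i (.base _ h3.symm) h2 (Ln.refl _)⟩ ih

theorem conn_empty (w : FreeGroup (Option ι)) : ∀ x : X, Conn (∅ : Set (X × ι)) x (w • x) := by
  induction w using FreeGroup.induction_on with
  | C1 => intro x; exact ⟨0, .base _ (by simpa using Ln.refl x)⟩
  | of a =>
    intro x
    cases a with
    | none => exact ⟨0, .base _ (Ln.g x)⟩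
    | some i => exact ⟨1, .fwd 0 _ x i (.base _ (Ln.refl _)) (by simp) (Ln.refl _)⟩
  | inv_of a ih =>
    intro x
    have := (ih ((FreeGroup.of a)⁻¹ • x)).symm
    simpa using this
  | mul u v ihu ihv =>
    intro x
    rw [mul_smul]
    exact (ihv x).trans (ihu _)

/-- a spanning tree containing all g-edges -/
structure Tree (y0 : X) (d : X → ℕ) (pe : X → X × ι) : Prop where
  d_ln : ∀ x y, Ln ι x y → d x = d y
  pe_ln : ∀ x y, Ln ι x y → pe x = pe y
  d0 : d y0 = 0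
  zero : ∀ x, d x = 0 → Ln ι x y0
  par : ∀ x, 0 < d x → (Ln ι x (ff (pe x).2 • (pe x).1) ∧ d (pe x).1 < d x) ∨
    (Ln ι x (pe x).1 ∧ d (ff (pe x).2 • (pe x).1) < d x)

theorem exists_tree [Nonempty ι] (B : Set (X × ι)) (y0 : X) (h : ∀ x, Conn B y0 x) :
    ∃ (d : X → ℕ) (pe : X → X × ι), Tree y0 d pe ∧ ∀ x, 0 < d x → pe x ∉ B := by
  classical
  set d : X → ℕ := fun x => Nat.find (h x) with hd
  have hdr : ∀ x, Reach B y0 (d x) x := fun x => Nat.find_spec (h x)
  have hdm : ∀ x n, Reach B y0 n x → d x ≤ n := fun x n hn => Nat.find_min' (h x) hn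
  have hln : ∀ x y, Ln ι x y → d x = d y := fun x y hxy =>
    le_antisymm (hdm _ _ ((hdr y).ln hxy)) (hdm _ _ ((hdr x).ln hxy.symm))
  have hex : ∀ x, ∃ e : X × ι, 0 < d x → e ∉ B ∧ ((Ln ι x (ff e.2 • e.1) ∧ d e.1 < d x) ∨
      (Ln ι x e.1 ∧ d (ff e.2 • e.1) < d x)) := by
    intro x
    have key : ∀ n, Reach B y0 n x → n = d x → ∃ e : X × ι, 0 < d x → e ∉ B ∧
        ((Ln ι x (ff e.2 • e.1) ∧ d e.1 < d x) ∨ (Ln ι x e.1 ∧ d (ff e.2 • e.1) < d x)) := by
      intro n hn he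
      cases hn with
      | base _ _ => exact ⟨(x, Classical.arbitrary ι), fun h => by omega⟩
      | fwd n _ y i h1 h2 h3 =>
        exact ⟨(y, i), fun _ => ⟨h2, Or.inl ⟨h3, by have := hdm _ _ h1; simp only; omega⟩⟩⟩
      | bwd n _ y i h1 h2 h3 =>
        exact ⟨(y, i), fun _ => ⟨h2, Or.inr ⟨h3, by have := hdm _ _ h1; simp only; omega⟩⟩⟩
    exact key _ (hdr x) rfl
  choose pe0 hpe0 using hex
  refine ⟨d, fun x => pe0 (rep ι x), ⟨hln, fun x y hxy => by rw [rep_eq hxy], ?_, ?_, ?_⟩, ?_⟩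
  · exact Nat.le_zero.1 (hdm _ _ (.base _ (Ln.refl _)))
  · intro x hx
    have := hdr x
    rw [hx] at this
    cases this with
    | base _ h => exact h
  · intro x hx
    have e := hln _ _ (rep_ln (ι := ι) x)
    rcases (hpe0 (rep ι x) (by omega)).2 with h | h
    · exact Or.inl ⟨(rep_ln x).symm.trans h.1, by omega⟩
    · exact Or.inr ⟨(rep_ln x).symm.trans h.1, by omega⟩
  · intro x hx
    have e := hln _ _ (rep_ln (ι := ι) x)
    exact (hpe0 (rep ι x) (by omega)).1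

theorem conn_tree {y0 : X} {d : X → ℕ} {pe : X → X × ι} (T : Tree y0 d pe) (B : Set (X × ι))
    (hB : ∀ x, 0 < d x → pe x ∉ B) (x : X) : Conn B y0 x := by
  induction hn : d x using Nat.strong_induction_on generalizing x with
  | _ n ih =>
    rcases Nat.eq_zero_or_pos (d x) with h0 | h0
    · exact ⟨0, .base _ (T.zero x h0)⟩
    · rcases T.par x h0 with h | h
      · obtain ⟨m, hm⟩ := ih _ (hn ▸ h.2) _ rfl
        exact ⟨m + 1, .fwd m _ _ _ hm (hB x h0) h.1⟩
      · obtain ⟨m, hm⟩ := ih _ (hn ▸ h.2) _ rfl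
        exact ⟨m + 1, .bwd m _ _ _ hm (hB x h0) h.1⟩

/-- skew product permutations -/
def skew {S : Type} [Group S] (lab : X × ι → S) : Option ι → Equiv.Perm (X × S)
  | none => Equiv.prodCongr (MulAction.toPerm (gg ι)) (Equiv.refl S)
  | some i =>
    { toFun := fun p => (ff i • p.1, lab (p.1, i) * p.2)
      invFun := fun p => ((ff i)⁻¹ • p.1, (lab ((ff i)⁻¹ • p.1, i))⁻¹ * p.2)
      left_inv := fun p => by simp
      right_inv := fun p => by simp }

theorem skew_fst {S : Type} [Group S] (lab : X × ι → S) (w : FreeGroup (Option ι)) :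
    ∀ p : X × S, (FreeGroup.lift (skew lab) w p).1 = w • p.1 := by
  induction w using FreeGroup.induction_on with
  | C1 => intro p; simp
  | of a =>
    intro p
    rw [FreeGroup.lift_apply_of]
    cases a with
    | none => rfl
    | some i => rfl
  | inv_of a ih =>
    intro p
    have := ih (FreeGroup.lift (skew lab) (FreeGroup.of a)⁻¹ p)
    rw [← Equiv.Perm.mul_apply, ← map_mul, mul_inv_cancel, map_one, Equiv.Perm.one_apply] at this
    rw [this, inv_smul_smul]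
  | mul u v ihu ihv =>
    intro p
    rw [map_mul, Equiv.Perm.mul_apply, ihu, ihv, mul_smul]

theorem skew_g {S : Type} [Group S] (lab : X × ι → S) (k : ℤ) :
    ∀ p : X × S, (FreeGroup.lift (skew lab) (gg ι ^ k) p).2 = p.2 := by
  have h1 : ∀ p : X × S, (FreeGroup.lift (skew lab) (gg ι) p).2 = p.2 := fun p => by
    rw [gg, FreeGroup.lift_apply_of]; rfl
  have h2 : ∀ p : X × S, (FreeGroup.lift (skew lab) (gg ι)⁻¹ p).2 = p.2 := fun p => by
    have := h1 (FreeGroup.lift (skew lab) (gg ι)⁻¹ p)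
    rw [← Equiv.Perm.mul_apply, ← map_mul, mul_inv_cancel, map_one, Equiv.Perm.one_apply] at this
    exact this.symm
  induction k using Int.induction_on with
  | zero => intro p; simp
  | succ k ih => intro p; rw [zpow_add_one, map_mul, Equiv.Perm.mul_apply, ih, h1]
  | pred k ih => intro p; rw [zpow_sub_one, map_mul, Equiv.Perm.mul_apply, ih, h2]

theorem skew_good {S : Type} [Group S] (lab : X × ι → S) (B : Set (X × ι))
    (hB : ∀ e, e ∉ B → lab e = 1) {y0 x : X} (h : Conn B y0 x) :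
    ∃ t, ∀ s, FreeGroup.lift (skew lab) t (y0, s) = (x, s) := by
  have hl : ∀ x y : X, Ln ι x y → (∃ t, ∀ s, FreeGroup.lift (skew lab) t (y0, s) = (y, s)) →
      ∃ t, ∀ s, FreeGroup.lift (skew lab) t (y0, s) = (x, s) := by
    rintro x y ⟨k, rfl⟩ ⟨t, ht⟩
    refine ⟨gg ι ^ k * t, fun s => ?_⟩
    rw [map_mul, Equiv.Perm.mul_apply, ht]
    exact Prod.ext (skew_fst _ _ _) (skew_g _ _ _)
  have hf : ∀ (y : X) (i : ι) (s : S), (y, i) ∉ B →
      FreeGroup.lift (skew lab) (ff i) (y, s) = (ff i • y, s) := by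
    intro y i s hy
    rw [ff, FreeGroup.lift_apply_of]
    show (ff i • y, lab (y, i) * s) = _
    rw [hB _ hy, one_mul]; rfl
  obtain ⟨n, h⟩ := h
  induction h with
  | base z hz => exact hl _ _ hz ⟨1, by simp⟩
  | fwd n z w i _ h2 h3 ih =>
    obtain ⟨t, ht⟩ := ih
    refine hl _ _ h3 ⟨ff i * t, fun s => ?_⟩
    rw [map_mul, Equiv.Perm.mul_apply, ht, hf _ _ _ h2]
  | bwd n z w i _ h2 h3 ih =>
    obtain ⟨t, ht⟩ := ih
    refine hl _ _ h3 ⟨(ff i)⁻¹ * t, fun s => ?_⟩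
    rw [map_mul, Equiv.Perm.mul_apply, ht, ← hf _ _ _ h2, ← Equiv.Perm.mul_apply, ← map_mul,
      inv_mul_cancel, map_one, Equiv.Perm.one_apply]

theorem one_nontree (H1 : ∀ (x : X) (u v : FreeGroup (Option ι)), u • x = x → v • x = x →
      u * v = v * u) {y0 : X} {d : X → ℕ} {pe : X → X × ι} (T : Tree y0 d pe)
    (e1 e2 : X × ι) (h1 : ∀ x, 0 < d x → pe x ≠ e1) (h2 : ∀ x, 0 < d x → pe x ≠ e2) : e1 = e2 := by
  classical
  by_contra hne
  set a : Equiv.Perm (Fin 3) := Equiv.swap 0 1 with ha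
  set b : Equiv.Perm (Fin 3) := Equiv.swap 1 2 with hb
  set lab : X × ι → Equiv.Perm (Fin 3) := fun e => if e = e1 then a else if e = e2 then b else 1
    with hlab
  have hB : ∀ e, e ∉ ({e1, e2} : Set (X × ι)) → lab e = 1 := by
    intro e he
    simp only [Set.mem_insert_iff, Set.mem_singleton_iff, not_or] at he
    simp [hlab, he.1, he.2]
  have hc : ∀ x, Conn ({e1, e2} : Set (X × ι)) y0 x := conn_tree T _ fun x hx => by
    simp [h1 x hx, h2 x hx]
  have key : ∀ e : X × ι, ∃ w, ∀ s, FreeGroup.lift (skew lab) w (y0, s) = (y0, lab e * s) := by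
    intro e
    obtain ⟨t, ht⟩ := skew_good lab _ hB (hc e.1)
    obtain ⟨t', ht'⟩ := skew_good lab _ hB (hc (ff e.2 • e.1))
    refine ⟨t'⁻¹ * (ff e.2 * t), fun s => ?_⟩
    rw [map_mul, map_mul, Equiv.Perm.mul_apply, Equiv.Perm.mul_apply, ht, ff,
      FreeGroup.lift_apply_of]
    show FreeGroup.lift (skew lab) t'⁻¹ (ff e.2 • e.1, lab (e.1, e.2) * s) = _
    rw [← ht', ← Equiv.Perm.mul_apply, ← map_mul, inv_mul_cancel, map_one, Equiv.Perm.one_apply]
  obtain ⟨w1, hw1⟩ := key e1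
  obtain ⟨w2, hw2⟩ := key e2
  have f1 : w1 • y0 = y0 := by have := skew_fst lab w1 (y0, 1); rw [hw1] at this; exact this.symm
  have f2 : w2 • y0 = y0 := by have := skew_fst lab w2 (y0, 1); rw [hw2] at this; exact this.symm
  have hcomm := H1 y0 w1 w2 f1 f2
  have := congrArg (fun w => (FreeGroup.lift (skew lab) w (y0, 1)).2) hcomm
  simp only [map_mul, Equiv.Perm.mul_apply, hw1, hw2] at this
  have l1 : lab e1 = a := by simp [hlab]
  have l2 : lab e2 = b := by simp [hlab, Ne.symm hne]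
  rw [l1, l2, ha, hb] at this
  revert this
  decide

theorem good_tree [Nonempty ι] [Nonempty X] [MulAction.IsPretransitive (FreeGroup (Option ι)) X]
    (H1 : ∀ (x : X) (u v : FreeGroup (Option ι)), u • x = x → v • x = x → u * v = v * u) :
    ∃ (y0 : X) (d : X → ℕ) (pe : X → X × ι) (r : ι), Tree y0 d pe ∧
      ∀ e : X × ι, (∃ x, 0 < d x ∧ pe x = e) ∨ e = (y0, r) := by
  obtain ⟨x0⟩ := ‹Nonempty X›
  obtain ⟨d, pe, T, -⟩ := exists_tree (∅ : Set (X × ι)) x0 fun x => by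
    obtain ⟨w, rfl⟩ := MulAction.exists_smul_eq (FreeGroup (Option ι)) x0 x
    exact conn_empty w x0
  by_cases h : ∀ e : X × ι, ∃ x, 0 < d x ∧ pe x = e
  · exact ⟨x0, d, pe, Classical.arbitrary ι, T, fun e => Or.inl (h e)⟩
  push Not at h
  obtain ⟨e, he⟩ := h
  have hc : ∀ x, Conn ({e} : Set (X × ι)) x0 x := conn_tree T _ fun x hx => he x hx
  obtain ⟨d', pe', T', hB⟩ := exists_tree ({e} : Set (X × ι)) e.1 fun x =>
    (hc e.1).symm.trans (hc x)
  refine ⟨e.1, d', pe', e.2, T', fun e' => ?_⟩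
  by_contra hcon
  push Not at hcon
  exact hcon.2 (one_nontree H1 T' e' e hcon.1 fun x hx => hB x hx)

end Pool.Agent.H8.Half
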