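import Pool.Agent.H8.Half1

set_option autoImplicit false

namespace Pool.Agent.H8.Half

theorem exists_rec {X : Type} (d : X → ℕ) (Φ : X → (X → Prop) → Prop) :
    ∃ val : X → Prop, ∀ x, val x ↔ Φ x (fun y => d y < d x ∧ val y) := by
  have wf : WellFounded (fun y x : X => d y < d x) := (measure d).wf
  refine ⟨wf.fix fun x ih => Φ x (fun y => ∃ h : d y < d x, ih y h), fun x => ?_⟩
  rw [wf.fix_eq]
  simp only [exists_prop]

variable {ι X : Type} [MulAction (FreeGroup (Option ι)) X]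

def Par (ι : Type) {X : Type} [MulAction (FreeGroup (Option ι)) X] (x y : X) : Prop :=
  ∃ k : ℤ, Even k ∧ x = (gg ι) ^ k • y

theorem par_flip (H2 : ∀ (x : X) (n : ℤ), (gg ι) ^ n • x = x → Even n) {x b : X}
    (h : Ln ι x b) : Par ι (gg ι • x) b ↔ ¬ Par ι x b := by
  obtain ⟨k, rfl⟩ := h
  have key : ∀ m : ℤ, Par ι ((gg ι) ^ m • b) b ↔ Even m := by
    intro m
    constructor
    · rintro ⟨l, hl, h⟩
      have : (gg ι) ^ (-l + m) • b = b := by
        rw [zpow_add, mul_smul, h, smul_smul, ← zpow_add]; simp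
      have h2 := H2 _ _ this
      have h3 := hl.add h2
      simpa using h3
    · intro h; exact ⟨m, h, rfl⟩
  have : gg ι • (gg ι) ^ k • b = (gg ι) ^ (k + 1) • b := by
    rw [smul_smul, add_comm, zpow_add, zpow_one]
  rw [this, key, key, Int.even_add_one]

theorem half_trans [Infinite ι] [Nonempty X] [MulAction.IsPretransitive (FreeGroup (Option ι)) X]
    (H1 : ∀ (x : X) (u v : FreeGroup (Option ι)), u • x = x → v • x = x → u * v = v * u)
    (H2 : ∀ (x : X) (n : ℤ), (gg ι) ^ n • x = x → Even n) :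
    ∃ val : X → Prop, (∀ x, val (gg ι • x) ↔ ¬ val x) ∧ ∀ z, ∃! i : ι, val ((ff i)⁻¹ • z) := by
  classical
  obtain ⟨y0, d, pe, r, T, hall⟩ := good_tree H1
  have hch : ∀ z : X, ∃ j : ι, j ≠ r ∧ j ≠ (pe z).2 := by
    intro z
    obtain ⟨j, hj⟩ := Infinite.exists_notMem_finset ({r, (pe z).2} : Finset ι)
    simp only [Finset.mem_insert, Finset.mem_singleton, not_or] at hj
    exact ⟨j, hj⟩
  choose ch hch1 hch2 using hch
  set leaf : X → Prop := fun x => 0 < d x ∧ Ln ι x (pe x).1 ∧ d (ff (pe x).2 • (pe x).1) < d x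
    with hleaf
  set b : X → X := fun x => if leaf x then (pe x).1 else if Ln ι x y0 then y0 else rep ι x with hb
  have hbl : ∀ x, Ln ι x (b x) := by
    intro x
    simp only [hb]
    split_ifs with h1 h2
    · exact h1.2.1
    · exact h2
    · exact (rep_ln x).symm
  set W : X → ι → (X → Prop) → Prop := fun z i R => i = ch z ∧
    ¬ ∃ j, 0 < d z ∧ pe z = ((ff j)⁻¹ • z, j) ∧ R ((ff j)⁻¹ • z) with hW
  obtain ⟨val, hval⟩ := exists_rec d fun x R =>
    (Par ι x (b x) ↔ (leaf x ∧ W (ff (pe x).2 • (pe x).1) (pe x).2 R))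
  refine ⟨val, fun x => ?_, fun z => ?_⟩
  · have e1 := T.d_ln _ _ (Ln.g (ι := ι) x)
    have e2 := T.pe_ln _ _ (Ln.g (ι := ι) x)
    have e3 : ∀ y, Ln ι (gg ι • x) y ↔ Ln ι x y := fun y =>
      ⟨fun h => (Ln.g x).symm.trans h, fun h => (Ln.g x).trans h⟩
    have e4 : leaf (gg ι • x) ↔ leaf x := by simp only [hleaf, e1, e2, e3]
    have e5 : b (gg ι • x) = b x := by simp only [hb, e4, e2, e3, rep_eq (Ln.g (ι := ι) x)]
    rw [hval, hval x, e5, e4, e2, e1, par_flip H2 (hbl x)]
    tauto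
  · have hy0 : ¬ val y0 := by
      have h1 : ¬ leaf y0 := fun h => by have := h.1; rw [T.d0] at this; omega
      have h2 : b y0 = y0 := by simp only [hb, h1, if_false, Ln.refl, if_true]
      rw [hval, h2]
      have : Par ι y0 y0 := ⟨0, by simp, by simp⟩
      tauto
    have hBd : ∀ j, 0 < d z → pe z = ((ff j)⁻¹ • z, j) → d ((ff j)⁻¹ • z) < d z := by
      intro j h0 h
      rcases T.par z h0 with h' | h'
      · simpa [h] using h'.2
      · have := h'.2
        simp [h] at this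
    have hcase : ∀ j, ((ff j)⁻¹ • z = y0 ∧ j = r) ∨ (0 < d z ∧ pe z = ((ff j)⁻¹ • z, j)) ∨
        (val ((ff j)⁻¹ • z) ↔ (j = ch z ∧
          ¬ ∃ j', 0 < d z ∧ pe z = ((ff j')⁻¹ • z, j') ∧ val ((ff j')⁻¹ • z))) := by
      intro j
      rcases hall ((ff j)⁻¹ • z, j) with ⟨x, hx0, hx⟩ | h
      · rcases T.par x hx0 with h' | h'
        · right; left
          rw [hx] at h'
          have hl : Ln ι x z := by simpa using h'.1
          exact ⟨T.d_ln _ _ hl ▸ hx0, T.pe_ln _ _ hl ▸ hx⟩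
        · right; right
          rw [hx] at h'
          have hl : Ln ι x ((ff j)⁻¹ • z) := h'.1
          have hd := T.d_ln _ _ hl
          have hp : pe ((ff j)⁻¹ • z) = ((ff j)⁻¹ • z, j) := T.pe_ln _ _ hl ▸ hx
          have hdz : d z < d ((ff j)⁻¹ • z) := by simpa [hd] using h'.2
          have hlf : leaf ((ff j)⁻¹ • z) := by
            simp only [hleaf, hp, smul_inv_smul]
            exact ⟨by omega, Ln.refl _, hdz⟩
          have hbb : b ((ff j)⁻¹ • z) = (ff j)⁻¹ • z := by simp only [hb, hlf, if_true, hp]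
          have hpar : Par ι ((ff j)⁻¹ • z) ((ff j)⁻¹ • z) := ⟨0, by simp, by simp⟩
          rw [hval, hbb, hp]
          simp only [hpar, hlf, true_and, true_iff, smul_inv_smul, hW]
          refine and_congr_right fun _ => not_congr (exists_congr fun j' => ?_)
          refine and_congr_right fun h0 => and_congr_right fun h1 => ?_
          exact ⟨fun h => h.2, fun h => ⟨(hBd j' h0 h1).trans hdz, h⟩⟩
      · left
        exact ⟨congrArg Prod.fst h, congrArg Prod.snd h⟩
    by_cases hex : ∃ j', 0 < d z ∧ pe z = ((ff j')⁻¹ • z, j') ∧ val ((ff j')⁻¹ • z)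
    · obtain ⟨j0, h0, h1, h2⟩ := hex
      refine ⟨j0, h2, fun j hj => ?_⟩
      rcases hcase j with h | h | h
      · exact absurd (h.1 ▸ hj) hy0
      · exact congrArg Prod.snd (h.2.symm.trans h1)
      · exact absurd ⟨j0, h0, h1, h2⟩ (h.1 hj).2
    · refine ⟨ch z, ?_, fun j hj => ?_⟩
      · rcases hcase (ch z) with h | h | h
        · exact absurd h.2 (hch1 z)
        · exact absurd (congrArg Prod.snd h.2).symm (hch2 z)
        · exact h.2 ⟨rfl, hex⟩
      · rcases hcase j with h | h | h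
        · exact absurd (h.1 ▸ hj) hy0
        · exact absurd ⟨j, h.1, h.2, hj⟩ hex
        · exact (h.1 hj).1

theorem half [Infinite ι]
    (H1 : ∀ (x : X) (u v : FreeGroup (Option ι)), u • x = x → v • x = x → u * v = v * u)
    (H2 : ∀ (x : X) (n : ℤ), (gg ι) ^ n • x = x → Even n) :
    ∃ val : X → Prop, (∀ x, val (gg ι • x) ↔ ¬ val x) ∧ ∀ z, ∃! i : ι, val ((ff i)⁻¹ • z) := by
  have horb : ∀ x0 : X, ∃ val : X → Prop, ∀ x ∈ MulAction.orbit (FreeGroup (Option ι)) x0,
      (val (gg ι • x) ↔ ¬ val x) ∧ ∃! i : ι, val ((ff i)⁻¹ • x) := by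
    intro x0
    haveI : Nonempty (MulAction.orbit (FreeGroup (Option ι)) x0) :=
      ⟨⟨x0, MulAction.mem_orbit_self x0⟩⟩
    obtain ⟨v, h1, h2⟩ := half_trans (ι := ι) (X := MulAction.orbit (FreeGroup (Option ι)) x0)
      (fun x u w hu hw => H1 x.1 u w (congrArg Subtype.val hu) (congrArg Subtype.val hw))
      (fun x n h => H2 x.1 n (congrArg Subtype.val h))
    refine ⟨fun x => ∃ h : x ∈ MulAction.orbit (FreeGroup (Option ι)) x0, v ⟨x, h⟩, fun x hx => ?_⟩
    have key : ∀ w : FreeGroup (Option ι),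
        (∃ h : w • x ∈ MulAction.orbit (FreeGroup (Option ι)) x0, v ⟨w • x, h⟩) ↔
          v (w • (⟨x, hx⟩ : MulAction.orbit (FreeGroup (Option ι)) x0)) := fun w =>
      ⟨fun ⟨_, h⟩ => h, fun h => ⟨_, h⟩⟩
    refine ⟨?_, ?_⟩
    · simp only [key, h1, hx, exists_true_left]
    · simp only [key]; exact h2 _
  choose V hV using horb
  set rt : X → X := fun x => (Quotient.mk (MulAction.orbitRel (FreeGroup (Option ι)) X) x).out
    with hrt
  have hr1 : ∀ x, x ∈ MulAction.orbit (FreeGroup (Option ι)) (rt x) := fun x =>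
    (MulAction.orbitRel (FreeGroup (Option ι)) X).symm
      (Quotient.mk_out (s := MulAction.orbitRel (FreeGroup (Option ι)) X) x)
  have hr2 : ∀ (w : FreeGroup (Option ι)) x, rt (w • x) = rt x := fun w x => by
    simp only [hrt]
    rw [Quotient.sound (s := MulAction.orbitRel (FreeGroup (Option ι)) X) (a := w • x) (b := x)
      (MulAction.mem_orbit x w)]
  refine ⟨fun x => V (rt x) x, fun x => ?_, fun z => ?_⟩
  · simp only [hr2]; exact (hV _ x (hr1 x)).1
  · simp only [hr2]; exact (hV _ z (hr1 z)).2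

end Pool.Agent.H8.Half
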