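import Mathlib

set_option autoImplicit false

open Polynomial Matrix MatrixGroups

namespace Pool.Agent.H8.Half

section poly
variable {k κ : Type} [CommRing k] (a : κ → k)

/-- sign of a letter -/
def sg (b : Bool) : ℤ := if b then 1 else -1

/-- polynomial vector attached to a word -/
noncomputable def uu : List (κ × Bool) → k[X] × k[X]
  | [] => (1, 0)
  | x :: L =>
    ((uu L).1 + C ((sg x.2 : k) * a x.1) * (X * ((uu L).1 - C (a x.1) * (uu L).2)),
     (uu L).2 + C (sg x.2 : k) * (X * ((uu L).1 - C (a x.1) * (uu L).2)))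

theorem uu_inv [IsDomain k] [CharZero k] (ha : Function.Injective a) (L : List (κ × Bool)) :
    ∀ x : κ × Bool, FreeGroup.IsReduced (x :: L) → ∃ (D n : ℕ) (c : k), c ≠ 0 ∧
      (∀ m, D < m → ((uu a (x :: L)).1 - C (a x.1) * (uu a (x :: L)).2).coeff m = 0) ∧
      ((uu a (x :: L)).1 - C (a x.1) * (uu a (x :: L)).2).coeff D = c ∧
      (∀ m, D + 1 < m → (uu a (x :: L)).1.coeff m = 0) ∧
      (∀ m, D + 1 < m → (uu a (x :: L)).2.coeff m = 0) ∧
      (uu a (x :: L)).1.coeff (D + 1) = sg x.2 * (n + 1) * c * a x.1 ∧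
      (uu a (x :: L)).2.coeff (D + 1) = sg x.2 * (n + 1) * c := by
  have hpsi : ∀ (x : κ × Bool) (L : List (κ × Bool)),
      (uu a (x :: L)).1 - C (a x.1) * (uu a (x :: L)).2 = (uu a L).1 - C (a x.1) * (uu a L).2 := by
    intro x L
    simp only [uu, map_mul]
    ring
  have hc1 : ∀ (x : κ × Bool) (L : List (κ × Bool)) (m : ℕ), (uu a (x :: L)).1.coeff (m + 1) =
      (uu a L).1.coeff (m + 1) + sg x.2 * a x.1 * ((uu a L).1 - C (a x.1) * (uu a L).2).coeff m := by
    intro x L m
    simp only [uu, coeff_add, coeff_C_mul, coeff_X_mul]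
  have hc2 : ∀ (x : κ × Bool) (L : List (κ × Bool)) (m : ℕ), (uu a (x :: L)).2.coeff (m + 1) =
      (uu a L).2.coeff (m + 1) + sg x.2 * ((uu a L).1 - C (a x.1) * (uu a L).2).coeff m := by
    intro x L m
    simp only [uu, coeff_add, coeff_C_mul, coeff_X_mul]
  have hsg : ∀ b : Bool, ((sg b : ℤ) : k) ≠ 0 := fun b => by cases b <;> simp [sg]
  induction L with
  | nil =>
    intro x _
    refine ⟨0, 0, 1, one_ne_zero, ?_, ?_, ?_, ?_, ?_, ?_⟩
    · intro m hm; rw [hpsi]; simp [uu, coeff_one]; omega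
    · rw [hpsi]; simp [uu]
    · intro m hm
      obtain ⟨m, rfl⟩ : ∃ m', m = m' + 1 := ⟨m - 1, by omega⟩
      rw [hc1]; simp [uu, coeff_one]; omega
    · intro m hm
      obtain ⟨m, rfl⟩ : ∃ m', m = m' + 1 := ⟨m - 1, by omega⟩
      rw [hc2]; simp [uu, coeff_one]; omega
    · rw [hc1]; simp [uu, coeff_one]
    · rw [hc2]; simp [uu]
  | cons y L ih =>
    intro x hx
    rw [FreeGroup.isReduced_cons_cons] at hx
    obtain ⟨D, n, c, hc, h1, h2, h3, h4, h5, h6⟩ := ih y hx.2
    by_cases hxy : x.1 = y.1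
    · have hb := hx.1 hxy
      refine ⟨D, n + 1, c, hc, ?_, ?_, ?_, ?_, ?_, ?_⟩
      · intro m hm; rw [hpsi, hxy]; exact h1 m hm
      · rw [hpsi, hxy]; exact h2
      · intro m hm
        obtain ⟨m, rfl⟩ : ∃ m', m = m' + 1 := ⟨m - 1, by omega⟩
        rw [hc1, h3 _ hm, hxy, h1 m (by omega)]; simp
      · intro m hm
        obtain ⟨m, rfl⟩ : ∃ m', m = m' + 1 := ⟨m - 1, by omega⟩
        rw [hc2, h4 _ hm, hxy, h1 m (by omega)]; simp
      · rw [hc1, h5, hxy, h2, hb]; push_cast; ring
      · rw [hc2, h6, hxy, h2, hb]; push_cast; ring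
    · have hne : a y.1 - a x.1 ≠ 0 := sub_ne_zero.2 fun h => hxy (ha h).symm
      have k1 : ∀ m, D + 1 < m →
          ((uu a (y :: L)).1 - C (a x.1) * (uu a (y :: L)).2).coeff m = 0 := by
        intro m hm; rw [coeff_sub, coeff_C_mul, h3 m hm, h4 m hm]; simp
      have k2 : ((uu a (y :: L)).1 - C (a x.1) * (uu a (y :: L)).2).coeff (D + 1) =
          sg y.2 * (n + 1) * c * (a y.1 - a x.1) := by
        rw [coeff_sub, coeff_C_mul, h5, h6]; ring
      refine ⟨D + 1, 0, sg y.2 * (n + 1) * c * (a y.1 - a x.1), ?_, ?_, ?_, ?_, ?_, ?_, ?_⟩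
      · have : ((n : k) + 1) ≠ 0 := by exact_mod_cast Nat.succ_ne_zero n
        exact mul_ne_zero (mul_ne_zero (mul_ne_zero (hsg _) this) hc) hne
      · intro m hm; rw [hpsi]; exact k1 m hm
      · rw [hpsi]; exact k2
      · intro m hm
        obtain ⟨m, rfl⟩ : ∃ m', m = m' + 1 := ⟨m - 1, by omega⟩
        rw [hc1, h3 _ (by omega), k1 m (by omega)]; simp
      · intro m hm
        obtain ⟨m, rfl⟩ : ∃ m', m = m' + 1 := ⟨m - 1, by omega⟩
        rw [hc2, h4 _ (by omega), k1 m (by omega)]; simp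
      · rw [hc1, h3 _ (by omega), k2]; push_cast; ring
      · rw [hc2, h4 _ (by omega), k2]; push_cast; ring

theorem uu_ne [IsDomain k] [CharZero k] (ha : Function.Injective a) (L : List (κ × Bool))
    (hL : FreeGroup.IsReduced L) (h : (uu a L).2 = 0) : L = [] := by
  cases L with
  | nil => rfl
  | cons x L =>
    obtain ⟨D, n, c, hc, -, -, -, -, -, h6⟩ := uu_inv a ha L x hL
    rw [h, coeff_zero] at h6
    have h1 : ((n : k) + 1) ≠ 0 := by exact_mod_cast Nat.succ_ne_zero n
    have h2 : ((sg x.2 : ℤ) : k) ≠ 0 := by cases x.2 <;> simp [sg]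
    exact absurd h6.symm (mul_ne_zero (mul_ne_zero h2 h1) hc)

end poly

/-- parabolic element fixing the boundary point a -/
def par (a s : ℝ) : SL(2, ℝ) :=
  ⟨!![1 + s * a, -(s * a ^ 2); s, 1 - s * a], by rw [Matrix.det_fin_two_of]; ring⟩

theorem par_mul (a s t : ℝ) : par a s * par a t = par a (s + t) := by
  ext i j
  fin_cases i <;> fin_cases j <;> simp [par, Matrix.mul_apply, Fin.sum_univ_two] <;> ring

theorem par_zero (a : ℝ) : par a 0 = 1 := by
  ext i j
  fin_cases i <;> fin_cases j <;> simp [par]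

theorem par_inv (a s : ℝ) : (par a s)⁻¹ = par a (-s) := by
  rw [inv_eq_iff_mul_eq_one, par_mul, add_neg_cancel, par_zero]

theorem par_zpow (a s : ℝ) (n : ℤ) : (par a s) ^ n = par a (n * s) := by
  induction n using Int.induction_on with
  | zero => simp [par_zero]
  | succ n ih => rw [_root_.zpow_add_one, ih, par_mul]; congr 1; push_cast; ring
  | pred n ih => rw [_root_.zpow_sub_one, ih, par_inv, par_mul]; congr 1; push_cast; ring

theorem lift_inj {κ : Type} (k : Subalgebra ℚ ℝ) (a : κ → k) (ha : Function.Injective a) (s : ℝ)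
    (hs : Transcendental k s) :
    Function.Injective (FreeGroup.lift fun x : κ => par (a x) s) := by
  classical
  have key : ∀ L : List (κ × Bool),
      (FreeGroup.lift (fun x : κ => par (a x) s) (FreeGroup.mk L)) 0 0 = aeval s (uu a L).1 ∧
      (FreeGroup.lift (fun x : κ => par (a x) s) (FreeGroup.mk L)) 1 0 = aeval s (uu a L).2 := by
    intro L
    induction L with
    | nil =>
      have : FreeGroup.mk ([] : List (κ × Bool)) = 1 := rfl
      rw [this, map_one]; simp [uu]
    | cons x L ih =>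
      have e : FreeGroup.lift (fun x : κ => par (a x) s) (FreeGroup.mk (x :: L)) =
          par (a x.1) (sg x.2 * s) * FreeGroup.lift (fun x : κ => par (a x) s) (FreeGroup.mk L) := by
        rw [FreeGroup.lift_mk, FreeGroup.lift_mk, List.map_cons, List.prod_cons]
        congr 1
        cases x.2 <;> simp [sg, par_inv]
      rw [e]
      simp only [Matrix.SpecialLinearGroup.coe_mul, Matrix.mul_apply, Fin.sum_univ_two, ih.1, ih.2,
        uu, map_add, map_mul, map_sub, aeval_C, aeval_X, map_intCast]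
      have : algebraMap k ℝ (a x.1) = (a x.1 : ℝ) := rfl
      rw [this]
      simp only [par, Matrix.SpecialLinearGroup.coe_mk, Matrix.of_apply, Matrix.cons_val', Matrix.cons_val_zero, Matrix.cons_val_one, Matrix.cons_val_fin_one]
      constructor <;> ring
  rw [injective_iff_map_eq_one]
  intro w hw
  have h2 := (key w.toWord).2
  rw [FreeGroup.mk_toWord, hw] at h2
  have h3 : (uu a w.toWord).2 = 0 := by
    apply transcendental_iff_injective.1 hs
    rw [← h2]; simp
  exact FreeGroup.toWord_eq_nil_iff.1 (uu_ne a ha _ FreeGroup.isReduced_toWord h3)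

theorem exists_indep : ∃ (k : Subalgebra ℚ ℝ) (a : Option ℝ → k) (s : ℝ),
    Function.Injective a ∧ Transcendental k s := by
  obtain ⟨B, hB⟩ := exists_isTranscendenceBasis ℚ ℝ
  have hne : Nonempty B := by
    by_contra h
    rw [not_nonempty_iff] at h
    have := hB.isEmpty_iff_isAlgebraic.1 h
    exact (transcendental_liouvilleNumber (le_refl 2))
      ((IsFractionRing.isAlgebraic_iff ℤ ℚ ℝ).2 (this.isAlgebraic _))
  have hc := hB.lift_cardinalMk_eq_max_lift
  simp only [Cardinal.lift_id, Cardinal.mk_real, Cardinal.mk_eq_aleph0 ℚ] at hc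
  have hle : Cardinal.mk (Option (Option ℝ)) ≤ Cardinal.mk B := by
    have h1 : Cardinal.mk (Option (Option ℝ)) = Cardinal.continuum := by
      rw [Cardinal.mk_option, Cardinal.mk_option, Cardinal.mk_real,
        Cardinal.add_one_eq Cardinal.aleph0_le_continuum,
        Cardinal.add_one_eq Cardinal.aleph0_le_continuum]
    rw [h1]
    by_contra hlt
    push Not at hlt
    have : Cardinal.aleph0 ⊔ Cardinal.mk B ⊔ Cardinal.aleph0 < Cardinal.continuum :=
      max_lt (max_lt Cardinal.aleph0_lt_continuum hlt) Cardinal.aleph0_lt_continuum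
    exact absurd hc this.ne'
  obtain ⟨e⟩ := Cardinal.le_def _ _ |>.1 hle
  have hi : AlgebraicIndependent ℚ (fun o : Option (Option ℝ) => (e o : ℝ)) :=
    hB.1.comp e e.injective
  have hi2 : AlgebraicIndependent ℚ (fun o : Option ℝ => (e (some o) : ℝ)) :=
    hi.comp some (Option.some_injective _)
  have ht := (hi2.option_iff_transcendental (e none : ℝ)).1 (by
    convert hi using 2 with o
    cases o <;> rfl)
  refine ⟨Algebra.adjoin ℚ (Set.range fun o : Option ℝ => (e (some o) : ℝ)),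
    fun o => ⟨(e (some o) : ℝ), Algebra.subset_adjoin (Set.mem_range_self o)⟩, _, ?_, ht⟩
  intro o o' h
  have h' : (e (some o) : ℝ) = (e (some o') : ℝ) := by simpa using h
  exact hi2.injective h'

theorem fix_eq (g : SL(2, ℝ)) (z : UpperHalfPlane) (h : g • z = z) :
    g 1 1 - g 0 0 = -2 * g 1 0 * z.re ∧ g 0 1 = -(g 1 0 * (z.re ^ 2 + z.im ^ 2)) := by
  have h1 := UpperHalfPlane.coe_specialLinearGroup_apply g z
  rw [h] at h1
  have hd : ((algebraMap ℝ ℝ (g 1 0) : ℂ) * z + (algebraMap ℝ ℝ (g 1 1) : ℂ)) ≠ 0 := by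
    intro h0
    rw [h0, div_zero] at h1
    exact z.ne_zero h1
  rw [eq_div_iff hd] at h1
  have hre := congrArg Complex.re h1
  have him := congrArg Complex.im h1
  simp at hre him
  have hz := z.im_pos
  have e1 : g 1 1 - g 0 0 = -2 * g 1 0 * z.re := by
    have : z.im * (g 1 1 - g 0 0 + 2 * g 1 0 * z.re) = 0 := by linarith
    have := (mul_eq_zero.1 this).resolve_left hz.ne'
    linarith
  refine ⟨e1, ?_⟩
  have : g 1 1 = g 0 0 - 2 * g 1 0 * z.re := by linarith
  rw [this] at hre
  linarith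

theorem fix_comm (g h : SL(2, ℝ)) (z : UpperHalfPlane) (hg : g • z = z) (hh : h • z = z) :
    g * h = h * g := by
  obtain ⟨a1, a2⟩ := fix_eq g z hg
  obtain ⟨b1, b2⟩ := fix_eq h z hh
  have a3 : g 1 1 = g 0 0 - 2 * g 1 0 * z.re := by linarith
  have b3 : h 1 1 = h 0 0 - 2 * h 1 0 * z.re := by linarith
  ext i j
  fin_cases i <;> fin_cases j <;>
    simp [Matrix.mul_apply, Fin.sum_univ_two, a2, a3, b2, b3] <;> ring

theorem par_fix (a s : ℝ) (z : UpperHalfPlane) (h : par a s • z = z) : s = 0 := by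
  obtain ⟨h1, h2⟩ := fix_eq _ z h
  simp [par] at h1 h2
  by_contra hs
  have e1 : s * (a - z.re) = 0 := by linarith
  have e2 : a = z.re := by have := (mul_eq_zero.1 e1).resolve_left hs; linarith
  have hz := z.im_pos
  rcases h2 with h2 | h2
  · rw [e2] at h2; nlinarith
  · exact hs h2

end Pool.Agent.H8.Half
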