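import Mathlib

set_option autoImplicit false

namespace Pool.Agent.H8.Shd

open Set Filter Topology Function

variable {J : Type}

lemma cyl {O : Set (J → Bool)} (hO : IsOpen O) {y : J → Bool} (hy : y ∈ O) :
    ∃ F : Set J, F.Finite ∧ ∀ w : J → Bool, (∀ j ∈ F, w j = y j) → w ∈ O := by
  obtain ⟨I, u, h1, h2⟩ := isOpen_pi_iff.1 hO y hy
  exact ⟨I, I.finite_toSet, fun w hw => h2 fun j hj => hw j hj ▸ (h1 j hj).2⟩

lemma clo {O : Set (J → Bool)} {z : J → Bool} :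
    z ∈ closure O ↔ ∀ F : Set J, F.Finite → ∃ w ∈ O, ∀ j ∈ F, w j = z j := by
  refine ⟨fun h F hF => ?_, fun h => mem_closure_iff.2 fun U hU hz => ?_⟩
  · obtain ⟨w, h1, h2⟩ := mem_closure_iff.1 h (F.pi fun j => {z j})
      (isOpen_set_pi hF fun _ _ => isOpen_discrete _) fun _ _ => rfl
    exact ⟨w, h2, h1⟩
  · obtain ⟨F, hF, h1⟩ := cyl hU hz
    obtain ⟨w, h2, h3⟩ := h F hF
    exact ⟨w, h1 w h3, h2⟩

lemma dep {O : Set (J → Bool)} (hO : IsOpen O) : ∃ C : Set J, C.Countable ∧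
    ∀ z ∈ closure O, ∀ z' : J → Bool, (∀ j ∈ C, z' j = z j) → z' ∈ closure O := by
  classical
  have : ∀ F T : Set J, ∃ (D : Set J) (w : J → Bool), D.Finite ∧
      ((∃ y ∈ O, ∀ j ∈ F, y j = true ↔ j ∈ T) → (∀ j ∈ F, w j = true ↔ j ∈ T) ∧
        ∀ y : J → Bool, (∀ j ∈ D, y j = w j) → y ∈ O) := by
    intro F T
    by_cases h : ∃ y ∈ O, ∀ j ∈ F, y j = true ↔ j ∈ T
    · obtain ⟨y, h1, h2⟩ := h
      obtain ⟨D, h3, h4⟩ := cyl hO h1
      exact ⟨D, y, h3, fun _ => ⟨h2, h4⟩⟩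
    · exact ⟨∅, fun _ => true, finite_empty, fun h' => absurd h' h⟩
  choose D w hD hw using this
  let C : ℕ → Set J := fun n => Nat.rec ∅ (fun _ c => c ∪
    ⋃ F ∈ {t : Set J | t.Finite ∧ t ⊆ c}, ⋃ T ∈ {t : Set J | t.Finite ∧ t ⊆ c}, D F T) n
  have hc : ∀ n, (C n).Countable := fun n => by
    induction n with
    | zero => exact countable_empty
    | succ n ih => exact ih.union ((countable_setOf_finite_subset ih).biUnion fun F _ =>
        (countable_setOf_finite_subset ih).biUnion fun T _ => (hD F T).countable)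
  have hm : Monotone C := monotone_nat_of_le_succ fun n => subset_union_left
  refine ⟨⋃ n, C n, countable_iUnion hc, fun z hz z' hz' => clo.2 fun F hF => ?_⟩
  have hF' := hF.inter_of_left (⋃ n, C n)
  obtain ⟨n, hn⟩ := hm.directed_le.exists_mem_subset_of_finset_subset_biUnion
    (s := hF'.toFinset) (by simp)
  rw [Finite.coe_toFinset] at hn
  obtain ⟨y, h1, h2⟩ := clo.1 hz _ hF'
  obtain ⟨h3, h4⟩ := hw (F ∩ ⋃ n, C n) {j ∈ F ∩ ⋃ n, C n | z j = true}
    ⟨y, h1, fun j hj => by rw [h2 j hj]; exact ⟨fun h => ⟨hj, h⟩, fun h => h.2⟩⟩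
  refine ⟨fun j => if j ∈ D (F ∩ ⋃ n, C n) {j ∈ F ∩ ⋃ n, C n | z j = true} then
    w (F ∩ ⋃ n, C n) {j ∈ F ∩ ⋃ n, C n | z j = true} j else z' j,
    h4 _ fun j hj => if_pos hj, fun j hj => ?_⟩
  simp only
  split_ifs with h5
  · have h6 : j ∈ ⋃ n, C n := mem_iUnion.2 ⟨n + 1, Or.inr (mem_iUnion₂.2 ⟨_, ⟨hF', hn⟩,
      mem_iUnion₂.2 ⟨_, ⟨hF'.subset (sep_subset _ _), (sep_subset _ _).trans hn⟩, h5⟩⟩)⟩
    rw [hz' j h6, Bool.eq_iff_iff, h3 j ⟨hj, h6⟩]
    exact ⟨fun h => h.2, fun h => ⟨⟨hj, h6⟩, h⟩⟩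
  · rfl

def X (J : Type) : Set (J → Bool) := {x | ¬ {j | x j = true}.Countable}

lemma ext [Uncountable J] {C : Set J} (hC : C.Countable) (z : J → Bool) :
    ∃ z' ∈ X J, ∀ j ∈ C, z' j = z j := by
  classical
  refine ⟨fun j => if j ∈ C then z j else true, fun h => not_countable_univ
    ((hC.union h).mono fun j _ => ?_), fun j hj => if_pos hj⟩
  by_cases hj : j ∈ C
  exacts [Or.inl hj, Or.inr (if_neg hj)]

lemma inj [Uncountable J] :
    Injective (stoneCechExtend (continuous_subtype_val (p := (· ∈ X J)))) := by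
  intro p q hpq
  by_contra hne
  obtain ⟨F, h0, h1, -⟩ := exists_continuous_zero_one_of_isClosed (isClosed_singleton (x := p))
    (isClosed_singleton (x := q)) (disjoint_singleton.2 hne)
  have key : ∀ (r : StoneCech (X J)) (W : Set ℝ), IsOpen W → F r ∈ W → ∃ C : Set J, C.Countable ∧
      ∀ z' : X J, (∀ j ∈ C, z'.1 j = stoneCechExtend (continuous_subtype_val (p := (· ∈ X J))) r j)
        → F (stoneCechUnit z') ∈ closure W := by
    intro r W hW hr
    have hc : Continuous fun x : X J => F (stoneCechUnit x) :=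
      F.continuous.comp continuous_stoneCechUnit
    obtain ⟨O, hO, hO'⟩ := isOpen_induced_iff.1 (hW.preimage hc)
    obtain ⟨C, hC, h2⟩ := dep hO
    refine ⟨C, hC, fun z' hz' => ?_⟩
    have h3 : stoneCechExtend (continuous_subtype_val (p := (· ∈ X J))) r ∈ closure O := by
      refine mem_closure_iff.2 fun U hU hrU => ?_
      obtain ⟨x, h4, h5⟩ := denseRange_stoneCechUnit.exists_mem_open
        ((hU.preimage (continuous_stoneCechExtend _)).inter (hW.preimage F.continuous))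
        ⟨r, hrU, hr⟩
      refine ⟨x.1, ?_, (hO'.symm ▸ h5 : x ∈ Subtype.val ⁻¹' O)⟩
      rwa [mem_preimage, stoneCechExtend_stoneCechUnit] at h4
    have h4 : z' ∈ closure (Subtype.val ⁻¹' O : Set (X J)) := by
      rw [closure_subtype]
      refine clo.2 fun G hG => ?_
      obtain ⟨w, h5, h6⟩ := clo.1 (h2 _ h3 _ hz') G hG
      obtain ⟨D, h7, h8⟩ := cyl hO h5
      obtain ⟨w', h9, h10⟩ := ext (h7.union hG).countable w
      exact ⟨w', ⟨⟨w', h9⟩, h8 _ fun j hj => h10 j (Or.inl hj), rfl⟩,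
        fun j hj => (h10 j (Or.inr hj)).trans (h6 j hj)⟩
    rw [hO'] at h4
    exact closure_mono (image_preimage_subset _ _) (image_closure_subset_closure_image hc
      ⟨z', h4, rfl⟩)
  obtain ⟨C, hC, h2⟩ := key p (Iio (1 / 3)) isOpen_Iio (by rw [h0 rfl]; norm_num)
  obtain ⟨D, hD, h3⟩ := key q (Ioi (2 / 3)) isOpen_Ioi (by rw [h1 rfl]; norm_num)
  obtain ⟨z, hz, h4⟩ := ext (hC.union hD)
    (stoneCechExtend (continuous_subtype_val (p := (· ∈ X J))) p)
  have h5 := h2 ⟨z, hz⟩ fun j hj => h4 j (Or.inl hj)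
  have h6 := h3 ⟨z, hz⟩ fun j hj => hpq ▸ h4 j (Or.inr hj)
  rw [closure_Iio] at h5
  rw [closure_Ioi] at h6
  have := le_trans (mem_Ici.1 h6) (mem_Iic.1 h5)
  norm_num at this

lemma shd {I : Type} [Uncountable I] (U : ℕ → Set (X (I × ℕ)))
    (hU : ∀ n, IsOpen (U n) ∧ (U n).Nonempty) : ∃ x : ℕ → X (I × ℕ), (∀ n, x n ∈ U n) ∧
      ∀ φ : ℕ → ℕ, StrictMono φ → ∀ z, ¬ Tendsto (x ∘ φ) atTop (𝓝 z) := by
  classical
  choose O hO hO' using fun n => isOpen_induced_iff.1 (hU n).1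
  choose x hx using fun n => (hU n).2
  choose F hF hF' using fun n => cyl (hO n) (show x n ∈ Subtype.val ⁻¹' O n from hO' n ▸ hx n)
  have hC : (⋃ n, F n).Countable := countable_iUnion fun n => (hF n).countable
  have hy : ∀ n, (fun j => if j ∈ ⋃ n, F n then (x n).1 j else decide (j.2 = n)) ∈ X (I × ℕ) := by
    refine fun n h => not_countable_univ (((hC.union h).image Prod.fst).mono fun i _ => ?_)
    refine ⟨(i, n), ?_, rfl⟩
    by_cases hj : (i, n) ∈ ⋃ n, F n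
    exacts [Or.inl hj, Or.inr ((if_neg hj).trans (by simp))]
  refine ⟨fun n => ⟨_, hy n⟩,
    fun n => ?_, fun φ hφ z hz => z.2 (hC.mono fun j hj => by_contra fun hj' => ?_)⟩
  · rw [← hO' n]
    exact hF' n _ fun j hj => if_pos (mem_iUnion.2 ⟨n, hj⟩)
  · have := tendsto_pi_nhds.1 ((continuous_subtype_val.tendsto z).comp hz) j
    rw [nhds_discrete, tendsto_pure, show z.1 j = true from hj] at this
    obtain ⟨k, h1, h2⟩ := (this.and (hφ.tendsto_atTop.eventually (eventually_gt_atTop j.2))).exists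
    simp only [comp, if_neg hj', decide_eq_true_eq] at h1
    omega

lemma seq (h : ∀ 𝒜 : Set (Set ℕ), Cardinal.mk 𝒜 ≤ Cardinal.aleph 1 → ∃ S : Set ℕ, S.Infinite ∧
    ∀ A ∈ 𝒜, (S ∩ A).Finite ∨ (S \ A).Finite) (hJ : Cardinal.mk J ≤ Cardinal.aleph 1)
    (x : ℕ → J → Bool) : ∃ φ : ℕ → ℕ, StrictMono φ ∧ ∃ z, Tendsto (x ∘ φ) atTop (𝓝 z) := by
  classical
  obtain ⟨S, hS, h1⟩ := h (range fun j => {n | x n j = true}) (Cardinal.mk_range_le.trans hJ)
  have hφ := Nat.nth_strictMono hS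
  have h2 : ∀ T : Set ℕ, T.Finite → ∀ᶠ k in atTop, Nat.nth (· ∈ S) k ∉ T := fun T hT =>
    hφ.tendsto_atTop.eventually (Nat.cofinite_eq_atTop ▸ hT.compl_mem_cofinite)
  refine ⟨_, hφ, fun j => decide (S \ {n | x n j = true}).Finite, tendsto_pi_nhds.2 fun j => ?_⟩
  rw [nhds_discrete, tendsto_pure]
  by_cases h3 : (S \ {n | x n j = true}).Finite
  · filter_upwards [h2 _ h3] with k hk
    rw [decide_eq_true h3]
    exact by_contra fun h4 => hk ⟨Nat.nth_mem_of_infinite hS k, h4⟩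
  · filter_upwards [h2 _ ((h1 _ ⟨j, rfl⟩).resolve_right h3)] with k hk
    rw [decide_eq_false h3]
    exact Bool.eq_false_iff.2 fun h4 => hk ⟨Nat.nth_mem_of_infinite hS k, h4⟩

end Pool.Agent.H8.Shd
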