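import Mathlib
import Pool.Agent.H8.Rec
import Pool.Agent.H8.Shd

set_option autoImplicit false

namespace Pool.Agent.H8.Mich

open Set Filter Topology Function Pool.Agent.H8.SG

lemma step (P : Set (Set ℕ)) (g : ℕ → ℕ) (hc : P.Countable) (hi : ∀ y ∈ P, y.Infinite)
    (hd : ∀ a ∈ P, ∀ b ∈ P, (a \ b).Finite ∨ (b \ a).Finite) : ∃ S : Set ℕ, S.Infinite ∧
      (∀ y ∈ P, (S \ y).Finite ∧ S ≠ y) ∧ ∃ᶠ n in atTop, ∀ i ∈ S, i < n ∨ g n ≤ i := by
  obtain ⟨e, he⟩ := (hc.insert univ).exists_eq_range (insert_nonempty _ _)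
  have h0 : ∀ n, e n = univ ∨ e n ∈ P := fun n => (he ▸ ⟨n, rfl⟩ : e n ∈ insert univ P)
  have : ∀ n, ∃ w ∈ insert univ P, ∀ k < n, (w \ e k).Finite := by
    intro n
    induction n with
    | zero => exact ⟨univ, Or.inl rfl, fun k hk => absurd hk (Nat.not_lt_zero _)⟩
    | succ n ih =>
      obtain ⟨w, hw, h1⟩ := ih
      have : (w \ e n).Finite ∨ (e n \ w).Finite := by
        rcases h0 n with h2 | h2
        · simp [h2]
        rcases hw with rfl | hw
        exacts [by simp, hd _ hw _ h2]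
      rcases this with h2 | h2
      · refine ⟨w, hw, fun k hk => ?_⟩
        rcases Nat.lt_succ_iff_lt_or_eq.1 hk with h3 | rfl
        exacts [h1 k h3, h2]
      · refine ⟨e n, h0 n, fun k hk => ?_⟩
        rcases Nat.lt_succ_iff_lt_or_eq.1 hk with h3 | rfl
        · exact (h2.union (h1 k h3)).subset fun x hx => by
            by_cases h : x ∈ w
            exacts [Or.inr ⟨h, hx.2⟩, Or.inl ⟨hx.1, h⟩]
        · simp
  have : ∀ n m, ∃ s, m < s ∧ g (m + 1) < s ∧ ∀ k < n, s ∈ e k := fun n m => by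
    obtain ⟨w, hw, h1⟩ := this n
    have h2 : w.Infinite := hw.elim (fun h => h ▸ infinite_univ) (hi w)
    obtain ⟨s, ⟨h3, h4⟩, h5⟩ := (h2.diff ((finite_lt_nat n).biUnion h1)).exists_gt
      (max m (g (m + 1)))
    exact ⟨s, lt_of_le_of_lt (le_max_left _ _) h5, lt_of_le_of_lt (le_max_right _ _) h5,
      fun k hk => by_contra fun h6 => h4 (mem_iUnion₂.2 ⟨k, hk, h3, h6⟩)⟩
  choose F h1 h2 h3 using this
  let s : ℕ → ℕ := fun n => Nat.rec 0 (fun n m => F n m) n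
  have hs : StrictMono s := strictMono_nat_of_lt_succ fun n => h1 n _
  have h4 : ∀ k n, k + 1 < n → s n ∈ e k := fun k n hn => by
    obtain ⟨n, rfl⟩ : ∃ m, n = m + 1 := ⟨n - 1, by omega⟩
    exact h3 n _ k (by omega)
  refine ⟨range fun n => s (2 * n), infinite_range_of_injective fun a b h => by
    have := hs.injective h; omega, fun y hy => ?_, frequently_atTop.2 fun m =>
      ⟨s m + 1, (hs.id_le m).trans (Nat.le_succ _), ?_⟩⟩
  · obtain ⟨k, rfl⟩ : y ∈ range e := he ▸ Or.inr hy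
    refine ⟨((finite_le_nat (k + 1)).image s).subset ?_, fun h => ?_⟩
    · rintro _ ⟨⟨n, rfl⟩, hn⟩
      exact ⟨_, not_lt.1 fun h => hn (h4 _ _ h), rfl⟩
    · obtain ⟨n, hn⟩ : s (2 * k + 3) ∈ range fun n => s (2 * n) := by
        rw [h]; exact h4 k (2 * k + 3) (by omega)
      have : 2 * n = 2 * k + 3 := @StrictMono.injective ℕ ℕ _ _ s hs _ _ hn
      omega
  · rintro _ ⟨n, rfl⟩
    rcases le_or_gt (2 * n) m with h | h
    · exact Or.inl (Nat.lt_succ_of_le (hs.monotone h))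
    · exact Or.inr ((h2 m _).le.trans (hs.monotone (Nat.succ_le_of_lt h)))

abbrev J := ℕ → ℕ

instance : Uncountable J := ⟨fun _ => by
  obtain ⟨f, hf⟩ := exists_surjective_nat (ℕ → ℕ)
  obtain ⟨n, hn⟩ := hf fun k => f k k + 1
  have := congrFun hn n
  omega⟩

lemma tower (h : Cardinal.continuum.{0} = Cardinal.aleph 1) : ∃ (r : J → J → Prop)
    (x : J → Set ℕ), IsWellOrder J r ∧ (∀ a, {b | r b a}.Countable) ∧ ∀ a, (x a).Infinite ∧
      (∀ b, r b a → (x a \ x b).Finite ∧ x a ≠ x b) ∧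
        ∃ᶠ n in atTop, ∀ i ∈ x a, i < n ∨ a n ≤ i := by
  obtain ⟨r, wo, hseg⟩ := wo_of_CH h J (card_seq ℕ (card_ct ℕ))
  have : ∀ (g : J) (P : Set (Set ℕ)), ∃ S : Set ℕ, P.Countable → (∀ y ∈ P, y.Infinite) →
      (∀ a ∈ P, ∀ b ∈ P, (a \ b).Finite ∨ (b \ a).Finite) → S.Infinite ∧
      (∀ y ∈ P, (S \ y).Finite ∧ S ≠ y) ∧ ∃ᶠ n in atTop, ∀ i ∈ S, i < n ∨ g n ≤ i := by
    intro g P
    by_cases hc : P.Countable ∧ (∀ y ∈ P, y.Infinite) ∧
      ∀ a ∈ P, ∀ b ∈ P, (a \ b).Finite ∨ (b \ a).Finite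
    · exact (step P g hc.1 hc.2.1 hc.2.2).imp fun S hS _ _ _ => hS
    · exact ⟨∅, fun a b c => absurd ⟨a, b, c⟩ hc⟩
  choose F hF using this
  let x : J → Set ℕ := wo.wf.fix fun a ih => F a (range fun b : {b // r b a} => ih b.1 b.2)
  have hx : ∀ a, x a = F a (range fun b : {b // r b a} => x b.1) := fun a => wo.wf.fix_eq _ a
  clear_value x
  refine ⟨r, x, wo, hseg, fun a => ?_⟩
  induction a using wo.wf.induction with
  | _ a ih =>
    haveI : Countable {b // r b a} := (hseg a).to_subtype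
    have := hF a _ (countable_range fun b : {b // r b a} => x b.1) (by
        rintro _ ⟨b, rfl⟩
        exact (ih _ b.2).1) (by
        rintro _ ⟨b, rfl⟩ _ ⟨c, rfl⟩
        rcases trichotomous_of r b.1 c.1 with h | h | h
        · exact Or.inr ((ih _ c.2).2.1 _ h).1
        · exact Or.inl (by simp [h])
        · exact Or.inl ((ih _ b.2).2.1 _ h).1)
    rw [← hx a] at this
    exact ⟨this.1, fun b hb => this.2.1 _ ⟨⟨b, hb⟩, rfl⟩, this.2.2⟩

def pr (x : J → Set ℕ) : J ⊕ Finset ℕ → Set ℕ := Sum.elim x fun s => (s : Set ℕ)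

open Classical in
noncomputable def φ (x : J → Set ℕ) (p : J ⊕ Finset ℕ) : ℕ ⊕ J → Bool :=
  Sum.elim (fun i => decide (i ∈ pr x p)) fun b => decide (p = Sum.inl b)

lemma nb {x : J → Set ℕ} (hx : ∀ a, (x a).Infinite) {O : Set (ℕ ⊕ J → Bool)} (hO : IsOpen O)
    {s : Finset ℕ} (hs : φ x (Sum.inr s) ∈ O) :
    ∀ᶠ N in atTop, ∀ p, (∀ i < N, i ∈ pr x p ↔ i ∈ s) → φ x p ∈ O := by
  obtain ⟨D, hD, h1⟩ := Shd.cyl hO hs
  have : ∀ j, ∀ᶠ N in atTop, ∀ p, (∀ i < N, i ∈ pr x p ↔ i ∈ s) →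
      φ x p j = φ x (Sum.inr s) j := by
    rintro (i | b)
    · filter_upwards [eventually_gt_atTop i] with N hN p hp
      simp only [φ, Sum.elim_inl, decide_eq_decide]
      exact hp i hN
    · obtain ⟨m, h2, h3⟩ := (hx b).exists_notMem_finset s
      filter_upwards [eventually_gt_atTop m] with N hN p hp
      simp only [φ, Sum.elim_inr, decide_eq_decide]
      exact ⟨fun h => by subst h; exact absurd ((hp m hN).1 h2) h3, fun h => by cases h⟩
  filter_upwards [(eventually_all_finite hD).2 fun j _ => this j] with N hN p hp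
  exact h1 _ fun j hj => hN j hj p hp

lemma gam {r : J → J → Prop} {x : J → Set ℕ} (wo : IsWellOrder J r)
    (hseg : ∀ a, {b | r b a}.Countable) (hx : ∀ a, (x a).Infinite ∧
      (∀ b, r b a → (x a \ x b).Finite ∧ x a ≠ x b) ∧ ∃ᶠ n in atTop, ∀ i ∈ x a, i < n ∨ a n ≤ i)
    {A : Type} (O : ℕ → A → Set (ℕ ⊕ J → Bool)) (hO : ∀ n g, IsOpen (O n g))
    (hω : ∀ n, ∀ E : Set (J ⊕ Finset ℕ), E.Finite → ∃ g, ∀ p ∈ E, φ x p ∈ O n g) :
    ∃ (n : ℕ → ℕ) (g : ℕ → A), (∀ j, j ≤ n j) ∧ ∀ p, ∀ᶠ j in atTop, φ x p ∈ O (n j) (g j) := by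
  classical
  choose h hh using fun c => countable_iff_exists_injOn.1 (hseg c)
  have : ∀ (c : J) (n : ℕ), ∃ g N, (∀ b, r b c → h c b ≤ n → φ x (Sum.inl b) ∈ O n g) ∧
      ∀ p, (∀ i ∈ pr x p, i < n ∨ N ≤ i) → φ x p ∈ O n g := fun c n => by
    have hf : {b | r b c ∧ h c b ≤ n}.Finite := Finite.of_finite_image
      ((finite_le_nat n).subset (by rintro _ ⟨b, hb, rfl⟩; exact hb.2))
      ((hh c).mono fun b hb => hb.1)
    obtain ⟨g, hg⟩ := hω n _ ((hf.image Sum.inl).union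
      ((Finset.range n).powerset.finite_toSet.image Sum.inr))
    obtain ⟨N, hN⟩ := (((Finset.range n).powerset.eventually_all).2 fun s hs =>
      nb (fun a => (hx a).1) (hO n g) (hg _ (Or.inr ⟨s, hs, rfl⟩))).exists
    refine ⟨g, N, fun b h1 h2 => hg _ (Or.inl ⟨b, ⟨h1, h2⟩, rfl⟩), fun p hp =>
      hN ((Finset.range n).filter (· ∈ pr x p))
        (Finset.mem_powerset.2 (Finset.filter_subset _ _)) p fun i hi => ?_⟩
    simp only [Finset.mem_filter, Finset.mem_range]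
    exact ⟨fun h => ⟨(hp i h).resolve_right (not_le.2 hi), h⟩, fun h => h.2⟩
  choose g G h1 h2 using this
  have ub : ∀ β : ℕ → J, ∃ a, ∀ n, r (β n) a := by
    intro β
    by_contra hc
    push Not at hc
    refine not_countable_univ ((countable_iUnion fun n =>
      (hseg (β n)).insert (β n)).mono fun a _ => ?_)
    obtain ⟨n, hn⟩ := hc a
    rcases trichotomous_of r (β n) a with h | h | h
    exacts [absurd h hn, mem_iUnion.2 ⟨n, Or.inl h.symm⟩, mem_iUnion.2 ⟨n, Or.inr h⟩]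
  choose u hu using fun c : J => ub fun n => if n = 0 then c else G c
  let c : ℕ → J := fun j => u^[j] 0
  have hc : ∀ j, c (j + 1) = u (c j) := fun j => iterate_succ_apply' _ _ _
  have hm : ∀ i j, i ≤ j → ∀ b, r b (c i) → r b (c j) := fun i j hij b hb => by
    induction hij with
    | refl => exact hb
    | step _ ih => rw [hc]; exact trans_of r ih (hu _ 0)
  obtain ⟨d, hd, hd'⟩ := wo.wf.has_min {a | ∀ j, r (c j) a} (ub c)
  obtain ⟨q, hq⟩ := ((countable_iUnion fun j => hseg (c j)).insert 0).exists_eq_range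
    (insert_nonempty _ _)
  have : ∀ j, ∃ n, (∀ i ∈ x d, i < n ∨ G (c j) n ≤ i) ∧ j ≤ n ∧ ∀ i ≤ j, h (c j) (q i) ≤ n := by
    intro j
    obtain ⟨M, hM⟩ := ((hx d).2.1 (G (c j)) (trans_of r (hc j ▸ hu (c j) 1) (hd (j + 1)))).1.bddAbove
    obtain ⟨n, h3, h4, h5, h6⟩ := ((hx (G (c j))).2.2.and_eventually ((eventually_gt_atTop M).and
      ((eventually_ge_atTop j).and ((eventually_all_finite (finite_le_nat j)).2
        fun i _ => eventually_ge_atTop (h (c j) (q i)))))).exists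
    refine ⟨n, fun i hi => ?_, h5, h6⟩
    by_cases h7 : i ∈ x (G (c j))
    exacts [h3 i h7, Or.inl ((hM ⟨hi, h7⟩).trans_lt h4)]
  choose n h3 h4 h5 using this
  have h6 : ∀ p, (pr x p \ x d).Finite → ∀ᶠ j in atTop, φ x p ∈ O (n j) (g (c j) (n j)) :=
    fun p hp => by
      obtain ⟨M, hM⟩ := hp.bddAbove
      filter_upwards [eventually_gt_atTop M] with j hj
      refine h2 _ _ p fun i hi => ?_
      by_cases h7 : i ∈ x d
      exacts [h3 j i h7, Or.inl ((hM ⟨hi, h7⟩).trans_lt (hj.trans_le (h4 j)))]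
  refine ⟨n, fun j => g (c j) (n j), h4, ?_⟩
  rintro (b | s)
  · by_cases h7 : ∃ j, r b (c j)
    · obtain ⟨j, hj⟩ := h7
      obtain ⟨i, rfl⟩ : b ∈ range q := hq ▸ Or.inr (mem_iUnion.2 ⟨j, hj⟩)
      filter_upwards [eventually_ge_atTop i, eventually_ge_atTop j] with k h8 h9
      exact h1 _ _ _ (hm j k h9 _ hj) (h5 k i h8)
    · have h8 : ∀ j, r (c j) b := fun j => by
        rcases trichotomous_of r (c j) b with h | h | h
        · exact h
        · exact absurd ⟨j + 1, by rw [hc, ← h]; exact hu _ 0⟩ h7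
        · exact absurd ⟨j, h⟩ h7
      refine h6 _ ?_
      rcases trichotomous_of r d b with h | h | h
      · exact ((hx b).2.1 d h).1
      · simp [pr, h]
      · exact absurd h (hd' b h8)
  · exact h6 _ (s.finite_toSet.subset diff_subset)

end Pool.Agent.H8.Mich
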