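import Mathlib
import Pool.Agent.H8.Mich

set_option autoImplicit false

namespace Pool.Agent.H8.Hfc

open Set Filter Topology Function Pool.Agent.H8.SG Pool.Agent.H8.Mich
open scoped Cardinal

abbrev K := J → Bool
abbrev Pt := Finset J × Finset J

def cy (p : Pt) : Set K := {z | ∀ j ∈ p.1, z j = true ↔ j ∈ p.2}

lemma cy_open (p : Pt) : IsOpen (cy p) := by
  have : cy p = (p.1 : Set J).pi fun j => {b | b = true ↔ j ∈ p.2} := rfl
  rw [this]
  exact isOpen_set_pi p.1.finite_toSet fun _ _ => isOpen_discrete _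

lemma cy_ne (p : Pt) : (cy p).Nonempty := by
  classical
  exact ⟨fun j => decide (j ∈ p.2), fun j _ => by simp⟩

lemma ex_cy {O : Set K} (hO : IsOpen O) {y : K} (hy : y ∈ O) : ∃ p, y ∈ cy p ∧ cy p ⊆ O := by
  classical
  obtain ⟨F, hF, h⟩ := Shd.cyl hO hy
  refine ⟨(hF.toFinset, hF.toFinset.filter fun j => y j = true), fun j hj => by
    simp only [Finset.mem_filter]; exact ⟨fun h => ⟨hj, h⟩, fun h => h.2⟩, fun z hz => h z fun j hj => ?_⟩
  rw [Bool.eq_iff_iff, hz j (hF.mem_toFinset.2 hj)]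
  simp [hj]

def Over (C : Set J) : Set Pt := {p | ↑p.1 ⊆ C ∧ ↑p.2 ⊆ C}

lemma over_ct {C : Set J} (hC : C.Countable) : (Over C).Countable := by
  have : {s : Finset J | ↑s ⊆ C}.Countable :=
    Set.Countable.mono (fun s hs => show (s : Set J).Finite ∧ ↑s ⊆ C from ⟨s.finite_toSet, hs⟩)
      ((countable_setOf_finite_subset hC).preimage (f := fun s : Finset J => (s : Set J))
        Finset.coe_injective)
  exact this.prod this

lemma dense_gen (S : Set Pt) (C : Set J) (hS : ∀ p ∈ S, ↑p.1 ⊆ C) :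
    IsOpen {z | (∃ p ∈ S, z ∈ cy p) ∨ ∃ q ∈ Over C, z ∈ cy q ∧ ∀ p ∈ S, Disjoint (cy q) (cy p)} ∧
    Dense {z | (∃ p ∈ S, z ∈ cy p) ∨ ∃ q ∈ Over C, z ∈ cy q ∧ ∀ p ∈ S, Disjoint (cy q) (cy p)} := by
  classical
  refine ⟨isOpen_iff_mem_nhds.2 ?_, dense_iff_inter_open.2 fun U hU ⟨y, hy⟩ => ?_⟩
  · rintro z (⟨p, h1, h2⟩ | ⟨q, h1, h2, h3⟩)
    · exact mem_of_superset ((cy_open p).mem_nhds h2) fun w hw => Or.inl ⟨p, h1, hw⟩
    · exact mem_of_superset ((cy_open q).mem_nhds h2) fun w hw => Or.inr ⟨q, h1, hw, h3⟩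
  by_cases h : ∃ z ∈ U, ∃ p ∈ S, z ∈ cy p
  · obtain ⟨z, h1, h2⟩ := h
    exact ⟨z, h1, Or.inl h2⟩
  obtain ⟨q, h1, h2⟩ := ex_cy hU hy
  refine ⟨y, hy, Or.inr ⟨(q.1.filter (· ∈ C), q.2.filter (· ∈ C)),
    ⟨fun j hj => (Finset.mem_filter.1 hj).2, fun j hj => (Finset.mem_filter.1 hj).2⟩,
    fun j hj => ?_, fun p hp => Set.disjoint_left.2 fun w h3 h4 => h
      ⟨fun j => if j ∈ C then w j else y j, h2 fun j hj => ?_, p, hp, fun j hj => ?_⟩⟩⟩
  · rw [h1 j (Finset.mem_filter.1 hj).1]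
    exact ⟨fun h => Finset.mem_filter.2 ⟨h, (Finset.mem_filter.1 hj).2⟩,
      fun h => (Finset.mem_filter.1 h).1⟩
  · beta_reduce
    split_ifs with h5
    · rw [h3 j (Finset.mem_filter.2 ⟨hj, h5⟩)]
      simp [h5]
    · exact h1 j hj
  · beta_reduce
    rw [if_pos (hS p hp hj)]
    exact h4 j hj

def supp {n : ℕ} (σ : Set (Fin n → Pt)) : Set J := ⋃ B ∈ σ, ⋃ l, ↑(B l).1

def Sel {n : ℕ} (σ : Set (Fin n → Pt)) (l : Fin n) (R : Fin n → Set K) : Set Pt :=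
  {p | ∃ B ∈ σ, B l = p ∧ ∀ m ≠ l, (R m ∩ cy (B m)).Nonempty}

def Gen (r : J → J → Prop) (x : J → K) {n : ℕ} (σ : Set (Fin n → Pt)) (a : J) : Prop :=
  ∀ l (R : Fin n → Set K), (∀ m, R m ∈ cy '' Over (supp σ) ∨ ∃ c, r c a ∧ R m = {x c}) →
    (∃ p ∈ Sel σ l R, x a ∈ cy p) ∨
      ∃ q ∈ Over (supp σ), x a ∈ cy q ∧ ∀ p ∈ Sel σ l R, Disjoint (cy q) (cy p)

lemma sur (α : Type) [Nonempty α] (h : #α ≤ 𝔠) : ∃ f : J → α, Surjective f := by
  obtain ⟨f⟩ : Nonempty (α ↪ J) := by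
    rw [← Cardinal.le_def]
    exact h.trans (by simp)
  exact ⟨invFun f, invFun_surjective f.injective⟩

lemma build (h : Cardinal.continuum.{0} = Cardinal.aleph 1) : ∃ (r : J → J → Prop) (x : J → K),
    IsWellOrder J r ∧ (∀ a, {b | r b a}.Countable) ∧
    (∀ (p : Pt) (Q : Set J), Q.Countable → ∃ a ∉ Q, x a ∈ cy p) ∧
    ∀ n (σ : Set (Fin n → Pt)), σ.Countable → ∃ b, ∀ a, r b a → Gen r x σ a := by
  have hJ : #J ≤ 𝔠 := card_seq ℕ (card_ct ℕ)
  have hF : #(Finset J) ≤ 𝔠 := by rwa [Cardinal.mk_finset_of_infinite]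
  have hP := card_prod hF hF
  obtain ⟨r, wo, hseg⟩ := wo_of_CH h J hJ
  obtain ⟨ρ, hρ⟩ := sur _ (card_prod hP hJ)
  choose κ hκ using fun n => sur (ℕ → Option (Fin n → Pt)) (card_seq _ (by
    rw [Cardinal.mk_option, ← Cardinal.continuum_add_self]
    refine add_le_add ?_ (Cardinal.one_le_aleph0.trans Cardinal.aleph0_le_continuum)
    rw [← Cardinal.power_def, ← Cardinal.continuum_power_aleph0]
    exact (Cardinal.power_le_power_right hP).trans
      (Cardinal.power_le_power_left Cardinal.continuum_ne_zero Cardinal.mk_le_aleph0)))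
  let s : ∀ n, J → Set (Fin n → Pt) := fun n b => {B | some B ∈ range (κ n b)}
  have hs : ∀ n b, (supp (s n b)).Countable := fun n b =>
    ((countable_range _).preimage (Option.some_injective _)).biUnion fun B _ =>
      countable_iUnion fun l => (B l).1.countable_toSet
  have : ∀ (a : J) (P : Set K), ∃ z, P.Countable → z ∈ cy (ρ a).1 ∧ ∀ n b, r b a →
      ∀ l (R : Fin n → Set K), (∀ m, R m ∈ cy '' Over (supp (s n b)) ∪ (fun y => {y}) '' P) →
      (∃ p ∈ Sel (s n b) l R, z ∈ cy p) ∨ ∃ q ∈ Over (supp (s n b)), z ∈ cy q ∧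
        ∀ p ∈ Sel (s n b) l R, Disjoint (cy q) (cy p) := by
    intro a P
    by_cases hP : P.Countable
    swap
    · exact ⟨fun _ => true, fun h => absurd h hP⟩
    have : ∀ᶠ z in residual K, ∀ n, ∀ b ∈ {b | r b a}, ∀ l, ∀ R ∈ {R : Fin n → Set K |
        ∀ m, R m ∈ cy '' Over (supp (s n b)) ∪ (fun y => {y}) '' P},
        (∃ p ∈ Sel (s n b) l R, z ∈ cy p) ∨ ∃ q ∈ Over (supp (s n b)), z ∈ cy q ∧
          ∀ p ∈ Sel (s n b) l R, Disjoint (cy q) (cy p) :=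
      eventually_countable_forall.2 fun n => (eventually_countable_ball (hseg a)).2 fun b _ =>
        eventually_countable_forall.2 fun l => (eventually_countable_ball (countable_pi fun _ =>
          ((over_ct (hs n b)).image _).union (hP.image _))).2 fun R _ => by
          have := dense_gen (Sel (s n b) l R) (supp (s n b)) (by
            rintro _ ⟨B, hB, rfl, -⟩ j hj
            exact mem_iUnion₂.2 ⟨B, hB, mem_iUnion.2 ⟨l, hj⟩⟩)
          exact residual_of_dense_open this.1 this.2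
    obtain ⟨z, h1, h2⟩ := (dense_of_mem_residual this).inter_open_nonempty _ (cy_open _) (cy_ne _)
    exact ⟨z, fun _ => ⟨h1, h2⟩⟩
  choose F hF using this
  let x : J → K := wo.wf.fix fun a ih => F a (range fun b : {b // r b a} => ih b.1 b.2)
  have hx : ∀ a, x a = F a (range fun b : {b // r b a} => x b.1) := fun a => wo.wf.fix_eq _ a
  clear_value x
  have key := fun a => hF a (range fun b : {b // r b a} => x b.1)
    (haveI : Countable {b // r b a} := (hseg a).to_subtype; countable_range _)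
  simp only [← hx] at key
  refine ⟨r, x, wo, hseg, fun p Q hQ => by_contra fun hc => not_countable_univ
    ((hQ.image fun a => (ρ a).2).mono fun j _ => ?_), fun n σ hσ => ?_⟩
  · obtain ⟨a, ha⟩ := hρ (p, j)
    refine ⟨a, by_contra fun h1 => hc ⟨a, h1, ?_⟩, by simp [ha]⟩
    simpa [ha] using (key a).1
  · obtain ⟨e, he⟩ := ((hσ.image some).insert none).exists_eq_range (insert_nonempty _ _)
    obtain ⟨b, rfl⟩ := hκ n e
    obtain rfl : s n b = σ := Set.ext fun B => by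
      show some B ∈ range _ ↔ _
      rw [← he]
      simp
    refine ⟨b, fun a ha l R hR => (key a).2 n b ha l R fun m => (hR m).imp id ?_⟩
    rintro ⟨c, h1, h2⟩
    exact ⟨_, ⟨⟨c, h1⟩, rfl⟩, h2.symm⟩

lemma down {J' : Type} {r : J' → J' → Prop} (wo : IsWellOrder J' r) {n : ℕ} {σ : Set (Fin n → Pt)}
    (𝒞 : Set Pt) (x : J' → K) (β : Fin n → J') (hβ : Injective β) (G : Finset (Fin n)) :
    (∀ l ∈ G, ∀ R : Fin n → Set K, (∀ m, R m ∈ cy '' 𝒞 ∨ ∃ c, r c (β l) ∧ R m = {x c}) →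
      (∃ p ∈ Sel σ l R, x (β l) ∈ cy p) ∨
        ∃ q ∈ 𝒞, x (β l) ∈ cy q ∧ ∀ p ∈ Sel σ l R, Disjoint (cy q) (cy p)) →
    ∀ q : Fin n → Pt, (∀ l, q l ∈ 𝒞 ∧ x (β l) ∈ cy (q l)) →
      (∀ B ∈ σ, (∀ l ∈ G, x (β l) ∈ cy (B l)) → ∃ l ∉ G, Disjoint (cy (q l)) (cy (B l))) →
      ∃ q : Fin n → Pt, (∀ l, q l ∈ 𝒞 ∧ x (β l) ∈ cy (q l)) ∧
        ∀ B ∈ σ, ∃ l, Disjoint (cy (q l)) (cy (B l)) := by
  classical
  induction G using Finset.strongInduction with
  | H G ih =>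
    intro h1 q h2 h3
    rcases G.eq_empty_or_nonempty with rfl | hG
    · exact ⟨q, h2, fun B hB => (h3 B hB (by simp)).imp fun l hl => hl.2⟩
    letI := linearOrderOfSTO r
    obtain ⟨m, hm, h4⟩ := G.exists_max_image β hG
    rcases h1 m hm (fun l => if l ∈ G ∧ l ≠ m then {x (β l)} else cy (q l)) (fun l => by
        split_ifs with h5
        exacts [Or.inr ⟨β l, lt_of_le_of_ne (h4 l h5.1) (hβ.ne h5.2), rfl⟩,
          Or.inl ⟨_, (h2 l).1, rfl⟩]) with ⟨_, ⟨B, hB, rfl, h5⟩, h6⟩ | ⟨p, h5, h6, h7⟩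
    · obtain ⟨l, h7, h8⟩ := h3 B hB fun l hl => by
        by_cases h : l = m
        · exact h ▸ h6
        · obtain ⟨_, h7, h8⟩ := h5 l h
          beta_reduce at h7
          rw [if_pos ⟨hl, h⟩] at h7
          exact (show _ = _ from h7) ▸ h8
      obtain ⟨w, h9, h10⟩ := h5 l fun h => h7 (h ▸ hm)
      beta_reduce at h9
      rw [if_neg fun h => h7 h.1] at h9
      exact (Set.disjoint_left.1 h8 h9 h10).elim
    refine ih (G.erase m) (Finset.erase_ssubset hm) (fun l hl => h1 l (Finset.mem_of_mem_erase hl))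
      (update q m p) (fun l => ?_) fun B hB h8 => by_contra fun h9 => ?_
    · by_cases h : l = m
      · subst h; rw [update_self]; exact ⟨h5, h6⟩
      · rw [update_of_ne h]; exact h2 l
    · refine h9 ⟨m, Finset.notMem_erase _ _, ?_⟩
      rw [update_self]
      refine h7 _ ⟨B, hB, rfl, fun l hl => ?_⟩
      beta_reduce
      split_ifs with h10
      · exact ⟨_, rfl, h8 l (Finset.mem_erase.2 ⟨hl, h10.1⟩)⟩
      · refine not_disjoint_iff_nonempty_inter.1 fun h11 => h9 ⟨l, fun h => h10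
          ⟨Finset.mem_of_mem_erase h, hl⟩, ?_⟩
        rwa [update_of_ne hl]

lemma closeoff (φ : Finset J → Set J) (hφ : ∀ s, (φ s).Countable) :
    ∃ C : Set J, C.Countable ∧ ∀ s : Finset J, ↑s ⊆ C → φ s ⊆ C := by
  let C : ℕ → Set J := fun n => Nat.rec ∅ (fun _ c => c ∪ ⋃ p ∈ Over c, φ p.1) n
  have hc : ∀ n, (C n).Countable := fun n => by
    induction n with
    | zero => exact countable_empty
    | succ n ih => exact ih.union ((over_ct ih).biUnion fun p _ => hφ _)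
  have hm : Monotone C := monotone_nat_of_le_succ fun n => subset_union_left
  refine ⟨⋃ n, C n, countable_iUnion hc, fun s hs j hj => ?_⟩
  obtain ⟨n, hn⟩ := hm.directed_le.exists_mem_subset_of_finset_subset_biUnion hs
  exact mem_iUnion.2 ⟨n + 1, Or.inr (mem_iUnion₂.2 ⟨(s, s), ⟨hn, hn⟩, hj⟩)⟩

lemma cover {r : J → J → Prop} (wo : IsWellOrder J r) (hseg : ∀ a, {b | r b a}.Countable)
    {x : J → K} {n : ℕ}
    (hx : ∀ σ : Set (Fin n → Pt), σ.Countable → ∃ b, ∀ a, r b a → Gen r x σ a)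
    (B : (Fin n → J) → Fin n → Pt) (F : Finset (Fin n)) : ∀ W : Set (Fin n → J),
      (∀ t ∈ W, Injective t ∧ ∀ l, x (t l) ∈ cy (B t l)) →
      (∀ t ∈ W, ∀ t' ∈ W, ∀ l ∉ F, t l = t' l) →
      ∃ D ⊆ W, D.Countable ∧ ∀ t ∈ W, ∃ d ∈ D, ∀ l, x (t l) ∈ cy (B d l) := by
  classical
  induction F using Finset.strongInduction with
  | H F ih =>
    intro W h1 h2
    rcases W.eq_empty_or_nonempty with rfl | ⟨t₀, ht₀⟩
    · exact ⟨∅, Subset.rfl, countable_empty, by simp⟩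
    have : ∀ q : Fin n → Pt, ∃ d ∈ W, (∃ t ∈ W, ∀ l, x (t l) ∈ cy (q l)) →
        ∀ l, x (d l) ∈ cy (q l) := fun q => by
      by_cases h : ∃ t ∈ W, ∀ l, x (t l) ∈ cy (q l)
      · obtain ⟨t, h3, h4⟩ := h
        exact ⟨t, h3, fun _ => h4⟩
      · exact ⟨t₀, ht₀, fun h' => absurd h' h⟩
    choose G h3 h4 using this
    obtain ⟨C, hC, h5⟩ := closeoff (fun s => ⋃ q ∈ {q : Fin n → Pt | ∀ l, q l ∈ Over ↑s},
      ⋃ l, ↑(B (G q) l).1) fun s => (countable_pi fun _ => over_ct s.countable_toSet).biUnion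
        fun q _ => countable_iUnion fun l => Finset.countable_toSet _
    have hQ : {q : Fin n → Pt | ∀ l, q l ∈ Over C}.Countable := countable_pi fun _ => over_ct hC
    obtain ⟨b, hb⟩ := hx (B '' (G '' {q | ∀ l, q l ∈ Over C})) ((hQ.image _).image _)
    have h6 : supp (B '' (G '' {q | ∀ l, q l ∈ Over C})) ⊆ C := by
      intro j hj
      simp only [supp, mem_iUnion] at hj
      obtain ⟨_, ⟨_, ⟨q, hq, rfl⟩, rfl⟩, l, hj⟩ := hj
      refine h5 (Finset.univ.biUnion fun l => (q l).1 ∪ (q l).2) (fun i hi => ?_)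
        (mem_iUnion₂.2 ⟨q, fun l => ⟨fun i hi => ?_, fun i hi => ?_⟩, mem_iUnion.2 ⟨l, hj⟩⟩)
      · obtain ⟨m, -, hm⟩ := Finset.mem_biUnion.1 hi
        exact (Finset.mem_union.1 hm).elim (fun h => (hq m).1 h) fun h => (hq m).2 h
      · exact Finset.mem_biUnion.2 ⟨l, Finset.mem_univ _, Finset.mem_union_left _ hi⟩
      · exact Finset.mem_biUnion.2 ⟨l, Finset.mem_univ _, Finset.mem_union_right _ hi⟩
    have h7 : ∀ (l : F) (a : J), _ := fun l a => ih (F.erase l) (Finset.erase_ssubset l.2)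
      {t ∈ W | t l = a} (fun t ht => h1 t ht.1) fun t ht t' ht' m hm => by
        by_cases h6 : m = l
        · rw [h6, ht.2, ht'.2]
        · exact h2 t ht.1 t' ht'.1 m fun h => hm (Finset.mem_erase.2 ⟨h6, h⟩)
    choose E h7 h8 h9 using h7
    refine ⟨G '' {q | ∀ l, q l ∈ Over C} ∪ ⋃ l, ⋃ a ∈ insert b {c | r c b}, E l a, union_subset
      (by rintro _ ⟨q, -, rfl⟩; exact h3 q)
      (iUnion_subset fun l => iUnion₂_subset fun q _ => (h7 l q).trans (sep_subset _ _)),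
      (hQ.image _).union (countable_iUnion fun l => ((hseg b).insert b).biUnion fun q _ => h8 l q),
      fun t ht => ?_⟩
    by_cases h10 : ∃ l : F, t l ∈ insert b {c | r c b}
    · obtain ⟨l, hl⟩ := h10
      obtain ⟨d, hd, h11⟩ := h9 l (t l) t ⟨ht, rfl⟩
      exact ⟨d, Or.inr (mem_iUnion.2 ⟨l, mem_iUnion₂.2 ⟨_, hl, hd⟩⟩), h11⟩
    by_contra h11
    obtain ⟨q, h12, h13⟩ := down wo (Over (supp (B '' (G '' {q | ∀ l, q l ∈ Over C})))) x t
      (h1 t ht).1 F (fun l hl => hb (t l) (by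
        rcases trichotomous_of r b (t l) with h | h | h
        exacts [h, absurd ⟨⟨l, hl⟩, Or.inl h.symm⟩ h10, absurd ⟨⟨l, hl⟩, Or.inr h⟩ h10]) l)
      (fun _ => (∅, ∅)) (fun l => ⟨⟨by simp, by simp⟩, by simp [cy]⟩) (by
        rintro _ ⟨_, ⟨d, hd, rfl⟩, rfl⟩ h
        refine (h11 ⟨_, Or.inl ⟨d, hd, rfl⟩, fun l => ?_⟩).elim
        by_cases hl : l ∈ F
        · exact h l hl
        · exact h2 _ (h3 d) t ht l hl ▸ (h1 _ (h3 d)).2 l)
    obtain ⟨l, hl⟩ := h13 _ ⟨_, ⟨q, fun l => ⟨(h12 l).1.1.trans h6, (h12 l).1.2.trans h6⟩, rfl⟩, rfl⟩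
    exact Set.disjoint_left.1 hl (h4 q ⟨t, ht, fun l => (h12 l).2⟩ l) ((h1 _ (h3 q)).2 l)

lemma cov {r : J → J → Prop} (wo : IsWellOrder J r) (hseg : ∀ a, {b | r b a}.Countable)
    {x : J → K} {n : ℕ}
    (hx : ∀ σ : Set (Fin n → Pt), σ.Countable → ∃ b, ∀ a, r b a → Gen r x σ a)
    (S : Set {f : range x → ℝ // Continuous f}) (U : Fin n → Set ℝ) (hU : ∀ l, IsOpen (U l)) :
    ∃ T : Set ({f : range x → ℝ // Continuous f} × (Fin n → Pt)), T.Countable ∧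
      (∀ e ∈ T, e.1 ∈ S ∧ ∀ l (p : range x), p.1 ∈ cy (e.2 l) → e.1.1 p ∈ U l) ∧
      ∀ t : Fin n → J, Injective t → (∃ f ∈ S, ∀ l, f.1 ⟨x (t l), mem_range_self _⟩ ∈ U l) →
        ∃ e ∈ T, ∀ l, x (t l) ∈ cy (e.2 l) := by
  have : ∀ t : Fin n → J, ∃ e : {f : range x → ℝ // Continuous f} × (Fin n → Pt),
      (∃ f ∈ S, ∀ l, f.1 ⟨x (t l), mem_range_self _⟩ ∈ U l) → (∀ l, x (t l) ∈ cy (e.2 l)) ∧
        e.1 ∈ S ∧ ∀ l (p : range x), p.1 ∈ cy (e.2 l) → e.1.1 p ∈ U l := fun t => by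
    by_cases h : ∃ f ∈ S, ∀ l, f.1 ⟨x (t l), mem_range_self _⟩ ∈ U l
    swap
    · exact ⟨(⟨0, continuous_const⟩, fun _ => (∅, ∅)), fun h' => absurd h' h⟩
    obtain ⟨f, h1, h2⟩ := h
    have : ∀ l, ∃ q, x (t l) ∈ cy q ∧ ∀ p : range x, p.1 ∈ cy q → f.1 p ∈ U l := fun l => by
      obtain ⟨O, h3, h4⟩ := isOpen_induced_iff.1 ((hU l).preimage f.2)
      obtain ⟨q, h5, h6⟩ := ex_cy h3 (y := x (t l)) (Set.ext_iff.1 h4 ⟨_, mem_range_self _⟩ |>.2 (h2 l))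
      exact ⟨q, h5, fun p hp => (Set.ext_iff.1 h4 p).1 (h6 hp)⟩
    choose q h3 h4 using this
    exact ⟨(f, q), fun _ => ⟨h3, h1, h4⟩⟩
  choose e he using this
  obtain ⟨D, h1, h2, h3⟩ := cover wo hseg hx (fun t => (e t).2) Finset.univ
    {t | Injective t ∧ ∃ f ∈ S, ∀ l, f.1 ⟨x (t l), mem_range_self _⟩ ∈ U l}
    (fun t ht => ⟨ht.1, (he t ht.2).1⟩) fun _ _ _ _ l hl => absurd (Finset.mem_univ l) hl
  refine ⟨e '' D, h2.image _, ?_, fun t h4 h5 => ?_⟩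
  · rintro _ ⟨d, hd, rfl⟩
    exact (he d (h1 hd).2).2
  · obtain ⟨d, hd, h6⟩ := h3 t ⟨h4, h5⟩
    exact ⟨_, ⟨d, hd, rfl⟩, h6⟩

end Pool.Agent.H8.Hfc
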