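import Mathlib
import Pool.Agent.H8.Hfc

set_option autoImplicit false

namespace Pool.Agent.H8.Hfc

open Set Filter Topology Function Pool.Agent.H8.SG Pool.Agent.H8.Mich
open scoped Cardinal

def cons (n : ℕ) (α : J) : J := fun i => Nat.casesOn i n α

def tail (j : J) : J := fun i => j (i + 1)

lemma ex_one (α : J) : ∀ᶠ z in residual K, ∃ n, z (cons n α) = true := by
  classical
  refine residual_of_dense_open ?_ (dense_iff_inter_open.2 fun U hU ⟨y, hy⟩ => ?_)
  · rw [setOf_exists]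
    exact isOpen_iUnion fun n => (isOpen_discrete {true}).preimage
      (f := fun z : K => z (cons n α)) (continuous_apply _)
  obtain ⟨p, h1, h2⟩ := ex_cy hU hy
  obtain ⟨n, hn⟩ := (p.1.finite_toSet.preimage (f := fun n => cons n α)
    (fun m _ n _ h => congrFun h 0)).infinite_compl.nonempty
  refine ⟨update y (cons n α) true, h2 fun j hj => ?_, n, update_self ..⟩
  rw [update_of_ne (fun h : j = cons n α => hn (show cons n α ∈ p.1 from h ▸ hj))]
  exact h1 j hj

lemma build2 (h : Cardinal.continuum.{0} = Cardinal.aleph 1) : ∃ (r : J → J → Prop) (x : J → K),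
    IsWellOrder J r ∧ (∀ a, {b | r b a}.Countable) ∧
    (∀ a α, ∃ n, x a (cons n α) = true) ∧ (∃ e : J → J → ℕ, (∀ α, InjOn (e α) {c | r c α}) ∧
      ∀ a, {α | ¬ ∀ n, x a (cons n α) = true ↔ n = e α a}.Countable) ∧
    ∀ n (σ : Set (Fin n → Pt)), σ.Countable → ∃ b, ∀ a, r b a → Gen r x σ a := by
  classical
  have hJ : #J ≤ 𝔠 := card_seq ℕ (card_ct ℕ)
  have hF : #(Finset J) ≤ 𝔠 := by rwa [Cardinal.mk_finset_of_infinite]
  have hP := card_prod hF hF
  obtain ⟨r, wo, hseg⟩ := wo_of_CH h J hJ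
  choose e he using fun a => countable_iff_exists_injOn.1 (hseg a)
  choose κ hκ using fun n => sur (ℕ → Option (Fin n → Pt)) (card_seq _ (by
    rw [Cardinal.mk_option, ← Cardinal.continuum_add_self]
    refine add_le_add ?_ (Cardinal.one_le_aleph0.trans Cardinal.aleph0_le_continuum)
    rw [← Cardinal.power_def, ← Cardinal.continuum_power_aleph0]
    exact (Cardinal.power_le_power_right hP).trans
      (Cardinal.power_le_power_left Cardinal.continuum_ne_zero Cardinal.mk_le_aleph0)))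
  let s : ∀ n, J → Set (Fin n → Pt) := fun n b => {B | some B ∈ range (κ n b)}
  have hs : ∀ n b, (supp (s n b)).Countable := fun n b =>
    ((countable_range _).preimage (Option.some_injective _)).biUnion fun B _ =>
      countable_iUnion fun l => (B l).1.countable_toSet
  have : ∀ (a : J) (P : Set K), ∃ z : K, P.Countable → (∀ α, ∃ n, z (cons n α) = true) ∧
      {α | ¬ ∀ n, z (cons n α) = true ↔ n = e α a}.Countable ∧ ∀ n b, r b a →
      ∀ l (R : Fin n → Set K), (∀ m, R m ∈ cy '' Over (supp (s n b)) ∪ (fun y => {y}) '' P) →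
      (∃ p ∈ Sel (s n b) l R, z ∈ cy p) ∨ ∃ q ∈ Over (supp (s n b)), z ∈ cy q ∧
        ∀ p ∈ Sel (s n b) l R, Disjoint (cy q) (cy p) := by
    intro a P
    by_cases hP : P.Countable
    swap
    · exact ⟨fun _ => true, fun h => absurd h hP⟩
    have : ∀ᶠ z in residual K, ∀ n, ∀ b ∈ {b | r b a}, ∀ l, ∀ R ∈ {R : Fin n → Set K |
        ∀ m, R m ∈ cy '' Over (supp (s n b)) ∪ (fun y => {y}) '' P},
        (∃ p ∈ Sel (s n b) l R, z ∈ cy p) ∨ ∃ q ∈ Over (supp (s n b)), z ∈ cy q ∧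
          ∀ p ∈ Sel (s n b) l R, Disjoint (cy q) (cy p) :=
      eventually_countable_forall.2 fun n => (eventually_countable_ball (hseg a)).2 fun b _ =>
        eventually_countable_forall.2 fun l => (eventually_countable_ball (countable_pi fun _ =>
          ((over_ct (hs n b)).image _).union (hP.image _))).2 fun R _ => by
          have := dense_gen (Sel (s n b) l R) (supp (s n b)) (by
            rintro _ ⟨B, hB, rfl, -⟩ j hj
            exact mem_iUnion₂.2 ⟨B, hB, mem_iUnion.2 ⟨l, hj⟩⟩)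
          exact residual_of_dense_open this.1 this.2
    obtain ⟨A, hA, h0⟩ : ∃ A : Set J, A.Countable ∧ ∀ n b, r b a → ∀ j ∈ supp (s n b),
        tail j ∈ A := ⟨tail '' ⋃ n, ⋃ b ∈ {b | r b a}, supp (s n b),
      (countable_iUnion fun n => (hseg a).biUnion fun b _ => hs n b).image _,
      fun n b hb j hj => ⟨j, mem_iUnion.2 ⟨n, mem_iUnion₂.2 ⟨b, hb, hj⟩⟩, rfl⟩⟩
    obtain ⟨z, h1, h2⟩ := (dense_of_mem_residual (this.and
      ((eventually_countable_ball hA).2 fun α _ => ex_one α))).nonempty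
    have h3 : ∀ n b, r b a → ∀ p : Pt, ↑p.1 ⊆ supp (s n b) → z ∈ cy p →
        (fun j => if tail j ∈ A then z j else decide (j 0 = e (tail j) a)) ∈ cy p :=
      fun n b hb p hp hz j hj => by
        beta_reduce
        rw [if_pos (h0 n b hb j (hp hj))]
        exact hz j hj
    refine ⟨fun j => if tail j ∈ A then z j else decide (j 0 = e (tail j) a), fun _ =>
      ⟨fun α => ?_, hA.mono fun α hα => by_contra fun h4 => hα fun n => ?_,
        fun n b hb l R hR => ?_⟩⟩
    · by_cases h4 : α ∈ A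
      · obtain ⟨n, hn⟩ := h2 α h4
        exact ⟨n, (if_pos h4).trans hn⟩
      · exact ⟨e α a, (if_neg h4).trans (decide_eq_true rfl)⟩
    · exact (iff_of_eq (congrArg (· = true) (if_neg h4))).trans decide_eq_true_iff
    · rcases h1 n b hb l R hR with ⟨_, ⟨B, hB, rfl, h4⟩, h5⟩ | ⟨q, h4, h5, h6⟩
      · exact Or.inl ⟨_, ⟨B, hB, rfl, h4⟩, h3 n b hb _
          (fun j hj => mem_iUnion₂.2 ⟨B, hB, mem_iUnion.2 ⟨l, hj⟩⟩) h5⟩
      · exact Or.inr ⟨q, h4, h3 n b hb _ h4.1 h5, h6⟩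
  choose F hF using this
  let x : J → K := wo.wf.fix fun a ih => F a (range fun b : {b // r b a} => ih b.1 b.2)
  have hx : ∀ a, x a = F a (range fun b : {b // r b a} => x b.1) := fun a => wo.wf.fix_eq _ a
  clear_value x
  have key := fun a => hF a (range fun b : {b // r b a} => x b.1)
    (haveI : Countable {b // r b a} := (hseg a).to_subtype; countable_range _)
  simp only [← hx] at key
  refine ⟨r, x, wo, hseg, fun a => (key a).1, ⟨e, he, fun a => (key a).2.1⟩, fun n σ hσ => ?_⟩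
  · obtain ⟨e, he⟩ := ((hσ.image some).insert none).exists_eq_range (insert_nonempty _ _)
    obtain ⟨b, rfl⟩ := hκ n e
    obtain rfl : s n b = σ := Set.ext fun B => by
      show some B ∈ range _ ↔ _
      rw [← he]
      simp
    refine ⟨b, fun a ha l R hR => (key a).2.2 n b ha l R fun m => (hR m).imp id ?_⟩
    rintro ⟨c, h1, h2⟩
    exact ⟨_, ⟨⟨c, h1⟩, rfl⟩, h2.symm⟩

lemma hl {r : J → J → Prop} (wo : IsWellOrder J r) (hseg : ∀ a, {b | r b a}.Countable)
    {x : J → K} (hx : ∀ n (σ : Set (Fin n → Pt)), σ.Countable → ∃ b, ∀ a, r b a → Gen r x σ a)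
    (n : ℕ) : HereditarilyLindelofSpace (Fin n → range x) := by
  refine ⟨fun s _ => isLindelof_of_countable_subcover fun {ι} U hU hs => ?_⟩
  rcases s.eq_empty_or_nonempty with rfl | ⟨y, hy⟩
  · exact ⟨∅, countable_empty, empty_subset _⟩
  obtain ⟨i₀, -⟩ := mem_iUnion.1 (hs hy)
  have : ∀ m (φ : Fin n → Fin m) (t : Fin m → J), ∃ (i : ι) (B : Fin m → Pt),
      (fun i => (⟨x (t (φ i)), mem_range_self _⟩ : range x)) ∈ s → (∀ l, x (t l) ∈ cy (B l)) ∧
      ∀ w : Fin m → range x, (∀ l, (w l).1 ∈ cy (B l)) → w ∘ φ ∈ U i := fun m φ t => by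
    by_cases h : (fun i => (⟨x (t (φ i)), mem_range_self _⟩ : range x)) ∈ s
    swap
    · exact ⟨i₀, fun _ => (∅, ∅), fun h' => absurd h' h⟩
    obtain ⟨i, hi⟩ := mem_iUnion.1 (hs h)
    obtain ⟨u, h1, h2⟩ := isOpen_pi_iff'.1 ((hU i).preimage (f := fun w : Fin m → range x => w ∘ φ)
      (continuous_pi fun i => continuous_apply _)) (fun l => ⟨x (t l), mem_range_self _⟩) hi
    have : ∀ l, ∃ q, x (t l) ∈ cy q ∧ ∀ p : range x, p.1 ∈ cy q → p ∈ u l := fun l => by
      obtain ⟨O, h3, h4⟩ := isOpen_induced_iff.1 (h1 l).1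
      obtain ⟨q, h5, h6⟩ := ex_cy h3 (y := x (t l))
        (Set.ext_iff.1 h4 ⟨_, mem_range_self _⟩ |>.2 (h1 l).2)
      exact ⟨q, h5, fun p hp => (Set.ext_iff.1 h4 p).1 (h6 hp)⟩
    choose q h3 h4 using this
    exact ⟨i, q, fun _ => ⟨h3, fun w hw => h2 fun l _ => h4 l _ (hw l)⟩⟩
  choose i B h1 using this
  choose D h2 h3 h4 using fun m (φ : Fin n → Fin m) => cover wo hseg (hx m) (B m φ) Finset.univ
    {t | Injective t ∧ (fun i => (⟨x (t (φ i)), mem_range_self _⟩ : range x)) ∈ s}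
    (fun t ht => ⟨ht.1, (h1 m φ t ht.2).1⟩) fun _ _ _ _ l hl => absurd (Finset.mem_univ l) hl
  refine ⟨⋃ m, ⋃ φ, i m φ '' D m φ, countable_iUnion fun m => countable_iUnion fun φ =>
    (h3 m φ).image _, fun y hy => ?_⟩
  obtain ⟨m, t, ht⟩ := (finite_range y).fin_embedding
  choose φ hφ using fun k => show y k ∈ range t from ht ▸ mem_range_self k
  choose β hβ using fun l => (t l).2
  have h5 : ∀ l, (⟨x (β l), mem_range_self _⟩ : range x) = t l := fun l => Subtype.ext (hβ l)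
  have h6 : t ∘ φ = y := funext hφ
  obtain ⟨d, hd, h7⟩ := h4 m φ β ⟨fun l l' hl => t.injective (by rw [← h5, ← h5]; simp only [hl]),
    by simp only [h5, hφ]; exact hy⟩
  exact mem_iUnion₂.2 ⟨_, mem_iUnion₂.2 ⟨m, φ, d, hd, rfl⟩,
    h6 ▸ (h1 m φ d (h2 m φ hd).2).2 t fun l => hβ l ▸ h7 l⟩

end Pool.Agent.H8.Hfc
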