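import Mathlib
import Pool.Agent.H8.Hfc

set_option autoImplicit false

namespace Pool.Agent.H8.Hfc

open Set Filter Topology Function Pool.Agent.H8.SG Pool.Agent.H8.Mich
open scoped Cardinal

lemma build3 (h : Cardinal.continuum.{0} = Cardinal.aleph 1) : ∃ (r : J → J → Prop) (x : J → K),
    IsWellOrder J r ∧ (∀ a, {b | r b a}.Countable) ∧
    (∀ a, x a a = true) ∧ (∀ a, {j | x a j = true}.Countable) ∧
    ∀ n (σ : Set (Fin n → Pt)), σ.Countable → ∃ b, ∀ a, r b a → Gen r x σ a := by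
  classical
  have hJ : #J ≤ 𝔠 := card_seq ℕ (card_ct ℕ)
  have hF : #(Finset J) ≤ 𝔠 := by rwa [Cardinal.mk_finset_of_infinite]
  have hP := card_prod hF hF
  obtain ⟨r, wo, hseg⟩ := wo_of_CH h J hJ
  choose κ hκ using fun n => sur (ℕ → Option (Fin n → Pt)) (card_seq _ (by
    rw [Cardinal.mk_option, ← Cardinal.continuum_add_self]
    refine add_le_add ?_ (Cardinal.one_le_aleph0.trans Cardinal.aleph0_le_continuum)
    rw [← Cardinal.power_def, ← Cardinal.continuum_power_aleph0]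
    exact (Cardinal.power_le_power_right hP).trans
      (Cardinal.power_le_power_left Cardinal.continuum_ne_zero Cardinal.mk_le_aleph0)))
  let s : ∀ n, J → Set (Fin n → Pt) := fun n b => {B | some B ∈ range (κ n b)}
  have hs : ∀ n b, (supp (s n b)).Countable := fun n b =>
    ((countable_range _).preimage (Option.some_injective _)).biUnion fun B _ =>
      countable_iUnion fun l => (B l).1.countable_toSet
  have : ∀ (a : J) (P : Set K), ∃ z : K, P.Countable → z a = true ∧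
      {j | z j = true}.Countable ∧ ∀ n b, r b a →
      ∀ l (R : Fin n → Set K), (∀ m, R m ∈ cy '' Over (supp (s n b)) ∪ (fun y => {y}) '' P) →
      (∃ p ∈ Sel (s n b) l R, z ∈ cy p) ∨ ∃ q ∈ Over (supp (s n b)), z ∈ cy q ∧
        ∀ p ∈ Sel (s n b) l R, Disjoint (cy q) (cy p) := by
    intro a P
    by_cases hP : P.Countable
    swap
    · exact ⟨fun _ => true, fun h => absurd h hP⟩
    have : ∀ᶠ z in residual K, ∀ n, ∀ b ∈ {b | r b a}, ∀ l, ∀ R ∈ {R : Fin n → Set K |
        ∀ m, R m ∈ cy '' Over (supp (s n b)) ∪ (fun y => {y}) '' P},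
        (∃ p ∈ Sel (s n b) l R, z ∈ cy p) ∨ ∃ q ∈ Over (supp (s n b)), z ∈ cy q ∧
          ∀ p ∈ Sel (s n b) l R, Disjoint (cy q) (cy p) :=
      eventually_countable_forall.2 fun n => (eventually_countable_ball (hseg a)).2 fun b _ =>
        eventually_countable_forall.2 fun l => (eventually_countable_ball (countable_pi fun _ =>
          ((over_ct (hs n b)).image _).union (hP.image _))).2 fun R _ => by
          have := dense_gen (Sel (s n b) l R) (supp (s n b)) (by
            rintro _ ⟨B, hB, rfl, -⟩ j hj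
            exact mem_iUnion₂.2 ⟨B, hB, mem_iUnion.2 ⟨l, hj⟩⟩)
          exact residual_of_dense_open this.1 this.2
    obtain ⟨A, hA, ha, h0⟩ : ∃ A : Set J, A.Countable ∧ a ∈ A ∧ ∀ n b, r b a →
        ∀ j ∈ supp (s n b), j ∈ A := ⟨insert a (⋃ n, ⋃ b ∈ {b | r b a}, supp (s n b)),
      (countable_iUnion fun n => (hseg a).biUnion fun b _ => hs n b).insert _, Or.inl rfl,
      fun n b hb j hj => Or.inr (mem_iUnion.2 ⟨n, mem_iUnion₂.2 ⟨b, hb, hj⟩⟩)⟩
    obtain ⟨z, h2, h1⟩ := (dense_of_mem_residual this).inter_open_nonempty _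
      (cy_open ({a}, {a})) (cy_ne _)
    have h3 : ∀ n b, r b a → ∀ p : Pt, ↑p.1 ⊆ supp (s n b) → z ∈ cy p →
        (fun j => if j ∈ A then z j else false) ∈ cy p :=
      fun n b hb p hp hz j hj => by
        beta_reduce
        rw [if_pos (h0 n b hb j (hp hj))]
        exact hz j hj
    refine ⟨fun j => if j ∈ A then z j else false, fun _ =>
      ⟨(if_pos ha).trans ((h2 a (by simp)).2 (by simp)),
        hA.mono fun α hα => by_contra fun h4 => Bool.false_ne_true ((if_neg h4).symm.trans hα),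
        fun n b hb l R hR => ?_⟩⟩
    · rcases h1 n b hb l R hR with ⟨_, ⟨B, hB, rfl, h4⟩, h5⟩ | ⟨q, h4, h5, h6⟩
      · exact Or.inl ⟨_, ⟨B, hB, rfl, h4⟩, h3 n b hb _
          (fun j hj => mem_iUnion₂.2 ⟨B, hB, mem_iUnion.2 ⟨l, hj⟩⟩) h5⟩
      · exact Or.inr ⟨q, h4, h3 n b hb _ h4.1 h5, h6⟩
  choose F hF using this
  let x : J → K := wo.wf.fix fun a ih => F a (range fun b : {b // r b a} => ih b.1 b.2)
  have hx : ∀ a, x a = F a (range fun b : {b // r b a} => x b.1) := fun a => wo.wf.fix_eq _ a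
  clear_value x
  have key := fun a => hF a (range fun b : {b // r b a} => x b.1)
    (haveI : Countable {b // r b a} := (hseg a).to_subtype; countable_range _)
  simp only [← hx] at key
  refine ⟨r, x, wo, hseg, fun a => (key a).1, fun a => (key a).2.1, fun n σ hσ => ?_⟩
  · obtain ⟨e, he⟩ := ((hσ.image some).insert none).exists_eq_range (insert_nonempty _ _)
    obtain ⟨b, rfl⟩ := hκ n e
    obtain rfl : s n b = σ := Set.ext fun B => by
      show some B ∈ range _ ↔ _
      rw [← he]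
      simp
    refine ⟨b, fun a ha l R hR => (key a).2.2 n b ha l R fun m => (hR m).imp id ?_⟩
    rintro ⟨c, h1, h2⟩
    exact ⟨_, ⟨⟨c, h1⟩, rfl⟩, h2.symm⟩

open Classical in
noncomputable def bx {n : ℕ} (t : Fin n → J) (P : Fin n → Bool) (z : K) : Pt :=
  (Finset.univ.image t, (Finset.univ.image t).filter fun j => z j = true)

lemma mem_bx {n : ℕ} (t : Fin n → J) (P : Fin n → Bool) (z w : K) :
    w ∈ cy (bx t P z) ↔ ∀ l, w (t l) = z (t l) := by
  simp [cy, bx, ← Bool.eq_iff_iff]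

lemma hs {r : J → J → Prop} (wo : IsWellOrder J r) (hseg : ∀ a, {b | r b a}.Countable)
    {x : J → K} (hx : ∀ n (σ : Set (Fin n → Pt)), σ.Countable → ∃ b, ∀ a, r b a → Gen r x σ a)
    {n : ℕ} {ι : Type} (t : ι → Fin n → J) (W : Set ι) : ∃ D ⊆ W, D.Countable ∧ ∀ w ∈ W,
      ∀ I : Set J, I.Finite → ∃ d ∈ D, ∀ a ∈ I, ∀ l, x a (t d l) = x a (t w l) := by
  rcases W.eq_empty_or_nonempty with rfl | ⟨w₀, h₀⟩
  · exact ⟨∅, Subset.rfl, countable_empty, by simp⟩
  have : ∀ m (P : Fin m → Fin n → Bool) (β : Fin m → J), ∃ w ∈ W,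
      (∃ w ∈ W, ∀ i l, x (β i) (t w l) = P i l) → ∀ i l, x (β i) (t w l) = P i l := fun m P β => by
    by_cases h : ∃ w ∈ W, ∀ i l, x (β i) (t w l) = P i l
    · obtain ⟨w, h1, h2⟩ := h
      exact ⟨w, h1, fun _ => h2⟩
    · exact ⟨w₀, h₀, fun h' => absurd h' h⟩
  choose G h1 h2 using this
  choose D h3 h4 h5 using fun m (P : Fin m → Fin n → Bool) => cover wo hseg (hx m)
    (fun β i => bx (t (G m P β)) (P i) (x (β i))) Finset.univ
    {β | Injective β ∧ ∃ w ∈ W, ∀ i l, x (β i) (t w l) = P i l}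
    (fun β hβ => ⟨hβ.1, fun i => (mem_bx _ _ _ _).2 fun _ => rfl⟩)
    fun _ _ _ _ l hl => absurd (Finset.mem_univ l) hl
  refine ⟨⋃ m, ⋃ P, G m P '' D m P, iUnion₂_subset fun m P => ?_,
    countable_iUnion fun m => countable_iUnion fun P => (h4 m P).image _, fun w hw I hI => ?_⟩
  · rintro _ ⟨β, -, rfl⟩
    exact h1 m P β
  obtain ⟨m, β, rfl⟩ := hI.fin_embedding
  obtain ⟨d, hd, h6⟩ := h5 m (fun i l => x (β i) (t w l)) β ⟨β.injective, w, hw, fun _ _ => rfl⟩
  refine ⟨_, mem_iUnion₂.2 ⟨m, _, d, hd, rfl⟩, ?_⟩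
  rintro _ ⟨i, rfl⟩ l
  exact ((mem_bx _ _ _ _).1 (h6 i) l).trans (h2 m _ d (h3 m _ hd).2 i l)

lemma avoid {r : J → J → Prop} (wo : IsWellOrder J r) (hseg : ∀ a, {b | r b a}.Countable)
    {x : J → K} {n : ℕ} (h0 : ∀ a, {j | x a j = true}.Countable)
    (hx : ∀ σ : Set (Fin n → Pt), σ.Countable → ∃ b, ∀ a, r b a → Gen r x σ a)
    {S : Set J} (hS : ¬ S.Countable) (P : Fin n → Bool) (F : Finset (Fin n)) :
    ∀ γ : Fin n → J, (∀ l ∉ F, P l = false) → ∃ C : Set J, C.Countable ∧ ∀ β, Injective β →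
      (∀ l ∉ F, β l = γ l) → (∀ s ∈ S, ¬ ∀ l, x (β l) s = P l) → ∃ l, β l ∈ C ∧ P l = true := by
  classical
  induction F using Finset.strongInduction with
  | H F ih =>
    intro γ h1
    have h2 : (S \ ⋃ l, {j | x (γ l) j = true}).Infinite := fun h => hS
      ((h.countable.union (countable_iUnion fun l => h0 (γ l))).mono (subset_diff_union _ _))
    let e := h2.natEmbedding
    let B : ℕ → Fin n → Pt := fun k l => bx (fun _ : Fin 1 => (e k).1) (fun _ => true) fun _ => P l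
    obtain ⟨b, hb⟩ := hx (range B) (countable_range _)
    have h3 : ∀ (l : {l // l ∈ F ∧ P l = false}) (a : J), _ := fun l a => ih (F.erase l)
      (Finset.erase_ssubset l.2.1) (update γ l a) fun m hm => by
        by_cases h : m = l
        · exact h ▸ l.2.2
        · exact h1 m fun h' => hm (Finset.mem_erase.2 ⟨h, h'⟩)
    choose C h3 h4 using h3
    refine ⟨insert b {c | r c b} ∪ ⋃ l, ⋃ a ∈ insert b {c | r c b}, C l a, ((hseg b).insert b).union
      (countable_iUnion fun l => ((hseg b).insert b).biUnion fun a _ => h3 l a),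
      fun β h5 h6 h7 => ?_⟩
    by_cases h8 : ∃ l ∈ F, β l ∈ insert b {c | r c b}
    · obtain ⟨l, h8, h9⟩ := h8
      cases h10 : P l
      · obtain ⟨m, h11, h12⟩ := h4 ⟨l, h8, h10⟩ (β l) β h5 (fun m hm => by
          by_cases h : m = l
          · subst h; simp
          · rw [update_of_ne h]; exact h6 m fun h' => hm (Finset.mem_erase.2 ⟨h, h'⟩)) h7
        exact ⟨m, Or.inr (mem_iUnion.2 ⟨_, mem_iUnion₂.2 ⟨_, h9, h11⟩⟩), h12⟩
      · exact ⟨l, Or.inl h9, h10⟩
    obtain ⟨q, -, h9⟩ := down wo (Over (supp (range B))) x β h5 F (fun l hl => hb (β l) (by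
        rcases trichotomous_of r b (β l) with h | h | h
        exacts [h, absurd ⟨l, hl, Or.inl h.symm⟩ h8, absurd ⟨l, hl, Or.inr h⟩ h8]) l)
      (fun _ => (∅, ∅)) (fun l => ⟨⟨by simp, by simp⟩, by simp [cy]⟩) (by
        rintro _ ⟨k, rfl⟩ h
        refine (h7 _ (e k).2.1 fun l => ?_).elim
        by_cases hl : l ∈ F
        · exact (mem_bx _ _ _ _).1 (h l hl) 0
        · rw [h1 l hl, h6 l hl]
          exact Bool.eq_false_iff.2 fun h => (e k).2.2 (mem_iUnion.2 ⟨l, h⟩))
    obtain ⟨k, hk⟩ := ((finite_iUnion fun l => (q l).1.finite_toSet).preimage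
      (f := fun k => (e k).1) (Subtype.val_injective.comp e.injective).injOn).infinite_compl.nonempty
    obtain ⟨l, hl⟩ := h9 _ ⟨k, rfl⟩
    obtain ⟨z, hz⟩ := cy_ne (q l)
    refine (Set.disjoint_left.1 hl (show update z (e k).1 (P l) ∈ cy (q l) from fun j hj => ?_)
      ((mem_bx _ _ _ _).2 fun _ => update_self ..)).elim
    rw [update_of_ne fun h : j = (e k).1 => hk (mem_iUnion.2 ⟨l, show (e k).1 ∈ (q l).1 from h ▸ hj⟩)]
    exact hz j hj

end Pool.Agent.H8.Hfc
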