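import Mathlib

set_option autoImplicit false
open Set Function Filter Topology MeasureTheory Metric
open scoped ENNReal NNReal

namespace Pool.Agent.H8.Inter

lemma hull1 {X : Type} [MetricSpace X] [MeasurableSpace X] [BorelSpace X] {d : ℝ} (hd : 0 < d)
    {L : Set X} (hL : μH[d] L = 0) (r : ℝ≥0∞) (h0 : 0 < r) (h1 : r < 1) :
    ∃ u : ℕ → Set X, (∀ n, IsOpen (u n)) ∧ L ⊆ ⋃ n, u n ∧ (∀ n, ediam (u n) ≤ 3 * r) ∧
      ∑' n, ediam (u n) ^ d ≤ 2 * r := by
  rw [Measure.hausdorffMeasure_apply] at hL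
  have := (le_iSup₂_of_le (f := fun (r : ℝ≥0∞) (_ : 0 < r) => ⨅ (t : ℕ → Set X) (_ : L ⊆ ⋃ n, t n)
    (_ : ∀ n, ediam (t n) ≤ r), ∑' n, ⨆ _ : (t n).Nonempty, ediam (t n) ^ d) r h0 le_rfl).trans_lt
    (hL.trans_lt h0)
  simp only [iInf_lt_iff] at this
  obtain ⟨t, t1, t2, t3⟩ := this
  obtain ⟨ε, e1, e2⟩ := ENNReal.exists_pos_sum_of_countable h0.ne' ℕ
  have : ∀ n, ∃ η : ℝ≥0, 0 < η ∧ (η : ℝ≥0∞) < r ∧ (ediam (t n) + 2 * η) ^ d < ediam (t n) ^ d + ε n :=
    fun n => by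
      have c1 : Tendsto (fun η : ℝ≥0 => (η : ℝ≥0∞)) (𝓝[>] 0) (𝓝 0) :=
        (ENNReal.continuous_coe.tendsto' 0 0 rfl).mono_left nhdsWithin_le_nhds
      have c2 : Tendsto (fun η : ℝ≥0 => (ediam (t n) + 2 * η) ^ d) (𝓝[>] 0)
          (𝓝 (ediam (t n) ^ d)) := by
        have := (ENNReal.continuous_rpow_const (y := d)).tendsto _ |>.comp
          ((ENNReal.Tendsto.const_mul (a := 2) c1 (Or.inr (by simp))).const_add (ediam (t n)))
        simpa [Function.comp_def] using this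
      have c3 : ediam (t n) ^ d < ediam (t n) ^ d + ε n :=
        ENNReal.lt_add_right (ENNReal.rpow_ne_top_of_nonneg hd.le
          ((t2 n).trans_lt (h1.trans ENNReal.one_lt_top)).ne) (by simpa using (e1 n).ne')
      exact (eventually_mem_nhdsWithin.and ((c1.eventually (gt_mem_nhds h0)).and
        (c2.eventually (gt_mem_nhds c3)))).exists
  choose η a1 a2 a3 using this
  refine ⟨fun n => thickening (η n) (t n), fun n => isOpen_thickening,
    t1.trans (iUnion_mono fun n => self_subset_thickening (by exact_mod_cast a1 n) _), fun n => ?_, ?_⟩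
  · refine (ediam_thickening_le _).trans ?_
    calc ediam (t n) + 2 * η n ≤ r + 2 * r := by gcongr; exacts [t2 n, (a2 n).le]
      _ = 3 * r := by ring
  · calc ∑' n, ediam (thickening (η n) (t n)) ^ d
        ≤ ∑' n, ((⨆ _ : (t n).Nonempty, ediam (t n) ^ d) + ε n) := by
          refine ENNReal.tsum_le_tsum fun n => ?_
          refine (ENNReal.rpow_le_rpow (ediam_thickening_le _) hd.le).trans ((a3 n).le.trans ?_)
          rcases (t n).eq_empty_or_nonempty with h | h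
          · simp [h, hd]
          · simp [h]
      _ ≤ r + r := by rw [ENNReal.tsum_add]; exact add_le_add t3.le e2.le
      _ = 2 * r := by ring

lemma hull {X : Type} [MetricSpace X] [MeasurableSpace X] [BorelSpace X] {d : ℝ} (hd : 0 < d)
    {L : Set X} (hL : μH[d] L = 0) :
    ∃ U : ℕ → Set X, (∀ m, IsOpen (U m)) ∧ (∀ m, L ⊆ U m) ∧ μH[d] (⋂ m, U m) = 0 := by
  obtain ⟨r, -, r1, r2⟩ := exists_seq_strictAnti_tendsto' (zero_lt_one : (0 : ℝ≥0∞) < 1)
  choose u u1 u2 u3 u4 using fun m => hull1 hd hL (r m) (r1 m).1 (r1 m).2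
  refine ⟨fun m => ⋃ n, u m n, fun m => isOpen_iUnion (u1 m), u2, nonpos_iff_eq_zero.1 ?_⟩
  have t : ∀ c : ℝ≥0∞, c ≠ ⊤ → Tendsto (fun m => c * r m) atTop (𝓝 0) := fun c hc => by
    simpa using ENNReal.Tendsto.const_mul (a := c) r2 (Or.inr hc)
  refine (Measure.hausdorffMeasure_le_liminf_tsum d _ _ (t 3 (by simp)) u (Eventually.of_forall u3)
    (Eventually.of_forall fun m => iInter_subset _ m)).trans ?_
  rw [← (t 2 (by simp)).liminf_eq]
  exact liminf_le_liminf (Eventually.of_forall u4)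

/-- The plane. -/
abbrev E2 := EuclideanSpace ℝ (Fin 2)

/-- Dyadic floor. -/
noncomputable def A (k : ℕ) (x : ℝ) : ℤ := ⌊2 ^ k * x⌋

lemma A_succ (k : ℕ) (x : ℝ) : A (k + 1) x / 2 = A k x := by
  have := Int.floor_div_natCast (2 ^ (k + 1) * x) 2
  rw [show (2 : ℝ) ^ (k + 1) * x / (2 : ℕ) = 2 ^ k * x by push_cast; ring] at this
  unfold A
  exact_mod_cast this.symm

/-- The interleaved digit. -/
noncomputable def dg (k : ℕ) (p : E2) : ℤ :=
  2 * (A (k + 1) (p 0) - 2 * A k (p 0)) + (A (k + 1) (p 1) - 2 * A k (p 1))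

lemma dg_bd (k : ℕ) (p : E2) : 0 ≤ dg k p ∧ dg k p ≤ 3 := by
  have := A_succ k (p 0)
  have := A_succ k (p 1)
  unfold dg
  omega

/-- The interleaving map. -/
noncomputable def F (b : ℝ) (p : E2) : ℝ := ∑' k, b ^ k * dg k p

lemma contA (k : ℕ) (x : ℝ) (hx : ∀ q : ℚ, x ≠ q) : ContinuousAt (fun y => (A k y : ℝ)) x := by
  have h : (2 : ℝ) ^ k * x ≠ ⌊2 ^ k * x⌋ := fun h => hx (⌊2 ^ k * x⌋ / 2 ^ k) (by
    push_cast; rw [← h]; field_simp)
  have : (fun y : ℝ => (A k y : ℝ)) = fun y => 2 ^ k * y - Int.fract (2 ^ k * y) := by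
    ext y; simp [A]
  rw [this]
  exact (by fun_prop : ContinuousAt (fun y : ℝ => 2 ^ k * y) x).sub
    (ContinuousAt.comp (f := fun y : ℝ => 2 ^ k * y) (continuousAt_fract h) (by fun_prop))

lemma term_bd {b : ℝ} (h0 : 0 < b) (k : ℕ) (p : E2) : ‖b ^ k * dg k p‖ ≤ 3 * b ^ k := by
  have h1 : (0 : ℝ) ≤ dg k p := by exact_mod_cast (dg_bd k p).1
  have h2 : (dg k p : ℝ) ≤ 3 := by exact_mod_cast (dg_bd k p).2
  rw [Real.norm_of_nonneg (by positivity), mul_comm]
  gcongr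

lemma contF {b : ℝ} (h0 : 0 < b) (h1 : b < 1) :
    ContinuousOn (F b) {p | ∀ i, ∀ q : ℚ, p i ≠ q} := by
  refine continuousOn_tsum (fun k p hp => ContinuousAt.continuousWithinAt ?_)
    ((summable_geometric_of_lt_one h0.le h1).mul_left 3) fun k p _ => term_bd h0 k p
  have c : ∀ j i, ContinuousAt (fun p : E2 => (A j (p i) : ℝ)) p := fun j i =>
    ContinuousAt.comp (f := fun p : E2 => p i) (contA j _ (hp i)) (by fun_prop)
  simp only [dg]
  push_cast
  exact (((c _ 0).sub ((c _ 0).const_mul 2)).const_mul 2 |>.add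
    ((c _ 1).sub ((c _ 1).const_mul 2))).const_mul _

lemma close {n : ℕ} {p q : E2} (h : ∀ i, A n (p i) = A n (q i)) : dist p q ≤ 2 * (1 / 2) ^ n := by
  have c : ∀ i, dist (p i) (q i) ≤ (1 / 2) ^ n := fun i => by
    have := Int.abs_sub_lt_one_of_floor_eq_floor (h i)
    rw [← mul_sub, abs_mul, abs_of_pos (by positivity)] at this
    rw [Real.dist_eq, one_div_pow, le_div_iff₀' (by positivity)]
    exact this.le
  rw [EuclideanSpace.dist_eq, Real.sqrt_le_iff, Fin.sum_univ_two]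
  refine ⟨by positivity, ?_⟩
  have := pow_le_pow_left₀ dist_nonneg (c 0) 2
  have := pow_le_pow_left₀ dist_nonneg (c 1) 2
  nlinarith [sq_nonneg ((1 / 2 : ℝ) ^ n)]

lemma sep {b : ℝ} (h0 : 0 < b) (h1 : b < 1 / 4) {p q : E2} (h : ∀ i, A 0 (p i) = A 0 (q i))
    (hne : p ≠ q) : ∃ n : ℕ, dist p q ≤ 2 * (1 / 2) ^ n ∧ b ^ n * (1 - 4 * b) ≤ |F b p - F b q| := by
  classical
  have ex : ∃ n, ¬ ∀ i, A (n + 1) (p i) = A (n + 1) (q i) := by
    by_contra hc
    push Not at hc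
    refine hne (eq_of_dist_eq_zero (le_antisymm ?_ dist_nonneg))
    have t : Tendsto (fun m : ℕ => 2 * (1 / 2 : ℝ) ^ (m + 1)) atTop (𝓝 0) := by
      simpa [Function.comp_def] using ((tendsto_pow_atTop_nhds_zero_of_lt_one (r := (1 / 2 : ℝ))
        (by norm_num) (by norm_num)).const_mul 2).comp (tendsto_add_atTop_nat 1)
    exact ge_of_tendsto' t fun m => close (hc m)
  set n := Nat.find ex
  have e1 : ∀ k ≤ n, ∀ i, A k (p i) = A k (q i) := fun k hk => by
    rcases k with _ | k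
    · exact h
    · exact not_not.1 (Nat.find_min ex hk)
  have e2 : dg n p ≠ dg n q := fun e => Nat.find_spec ex fun i => by
    have := A_succ n (p 0)
    have := A_succ n (p 1)
    have := A_succ n (q 0)
    have := A_succ n (q 1)
    have := e1 n le_rfl 0
    have := e1 n le_rfl 1
    unfold dg at e
    fin_cases i
    · show A (n + 1) (p 0) = A (n + 1) (q 0)
      omega
    · show A (n + 1) (p 1) = A (n + 1) (q 1)
      omega
  refine ⟨n, close (e1 n le_rfl), ?_⟩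
  have hb : b < 1 := by linarith
  have sm : ∀ p : E2, Summable fun k => b ^ k * dg k p := fun p => Summable.of_norm_bounded
    ((summable_geometric_of_lt_one h0.le hb).mul_left 3) fun k => term_bd h0 k p
  let D : ℕ → ℝ := fun k => b ^ k * dg k p - b ^ k * dg k q
  have s1 : F b p - F b q = ∑ k ∈ Finset.range (n + 1), D k + ∑' k, D (k + (n + 1)) := by
    rw [((sm p).sub (sm q)).sum_add_tsum_nat_add, (sm p).tsum_sub (sm q)]; rfl
  have s2 : ∑ k ∈ Finset.range (n + 1), D k = D n := by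
    rw [Finset.sum_range_succ, Finset.sum_eq_zero, zero_add]
    intro k hk
    have hk := Finset.mem_range.1 hk
    simp only [D, dg, e1 k hk.le, e1 (k + 1) hk, sub_self]
  have s3 : b ^ n ≤ |D n| := by
    have : (1 : ℝ) ≤ |(dg n p : ℝ) - dg n q| := by
      exact_mod_cast Int.one_le_abs (sub_ne_zero.2 e2)
    simp only [D]
    rw [← mul_sub, abs_mul, abs_of_pos (by positivity)]
    exact le_mul_of_one_le_right (by positivity) this
  have s4 : ‖∑' k, D (k + (n + 1))‖ ≤ 3 * b ^ (n + 1) * (1 - b)⁻¹ := by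
    refine tsum_of_norm_bounded ((hasSum_geometric_of_lt_one h0.le hb).mul_left _) fun k => ?_
    have a1 := dg_bd (k + (n + 1)) p
    have a2 := dg_bd (k + (n + 1)) q
    have : |(dg (k + (n + 1)) p : ℝ) - dg (k + (n + 1)) q| ≤ 3 := by
      exact_mod_cast (abs_le.2 ⟨by omega, by omega⟩ : |dg (k + (n + 1)) p - dg (k + (n + 1)) q| ≤ 3)
    simp only [D]
    rw [← mul_sub, Real.norm_eq_abs, abs_mul, abs_of_pos (by positivity), pow_add]
    calc _ ≤ b ^ k * b ^ (n + 1) * 3 := by gcongr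
      _ = _ := by ring
  have s5 : 3 * b ^ (n + 1) * (1 - b)⁻¹ ≤ b ^ n * (4 * b) := by
    rw [← div_eq_mul_inv, div_le_iff₀ (by linarith), pow_succ]
    have : 0 < b ^ n * b := by positivity
    nlinarith
  rw [s1, s2]
  have := abs_sub_abs_le_abs_add (D n) (∑' k, D (k + (n + 1)))
  rw [Real.norm_eq_abs] at s4
  linarith

lemma dim_le {r : ℝ≥0} (h0 : 0 < r) (h1 : (r : ℝ) < 1 / 2) : ∃ b : ℝ, 0 < b ∧ b < 1 ∧
    ∀ K : Set E2, (∀ p ∈ K, ∀ q ∈ K, ∀ i, A 0 (p i) = A 0 (q i)) → dimH K ≤ dimH (F b '' K) / r := by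
  have hr : (0 : ℝ) < r := h0
  let b : ℝ := (1 / 2) ^ (1 / r : ℝ)
  have b0 : 0 < b := by positivity
  have b1 : b < 1 / 4 := by
    rw [show (1 / 4 : ℝ) = (1 / 2) ^ (2 : ℝ) by norm_num]
    refine Real.rpow_lt_rpow_of_exponent_gt (by norm_num) (by norm_num) ?_
    rw [lt_div_iff₀ hr]; linarith
  have b2 : b ^ (r : ℝ) = 1 / 2 := by
    rw [← Real.rpow_mul (by norm_num), one_div_mul_cancel hr.ne', Real.rpow_one]
  refine ⟨b, b0, by linarith, fun K hK => ?_⟩
  have b3 : 0 < 1 - 4 * b := by linarith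
  let C : ℝ≥0 := ⟨2 / (1 - 4 * b) ^ (r : ℝ), by positivity⟩
  have key : ∀ p ∈ K, ∀ q ∈ K, dist p q ≤ C * dist (F b p) (F b q) ^ (r : ℝ) := fun p hp q hq => by
    by_cases e : p = q
    · rw [e, dist_self]; positivity
    obtain ⟨n, n1, n2⟩ := sep b0 b1 (hK p hp q hq) e
    have := Real.rpow_le_rpow (by positivity) n2 hr.le
    rw [Real.mul_rpow (by positivity) b3.le, ← Real.rpow_natCast, ← Real.rpow_mul b0.le, mul_comm (n : ℝ),
      Real.rpow_mul b0.le, b2, Real.rpow_natCast] at this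
    refine n1.trans ?_
    rw [Real.dist_eq]
    change _ ≤ 2 / (1 - 4 * b) ^ (r : ℝ) * _
    rw [div_mul_eq_mul_div, le_div_iff₀ (by positivity)]
    linarith
  have inj : InjOn (F b) K := fun p hp q hq e => by
    have := key p hp q hq
    rw [e, dist_self, Real.zero_rpow hr.ne', mul_zero] at this
    exact eq_of_dist_eq_zero (le_antisymm this dist_nonneg)
  have hol : HolderOnWith C r (invFunOn (F b) K) (F b '' K) := by
    rintro _ ⟨p, hp, rfl⟩ _ ⟨q, hq, rfl⟩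
    rw [inj.leftInvOn_invFunOn hp, inj.leftInvOn_invFunOn hq, edist_dist, edist_dist,
      ENNReal.ofReal_rpow_of_nonneg dist_nonneg hr.le, ← ENNReal.ofReal_coe_nnreal,
      ← ENNReal.ofReal_mul C.coe_nonneg]
    exact ENNReal.ofReal_le_ofReal (key p hp q hq)
  have := hol.dimH_image_le h0
  rwa [inj.invFunOn_image subset_rfl] at this

lemma dim_lines : dimH (⋃ i : Fin 2, ⋃ q : ℚ, {p : E2 | p i = q}) ≤ 1 := by
  rw [dimH_iUnion]
  refine iSup_le fun i => ?_
  rw [dimH_iUnion]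
  refine iSup_le fun q => ?_
  have : ContDiff ℝ 1 fun t : ℝ =>
      (EuclideanSpace.single i (q : ℝ) + t • EuclideanSpace.single (1 - i) (1 : ℝ) : E2) := by
    fun_prop
  refine (dimH_mono fun p hp => ?_).trans (this.dimH_range_le.trans (by simp))
  have hp' : p i = q := hp
  refine ⟨p (1 - i), ?_⟩
  ext j
  fin_cases i <;> fin_cases j <;> simp_all

theorem main (E : Set E2) (u t : ℝ≥0) (hu : 1 < u) (hE : (u : ℝ≥0∞) < dimH E) (ht : 2 * t < u) :
    ∃ f : E2 → ℝ, Continuous f ∧ (t : ℝ≥0∞) < dimH (f '' E) := by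
  have u0 : 0 < u := zero_lt_one.trans hu
  obtain ⟨U, u1, u2, u3⟩ := hull (d := u) u0 (hausdorffMeasure_of_dimH_lt
    (dim_lines.trans_lt (by exact_mod_cast hu)))
  let K : ℕ × (Fin 2 → ℤ) → Set E2 := fun a => (U a.1)ᶜ ∩ ⋂ i, {p | p i ∈ Icc (a.2 i : ℝ) (a.2 i + 1)}
  have k1 : ∀ a, IsClosed (K a) := fun a => (u1 _).isClosed_compl.inter
    (isClosed_iInter fun i => isClosed_Icc.preimage (by fun_prop))
  have k2 : ∀ a, K a ⊆ {p | ∀ i, ∀ q : ℚ, p i ≠ q} := fun a p hp i q e =>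
    hp.1 (u2 _ (mem_iUnion₂.2 ⟨i, q, e⟩))
  have k3 : E ⊆ (⋂ m, U m) ∪ ⋃ a, E ∩ K a := fun p hp => by
    by_cases h : p ∈ ⋂ m, U m
    · exact Or.inl h
    · obtain ⟨m, hm⟩ := not_forall.1 (mt mem_iInter.2 h)
      exact Or.inr (mem_iUnion.2 ⟨(m, fun i => ⌊p i⌋), hp, hm, mem_iInter.2 fun i =>
        ⟨Int.floor_le _, (Int.lt_floor_add_one _).le⟩⟩)
  have k4 := hE.trans_le (dimH_mono k3)
  rw [dimH_union, dimH_iUnion, lt_max_iff] at k4
  obtain ⟨a, ha⟩ := lt_iSup_iff.1 (k4.resolve_left (not_lt.2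
    (dimH_le_of_hausdorffMeasure_ne_top (by rw [u3]; simp))))
  obtain ⟨r, r1, r2⟩ := exists_between (show t / u < 1 / 2 by
    rw [div_lt_div_iff₀ u0 two_pos]; linarith)
  have r0 : 0 < r := zero_le.trans_lt r1
  obtain ⟨b, b0, b1, hb⟩ := dim_le r0 (by exact_mod_cast r2)
  obtain ⟨g, -, hg⟩ := ContinuousMap.exists_restrict_eq_forall_mem_of_closed
    (⟨_, continuousOn_iff_continuous_restrict.1 ((contF b0 b1).mono (k2 a))⟩ : C(K a, ℝ))
    (t := univ) (fun _ => trivial) univ_nonempty (k1 a)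
  refine ⟨g, g.continuous, not_le.1 fun h => ?_⟩
  have g1 : F b '' (E ∩ K a) ⊆ g '' E := by
    rintro _ ⟨p, hp, rfl⟩
    exact ⟨p, hp.1, DFunLike.congr_fun hg ⟨p, hp.2⟩⟩
  have fl : ∀ p ∈ K a, ∀ i, A 0 (p i) = a.2 i := fun p hp i => by
    have := mem_iInter.1 hp.2 i
    rw [A, pow_zero, one_mul, Int.floor_eq_iff]
    exact ⟨this.1, this.2.lt_of_ne fun e => k2 a hp i (a.2 i + 1) (by push_cast; exact e)⟩
  have := ha.trans_le ((hb _ fun p hp q hq i => by rw [fl p hp.2, fl q hq.2]).trans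
    (ENNReal.div_le_div_right ((dimH_mono g1).trans h) _))
  rw [← ENNReal.coe_div r0.ne', ENNReal.coe_lt_coe, lt_div_iff₀ r0] at this
  rw [div_lt_iff₀ u0] at r1
  linarith

end Pool.Agent.H8.Inter
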