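import Mathlib

namespace Pool.Agent.H8.Kir
open Matrix Finset
open scoped Classical

variable {F : Type} [Field F] [Fintype F]

def U {n : ℕ} (X : Matrix (Fin n) (Fin n) F) : Prop :=
  (∀ a b : Fin n, b ≤ a → X a b = 0) ∧ X * X = 0

noncomputable def ind (P : Prop) : ℚ := if P then 1 else 0

theorem ind_congr {P Q : Prop} (h : P ↔ Q) : ind P = ind Q := by simp [ind, h]
theorem ind_and (P Q : Prop) : ind (P ∧ Q) = ind P * ind Q := by
  by_cases hP : P <;> by_cases hQ : Q <;> simp [ind, hP, hQ]
theorem ind_pos {P : Prop} (h : P) : ind P = 1 := by simp [ind, h]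
theorem ind_neg {P : Prop} (h : ¬ P) : ind P = 0 := by simp [ind, h]

theorem sum_ind {α : Type} [Fintype α] (P : α → Prop) :
    ∑ a, ind (P a) = (Nat.card {a // P a} : ℚ) := by
  rw [Nat.card_eq_fintype_card, Fintype.card_subtype]
  simp [ind]

def ext {n : ℕ} (X : Matrix (Fin n) (Fin n) F) (v : Fin n → F) :
    Matrix (Fin (n+1)) (Fin (n+1)) F :=
  fun a b => Fin.lastCases (motive := fun _ => F) 0
    (fun a' => Fin.lastCases (motive := fun _ => F) (v a') (fun b' => X a' b') b) a

omit [Fintype F] in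
@[simp] theorem ext_last {n : ℕ} (X : Matrix (Fin n) (Fin n) F) (v : Fin n → F) (b) :
    ext X v (Fin.last n) b = 0 := by simp [ext]
omit [Fintype F] in
@[simp] theorem ext_cl {n : ℕ} (X : Matrix (Fin n) (Fin n) F) (v : Fin n → F) (a : Fin n) :
    ext X v a.castSucc (Fin.last n) = v a := by simp [ext]
omit [Fintype F] in
@[simp] theorem ext_cc {n : ℕ} (X : Matrix (Fin n) (Fin n) F) (v : Fin n → F) (a b : Fin n) :
    ext X v a.castSucc b.castSucc = X a b := by simp [ext]

omit [Fintype F] in
theorem U_ext {n : ℕ} (X : Matrix (Fin n) (Fin n) F) (v : Fin n → F) :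
    U (ext X v) ↔ U X ∧ X *ᵥ v = 0 := by
  constructor
  · rintro ⟨h1, h2⟩
    refine ⟨⟨fun a b h => ?_, ?_⟩, ?_⟩
    · have := h1 a.castSucc b.castSucc (by simpa using h)
      simpa using this
    · ext a b
      have := congrFun (congrFun h2 a.castSucc) b.castSucc
      simpa [Matrix.mul_apply, Fin.sum_univ_castSucc] using this
    · ext a
      have := congrFun (congrFun h2 a.castSucc) (Fin.last n)
      simpa [Matrix.mul_apply, Fin.sum_univ_castSucc, Matrix.mulVec, dotProduct] using this
  · rintro ⟨⟨h1, h2⟩, h3⟩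
    refine ⟨fun a b h => ?_, ?_⟩
    · induction a using Fin.lastCases with
      | last => simp
      | cast a =>
        induction b using Fin.lastCases with
        | last => exact absurd h (not_le.mpr (Fin.castSucc_lt_last a))
        | cast b => simpa using h1 a b (by simpa using h)
    · ext a b
      induction a using Fin.lastCases with
      | last => simp [Matrix.mul_apply]
      | cast a =>
        induction b using Fin.lastCases with
        | last =>
          have := congrFun h3 a
          simpa [Matrix.mul_apply, Fin.sum_univ_castSucc, Matrix.mulVec, dotProduct] using this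
        | cast b =>
          have := congrFun (congrFun h2 a) b
          simpa [Matrix.mul_apply, Fin.sum_univ_castSucc] using this

theorem sum_ext {n : ℕ} (P : Matrix (Fin (n+1)) (Fin (n+1)) F → Prop) :
    ∑ Y, ind (U Y ∧ P Y) =
      ∑ X : Matrix (Fin n) (Fin n) F, ∑ v : Fin n → F, ind (U X ∧ X *ᵥ v = 0 ∧ P (ext X v)) := by
  rw [← Fintype.sum_prod_type']
  symm
  refine Fintype.sum_of_injective (fun p : Matrix (Fin n) (Fin n) F × (Fin n → F) => ext p.1 p.2)
    ?_ _ _ ?_ ?_
  · rintro ⟨X, v⟩ ⟨X', v'⟩ h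
    simp only at h
    refine Prod.ext ?_ ?_
    · ext a b
      have := congrFun (congrFun h a.castSucc) b.castSucc
      simpa using this
    · ext a
      have := congrFun (congrFun h a.castSucc) (Fin.last n)
      simpa using this
  · intro Y hY
    refine ind_neg fun h => hY ⟨(fun a b => Y a.castSucc b.castSucc, fun a => Y a.castSucc (Fin.last n)), ?_⟩
    ext a b
    induction a using Fin.lastCases with
    | last => simpa using (h.1.1 _ _ (Fin.le_last b)).symm
    | cast a =>
      induction b using Fin.lastCases with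
      | last => simp
      | cast b => simp
  · rintro ⟨X, v⟩
    exact ind_congr (by simp only [U_ext]; tauto)

variable (F) in
noncomputable def A (n : ℕ) : ℚ := ∑ X : Matrix (Fin n) (Fin n) F, ind (U X)
variable (F) in
noncomputable def Ph (n j : ℕ) : ℚ :=
  ∑ Y : Matrix (Fin (n+1)) (Fin (n+1)) F, ind (U Y ∧ ∀ a : Fin (n+1), j ≤ a.val → Y a (Fin.last n) = 0)
variable (F) in
noncomputable def Z (n h : ℕ) : ℚ :=
  ∑ X : Matrix (Fin n) (Fin n) F, ind (U X ∧ ∀ a b : Fin n, b.val = h → X a b = 0)

theorem Ph_eq (n j : ℕ) : Ph F n j = ∑ v : Fin n → F, ind (∀ a : Fin n, j ≤ a.val → v a = 0) *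
    ∑ X : Matrix (Fin n) (Fin n) F, ind (U X ∧ X *ᵥ v = 0) := by
  rw [Ph, sum_ext, Finset.sum_comm]
  refine Finset.sum_congr rfl fun v _ => ?_
  rw [Finset.mul_sum]
  refine Finset.sum_congr rfl fun X _ => ?_
  rw [← ind_and]
  refine ind_congr ⟨fun h => ⟨fun a ha => ?_, h.1, h.2.1⟩, fun h => ⟨h.2.1, h.2.2, fun a ha => ?_⟩⟩
  · simpa using h.2.2 a.castSucc (by simpa using ha)
  · induction a using Fin.lastCases with
    | last => simp
    | cast a => simpa using h.1 a (by simpa using ha)

theorem Ph_zero (n : ℕ) : Ph F n 0 = A F n := by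
  rw [Ph_eq, Finset.sum_eq_single (0 : Fin n → F)]
  · simp [ind, A]
  · intro v _ hv
    rw [ind_neg, zero_mul]
    intro h
    exact hv (funext fun a => h a (Nat.zero_le _))
  · simp

theorem Ph_self (n : ℕ) : Ph F n n = A F (n+1) := by
  refine Finset.sum_congr rfl fun Y _ => ind_congr ⟨fun h => h.1, fun h => ⟨h, fun a ha => h.1 _ _ ?_⟩⟩
  rw [Fin.le_def]; simpa using ha

theorem A_zero : A F 0 = 1 := by
  rw [A, Finset.sum_eq_single (0 : Matrix (Fin 0) (Fin 0) F), ind_pos]
  · exact ⟨fun a => a.elim0, by simp⟩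
  · intro b _ hb
    exact absurd (by ext a; exact a.elim0) hb
  · simp

omit [Fintype F] in
theorem U_conj {n : ℕ} {g g' X : Matrix (Fin n) (Fin n) F} (hg : g.BlockTriangular id)
    (hg' : g'.BlockTriangular id) (h : g * g' = 1) (hX : U X) : U (g' * X * g) := by
  refine ⟨fun a b hab => ?_, ?_⟩
  · rw [Matrix.mul_apply]
    refine Finset.sum_eq_zero fun d _ => ?_
    by_cases hd : b < d
    · rw [hg (show id b < id d from hd), mul_zero]
    · rw [Matrix.mul_apply, Finset.sum_eq_zero, zero_mul]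
      intro c _
      by_cases hc : c < a
      · rw [hg' (show id c < id a from hc), zero_mul]
      · rw [hX.1 c d (by omega), mul_zero]
  · calc g' * X * g * (g' * X * g) = g' * X * (g * g') * X * g := by simp only [Matrix.mul_assoc]
      _ = g' * (X * X) * g := by rw [h]; simp only [Matrix.mul_assoc, Matrix.one_mul]
      _ = 0 := by rw [hX.2]; simp

theorem N_eq {n : ℕ} (h : Fin n) (v : Fin n → F) (hv : ∀ a : Fin n, h.val + 1 ≤ a.val → v a = 0)
    (hh : v h ≠ 0) : ∑ X : Matrix (Fin n) (Fin n) F, ind (U X ∧ X *ᵥ v = 0) = Z F n h := by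
  set g : Matrix (Fin n) (Fin n) F := (1 : Matrix (Fin n) (Fin n) F).updateCol h v with hgdef
  have hg : g.BlockTriangular id := by
    intro a b hab
    simp only [id] at hab
    rw [hgdef, Matrix.updateCol_apply]
    split_ifs with hb
    · subst hb; exact hv a hab
    · exact Matrix.one_apply_ne (ne_of_gt hab)
  have hdet : IsUnit g.det := by
    rw [Matrix.det_of_upperTriangular hg, isUnit_iff_ne_zero, Finset.prod_ne_zero_iff]
    intro a _
    rw [hgdef, Matrix.updateCol_apply]
    split_ifs with hb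
    · subst hb; exact hh
    · simp
  letI := Matrix.invertibleOfIsUnitDet g hdet
  have hg' : g⁻¹.BlockTriangular id := Matrix.blockTriangular_inv_of_blockTriangular hg
  have h1 : g * g⁻¹ = 1 := Matrix.mul_nonsing_inv g hdet
  have h2 : g⁻¹ * g = 1 := Matrix.nonsing_inv_mul g hdet
  have e1 : ∀ X : Matrix (Fin n) (Fin n) F, g * (g⁻¹ * X * g) * g⁻¹ = X := fun X => by
    calc g * (g⁻¹ * X * g) * g⁻¹ = (g * g⁻¹) * X * (g * g⁻¹) := by simp only [Matrix.mul_assoc]
      _ = X := by rw [h1]; simp
  have e2 : ∀ X : Matrix (Fin n) (Fin n) F, g⁻¹ * (g * X * g⁻¹) * g = X := fun X => by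
    calc g⁻¹ * (g * X * g⁻¹) * g = (g⁻¹ * g) * X * (g⁻¹ * g) := by simp only [Matrix.mul_assoc]
      _ = X := by rw [h2]; simp
  let e : Matrix (Fin n) (Fin n) F ≃ Matrix (Fin n) (Fin n) F :=
    ⟨fun X => g⁻¹ * X * g, fun X => g * X * g⁻¹, e1, e2⟩
  rw [Z]
  refine Eq.trans ?_ (Equiv.sum_comp e _)
  refine Finset.sum_congr rfl fun X _ => ind_congr ?_
  have key : ∀ a, (g⁻¹ * X * g) a h = (g⁻¹ *ᵥ (X *ᵥ v)) a := by
    intro a
    rw [Matrix.mulVec_mulVec, Matrix.mul_apply, Matrix.mulVec, dotProduct]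
    refine Finset.sum_congr rfl fun d _ => ?_
    rw [hgdef, Matrix.updateCol_self]
  constructor
  · rintro ⟨hX, hXv⟩
    refine ⟨U_conj hg hg' h1 hX, fun a b hb => ?_⟩
    obtain rfl : b = h := Fin.ext hb
    show (g⁻¹ * X * g) a b = 0
    rw [key, hXv]; simp
  · rintro ⟨hX, hXv⟩
    refine ⟨?_, ?_⟩
    · have := U_conj hg' hg h2 hX
      rwa [show g * e X * g⁻¹ = X from e1 X] at this
    · have : g⁻¹ *ᵥ (X *ᵥ v) = 0 := funext fun a => by rw [← key]; exact hXv a h rfl
      have h3 := congrArg (fun w => g *ᵥ w) this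
      simpa [Matrix.mulVec_mulVec, ← Matrix.mul_assoc, h1] using h3

theorem T_eq {n j : ℕ} (hj : j ≤ n) :
    ∑ v : Fin n → F, ind (∀ a : Fin n, j ≤ a.val → v a = 0) = (Fintype.card F : ℚ) ^ j := by
  have : ∑ v : Fin n → F, ind (∀ a : Fin n, j ≤ a.val → v a = 0) =
      ((Fintype.piFinset fun a : Fin n => if a.val < j then (univ : Finset F) else {0}).card : ℚ) := by
    rw [sum_ind, ← Nat.card_eq_finsetCard]
    refine congrArg _ (Nat.card_congr (Equiv.subtypeEquivRight fun v => ?_))
    simp only [Fintype.mem_piFinset]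
    refine forall_congr' fun a => ?_
    split_ifs with h
    · simp; omega
    · simp; omega
  rw [this, Fintype.card_piFinset]
  simp only [apply_ite Finset.card, Finset.card_univ, Finset.card_singleton]
  rw [Finset.prod_ite]
  simp [Fin.card_filter_val_lt, hj]

theorem Ph_succ {n j : ℕ} (hj : j < n) :
    Ph F n (j+1) = Ph F n j + ((Fintype.card F : ℚ) ^ (j+1) - (Fintype.card F : ℚ) ^ j) * Z F n j := by
  rw [← T_eq (F := F) (show j + 1 ≤ n from hj), ← T_eq (F := F) hj.le, Ph_eq, Ph_eq,
    ← Finset.sum_sub_distrib, Finset.sum_mul, ← Finset.sum_add_distrib]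
  refine Finset.sum_congr rfl fun v _ => ?_
  by_cases h1 : ∀ a : Fin n, j ≤ a.val → v a = 0
  · rw [ind_pos h1, ind_pos (fun a ha => h1 a (by omega))]; ring
  · by_cases h2 : ∀ a : Fin n, j + 1 ≤ a.val → v a = 0
    · rw [ind_neg h1, ind_pos h2, N_eq ⟨j, hj⟩ v h2]
      · ring
      · intro h0
        refine h1 fun a ha => ?_
        rcases ha.eq_or_lt with h | h
        · obtain rfl : a = ⟨j, hj⟩ := Fin.ext h.symm
          exact h0
        · exact h2 a h
    · rw [ind_neg h1, ind_neg h2]; ring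

def sig (m h : ℕ) (hh : h ≤ m) : Fin (m+1) ≃ Fin (m+1) where
  toFun a := ⟨if a.val = h then m else if h < a.val then m - a.val else m - 1 - a.val, by
    split_ifs <;> omega⟩
  invFun c := ⟨if c.val = m then h else if c.val < m - h then m - c.val else m - 1 - c.val, by
    split_ifs <;> omega⟩
  left_inv a := by
    have := a.2
    apply Fin.ext; simp only; split_ifs <;> omega
  right_inv a := by
    have := a.2
    apply Fin.ext; simp only; split_ifs <;> omega

theorem Z_eq {m h : ℕ} (hh : h ≤ m) : Z F (m+1) h = Ph F m (m - h) := by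
  let σ := sig m h hh
  let e : Matrix (Fin (m+1)) (Fin (m+1)) F ≃ Matrix (Fin (m+1)) (Fin (m+1)) F :=
    ⟨fun Y => (Y.submatrix σ σ)ᵀ, fun X => (X.submatrix σ.symm σ.symm)ᵀ,
      fun Y => by ext a b; simp, fun X => by ext a b; simp⟩
  rw [Z, Ph, ← Equiv.sum_comp e]
  refine Finset.sum_congr rfl fun Y _ => ind_congr ?_
  have hsq : e Y * e Y = 0 ↔ Y * Y = 0 := by
    have : e Y * e Y = e (Y * Y) := by
      show (Y.submatrix σ σ)ᵀ * (Y.submatrix σ σ)ᵀ = ((Y * Y).submatrix σ σ)ᵀ
      rw [← Matrix.transpose_mul, Matrix.submatrix_mul_equiv]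
    rw [this]
    constructor
    · intro h0
      apply e.injective
      rw [h0]; ext a b; rfl
    · intro h0
      rw [h0]; ext a b; rfl
  have hv : ∀ a : Fin (m+1), (σ a).val =
      if a.val = h then m else if h < a.val then m - a.val else m - 1 - a.val := fun a => rfl
  have he : ∀ a b, e Y a b = Y (σ b) (σ a) := fun a b => rfl
  simp only [U, hsq, he]
  constructor
  · rintro ⟨⟨h1, h2⟩, h3⟩
    have k : ∀ c d : Fin (m+1), (d ≤ c ∨ (d.val = m ∧ m - h ≤ c.val)) → Y c d = 0 := by
      intro c d hcd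
      obtain ⟨b, rfl⟩ := σ.surjective c
      obtain ⟨a, rfl⟩ := σ.surjective d
      by_cases hb : b.val = h
      · exact h3 a b hb
      · refine h1 a b ?_
        have ha' := a.2
        have hb' := b.2
        rw [Fin.le_def] at hcd ⊢
        rw [hv, hv] at hcd
        split_ifs at hcd <;> omega
    exact ⟨⟨fun c d hcd => k c d (Or.inl hcd), h2⟩, fun c hc => k c _ (Or.inr ⟨rfl, hc⟩)⟩
  · rintro ⟨⟨h1, h2⟩, h3⟩
    have k : ∀ a b : Fin (m+1), (b ≤ a ∨ b.val = h) → Y (σ b) (σ a) = 0 := by
      intro a b hab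
      by_cases hle : σ a ≤ σ b
      · exact h1 _ _ hle
      · have ha' := a.2
        have hb' := b.2
        have hva := hv a
        have hvb := hv b
        rw [Fin.le_def] at hle hab
        have e1 : σ a = Fin.last m := by
          apply Fin.ext; rw [Fin.val_last]; split_ifs at hva hvb <;> omega
        rw [e1]
        refine h3 _ ?_
        have e2 := congrArg Fin.val e1
        rw [Fin.val_last] at e2
        split_ifs at hva hvb <;> omega
    exact ⟨⟨fun a b hab => k a b (Or.inl hab), h2⟩, fun a b hb => k a b (Or.inr hb)⟩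

variable (F) in
noncomputable def R (n r : ℕ) : ℚ := ∑ X : Matrix (Fin n) (Fin n) F, ind (U X ∧ X.rank = r)

omit [Fintype F] in
theorem rank_ext {n : ℕ} (X : Matrix (Fin n) (Fin n) F) (v : Fin n → F) :
    (ext X v).rank = X.rank + if v ∈ LinearMap.range X.mulVecLin then 0 else 1 := by
  let ι : (Fin n → F) →ₗ[F] (Fin (n+1) → F) :=
    { toFun := fun w a => Fin.lastCases (motive := fun _ => F) 0 w a
      map_add' := fun w w' => by
        ext a; induction a using Fin.lastCases <;> simp
      map_smul' := fun c w => by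
        ext a; induction a using Fin.lastCases <;> simp }
  have hι : Function.Injective ι := by
    intro w w' h
    ext a
    have := congrFun h a.castSucc
    simpa [ι] using this
  have hm : ∀ u : Fin (n+1) → F, (ext X v) *ᵥ u =
      ι (X *ᵥ (fun a => u a.castSucc) + u (Fin.last n) • v) := by
    intro u
    ext a
    induction a using Fin.lastCases with
    | last => simp [ι, Matrix.mulVec, dotProduct]
    | cast a => simp [ι, Matrix.mulVec, dotProduct, Fin.sum_univ_castSucc, mul_comm]
  have hr : LinearMap.range (ext X v).mulVecLin =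
      (LinearMap.range X.mulVecLin ⊔ Submodule.span F {v}).map ι := by
    ext w
    simp only [LinearMap.mem_range, Matrix.mulVecLin_apply, Submodule.mem_map, Submodule.mem_sup,
      Submodule.mem_span_singleton]
    constructor
    · rintro ⟨u, rfl⟩
      exact ⟨_, ⟨_, ⟨_, rfl⟩, _, ⟨_, rfl⟩, rfl⟩, (hm u).symm⟩
    · rintro ⟨_, ⟨_, ⟨u, rfl⟩, _, ⟨c, rfl⟩, rfl⟩, rfl⟩
      refine ⟨fun a => Fin.lastCases (motive := fun _ => F) c u a, ?_⟩
      rw [hm]; simp
  rw [Matrix.rank, hr, (Submodule.equivMapOfInjective ι hι _).symm.finrank_eq, Matrix.rank]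
  split_ifs with h
  · rw [sup_eq_left.mpr ((Submodule.span_singleton_le_iff_mem _ _).mpr h)]; rfl
  · exact Submodule.finrank_sup_span_singleton h

theorem card_sub {n : ℕ} (W : Submodule F (Fin n → F)) :
    ∑ v, ind (v ∈ W) = (Fintype.card F : ℚ) ^ Module.finrank F W := by
  rw [sum_ind]
  have := Module.natCard_eq_pow_finrank (K := F) (V := W)
  rw [Nat.card_eq_fintype_card (α := F)] at this
  exact_mod_cast this

theorem inner_sum {n : ℕ} (X : Matrix (Fin n) (Fin n) F) (r : ℕ) :
    ∑ v : Fin n → F, ind (U X ∧ X *ᵥ v = 0 ∧ (ext X v).rank = r) =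
      (Fintype.card F : ℚ) ^ r * ind (U X ∧ X.rank = r) +
      ((Fintype.card F : ℚ) ^ (n - X.rank) - (Fintype.card F : ℚ) ^ X.rank) *
        ind (U X ∧ X.rank + 1 = r) := by
  by_cases hX : U X
  swap
  · simp [ind, hX]
  have hle : ∀ v ∈ LinearMap.range X.mulVecLin, X *ᵥ v = 0 := by
    rintro _ ⟨u, rfl⟩
    simp [Matrix.mulVec_mulVec, hX.2]
  have hk : Module.finrank F (LinearMap.ker X.mulVecLin) = n - X.rank := by
    have := LinearMap.finrank_range_add_finrank_ker X.mulVecLin
    rw [Module.finrank_fin_fun] at this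
    rw [Matrix.rank]; omega
  have h1 := card_sub (LinearMap.range X.mulVecLin)
  have h2 := card_sub (LinearMap.ker X.mulVecLin)
  rw [hk] at h2
  have h1' : ∑ v, ind (v ∈ LinearMap.range X.mulVecLin) = (Fintype.card F : ℚ) ^ X.rank := h1
  have e : (Fintype.card F : ℚ) ^ r * ind (U X ∧ X.rank = r) =
      (Fintype.card F : ℚ) ^ X.rank * ind (X.rank = r) := by
    by_cases h : X.rank = r
    · simp [h, hX]
    · simp [ind, h]
  rw [e, ← h1', ← h2, ← Finset.sum_sub_distrib, Finset.sum_mul, Finset.sum_mul,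
    ← Finset.sum_add_distrib]
  refine Finset.sum_congr rfl fun v _ => ?_
  rw [rank_ext]
  by_cases hv : v ∈ LinearMap.range X.mulVecLin
  · have := hle v hv
    have hk' : v ∈ LinearMap.ker X.mulVecLin := this
    rw [ind_pos hv, ind_pos hk', if_pos hv]
    simp [hX, this]
  · rw [ind_neg hv, if_neg hv]
    have : (v ∈ LinearMap.ker X.mulVecLin) ↔ X *ᵥ v = 0 := Iff.rfl
    rw [ind_congr this, sub_zero, zero_mul, zero_add, ← ind_and]
    exact ind_congr (by tauto)

theorem R_succ_zero (n : ℕ) : R F (n+1) 0 = R F n 0 := by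
  rw [R, sum_ext (fun Y => Y.rank = 0), R]
  refine Finset.sum_congr rfl fun X _ => ?_
  rw [inner_sum]; simp [ind]

theorem R_big {n r : ℕ} (h : n < r) : R F n r = 0 := by
  refine Finset.sum_eq_zero fun X _ => ind_neg fun hh => ?_
  have := Matrix.rank_le_width X
  omega

theorem R_succ_succ (n r : ℕ) : R F (n+1) (r+1) = (Fintype.card F : ℚ) ^ (r+1) * R F n (r+1) +
    ((Fintype.card F : ℚ) ^ (n - r) - (Fintype.card F : ℚ) ^ r) * R F n r := by
  rw [R, sum_ext (fun Y => Y.rank = r+1), R, R, Finset.mul_sum, Finset.mul_sum,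
    ← Finset.sum_add_distrib]
  refine Finset.sum_congr rfl fun X _ => ?_
  rw [inner_sum]
  by_cases h : X.rank = r
  · simp [h]
  · simp [ind, h]

theorem R_zero_zero : R F 0 0 = 1 := by
  rw [← A_zero (F := F), R, A]
  refine Finset.sum_congr rfl fun X _ => ind_congr ⟨fun h => h.1, fun h => ⟨h, ?_⟩⟩
  have := Matrix.rank_le_width X
  omega

theorem sum_R (n : ℕ) : ∑ r ∈ Finset.range (n+1), R F n r = A F n := by
  simp only [R]
  rw [Finset.sum_comm, A]
  refine Finset.sum_congr rfl fun X _ => ?_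
  rw [Finset.sum_eq_single X.rank]
  · simp
  · intro b _ hb
    exact ind_neg fun h => hb h.2.symm
  · intro h
    have := Matrix.rank_le_width X
    simp at h; omega

open LaurentPolynomial in
theorem laurent_eq (f g : LaurentPolynomial ℤ)
    (h : ∀ p : ℕ, p.Prime → ∀ u : ℚˣ, (u : ℚ) = p →
      LaurentPolynomial.eval₂ (Int.castRingHom ℚ) u f = LaurentPolynomial.eval₂ (Int.castRingHom ℚ) u g) :
    f = g := by
  obtain ⟨n, f', hf⟩ := LaurentPolynomial.exists_T_pow (f - g)
  have h0 : f'.map (Int.castRingHom ℚ) = 0 := by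
    apply Polynomial.eq_zero_of_infinite_isRoot
    refine Set.Infinite.mono ?_ (Nat.infinite_setOf_prime.image (f := fun p : ℕ => (p : ℚ))
      (fun a _ b _ hab => Nat.cast_injective hab))
    rintro _ ⟨p, hp, rfl⟩
    have hp0 : (p : ℚ) ≠ 0 := by exact_mod_cast (Nat.Prime.ne_zero hp)
    have := congrArg (LaurentPolynomial.eval₂ (Int.castRingHom ℚ) (Units.mk0 _ hp0)) hf
    rw [eval₂_toLaurent, map_mul, map_sub, h p hp _ rfl, sub_self, zero_mul] at this
    simpa [Polynomial.IsRoot, Polynomial.eval_map] using this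
  have h1 : f' = 0 := (Polynomial.map_eq_zero_iff (Int.castRingHom ℚ).injective_int).mp h0
  rw [h1, map_zero] at hf
  have h2 : (f - g) * T n * T (-n) = 0 := by rw [← hf, zero_mul]
  rw [mul_assoc, ← T_add, add_neg_cancel, T_zero, mul_one] at h2
  exact sub_eq_zero.mp h2

end Pool.Agent.H8.Kir
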