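import Mathlib

set_option autoImplicit false

open Filter Topology

namespace Pool.Agent.H8.LipTree

section Defs
variable {T : Type}

/-- a rooted locally finite tree without leaves other than the root, given by its parent map -/
def IsRootedTree (o : T) (p : T → T) : Prop :=
  p o = o ∧ (∀ v, ∃ n, p^[n] v = o) ∧ (∀ v, {w | p w = v}.Finite) ∧
    ∀ v, v ≠ o → ∃ w, w ≠ o ∧ p w = v

open Classical in
/-- value at the root and increments along the edges -/
noncomputable def D (o : T) (p : T → T) (f : T → ℂ) (v : T) : ℂ :=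
  if v = o then f o else f v - f (p v)

/-- membership in the little Lipschitz space -/
def InL0 (o : T) (p : T → T) (f : T → ℂ) : Prop := Tendsto (D o p f) cofinite (𝓝 0)

/-- the norm of the little Lipschitz space -/
noncomputable def nrm (o : T) (p : T → T) (f : T → ℂ) : ℝ := ⨆ v, ‖D o p f v‖

/-- composition with φ is a bounded operator of the little Lipschitz space -/
def IsCompOp (o : T) (p : T → T) (φ : T → T) : Prop :=
  ∃ C : ℝ, ∀ f, InL0 o p f → InL0 o p (f ∘ φ) ∧ nrm o p (f ∘ φ) ≤ C * nrm o p f

/-- some vector of the little Lipschitz space has a dense orbit -/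
def Hypercyclic (o : T) (p : T → T) (A : (T → ℂ) → (T → ℂ)) : Prop :=
  ∃ f, InL0 o p f ∧ ∀ g, InL0 o p g → ∀ ε > 0, ∃ n : ℕ, nrm o p (A^[n] f - g) < ε

end Defs

end Pool.Agent.H8.LipTree
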