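import Pool.Agent.H8.LipTree

set_option autoImplicit false

open Filter Topology

namespace Pool.Agent.H8.LipTree

def q (y : ℕ) : ℕ := y - 2 ^ (Nat.log 2 y - 1)

def p (x : ℤ) : ℤ := x.sign * q x.natAbs

theorem p_nat (y : ℕ) : p y = q y := by
  rcases Nat.eq_zero_or_pos y with rfl | h
  · simp [p, q]
  · simp [p, Int.sign_natCast_of_ne_zero h.ne']

theorem p_neg (x : ℤ) : p (-x) = -p x := by simp [p]

theorem p_zero : p 0 = 0 := by simp [p]

theorem q_of (y m : ℕ) (h1 : 2 ^ m ≤ y) (h2 : y < 2 ^ (m + 1)) : q y = y - 2 ^ (m - 1) := by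
  rw [q, Nat.log_eq_of_pow_le_of_lt_pow h1 h2]

theorem q_spec (y : ℕ) (hy : 1 ≤ y) : ∃ e : ℕ, q y + 2 ^ e = y ∧ y < 4 * 2 ^ e ∧ y ≤ 2 * q y + 1 := by
  have h1 := Nat.pow_log_le_self 2 (x := y) (by omega)
  have h2 := Nat.lt_pow_succ_log_self (b := 2) (by norm_num) y
  refine ⟨Nat.log 2 y - 1, ?_⟩
  unfold q
  rcases h : Nat.log 2 y with _ | m
  · rw [h] at h1 h2; simp at h1 h2 ⊢; omega
  · rw [h] at h1 h2
    simp only [Nat.succ_eq_add_one, pow_succ, Nat.add_sub_cancel] at h1 h2 ⊢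
    omega

theorem q_succ (z : ℕ) (hz : 1 ≤ z) : q (z + 1) = q z + 1 ∨
    (q (z + 1) = q (q z + 1) ∧ q (z + 1) = q (q z) + 1 ∧ q z ≠ 0) := by
  have h1 := Nat.pow_log_le_self 2 (x := z) (by omega)
  have h2 := Nat.lt_pow_succ_log_self (b := 2) (by norm_num) z
  have e0 := q_of z _ h1 h2
  generalize Nat.log 2 z = m at h1 h2 e0
  by_cases h : z + 1 < 2 ^ (m + 1)
  · left
    rw [q_of (z + 1) m (by omega) h, e0]
    have : 2 ^ (m - 1) ≤ 2 ^ m := Nat.pow_le_pow_right (by norm_num) (by omega)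
    omega
  · have e1 := q_of (z + 1) (m + 1) (by omega) (by simp only [Nat.succ_eq_add_one, pow_succ] at *; omega)
    rcases m with _ | m
    · left; simp at *; omega
    · right
      have hp : 0 < 2 ^ m := by positivity
      simp only [Nat.succ_eq_add_one, pow_succ, Nat.add_sub_cancel] at *
      have e2 := q_of (q z + 1) (m + 1) (by simp only [pow_succ]; omega) (by simp only [pow_succ]; omega)
      have e3 := q_of (q z) (m + 1) (by simp only [pow_succ]; omega) (by simp only [pow_succ]; omega)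
      simp only [Nat.add_sub_cancel] at e2 e3
      omega

theorem p_spec (x : ℤ) (hx : x ≠ 0) : ∃ e : ℕ, (x - p x = 2 ^ e ∨ x - p x = -2 ^ e) ∧
    |x| < 4 * 2 ^ e ∧ |x| ≤ 2 * |p x| + 1 ∧ |p x| < |x| := by
  obtain ⟨y, rfl | rfl⟩ := x.eq_nat_or_neg
  · obtain ⟨e, h1, h2, h3⟩ := q_spec y (by omega)
    have hp : (0 : ℤ) < 2 ^ e := by positivity
    refine ⟨e, Or.inl ?_, ?_⟩
    · rw [p_nat]; zify at h1; omega
    · rw [p_nat, Nat.abs_cast, Nat.abs_cast]; zify at h1 h2 h3; omega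
  · obtain ⟨e, h1, h2, h3⟩ := q_spec y (by omega)
    have hp : (0 : ℤ) < 2 ^ e := by positivity
    refine ⟨e, Or.inr ?_, ?_⟩
    · rw [p_neg, p_nat]; zify at h1; omega
    · rw [p_neg, p_nat, abs_neg, abs_neg, Nat.abs_cast, Nat.abs_cast]; zify at h1 h2 h3; omega

theorem p_bd (x : ℤ) : |x| ≤ 2 * |p x| + 1 ∧ |p x| ≤ |x| := by
  by_cases hx : x = 0
  · simp [hx, p_zero]
  · obtain ⟨e, -, -, h1, h2⟩ := p_spec x hx
    exact ⟨h1, h2.le⟩

theorem fin_abs (c : ℤ) : {x : ℤ | |x| ≤ c}.Finite :=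
  (Set.finite_Icc (-c) c).subset fun _ hx => abs_le.1 hx

theorem tree : IsRootedTree 0 p := by
  refine ⟨p_zero, ?_, fun v => (fin_abs (2 * |v| + 1)).subset fun w hw => ?_, ?_⟩
  · intro v
    induction h : v.natAbs using Nat.strong_induction_on generalizing v with
    | _ n ih =>
      by_cases hv : v = 0
      · exact ⟨0, hv⟩
      · obtain ⟨e, -, -, -, h2⟩ := p_spec v hv
        obtain ⟨m, hm⟩ := ih (p v).natAbs (by rw [← h]; zify; exact h2) (p v) rfl
        exact ⟨m + 1, hm⟩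
  · have := (p_bd w).1
    rw [show p w = v from hw] at this
    exact this
  · have key : ∀ y : ℕ, 1 ≤ y → q (y + 2 ^ Nat.log 2 y) = y := by
      intro y hy
      have h1 := Nat.pow_log_le_self 2 (x := y) (by omega)
      have h2 := Nat.lt_pow_succ_log_self (b := 2) (by norm_num) y
      rw [q_of _ (Nat.log 2 y + 1) (by rw [pow_succ]; omega)
        (by simp only [Nat.succ_eq_add_one, pow_succ] at *; omega)]
      simp
    intro v hv
    obtain ⟨y, rfl | rfl⟩ := v.eq_nat_or_neg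
    · exact ⟨(y + 2 ^ Nat.log 2 y : ℕ), by positivity, by rw [p_nat, key y (by omega)]⟩
    · exact ⟨-(y + 2 ^ Nat.log 2 y : ℕ), neg_ne_zero.2 (by positivity), by rw [p_neg, p_nat, key y (by omega)]⟩

theorem D_zero (f : ℤ → ℂ) : D 0 p f 0 = f 0 := by simp [D]
theorem D_ne (f : ℤ → ℂ) {v : ℤ} (hv : v ≠ 0) : D 0 p f v = f v - f (p v) := by simp [D, hv]
theorem D_sub (f g : ℤ → ℂ) (v : ℤ) : D 0 p (f - g) v = D 0 p f v - D 0 p g v := by
  by_cases hv : v = 0
  · simp [hv, D_zero]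
  · simp only [D_ne _ hv, Pi.sub_apply]; ring
theorem D_add (f g : ℤ → ℂ) (v : ℤ) : D 0 p (f + g) v = D 0 p f v + D 0 p g v := by
  by_cases hv : v = 0
  · simp [hv, D_zero]
  · simp only [D_ne _ hv, Pi.add_apply]; ring

theorem near (x : ℤ) : ∃ a b : ℤ, |x| ≤ 2 * |a| + 3 ∧ |x| ≤ 2 * |b| + 3 ∧ ∀ f : ℤ → ℂ,
    ‖D 0 p (f ∘ fun x => x + 1) x‖ ≤ ‖D 0 p f a‖ + ‖D 0 p f b‖ := by
  have one : p 1 = 0 := by decide
  by_cases h0 : x = 0
  · refine ⟨0, 1, by simp [h0], by simp [h0], fun f => ?_⟩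
    rw [h0, D_zero, D_zero, D_ne _ one_ne_zero, one]
    refine le_trans (le_of_eq ?_) (norm_add_le _ _)
    simp
  by_cases h1 : x = -1
  · refine ⟨1, 1, by simp [h1], by simp [h1], fun f => ?_⟩
    rw [D_ne _ h0, D_ne _ one_ne_zero, h1, p_neg, one]
    simp only [Function.comp, neg_add_cancel, neg_zero, zero_add]
    rw [norm_sub_rev]
    exact le_add_of_nonneg_right (norm_nonneg _)
  obtain ⟨y, rfl | rfl⟩ := x.eq_nat_or_neg
  · have hb := (p_bd y).1
    rw [p_nat, Nat.abs_cast, Nat.abs_cast] at hb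
    rcases q_succ y (by omega) with h | ⟨h, -, -⟩
    · refine ⟨(y + 1 : ℕ), (y + 1 : ℕ), by simp only [Nat.abs_cast]; omega,
        by simp only [Nat.abs_cast]; omega, fun f => ?_⟩
      rw [D_ne _ h0, D_ne _ (by omega), p_nat, p_nat, h]
      exact le_add_of_nonneg_right (norm_nonneg _)
    · refine ⟨(y + 1 : ℕ), (q y + 1 : ℕ), by simp only [Nat.abs_cast]; omega,
        by simp only [Nat.abs_cast]; omega, fun f => ?_⟩
      rw [D_ne _ h0, D_ne _ (by omega), D_ne _ (by omega), p_nat, p_nat, p_nat, h]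
      refine le_trans (le_of_eq ?_) (norm_sub_le _ _)
      simp
  · obtain ⟨z, rfl⟩ : ∃ z, y = z + 1 := ⟨y - 1, by omega⟩
    have hb := (p_bd z).1
    rw [p_nat, Nat.abs_cast, Nat.abs_cast] at hb
    have e1 : -((z + 1 : ℕ) : ℤ) + 1 = -z := by push_cast; ring
    rcases q_succ z (by omega) with h | ⟨-, h, h'⟩
    · refine ⟨-z, -z, by simp only [abs_neg, Nat.abs_cast]; omega,
        by simp only [abs_neg, Nat.abs_cast]; omega, fun f => ?_⟩
      rw [D_ne _ h0, D_ne _ (by omega), p_neg, p_neg, p_nat, p_nat, h]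
      have e2 : -((q z + 1 : ℕ) : ℤ) + 1 = -(q z : ℕ) := by push_cast; ring
      simp only [Function.comp, e1, e2]
      exact le_add_of_nonneg_right (norm_nonneg _)
    · refine ⟨-z, -(q z : ℕ), by simp only [abs_neg, Nat.abs_cast]; omega,
        by simp only [abs_neg, Nat.abs_cast]; omega, fun f => ?_⟩
      rw [D_ne _ h0, D_ne _ (by omega), D_ne _ (by omega), p_neg, p_neg, p_neg, p_nat, p_nat, p_nat, h]
      have e2 : -((q (q z) + 1 : ℕ) : ℤ) + 1 = -(q (q z) : ℕ) := by push_cast; ring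
      simp only [Function.comp, e1, e2]
      refine le_trans (le_of_eq ?_) (norm_add_le _ _)
      simp

theorem shift_bd (f : ℤ → ℂ) (c : ℝ) (h : ∀ v, ‖D 0 p f v‖ ≤ c) (v : ℤ) :
    ‖D 0 p (f ∘ fun x => x + 1) v‖ ≤ 2 * c := by
  obtain ⟨a, b, -, -, hf⟩ := near v
  linarith [hf f, h a, h b]

theorem l0_bdd (f : ℤ → ℂ) (hf : InL0 0 p f) : BddAbove (Set.range fun v => ‖D 0 p f v‖) :=
  hf.norm.bddAbove_range_of_cofinite

theorem compOp : IsCompOp 0 p (fun x => x + 1) := by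
  refine ⟨2, fun f hf => ⟨?_, ciSup_le (shift_bd f _ fun v => le_ciSup (l0_bdd f hf) v)⟩⟩
  choose a b ha hb hab using near
  have ht : ∀ a : ℤ → ℤ, (∀ x, |x| ≤ 2 * |a x| + 3) → Tendsto a cofinite cofinite := fun a ha =>
    Tendsto.cofinite_of_finite_preimage_singleton fun y =>
      (fin_abs (2 * |y| + 3)).subset fun x hx => by
        have := ha x
        rw [show a x = y from hx] at this
        exact this
  refine squeeze_zero_norm (fun x => hab x f) ?_
  simpa using ((hf.comp (ht a ha)).norm).add ((hf.comp (ht b hb)).norm)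

/-- logarithmic cutoff -/
noncomputable def κ (η A : ℝ) (x : ℤ) : ℝ := max 0 (1 - η * (Real.log (A + |(x : ℝ)|) - Real.log A))

theorem κ_bd {η A : ℝ} (hη : 0 < η) (hA : 0 < A) (x : ℤ) : 0 ≤ κ η A x ∧ κ η A x ≤ 1 := by
  refine ⟨le_max_left _ _, max_le zero_le_one ?_⟩
  have := Real.log_le_log hA (le_add_of_nonneg_right (abs_nonneg (x : ℝ)))
  nlinarith

theorem log_le4 {a b : ℝ} (ha : 0 < a) (hb : 0 < b) (h : a ≤ 4 * b) : Real.log a - Real.log b ≤ 3 := by
  rw [← Real.log_div ha.ne' hb.ne']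
  have := Real.log_le_sub_one_of_pos (div_pos ha hb)
  have h2 : a / b ≤ 4 := by rwa [div_le_iff₀ hb]
  linarith

theorem κ_one {η A : ℝ} (hη : 0 < η) (hA : 0 < A) (x : ℤ) (hx : |(x : ℝ)| ≤ A) :
    1 - κ η A x ≤ 3 * η := by
  have h1 := log_le4 (a := A + |(x : ℝ)|) (by positivity) hA (by linarith)
  have h2 : 1 - η * (Real.log (A + |(x : ℝ)|) - Real.log A) ≤ κ η A x := le_max_right _ _
  nlinarith

theorem κ_lip {η A : ℝ} (hη : 0 < η) (hA : 1 ≤ A) (y u : ℤ) (hu : |(u : ℝ)| ≤ A / 2) :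
    |κ η A (y + u) - κ η A (p y + u)| ≤ 3 * η := by
  have h1 : |(y : ℝ)| ≤ 2 * |(p y : ℝ)| + 1 := by exact_mod_cast (p_bd y).1
  have h2 : |(p y : ℝ)| ≤ |(y : ℝ)| := by exact_mod_cast (p_bd y).2
  have a1 := abs_add_le (y : ℝ) u
  have a2 := abs_add_le (p y : ℝ) u
  have a3 : |(y : ℝ)| ≤ |(y : ℝ) + u| + |(u : ℝ)| := by simpa using abs_sub ((y : ℝ) + u) u
  have a4 : |(p y : ℝ)| ≤ |(p y : ℝ) + u| + |(u : ℝ)| := by simpa using abs_sub ((p y : ℝ) + u) u
  have b1 := abs_nonneg ((y : ℝ) + u)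
  have b2 := abs_nonneg ((p y : ℝ) + u)
  have l1 := log_le4 (a := A + |(y : ℝ) + u|) (b := A + |(p y : ℝ) + u|) (by positivity)
    (by positivity) (by linarith)
  have l2 := log_le4 (b := A + |(y : ℝ) + u|) (a := A + |(p y : ℝ) + u|) (by positivity)
    (by positivity) (by linarith)
  unfold κ
  push_cast
  rw [max_comm, max_comm 0]
  refine (abs_max_sub_max_le_abs _ _ _).trans ?_
  rw [abs_le]
  constructor <;> nlinarith

theorem κ_fin {η A : ℝ} (hη : 0 < η) (hA : 0 < A) : {x | κ η A x ≠ 0}.Finite := by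
  refine (fin_abs ⌈A * Real.exp (1 / η)⌉).subset fun x hx => ?_
  have h1 : 0 < 1 - η * (Real.log (A + |(x : ℝ)|) - Real.log A) := by
    by_contra h
    exact hx (max_eq_left (not_lt.1 h))
  have h2 : Real.log (A + |(x : ℝ)|) < Real.log A + 1 / η := by
    have : Real.log (A + |(x : ℝ)|) - Real.log A < 1 / η := by
      rw [lt_div_iff₀ hη]; linarith
    linarith
  rw [Real.log_lt_iff_lt_exp (by positivity), Real.exp_add, Real.exp_log hA] at h2
  have h3 : |(x : ℝ)| ≤ ⌈A * Real.exp (1 / η)⌉ := by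
    linarith [Int.le_ceil (A * Real.exp (1 / η))]
  show |x| ≤ _
  exact_mod_cast h3

end Pool.Agent.H8.LipTree
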