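import Pool.Agent.H8.LipTree2

set_option autoImplicit false

open Filter Topology

namespace Pool.Agent.H8.LipTree

/-- truncated 2-adic valuation -/
noncomputable def tv (R : ℕ) (J : ℤ) : ℕ := Nat.findGreatest (fun b => (2 : ℤ) ^ b ∣ J) R

theorem tv_dvd (R : ℕ) (J : ℤ) : (2 : ℤ) ^ tv R J ∣ J :=
  Nat.findGreatest_spec (P := fun b => (2 : ℤ) ^ b ∣ J) (Nat.zero_le R) (by simp)
theorem tv_le (R : ℕ) (J : ℤ) : tv R J ≤ R := Nat.findGreatest_le R
theorem le_tv {R b : ℕ} {J : ℤ} (hb : b ≤ R) (h : (2 : ℤ) ^ b ∣ J) : b ≤ tv R J :=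
  Nat.le_findGreatest hb h
theorem tv_zero (R : ℕ) : tv R 0 = R := le_antisymm (tv_le _ _) (le_tv le_rfl (dvd_zero _))

theorem tv_step {R c : ℕ} {J J' : ℤ} (h : (2 : ℤ) ^ c ∣ J - J') (hJ : tv R J ≤ c + 4) :
    tv R J ≤ tv R J' + 4 := by
  have h1 : (2 : ℤ) ^ min (tv R J) c ∣ J' := by
    have a1 : (2 : ℤ) ^ min (tv R J) c ∣ J := (pow_dvd_pow _ (min_le_left _ _)).trans (tv_dvd R J)
    have a2 : (2 : ℤ) ^ min (tv R J) c ∣ J - J' := (pow_dvd_pow _ (min_le_right _ _)).trans h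
    simpa using a1.sub a2
  have := le_tv ((min_le_left _ _).trans (tv_le R J)) h1
  omega

theorem pow_le_imp {b c : ℕ} (h : (2 : ℤ) ^ b ≤ 16 * 2 ^ c) : b ≤ c + 4 := by
  have : (2 : ℤ) ^ b ≤ 2 ^ (c + 4) := by rw [pow_add]; linarith
  exact (pow_le_pow_iff_right₀ (by norm_num)).1 this

theorem bump (g : ℤ → ℂ) (M : ℝ) (hM : ∀ x, ‖g x‖ ≤ M) (a : ℕ) (hg : ∀ x : ℤ, 2 ^ a ≤ |x| → g x = 0)
    (R : ℕ) (hR : 0 < R) (N : ℤ) (hN : ∀ J : ℤ, 2 ^ tv R (J + N) ≤ 3 * |J| + 1) :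
    ∃ h : ℤ → ℂ, {x | h x ≠ 0}.Finite ∧ (∀ v, ‖D 0 p (h - g) v‖ ≤ 8 * M / R) ∧
      ∀ v, ‖D 0 p (fun x => h (x + 2 ^ (a + 1) * N)) v‖ ≤ 8 * M / R := by
  set H : ℤ := 2 ^ a with hH
  have hH0 : 0 < H := by positivity
  have hK : (2 : ℤ) ^ (a + 1) = 2 * H := by rw [pow_succ, hH]; ring
  rw [hK]
  set J : ℤ → ℤ := fun x => (x + H) / (2 * H) with hJ
  set ρ : ℤ → ℤ := fun x => x - 2 * H * J x with hρ
  have hρb : ∀ x, -H ≤ ρ x ∧ ρ x < H := fun x => by
    have h1 := Int.emod_nonneg (x + H) (b := 2 * H) (by omega)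
    have h2 := Int.emod_lt_of_pos (x + H) (b := 2 * H) (by omega)
    have h3 := Int.emod_add_mul_ediv (x + H) (2 * H)
    simp only [hρ, hJ]
    constructor <;> linarith
  have hJadd : ∀ x U, J (x + 2 * H * U) = J x + U := fun x U => by
    simp only [hJ]
    rw [show x + 2 * H * U + H = x + H + 2 * H * U by ring, Int.add_mul_ediv_left _ _ (by omega)]
  have hρadd : ∀ x U, ρ (x + 2 * H * U) = ρ x := fun x U => by
    simp only [hρ, hJadd]; ring
  have hJb : ∀ x, 2 * H * |J x| ≤ |x| + H ∧ |x| ≤ 2 * H * |J x| + H := fun x => by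
    have h1 := hρb x
    have h2 : x = 2 * H * J x + ρ x := by simp only [hρ]; ring
    have h3 : |2 * H * J x| = 2 * H * |J x| := by rw [abs_mul, abs_of_pos (by omega : 0 < 2 * H)]
    rw [← h3]
    constructor
    · rw [abs_le'] ; constructor <;> cases abs_cases x <;> omega
    · rw [abs_le'] ; constructor <;> cases abs_cases (2 * H * J x) <;> omega
  have hM0 : 0 ≤ M := (norm_nonneg _).trans (hM 0)
  have hR0 : (0 : ℝ) < R := by exact_mod_cast hR
  set η : ℝ := 1 / R with hη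
  have hη0 : 0 < η := by positivity
  set A : ℝ := 2 * |((2 * H * N : ℤ) : ℝ)| + ((4 * H : ℤ) : ℝ) + 1 with hA
  have hHr : (0 : ℝ) < ((4 * H : ℤ) : ℝ) := by exact_mod_cast (by omega : 0 < 4 * H)
  have hA1 : 1 ≤ A := by have := abs_nonneg ((2 * H * N : ℤ) : ℝ); linarith
  set w : ℤ → ℝ := fun x => (tv R (J x) : ℝ) * η * κ η A x with hw
  have htη : ∀ J, (tv R J : ℝ) * η ≤ 1 := fun J => by
    rw [hη, mul_one_div, div_le_one hR0]; exact_mod_cast tv_le R J
  have hwb : ∀ x (c : ℕ), tv R (J x) ≤ c → |w x| ≤ c * η := fun x c hc => by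
    obtain ⟨k0, k1⟩ := κ_bd hη0 (by linarith : 0 < A) x
    have h1 : (tv R (J x) : ℝ) ≤ c := by exact_mod_cast hc
    rw [abs_of_nonneg (by positivity)]
    calc w x ≤ (tv R (J x) : ℝ) * η := mul_le_of_le_one_right (by positivity) k1
      _ ≤ c * η := by gcongr
  have e8 : 8 * M / R = 8 * M * η := by rw [hη]; ring
  rw [e8]
  set h : ℤ → ℂ := fun x => g (ρ x) * (w x : ℂ) with hh
  -- large edges
  have large : ∀ U : ℤ, |((2 * H * U : ℤ) : ℝ)| ≤ A / 2 →
      (∀ J : ℤ, J ≠ 0 → 2 ^ tv R (J + U) ≤ 3 * |J| + 1) → ∀ y : ℤ, 4 * H ≤ |y| →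
      ‖h (y + 2 * H * U) - h (p y + 2 * H * U)‖ ≤ 8 * M * η := by
    intro U hU hUv y hy
    obtain ⟨e, he, he1, he2, he3⟩ := p_spec y (by rintro rfl; simp at hy; omega)
    have hea : a + 1 ≤ e := by
      have : (2 : ℤ) ^ a < 2 ^ e := by omega
      exact (pow_lt_pow_iff_right₀ (by norm_num)).1 this
    obtain ⟨c, rfl⟩ := Nat.exists_eq_add_of_le hea
    have hE : (2 : ℤ) ^ (a + 1 + c) = 2 * H * 2 ^ c := by rw [pow_add, hK]
    obtain ⟨σ, hσ, hσ'⟩ : ∃ σ : ℤ, y = p y + 2 * H * σ ∧ (2 : ℤ) ^ c ∣ σ := by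
      rcases he with he | he
      · exact ⟨2 ^ c, by rw [← hE]; omega, dvd_rfl⟩
      · exact ⟨-2 ^ c, by rw [mul_neg, ← hE]; omega, dvd_rfl.neg_right⟩
    have hJy : J y = J (p y) + σ := by conv_lhs => rw [hσ, hJadd]
    have hρy : ρ y = ρ (p y) := by conv_lhs => rw [hσ, hρadd]
    have hc0 : (0 : ℤ) < 2 ^ c := by positivity
    have hval : ∀ z : ℤ, |z| ≤ |y| → H < |z| → tv R (J z + U) ≤ c + 4 := by
      intro z hz1 hz2
      obtain ⟨b1, b2⟩ := hJb z
      have hne : J z ≠ 0 := by intro h0; rw [h0] at b2; simp at b2; omega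
      have b3 : |J z| ≤ 4 * 2 ^ c := by
        by_contra hcon
        have : 2 * H * (4 * 2 ^ c + 1) ≤ 2 * H * |J z| :=
          mul_le_mul_of_nonneg_left (by omega) (by omega)
        rw [hE] at he1
        nlinarith
      exact pow_le_imp ((hUv _ hne).trans (by omega))
    have t1 := hval y le_rfl (by omega)
    have t2 := hval (p y) he3.le (by omega)
    have s1 := tv_step (J' := J (p y) + U) (by rw [hJy]; simpa using hσ') t1
    have s2 := tv_step (J' := J y + U) (by rw [hJy]; simpa using hσ') t2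
    have s3 : |(tv R (J y + U) : ℝ) - tv R (J (p y) + U)| ≤ 4 := by
      rw [abs_le]; constructor
      · have : (tv R (J (p y) + U) : ℝ) ≤ tv R (J y + U) + 4 := by exact_mod_cast s2
        linarith
      · have : (tv R (J y + U) : ℝ) ≤ tv R (J (p y) + U) + 4 := by exact_mod_cast s1
        linarith
    have k1 := κ_lip hη0 hA1 y (2 * H * U) hU
    obtain ⟨k2, k3⟩ := κ_bd hη0 (by linarith : 0 < A) (y + 2 * H * U)
    have hwd : |w (y + 2 * H * U) - w (p y + 2 * H * U)| ≤ 7 * η := by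
      simp only [hw, hJadd]
      set t := (tv R (J y + U) : ℝ)
      set t' := (tv R (J (p y) + U) : ℝ)
      set k := κ η A (y + 2 * H * U)
      set k' := κ η A (p y + 2 * H * U)
      have e1 : t * η * k - t' * η * k' = (t - t') * (η * k) + (t' * η) * (k - k') := by ring
      rw [e1]
      refine (abs_add_le _ _).trans ?_
      rw [abs_mul (t - t'), abs_mul (t' * η), abs_of_nonneg (by positivity : 0 ≤ η * k),
        abs_of_nonneg (by positivity : 0 ≤ t' * η)]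
      have f1 : |t - t'| * (η * k) ≤ 4 * η :=
        mul_le_mul s3 (mul_le_of_le_one_right hη0.le k3) (by positivity) (by norm_num)
      have f2 : t' * η * |k - k'| ≤ 1 * (3 * η) :=
        mul_le_mul (htη _) k1 (abs_nonneg _) zero_le_one
      linarith
    simp only [hh, hρadd, hρy]
    rw [← mul_sub, norm_mul, ← Complex.ofReal_sub, Complex.norm_real, Real.norm_eq_abs]
    calc _ ≤ M * (7 * η) := mul_le_mul (hM _) hwd (abs_nonneg _) hM0
      _ ≤ 8 * M * η := by nlinarith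
  have hJs : ∀ z : ℤ, |z| < 4 * H → |J z| ≤ 2 := fun z hz => by
    by_contra hcon
    have : 2 * H * 3 ≤ 2 * H * |J z| := mul_le_mul_of_nonneg_left (by omega) (by omega)
    have := (hJb z).1
    omega
  have hsmall : ∀ x : ℤ, tv R (J x) ≤ 4 → ‖h x‖ ≤ 4 * M * η := fun x hx => by
    simp only [hh]
    rw [norm_mul, Complex.norm_real, Real.norm_eq_abs]
    calc _ ≤ M * ((4 : ℕ) * η) := mul_le_mul (hM _) (hwb x 4 hx) (abs_nonneg _) hM0
      _ = 4 * M * η := by push_cast; ring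
  have hU0 : ∀ J : ℤ, J ≠ 0 → 2 ^ tv R (J + 0) ≤ 3 * |J| + 1 := fun J hJ => by
    have := Int.le_of_dvd (abs_pos.2 hJ) ((dvd_abs _ _).2 (tv_dvd R J))
    rw [add_zero]
    have := abs_nonneg J
    omega
  have small1 : ∀ z : ℤ, |z| < 4 * H → ‖(h - g) z‖ ≤ 4 * M * η := by
    intro z hz
    by_cases h0 : J z = 0
    · have e1 : ρ z = z := by simp [hρ, h0]
      have e2 : w z = κ η A z := by
        simp only [hw, h0, tv_zero, hη]; field_simp
      have hzA : |(z : ℝ)| ≤ A := by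
        have : |(z : ℝ)| ≤ ((4 * H : ℤ) : ℝ) := by exact_mod_cast hz.le
        have := abs_nonneg ((2 * H * N : ℤ) : ℝ)
        linarith
      have k1 := κ_one hη0 (by linarith : 0 < A) z hzA
      obtain ⟨k2, k3⟩ := κ_bd hη0 (by linarith : 0 < A) z
      simp only [Pi.sub_apply, hh, e1, e2]
      rw [← mul_sub_one, norm_mul, ← Complex.ofReal_one, ← Complex.ofReal_sub, Complex.norm_real,
        Real.norm_eq_abs, abs_sub_comm, abs_of_nonneg (by linarith)]
      calc _ ≤ M * (3 * η) := mul_le_mul (hM _) k1 (by linarith) hM0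
        _ ≤ 4 * M * η := by nlinarith
    · have e1 : g z = 0 := by
        apply hg
        have h1 : 2 * H * 1 ≤ 2 * H * |J z| :=
          mul_le_mul_of_nonneg_left (Int.one_le_abs h0) (by omega)
        have := (hJb z).1
        omega
      simp only [Pi.sub_apply, e1, sub_zero]
      refine hsmall z (pow_le_imp (c := 0) ?_)
      have := hU0 _ h0
      have := hJs z hz
      rw [add_zero] at *
      omega
  have small2 : ∀ z : ℤ, |z| < 4 * H → ‖h (z + 2 * H * N)‖ ≤ 4 * M * η := by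
    intro z hz
    refine hsmall _ (pow_le_imp (c := 0) ?_)
    rw [hJadd]
    have := hN (J z)
    have := hJs z hz
    omega
  have hMη : 0 ≤ M * η := by positivity
  refine ⟨h, (κ_fin hη0 (by linarith : 0 < A)).subset fun x hx h0 => hx (by simp [hh, hw, h0]),
    fun v => ?_, fun v => ?_⟩
  · by_cases hv : v = 0
    · rw [hv, D_zero]; linarith [small1 0 (by simp; omega)]
    rw [D_ne _ hv]
    by_cases hs : |v| < 4 * H
    · linarith [norm_sub_le ((h - g) v) ((h - g) (p v)), small1 v hs,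
        small1 (p v) ((p_bd v).2.trans_lt hs)]
    · have h1 := large 0 (by simp; linarith) hU0 v (by omega)
      have := (p_bd v).1
      simp only [Pi.sub_apply, hg v (by omega), hg (p v) (by omega), sub_zero]
      simpa using h1
  · by_cases hv : v = 0
    · rw [hv, D_zero]; linarith [small2 0 (by simp; omega)]
    rw [D_ne _ hv]
    by_cases hs : |v| < 4 * H
    · linarith [norm_sub_le (h (v + 2 * H * N)) (h (p v + 2 * H * N)), small2 v hs,
        small2 (p v) ((p_bd v).2.trans_lt hs)]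
    · exact large N (by linarith) (fun J _ => hN J) v (by omega)

theorem exists_N (R : ℕ) : ∃ N : ℕ, (∀ J : ℤ, 2 ^ tv R (J + N) ≤ 3 * |J| + 1) ∧
    ∀ J : ℤ, 2 ^ tv R (J + -N) ≤ 3 * |J| + 1 := by
  obtain ⟨N, hN⟩ : ∃ N : ℕ, 3 * N + 1 = 4 ^ R := by
    induction R with
    | zero => exact ⟨0, rfl⟩
    | succ R ih => obtain ⟨N, hN⟩ := ih; exact ⟨4 * N + 1, by rw [pow_succ]; omega⟩
  have hd : ∀ b ≤ R, (2 : ℤ) ^ b ∣ 3 * N + 1 := fun b hb => by
    have : (3 * N + 1 : ℤ) = 2 ^ (2 * R) := by rw [pow_mul]; exact_mod_cast hN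
    rw [this]; exact pow_dvd_pow _ (by omega)
  refine ⟨N, fun J => ?_, fun J => ?_⟩
  · have h1 := ((tv_dvd R (J + N)).mul_left 3).sub (hd _ (tv_le R _))
    have h2 := Int.le_of_dvd (abs_pos.2 (by omega)) ((dvd_abs _ _).2 h1)
    refine h2.trans ?_
    rw [abs_le']; constructor <;> cases abs_cases J <;> omega
  · have h1 := ((tv_dvd R (J + -N)).mul_left 3).add (hd _ (tv_le R _))
    have h2 := Int.le_of_dvd (abs_pos.2 (by omega)) ((dvd_abs _ _).2 h1)
    refine h2.trans ?_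
    rw [abs_le']; constructor <;> cases abs_cases J <;> omega

theorem fin_bd (g : ℤ → ℂ) (hg : {x | g x ≠ 0}.Finite) :
    ∃ (M : ℝ) (a : ℕ), (∀ x, ‖g x‖ ≤ M) ∧ ∀ x : ℤ, 2 ^ a ≤ |x| → g x = 0 := by
  obtain ⟨M, hM⟩ := (hg.image fun x => ‖g x‖).bddAbove
  obtain ⟨B, hB⟩ := (hg.image fun x => |x|).bddAbove
  obtain ⟨a, ha⟩ := pow_unbounded_of_one_lt B (by norm_num : (1 : ℤ) < 2)
  refine ⟨max M 0, a, fun x => ?_, fun x hx => ?_⟩
  · by_cases h : g x = 0
    · simp [h]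
    · exact (hM ⟨x, h, rfl⟩).trans (le_max_left _ _)
  · by_contra h
    have := hB ⟨x, h, rfl⟩
    simp only at this
    omega

theorem transit (g1 g2 : ℤ → ℂ) (h1 : {x | g1 x ≠ 0}.Finite) (h2 : {x | g2 x ≠ 0}.Finite)
    (ε : ℝ) (hε : 0 < ε) : ∃ (n : ℕ) (f : ℤ → ℂ), {x | f x ≠ 0}.Finite ∧
      (∀ v, ‖D 0 p (f - g1) v‖ ≤ ε) ∧ ∀ v, ‖D 0 p ((fun x => f (x + n)) - g2) v‖ ≤ ε := by
  obtain ⟨M1, a1, hM1, ha1⟩ := fin_bd g1 h1
  obtain ⟨M2, a2, hM2, ha2⟩ := fin_bd g2 h2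
  obtain ⟨R, hR⟩ := exists_nat_gt (16 * max M1 M2 / ε)
  have hM0 : 0 ≤ max M1 M2 := ((norm_nonneg _).trans (hM1 0)).trans (le_max_left _ _)
  have hR0 : (0 : ℝ) < R := lt_of_le_of_lt (by positivity) hR
  obtain ⟨N, hN1, hN2⟩ := exists_N R
  obtain ⟨k1, f1, b1, c1⟩ := bump g1 (max M1 M2) (fun x => (hM1 x).trans (le_max_left _ _)) (a1 + a2)
    (fun x hx => ha1 x (le_trans (pow_le_pow_right₀ (by norm_num) (by omega)) hx)) R
    (by exact_mod_cast hR0) N hN1
  obtain ⟨k2, f2, b2, c2⟩ := bump g2 (max M1 M2) (fun x => (hM2 x).trans (le_max_right _ _)) (a1 + a2)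
    (fun x hx => ha2 x (le_trans (pow_le_pow_right₀ (by norm_num) (by omega)) hx)) R
    (by exact_mod_cast hR0) (-N) hN2
  have hb : 8 * max M1 M2 / R ≤ ε / 2 := by
    rw [div_lt_iff₀ hε] at hR
    rw [div_le_iff₀ hR0]; linarith
  refine ⟨2 ^ (a1 + a2 + 1) * N, k1 + fun x => k2 (x + 2 ^ (a1 + a2 + 1) * -N), ?_, fun v => ?_,
    fun v => ?_⟩
  · refine (f1.union (f2.preimage (add_left_injective (2 ^ (a1 + a2 + 1) * -(N : ℤ))).injOn)).subset ?_
    intro x hx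
    by_contra hcon
    simp only [Set.mem_union, Set.mem_setOf_eq, Set.mem_preimage, not_or, not_not] at hcon
    exact hx (by simp only [Pi.add_apply, hcon.1, hcon.2, add_zero])
  · rw [add_sub_right_comm, D_add]
    linarith [norm_add_le (D 0 p (k1 - g1) v) (D 0 p (fun x => k2 (x + 2 ^ (a1 + a2 + 1) * -N)) v),
      b1 v, c2 v]
  · have : ((fun x : ℤ => (k1 + fun x => k2 (x + 2 ^ (a1 + a2 + 1) * -N))
        (x + ((2 ^ (a1 + a2 + 1) * N : ℕ) : ℤ))) - g2) =
        (fun x => k1 (x + 2 ^ (a1 + a2 + 1) * N)) + (k2 - g2) := by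
      funext x; simp; ring
    rw [this, D_add]
    linarith [norm_add_le (D 0 p (fun x => k1 (x + 2 ^ (a1 + a2 + 1) * N)) v) (D 0 p (k2 - g2) v),
      b2 v, c1 v]

end Pool.Agent.H8.LipTree
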