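import Pool.Agent.H8.LipTree3

set_option autoImplicit false

open Filter Topology ZeroAtInfty

namespace Pool.Agent.H8.LipTree

/-- summation along the path to the root -/
noncomputable def S (d : ℤ → ℂ) (x : ℤ) : ℂ :=
  if h : x = 0 then d 0 else d x + S d (p x)
termination_by x.natAbs
decreasing_by
  obtain ⟨e, -, -, -, h2⟩ := p_spec x h
  zify; exact h2

theorem D_S (d : ℤ → ℂ) (v : ℤ) : D 0 p (S d) v = d v := by
  by_cases hv : v = 0
  · rw [hv, D_zero, S]; simp
  · rw [D_ne _ hv, S]; simp [hv]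

theorem S_D (f : ℤ → ℂ) (v : ℤ) : S (D 0 p f) v = f v := by
  induction h : v.natAbs using Nat.strong_induction_on generalizing v with
  | _ n ih =>
    by_cases hv : v = 0
    · rw [hv, S]; simp [D_zero]
    · obtain ⟨e, -, -, -, h2⟩ := p_spec v hv
      rw [S, dif_neg hv, ih (p v).natAbs (by rw [← h]; zify; exact h2) (p v) rfl, D_ne _ hv]
      ring

theorem S_bd (d : ℤ → ℂ) (hd : {x | d x ≠ 0}.Finite) : ∃ M : ℝ, ∀ v, ‖S d v‖ ≤ M := by
  obtain ⟨B, hB⟩ := (hd.image fun x => |x|).bddAbove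
  obtain ⟨M, hM⟩ := ((fin_abs (max B 0)).image fun x => ‖S d x‖).bddAbove
  refine ⟨M, fun v => ?_⟩
  induction h : v.natAbs using Nat.strong_induction_on generalizing v with
  | _ n ih =>
    by_cases hv : |v| ≤ max B 0
    · exact hM ⟨v, hv, rfl⟩
    · have hv0 : v ≠ 0 := by rintro rfl; simp at hv
      obtain ⟨e, -, -, -, h2⟩ := p_spec v hv0
      have h0 : d v = 0 := by
        by_contra h0
        exact hv ((hB ⟨v, h0, rfl⟩).trans (le_max_left _ _))
      rw [S, dif_neg hv0, h0, zero_add]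
      exact ih (p v).natAbs (by rw [← h]; zify; exact h2) (p v) rfl

theorem dens (f : ℤ → ℂ) (hf : InL0 0 p f) (ε : ℝ) (hε : 0 < ε) :
    ∃ g : ℤ → ℂ, {x | g x ≠ 0}.Finite ∧ ∀ v, ‖D 0 p (f - g) v‖ ≤ ε := by
  classical
  have h1 : {v | ¬ ‖D 0 p f v‖ < ε / 2}.Finite := by
    have := hf.norm.eventually (gt_mem_nhds (show ‖(0 : ℂ)‖ < ε / 2 by simp [hε]))
    exact this
  set d : ℤ → ℂ := fun v => if ‖D 0 p f v‖ < ε / 2 then 0 else D 0 p f v with hd
  have hdf : {x | d x ≠ 0}.Finite := h1.subset fun x hx h => hx (by simp [hd, h])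
  obtain ⟨M, hM⟩ := S_bd d hdf
  obtain ⟨B, hB⟩ := (hdf.image fun x : ℤ => |(x : ℝ)|).bddAbove
  have hM0 : 0 ≤ M := (norm_nonneg _).trans (hM 0)
  set η : ℝ := ε / (18 * (M + 1)) with hη
  have hη0 : 0 < η := by positivity
  have hηM : 9 * M * η ≤ ε / 2 := by
    rw [hη, mul_div_assoc', div_le_div_iff₀ (by positivity) (by norm_num)]; nlinarith
  set A : ℝ := max B 1 with hA
  have hA1 : 1 ≤ A := le_max_right _ _
  refine ⟨fun x => S d x * κ η A x, (κ_fin hη0 (by linarith : 0 < A)).subset fun x hx h0 =>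
    hx (by simp [h0]), fun v => ?_⟩
  have e : f - (fun x => S d x * κ η A x) = (f - S d) + (S d - fun x => S d x * κ η A x) := by ring
  have b1 : ‖D 0 p (f - S d) v‖ ≤ ε / 2 := by
    rw [D_sub, D_S]
    simp only [hd]
    split_ifs with h
    · simpa using h.le
    · simp; linarith
  have hk : ∀ x : ℤ, |(x : ℝ)| ≤ A → ‖(1 : ℂ) - κ η A x‖ ≤ 3 * η := fun x hx => by
    rw [← Complex.ofReal_one, ← Complex.ofReal_sub, Complex.norm_real, Real.norm_eq_abs,
      abs_of_nonneg (by linarith [(κ_bd hη0 (by linarith : 0 < A) x).2])]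
    exact κ_one hη0 (by linarith) x hx
  have b2 : ‖D 0 p (S d - fun x => S d x * κ η A x) v‖ ≤ 9 * M * η := by
    by_cases hv : v = 0
    · rw [hv, D_zero, Pi.sub_apply, ← mul_one_sub, norm_mul]
      calc _ ≤ M * (3 * η) := mul_le_mul (hM _) (hk 0 (by simp; linarith)) (norm_nonneg _) hM0
        _ ≤ _ := by nlinarith
    · have e2 : D 0 p (S d - fun x => S d x * κ η A x) v =
          d v * (1 - κ η A v) - S d (p v) * ((κ η A v - κ η A (p v) : ℝ) : ℂ) := by
        rw [D_ne _ hv, ← D_S d v, D_ne _ hv]; simp only [Pi.sub_apply]; push_cast; ring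
      have c1 : ‖d v * (1 - κ η A v)‖ ≤ 2 * M * (3 * η) := by
        by_cases h0 : d v = 0
        · rw [h0, zero_mul, norm_zero]; positivity
        · rw [norm_mul]
          refine mul_le_mul ?_ (hk v ((hB ⟨v, h0, rfl⟩).trans (le_max_left _ _))) (norm_nonneg _)
            (by positivity)
          rw [← D_S d v, D_ne _ hv]
          linarith [norm_sub_le (S d v) (S d (p v)), hM v, hM (p v)]
      have c2 : ‖S d (p v) * ((κ η A v - κ η A (p v) : ℝ) : ℂ)‖ ≤ M * (3 * η) := by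
        rw [norm_mul, Complex.norm_real, Real.norm_eq_abs]
        refine mul_le_mul (hM _) ?_ (abs_nonneg _) hM0
        simpa using κ_lip hη0 hA1 v 0 (by simp; linarith)
      rw [e2]
      linarith [norm_sub_le (d v * (1 - κ η A v)) (S d (p v) * ((κ η A v - κ η A (p v) : ℝ) : ℂ))]
  rw [e, D_add]
  linarith [norm_add_le (D 0 p (f - S d) v) (D 0 p (S d - fun x => S d x * κ η A x) v)]

theorem D_pt (f : ℤ → ℂ) (c : ℝ) (h : ∀ x, ‖f x‖ ≤ c) (v : ℤ) : ‖D 0 p f v‖ ≤ 2 * c := by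
  have h0 : 0 ≤ c := (norm_nonneg _).trans (h 0)
  by_cases hv : v = 0
  · rw [hv, D_zero]; linarith [h 0]
  · rw [D_ne _ hv]; linarith [norm_sub_le (f v) (f (p v)), h v, h (p v)]

theorem shift_bdn (n : ℕ) (f : ℤ → ℂ) (c : ℝ) (h : ∀ v, ‖D 0 p f v‖ ≤ c) (v : ℤ) :
    ‖D 0 p (fun x => f (x + n)) v‖ ≤ 2 ^ n * c := by
  induction n generalizing v with
  | zero => simpa using h v
  | succ n ih =>
    have := shift_bd _ _ ih v
    have e : ((fun x : ℤ => f (x + n)) ∘ fun x => x + 1) = fun x => f (x + (n + 1 : ℕ)) := by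
      funext x; simp only [Function.comp]; congr 1; push_cast; ring
    rw [e] at this
    rw [pow_succ]; linarith

theorem D_fin (f : ℤ → ℂ) (hf : {x | f x ≠ 0}.Finite) : InL0 0 p f := by
  obtain ⟨M, a, -, ha⟩ := fin_bd f hf
  refine tendsto_const_nhds.congr' ?_
  filter_upwards [(fin_abs (2 * 2 ^ a + 1)).compl_mem_cofinite] with v hv
  simp only [Set.mem_compl_iff, Set.mem_setOf_eq, not_le] at hv
  have hp : (0 : ℤ) < 2 ^ a := by positivity
  have := (p_bd v).1
  rw [D_ne _ (by rintro rfl; simp at hv; omega), ha v (by omega), ha (p v) (by omega), sub_zero]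

/-- Gaussian rational finitely supported functions -/
noncomputable def gr (g : ℤ →₀ ℚ × ℚ) (x : ℤ) : ℂ := ((g x).1 : ℝ) + ((g x).2 : ℝ) * Complex.I

theorem gr_dense (g : ℤ → ℂ) (hg : {x | g x ≠ 0}.Finite) (ε : ℝ) (hε : 0 < ε) :
    ∃ r : ℤ →₀ ℚ × ℚ, ∀ x, ‖g x - gr r x‖ ≤ ε := by
  classical
  have h1 : ∀ z : ℂ, ∃ r : ℚ × ℚ, (z = 0 → r = 0) ∧
      ‖z - (((r.1 : ℝ) : ℂ) + ((r.2 : ℝ) : ℂ) * Complex.I)‖ ≤ ε := by
    intro z
    by_cases hz : z = 0
    · exact ⟨0, fun _ => rfl, by simp [hz, hε.le]⟩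
    obtain ⟨a, ha⟩ := exists_rat_near z.re (half_pos hε)
    obtain ⟨b, hb⟩ := exists_rat_near z.im (half_pos hε)
    refine ⟨(a, b), fun h => absurd h hz, (Complex.norm_le_abs_re_add_abs_im _).trans ?_⟩
    simp
    linarith
  choose r hr0 hr using h1
  exact ⟨Finsupp.ofSupportFinite (fun x => r (g x)) (hg.subset fun x hx h => hx (hr0 _ h)),
    fun x => hr (g x)⟩

theorem hyper : Hypercyclic 0 p (fun f => (1 : ℂ) • (f ∘ fun x => x + 1)) := by
  set U : (ℤ →₀ ℚ × ℚ) × ℕ → Set C₀(ℤ, ℂ) := fun i => {d | ∃ (n : ℕ) (δ : ℝ), δ < 1 / (i.2 + 1) ∧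
    ∀ v, ‖D 0 p ((fun x => S d (x + n)) - gr i.1) v‖ ≤ δ} with hU
  have hpt : ∀ (d d' : C₀(ℤ, ℂ)) (v : ℤ), ‖d v - d' v‖ ≤ dist d d' := fun d d' v => by
    rw [← dist_eq_norm, ← ZeroAtInftyContinuousMap.dist_toBCF_eq_dist]
    exact BoundedContinuousFunction.dist_coe_le_dist (f := d.toBCF) (g := d'.toBCF) v
  have hopen : ∀ i, IsOpen (U i) := by
    intro i
    rw [Metric.isOpen_iff]
    rintro d ⟨n, δ, h1, h2⟩
    refine ⟨(1 / (i.2 + 1) - δ) / 2 ^ n, by have := sub_pos.2 h1; positivity, fun d' hd' =>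
      ⟨n, δ + 2 ^ n * dist d' d, ?_, fun v => ?_⟩⟩
    · rw [Metric.mem_ball, lt_div_iff₀ (by positivity)] at hd'
      linarith
    · have e : (fun x => S d' (x + n)) - gr i.1 =
          ((fun x => S d (x + n)) - gr i.1) + fun x => (S d' - S d) (x + n) := by
        funext x; simp
      have := shift_bdn n (S d' - S d) (dist d' d) (fun v => by rw [D_sub, D_S, D_S]; exact hpt _ _ _) v
      rw [e, D_add]
      linarith [norm_add_le (D 0 p ((fun x => S d (x + n)) - gr i.1) v)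
        (D 0 p (fun x => (S d' - S d) (x + n)) v), h2 v]
  have hl0 : ∀ d : C₀(ℤ, ℂ), InL0 0 p (S d) := fun d => by
    have := d.zero_at_infty'
    rw [cocompact_eq_cofinite] at this
    exact this.congr fun v => (D_S d v).symm
  have hdense : ∀ i, Dense (U i) := by
    intro i
    rw [Metric.dense_iff]
    intro d r hr
    obtain ⟨g1, hg1, hg1'⟩ := dens (S d) (hl0 d) (r / 4) (by positivity)
    have hp : (0 : ℝ) < 1 / (i.2 + 1) := by positivity
    obtain ⟨n, f, hf, h1, h2⟩ := transit g1 (gr i.1)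
      hg1 ((i.1.support.finite_toSet).subset fun x hx => by
        by_contra h
        exact hx (by simp [gr, Finsupp.notMem_support_iff.1 h]))
      (min (r / 4) (1 / (i.2 + 1) / 2)) (by positivity)
    let d' : C₀(ℤ, ℂ) := ⟨⟨D 0 p f, continuous_of_discreteTopology⟩, by
      rw [cocompact_eq_cofinite]; exact D_fin f hf⟩
    have hS : S d' = f := funext (S_D f)
    refine ⟨d', ?_, n, _, (min_le_right _ _).trans_lt (half_lt_self hp), fun v => hS ▸ h2 v⟩
    rw [Metric.mem_ball, ← ZeroAtInftyContinuousMap.dist_toBCF_eq_dist]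
    refine lt_of_le_of_lt ((BoundedContinuousFunction.dist_le (by positivity : 0 ≤ r / 2)).2
      fun v => ?_) (half_lt_self hr)
    show dist (D 0 p f v) (d v) ≤ r / 2
    have e : D 0 p f v - d v = D 0 p (f - g1) v - D 0 p (S d - g1) v := by
      rw [D_sub, D_sub, D_S]; ring
    rw [dist_eq_norm, e]
    linarith [norm_sub_le (D 0 p (f - g1) v) (D 0 p (S d - g1) v), h1 v, hg1' v,
      min_le_left (r / 4) (1 / ((i.2 : ℝ) + 1) / 2)]
  obtain ⟨d, hd⟩ := (dense_iInter_of_isOpen hopen hdense).nonempty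
  refine ⟨S d, hl0 d, fun g hg ε hε => ?_⟩
  obtain ⟨g1, hg1, hg1'⟩ := dens g hg (ε / 4) (by positivity)
  obtain ⟨r, hr⟩ := gr_dense g1 hg1 (ε / 8) (by positivity)
  obtain ⟨k, hk⟩ := exists_nat_one_div_lt (show 0 < ε / 4 by positivity)
  obtain ⟨n, δ, h1, h2⟩ := Set.mem_iInter.1 hd (r, k)
  have hit : ∀ (n : ℕ) (f : ℤ → ℂ),
      (fun f => (1 : ℂ) • (f ∘ fun x : ℤ => x + 1))^[n] f = fun x => f (x + n) := by
    intro n
    induction n with
    | zero => intro f; simp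
    | succ n ih =>
      intro f
      rw [Function.iterate_succ_apply, ih]
      funext x; simp [add_assoc]
  refine ⟨n, lt_of_le_of_lt (ciSup_le fun v => ?_) (show 3 * ε / 4 < ε by linarith)⟩
  have e : (fun x => S d (x + n)) - g = ((fun x => S d (x + n)) - gr r) - (g1 - gr r) - (g - g1) := by
    ring
  have h3 := D_pt (g1 - gr r) _ hr v
  rw [hit, e, D_sub, D_sub _ (g1 - gr r)]
  linarith [norm_sub_le (D 0 p ((fun x => S d (x + n)) - gr r) v - D 0 p (g1 - gr r) v) (D 0 p (g - g1) v),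
    norm_sub_le (D 0 p ((fun x => S d (x + n)) - gr r) v) (D 0 p (g1 - gr r) v), h2 v, hg1' v]

end Pool.Agent.H8.LipTree
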