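import Mathlib

set_option autoImplicit false
open MeasureTheory ProbabilityTheory Filter Topology Set
open scoped ENNReal

namespace Pool.Agent.H8.Mix

lemma indep_sub {ι α γ E : Type} [MeasurableSpace E] (P : Measure E) [IsProbabilityMeasure P]
    (f : α → ι) (g : γ → ι) (h : ∀ a c, f a ≠ g c) :
    IndepFun (fun (ω : ι → E) a => ω (f a)) (fun (ω : ι → E) c => ω (g c))
      (Measure.infinitePi (fun _ : ι => P)) := by
  have hi := iIndepFun_infinitePi (P := fun _ : ι => P) (X := fun _ (x : E) => x)
    (fun _ => measurable_id)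
  rw [iIndepFun_iff_iIndep] at hi
  have hd : Disjoint (range f) (range g) := by
    rw [Set.disjoint_left]
    rintro _ ⟨a, rfl⟩ ⟨c, hc⟩
    exact h a c hc.symm
  have h2 := indep_iSup_of_disjoint (fun i => (measurable_pi_apply i).comap_le) hi hd
  rw [IndepFun_iff_Indep]
  refine indep_of_indep_of_le h2 ?_ ?_
  · rw [MeasurableSpace.pi, MeasurableSpace.comap_iSup]
    refine iSup_le fun a => ?_
    rw [MeasurableSpace.comap_comp]
    exact le_iSup₂_of_le (f a) ⟨a, rfl⟩ le_rfl
  · rw [MeasurableSpace.pi, MeasurableSpace.comap_iSup]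
    refine iSup_le fun a => ?_
    rw [MeasurableSpace.comap_comp]
    exact le_iSup₂_of_le (g a) ⟨a, rfl⟩ le_rfl

abbrev X : Type := List Bool → unitInterval
abbrev W : Type := ℕ → Bool

noncomputable def nu : Measure X := Measure.infinitePi (fun _ => (volume : Measure unitInterval))
noncomputable def be : Measure Bool := (2⁻¹ : ℝ≥0∞) • (Measure.dirac false + Measure.dirac true)

instance : IsProbabilityMeasure nu := by unfold nu; infer_instance
instance : IsProbabilityMeasure be := ⟨by
  simp only [be, Measure.smul_apply, Measure.add_apply, measure_univ, smul_eq_mul]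
  rw [one_add_one_eq_two]; exact ENNReal.inv_mul_cancel (by norm_num) (by norm_num)⟩

noncomputable def pw : Measure W := Measure.infinitePi (fun _ => be)
instance : IsProbabilityMeasure pw := by unfold pw; infer_instance

def phi (b : Bool) (x : X) : X := fun t => x (b :: t)
def cons (b : Bool) (ω : W) : W := fun n => Nat.casesOn n b ω
def tail (ω : W) : W := fun n => ω (n + 1)

lemma meas_phi (b : Bool) : Measurable (phi b) := by unfold phi; fun_prop
lemma meas_tail : Measurable tail := by unfold tail; fun_prop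
lemma meas_cons2 : Measurable (fun p : Bool × W => cons p.1 p.2) := by
  refine measurable_pi_iff.2 fun n => ?_
  cases n with
  | zero => exact measurable_fst
  | succ n => exact (measurable_pi_apply n).comp measurable_snd
lemma meas_cons (b : Bool) : Measurable (cons b) :=
  meas_cons2.comp (measurable_const.prodMk measurable_id)

lemma mp_phi (b : Bool) : MeasurePreserving (phi b) nu nu :=
  ⟨meas_phi b, Measure.map_infinitePi_infinitePi_of_inj (P := fun _ => (volume : Measure unitInterval))
    (f := fun t : List Bool => b :: t) (fun _ _ h => by simpa using h)⟩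

lemma indep_phi : IndepFun (phi false) (phi true) nu :=
  indep_sub volume (fun t : List Bool => false :: t) (fun t : List Bool => true :: t)
    (fun _ _ h => by simp at h)

lemma pw_split (E : Set W) (hE : MeasurableSet E) :
    pw E = 2⁻¹ * (pw (cons false ⁻¹' E) + pw (cons true ⁻¹' E)) := by
  have h1 : IndepFun (fun (ω : W) (_ : Unit) => ω 0) tail pw :=
    indep_sub be (fun _ : Unit => 0) (fun n : ℕ => n + 1) (fun _ _ h => by simp at h)
  have h2 : IndepFun (fun ω : W => ω 0) tail pw :=
    h1.comp (measurable_pi_apply ()) measurable_id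
  have h3 := h2.map_prod_eq_prod_map_map (measurable_pi_apply 0).aemeasurable
    meas_tail.aemeasurable
  have h4 : pw.map tail = pw :=
    Measure.map_infinitePi_infinitePi_of_inj (P := fun _ => be) (f := fun n : ℕ => n + 1)
      (fun _ _ h => by simpa using h)
  have h5 : pw.map (fun ω : W => ω 0) = be := Measure.infinitePi_map_eval _ 0
  rw [h4, h5] at h3
  have hm : Measurable (fun ω : W => (ω 0, tail ω)) := (measurable_pi_apply 0).prodMk meas_tail
  have h6 : E = (fun ω : W => (ω 0, tail ω)) ⁻¹' ((fun p : Bool × W => cons p.1 p.2) ⁻¹' E) := by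
    ext ω
    have : cons (ω 0) (tail ω) = ω := by
      funext n; cases n <;> rfl
    simp [this]
  have h7 : pw E = (be.prod pw) ((fun p : Bool × W => cons p.1 p.2) ⁻¹' E) := by
    rw [← h3, Measure.map_apply hm (meas_cons2 hE), ← h6]
  rw [h7, Measure.prod_apply (meas_cons2 hE), be, lintegral_smul_measure, lintegral_add_measure,
    lintegral_dirac, lintegral_dirac]
  rfl

noncomputable def mu : Measure (X × W) := nu.prod pw
instance : IsProbabilityMeasure mu := by unfold mu; infer_instance

def cc (b : Bool) (p : X × W) : X × W := (p.1, cons b p.2)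
lemma meas_cc (b : Bool) : Measurable (cc b) :=
  measurable_fst.prodMk ((meas_cons b).comp measurable_snd)

lemma mu_split (E : Set (X × W)) (hE : MeasurableSet E) :
    mu E = 2⁻¹ * (mu (cc false ⁻¹' E) + mu (cc true ⁻¹' E)) := by
  unfold mu
  rw [Measure.prod_apply hE, Measure.prod_apply (meas_cc false hE),
    Measure.prod_apply (meas_cc true hE),
    ← lintegral_add_left (measurable_measure_prodMk_left (meas_cc false hE)),
    ← lintegral_const_mul' _ _ (by norm_num)]
  refine lintegral_congr fun x => ?_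
  rw [pw_split _ (measurable_prodMk_left hE)]
  rfl

lemma mu_split_real (E : Set (X × W)) (hE : MeasurableSet E) :
    mu.real E = (mu.real (cc false ⁻¹' E) + mu.real (cc true ⁻¹' E)) / 2 := by
  simp only [Measure.real]
  rw [mu_split E hE, ENNReal.toReal_mul, ENNReal.toReal_add (measure_ne_top _ _) (measure_ne_top _ _)]
  simp; ring

lemma pw_split_real (E : Set W) (hE : MeasurableSet E) :
    pw.real E = (pw.real (cons false ⁻¹' E) + pw.real (cons true ⁻¹' E)) / 2 := by
  simp only [Measure.real]
  rw [pw_split E hE, ENNReal.toReal_mul, ENNReal.toReal_add (measure_ne_top _ _) (measure_ne_top _ _)]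
  simp; ring

def T (p : X × W) : X × W := (phi (p.2 0) p.1, tail p.2)

lemma meas_T : Measurable T := by
  refine Measurable.prodMk ?_ (meas_tail.comp measurable_snd)
  have h : Measurable (fun q : X × Bool => phi q.2 q.1) :=
    measurable_from_prod_countable_left fun b => meas_phi b
  exact h.comp (measurable_fst.prodMk ((measurable_pi_apply 0).comp measurable_snd))

lemma T_cc (b : Bool) (p : X × W) : T (cc b p) = (phi b p.1, p.2) := rfl

lemma mp_T : MeasurePreserving T mu mu := by
  refine ⟨meas_T, ?_⟩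
  ext S hS
  rw [Measure.map_apply meas_T hS, mu_split _ (meas_T hS)]
  have h : ∀ b, mu (cc b ⁻¹' (T ⁻¹' S)) = mu S := fun b =>
    ((mp_phi b).prod (MeasurePreserving.id pw)).measure_preimage hS.nullMeasurableSet
  rw [h, h, ← two_mul, ← mul_assoc, ENNReal.inv_mul_cancel (by norm_num) (by norm_num), one_mul]

lemma real_prod (E : Set (X × W)) (hE : MeasurableSet E) :
    mu.real E = ∫ x, pw.real (Prod.mk x ⁻¹' E) ∂nu := by
  simp only [Measure.real]
  rw [integral_toReal (measurable_measure_prodMk_left hE).aemeasurable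
    (Eventually.of_forall fun _ => measure_lt_top _ _), mu, Measure.prod_apply hE]

noncomputable def gk (S : Set (X × W)) (k : ℕ) (x : X) : ℝ :=
  pw.real (Prod.mk x ⁻¹' (T^[k] ⁻¹' S)) - mu.real S

lemma meas_gk {S : Set (X × W)} (hS : MeasurableSet S) (k : ℕ) : Measurable (gk S k) :=
  (measurable_measure_prodMk_left (meas_T.iterate k hS)).ennreal_toReal.sub measurable_const

lemma abs_gk (S : Set (X × W)) (k : ℕ) (x : X) : |gk S k x| ≤ 1 := by
  unfold gk
  have h1 : pw.real (Prod.mk x ⁻¹' (T^[k] ⁻¹' S)) ≤ 1 := measureReal_le_one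
  have h2 : mu.real S ≤ 1 := measureReal_le_one
  have h3 : 0 ≤ pw.real (Prod.mk x ⁻¹' (T^[k] ⁻¹' S)) := measureReal_nonneg
  have h4 : 0 ≤ mu.real S := measureReal_nonneg
  rw [abs_le]; constructor <;> linarith

lemma intg {f : X → ℝ} (hf : Measurable f) (C : ℝ) (h : ∀ x, |f x| ≤ C) : Integrable f nu :=
  Integrable.of_bound hf.aestronglyMeasurable C (Eventually.of_forall h)

lemma gk_succ {S : Set (X × W)} (hS : MeasurableSet S) (k : ℕ) (x : X) :
    gk S (k + 1) x = (gk S k (phi false x) + gk S k (phi true x)) / 2 := by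
  unfold gk
  rw [pw_split_real _ (measurable_prodMk_left (meas_T.iterate (k + 1) hS))]
  have h : ∀ b, cons b ⁻¹' (Prod.mk x ⁻¹' (T^[k + 1] ⁻¹' S)) =
      Prod.mk (phi b x) ⁻¹' (T^[k] ⁻¹' S) := fun b => by
    ext ω; simp only [mem_preimage, Function.iterate_succ_apply]; rfl
  rw [h, h]; ring

lemma int_gk {S : Set (X × W)} (hS : MeasurableSet S) (k : ℕ) : ∫ x, gk S k x ∂nu = 0 := by
  unfold gk
  rw [integral_sub, ← real_prod _ (meas_T.iterate k hS)]
  · simp only [integral_const, probReal_univ, smul_eq_mul, one_mul]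
    simp only [Measure.real]
    rw [(mp_T.iterate k).measure_preimage hS.nullMeasurableSet, sub_self]
  · refine intg (measurable_measure_prodMk_left (meas_T.iterate k hS)).ennreal_toReal 1 fun x => ?_
    rw [abs_of_nonneg measureReal_nonneg]; exact measureReal_le_one
  · exact integrable_const _

lemma int_comp {ψ : X → X} (hψ : MeasurePreserving ψ nu nu) {f : X → ℝ} (hf : Measurable f) :
    ∫ x, f (ψ x) ∂nu = ∫ x, f x ∂nu := by
  rw [← integral_map hψ.measurable.aemeasurable hf.aestronglyMeasurable, hψ.map_eq]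

lemma sq_gk {S : Set (X × W)} (hS : MeasurableSet S) (k : ℕ) :
    ∫ x, gk S k x ^ 2 ∂nu ≤ (1 / 2) ^ k := by
  have hb : ∀ k x, |gk S k x ^ 2| ≤ 1 := fun k x => by
    rw [abs_pow]; exact pow_le_one₀ (abs_nonneg _) (abs_gk S k x)
  induction k with
  | zero =>
    have := integral_mono (intg ((meas_gk hS 0).pow_const 2) 1 (hb 0)) (integrable_const (1 : ℝ))
      (fun x => le_trans (le_abs_self _) (hb 0 x))
    simpa using this
  | succ k ih =>
    have e : ∀ x, gk S (k + 1) x ^ 2 = (1 / 4) * gk S k (phi false x) ^ 2 +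
        (1 / 4) * gk S k (phi true x) ^ 2 +
        (1 / 2) * (gk S k (phi false x) * gk S k (phi true x)) := fun x => by
      rw [gk_succ hS]; ring
    have i1 : ∀ b, Integrable (fun x => (1 / 4 : ℝ) * gk S k (phi b x) ^ 2) nu := fun b =>
      (intg (((meas_gk hS k).comp (meas_phi b)).pow_const 2) 1 (fun x => hb k _)).const_mul _
    have i2 : Integrable (fun x => (1 / 2 : ℝ) * (gk S k (phi false x) * gk S k (phi true x))) nu := by
      refine (intg (((meas_gk hS k).comp (meas_phi false)).mul
        ((meas_gk hS k).comp (meas_phi true))) 1 (fun x => ?_)).const_mul _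
      simp only [Function.comp, Pi.mul_apply]
      rw [abs_mul]
      exact mul_le_one₀ (abs_gk _ _ _) (abs_nonneg _) (abs_gk _ _ _)
    have i3 : Integrable (fun x => (1 / 4 : ℝ) * gk S k (phi false x) ^ 2 +
        (1 / 4) * gk S k (phi true x) ^ 2) nu := (i1 false).add (i1 true)
    simp_rw [e]
    rw [integral_add i3 i2, integral_add (i1 false) (i1 true),
      integral_const_mul, integral_const_mul, integral_const_mul,
      int_comp (mp_phi false) ((meas_gk hS k).pow_const 2),
      int_comp (mp_phi true) ((meas_gk hS k).pow_const 2),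
      indep_phi.integral_fun_comp_mul_comp (meas_phi _).aemeasurable (meas_phi _).aemeasurable
        (meas_gk hS k).aestronglyMeasurable (meas_gk hS k).aestronglyMeasurable,
      int_comp (mp_phi false) (meas_gk hS k), int_gk hS, pow_succ]
    linarith

lemma abs_int_gk {S : Set (X × W)} (hS : MeasurableSet S) (k : ℕ) {ε : ℝ} (hε : 0 < ε) :
    ∫ x, |gk S k x| ∂nu ≤ ε / 2 + (1 / 2) ^ k / (2 * ε) := by
  have hb : ∀ x, |gk S k x ^ 2| ≤ 1 := fun x => by
    rw [abs_pow]; exact pow_le_one₀ (abs_nonneg _) (abs_gk S k x)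
  have i1 : Integrable (fun x => gk S k x ^ 2 / (2 * ε)) nu :=
    (intg ((meas_gk hS k).pow_const 2) 1 hb).div_const _
  have h := integral_mono (intg (meas_gk hS k).abs 1 (fun x => by simpa using abs_gk S k x))
    ((integrable_const (ε / 2)).add i1) (fun x => by
      simp only [Pi.add_apply]
      have : |gk S k x| * (2 * ε) ≤ ε ^ 2 + gk S k x ^ 2 := by
        rw [← sq_abs (gk S k x)]; nlinarith [sq_nonneg (|gk S k x| - ε)]
      have e : ε / 2 + gk S k x ^ 2 / (2 * ε) = (ε ^ 2 + gk S k x ^ 2) / (2 * ε) := by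
        field_simp
      rw [e, le_div_iff₀ (by positivity)]; exact this)
  refine h.trans ?_
  simp only [Pi.add_apply]
  rw [integral_add (integrable_const _) i1]
  simp only [integral_const, probReal_univ, smul_eq_mul, one_mul]
  rw [integral_div]
  have := sq_gk hS k
  gcongr

def Dep (l : ℕ) (A : Set (X × W)) : Prop :=
  ∀ x ω ω', (∀ i < l, ω i = ω' i) → (x, ω) ∈ A → (x, ω') ∈ A

lemma mixing {S : Set (X × W)} (hS : MeasurableSet S) (k : ℕ) (l : ℕ) :
    ∀ (ψ : X → X), MeasurePreserving ψ nu nu → ∀ A : Set (X × W), MeasurableSet A → Dep l A →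
      |mu.real (A ∩ Prod.map ψ id ⁻¹' (T^[l + k] ⁻¹' S)) - mu.real A * mu.real S| ≤
        ∫ x, |gk S k x| ∂nu := by
  induction l with
  | zero =>
    intro ψ hψ A hA hD
    have hm : MeasurableSet (A ∩ Prod.map ψ id ⁻¹' (T^[0 + k] ⁻¹' S)) :=
      hA.inter ((hψ.measurable.prodMap measurable_id) (meas_T.iterate _ hS))
    have j : ∀ E : Set (X × W), MeasurableSet E →
        Integrable (fun x => pw.real (Prod.mk x ⁻¹' E)) nu := fun E hE => by
      refine intg (measurable_measure_prodMk_left hE).ennreal_toReal 1 fun x => ?_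
      rw [abs_of_nonneg measureReal_nonneg]; exact measureReal_le_one
    rw [real_prod _ hm, real_prod _ hA, ← integral_mul_const,
      ← integral_sub (j _ hm) ((j _ hA).mul_const _), ← int_comp hψ (meas_gk hS k).abs]
    refine (abs_integral_le_integral_abs).trans (integral_mono ((j _ hm).sub
      ((j _ hA).mul_const _)).abs (intg ((meas_gk hS k).comp hψ.measurable).abs 1
        (fun x => by simpa using abs_gk S k _)) fun x => ?_)
    by_cases hx : ∃ ω, (x, ω) ∈ A
    · obtain ⟨ω, hω⟩ := hx
      have h1 : Prod.mk x ⁻¹' A = univ := eq_univ_of_forall fun ω' =>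
        hD x ω ω' (fun i hi => absurd hi (Nat.not_lt_zero i)) hω
      have h2 : Prod.mk x ⁻¹' (A ∩ Prod.map ψ id ⁻¹' (T^[0 + k] ⁻¹' S)) =
          Prod.mk (ψ x) ⁻¹' (T^[k] ⁻¹' S) := by
        rw [preimage_inter, h1, univ_inter, Nat.zero_add]; rfl
      simp only [h1, h2, probReal_univ, one_mul]
      exact le_rfl
    · have h1 : Prod.mk x ⁻¹' A = ∅ := eq_empty_of_forall_notMem fun ω hω => hx ⟨ω, hω⟩
      simp only [preimage_inter, h1, empty_inter, measureReal_empty, zero_mul, sub_self, abs_zero]
      exact abs_nonneg _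
  | succ l ih =>
    intro ψ hψ A hA hD
    have hm : MeasurableSet (A ∩ Prod.map ψ id ⁻¹' (T^[l + 1 + k] ⁻¹' S)) :=
      hA.inter ((hψ.measurable.prodMap measurable_id) (meas_T.iterate _ hS))
    have e : ∀ b, cc b ⁻¹' (A ∩ Prod.map ψ id ⁻¹' (T^[l + 1 + k] ⁻¹' S)) =
        cc b ⁻¹' A ∩ Prod.map (phi b ∘ ψ) id ⁻¹' (T^[l + k] ⁻¹' S) := fun b => by
      have : l + 1 + k = l + k + 1 := by ring
      rw [this]
      ext p; simp only [mem_preimage, mem_inter_iff, Function.iterate_succ_apply]; rfl
    have d : ∀ b, Dep l (cc b ⁻¹' A) := fun b x ω ω' h hx => by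
      refine hD x (cons b ω) (cons b ω') (fun i hi => ?_) hx
      cases i with
      | zero => rfl
      | succ i => exact h i (by omega)
    have h0 := ih _ ((mp_phi false).comp hψ) _ (meas_cc false hA) (d false)
    have h1 := ih _ ((mp_phi true).comp hψ) _ (meas_cc true hA) (d true)
    rw [mu_split_real _ hm, mu_split_real _ hA, e, e]
    rw [abs_le] at h0 h1 ⊢
    constructor <;> linarith [h0.1, h0.2, h1.1, h1.2]

def Z (p : X × W) : ℕ → X := fun i => (T^[i] p).1

lemma meas_Z : Measurable Z :=
  measurable_pi_iff.2 fun i => measurable_fst.comp (meas_T.iterate i)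

lemma Z_dep (i : ℕ) : ∀ (x : X) (ω ω' : W), (∀ j < i, ω j = ω' j) → Z (x, ω) i = Z (x, ω') i := by
  induction i with
  | zero => intro x ω ω' _; rfl
  | succ i ih =>
    intro x ω ω' h
    have h0 : ω 0 = ω' 0 := h 0 (by omega)
    have := ih (phi (ω 0) x) (tail ω) (tail ω') (fun j hj => h (j + 1) (by omega))
    simp only [Z, Function.iterate_succ_apply, T] at this ⊢
    rw [← h0]; exact this

lemma Z_rel (p : X × W) (i : ℕ) : ∀ t, ∃ w, (T^[i] p).1 t = p.1 w := by
  induction i with
  | zero => intro t; exact ⟨t, rfl⟩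
  | succ i ih =>
    intro t
    rw [Function.iterate_succ_apply']
    exact ih _

lemma Z_rel' (p : X × W) {i j : ℕ} (h : i ≤ j) : ∃ w, Z p j [] = Z p i w := by
  obtain ⟨d, rfl⟩ := Nat.exists_eq_add_of_le' h
  unfold Z
  rw [Function.iterate_add_apply]
  exact Z_rel _ d []

end Pool.Agent.H8.Mix
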