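import Mathlib

set_option autoImplicit false

open Polynomial Filter Topology

namespace Pool.Agent.H8.MultRec

noncomputable abbrev H := lp (fun _ : ℕ => ℂ) 2

noncomputable def W (w : ℕ → ℝ) (r : ℕ) : ℂ := ∏ i ∈ Finset.range r, (w (i + 1) : ℂ)

noncomputable def Φ (w : ℕ → ℝ) : ℂ[X] →ₗ[ℂ] H where
  toFun P := ⟨fun r => (fwdDiff (1 : ℂ))^[r] P.eval 0 / W w r, by
    refine (memℓp_zero ((Set.finite_Iic P.natDegree).subset fun r hr => ?_)).of_exponent_ge zero_le
    by_contra h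
    simp only [Set.mem_Iic, not_le] at h
    apply hr
    simp only [P.fwdDiff_iter_eq_zero_of_degree_lt h]; simp⟩
  map_add' P Q := by
    ext r
    have : (P + Q).eval = P.eval + Q.eval := by funext x; simp
    show (fwdDiff (1 : ℂ))^[r] (P + Q).eval 0 / W w r = (fwdDiff (1 : ℂ))^[r] P.eval 0 / W w r +
      (fwdDiff (1 : ℂ))^[r] Q.eval 0 / W w r
    rw [this, fwdDiff_iter_add, Pi.add_apply, add_div]
  map_smul' c P := by
    ext r
    have : (c • P).eval = c • P.eval := by funext x; simp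
    show (fwdDiff (1 : ℂ))^[r] (c • P).eval 0 / W w r = c * ((fwdDiff (1 : ℂ))^[r] P.eval 0 / W w r)
    rw [this, fwdDiff_iter_const_smul, Pi.smul_apply, smul_eq_mul, mul_div_assoc]

theorem Φ_apply (w : ℕ → ℝ) (P : ℂ[X]) (r : ℕ) :
    Φ w P r = (fwdDiff (1 : ℂ))^[r] P.eval 0 / W w r := rfl

variable {w : ℕ → ℝ} (hw : ∀ n, 1 ≤ n → 0 < w n) {T : H →L[ℂ] H}
  (hT : ∀ (x : H) (n : ℕ), T x n = w (n + 1) * x (n + 1))

include hw in
theorem W_ne (r : ℕ) : W w r ≠ 0 :=
  Finset.prod_ne_zero_iff.2 fun i _ => by exact_mod_cast (hw (i + 1) (by omega)).ne'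

include hw hT in
theorem step (P : ℂ[X]) : (1 + T) (Φ w P) = Φ w (taylor 1 P) := by
  ext r
  have e : (taylor 1 P).eval = fun x => P.eval (x + 1) := by funext x; rw [taylor_eval]
  rw [ContinuousLinearMap.add_apply, ContinuousLinearMap.one_apply, lp.coeFn_add, Pi.add_apply, hT,
    Φ_apply, Φ_apply, Φ_apply, e, fwdDiff_iter_comp_add (1 : ℂ) (fun x => P.eval x) 1 r 0, Function.iterate_succ_apply', fwdDiff]
  have h1 := W_ne hw r
  have h2 : (w (r + 1) : ℂ) ≠ 0 := by exact_mod_cast (hw (r + 1) (by omega)).ne'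
  have h3 : W w (r + 1) = W w r * w (r + 1) := Finset.prod_range_succ _ _
  rw [h3]
  field_simp
  ring

include hw hT in
theorem steps (n : ℕ) (P : ℂ[X]) : ((1 + T) ^ n) (Φ w P) = Φ w (taylor (n : ℂ) P) := by
  induction n with
  | zero => simp
  | succ n ih =>
    rw [pow_succ', ContinuousLinearMap.mul_apply, ih, step hw hT, taylor_taylor]
    push_cast; rw [add_comm]

/-- vectors that are limits of all the iterates simultaneously -/
def Y (T : H →L[ℂ] H) (N : ℕ) : Submodule ℂ H where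
  carrier := {y | ∃ x : ℕ → H, ∀ j ≤ N, Tendsto (fun k => ((1 + T) ^ (j * k)) (x k)) atTop (𝓝 y)}
  add_mem' := by
    rintro a b ⟨x, hx⟩ ⟨y, hy⟩
    exact ⟨x + y, fun j hj => by simpa only [Pi.add_apply, map_add] using (hx j hj).add (hy j hj)⟩
  zero_mem' := ⟨0, fun j _ => by simp only [Pi.zero_apply, map_zero]; exact tendsto_const_nhds⟩
  smul_mem' := by
    rintro c a ⟨x, hx⟩
    exact ⟨c • x, fun j hj => by simpa only [Pi.smul_apply, map_smul] using (hx j hj).const_smul c⟩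

include hw hT in
theorem pow_mem (N l : ℕ) : Φ w (X ^ l) ∈ Y T N := by
  obtain ⟨Q, hQ⟩ := Ideal.exists_forall_sub_mem_ideal
    (I := fun j : Fin (N + 1) => Ideal.span {(X - C ((j : ℕ) : ℂ)) ^ (l + 1)}) (by
      intro i j hij
      simp only [Function.onFun, Ideal.isCoprime_span_singleton_iff]
      refine IsCoprime.pow (isCoprime_X_sub_C_of_isUnit_sub (IsUnit.mk0 _ (sub_ne_zero.2 ?_)))
      intro h
      exact hij (Fin.ext (by exact_mod_cast h))) (fun j => (X - C ((j : ℕ) : ℂ)) ^ l)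
  refine ⟨fun k => Φ w (C ((k : ℂ) ^ l) * Q.comp (C ((k : ℂ)⁻¹) * X)), fun j hj => ?_⟩
  obtain ⟨R0, hR⟩ := Ideal.mem_span_singleton.1 (hQ ⟨j, by omega⟩)
  set R := taylor (j : ℂ) R0 with hRd
  have hev : ∀ s : ℂ, Q.eval (s + j) = s ^ l + s ^ (l + 1) * R.eval s := by
    intro s
    have := congrArg (eval (s + j)) hR
    simp only [eval_sub, eval_pow, eval_X, eval_C, eval_mul, add_sub_cancel_right] at this
    rw [hRd, taylor_eval, ← this]; ring
  set G : ℂ → H := fun c => Φ w (X ^ l) +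
    c • ∑ i ∈ Finset.range (R.natDegree + 1), (R.coeff i * c ^ i) • Φ w (X ^ (l + 1 + i)) with hG
  have hGc : Continuous G := by
    refine continuous_const.add (continuous_id.smul (continuous_finsetSum _ fun i _ => ?_))
    exact Continuous.smul (continuous_const.mul (continuous_pow i)) continuous_const
  have h0 : Tendsto (fun k : ℕ => ((k : ℂ))⁻¹) atTop (𝓝 0) := tendsto_inv_atTop_nhds_zero_nat (𝕜 := ℂ)
  have h1 := (hGc.tendsto 0).comp h0
  have h2 : G 0 = Φ w (X ^ l) := by simp [hG]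
  rw [h2] at h1
  refine h1.congr' ?_
  filter_upwards [eventually_ge_atTop 1] with k hk
  have hk0 : (k : ℂ) ≠ 0 := by exact_mod_cast (by omega : k ≠ 0)
  rw [steps hw hT]
  simp only [Function.comp, hG, ← map_smul, ← map_sum, ← map_add]
  congr 1
  apply Polynomial.funext
  intro s
  rw [taylor_eval]
  simp only [eval_add, eval_pow, eval_X, eval_smul, eval_finset_sum, smul_eq_mul, eval_mul, eval_C,
    eval_comp]
  have e : (k : ℂ)⁻¹ * (s + ((j * k : ℕ) : ℂ)) = (k : ℂ)⁻¹ * s + j := by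
    push_cast; field_simp
  rw [e, hev, eval_eq_sum_range, mul_add, Finset.mul_sum, Finset.mul_sum, Finset.mul_sum]
  congr 1
  · rw [← mul_pow]; congr 1; field_simp
  · refine Finset.sum_congr rfl fun i _ => ?_
    have : (k : ℂ) ^ l * ((k : ℂ)⁻¹) ^ l = 1 := by rw [← mul_pow, mul_inv_cancel₀ hk0, one_pow]
    linear_combination (-((k : ℂ)⁻¹ * R.coeff i * (k : ℂ)⁻¹ ^ i * s ^ (l + 1 + i))) * this

include hw hT in
theorem single_mem (N l : ℕ) : lp.single 2 l (1 : ℂ) ∈ Y T N := by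
  induction l using Nat.strong_induction_on with
  | _ l ih =>
    have e : Φ w (X ^ l) = ∑ r ∈ Finset.range (l + 1), (Φ w (X ^ l) r) • (lp.single 2 r (1 : ℂ) : H) := by
      ext n
      rw [lp.coeFn_sum, Finset.sum_apply]
      simp only [lp.coeFn_smul, Pi.smul_apply, lp.single_apply, Pi.single_apply, smul_eq_mul, mul_ite,
        mul_one, mul_zero, Finset.sum_ite_eq, Finset.mem_range]
      split_ifs with h
      · rfl
      · rw [Φ_apply, (X ^ l : ℂ[X]).fwdDiff_iter_eq_zero_of_degree_lt (by simp; omega)]; simp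
    have hne : Φ w (X ^ l) l ≠ 0 := by
      rw [Φ_apply]
      have : (X ^ l : ℂ[X]).eval = fun r : ℂ => r ^ l := by funext x; simp
      rw [this, fwdDiff_iter_eq_factorial]
      refine div_ne_zero ?_ (W_ne hw l)
      simp [Nat.factorial_ne_zero]
    have h1 := pow_mem hw hT N l
    rw [e, Finset.sum_range_succ] at h1
    have h2 : ∑ r ∈ Finset.range l, (Φ w (X ^ l) r) • (lp.single 2 r (1 : ℂ) : H) ∈ Y T N :=
      Submodule.sum_mem _ fun r hr => Submodule.smul_mem _ _ (ih r (Finset.mem_range.1 hr))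
    exact (Submodule.smul_mem_iff _ hne).1 ((Submodule.add_mem_iff_right _ h2).1 h1)

include hw hT in
theorem main (U : Set H) (hU : IsOpen U) (hne : U.Nonempty) (N : ℕ) :
    ∃ k, 1 ≤ k ∧ ∃ x, ∀ j ≤ N, ((1 + T) ^ (j * k)) x ∈ U := by
  obtain ⟨u, hu⟩ := hne
  have h1 := lp.hasSum_single (p := 2) (by simp) u
  obtain ⟨s, hs⟩ := (h1.eventually (hU.mem_nhds hu)).exists
  have h2 : ∑ i ∈ s, lp.single 2 i (u i) ∈ Y T N := Submodule.sum_mem _ fun i _ => by
    have := Submodule.smul_mem _ (u i) (single_mem hw hT N i)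
    rwa [← lp.single_smul, smul_eq_mul, mul_one] at this
  obtain ⟨x, hx⟩ := h2
  have h3 : ∀ᶠ k in atTop, ∀ j ∈ Finset.range (N + 1), ((1 + T) ^ (j * k)) (x k) ∈ U :=
    (eventually_all_finset _).2 fun j hj =>
      (hx j (by have := Finset.mem_range.1 hj; omega)).eventually (hU.mem_nhds hs)
  obtain ⟨k, hk1, hk2⟩ := (h3.and (eventually_ge_atTop 1)).exists
  exact ⟨k, hk2, x k, fun j hj => hk1 j (Finset.mem_range.2 (by omega))⟩

end Pool.Agent.H8.MultRec
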