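import Mathlib

set_option autoImplicit false

open MeasureTheory Set Filter Topology Real

namespace Pool.Agent.H8.OddGabor

noncomputable def S (t : ℝ) : ℝ := sin (2 * π * t) ^ 3

noncomputable def g (t : ℝ) : ℂ := (Icc (-(1 / 2) : ℝ) (1 / 2)).indicator (fun t => (S t : ℂ)) t

theorem S_cont : Continuous S := by unfold S; fun_prop

theorem S_abs (t : ℝ) : |S t| ≤ 1 := by
  unfold S; rw [abs_pow]; exact pow_le_one₀ (abs_nonneg _) (abs_sin_le_one _)

theorem g_meas : Measurable g :=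
  (Complex.continuous_ofReal.comp S_cont).measurable.indicator measurableSet_Icc

theorem g_odd (t : ℝ) : g (-t) = -g t := by
  unfold g S
  by_cases h : t ∈ Icc (-(1 / 2) : ℝ) (1 / 2)
  · have h' : -t ∈ Icc (-(1 / 2) : ℝ) (1 / 2) := ⟨by linarith [h.2], by linarith [h.1]⟩
    rw [indicator_of_mem h, indicator_of_mem h', mul_neg, sin_neg]
    push_cast; ring
  · have h' : -t ∉ Icc (-(1 / 2) : ℝ) (1 / 2) := fun h' => h ⟨by linarith [h'.2], by linarith [h'.1]⟩
    rw [indicator_of_notMem h, indicator_of_notMem h', neg_zero]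

theorem g_memLp (p : ENNReal) : MemLp g p volume := by
  unfold g
  rw [memLp_indicator_iff_restrict measurableSet_Icc]
  refine MemLp.of_bound (Complex.continuous_ofReal.comp S_cont).aestronglyMeasurable 1 ?_
  exact Eventually.of_forall fun t => by simpa using S_abs t

theorem ibp (h h1 : ℝ → ℝ) (hd : ∀ t, HasDerivAt h (h1 t) t) (hc : Continuous h1)
    (ha : h (-(1 / 2)) = 0) (hb : h (1 / 2) = 0) (c : ℂ) :
    c * ∫ t in (-(1 / 2) : ℝ)..(1 / 2), (h t : ℂ) * Complex.exp (c * t) =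
      -∫ t in (-(1 / 2) : ℝ)..(1 / 2), (h1 t : ℂ) * Complex.exp (c * t) := by
  have hv : ∀ t : ℝ, HasDerivAt (fun t : ℝ => Complex.exp (c * t)) (c * Complex.exp (c * t)) t := by
    intro t
    have := ((Complex.ofRealCLM.hasDerivAt (x := t)).const_mul c).cexp
    simpa [mul_comm] using this
  have := intervalIntegral.integral_mul_deriv_eq_deriv_mul (a := (-(1 / 2) : ℝ)) (b := 1 / 2)
    (u := fun t => (h t : ℂ)) (u' := fun t => (h1 t : ℂ)) (v := fun t : ℝ => Complex.exp (c * t))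
    (v' := fun t => c * Complex.exp (c * t)) (fun t _ => (hd t).ofReal_comp) (fun t _ => hv t)
    ((Complex.continuous_ofReal.comp hc).intervalIntegrable _ _)
    (Continuous.intervalIntegrable (by fun_prop) _ _)
  simp only [ha, hb, Complex.ofReal_zero, zero_mul, sub_self, zero_sub] at this
  rw [← this, ← intervalIntegral.integral_const_mul]
  congr 1; ext t; ring

theorem decay (h h1 h2 : ℝ → ℝ) (hd : ∀ t, HasDerivAt h (h1 t) t) (hd1 : ∀ t, HasDerivAt h1 (h2 t) t)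
    (hc : Continuous h2) (ha : h (-(1 / 2)) = 0) (hb : h (1 / 2) = 0)
    (ha1 : h1 (-(1 / 2)) = 0) (hb1 : h1 (1 / 2) = 0) (M : ℝ)
    (hM : ∀ t ∈ Icc (-(1 / 2) : ℝ) (1 / 2), |h t| ≤ M ∧ |h2 t| ≤ M) (ω : ℝ) :
    ‖∫ t in (-(1 / 2) : ℝ)..(1 / 2), (h t : ℂ) * Complex.exp (-2 * π * Complex.I * ω * t)‖
      ≤ 2 * M * (1 + ω ^ 2)⁻¹ := by
  set c : ℂ := -2 * π * Complex.I * ω with hcdef
  have hc1 : Continuous h1 := continuous_iff_continuousAt.2 fun t => (hd1 t).continuousAt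
  have e1 := ibp h h1 hd hc1 ha hb c
  have e2 := ibp h1 h2 hd1 hc ha1 hb1 c
  have hn : ∀ t : ℝ, ‖Complex.exp (c * t)‖ = 1 := fun t => by
    have : c * t = ((-2 * π * ω * t : ℝ) : ℂ) * Complex.I := by rw [hcdef]; push_cast; ring
    rw [this, Complex.norm_exp_ofReal_mul_I]
  have bd : ∀ k : ℝ → ℝ, (∀ t ∈ Icc (-(1 / 2) : ℝ) (1 / 2), |k t| ≤ M) →
      ‖∫ t in (-(1 / 2) : ℝ)..(1 / 2), (k t : ℂ) * Complex.exp (c * t)‖ ≤ M := by
    intro k hk
    have := intervalIntegral.norm_integral_le_of_norm_le_const (a := (-(1 / 2) : ℝ)) (b := 1 / 2)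
      (C := M) (f := fun t => (k t : ℂ) * Complex.exp (c * t)) (fun t ht => by
        rw [uIoc_of_le (by norm_num)] at ht
        rw [norm_mul, hn, mul_one, Complex.norm_real, Real.norm_eq_abs]
        exact hk t ⟨ht.1.le, ht.2⟩)
    norm_num at this ⊢
    exact this
  have b0 := bd h fun t ht => (hM t ht).1
  have b2 := bd h2 fun t ht => (hM t ht).2
  set V := ∫ t in (-(1 / 2) : ℝ)..(1 / 2), (h t : ℂ) * Complex.exp (c * t)
  have e3 : c * (c * V) = ∫ t in (-(1 / 2) : ℝ)..(1 / 2), (h2 t : ℂ) * Complex.exp (c * t) := by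
    rw [e1, mul_neg, e2, neg_neg]
  rw [← e3, norm_mul c, norm_mul c] at b2
  have hcn : ‖c‖ = 2 * π * |ω| := by
    rw [hcdef]; simp [abs_of_pos pi_pos]
  rw [hcn] at b2
  have hp : ω ^ 2 * ‖V‖ ≤ M := by
    have h3 : (1 : ℝ) ≤ 4 * π ^ 2 := by nlinarith [pi_gt_three]
    have h4 : 2 * π * |ω| * (2 * π * |ω| * ‖V‖) = 4 * π ^ 2 * (ω ^ 2 * ‖V‖) := by
      rw [← sq_abs ω]; ring
    have h5 : 0 ≤ ω ^ 2 * ‖V‖ := by positivity
    nlinarith
  rw [← div_eq_mul_inv, le_div_iff₀ (by positivity)]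
  nlinarith

theorem gauss_bd (t x : ℝ) (ht : t ∈ Icc (-(1 / 2) : ℝ) (1 / 2)) :
    (1 + (t - x) ^ 2) * exp (-π * (t - x) ^ 2) ≤ 2 * (1 + x ^ 2)⁻¹ := by
  set u := t - x with hu
  have h1 := Real.quadratic_le_exp_of_nonneg (x := π * u ^ 2) (by positivity)
  have h2 : (1 + u ^ 2) ^ 2 ≤ exp (π * u ^ 2) := by
    refine le_trans ?_ h1
    have h3 : 0 ≤ u ^ 2 := sq_nonneg u
    have h4 : (2 : ℝ) ≤ π ^ 2 := by nlinarith [pi_gt_three]
    have h5 : 0 ≤ (u ^ 2) ^ 2 := sq_nonneg _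
    nlinarith [pi_gt_three]
  have h3 : 1 + x ^ 2 ≤ 2 * (1 + u ^ 2) := by
    have : x = t - u := by rw [hu]; ring
    rw [this]
    nlinarith [ht.1, ht.2, sq_nonneg (t + u)]
  rw [neg_mul, exp_neg, ← div_eq_mul_inv, ← div_eq_mul_inv, div_le_div_iff₀ (exp_pos _) (by positivity)]
  have h4 : 0 < 1 + u ^ 2 := by positivity
  nlinarith

theorem stft_bd (x ω : ℝ) :
    ‖∫ t : ℝ, g t * Complex.exp (-(π : ℂ) * (((t - x) ^ 2 : ℝ) : ℂ))
        * Complex.exp (-2 * (π : ℂ) * Complex.I * (ω : ℂ) * (t : ℂ))‖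
      ≤ 4000 * ((1 + x ^ 2)⁻¹ * (1 + ω ^ 2)⁻¹) := by
  have he : ∫ t : ℝ, g t * Complex.exp (-(π : ℂ) * (((t - x) ^ 2 : ℝ) : ℂ))
        * Complex.exp (-2 * (π : ℂ) * Complex.I * (ω : ℂ) * (t : ℂ)) =
      ∫ t in (-(1 / 2) : ℝ)..(1 / 2), ((S t * exp (-π * (t - x) ^ 2) : ℝ) : ℂ) *
        Complex.exp (-2 * π * Complex.I * ω * t) := by
    rw [intervalIntegral.integral_of_le (by norm_num), ← integral_Icc_eq_integral_Ioc,
      ← integral_indicator measurableSet_Icc]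
    congr 1; ext t
    unfold g
    by_cases ht : t ∈ Icc (-(1 / 2) : ℝ) (1 / 2)
    · rw [indicator_of_mem ht, indicator_of_mem ht]; push_cast; ring_nf
    · rw [indicator_of_notMem ht, indicator_of_notMem ht]; simp
  rw [he]
  have hs : ∀ t, HasDerivAt (fun t => sin (2 * π * t)) (2 * π * cos (2 * π * t)) t := fun t => by
    have := ((hasDerivAt_id t).const_mul (2 * π)).sin
    simpa [mul_comm] using this
  have hc : ∀ t, HasDerivAt (fun t => cos (2 * π * t)) (-(2 * π * sin (2 * π * t))) t := fun t => by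
    have := ((hasDerivAt_id t).const_mul (2 * π)).cos
    simpa [mul_comm] using this
  have hu : ∀ t, HasDerivAt (fun t => t - x) 1 t := fun t => (hasDerivAt_id t).sub_const x
  have hG : ∀ t, HasDerivAt (fun t => exp (-π * (t - x) ^ 2))
      (-(2 * π * (t - x)) * exp (-π * (t - x) ^ 2)) t := fun t => by
    have := (((hu t).fun_pow 2).const_mul (-π)).exp
    refine this.congr_deriv ?_
    simp only [Nat.cast_ofNat, Nat.add_one_sub_one, pow_one]; ring
  have s1 : sin (2 * π * (1 / 2)) = 0 := by rw [show 2 * π * (1 / 2) = π by ring, sin_pi]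
  have s2 : sin (2 * π * (-(1 / 2))) = 0 := by rw [mul_neg, sin_neg, s1, neg_zero]
  have := decay (fun t => S t * exp (-π * (t - x) ^ 2))
    (fun t => (6 * π * (sin (2 * π * t) ^ 2 * cos (2 * π * t)) - 2 * π * ((t - x) * sin (2 * π * t) ^ 3))
      * exp (-π * (t - x) ^ 2))
    (fun t => (12 * π ^ 2 * (2 * sin (2 * π * t) * cos (2 * π * t) ^ 2 - sin (2 * π * t) ^ 3)
      - 24 * π ^ 2 * ((t - x) * (sin (2 * π * t) ^ 2 * cos (2 * π * t)))
      - 2 * π * sin (2 * π * t) ^ 3 + 4 * π ^ 2 * ((t - x) ^ 2 * sin (2 * π * t) ^ 3))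
      * exp (-π * (t - x) ^ 2))
    (fun t => by
      unfold S
      refine (((hs t).fun_pow 3).fun_mul (hG t)).congr_deriv ?_
      simp only [Nat.cast_ofNat, Nat.add_one_sub_one]; ring)
    (fun t => by
      refine ((((((hs t).fun_pow 2).fun_mul (hc t)).const_mul (6 * π)).fun_sub
        (((hu t).fun_mul ((hs t).fun_pow 3)).const_mul (2 * π))).fun_mul (hG t)).congr_deriv ?_
      simp only [Nat.cast_ofNat, Nat.add_one_sub_one, pow_one]; ring)
    (by fun_prop) (by simp only [S, s2]; simp) (by simp only [S, s1]; simp)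
    (by simp only [s2]; simp) (by simp only [s1]; simp) (2000 * (1 + x ^ 2)⁻¹) ?_ ω
  · refine this.trans (le_of_eq (by ring))
  intro t ht
  have hb := gauss_bd t x ht
  have hE := exp_pos (-π * (t - x) ^ 2)
  set E := exp (-π * (t - x) ^ 2)
  set u := t - x
  have key : ∀ y : ℝ, |y| ≤ 1000 * (1 + u ^ 2) → |y * E| ≤ 2000 * (1 + x ^ 2)⁻¹ := by
    intro y hy
    rw [abs_mul, abs_of_pos hE]
    nlinarith
  have hs1 := abs_sin_le_one (2 * π * t)
  have hc1 := abs_cos_le_one (2 * π * t)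
  set s := sin (2 * π * t)
  set c := cos (2 * π * t)
  refine ⟨key _ ((S_abs t).trans (by nlinarith [sq_nonneg u])), key _ ?_⟩
  have p2 : π ^ 2 ≤ 16 := by nlinarith [pi_lt_four, pi_pos]
  have a1 : |2 * s * c ^ 2 - s ^ 3| ≤ 3 := by
    refine (abs_sub _ _).trans ?_
    rw [abs_mul, abs_mul, abs_pow, abs_pow, abs_two]
    have := pow_le_one₀ (n := 2) (abs_nonneg c) hc1
    have := pow_le_one₀ (n := 3) (abs_nonneg s) hs1
    nlinarith [abs_nonneg s, sq_nonneg (|c|)]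
  have a2 : |u * (s ^ 2 * c)| ≤ 1 + u ^ 2 := by
    rw [abs_mul, abs_mul, abs_pow]
    have h1 := pow_le_one₀ (n := 2) (abs_nonneg s) hs1
    have h2 : |s| ^ 2 * |c| ≤ 1 := mul_le_one₀ h1 (abs_nonneg c) hc1
    have h3 : |u| ≤ 1 + u ^ 2 := by rw [← sq_abs u]; nlinarith [sq_nonneg (|u| - 1)]
    nlinarith [abs_nonneg u]
  have a3 : |s ^ 3| ≤ 1 := by rw [abs_pow]; exact pow_le_one₀ (abs_nonneg s) hs1
  have a4 : |u ^ 2 * s ^ 3| ≤ u ^ 2 := by
    rw [abs_mul, abs_of_nonneg (sq_nonneg u)]; nlinarith [sq_nonneg u]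
  rw [abs_le] at a1 a2 a3 a4 ⊢
  have := pi_pos
  have := pi_lt_four
  have hp : 0 ≤ π ^ 2 := sq_nonneg _
  have hu2 := sq_nonneg u
  constructor <;> nlinarith

theorem stft_int : Integrable (fun p : ℝ × ℝ => ∫ t : ℝ, g t
        * Complex.exp (-(π : ℂ) * (((t - p.1) ^ 2 : ℝ) : ℂ))
        * Complex.exp (-2 * (π : ℂ) * Complex.I * (p.2 : ℂ) * (t : ℂ)))
      (volume : Measure (ℝ × ℝ)) := by
  have hi : Integrable (fun p : ℝ × ℝ => 4000 * ((1 + p.1 ^ 2)⁻¹ * (1 + p.2 ^ 2)⁻¹))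
      (volume : Measure (ℝ × ℝ)) :=
    (integrable_inv_one_add_sq.mul_prod integrable_inv_one_add_sq).const_mul _
  refine hi.mono' ?_ (Eventually.of_forall fun p => stft_bd p.1 p.2)
  refine (StronglyMeasurable.integral_prod_right (f := fun (p : ℝ × ℝ) (t : ℝ) => g t
        * Complex.exp (-(π : ℂ) * (((t - p.1) ^ 2 : ℝ) : ℂ))
        * Complex.exp (-2 * (π : ℂ) * Complex.I * (p.2 : ℂ) * (t : ℂ))) ?_).aestronglyMeasurable
  refine Measurable.stronglyMeasurable ?_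
  refine Measurable.mul (Measurable.mul (g_meas.comp measurable_snd) ?_) ?_
  · exact Continuous.measurable (by fun_prop)
  · exact Continuous.measurable (by fun_prop)

end Pool.Agent.H8.OddGabor
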