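import Pool.Agent.H8.OddGabor

set_option autoImplicit false

open MeasureTheory Set Filter Topology Real

namespace Pool.Agent.H8.OddGabor

/-- squared frame coefficient -/
noncomputable def co (f : ℝ → ℂ) (γ : ℝ × ℝ) : ℝ :=
  ‖∫ t : ℝ, f t * (starRingEnd ℂ)
    (Complex.exp (2 * (π : ℂ) * Complex.I * ((γ.2 : ℝ) : ℂ) * (t : ℂ)) * g (t - γ.1))‖ ^ 2

theorem pars (f : ℝ → ℂ) (hf : MemLp f 2 volume) (x : ℝ) :
    HasSum (fun m : ℤ => co f (x, m))
      (∫ t in (x - 1 / 2)..(x - 1 / 2 + 1), ‖f t‖ ^ 2 * S (t - x) ^ 2) := by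
  have hab : x - 1 / 2 < x - 1 / 2 + 1 := by linarith
  have hL : MemLp (fun t => f t * (S (t - x) : ℂ)) 2
      (volume.restrict (Ioc (x - 1 / 2) (x - 1 / 2 + 1))) := by
    refine (hf.restrict _).of_le ((hf.restrict _).1.mul ?_) (Eventually.of_forall fun t => ?_)
    · exact (Complex.continuous_ofReal.comp (S_cont.comp (by fun_prop))).aestronglyMeasurable
    · rw [norm_mul, Complex.norm_real, Real.norm_eq_abs]
      exact mul_le_of_le_one_right (norm_nonneg _) (S_abs _)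
  have h := hasSum_sq_fourierCoeffOn hab hL
  have e1 : x - 1 / 2 + 1 - (x - 1 / 2) = 1 := by ring
  convert h using 1
  · funext m
    unfold co
    congr 2
    rw [fourierCoeffOn_eq_integral, intervalIntegral.integral_of_le hab.le,
      ← integral_Icc_eq_integral_Ioc, ← integral_indicator measurableSet_Icc]
    have e2 : (1 / (x - 1 / 2 + 1 - (x - 1 / 2)) : ℝ) = 1 := by rw [e1]; simp
    rw [e2, one_smul]
    congr 1; ext t
    unfold g
    by_cases ht : t ∈ Icc (x - 1 / 2) (x - 1 / 2 + 1)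
    · have ht' : t - x ∈ Icc (-(1 / 2) : ℝ) (1 / 2) := ⟨by linarith [ht.1], by linarith [ht.2]⟩
      rw [indicator_of_mem ht, indicator_of_mem ht', fourier_coe_apply, e1, map_mul,
        Complex.conj_ofReal, ← Complex.exp_conj]
      simp only [map_mul, Complex.conj_ofReal, Complex.conj_I, map_ofNat, smul_eq_mul]
      push_cast
      ring_nf
    · have ht' : t - x ∉ Icc (-(1 / 2) : ℝ) (1 / 2) := fun h => ht ⟨by linarith [h.1], by linarith [h.2]⟩
      rw [indicator_of_notMem ht, indicator_of_notMem ht']; simp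
  · rw [e1, inv_one, one_smul]
    congr 1; ext t
    rw [norm_mul, mul_pow, Complex.norm_real, Real.norm_eq_abs, sq_abs]

theorem wint (f : ℝ → ℂ) (hf : MemLp f 2 volume) (a : ℝ) :
    Integrable (fun t => ‖f t‖ ^ 2 * S (t - a) ^ 2) := by
  have hi : Integrable (fun t => ‖f t‖ ^ 2) := (memLp_two_iff_integrable_sq_norm hf.1).1 hf
  refine hi.mul_bdd (c := 1) (Continuous.aestronglyMeasurable ((S_cont.comp (by fun_prop)).pow 2))
    (Eventually.of_forall fun t => ?_)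
  rw [Real.norm_eq_abs, abs_pow]
  exact pow_le_one₀ (abs_nonneg _) (S_abs _)

def ph (a : ℝ) (p : ℤ × ℤ) : ℝ × ℝ := (a + p.1, p.2)

theorem ph_inj (a : ℝ) : Function.Injective (ph a) := by
  intro p q h
  simp only [ph, Prod.mk.injEq, add_right_inj, Int.cast_inj] at h
  exact Prod.ext h.1 h.2

theorem lat_sum (f : ℝ → ℂ) (hf : MemLp f 2 volume) (a : ℝ) :
    HasSum (fun γ : range (ph a) => co f γ) (∫ t, ‖f t‖ ^ 2 * S (t - a) ^ 2) := by
  rw [(ph_inj a).hasSum_range_iff]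
  have h1 := (wint f hf a).hasSum_intervalIntegral (a - 1 / 2)
  have h2 : ∀ k : ℤ, HasSum (fun m : ℤ => (co f ∘ ph a) (k, m))
      (∫ t in (a - 1 / 2 + k)..(a - 1 / 2 + k + 1), ‖f t‖ ^ 2 * S (t - a) ^ 2) := by
    intro k
    have := pars f hf (a + k)
    have e : a + k - 1 / 2 = a - 1 / 2 + k := by ring
    rw [e] at this
    have e2 : ∀ t : ℝ, S (t - (a + k)) = S (t - a) := by
      intro t
      unfold S
      have : 2 * π * (t - (a + k)) = 2 * π * (t - a) - k * (2 * π) := by ring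
      rw [this, sin_sub_int_mul_two_pi]
    simp only [e2] at this
    exact this
  have hs : Summable (co f ∘ ph a) := by
    have h0 : 0 ≤ co f ∘ ph a := fun p => sq_nonneg _
    refine (summable_prod_of_nonneg h0).2 ⟨fun k => (h2 k).summable, ?_⟩
    exact h1.summable.congr fun k => (h2 k).tsum_eq.symm
  have h3 := hs.hasSum.prod_fiberwise h2
  rw [← h3.unique h1]
  exact hs.hasSum

def Γ : Set (ℝ × ℝ) := range (ph 0) ∪ range (ph (1 / 4))

theorem disj : Disjoint (range (ph 0)) (range (ph (1 / 4))) := by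
  refine Set.disjoint_left.2 ?_
  rintro _ ⟨p, rfl⟩ ⟨q, h⟩
  have h1 : (1 / 4 : ℝ) + q.1 = 0 + p.1 := congrArg Prod.fst h
  have h2 : ((1 + 4 * q.1 : ℤ) : ℝ) = ((4 * p.1 : ℤ) : ℝ) := by push_cast; linarith
  have h3 : 1 + 4 * q.1 = 4 * p.1 := by exact_mod_cast h2
  omega

theorem frame (f : ℝ → ℂ) (hf : MemLp f 2 volume) :
    Summable (fun γ : Γ => co f γ) ∧ 1 / 4 * ∫ t, ‖f t‖ ^ 2 ≤ ∑' γ : Γ, co f γ ∧
      ∑' γ : Γ, co f γ ≤ 2 * ∫ t, ‖f t‖ ^ 2 := by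
  have h : HasSum (fun γ : Γ => co f γ) _ :=
    HasSum.add_disjoint (f := co f) disj (lat_sum f hf 0) (lat_sum f hf (1 / 4))
  have hi : Integrable (fun t => ‖f t‖ ^ 2) := (memLp_two_iff_integrable_sq_norm hf.1).1 hf
  rw [h.tsum_eq, ← integral_add (wint f hf 0) (wint f hf _), ← integral_const_mul,
    ← integral_const_mul]
  have hw : ∀ t, 1 / 4 ≤ S (t - 0) ^ 2 + S (t - 1 / 4) ^ 2 ∧ S (t - 0) ^ 2 + S (t - 1 / 4) ^ 2 ≤ 2 := by
    intro t
    constructor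
    · unfold S
      have : 2 * π * (t - 1 / 4) = 2 * π * t - π / 2 := by ring
      rw [this, sin_sub_pi_div_two, sub_zero]
      have h1 := sin_sq_add_cos_sq (2 * π * t)
      set s := sin (2 * π * t)
      set c := cos (2 * π * t)
      have h2 : (s ^ 3) ^ 2 + ((-c) ^ 3) ^ 2 = (s ^ 2) ^ 3 + (1 - s ^ 2) ^ 3 := by
        rw [← h1]; ring
      rw [h2]
      nlinarith [sq_nonneg (s ^ 2 - 1 / 2)]
    · have h1 := (sq_le_one_iff_abs_le_one _).2 (S_abs (t - 0))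
      have h2 := (sq_le_one_iff_abs_le_one _).2 (S_abs (t - 1 / 4))
      linarith
  refine ⟨h.summable, ?_, ?_⟩
  · refine integral_mono (hi.const_mul _) ((wint f hf 0).add (wint f hf _)) fun t => ?_
    have := hw t
    have h0 := sq_nonneg ‖f t‖
    simp only
    nlinarith
  · refine integral_mono ((wint f hf 0).add (wint f hf _)) (hi.const_mul _) fun t => ?_
    have := hw t
    have h0 := sq_nonneg ‖f t‖
    simp only
    nlinarith

theorem ico_card (y R : ℝ) (hR : 1 ≤ R) :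
    R - 1 ≤ ((Finset.Ico ⌈y⌉ ⌈y + R⌉).card : ℝ) ∧ ((Finset.Ico ⌈y⌉ ⌈y + R⌉).card : ℝ) ≤ R + 1 := by
  have h1 : ⌈y⌉ ≤ ⌈y + R⌉ := Int.ceil_mono (by linarith)
  have h2 : ((Finset.Ico ⌈y⌉ ⌈y + R⌉).card : ℝ) = (⌈y + R⌉ : ℝ) - ⌈y⌉ := by
    have := Int.card_Ico_of_le _ _ h1
    exact_mod_cast this
  rw [h2]
  have := Int.le_ceil y
  have := Int.ceil_lt_add_one y
  have := Int.le_ceil (y + R)
  have := Int.ceil_lt_add_one (y + R)
  constructor <;> linarith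

theorem cnt (a : ℝ) (z : ℝ × ℝ) (R : ℝ) (hR : 1 ≤ R) :
    (range (ph a) ∩ (Ico z.1 (z.1 + R) ×ˢ Ico z.2 (z.2 + R))).Finite ∧
    (R - 1) ^ 2 ≤ ((range (ph a) ∩ (Ico z.1 (z.1 + R) ×ˢ Ico z.2 (z.2 + R))).ncard : ℝ) ∧
    ((range (ph a) ∩ (Ico z.1 (z.1 + R) ×ˢ Ico z.2 (z.2 + R))).ncard : ℝ) ≤ (R + 1) ^ 2 := by
  have e : range (ph a) ∩ (Ico z.1 (z.1 + R) ×ˢ Ico z.2 (z.2 + R)) =
      ph a '' ((Finset.Ico ⌈z.1 - a⌉ ⌈z.1 - a + R⌉ ×ˢ Finset.Ico ⌈z.2⌉ ⌈z.2 + R⌉ : Finset (ℤ × ℤ)) :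
        Set (ℤ × ℤ)) := by
    rw [inter_comm, ← image_preimage_eq_inter_range]
    congr 1
    ext p
    simp only [ph, mem_preimage, mem_prod, mem_Ico, Finset.coe_product, Finset.coe_Ico,
      Int.ceil_le, Int.lt_ceil]
    constructor
    · rintro ⟨⟨h1, h2⟩, h3⟩; exact ⟨⟨by linarith, by linarith⟩, h3⟩
    · rintro ⟨⟨h1, h2⟩, h3⟩; exact ⟨⟨by linarith, by linarith⟩, h3⟩
  rw [e, ncard_image_of_injective _ (ph_inj a), ncard_coe_finset, Finset.card_product]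
  refine ⟨(Finset.finite_toSet _).image _, ?_⟩
  obtain ⟨h1, h2⟩ := ico_card (z.1 - a) R hR
  obtain ⟨h3, h4⟩ := ico_card z.2 R hR
  push_cast
  constructor
  · rw [sq]; exact mul_le_mul h1 h3 (by linarith) (Nat.cast_nonneg _)
  · rw [sq]; exact mul_le_mul h2 h4 (Nat.cast_nonneg _) (by linarith)

theorem cntΓ (z : ℝ × ℝ) (R : ℝ) (hR : 1 ≤ R) :
    (Γ ∩ (Ico z.1 (z.1 + R) ×ˢ Ico z.2 (z.2 + R))).Finite ∧
    2 * (R - 1) ^ 2 ≤ ((Γ ∩ (Ico z.1 (z.1 + R) ×ˢ Ico z.2 (z.2 + R))).ncard : ℝ) ∧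
    ((Γ ∩ (Ico z.1 (z.1 + R) ×ˢ Ico z.2 (z.2 + R))).ncard : ℝ) ≤ 2 * (R + 1) ^ 2 := by
  obtain ⟨a1, a2, a3⟩ := cnt 0 z R hR
  obtain ⟨b1, b2, b3⟩ := cnt (1 / 4) z R hR
  unfold Γ
  rw [union_inter_distrib_right, ncard_union_eq (disj.mono inter_subset_left inter_subset_left) a1 b1]
  refine ⟨a1.union b1, ?_⟩
  push_cast
  constructor <;> linarith

theorem dens : liminf (fun R : ℝ => ⨅ z : ℝ × ℝ,
    ((Γ ∩ (Ico z.1 (z.1 + R) ×ˢ Ico z.2 (z.2 + R))).ncard : ℝ) / R ^ 2) atTop = 2 := by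
  apply Tendsto.liminf_eq
  have h0 : Tendsto (fun R : ℝ => R⁻¹) atTop (𝓝 0) := tendsto_inv_atTop_zero
  have h1 : Tendsto (fun R : ℝ => 2 * (1 - R⁻¹) ^ 2) atTop (𝓝 2) := by
    have := ((h0.const_sub 1).pow 2).const_mul 2
    simpa using this
  have h2 : Tendsto (fun R : ℝ => 2 * (1 + R⁻¹) ^ 2) atTop (𝓝 2) := by
    have := ((h0.const_add 1).pow 2).const_mul 2
    simpa using this
  refine tendsto_of_tendsto_of_tendsto_of_le_of_le' h1 h2 ?_ ?_
  · filter_upwards [eventually_ge_atTop (1 : ℝ)] with R hR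
    refine le_ciInf fun z => ?_
    rw [le_div_iff₀ (by positivity)]
    refine le_trans (le_of_eq ?_) (cntΓ z R hR).2.1
    field_simp
  · filter_upwards [eventually_ge_atTop (1 : ℝ)] with R hR
    refine ciInf_le_of_le ⟨0, ?_⟩ 0 ?_
    · rintro _ ⟨z, rfl⟩; positivity
    · rw [div_le_iff₀ (by positivity)]
      refine le_trans (cntΓ 0 R hR).2.2 (le_of_eq ?_)
      field_simp

end Pool.Agent.H8.OddGabor
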