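import Mathlib

set_option autoImplicit false
open Set Function

namespace Pool.Agent.H8.PB

inductive T : Type
  | leaf : T
  | mk (t : ℝ) (k : ℕ) (par : ℕ → T) (q : Bool) (o a : ℕ → T) : T

def up : T → Set T
  | .leaf => {.leaf}
  | .mk t k par q o a => insert (.mk t k par q o a) (⋃ i ≤ k, up (par i))

def ht : T → ℕ
  | .leaf => 0
  | .mk _ k par _ _ _ => (Finset.range (k + 1)).sup (fun i => ht (par i)) + 1

def K (k : ℕ) (par : ℕ → T) : Set T := {r | ∃ i < k, r ∈ up (par i)}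

lemma mem_up_mk {t k par q o a r} :
    r ∈ up (.mk t k par q o a) ↔ r = .mk t k par q o a ∨ r ∈ K (k + 1) par := by
  simp [up, K, Nat.lt_succ_iff]

lemma self_up (p : T) : p ∈ up p := by cases p <;> simp [up]

lemma up_fin (p : T) : (up p).Finite := by
  induction p with
  | leaf => simp [up]
  | mk t k par q o a ih _ _ => exact ((finite_le_nat k).biUnion fun i _ => ih i).insert _

lemma K_fin (k : ℕ) (par : ℕ → T) : (K k par).Finite :=
  ((finite_lt_nat k).biUnion fun i _ => up_fin (par i)).subset fun r ⟨i, h1, h2⟩ =>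
    mem_biUnion h1 h2

lemma up_trans {p : T} : ∀ {r s : T}, r ∈ up p → s ∈ up r → s ∈ up p := by
  induction p with
  | leaf => intro r s h1 h2; obtain rfl : r = .leaf := h1; exact h2
  | mk t k par q o a ih _ _ =>
    intro r s h1 h2
    rcases mem_up_mk.1 h1 with rfl | ⟨i, hi, h⟩
    · exact h2
    · exact mem_up_mk.2 (Or.inr ⟨i, hi, ih i h h2⟩)

lemma K_trans {k par r s} (h1 : r ∈ K k par) (h2 : s ∈ up r) : s ∈ K k par :=
  let ⟨i, hi, h⟩ := h1; ⟨i, hi, up_trans h h2⟩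

lemma ht_par {t k par q o a i} (hi : i < k + 1) : ht (par i) < ht (.mk t k par q o a) :=
  Nat.lt_succ_of_le (Finset.le_sup (f := fun i => ht (par i)) (Finset.mem_range.2 hi))

lemma ht_up {p : T} : ∀ {r : T}, r ∈ up p → r = p ∨ ht r < ht p := by
  induction p with
  | leaf => intro r h; exact Or.inl h
  | mk t k par q o a ih _ _ =>
    intro r h
    rcases mem_up_mk.1 h with rfl | ⟨i, hi, h⟩
    · exact Or.inl rfl
    · rcases ih i h with rfl | h
      · exact Or.inr (ht_par hi)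
      · exact Or.inr (h.trans (ht_par hi))

lemma ht_le {p r : T} (h : r ∈ up p) : ht r ≤ ht p := by
  rcases ht_up h with rfl | h
  · rfl
  · exact h.le

lemma ht_K {t k par q o a r} (h : r ∈ K (k + 1) par) : ht r < ht (.mk t k par q o a) :=
  let ⟨_, hi, h⟩ := h; (ht_le h).trans_lt (ht_par hi)

def Step (o a : T) : T → Prop
  | .leaf => False
  | .mk _ k par _ _ _ => ∃ j, 1 ≤ j ∧ j ≤ k ∧ par j = a ∧ ∀ i ≤ k, i ≠ j → o ∉ up (par i)

inductive Ch (o : T) : ℕ → T → Prop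
  | zero : Ch o 0 o
  | succ {n a p} : Ch o n a → Step o a p → Ch o (n + 1) p

lemma Step.lt {o a p : T} (h : Step o a p) : a ∈ up p ∧ ht a < ht p := by
  cases p with
  | leaf => exact h.elim
  | mk t k par q o' a' =>
    obtain ⟨j, -, h2, rfl, -⟩ := h
    exact ⟨mem_up_mk.2 (Or.inr ⟨j, by omega, self_up _⟩), ht_par (by omega)⟩

lemma Step.conv {o a p r : T} (h : Step o a p) (h1 : r ∈ up p) (h2 : o ∈ up r) :
    r = p ∨ r ∈ up a := by
  cases p with
  | leaf => exact h.elim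
  | mk t k par q o' a' =>
    obtain ⟨j, -, -, rfl, h4⟩ := h
    rcases mem_up_mk.1 h1 with rfl | ⟨i, hi, h⟩
    · exact Or.inl rfl
    · by_cases hij : i = j
      · exact Or.inr (hij ▸ h)
      · exact absurd (up_trans h h2) (h4 i (by omega) hij)

lemma Ch.up {o p : T} {n : ℕ} (h : Ch o n p) : o ∈ up p ∧ n ≤ ht p := by
  induction h with
  | zero => exact ⟨self_up _, Nat.zero_le _⟩
  | succ _ hs ih => exact ⟨up_trans hs.lt.1 ih.1, by have := hs.lt.2; omega⟩

lemma Ch.conv {o p : T} {n : ℕ} (h : Ch o n p) :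
    ∀ r ∈ PB.up p, o ∈ PB.up r → ∃ m, Ch o m r := by
  induction h with
  | zero =>
    intro r h1 h2
    rcases ht_up h1 with rfl | h
    · exact ⟨0, .zero⟩
    · exact absurd (ht_le h2) (by omega)
  | succ hc hs ih =>
    intro r h1 h2
    rcases hs.conv h1 h2 with rfl | h
    · exact ⟨_, hc.succ hs⟩
    · exact ih r h h2

lemma not_ch_base {o t k par q o' a'} (h : o ∈ up (par 0)) (n : ℕ) :
    ¬ Ch o n (.mk t k par q o' a') := by
  intro hc
  generalize hp : T.mk t k par q o' a' = p at hc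
  cases hc with
  | zero =>
    have := ht_K (t := t) (q := q) (o := o') (a := a') (k := k) ⟨0, by omega, h⟩
    rw [hp] at this; exact lt_irrefl _ this
  | succ _ hs =>
    subst hp
    obtain ⟨j, h1, -, -, h4⟩ := hs
    exact h4 0 (by omega) (by omega) h

def M (S : Set T) (o : T) : Set ℕ := {m | ∃ r ∈ S, Ch o m r}

def Root (a : ℕ → T) : Set T := {r | ∀ n, r ∈ up (a n)}

def Adm (o a : ℕ → T) : Prop :=
  (∀ r ∉ Root a, {n | r ∈ up (a n)}.Finite) ∧ (∀ n, o n ∉ Root a) ∧ (∀ n, ∃ m, Ch (o n) m (a n)) ∧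
    ∀ r ∈ Root a, ∀ n, M (up (a n)) r = M (up (a 0)) r

def IsQ (q : T) (o a : ℕ → T) : Prop := ∃ t k par, q = .mk t k par true o a

def Hd (par : ℕ → T) (j : ℕ) (q : T) : Prop :=
  ∃ o a n, IsQ q o a ∧ q ∈ K j par ∧ par j = a n ∧ up (a n) ∩ K j par ⊆ Root a

def Sq (k : ℕ) (par : ℕ → T) : Prop := ∀ j, 1 ≤ j → j ≤ k → ∃ q, Hd par j q
def Done (k : ℕ) (par : ℕ → T) (q : T) : Prop :=
  (∃ o a, IsQ q o a) → ∃ j, 1 ≤ j ∧ j ≤ k ∧ Hd par j q

def Good : T → Prop
  | .leaf => True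
  | .mk _ k par q o a => (∀ i ≤ k, Good (par i)) ∧
      (q = true → Adm o a ∧ par 0 = a 0 ∧ ∀ n, Good (a n)) ∧ Sq k par ∧
      ∀ r ∈ K (k + 1) par, Done k par r

lemma Good.up {p : T} : Good p → ∀ r ∈ up p, Good r := by
  induction p with
  | leaf => intro _ r h; obtain rfl : r = .leaf := h; trivial
  | mk t k par q o a ih _ _ =>
    intro hg r h
    rcases mem_up_mk.1 h with rfl | ⟨i, hi, h⟩
    · exact hg
    · exact ih i (hg.1 i (by omega)) r h

lemma IsQ.facts {q : T} {o a : ℕ → T} (h : IsQ q o a) (hg : Good q) :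
    Adm o a ∧ (∀ n, Good (a n)) ∧ a 0 ∈ up q ∧ (∀ r ∈ up (a 0), ∀ n, ¬ Ch r n q) := by
  obtain ⟨t, k, par, rfl⟩ := h
  obtain ⟨h1, h2, h3⟩ := hg.2.1 rfl
  exact ⟨h1, h3, mem_up_mk.2 (Or.inr ⟨0, by omega, h2 ▸ self_up _⟩),
    fun r hr n => not_ch_base (h2 ▸ hr) n⟩

lemma IsQ.uniq {q : T} {o a o' a' : ℕ → T} (h : IsQ q o a) (h' : IsQ q o' a') :
    o = o' ∧ a = a' := by
  obtain ⟨t, k, par, rfl⟩ := h
  obtain ⟨t', k', par', h⟩ := h'
  simp only [T.mk.injEq] at h
  exact ⟨h.2.2.2.2.1, h.2.2.2.2.2⟩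

/-- every element strictly below a guess extends one of its chains -/
lemma req {p q : T} {o a : ℕ → T} (hp : Good p) (hq : IsQ q o a) (h1 : q ∈ up p) (h2 : q ≠ p) :
    ∃ n, Step (o n) (a n) p := by
  cases p with
  | leaf => exact absurd h1 h2
  | mk t k par q' o' a' =>
    have hK := (mem_up_mk.1 h1).resolve_left h2
    obtain ⟨j, j1, j2, o1, a1, n, e1, e2, e3, e4⟩ := hp.2.2.2 q hK ⟨o, a, hq⟩
    obtain ⟨rfl, rfl⟩ := hq.uniq e1
    have gK : ∀ i ≤ k + 1, ∀ r ∈ K i par, Good r := fun i hi r ⟨l, hl, hr⟩ =>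
      (hp.1 l (by omega)).up r hr
    obtain ⟨ad, -, -, -⟩ := hq.facts (gK _ le_rfl q hK)
    obtain ⟨m, hm⟩ := ad.2.2.1 n
    have f1 : o n ∉ K j par := fun h => ad.2.1 n (e4 ⟨hm.up.1, h⟩)
    refine ⟨n, j, j1, j2, e3, fun i => ?_⟩
    induction i using Nat.strong_induction_on with
    | _ i ih =>
      intro hi hij hoi
      rcases lt_or_gt_of_ne hij with h | h
      · exact f1 ⟨i, h, hoi⟩
      obtain ⟨q2, o2, a2, n2, c1, c2, c3, c4⟩ := hp.2.2.1 i (by omega) hi
      have r1 : o n ∈ Root a2 := c4 ⟨c3 ▸ hoi, j, h, e3 ▸ hm.up.1⟩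
      obtain ⟨-, -, g3, g4⟩ := c1.facts (gK i (by omega) q2 c2)
      have r2 : o n ∈ up q2 := up_trans g3 (r1 0)
      obtain ⟨l, hl, hq2⟩ := c2
      by_cases hlj : l = j
      · subst hlj
        obtain ⟨m', hm'⟩ := hm.conv q2 (e3 ▸ hq2) r2
        exact g4 _ (r1 0) m' hm'
      · exact ih l hl (by omega) hlj (up_trans hq2 r2)

lemma M_mono {S S' : Set T} (h : S ⊆ S') (o : T) : M S o ⊆ M S' o :=
  fun _ ⟨r, h1, h2⟩ => ⟨r, h h1, h2⟩

lemma K_succ (j : ℕ) (par : ℕ → T) : K (j + 1) par = K j par ∪ up (par j) := by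
  ext r
  constructor
  · rintro ⟨i, hi, h⟩
    rcases Nat.lt_succ_iff_lt_or_eq.1 hi with h1 | rfl
    · exact Or.inl ⟨i, h1, h⟩
    · exact Or.inr h
  · rintro (⟨i, hi, h⟩ | h)
    · exact ⟨i, by omega, h⟩
    · exact ⟨j, by omega, h⟩

lemma M_union (S S' : Set T) (o : T) : M (S ∪ S') o = M S o ∪ M S' o := by
  ext m
  constructor
  · rintro ⟨r, h | h, h2⟩
    · exact Or.inl ⟨r, h, h2⟩
    · exact Or.inr ⟨r, h, h2⟩
  · rintro (h | h)
    · exact M_mono subset_union_left o h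
    · exact M_mono subset_union_right o h

lemma M_empty {S : Set T} {o : T} (h : ∀ r ∈ S, o ∉ up r) : M S o = ∅ :=
  eq_empty_of_forall_notMem fun _ ⟨r, h1, h2⟩ => h r h1 h2.up.1

lemma add_K {k par} (hg : ∀ i ≤ k, Good (par i)) (hs : Sq k par) {j : ℕ} (j1 : 1 ≤ j) (j2 : j ≤ k)
    {o : T} (ho : o ∈ K j par) : M (K (j + 1) par) o = M (K j par) o := by
  rw [K_succ, M_union, union_eq_left]
  by_cases h : o ∈ up (par j)
  · obtain ⟨q2, o2, a2, n2, c1, c2, c3, c4⟩ := hs j j1 j2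
    have r1 : o ∈ Root a2 := c4 ⟨c3 ▸ h, ho⟩
    obtain ⟨l, hl, hq2⟩ := c2
    obtain ⟨g1, -, g3, -⟩ := c1.facts ((hg l (by omega)).up q2 hq2)
    rw [c3, g1.2.2.2 o r1 n2]
    exact M_mono (fun r hr => by exact ⟨l, hl, up_trans hq2 (up_trans g3 hr)⟩) o
  · rw [M_empty fun r hr h' => h (up_trans hr h')]; exact empty_subset _

lemma base_pres {t k par q o' a'} (hp : Good (.mk t k par q o' a')) {o : T} (ho : o ∈ up (par 0)) :
    M (up (.mk t k par q o' a')) o = M (up (par 0)) o := by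
  have h1 : ∀ j, j ≤ k → M (K (j + 1) par) o = M (up (par 0)) o := by
    intro j
    induction j with
    | zero => intro _; congr 1; ext r; simp [K]
    | succ j ih =>
      intro hj
      rw [add_K hp.1 hp.2.2.1 (by omega) hj ⟨0, by omega, ho⟩, ih (by omega)]
  rw [← h1 k le_rfl]
  refine Subset.antisymm ?_ (M_mono (fun r hr => mem_up_mk.2 (Or.inr hr)) o)
  rintro m ⟨r, h2, h3⟩
  rcases mem_up_mk.1 h2 with rfl | h
  · exact absurd h3 (not_ch_base ho m)
  · exact ⟨r, h, h3⟩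

lemma invar {v : T} : Good v → ∀ u ∈ up v, ∀ o ∈ up u, (∀ n, ¬ Ch o n u) →
    M (up v) o = M (up u) o := by
  induction' hn : ht v using Nat.strong_induction_on with N ih generalizing v
  cases v with
  | leaf => intro _ u h _ _ _; obtain rfl : u = .leaf := h; rfl
  | mk t k par q o' a' =>
    intro hp u hu o ho hc
    rcases mem_up_mk.1 hu with rfl | hK
    · rfl
    have ih' : ∀ i ≤ k, ∀ u ∈ up (par i), o ∈ up u → (∀ n, ¬ Ch o n u) →
        M (up (par i)) o = M (up u) o := fun i hi u h1 h2 h3 =>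
      ih _ (hn ▸ ht_par (by omega)) rfl (hp.1 i hi) u h1 o h2 h3
    have h1 : ∀ j, j ≤ k → ∀ u ∈ K (j + 1) par, o ∈ up u → (∀ n, ¬ Ch o n u) →
        M (K (j + 1) par) o = M (up u) o := by
      intro j
      induction j with
      | zero =>
        rintro _ u ⟨i, hi, hu⟩ h2 h3
        obtain rfl : i = 0 := by omega
        rw [← ih' 0 (by omega) u hu h2 h3]; congr 1; ext r; simp [K]
      | succ j ihj =>
        intro hj u hu h2 h3
        by_cases hoK : o ∈ K (j + 1) par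
        · rw [add_K hp.1 hp.2.2.1 (by omega) hj hoK]
          rw [K_succ] at hu
          rcases hu with hu | hu
          · exact ihj (by omega) u hu h2 h3
          obtain ⟨q2, o2, a2, n2, c1, c2, c3, c4⟩ := hp.2.2.1 (j + 1) (by omega) hj
          have r1 : o ∈ Root a2 := c4 ⟨c3 ▸ up_trans hu h2, hoK⟩
          have gq : Good q2 := let ⟨l, hl, hq2⟩ := c2; (hp.1 l (by omega)).up q2 hq2
          obtain ⟨g1, -, g3, g4⟩ := c1.facts gq
          rw [ihj (by omega) q2 c2 (up_trans g3 (r1 0)) (g4 o (r1 0)),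
            ← ih' (j + 1) hj u hu h2 h3, c3, g1.2.2.2 o r1 n2]
          obtain ⟨t2, k2, par2, rfl⟩ := c1
          have e : par2 0 = a2 0 := (gq.2.1 rfl).2.1
          rw [base_pres gq (e ▸ r1 0), e]
        · rw [K_succ] at hu
          rcases hu with hu | hu
          · exact absurd (K_trans hu h2) hoK
          rw [K_succ, M_union, M_empty fun r hr h' => hoK (K_trans hr h'), empty_union]
          exact ih' (j + 1) hj u hu h2 h3
    rw [← h1 k le_rfl u hK ho hc]
    refine Subset.antisymm ?_ (M_mono (fun r hr => mem_up_mk.2 (Or.inr hr)) o)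
    rintro m ⟨r, h2, h3⟩
    rcases mem_up_mk.1 h2 with rfl | h
    · obtain ⟨m', hm'⟩ := h3.conv u hu ho
      exact absurd hm' (hc m')
    · exact ⟨r, h, h3⟩

def Ext (k : ℕ) (par : ℕ → T) (k' : ℕ) (par' : ℕ → T) : Prop := k ≤ k' ∧ ∀ i ≤ k, par' i = par i

lemma Ext.K {k par k' par'} (h : Ext k par k' par') {j : ℕ} (hj : j ≤ k + 1) :
    K j par' = K j par := by
  ext r
  exact ⟨fun ⟨i, h1, h2⟩ => ⟨i, h1, h.2 i (by omega) ▸ h2⟩,
    fun ⟨i, h1, h2⟩ => ⟨i, h1, (h.2 i (by omega)).symm ▸ h2⟩⟩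

lemma Ext.hd {k par k' par'} (h : Ext k par k' par') {j : ℕ} (hj : j ≤ k) {q : T}
    (hq : Hd par j q) : Hd par' j q := by
  obtain ⟨o, a, n, c1, c2, c3, c4⟩ := hq
  have e := h.K (j := j) (by omega)
  exact ⟨o, a, n, c1, e.symm ▸ c2, (h.2 j hj).trans c3, e.symm ▸ c4⟩

lemma Ext.done {k par k' par'} (h : Ext k par k' par') {q : T} (hq : Done k par q) :
    Done k' par' q := fun h' =>
  let ⟨j, h1, h2, h3⟩ := hq h'; ⟨j, h1, h2.trans h.1, h.hd h2 h3⟩

lemma Ext.trans {k par k' par' k'' par''} (h : Ext k par k' par') (h' : Ext k' par' k'' par'') :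
    Ext k par k'' par'' :=
  ⟨h.1.trans h'.1, fun i hi => (h'.2 i (hi.trans h.1)).trans (h.2 i hi)⟩

lemma K_mono {j j' : ℕ} (h : j ≤ j') (par : ℕ → T) : K j par ⊆ K j' par :=
  fun _ ⟨i, h1, h2⟩ => ⟨i, by omega, h2⟩

def Cfg (z : T) (k : ℕ) (par : ℕ → T) : Prop :=
  (∀ i ≤ k, Good (par i)) ∧ Sq k par ∧ z ∉ K (k + 1) par

def Hand (z : T) (N : Set T) : Prop :=
  ∀ k par, Cfg z k par → N ⊆ K (k + 1) par → ∃ k' par', Ext k par k' par' ∧ Cfg z k' par' ∧
    ∀ r ∈ K (k' + 1) par', r ∈ N ∨ r ∉ K (k + 1) par → Done k' par' r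

lemma hand_fin {z : T} {N : Set T} (hN : N.Finite) (h : ∀ q ∈ N, Hand z {q}) : Hand z N := by
  induction N, hN using Set.Finite.induction_on with
  | empty =>
    intro k par hc _
    exact ⟨k, par, ⟨le_rfl, fun _ _ => rfl⟩, hc, fun r hr h' => absurd hr (by simpa using h')⟩
  | @insert q N _ _ ih =>
    intro k par hc hs
    obtain ⟨k1, par1, e1, c1, d1⟩ := h q (mem_insert _ _) k par hc
      (singleton_subset_iff.2 (hs (mem_insert _ _)))
    have s1 : K (k + 1) par ⊆ K (k1 + 1) par1 :=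
      (e1.K le_rfl).symm.subset.trans (K_mono (by have := e1.1; omega) _)
    obtain ⟨k2, par2, e2, c2, d2⟩ := ih (fun q hq => h q (mem_insert_of_mem _ hq)) k1 par1 c1
      ((subset_insert _ _).trans (hs.trans s1))
    refine ⟨k2, par2, e1.trans e2, c2, fun r hr h' => ?_⟩
    by_cases h1 : r ∈ K (k1 + 1) par1
    · rcases h' with (rfl | h') | h'
      · exact e2.done (d1 r h1 (Or.inl rfl))
      · exact d2 r hr (Or.inl h')
      · exact e2.done (d1 r h1 (Or.inr h'))
    · exact d2 r hr (Or.inr h1)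

lemma hand_up (z : T) (p : T) : Good p → ∀ q ∈ up p, Hand z {q} := by
  induction p with
  | leaf =>
    intro _ q h k par hc _
    obtain rfl : q = .leaf := h
    refine ⟨k, par, ⟨le_rfl, fun _ _ => rfl⟩, hc, fun r hr h' => ?_⟩
    obtain rfl : r = .leaf := h'.resolve_right (not_not.2 hr)
    rintro ⟨o, a, t, k, par, h⟩
    cases h
  | mk t0 k0 par0 q0 o a ih _ iha =>
    intro hg q hq
    rcases mem_up_mk.1 hq with rfl | ⟨i, hi, h⟩
    swap
    · exact ih i (hg.1 i (by omega)) q h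
    intro k par hc hs
    cases q0 with
    | false =>
      refine ⟨k, par, ⟨le_rfl, fun _ _ => rfl⟩, hc, fun r hr h' => ?_⟩
      obtain rfl := h'.resolve_right (not_not.2 hr)
      rintro ⟨o, a, t, k, par, h⟩
      cases h
    | true =>
      have hq' : IsQ (T.mk t0 k0 par0 true o a) o a := ⟨_, _, _, rfl⟩
      obtain ⟨g1, g2, g3, -⟩ := hq'.facts hg
      have hmem := hs rfl
      have hR : Root a ⊆ K (k + 1) par := fun r hr => K_trans hmem (up_trans g3 (hr 0))
      have hfin : (⋃ r ∈ insert z (K (k + 1) par) \ Root a, {n | r ∈ up (a n)}).Finite :=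
        (((K_fin _ _).insert z).subset diff_subset).biUnion fun r hr => g1.1 r hr.2
      obtain ⟨n, hn⟩ := hfin.exists_notMem
      simp only [mem_iUnion, not_exists, mem_setOf_eq] at hn
      have hn' : ∀ r ∈ up (a n), r ∈ insert z (K (k + 1) par) → r ∈ Root a := fun r h1 h2 => by
        by_contra h3; exact hn r ⟨h2, h3⟩ h1
      have e1 : Ext k par (k + 1) (update par (k + 1) (a n)) :=
        ⟨by omega, fun i hi => update_of_ne (by omega) _ _⟩
      have hd : Hd (update par (k + 1) (a n)) (k + 1) (T.mk t0 k0 par0 true o a) :=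
        ⟨o, a, n, hq', (e1.K le_rfl).symm ▸ hmem, update_self _ _ _, by
          rw [e1.K le_rfl]; exact fun r hr => hn' r hr.1 (Or.inr hr.2)⟩
      have kk : K (k + 1 + 1) (update par (k + 1) (a n)) = K (k + 1) par ∪ up (a n) := by
        rw [K_succ, e1.K le_rfl, update_self]
      have c1 : Cfg z (k + 1) (update par (k + 1) (a n)) := by
        refine ⟨fun i hi => ?_, fun j j1 j2 => ?_, ?_⟩
        · rcases Nat.lt_succ_iff_lt_or_eq.1 (Nat.lt_succ_of_le hi) with h | rfl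
          · rw [e1.2 i (by omega)]; exact hc.1 i (by omega)
          · rw [update_self]; exact g2 n
        · rcases Nat.lt_succ_iff_lt_or_eq.1 (Nat.lt_succ_of_le j2) with h | rfl
          · obtain ⟨q, hq⟩ := hc.2.1 j j1 (by omega)
            exact ⟨q, e1.hd (by omega) hq⟩
          · exact ⟨_, hd⟩
        · rw [kk]
          rintro (h | h)
          · exact hc.2.2 h
          · exact hc.2.2 (hR (hn' z h (Or.inl rfl)))
      obtain ⟨k2, par2, e2, c2, d2⟩ := hand_fin (up_fin (a n)) (iha n (g2 n)) _ _ c1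
        (kk ▸ subset_union_right)
      refine ⟨k2, par2, e1.trans e2, c2, fun r hr h' => ?_⟩
      rcases h' with rfl | h'
      · exact e2.done fun _ => ⟨k + 1, by omega, le_rfl, hd⟩
      · refine d2 r hr ?_
        rw [kk]
        by_cases h : r ∈ up (a n)
        · exact Or.inl h
        · exact Or.inr fun h2 => h2.elim h' h

lemma extend {f z : T} (hf : Good f) (hz : z ∉ up f) :
    ∃ k par, par 0 = f ∧ Cfg z k par ∧ ∀ r ∈ K (k + 1) par, Done k par r := by
  have k0 : K (0 + 1) (fun _ => f) = up f := by ext r; simp [K]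
  obtain ⟨k, par, e, c, d⟩ := hand_fin (up_fin f) (hand_up z f hf) 0 (fun _ => f)
    ⟨fun _ _ => hf, fun j j1 j2 => by omega, k0 ▸ hz⟩ k0.symm.subset
  exact ⟨k, par, e.2 0 le_rfl, c, fun r hr => d r hr (k0 ▸ em _)⟩

end Pool.Agent.H8.PB
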