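import Mathlib
import Pool.Agent.H8.PB1

set_option autoImplicit false
open Set Function

namespace Pool.Agent.H8.PB

lemma sun {α β : Type} (A : α → Set β) (hA : ∀ x, (A x).Finite) (s : ℕ) (O : Set α)
    (hO : O.Infinite) (hs : ∀ x ∈ O, (A x).ncard ≤ s) :
    ∃ O' ⊆ O, O'.Infinite ∧ ∃ Δ : Set β, Δ.Finite ∧ (∀ x ∈ O', Δ ⊆ A x) ∧
      ∀ r ∉ Δ, {x ∈ O' | r ∈ A x}.Finite := by
  classical
  let P : ℕ → Prop := fun n => ∃ Δ : Set β, Δ.Finite ∧ Δ.ncard = n ∧ {x ∈ O | Δ ⊆ A x}.Infinite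
  have hb : ∀ n, P n → n ≤ s := by
    rintro _ ⟨Δ, -, rfl, h⟩
    obtain ⟨x, h1, h2⟩ := h.nonempty
    exact (ncard_le_ncard h2 (hA x)).trans (hs x h1)
  have h0 : P 0 := ⟨∅, finite_empty, by simp, by simpa using hO⟩
  obtain ⟨Δ, d1, d2, d3⟩ : P (Nat.findGreatest P s) := Nat.findGreatest_spec (Nat.zero_le s) h0
  refine ⟨_, sep_subset _ _, d3, Δ, d1, fun x hx => hx.2, fun r hr => ?_⟩
  by_contra hc
  have h1 : P (Nat.findGreatest P s + 1) := ⟨insert r Δ, d1.insert r, by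
    rw [ncard_insert_of_notMem hr d1, d2], Infinite.mono (fun x hx => by
      exact ⟨hx.1.1, insert_subset hx.2 hx.1.2⟩) hc⟩
  exact Nat.findGreatest_is_greatest (lt_add_one _) (hb _ h1) h1

lemma get_adm (D : Set T) (hD : ¬ D.Countable) (a : T → T) (ha : ∀ o ∈ D, ∃ m, Ch o m (a o)) :
    ∃ o : ℕ → T, (∀ n, o n ∈ D) ∧ Adm o (fun n => a (o n)) := by
  let A : T → Set (T × Set ℕ) := fun x => (fun r => (r, M (up (a x)) r)) '' up (a x)
  have hA : ∀ x, (A x).Finite := fun x => (up_fin _).image _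
  obtain ⟨s, hs⟩ : ∃ s : ℕ, {x ∈ D | (A x).ncard ≤ s ∧ ht (a x) ≤ s}.Infinite := by
    by_contra hc
    simp only [not_exists, not_infinite] at hc
    exact hD ((countable_iUnion fun s => (hc s).countable).mono fun x hx =>
      mem_iUnion.2 ⟨max (A x).ncard (ht (a x)), by
        exact ⟨hx, le_max_left _ _, le_max_right _ _⟩⟩)
  obtain ⟨O, h1, h2, Δ, d1, d2, d3⟩ := sun A hA s _ hs (fun x hx => hx.2.1)
  have h3 : (O \ Prod.fst '' Δ).Infinite := h2.diff (d1.image _)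
  let o : ℕ → T := fun n => h3.natEmbedding _ n
  have ho : ∀ n, o n ∈ O \ Prod.fst '' Δ := fun n => (h3.natEmbedding _ n).2
  have hinj : Injective o := fun n m h => (h3.natEmbedding _).injective (Subtype.ext h)
  have f1 : ∀ r ∉ Prod.fst '' Δ, {n | r ∈ up (a (o n))}.Finite := fun r hr => by
    have : (⋃ S ∈ 𝒫 (Iic s), {x ∈ O | (r, S) ∈ A x}).Finite :=
      (finite_Iic s).powerset.biUnion fun S _ => d3 _ fun h => hr ⟨_, h, rfl⟩
    refine (this.preimage hinj.injOn).subset fun n hn => ?_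
    refine mem_biUnion (x := M (up (a (o n))) r) ?_ ⟨(ho n).1, r, hn, rfl⟩
    rintro m ⟨r', e1, e2⟩
    exact (e2.up.2.trans (ht_le e1)).trans (h1 (ho n).1).2.2
  have f2 : Root (fun n => a (o n)) = Prod.fst '' Δ := by
    ext r
    constructor
    · intro h
      by_contra hc
      exact infinite_univ ((f1 r hc).subset fun n _ => h n)
    · rintro ⟨⟨r, S⟩, h, rfl⟩ n
      obtain ⟨r', e1, e2⟩ := d2 _ (ho n).1 h
      obtain rfl : r' = r := (Prod.mk.inj e2).1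
      exact e1
  refine ⟨o, fun n => (h1 (ho n).1).1, fun r hr => f1 r (f2 ▸ hr), fun n => f2 ▸ (ho n).2,
    fun n => ha _ (h1 (ho n).1).1, fun r hr n => ?_⟩
  rw [f2] at hr
  obtain ⟨⟨r, S⟩, h, rfl⟩ := hr
  have k : ∀ n, M (up (a (o n))) r = S := fun n => by
    obtain ⟨r', -, e2⟩ := d2 _ (ho n).1 h
    obtain rfl : r' = r := (Prod.mk.inj e2).1
    exact (Prod.mk.inj e2).2
  exact (k n).trans (k 0).symm

def tag : T → ℝ
  | .leaf => 0
  | .mk t _ _ _ _ _ => t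

lemma build {f z : T} (hf : Good f) (hz : z ∉ up f) (t : ℝ) (ht' : t ≠ tag z) (q : Bool)
    (o a : ℕ → T) (h : q = true → Adm o a ∧ f = a 0 ∧ ∀ n, Good (a n)) :
    ∃ k par, Good (.mk t k par q o a) ∧ f ∈ K (k + 1) par ∧ z ∉ up (.mk t k par q o a) := by
  obtain ⟨k, par, e, c, d⟩ := extend hf hz
  refine ⟨k, par, ⟨c.1, e ▸ h, c.2.1, d⟩, ⟨0, by omega, e ▸ self_up _⟩, fun h => ?_⟩
  rcases mem_up_mk.1 h with rfl | h
  · exact ht' rfl
  · exact c.2.2 h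

def Pt (e : ℕ → T) : Prop := ∀ m, Good (e m) ∧ Step (e 0) (e m) (e (m + 1))

theorem main (S : Set T) (hS : ∀ f ∈ S, Good f) (hne : S.Nonempty) (t0 : ℝ)
    (hext : ∀ f ∈ S, ∀ t ≠ t0, ∀ q o a, (q = true → Adm o a ∧ f = a 0 ∧ ∀ n, Good (a n)) →
      ∃ k par, .mk t k par q o a ∈ S ∧ f ∈ K (k + 1) par)
    (D : Set T) (hD : D ⊆ S) (hd : ∀ f ∈ S, ∃ d ∈ D, f ∈ up d) :
    ∃ e, Pt e ∧ ∀ m, e m ∈ D := by
  have hunc : ¬ D.Countable := by
    intro hc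
    obtain ⟨f, hf⟩ := hne
    have h1 : (tag '' ⋃ d ∈ D, up d).Countable :=
      (hc.biUnion fun d _ => (up_fin d).countable).image _
    refine not_countable_univ ((h1.insert t0).mono fun t _ => ?_)
    by_cases h : t = t0
    · exact Or.inl h
    · obtain ⟨k, par, h2, -⟩ := hext f hf t h false (fun _ => .leaf) (fun _ => .leaf) (by simp)
      obtain ⟨d, h3, h4⟩ := hd _ h2
      exact Or.inr ⟨_, mem_biUnion h3 h4, rfl⟩
  by_contra hcon
  have key : ∀ o ∈ D, ∃ a ∈ D, (∃ m, Ch o m a) ∧ ∀ p ∈ D, ¬ Step o a p := by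
    intro o ho
    by_contra hc
    push Not at hc
    choose! nx h1 h2 using hc
    have h3 : ∀ m, nx^[m] o ∈ D ∧ Ch o m (nx^[m] o) := by
      intro m
      induction m with
      | zero => exact ⟨ho, .zero⟩
      | succ m ih =>
        rw [iterate_succ_apply']
        exact ⟨h1 _ ih.1 ⟨m, ih.2⟩, ih.2.succ (h2 _ ih.1 ⟨m, ih.2⟩)⟩
    refine hcon ⟨fun m => nx^[m] o, fun m => ⟨hS _ (hD (h3 m).1), ?_⟩, fun m => (h3 m).1⟩
    simp only [iterate_succ_apply']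
    exact h2 _ (h3 m).1 ⟨m, (h3 m).2⟩
  choose! a a1 a2 a3 using key
  obtain ⟨o, ho, had⟩ := get_adm D hunc a a2
  obtain ⟨k, par, q1, -⟩ := hext _ (hD (a1 _ (ho 0))) (t0 + 1) (by simp) true o (fun n => a (o n))
    (fun _ => ⟨had, rfl, fun n => hS _ (hD (a1 _ (ho n)))⟩)
  obtain ⟨k', par', p1, p2⟩ := hext _ q1 (t0 + 1) (by simp) false (fun _ => .leaf) (fun _ => .leaf)
    (by simp)
  obtain ⟨d, d1, d2⟩ := hd _ p1
  obtain ⟨n, hn⟩ := req (hS d (hD d1)) ⟨_, _, _, rfl⟩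
    (up_trans d2 (mem_up_mk.2 (Or.inr p2))) (fun h => by
      have h1 := ht_K (t := t0 + 1) (q := false) (o := fun _ => .leaf) (a := fun _ => .leaf) p2
      have h2 := ht_le d2
      rw [← h] at h2
      omega)
  exact a3 _ (ho n) d d1 hn

lemma avoid {p z : T} (hp : Good p) (hz : z ∉ up p) :
    ∃ e, Pt e ∧ ∀ m, p ∈ up (e m) ∧ z ∉ up (e m) := by
  obtain ⟨e, h1, h2⟩ := main {f | Good f ∧ p ∈ up f ∧ z ∉ up f} (fun f h => h.1)
    ⟨p, hp, self_up p, hz⟩ (tag z) (fun f hf t h q o a h' => by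
      obtain ⟨k, par, c1, c2, c3⟩ := build hf.1 hf.2.2 t h q o a h'
      exact ⟨k, par, ⟨c1, mem_up_mk.2 (Or.inr (K_trans c2 hf.2.1)), c3⟩, c2⟩) _ subset_rfl
    (fun f hf => ⟨f, hf, self_up f⟩)
  exact ⟨e, h1, fun m => (h2 m).2⟩

lemma exists_out (f : T) : ∃ z, z ∉ up f ∧ tag z = 0 :=
  ⟨.mk 0 0 (fun _ => f) false (fun _ => f) (fun _ => f), fun h => absurd (ht_le h)
    (not_le.2 (ht_par (par := fun _ => f) (i := 0) (by omega))), rfl⟩

lemma dense_pt (D : Set T) (hD : ∀ f ∈ D, Good f) (hd : ∀ f, Good f → ∃ d ∈ D, f ∈ up d) :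
    ∃ e, Pt e ∧ ∀ m, e m ∈ D :=
  main {f | Good f} (fun _ h => h) ⟨.leaf, trivial⟩ 0 (fun f hf t h q o a h' => by
    obtain ⟨z, z1, z2⟩ := exists_out f
    obtain ⟨k, par, c1, c2, -⟩ := build hf z1 t (z2 ▸ h) q o a h'
    exact ⟨k, par, c1, c2⟩) D hD hd

lemma Pt.ch {e : ℕ → T} (h : Pt e) (m : ℕ) : Ch (e 0) m (e m) := by
  induction m with
  | zero => exact .zero
  | succ m ih => exact ih.succ (h m).2

lemma Pt.mono {e : ℕ → T} (h : Pt e) {m n : ℕ} (hmn : m ≤ n) : e m ∈ up (e n) := by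
  induction hmn with
  | refl => exact self_up _
  | step _ ih => exact up_trans (h _).2.lt.1 ih

lemma Pt.conv {e : ℕ → T} (h : Pt e) (m : ℕ) : ∀ r ∈ up (e m), e 0 ∈ up r → ∃ l, r = e l := by
  induction m with
  | zero =>
    intro r h1 h2
    rcases ht_up h1 with rfl | h
    · exact ⟨0, rfl⟩
    · exact absurd (ht_le h2) (by omega)
  | succ m ih =>
    intro r h1 h2
    rcases (h m).2.conv h1 h2 with rfl | h'
    · exact ⟨_, rfl⟩
    · exact ih r h' h2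

lemma Ch.lin {o p : T} {n : ℕ} (h : Ch o n p) : ∀ r ∈ PB.up p, o ∈ PB.up r →
    ∀ r' ∈ PB.up p, o ∈ PB.up r' → r ∈ PB.up r' ∨ r' ∈ PB.up r := by
  induction h with
  | zero =>
    intro r h1 h2 r' _ h4
    exact Or.inl (up_trans h4 h1)
  | succ hc hs ih =>
    intro r h1 h2 r' h3 h4
    rcases hs.conv h1 h2 with rfl | h
    · exact Or.inr h3
    rcases hs.conv h3 h4 with rfl | h'
    · exact Or.inl h1
    exact ih r h h2 r' h' h4

def Fl (e : ℕ → T) : Set T := {r | ∃ m, r ∈ up (e m)}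

lemma anti {e e' : ℕ → T} (h : Pt e) (h' : Pt e') (hs : Fl e ⊆ Fl e') : Fl e' ⊆ Fl e := by
  have k1 : ∀ k, ∃ m, e k ∈ up (e' m) := fun k => hs ⟨k, self_up _⟩
  have k2 : ∀ m, e 0 ∈ up (e' m) → ∃ n, Ch (e 0) n (e' m) := fun m hm => by
    by_contra hc
    push Not at hc
    obtain ⟨m', hm'⟩ := k1 (ht (e' m) + 1)
    have h1 := invar (h' (max m m')).1 _ (h'.mono (le_max_left _ _)) _ hm hc
    have h2 : ht (e' m) + 1 ∈ M (up (e' (max m m'))) (e 0) :=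
      ⟨_, up_trans (h'.mono (le_max_right _ _)) hm', h.ch _⟩
    rw [h1] at h2
    obtain ⟨r, r1, r2⟩ := h2
    have := r2.up.2.trans (ht_le r1)
    omega
  rintro r ⟨m, hm⟩
  obtain ⟨m0, h0⟩ := k1 0
  have a1 : e 0 ∈ up (e' (max m m0)) := up_trans (h'.mono (le_max_right _ _)) h0
  obtain ⟨m', hm'⟩ := k1 (ht (e' (max m m0)) + 1)
  have a2 := h'.mono (le_max_left (max m m0) m')
  obtain ⟨n, hn⟩ := k2 _ (up_trans a2 a1)
  rcases hn.lin _ a2 a1 _ (up_trans (h'.mono (le_max_right _ _)) hm') (h.mono (Nat.zero_le _)) with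
    h3 | h3
  · exact ⟨_, up_trans h3 (up_trans (h'.mono (le_max_left _ _)) hm)⟩
  · have := (h.ch _).up.2.trans (ht_le h3)
    omega

def X : Type := {F : Set T // ∃ e, Pt e ∧ F = Fl e}
def U (p : T) : Set X := {F | p ∈ F.1}
def Base : Set (Set X) := {W | ∃ p, Good p ∧ W = U p}

instance : TopologicalSpace X := TopologicalSpace.generateFrom Base

lemma U_sub {p q : T} (h : q ∈ up p) : U p ⊆ U q := by
  rintro ⟨_, e, he, rfl⟩ ⟨m, hm⟩
  exact ⟨m, up_trans hm h⟩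

lemma basis : TopologicalSpace.IsTopologicalBasis Base := by
  refine ⟨?_, sUnion_eq_univ_iff.2 ?_, rfl⟩
  · rintro _ ⟨p, -, rfl⟩ _ ⟨q, -, rfl⟩ ⟨_, e, he, rfl⟩ ⟨⟨m, hm⟩, ⟨n, hn⟩⟩
    exact ⟨U (e (max m n)), ⟨_, (he _).1, rfl⟩, ⟨_, self_up _⟩, subset_inter
      (U_sub (up_trans (he.mono (le_max_left _ _)) hm))
      (U_sub (up_trans (he.mono (le_max_right _ _)) hn))⟩
  · rintro ⟨_, e, he, rfl⟩
    exact ⟨U (e 0), ⟨_, (he _).1, rfl⟩, ⟨_, self_up _⟩⟩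

lemma faithful {p q : T} (hp : Good p) (h : U p ⊆ U q) : q ∈ up p := by
  by_contra hq
  obtain ⟨e, h1, h2⟩ := avoid hp hq
  obtain ⟨m, hm⟩ := h (show (⟨Fl e, e, h1, rfl⟩ : X) ∈ U p from ⟨0, (h2 0).1⟩)
  exact (h2 m).2 hm

lemma U_ne {p : T} (hp : Good p) : (U p).Nonempty := by
  obtain ⟨z, hz, -⟩ := exists_out p
  obtain ⟨e, h1, h2⟩ := avoid hp hz
  exact ⟨⟨Fl e, e, h1, rfl⟩, 0, (h2 0).1⟩

instance : T1Space X := t1Space_iff_exists_open.2 (by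
  rintro ⟨_, e, he, rfl⟩ ⟨_, e', he', rfl⟩ hne
  have : ¬ Fl e ⊆ Fl e' := fun h => hne (Subtype.ext (h.antisymm (anti he he' h)))
  obtain ⟨r, ⟨m, hm⟩, h2⟩ := not_subset.1 this
  exact ⟨U r, basis.isOpen ⟨r, (he m).1.up r hm, rfl⟩, ⟨m, hm⟩, h2⟩)

lemma no_isol (x : X) : ¬ IsOpen ({x} : Set X) := by
  intro h
  obtain ⟨_, ⟨p, hp, rfl⟩, hx, hs⟩ := basis.exists_subset_of_mem_open (mem_singleton x) h
  obtain ⟨_, e, he, rfl⟩ := x
  have h1 : U p ⊆ U (e (ht p + 1)) := fun y hy => by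
    rw [hs hy]; exact ⟨_, self_up _⟩
  have := (he.ch _).up.2.trans (ht_le (faithful hp h1))
  omega

theorem final (B0 B1 : Set (Set X)) (h0 : B0 ⊆ Base) (h1 : B1 ⊆ Base) (hd : Disjoint B0 B1)
    (hb : TopologicalSpace.IsTopologicalBasis B0)
    (hp : ∀ W : Set X, IsOpen W → W.Nonempty → ∃ V ∈ B1, V ⊆ W) : False := by
  obtain ⟨e, he, hD⟩ := dense_pt {p | Good p ∧ U p ∈ B1} (fun _ h => h.1) (fun f hf => by
    obtain ⟨V, hV, hs⟩ := hp (U f) (basis.isOpen ⟨f, hf, rfl⟩) (U_ne hf)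
    obtain ⟨d, h2, rfl⟩ := h1 hV
    exact ⟨d, ⟨h2, hV⟩, faithful h2 hs⟩)
  obtain ⟨V, hV, hx, hs⟩ := hb.exists_subset_of_mem_open (a := ⟨Fl e, e, he, rfl⟩) (u := U (e 0))
    ⟨0, self_up _⟩ (basis.isOpen ⟨_, (he 0).1, rfl⟩)
  obtain ⟨r, h2, rfl⟩ := h0 hV
  obtain ⟨m, hm⟩ := hx
  obtain ⟨l, rfl⟩ := he.conv m r hm (faithful h2 hs)
  exact Set.disjoint_left.1 hd hV (hD l).2

end Pool.Agent.H8.PB
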