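import Mathlib
import Pool.Agent.H8.FExt

set_option autoImplicit false

namespace Pool.Agent.H8.Tuk

open Set Filter Topology Function Pool.Agent.H8.SG Pool.Agent.H8.FExt
open scoped Cardinal

def PP (V : Ultrafilter ℕ) : Prop :=
  ∀ A : ℕ → Set ℕ, (∀ n, A n ∈ V) → ∃ B ∈ V, ∀ n, (B \ A n).Finite

lemma card_set : #(Set ℕ) ≤ 𝔠 := by simp

lemma genP (h : Cardinal.continuum.{0} = Cardinal.aleph 1) {J : Type} [Nonempty J] (hJ : #J ≤ 𝔠)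
    (D : J → Set ℕ → Prop) (hD : ∀ j (S : Set ℕ), S.Infinite → ∃ S' ⊆ S, S'.Infinite ∧ D j S') :
    ∃ V : Ultrafilter ℕ, ↑V ≤ (atTop : Filter ℕ) ∧ PP V ∧ ∀ j, ∃ S ∈ V, D j S := by
  obtain ⟨V, h1, h2⟩ := gen h (card_prod hJ (card_seq _ card_set)) (fun j S =>
    (∃ S', S ⊆ S' ∧ D j.1 S') ∧ ((∀ n, (S \ j.2 n).Finite) ∨ ∃ n, Disjoint S (j.2 n)))
    (fun j S hS => by
      obtain ⟨S', h3, h4, h5⟩ := hD j.1 S hS
      by_cases h6 : ∀ n, (S' \ j.2 n).Finite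
      · exact ⟨S', h3, h4, ⟨S', Subset.rfl, h5⟩, Or.inl h6⟩
      · obtain ⟨n, hn⟩ := not_forall.1 h6
        exact ⟨S' \ j.2 n, diff_subset.trans h3, hn, ⟨S', diff_subset, h5⟩,
          Or.inr ⟨n, disjoint_sdiff_left⟩⟩)
  refine ⟨V, h1, fun A hA => ?_, fun j => ?_⟩
  · obtain ⟨S, hS, -, h3 | ⟨n, h3⟩⟩ := h2 (Classical.arbitrary J, A)
    · exact ⟨S, hS, h3⟩
    · exact absurd h3 (Filter.NeBot.not_disjoint V.neBot hS (hA n))
  · obtain ⟨S, hS, ⟨S', h3, h4⟩, -⟩ := h2 (j, fun _ => univ)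
    exact ⟨S', mem_of_superset hS h3, h4⟩

lemma evod (p : Ultrafilter ℕ) (D : ℕ → Set ℕ) (h4 : ∀ k l, k ≠ l → Disjoint (D k) (D l)) :
    ∃ i, (⋃ k, D (2 * k + i)) ∉ p := by
  by_cases h0 : (⋃ k, D (2 * k + 0)) ∈ p
  · refine ⟨1, fun h5 => ?_⟩
    obtain ⟨x, hx, hy⟩ := Ultrafilter.nonempty_of_mem (inter_mem h0 h5)
    obtain ⟨k, hk⟩ := mem_iUnion.1 hx
    obtain ⟨l, hl⟩ := mem_iUnion.1 hy
    exact Set.disjoint_left.1 (h4 _ _ (by omega)) hk hl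
  · exact ⟨0, h0⟩

lemma bg {V : Ultrafilter ℕ} (hV : PP V) (A : ℕ → Set ℕ) (hA : ∀ k, A k ∈ V) {a : Set ℕ}
    (ha : a ∈ V) (h : ∀ k, ∀ x ∈ a, x < k → x ∈ A k) : ∃ b ∈ V, ∃ᶠ k in atTop, b ⊆ A k := by
  obtain ⟨c, hc, h1⟩ := hV A hA
  have : ∀ k, ∃ N, k < N ∧ ∀ x ∈ c, N ≤ x → x ∈ A k := fun k => by
    obtain ⟨N, hN⟩ := (h1 k).bddAbove
    exact ⟨N + k + 1, by omega, fun x hx h2 => by_contra fun h3 => by
      have := hN ⟨hx, h3⟩; omega⟩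
  choose N hN hN' using this
  let k : ℕ → ℕ := fun j => N^[j] 0
  have hk : ∀ j, k (j + 1) = N (k j) := fun j => iterate_succ_apply' _ _ _
  have hm : StrictMono k := strictMono_nat_of_lt_succ fun j => by rw [hk]; exact hN _
  have hd : ∀ i j, i < j → Disjoint (Ico (k i) (k (i + 1))) (Ico (k j) (k (j + 1))) :=
    fun i j hij => Set.disjoint_left.2 fun x hx hy => by
      have := hm.monotone (Nat.succ_le_of_lt hij)
      exact absurd (hx.2.trans_le (this.trans hy.1)) (lt_irrefl _)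
  obtain ⟨i, hi⟩ := evod V (fun j => Ico (k j) (k (j + 1))) fun i j hij => by
    rcases lt_or_gt_of_ne hij with h | h
    exacts [hd i j h, (hd j i h).symm]
  refine ⟨_, inter_mem (inter_mem ha hc) (Ultrafilter.compl_mem_iff_notMem.2 hi),
    frequently_atTop.2 fun j => ⟨k (2 * j + i), le_trans (show j ≤ 2 * j + i by omega) (hm.id_le _), ?_⟩⟩
  rintro x ⟨⟨h2, h3⟩, h4⟩
  by_cases h5 : x < k (2 * j + i)
  · exact h _ x h2 h5
  · refine hN' _ x h3 (by_contra fun h6 => h4 (mem_iUnion.2 ⟨j, not_lt.1 h5, ?_⟩))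
    rw [hk]; exact not_le.1 h6

lemma split {S : Set ℕ} (hS : S.Infinite) :
    ∃ S₀ ⊆ S, ∃ S₁ ⊆ S, S₀.Infinite ∧ S₁.Infinite ∧ Disjoint S₀ S₁ := by
  let e := hS.natEmbedding
  have hi : Injective fun n => (e n).1 := Subtype.val_injective.comp e.injective
  refine ⟨range fun n => (e (2 * n)).1, by rintro _ ⟨n, rfl⟩; exact (e _).2,
    range fun n => (e (2 * n + 1)).1, by rintro _ ⟨n, rfl⟩; exact (e _).2,
    infinite_range_of_injective fun a b h => by have := hi h; omega,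
    infinite_range_of_injective fun a b h => by have := hi h; omega,
    Set.disjoint_left.2 ?_⟩
  rintro _ ⟨n, rfl⟩ ⟨m, hm⟩
  have := hi hm; omega

/-- two p-points, the second not countably Tukey below the first -/
lemma two (h : Cardinal.continuum.{0} = Cardinal.aleph 1) : ∃ V W : Ultrafilter ℕ,
    ↑V ≤ (atTop : Filter ℕ) ∧ ↑W ≤ (atTop : Filter ℕ) ∧ PP W ∧ ∀ a : Set ℕ → Set ℕ,
      (∀ Y ∈ W, a Y ∈ V) → ∃ Y : ℕ → Set ℕ, ∃ b ∈ V, (∀ k, Y k ∈ W) ∧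
        {x | ∀ k, b ⊆ a (Y k) → x ∈ Y k} ∉ W := by
  classical
  obtain ⟨V, hV, hVP, -⟩ := genP h (card_ct Unit) (fun _ _ => True)
    fun _ S hS => ⟨S, Subset.rfl, hS, trivial⟩
  let M : (ℕ → Set ℕ × Set ℕ) → Set ℕ → Prop := fun D Y =>
    ∃ b ∈ V, {x | ∀ k, b ⊆ (D k).2 → x ∈ (D k).1} ⊆ Y
  obtain ⟨W, hW, hWP, hD⟩ := genP h (card_seq _ (card_prod card_set card_set))
    (fun D S => M D S → ∃ T, M D T ∧ Disjoint S T) fun D S hS => by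
      obtain ⟨S₀, h0, S₁, h1, h2, h3, h4⟩ := split hS
      by_cases h5 : M D S₁
      · exact ⟨S₀, h0, h2, fun _ => ⟨S₁, h5, h4⟩⟩
      · exact ⟨S₁, h1, h3, fun h6 => absurd h6 h5⟩
  refine ⟨V, W, hV, hW, hWP, fun a ha => by_contra fun hc => ?_⟩
  push Not at hc
  have : ∀ i : ℕ × Finset ℕ × Finset ℕ, ∃ Y' ∈ W, ∀ Y ∈ W,
      i.2.1 = (Finset.range i.1).filter (· ∈ Y) → i.2.2 = (Finset.range i.1).filter (· ∈ a Y) →
      (∀ x ∈ Y', x < i.1 → x ∈ Y) ∧ ∀ x ∈ a Y, x < i.1 → x ∈ a Y' := by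
    intro i
    by_cases h1 : ∃ Y ∈ W, i.2.1 = (Finset.range i.1).filter (· ∈ Y) ∧
      i.2.2 = (Finset.range i.1).filter (· ∈ a Y)
    · obtain ⟨Y', h2, h3, h4⟩ := h1
      refine ⟨Y', h2, fun Y _ h5 h6 => ⟨fun x hx hi => ?_, fun x hx hi => ?_⟩⟩
      · have : x ∈ i.2.1 := by rw [h3]; simp [hx, hi]
        rw [h5] at this; exact (Finset.mem_filter.1 this).2
      · have : x ∈ i.2.2 := by rw [h6]; simp [hx, hi]
        rw [h4] at this; exact (Finset.mem_filter.1 this).2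
    · exact ⟨univ, univ_mem, fun Y h2 h3 h4 => absurd ⟨Y, h2, h3, h4⟩ h1⟩
  choose Z hZ hZ' using this
  obtain ⟨e, he⟩ := exists_surjective_nat (ℕ × Finset ℕ × Finset ℕ)
  obtain ⟨S, hS, h1⟩ := hD fun k => (Z (e k), a (Z (e k)))
  refine (h1 ?_).elim fun T ⟨⟨b, hb, h2⟩, h3⟩ => Filter.NeBot.not_disjoint W.neBot hS
    (mem_of_superset (hc (fun k => Z (e k)) b hb fun k => hZ _) h2) h3
  let i : ℕ → ℕ × Finset ℕ × Finset ℕ := fun k =>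
    (k, (Finset.range k).filter (· ∈ S), (Finset.range k).filter (· ∈ a S))
  obtain ⟨b, hb, h2⟩ := bg hVP (fun k => a (Z (i k))) (fun k => ha _ (hZ _)) (ha S hS)
    fun k => (hZ' (i k) S hS rfl rfl).2
  refine ⟨b, hb, fun x hx => ?_⟩
  obtain ⟨k, hk, h3⟩ := frequently_atTop.1 h2 (x + 1)
  obtain ⟨l, hl⟩ := he (i k)
  refine (hZ' (i k) S hS rfl rfl).1 x ?_ hk
  have := hx l
  simp only [hl] at this
  exact this h3

theorem main (h : Cardinal.continuum.{0} = Cardinal.aleph 1) : ∃ U : Ultrafilter ℕ,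
    ↑U ≤ (cofinite : Filter ℕ) ∧ ¬ PP U ∧ ∀ f : Set ℕ → Set ℕ, (∀ A ∈ U, f A ∈ U) →
      ∃ 𝒜 : Set (Set ℕ), (∀ A ∈ 𝒜, A ∈ U) ∧ (¬ ∃ B ∈ U, ∀ A ∈ 𝒜, B ⊆ A) ∧
        ∃ B ∈ U, ∀ A ∈ 𝒜, (B \ f A).Finite := by
  classical
  obtain ⟨V, W, hV, hW, hP, h1⟩ := two h
  have hi : ∀ n, Injective (Nat.pair n) := fun n a b h => (Nat.pair_eq_pair.1 h).2
  have hW' : ∀ s ∈ W, s.Infinite := fun s hs hf =>
    Ultrafilter.compl_notMem_iff.2 hs (hW (by rw [← Nat.cofinite_eq_atTop]; exact hf.compl_mem_cofinite))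
  let U := V.bind fun n => W.map (Nat.pair n)
  have hU : ∀ s, s ∈ U ↔ ∀ᶠ n in V, Nat.pair n ⁻¹' s ∈ W := fun s => Iff.rfl
  refine ⟨U, fun s hs => (hU s).2 (Eventually.of_forall fun n => hW ?_), fun hp => ?_,
    fun f hf => ?_⟩
  · rw [← Nat.cofinite_eq_atTop]; exact (hi n).tendsto_cofinite hs
  · obtain ⟨B, hB, h2⟩ := hp (fun k => {z | k ≤ z.unpair.1}) fun k => (hU _).2 (by
      filter_upwards [hV (eventually_ge_atTop k)] with n hn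
      exact univ_mem' fun m => by simpa using hn)
    obtain ⟨n, hn⟩ := ((hU B).1 hB).exists
    refine hW' _ hn (((h2 (n + 1)).preimage (hi n).injOn).subset fun m hm => ⟨hm, by simp⟩)
  let c : Set ℕ → Set ℕ := fun Y => {z | z.unpair.2 ∈ Y}
  have hc : ∀ Y ∈ W, c Y ∈ U := fun Y hY => (hU _).2 (Eventually.of_forall fun n =>
    mem_of_superset hY fun m hm => by simpa [c] using hm)
  obtain ⟨Y, b, hb, hY, h2⟩ := h1 (fun Y => {n | Nat.pair n ⁻¹' f (c Y) ∈ W})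
    fun Y hY => (hU _).1 (hf _ (hc Y hY))
  let G : ℕ → ℕ → Set ℕ := fun n k =>
    if Nat.pair n ⁻¹' f (c (Y k)) ∈ W then Nat.pair n ⁻¹' f (c (Y k)) else univ
  have hG : ∀ n k, G n k ∈ W := fun n k => by
    simp only [G]; split_ifs with h3
    exacts [h3, univ_mem]
  choose C hC hC' using fun n => hP (G n) (hG n)
  refine ⟨{A | ∃ k, b ⊆ {n | Nat.pair n ⁻¹' f (c (Y k)) ∈ W} ∧ c (Y k) = A}, ?_, ?_,
    {z | z.unpair.1 ∈ b ∧ z.unpair.2 ∈ C z.unpair.1 ∩ ⋂ k ≤ z.unpair.1, G z.unpair.1 k}, ?_, ?_⟩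
  · rintro _ ⟨k, -, rfl⟩
    exact hc _ (hY k)
  · rintro ⟨B, hB, h3⟩
    obtain ⟨n, hn⟩ := ((hU B).1 hB).exists
    exact h2 (mem_of_superset hn fun m hm k hk => by simpa [c] using h3 _ ⟨k, hk, rfl⟩ hm)
  · refine (hU _).2 (mem_of_superset hb fun n hn => ?_)
    refine mem_of_superset (inter_mem (hC n)
      ((biInter_mem (finite_le_nat n)).2 fun k _ => hG n k)) fun m hm => ?_
    simp only [mem_preimage, mem_setOf_eq, Nat.unpair_pair]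
    exact ⟨hn, hm⟩
  · rintro _ ⟨k, hk, rfl⟩
    refine ((finite_lt_nat k).biUnion fun n _ => (hC' n k).image (Nat.pair n)).subset ?_
    rintro z ⟨⟨h3, h4, h5⟩, h6⟩
    have h7 : z.unpair.2 ∉ G z.unpair.1 k := by
      simp only [G]
      rw [if_pos (show Nat.pair z.unpair.1 ⁻¹' f (c (Y k)) ∈ W from hk h3)]
      simpa using h6
    refine mem_iUnion₂.2 ⟨z.unpair.1, not_le.1 fun h8 => h7 (mem_iInter₂.1 h5 k h8),
      z.unpair.2, ⟨h4, h7⟩, Nat.pair_unpair z⟩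

end Pool.Agent.H8.Tuk
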