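import Mathlib
import Pool.Agent.H8.Tuk

set_option autoImplicit false

namespace Pool.Agent.H8.PCut

open Set Filter Topology Function Pool.Agent.H8.SG
open scoped Cardinal

lemma genI (h : Cardinal.continuum.{0} = Cardinal.aleph 1) {J : Type} [Nonempty J] (hJ : #J ≤ 𝔠)
    (P : Set ℕ → Prop) (hu : P univ) (hm : ∀ A B, A ⊆ B → P A → P B) (h0 : ¬ P ∅)
    (hs : ∀ A B, P (A ∪ B) → P A ∨ P B)
    (hσ : ∀ A : ℕ → Set ℕ, (∀ j, P (A j)) → Antitone A →
      ∃ B, P B ∧ ∀ j, ∀ B' ⊆ B, P B' → P (B' ∩ A j))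
    (D : J → Set ℕ → Prop) (hD : ∀ j S, P S → ∃ S' ⊆ S, P S' ∧ D j S') :
    ∃ V : Ultrafilter ℕ, (∀ s ∈ V, P s) ∧ ∀ j, ∃ S ∈ V, D j S := by
  obtain ⟨𝒮, -, h2, h3⟩ := rec_CH h (card_prod hJ Tuk.card_set)
    (fun 𝒮 : Set (Set ℕ) => ∀ t ⊆ 𝒮, t.Finite → P (⋂₀ t))
    (fun j 𝒮 => ∃ S ∈ 𝒮, (∃ S', S ⊆ S' ∧ D j.1 S') ∧ (S ⊆ j.2 ∨ S ⊆ j.2ᶜ)) (S₀ := ∅)
    countable_empty (fun t ht _ => by rwa [subset_empty_iff.1 ht, sInter_empty])
    (fun c hc hch hG t ht htf => by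
      obtain ⟨s, hs, hts⟩ := hch.directedOn.exists_mem_subset_of_finite_of_subset_sUnion hc htf ht
      exact hG s hs t hts htf)
    (fun 𝒮 _ hc hG j => by
      haveI : (generate 𝒮).IsCountablyGenerated := ⟨⟨𝒮, hc, rfl⟩⟩
      obtain ⟨A, hA⟩ := (generate 𝒮).exists_antitone_basis
      obtain ⟨B, hB, hB'⟩ := hσ A (fun j => by
        obtain ⟨t, h1, h2, h3⟩ := mem_generate_iff.1 (hA.mem j)
        exact hm _ _ h3 (hG t h1 h2)) hA.antitone
      obtain ⟨S, h1, h2, h3⟩ := hD j.1 B hB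
      obtain ⟨S', h4, h5, h6⟩ : ∃ S' ⊆ S, P S' ∧ (S' ⊆ j.2 ∨ S' ⊆ j.2ᶜ) := by
        rw [← inter_union_compl S j.2] at h2
        rcases hs _ _ h2 with h | h
        exacts [⟨_, inter_subset_left, h, Or.inl inter_subset_right⟩,
          ⟨_, inter_subset_left, h, Or.inr inter_subset_right⟩]
      refine ⟨insert S' 𝒮, subset_insert _ _, hc.insert _, fun t ht htf => ?_,
        S', mem_insert _ _, ⟨S, h4, h3⟩, h6⟩
      obtain ⟨i, hi⟩ := hA.mem_iff.1 (mem_generate_iff.2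
        ⟨t \ {S'}, fun s hs => (ht hs.1).resolve_left hs.2, htf.diff, Subset.rfl⟩)
      refine hm _ _ (fun x hx s hs => ?_) (hB' i S' (h4.trans h1) h5)
      by_cases h7 : s = S'
      exacts [h7 ▸ hx.1, hi hx.2 s ⟨hs, h7⟩])
  haveI : (generate 𝒮).NeBot := generate_neBot_iff.2 fun t ht htf =>
    nonempty_iff_ne_empty.2 fun h4 => h0 (h4 ▸ h2 t ht htf)
  obtain ⟨V, hV⟩ := Ultrafilter.exists_le (generate 𝒮)
  refine ⟨V, fun s hs => ?_, fun j => ?_⟩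
  · obtain ⟨𝒮', h4, S, h5, -, h6 | h6⟩ := h3 (Classical.arbitrary J, s)
    · exact hm _ _ (by simpa using h6) (h2 {S} (singleton_subset_iff.2 (h4 h5)) (finite_singleton _))
    · exact absurd (mem_of_superset (hV (mem_generate_of_mem (h4 h5))) h6)
        (Ultrafilter.compl_notMem_iff.2 hs)
  · obtain ⟨𝒮', h4, S, h5, ⟨S', h6, h7⟩, -⟩ := h3 (j, univ)
    exact ⟨S', mem_of_superset (hV (mem_generate_of_mem (h4 h5))) h6, h7⟩

def Q : ℕ → Set (List ℕ) → List ℕ → Prop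
  | 0, A, t => t ∈ A
  | k + 1, A, t => ∃ᶠ u in atTop, Q k A (u :: t)

lemma Q.mono {k : ℕ} {A B : Set (List ℕ)} {t : List ℕ} (h1 : Q k A t) (h : ∀ s ∈ A, s ∈ B) :
    Q k B t := by
  induction k generalizing t with
  | zero => exact h _ h1
  | succ k ih => exact Frequently.mono h1 fun u => ih

lemma Q.union {k : ℕ} {A B : Set (List ℕ)} : ∀ {t}, Q k (A ∪ B) t → Q k A t ∨ Q k B t := by
  induction k with
  | zero => exact fun h1 => h1
  | succ k ih => exact fun h1 => frequently_or_distrib.1 (Frequently.mono h1 fun u => ih)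

lemma Q.down {k l : ℕ} {A : Set (List ℕ)} (h : k ≤ l) : (∃ t, Q l A t) → ∃ t, Q k A t := by
  induction h with
  | refl => exact id
  | step _ ih => exact fun ⟨t, ht⟩ => ih ⟨_, (Frequently.exists ht).choose_spec⟩

lemma Q.univ (k : ℕ) : ∀ t, Q k univ t := by
  induction k with
  | zero => exact fun _ => trivial
  | succ k ih => exact fun t => Frequently.of_forall fun u => ih _

lemma Q.cyl {k : ℕ} {A : Set (List ℕ)} : ∀ {t}, Q k A t → Q k (A ∩ {s | s.drop k = t}) t := by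
  induction k with
  | zero => exact fun h1 => ⟨h1, rfl⟩
  | succ k ih =>
    refine fun h1 => Frequently.mono h1 fun u hu => (ih hu).mono fun s hs => ⟨hs.1, ?_⟩
    have : s.drop k = _ := hs.2
    show s.drop (k + 1) = _
    rw [← List.drop_drop, this]; rfl

def e : ℕ ≃ ℕ × List ℕ := (Denumerable.eqv (ℕ × List ℕ)).symm

def col (A : Set ℕ) (n : ℕ) : Set (List ℕ) := {s | e.symm (n, s) ∈ A}

def Pos (A : Set ℕ) : Prop := ∀ k, ∃ᶠ n in atTop, ∃ t, Q k (col A n) t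

def f (k i : ℕ) : ℕ := ((e i).2.drop k).headD 0

lemma Pos.mono {A B : Set ℕ} (h : A ⊆ B) (hA : Pos A) : Pos B :=
  fun k => (hA k).mono fun _ ⟨t, ht⟩ => ⟨t, ht.mono fun _ hs => h hs⟩

lemma Pos.union {A B : Set ℕ} (h : Pos (A ∪ B)) : Pos A ∨ Pos B := by
  by_contra hc
  simp only [Pos, not_or, not_forall, not_frequently] at hc
  obtain ⟨⟨k, hk⟩, l, hl⟩ := hc
  obtain ⟨n, ⟨t, ht⟩, h1, h2⟩ := ((h (max k l)).and_eventually (hk.and hl)).exists
  rcases Q.union (A := col A n) (B := col B n) ht with h3 | h3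
  exacts [h1 (Q.down (le_max_left _ _) ⟨t, h3⟩), h2 (Q.down (le_max_right _ _) ⟨t, h3⟩)]

lemma glue (C : ℕ → Set ℕ) (hC : ∀ j, ∃ᶠ n in atTop, ∃ t, Q j (col (C j) n) t) :
    ∃ n : ℕ → ℕ, StrictMono n ∧ Pos {x | ∃ j, (e x).1 = n j ∧ x ∈ C j} := by
  obtain ⟨n, hn, h1⟩ := extraction_forall_of_frequently hC
  refine ⟨n, hn, fun k => frequently_atTop.2 fun a => ⟨n (max a k),
    (le_max_left _ _).trans (hn.id_le _), Q.down (le_max_right a k) ?_⟩⟩
  obtain ⟨t, ht⟩ := h1 (max a k)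
  exact ⟨t, ht.mono fun s hs => ⟨_, by simp, hs⟩⟩

theorem main (h : Cardinal.continuum.{0} = Cardinal.aleph 1) : ∃ (V : Ultrafilter ℕ) (π : ℕ → ℕ)
    (f : ℕ → ℕ → ℕ), (∀ j, π ⁻¹' {j} ∉ V) ∧ ∀ n : ℕ → ℕ,
      (∃ g : ℕ → ℕ, ∀ᶠ i in V, n i ≤ g (π i)) ↔ ∀ k, ∀ᶠ i in V, n i < f k i := by
  obtain ⟨V, h1, h2⟩ := genI h (card_seq ℕ (card_ct ℕ)) Pos
    (fun k => Frequently.of_forall fun n => ⟨[], Q.univ k _⟩) (fun A B => Pos.mono)
    (fun h => by
      obtain ⟨n, t, ht⟩ := (h 0).exists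
      exact ht)
    (fun A B => Pos.union)
    (fun A hA hm => by
      obtain ⟨n, hn, h1⟩ := glue A fun j => hA j j
      refine ⟨_, h1, fun j B hB hP k => ((hP k).and_eventually (eventually_ge_atTop (n j))).mono
        fun m ⟨⟨t, ht⟩, h2⟩ => ⟨t, ht.mono fun s hs => ⟨hs, ?_⟩⟩⟩
      obtain ⟨i, h3, h4⟩ := hB hs
      simp only [Equiv.apply_symm_apply] at h3
      exact hm (hn.le_iff_le.1 (h3 ▸ h2)) h4)
    (fun n S => (∃ k, ∀ i ∈ S, f k i ≤ n i) ∨ ∃ g : ℕ → ℕ, ∀ i ∈ S, n i ≤ g (e i).1)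
    (fun n S hS => by
      by_cases h1 : ∃ k, Pos (S ∩ {i | f k i ≤ n i})
      · obtain ⟨k, hk⟩ := h1
        exact ⟨_, inter_subset_left, hk, Or.inl ⟨k, fun i hi => hi.2⟩⟩
      have h2 : ∀ k, ∃ᶠ m in atTop, ∃ u t, Q k (col (S ∩ {i | n i < u}) m) t := by
        intro k
        rw [← inter_union_compl S {i | f k i ≤ n i}] at hS
        refine ((hS.union.resolve_left fun h => h1 ⟨k, h⟩) (k + 1)).mono fun m ⟨t, ht⟩ => ?_
        obtain ⟨u, hu⟩ := Frequently.exists ht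
        refine ⟨u, _, hu.cyl.mono fun s hs => ⟨hs.1.1, ?_⟩⟩
        have h3 : s.drop k = _ := hs.2
        have h4 : ¬ f k (e.symm (m, s)) ≤ n (e.symm (m, s)) := hs.1.2
        simp only [f, Equiv.apply_symm_apply, h3, List.headD_cons] at h4
        exact not_le.1 h4
      have h3 : ∀ k m, ∃ u, (∃ u t, Q k (col (S ∩ {i | n i < u}) m) t) →
          ∃ t, Q k (col (S ∩ {i | n i < u}) m) t := fun k m => by
        by_cases h4 : ∃ u t, Q k (col (S ∩ {i | n i < u}) m) t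
        · exact h4.imp fun u hu _ => hu
        · exact ⟨0, fun h5 => absurd h5 h4⟩
      choose u hu using h3
      obtain ⟨m, hm, h4⟩ := glue (fun k => S ∩ {i | n i < u k (e i).1}) fun k =>
        (h2 k).mono fun m h5 => (hu k m h5).imp fun t ht => ht.mono fun s hs =>
          ⟨hs.1, by simpa using hs.2⟩
      refine ⟨_, ?_, h4, Or.inr ⟨fun a => u (invFun m a) a, ?_⟩⟩
      · rintro x ⟨j, -, hx⟩
        exact hx.1
      rintro i ⟨j, h5, -, h6⟩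
      show n i ≤ u (invFun m (e i).1) (e i).1
      rw [h5, leftInverse_invFun hm.injective j, ← h5]
      exact le_of_lt h6)
  have h3 : ∀ (g : ℕ → ℕ) k, ∀ᶠ i in V, g (e i).1 < f k i := fun g k => by
    by_contra hc
    obtain ⟨m, t, ht⟩ := (h1 _ (Ultrafilter.eventually_not.2 hc) (k + 1)).exists
    obtain ⟨u, hu, h4⟩ := frequently_atTop.1 ht (g m + 1)
    have : ∀ {k A t}, Q k A t → A.Nonempty := fun h => Q.down (Nat.zero_le _) ⟨_, h⟩
    obtain ⟨s, h5, h6⟩ := this h4.cyl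
    have h7 : s.drop k = _ := h6
    have h8 : ¬ g (e (e.symm (m, s))).1 < f k (e.symm (m, s)) := h5
    simp only [f, Equiv.apply_symm_apply, h7, List.headD_cons] at h8
    omega
  refine ⟨V, fun i => (e i).1, f, fun j hj => ?_, fun n => ⟨fun ⟨g, hg⟩ k => ?_, fun hn => ?_⟩⟩
  · obtain ⟨m, hm, t, ht⟩ := frequently_atTop.1 (h1 _ hj 0) (j + 1)
    have : (e (e.symm (m, t))).1 = j := ht
    simp only [Equiv.apply_symm_apply] at this
    omega
  · filter_upwards [hg, h3 g k] with i h4 h5 using h4.trans_lt h5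
  · obtain ⟨S, hS, ⟨k, h4⟩ | ⟨g, h4⟩⟩ := h2 n
    · obtain ⟨i, h5, h6⟩ := ((hn k).and hS).exists
      exact absurd (h4 i h6) (not_le.2 h5)
    · exact ⟨g, mem_of_superset hS h4⟩

end Pool.Agent.H8.PCut
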