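import Mathlib

set_option autoImplicit false

open MeasureTheory Set Cardinal

namespace Pool.Agent.H8.Rect

/-- every subset of the product lies in the sigma-algebra generated by all rectangles -/
def Rect (X Y : Type) : Prop :=
  ∀ R : Set (X × Y), MeasurableSet[(⊤ : MeasurableSpace X).prod (⊤ : MeasurableSpace Y)] R

theorem Rect.of_inj {X Y X' Y' : Type} (h : Rect X' Y') (e : X → X') (e' : Y → Y')
    (he : Function.Injective e) (he' : Function.Injective e') : Rect X Y := by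
  intro R
  letI : MeasurableSpace X := ⊤
  letI : MeasurableSpace Y := ⊤
  letI : MeasurableSpace X' := ⊤
  letI : MeasurableSpace Y' := ⊤
  have hm : Measurable (Prod.map e e') :=
    Measurable.prodMap (measurable_from_top) (measurable_from_top)
  have := hm (h (Prod.map e e' '' R))
  rwa [preimage_image_eq _ (he.prodMap he')] at this

theorem rect_iff : Rect ℝ ℝ ↔ ∀ R : Set (ℝ × ℝ),
    MeasurableSet[MeasurableSpace.generateFrom {S | ∃ A B : Set ℝ, S = A ×ˢ B}] R := by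
  have : MeasurableSpace.generateFrom {S : Set (ℝ × ℝ) | ∃ A B : Set ℝ, S = A ×ˢ B} =
      (⊤ : MeasurableSpace ℝ).prod (⊤ : MeasurableSpace ℝ) := by
    refine Eq.trans ?_ (@generateFrom_prod ℝ ℝ ⊤ ⊤)
    congr 1
    ext S
    simp [eq_comm]
  rw [this]; rfl

theorem graph_meas (f g : ℝ → ℝ) :
    MeasurableSet[(⊤ : MeasurableSpace ℝ).prod (⊤ : MeasurableSpace ℝ)] {p | f p.1 = g p.2} := by
  have h1 : @Measurable _ _ ((⊤ : MeasurableSpace ℝ).prod (⊤ : MeasurableSpace ℝ)) (borel ℝ)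
      (fun p => f p.1) := (@measurable_from_top ℝ ℝ (borel ℝ) f).comp (@measurable_fst ℝ ℝ ⊤ ⊤)
  have h2 : @Measurable _ _ ((⊤ : MeasurableSpace ℝ).prod (⊤ : MeasurableSpace ℝ)) (borel ℝ)
      (fun p => g p.2) := (@measurable_from_top ℝ ℝ (borel ℝ) g).comp (@measurable_snd ℝ ℝ ⊤ ⊤)
  exact measurableSet_eq_fun h1 h2

theorem rect_of_CH (h : continuum.{0} = aleph 1) : Rect ℝ ℝ := by
  have hex : ∃ le : ℝ → ℝ → Prop, (∀ x y, le x y ∨ le y x) ∧ ∀ y, {x | le x y}.Countable := by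
    obtain ⟨lo, wf, hα⟩ := @exists_ord_eq_type_lt ℝ
    refine ⟨fun x y => lo.le x y, fun x y => lo.le_total x y, fun y => ?_⟩
    have h1 := @mk_Iio_lt ℝ lo wf y hα
    rw [mk_real, h, ← countable_iff_lt_aleph_one] at h1
    refine (h1.insert y).mono fun x hx => ?_
    rcases @eq_or_lt_of_le ℝ lo.toPartialOrder _ _ hx with h | h
    · exact Or.inl h
    · exact Or.inr h
  obtain ⟨le, htot, hc⟩ := hex
  have hex2 : ∀ y, ∃ e : ℕ → ℝ, {x | le x y} = range e := fun y =>
    (hc y).exists_eq_range ⟨y, (htot y y).elim id id⟩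
  choose e he using hex2
  intro R
  have : R = (⋃ n, {p : ℝ × ℝ | id p.1 = e p.2 n} ∩ Prod.snd ⁻¹' {y | (e y n, y) ∈ R}) ∪
      (⋃ n, {p : ℝ × ℝ | e p.1 n = id p.2} ∩ Prod.fst ⁻¹' {x | (x, e x n) ∈ R}) := by
    ext ⟨x, y⟩
    simp only [mem_union, mem_iUnion, mem_inter_iff, mem_setOf_eq, id, mem_preimage]
    constructor
    · intro hR
      rcases htot x y with h | h
      · obtain ⟨n, hn⟩ : x ∈ range (e y) := he y ▸ h
        exact Or.inl ⟨n, hn.symm, hn.symm ▸ hR⟩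
      · obtain ⟨n, hn⟩ : y ∈ range (e x) := he x ▸ h
        exact Or.inr ⟨n, hn, hn.symm ▸ hR⟩
    · rintro (⟨n, h1, h2⟩ | ⟨n, h1, h2⟩)
      · rwa [← h1] at h2
      · rwa [h1] at h2
  rw [this]
  refine MeasurableSet.union (MeasurableSet.iUnion fun n => ?_) (MeasurableSet.iUnion fun n => ?_)
  · exact (graph_meas id fun y => e y n).inter
      (@measurable_snd ℝ ℝ ⊤ ⊤ _ MeasurableSpace.measurableSet_top)
  · exact (graph_meas (fun x => e x n) id).inter
      (@measurable_fst ℝ ℝ ⊤ ⊤ _ MeasurableSpace.measurableSet_top)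

theorem not_rect_aux {X : Type} [MeasurableSpace X] (htop : ∀ s : Set X, MeasurableSet s)
    (μ : Measure X) [IsProbabilityMeasure μ] (h0 : ∀ x, μ {x} = 0) :
    ¬ ∀ R : Set (X × X), MeasurableSet R := by
  intro hR
  obtain ⟨Y, hY, hmin⟩ := (InvImage.wf (fun s : Set X => #s) Cardinal.lt_wf).has_min
    {s | μ s ≠ 0} ⟨univ, by simp⟩
  have hsmall : ∀ s : Set X, #s < #Y → μ s = 0 := fun s hs => by
    by_contra h; exact hmin s h hs
  obtain ⟨lo, wf, hα⟩ := @exists_ord_eq_type_lt Y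
  set W : Set (X × X) := {p | ∃ (h1 : p.1 ∈ Y) (h2 : p.2 ∈ Y), (⟨p.2, h2⟩ : Y) < ⟨p.1, h1⟩} with hW
  have hsec : ∀ x, μ (Prod.mk x ⁻¹' W) = 0 := by
    intro x
    by_cases hx : x ∈ Y
    · apply hsmall
      refine lt_of_le_of_lt ?_ (mk_Iio_lt (⟨x, hx⟩ : Y) hα)
      refine le_trans (mk_le_mk_of_subset (t := Subtype.val '' Iio (⟨x, hx⟩ : Y)) ?_) mk_image_le
      rintro y ⟨h1, h2, h3⟩
      exact ⟨⟨y, h2⟩, h3, rfl⟩
    · have : Prod.mk x ⁻¹' W = ∅ := by
        ext y; simp only [hW, mem_preimage, mem_setOf_eq, mem_empty_iff_false, iff_false]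
        rintro ⟨h1, -⟩; exact hx h1
      rw [this, measure_empty]
  have h1 : μ.prod μ W = 0 :=
    (Measure.measure_prod_null (hR W)).2 (Filter.Eventually.of_forall hsec)
  have h2 : μ.prod μ (Prod.swap ⁻¹' W) = 0 := by
    rw [← Measure.map_apply measurable_swap (hR W), Measure.prod_swap, h1]
  have h3 := (Measure.measure_prod_null (hR _)).1 h2
  have h4 : ∀ᵐ x ∂μ, x ∉ Y := by
    filter_upwards [h3] with x hx hxY
    apply hY
    have : Y ⊆ (Prod.mk x ⁻¹' W) ∪ {x} ∪ (Prod.mk x ⁻¹' (Prod.swap ⁻¹' W)) := by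
      intro y hy
      rcases lt_trichotomy (⟨y, hy⟩ : Y) ⟨x, hxY⟩ with h | h | h
      · exact Or.inl (Or.inl ⟨hxY, hy, h⟩)
      · exact Or.inl (Or.inr (congrArg Subtype.val h))
      · exact Or.inr ⟨hy, hxY, h⟩
    exact measure_mono_null this (measure_union_null (measure_union_null (hsec x) (h0 x)) hx)
  exact hY (measure_eq_zero_iff_ae_notMem.2 h4)

theorem rect_pi {ι : Type} (h : Rect ℝ ℝ) (hι : #ι ≤ continuum) (n : ℕ) :
    ∀ R : Set (Fin n → ι), MeasurableSet[@MeasurableSpace.pi _ _ fun _ => ⊤] R := by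
  letI : MeasurableSpace ι := ⊤
  induction n with
  | zero => intro R; exact Subsingleton.measurableSet
  | succ n ih =>
    intro R
    have h1 : #(Fin n → ι) ≤ #ℝ := by
      rw [mk_real, ← power_def, mk_fin, power_natCast]
      calc #ι ^ n ≤ continuum ^ n := pow_le_pow_left' hι n
        _ ≤ continuum := power_nat_le aleph0_le_continuum
    obtain ⟨e⟩ := (Cardinal.le_def ι ℝ).1 (by rwa [mk_real])
    obtain ⟨e'⟩ := (Cardinal.le_def _ ℝ).1 h1
    have h2 := h.of_inj e e' e.injective e'.injective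
    have hm : @Measurable _ _ _ ((⊤ : MeasurableSpace ι).prod (⊤ : MeasurableSpace (Fin n → ι)))
        (fun v : Fin (n + 1) → ι => (v 0, Fin.tail v)) := by
      refine @Measurable.prodMk _ _ _ _ ⊤ ⊤ _ _ (measurable_pi_apply 0) ?_
      intro s _
      exact (measurable_pi_lambda _ fun i => measurable_pi_apply (Fin.succ i)) (ih s)
    have := hm (h2 ((fun v : Fin (n + 1) → ι => (v 0, Fin.tail v)) '' R))
    rwa [preimage_image_eq] at this
    intro v w hvw
    rw [← Fin.cons_self_tail v, ← Fin.cons_self_tail w]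
    simp only [Prod.mk.injEq] at hvw
    rw [hvw.1, hvw.2]

end Pool.Agent.H8.Rect
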