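import Pool.Agent.H8.Rect

set_option autoImplicit false

open MeasureTheory Set Cardinal Module

namespace Pool.Agent.H8.Rect

/-- sigma-algebra generated by additive subgroups -/
abbrev MG : MeasurableSpace ℝ :=
  MeasurableSpace.generateFrom {S : Set ℝ | ∃ G : AddSubgroup ℝ, (G : Set ℝ) = S}

def Sym : Prop := ∀ Z : Set ℝ, (∀ z ∈ Z, -z ∈ Z) → MeasurableSet[MG] Z

theorem mg_sub (G : AddSubgroup ℝ) : MeasurableSet[MG] (G : Set ℝ) :=
  MeasurableSpace.measurableSet_generateFrom ⟨G, rfl⟩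

theorem mk_basis : #(Basis.ofVectorSpaceIndex ℚ ℝ) = continuum := by
  rw [(Basis.ofVectorSpace ℚ ℝ).mk_eq_rank'', Real.rank_rat_real]

theorem rect_of_sym (h : Sym) : Rect ℝ ℝ := by
  classical
  set b := Basis.ofVectorSpace ℚ ℝ
  obtain ⟨e⟩ := (Cardinal.le_def (ℝ ⊕ ℝ) (Basis.ofVectorSpaceIndex ℚ ℝ)).1 (by
    rw [mk_basis]; simp [mk_real])
  set φ : ℝ × ℝ → ℝ := fun p => b (e (Sum.inl p.1)) + b (e (Sum.inr p.2)) with hφ
  have hL : ∀ F : ℝ ⊕ ℝ → ℝ, ∃ L : ℝ →ₗ[ℚ] ℝ, ∀ p : ℝ × ℝ, L (φ p) = F (.inl p.1) + F (.inr p.2) := by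
    intro F
    refine ⟨b.constr ℚ (Function.extend e F 0), fun p => ?_⟩
    simp only [hφ, map_add, Basis.constr_basis, e.injective.extend_apply]
  have hinj : Function.Injective φ := by
    intro p q hpq
    obtain ⟨L1, h1⟩ := hL (Sum.elim id 0)
    obtain ⟨L2, h2⟩ := hL (Sum.elim 0 id)
    have a1 := (h1 p).symm.trans ((congrArg L1 hpq).trans (h1 q))
    have a2 := (h2 p).symm.trans ((congrArg L2 hpq).trans (h2 q))
    simp at a1 a2
    exact Prod.ext a1 a2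
  have hneg : ∀ p q, -φ p ≠ φ q := by
    intro p q hpq
    obtain ⟨L, h1⟩ := hL 1
    have a1 := congrArg L hpq
    rw [map_neg, h1, h1] at a1
    simp at a1
    linarith
  have hm : @Measurable _ _ ((⊤ : MeasurableSpace ℝ).prod (⊤ : MeasurableSpace ℝ)) MG φ := by
    refine @measurable_generateFrom _ _ ((⊤ : MeasurableSpace ℝ).prod (⊤ : MeasurableSpace ℝ)) _ _ ?_
    rintro _ ⟨G, rfl⟩
    have : φ ⁻¹' (G : Set ℝ) = {p : ℝ × ℝ |
        (fun s => (QuotientAddGroup.mk (s := G) (-b (e (Sum.inl s)))).out) p.1 =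
        (fun t => (QuotientAddGroup.mk (s := G) (b (e (Sum.inr t)))).out) p.2} := by
      ext p
      simp only [mem_preimage, SetLike.mem_coe, mem_setOf_eq, Quotient.out_inj, hφ]
      rw [QuotientAddGroup.eq, neg_neg]
    rw [this]
    exact graph_meas (fun s => (QuotientAddGroup.mk (s := G) (-b (e (Sum.inl s)))).out)
      (fun t => (QuotientAddGroup.mk (s := G) (b (e (Sum.inr t)))).out)
  intro R
  have h1 := hm (h (φ '' R ∪ (fun z => -z) ⁻¹' (φ '' R)) (by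
    rintro z (hz | hz)
    · right; simpa using hz
    · left; exact hz))
  have : φ ⁻¹' (φ '' R ∪ (fun z => -z) ⁻¹' (φ '' R)) = R := by
    ext p
    constructor
    · rintro (⟨q, hq, hp⟩ | ⟨q, -, hp⟩)
      · exact hinj hp ▸ hq
      · exact absurd hp.symm (hneg p q)
    · intro hp; exact Or.inl ⟨p, hp, rfl⟩
  rwa [this] at h1

theorem pm_meas {V : Type} [AddCommGroup V] [Module ℚ V] (c : ℝ →+ V) (q : V) :
    MeasurableSet[MG] {v | c v = q ∨ c v = -q} := by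
  by_cases hq : q = 0
  · have : {v | c v = q ∨ c v = -q} = (c.ker : Set ℝ) := by
      ext v; simp [hq]
    rw [this]; exact mg_sub _
  have : {v | c v = q ∨ c v = -q} = ((AddSubgroup.zmultiples q).comap c : Set ℝ) \
      ⋃ m : ℕ, ((AddSubgroup.zmultiples (((m : ℤ) + 2) • q)).comap c : Set ℝ) := by
    have hinj : ∀ a b : ℤ, a • q = b • q → a = b := by
      intro a b hab
      have h1 : ((a - b : ℤ) : ℚ) • q = 0 := by
        rw [Int.cast_smul_eq_zsmul, sub_smul, hab, sub_self]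
      rcases smul_eq_zero.1 h1 with h | h
      · have : a - b = 0 := by exact_mod_cast h
        omega
      · exact absurd h hq
    ext v
    simp only [mem_setOf_eq, mem_diff, SetLike.mem_coe, AddSubgroup.mem_comap, mem_iUnion,
      AddSubgroup.mem_zmultiples_iff, not_exists, smul_smul]
    constructor
    · intro h
      have h' : ∃ ε : ℤ, (ε = 1 ∨ ε = -1) ∧ ε • q = c v := by
        rcases h with h | h
        · exact ⟨1, Or.inl rfl, by simp [h]⟩
        · exact ⟨-1, Or.inr rfl, by simp [h]⟩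
      obtain ⟨ε, hε, h'⟩ := h'
      refine ⟨⟨ε, h'⟩, fun m k hk => ?_⟩
      have h2 := hinj _ _ (hk.trans h'.symm)
      have h3 : ((m : ℤ) + 2) ∣ 1 := by
        rcases hε with rfl | rfl
        · exact ⟨k, by rw [← h2]; ring⟩
        · exact ⟨-k, by linear_combination h2⟩
      have := Int.le_of_dvd one_pos h3
      omega
    · rintro ⟨⟨k, hk⟩, h⟩
      by_cases h1 : k = 1
      · left; rw [← hk, h1, one_smul]
      by_cases h2 : k = -1
      · right; rw [← hk, h2, neg_smul, one_smul]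
      exfalso
      rcases lt_trichotomy k 0 with h3 | h3 | h3
      · refine h ((-k - 2).toNat) (-1) ?_
        rw [← hk]; congr 1; rw [Int.toNat_of_nonneg (by omega)]; ring
      · refine h 0 0 ?_
        rw [← hk, h3]; simp
      · refine h ((k - 2).toNat) 1 ?_
        rw [← hk]; congr 1; rw [Int.toNat_of_nonneg (by omega)]; ring
  rw [this]
  exact (mg_sub _).diff (MeasurableSet.iUnion fun m => mg_sub _)

theorem exists_sep {ι : Type} (hι : #ι ≤ continuum) : ∃ U : ℕ → Set ι,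
    ∀ (F : Finset ι) (i : ι), ∃ n, i ∈ U n ∧ ∀ i' ∈ F, i' ∈ U n → i' = i := by
  obtain ⟨j⟩ := (Cardinal.le_def ι ℝ).1 (by rwa [mk_real])
  obtain ⟨B, hB⟩ := (TopologicalSpace.countable_countableBasis ℝ).exists_eq_range
    (by
      obtain ⟨t, ht, -⟩ := (TopologicalSpace.isBasis_countableBasis ℝ).exists_subset_of_mem_open
        (a := 0) (mem_univ _) isOpen_univ
      exact ⟨t, ht⟩)
  refine ⟨fun n => j ⁻¹' B n, fun F i => ?_⟩
  have ho : IsOpen (j '' ((F : Set ι) \ {i}))ᶜ :=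
    ((F.finite_toSet.subset diff_subset).image j).isClosed.isOpen_compl
  obtain ⟨t, ht, h1, h2⟩ := (TopologicalSpace.isBasis_countableBasis ℝ).exists_subset_of_mem_open
    (a := j i) (by rintro ⟨i', h, h'⟩; exact h.2 (j.injective h')) ho
  rw [hB] at ht
  obtain ⟨n, rfl⟩ := ht
  refine ⟨n, h1, fun i' hi' hn => ?_⟩
  by_contra hne
  exact h2 hn ⟨i', ⟨hi', hne⟩, rfl⟩

theorem sym_of_rect (h : Rect ℝ ℝ) : Sym := by
  classical
  set ι := Basis.ofVectorSpaceIndex ℚ ℝ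
  set b : Basis ι ℚ ℝ := Basis.ofVectorSpace ℚ ℝ
  obtain ⟨U, hU⟩ := exists_sep (ι := ι) mk_basis.le
  letI : MeasurableSpace ℝ := MG
  have hit : ∀ C : Set ι, MeasurableSet {v : ℝ | ∃ i ∈ C, b.repr v i ≠ 0} := by
    intro C
    have : {v : ℝ | ∃ i ∈ C, b.repr v i ≠ 0} =
        ((⨅ i ∈ C, (b.coord i).toAddMonoidHom.ker : AddSubgroup ℝ) : Set ℝ)ᶜ := by
      ext v; simp [AddSubgroup.mem_iInf]
    rw [this]; exact (mg_sub _).compl
  have one : ∀ C : Set ι, MeasurableSet {v : ℝ | ∃! i, i ∈ C ∧ b.repr v i ≠ 0} := by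
    intro C
    have : {v : ℝ | ∃! i, i ∈ C ∧ b.repr v i ≠ 0} = {v : ℝ | ∃ i ∈ C, b.repr v i ≠ 0} \
        ⋃ n, ({v : ℝ | ∃ i ∈ C ∩ U n, b.repr v i ≠ 0} ∩ {v : ℝ | ∃ i ∈ C \ U n, b.repr v i ≠ 0}) := by
      ext v
      simp only [mem_setOf_eq, mem_diff, mem_iUnion, mem_inter_iff, not_exists]
      constructor
      · rintro ⟨i, hi, hu⟩
        refine ⟨⟨i, hi⟩, fun n ⟨⟨i1, h1, h1'⟩, ⟨i2, h2, h2'⟩⟩ => ?_⟩
        exact h2.2 ((hu i2 ⟨h2.1, h2'⟩).trans (hu i1 ⟨h1.1, h1'⟩).symm ▸ h1.2)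
      · rintro ⟨⟨i, hi⟩, hn⟩
        refine ⟨i, hi, fun i' hi' => ?_⟩
        by_contra hne
        obtain ⟨n, h1, h2⟩ := hU {i'} i
        exact hn n ⟨⟨i, ⟨hi.1, h1⟩, hi.2⟩, ⟨i', ⟨hi'.1, fun h => hne (h2 i' (by simp) h)⟩, hi'.2⟩⟩
    rw [this]
    exact (hit C).diff (MeasurableSet.iUnion fun n => (hit _).inter (hit _))
  set cc : Set ι → ℝ →ₗ[ℚ] ℚ := fun C => b.constr ℚ (C.indicator 1) with hcc
  have hccv : ∀ (C : Set ι) (v : ℝ) (i : ι), i ∈ C → (∀ i' ∈ C, b.repr v i' ≠ 0 → i' = i) →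
      cc C v = b.repr v i := by
    intro C v i hi hu
    rw [hcc]
    simp only [Basis.constr_apply]
    rw [Finsupp.sum_eq_single i]
    · simp [hi]
    · intro i' h1 h2
      have : i' ∉ C := fun h => h2 (hu i' h h1)
      simp [this]
    · intro _; simp
  set P : (Σ k : ℕ, (Fin k → ℕ) × (Fin k → ℚ)) → Set ℝ := fun a =>
    {v | ∃ i ∈ (⋃ l, U (a.2.1 l))ᶜ, b.repr v i ≠ 0}ᶜ ∩
      (⋂ l, {v : ℝ | ∃! i, i ∈ U (a.2.1 l) ∧ b.repr v i ≠ 0}) ∩
      {v | (LinearMap.pi fun l => cc (U (a.2.1 l))).toAddMonoidHom v = a.2.2 ∨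
        (LinearMap.pi fun l => cc (U (a.2.1 l))).toAddMonoidHom v = -a.2.2} with hP
  have hPm : ∀ a, MeasurableSet (P a) := fun a =>
    ((hit _).compl.inter (MeasurableSet.iInter fun l => one _)).inter (pm_meas _ _)
  have hcov : ∀ v, ∃ a, v ∈ P a := by
    intro v
    set F := (b.repr v).support with hF
    choose n hn1 hn2 using hU F
    set en : Fin F.card → ι := fun l => F.equivFin.symm l with hen
    refine ⟨⟨F.card, fun l => n (en l), (LinearMap.pi fun l => cc (U (n (en l)))) v⟩,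
      ⟨?_, mem_iInter.2 fun l => ?_⟩, Or.inl rfl⟩
    · rintro ⟨i, hi, hv⟩
      refine hi (mem_iUnion.2 ⟨F.equivFin ⟨i, Finsupp.mem_support_iff.2 hv⟩, ?_⟩)
      simp only [hen, Equiv.symm_apply_apply]
      exact hn1 i
    · refine ⟨en l, ⟨hn1 _, Finsupp.mem_support_iff.1 (F.equivFin.symm l).2⟩, fun i hi => ?_⟩
      exact hn2 _ i (Finsupp.mem_support_iff.2 hi.2) hi.1
  intro Z hZ
  have hZP : ∀ a, MeasurableSet (Z ∩ P a) := by
    rintro ⟨k, u, q⟩
    set a : (Σ k : ℕ, (Fin k → ℕ) × (Fin k → ℚ)) := ⟨k, u, q⟩ with ha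
    have hex : ∀ (v : P a) (l : Fin k), ∃! i, i ∈ U (u l) ∧ b.repr v i ≠ 0 := fun v l =>
      mem_iInter.1 v.2.1.2 l
    choose ψ hψ1 hψ2 using hex
    letI : MeasurableSpace ι := ⊤
    have hψm : Measurable ψ := by
      refine measurable_pi_lambda _ fun l => ?_
      intro A _
      have : (fun v => ψ v l) ⁻¹' A =
          Subtype.val ⁻¹' {v : ℝ | ∃ i ∈ U (u l) ∩ A, b.repr v i ≠ 0} := by
        ext v
        simp only [mem_preimage, mem_setOf_eq, mem_inter_iff]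
        constructor
        · intro hv; exact ⟨_, ⟨(hψ1 v l).1, hv⟩, (hψ1 v l).2⟩
        · rintro ⟨i, hi, hi'⟩; exact hψ2 v l i ⟨hi.1, hi'⟩ ▸ hi.2
      rw [this]
      exact measurable_subtype_coe (hit _)
    have hco : ∀ (v : P a) (l : Fin k), cc (U (u l)) v = b.repr v (ψ v l) := fun v l =>
      hccv _ _ _ (hψ1 v l).1 fun i' h1 h2 => hψ2 v l i' ⟨h1, h2⟩
    have hsupp : ∀ (v : P a) (i : ι), (∀ l, i ≠ ψ v l) → b.repr v i = 0 := by
      intro v i hi
      by_contra hne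
      have h1 := v.2.1.1
      simp only [mem_compl_iff, mem_setOf_eq, not_exists, not_and] at h1
      have h2 : i ∈ ⋃ l, U (u l) := by
        by_contra h3; exact h1 i h3 hne
      obtain ⟨l, hl⟩ := mem_iUnion.1 h2
      exact hi l (hψ2 v l i ⟨hl, hne⟩)
    have hsgn : ∀ v : P a, ∃ ε : ℚ, (ε = 1 ∨ ε = -1) ∧ ∀ l, b.repr v (ψ v l) = ε * q l := by
      intro v
      rcases v.2.2 with h1 | h1
      · exact ⟨1, Or.inl rfl, fun l => by rw [← hco, one_mul]; exact congrFun h1 l⟩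
      · exact ⟨-1, Or.inr rfl, fun l => by rw [← hco, neg_one_mul]; exact congrFun h1 l⟩
    have hkey : ∀ v w : P a, ψ v = ψ w → (v : ℝ) = w ∨ (v : ℝ) = -w := by
      intro v w hvw
      obtain ⟨ε, hε, h1⟩ := hsgn v
      obtain ⟨ε', hε', h2⟩ := hsgn w
      have h3 : (v : ℝ) = (ε * ε') • (w : ℝ) := by
        apply b.repr.injective
        ext i
        rw [map_smul, Finsupp.smul_apply, smul_eq_mul]
        by_cases hi : ∃ l, i = ψ v l
        · obtain ⟨l, rfl⟩ := hi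
          rw [h1, hvw, h2]
          rcases hε' with rfl | rfl <;> ring
        · push Not at hi
          rw [hsupp v i hi, hsupp w i (hvw ▸ hi), mul_zero]
      rcases hε with rfl | rfl <;> rcases hε' with rfl | rfl <;> simp [h3]
    have : Z ∩ P a = Subtype.val '' (ψ ⁻¹' (ψ '' (Subtype.val ⁻¹' Z))) := by
      ext v
      constructor
      · rintro ⟨h1, h2⟩
        exact ⟨⟨v, h2⟩, ⟨⟨v, h2⟩, h1, rfl⟩, rfl⟩
      · rintro ⟨v, ⟨w, hw, hwv⟩, rfl⟩
        refine ⟨?_, v.2⟩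
        rcases hkey v w hwv.symm with h1 | h1
        · rw [h1]; exact hw
        · rw [h1]; exact hZ _ hw
    rw [this]
    exact (hPm a).subtype_image (hψm (rect_pi h mk_basis.le k _))
  have : Z = ⋃ a, Z ∩ P a := by
    rw [← inter_iUnion, eq_univ_of_forall fun v => mem_iUnion.2 (hcov v), inter_univ]
  rw [this]
  exact MeasurableSet.iUnion hZP

end Pool.Agent.H8.Rect
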