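import Mathlib
import Pool.Agent.H8.Mich

set_option autoImplicit false

namespace Pool.Agent.H8.Sorg

open Set Filter Topology Function Pool.Agent.H8.SG Pool.Agent.H8.Mich
open scoped Cardinal

lemma step' (P E : Set (Set ℕ)) (g : ℕ → ℕ) (hc : P.Countable) (hE : E.Countable) (hi : ∀ y ∈ P, y.Infinite)
    (hd : ∀ a ∈ P, ∀ b ∈ P, (a \ b).Finite ∨ (b \ a).Finite) : ∃ S : Set ℕ, S.Infinite ∧
      (∀ y ∈ P, (S \ y).Finite) ∧ S ∉ E ∧ ∃ᶠ n in atTop, ∀ i ∈ S, i < n ∨ g n ≤ i := by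
  obtain ⟨e, he⟩ := (hc.insert univ).exists_eq_range (insert_nonempty _ _)
  have h0 : ∀ n, e n = univ ∨ e n ∈ P := fun n => (he ▸ ⟨n, rfl⟩ : e n ∈ insert univ P)
  have : ∀ n, ∃ w ∈ insert univ P, ∀ k < n, (w \ e k).Finite := by
    intro n
    induction n with
    | zero => exact ⟨univ, Or.inl rfl, fun k hk => absurd hk (Nat.not_lt_zero _)⟩
    | succ n ih =>
      obtain ⟨w, hw, h1⟩ := ih
      have : (w \ e n).Finite ∨ (e n \ w).Finite := by
        rcases h0 n with h2 | h2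
        · simp [h2]
        rcases hw with rfl | hw
        exacts [by simp, hd _ hw _ h2]
      rcases this with h2 | h2
      · refine ⟨w, hw, fun k hk => ?_⟩
        rcases Nat.lt_succ_iff_lt_or_eq.1 hk with h3 | rfl
        exacts [h1 k h3, h2]
      · refine ⟨e n, h0 n, fun k hk => ?_⟩
        rcases Nat.lt_succ_iff_lt_or_eq.1 hk with h3 | rfl
        · exact (h2.union (h1 k h3)).subset fun x hx => by
            by_cases h : x ∈ w
            exacts [Or.inr ⟨h, hx.2⟩, Or.inl ⟨hx.1, h⟩]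
        · simp
  have : ∀ n m, ∃ s, m < s ∧ g (m + 1) < s ∧ ∀ k < n, s ∈ e k := fun n m => by
    obtain ⟨w, hw, h1⟩ := this n
    have h2 : w.Infinite := hw.elim (fun h => h ▸ infinite_univ) (hi w)
    obtain ⟨s, ⟨h3, h4⟩, h5⟩ := (h2.diff ((finite_lt_nat n).biUnion h1)).exists_gt
      (max m (g (m + 1)))
    exact ⟨s, lt_of_le_of_lt (le_max_left _ _) h5, lt_of_le_of_lt (le_max_right _ _) h5,
      fun k hk => by_contra fun h6 => h4 (mem_iUnion₂.2 ⟨k, hk, h3, h6⟩)⟩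
  choose F h1 h2 h3 using this
  let s : ℕ → ℕ := fun n => Nat.rec 0 (fun n m => F n m) n
  have hs : StrictMono s := strictMono_nat_of_lt_succ fun n => h1 n _
  have h4 : ∀ k n, k + 1 < n → s n ∈ e k := fun k n hn => by
    obtain ⟨n, rfl⟩ : ∃ m, n = m + 1 := ⟨n - 1, by omega⟩
    exact h3 n _ k (by omega)
  let c : (ℕ → ℕ) → Set ℕ := fun a => s '' range fun n => Nat.pair n (a n)
  have hi' : Injective c := fun a b hab => funext fun n => by
    obtain ⟨m, hm⟩ : Nat.pair n (a n) ∈ range fun n => Nat.pair n (b n) :=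
      (image_injective.2 hs.injective hab) ▸ ⟨n, rfl⟩
    obtain ⟨rfl, h5⟩ := Nat.pair_eq_pair.1 hm
    exact h5.symm
  obtain ⟨a, ha⟩ : ∃ a : J, c a ∉ E := by_contra fun h5 => not_countable_univ
    ((hE.preimage_of_injOn hi'.injOn).mono fun a _ => by_contra fun h6 => h5 ⟨a, h6⟩)
  refine ⟨c a, (infinite_range_of_injective fun m n h => (Nat.pair_eq_pair.1 h).1).image
    hs.injective.injOn, fun y hy => ?_, ha, frequently_atTop.2 fun m =>
      ⟨s m + 1, (hs.id_le m).trans (Nat.le_succ _), ?_⟩⟩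
  · obtain ⟨k, rfl⟩ : y ∈ range e := he ▸ Or.inr hy
    refine ((finite_le_nat (k + 1)).image s).subset ?_
    rintro _ ⟨⟨n, -, rfl⟩, hn⟩
    exact ⟨_, not_lt.1 fun h => hn (h4 _ _ h), rfl⟩
  · rintro _ ⟨n, -, rfl⟩
    rcases le_or_gt n m with h | h
    · exact Or.inl (Nat.lt_succ_of_le (hs.monotone h))
    · exact Or.inr ((h2 m _).le.trans (hs.monotone (Nat.succ_le_of_lt h)))

lemma gam' {r : J → J → Prop} {x : J → Set ℕ} (wo : IsWellOrder J r)
    (hseg : ∀ a, {b | r b a}.Countable) (hx : ∀ a, (x a).Infinite ∧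
      (∀ b, r b a → (x a \ x b).Finite ∧ x a ≠ x b) ∧ ∃ᶠ n in atTop, ∀ i ∈ x a, i < n ∨ a n ≤ i)
    {A : Type} (O : ℕ → A → Set (J ⊕ Finset ℕ)) (hO : ∀ n g (s : Finset ℕ), Sum.inr s ∈ O n g →
      ∀ᶠ N in atTop, ∀ p, (∀ i < N, i ∈ pr x p ↔ i ∈ s) → p ∈ O n g)
    (hω : ∀ n, ∀ E : Set (J ⊕ Finset ℕ), E.Finite → ∃ g, ∀ p ∈ E, p ∈ O n g) :
    ∃ (n : ℕ → ℕ) (g : ℕ → A), (∀ j, j ≤ n j) ∧ ∀ p, ∀ᶠ j in atTop, p ∈ O (n j) (g j) := by
  classical
  choose h hh using fun c => countable_iff_exists_injOn.1 (hseg c)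
  have : ∀ (c : J) (n : ℕ), ∃ g N, (∀ b, r b c → h c b ≤ n → Sum.inl b ∈ O n g) ∧
      ∀ p, (∀ i ∈ pr x p, i < n ∨ N ≤ i) → p ∈ O n g := fun c n => by
    have hf : {b | r b c ∧ h c b ≤ n}.Finite := Finite.of_finite_image
      ((finite_le_nat n).subset (by rintro _ ⟨b, hb, rfl⟩; exact hb.2))
      ((hh c).mono fun b hb => hb.1)
    obtain ⟨g, hg⟩ := hω n _ ((hf.image Sum.inl).union
      ((Finset.range n).powerset.finite_toSet.image Sum.inr))
    obtain ⟨N, hN⟩ := (((Finset.range n).powerset.eventually_all).2 fun s hs =>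
      hO n g s (hg _ (Or.inr ⟨s, hs, rfl⟩))).exists
    refine ⟨g, N, fun b h1 h2 => hg _ (Or.inl ⟨b, ⟨h1, h2⟩, rfl⟩), fun p hp =>
      hN ((Finset.range n).filter (· ∈ pr x p))
        (Finset.mem_powerset.2 (Finset.filter_subset _ _)) p fun i hi => ?_⟩
    simp only [Finset.mem_filter, Finset.mem_range]
    exact ⟨fun h => ⟨(hp i h).resolve_right (not_le.2 hi), h⟩, fun h => h.2⟩
  choose g G h1 h2 using this
  have ub : ∀ β : ℕ → J, ∃ a, ∀ n, r (β n) a := by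
    intro β
    by_contra hc
    push Not at hc
    refine not_countable_univ ((countable_iUnion fun n =>
      (hseg (β n)).insert (β n)).mono fun a _ => ?_)
    obtain ⟨n, hn⟩ := hc a
    rcases trichotomous_of r (β n) a with h | h | h
    exacts [absurd h hn, mem_iUnion.2 ⟨n, Or.inl h.symm⟩, mem_iUnion.2 ⟨n, Or.inr h⟩]
  choose u hu using fun c : J => ub fun n => if n = 0 then c else G c
  let c : ℕ → J := fun j => u^[j] 0
  have hc : ∀ j, c (j + 1) = u (c j) := fun j => iterate_succ_apply' _ _ _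
  have hm : ∀ i j, i ≤ j → ∀ b, r b (c i) → r b (c j) := fun i j hij b hb => by
    induction hij with
    | refl => exact hb
    | step _ ih => rw [hc]; exact trans_of r ih (hu _ 0)
  obtain ⟨d, hd, hd'⟩ := wo.wf.has_min {a | ∀ j, r (c j) a} (ub c)
  obtain ⟨q, hq⟩ := ((countable_iUnion fun j => hseg (c j)).insert 0).exists_eq_range
    (insert_nonempty _ _)
  have : ∀ j, ∃ n, (∀ i ∈ x d, i < n ∨ G (c j) n ≤ i) ∧ j ≤ n ∧ ∀ i ≤ j, h (c j) (q i) ≤ n := by
    intro j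
    obtain ⟨M, hM⟩ := ((hx d).2.1 (G (c j)) (trans_of r (hc j ▸ hu (c j) 1) (hd (j + 1)))).1.bddAbove
    obtain ⟨n, h3, h4, h5, h6⟩ := ((hx (G (c j))).2.2.and_eventually ((eventually_gt_atTop M).and
      ((eventually_ge_atTop j).and ((eventually_all_finite (finite_le_nat j)).2
        fun i _ => eventually_ge_atTop (h (c j) (q i)))))).exists
    refine ⟨n, fun i hi => ?_, h5, h6⟩
    by_cases h7 : i ∈ x (G (c j))
    exacts [h3 i h7, Or.inl ((hM ⟨hi, h7⟩).trans_lt h4)]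
  choose n h3 h4 h5 using this
  have h6 : ∀ p, (pr x p \ x d).Finite → ∀ᶠ j in atTop, p ∈ O (n j) (g (c j) (n j)) :=
    fun p hp => by
      obtain ⟨M, hM⟩ := hp.bddAbove
      filter_upwards [eventually_gt_atTop M] with j hj
      refine h2 _ _ p fun i hi => ?_
      by_cases h7 : i ∈ x d
      exacts [h3 j i h7, Or.inl ((hM ⟨hi, h7⟩).trans_lt (hj.trans_le (h4 j)))]
  refine ⟨n, fun j => g (c j) (n j), h4, ?_⟩
  rintro (b | s)
  · by_cases h7 : ∃ j, r b (c j)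
    · obtain ⟨j, hj⟩ := h7
      obtain ⟨i, rfl⟩ : b ∈ range q := hq ▸ Or.inr (mem_iUnion.2 ⟨j, hj⟩)
      filter_upwards [eventually_ge_atTop i, eventually_ge_atTop j] with k h8 h9
      exact h1 _ _ _ (hm j k h9 _ hj) (h5 k i h8)
    · have h8 : ∀ j, r (c j) b := fun j => by
        rcases trichotomous_of r (c j) b with h | h | h
        · exact h
        · exact absurd ⟨j + 1, by rw [hc, ← h]; exact hu _ 0⟩ h7
        · exact absurd ⟨j, h⟩ h7
      refine h6 _ ?_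
      rcases trichotomous_of r d b with h | h | h
      · exact ((hx b).2.1 d h).1
      · simp [pr, h]
      · exact absurd h (hd' b h8)
  · exact h6 _ (s.finite_toSet.subset diff_subset)

abbrev Z := ℕ → Bool

open Classical in
noncomputable def ch (A : Set ℕ) : Z := fun i => decide (i ∈ A)

lemma ch_inj : Injective ch := fun A B h => Set.ext fun i => by simpa [ch] using congrFun h i

def L (u v : Z) : Prop := ∃ i, (∀ j < i, u j = v j) ∧ u i = false ∧ v i = true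

lemma L.tot {u v : Z} (h : u ≠ v) : L u v ∨ L v u := by
  classical
  have h1 : ∃ i, u i ≠ v i := by_contra fun h1 => h (funext fun i => by_contra fun h2 => h1 ⟨i, h2⟩)
  have h2 := Nat.find_spec h1
  have h3 : ∀ j < Nat.find h1, u j = v j := fun j hj => not_not.1 (Nat.find_min h1 hj)
  cases h4 : u (Nat.find h1) <;> cases h5 : v (Nat.find h1)
  · exact absurd (h4.trans h5.symm) h2
  · exact Or.inl ⟨_, h3, h4, h5⟩
  · exact Or.inr ⟨_, fun j hj => (h3 j hj).symm, h5, h4⟩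
  · exact absurd (h4.trans h5.symm) h2

lemma L.asymm {u v : Z} (h : L u v) : ¬ L v u := by
  obtain ⟨i, h1, h2, h3⟩ := h
  rintro ⟨j, h4, h5, h6⟩
  rcases lt_trichotomy i j with h | rfl | h
  · rw [h4 i h, h2] at h3; cases h3
  · rw [h2] at h6; cases h6
  · rw [h1 j h, h5] at h6; cases h6

lemma L.ne {u v : Z} (h : L u v) : u ≠ v := fun e => (e ▸ h).asymm (e ▸ h)

lemma L.op {u v : Z} (h : L u v) : ∀ᶠ N in atTop, ∀ u' v' : Z, (∀ j < N, u' j = u j) →
    (∀ j < N, v' j = v j) → L u' v' := by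
  obtain ⟨i, h1, h2, h3⟩ := h
  filter_upwards [eventually_gt_atTop i] with N hN u' v' h4 h5
  exact ⟨i, fun j hj => by rw [h4 j (hj.trans hN), h5 j (hj.trans hN), h1 j hj],
    (h4 i hN).trans h2, (h5 i hN).trans h3⟩

def Sec {n : ℕ} (K : Set (Fin n → Z)) (I : Set (Fin n)) (R : Fin n → Set Z) : Set Z :=
  {z | ∃ v ∈ K, (∀ l ∈ I, v l = z) ∧ ∀ l ∉ I, v l ∈ R l}

def Cy : Set (Set Z) := range fun p : ℕ × Finset ℕ => {z | ∀ j < p.1, z j = ch p.2 j}

lemma cy_mem (N : ℕ) (u : Z) : {z : Z | ∀ j < N, z j = u j} ∈ Cy := by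
  classical
  refine ⟨(N, (Finset.range N).filter fun j => u j = true), Set.ext fun z =>
    forall₂_congr fun j hj => ?_⟩
  simp [ch, hj]

lemma tower' (h : Cardinal.continuum.{0} = Cardinal.aleph 1) (κ : ∀ n, J → Set (Fin n → Z)) :
    ∃ (r : J → J → Prop) (x : J → Set ℕ), IsWellOrder J r ∧ (∀ a, {b | r b a}.Countable) ∧
      (∀ a, (x a).Infinite ∧ (∀ b, r b a → (x a \ x b).Finite ∧ x a ≠ x b) ∧
        ∃ᶠ n in atTop, ∀ i ∈ x a, i < n ∨ a n ≤ i) ∧
      ∀ a n b, r b a → ∀ I (R : Fin n → Set Z), (∀ l, R l ∈ Cy ∨ ∃ c, r c a ∧ R l = {ch (x c)}) →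
        ch (x a) ∈ Sec (κ n b) I R → ∃ z ∈ Sec (κ n b) I R, L z (ch (x a)) := by
  obtain ⟨r, wo, hseg⟩ := wo_of_CH h J (card_seq ℕ (card_ct ℕ))
  let E : J → Set (Set ℕ) → Set (Set ℕ) := fun a P => P ∪ ⋃ n, ⋃ b ∈ {b | r b a},
    ⋃ I : Set (Fin n), ⋃ R ∈ {R : Fin n → Set Z | ∀ l, R l ∈ Cy ∪ (fun y => {ch y}) '' P},
      {y | ch y ∈ Sec (κ n b) I R ∧ ¬ ∃ z ∈ Sec (κ n b) I R, L z (ch y)}
  have hE : ∀ a P, P.Countable → (E a P).Countable := fun a P hP =>
    hP.union (countable_iUnion fun n => (hseg a).biUnion fun b _ => countable_iUnion fun I =>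
      (countable_pi fun _ => (countable_range _).union (hP.image _)).biUnion fun R _ =>
        Set.Subsingleton.countable fun y hy y' hy' => ch_inj (by_contra fun hn =>
          (L.tot hn).elim (fun h => hy'.2 ⟨_, hy.1, h⟩) fun h => hy.2 ⟨_, hy'.1, h⟩))
  have : ∀ (g : J) (P : Set (Set ℕ)), ∃ S : Set ℕ, P.Countable → (∀ y ∈ P, y.Infinite) →
      (∀ a ∈ P, ∀ b ∈ P, (a \ b).Finite ∨ (b \ a).Finite) → S.Infinite ∧
      (∀ y ∈ P, (S \ y).Finite) ∧ S ∉ E g P ∧ ∃ᶠ n in atTop, ∀ i ∈ S, i < n ∨ g n ≤ i := by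
    intro g P
    by_cases hc : P.Countable ∧ (∀ y ∈ P, y.Infinite) ∧
      ∀ a ∈ P, ∀ b ∈ P, (a \ b).Finite ∨ (b \ a).Finite
    · exact (step' P _ g hc.1 (hE g P hc.1) hc.2.1 hc.2.2).imp fun S hS _ _ _ => hS
    · exact ⟨∅, fun a b c => absurd ⟨a, b, c⟩ hc⟩
  choose F hF using this
  let x : J → Set ℕ := wo.wf.fix fun a ih => F a (range fun b : {b // r b a} => ih b.1 b.2)
  have hx : ∀ a, x a = F a (range fun b : {b // r b a} => x b.1) := fun a => wo.wf.fix_eq _ a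
  clear_value x
  have key : ∀ a, (x a).Infinite ∧ (∀ y ∈ range fun b : {b // r b a} => x b.1, (x a \ y).Finite) ∧
      x a ∉ E a (range fun b : {b // r b a} => x b.1) ∧
        ∃ᶠ n in atTop, ∀ i ∈ x a, i < n ∨ a n ≤ i := by
    intro a
    induction a using wo.wf.induction with
    | _ a ih =>
      haveI : Countable {b // r b a} := (hseg a).to_subtype
      have := hF a _ (countable_range fun b : {b // r b a} => x b.1) (by
          rintro _ ⟨b, rfl⟩
          exact (ih _ b.2).1) (by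
          rintro _ ⟨b, rfl⟩ _ ⟨c, rfl⟩
          rcases trichotomous_of r b.1 c.1 with h | h | h
          · exact Or.inr ((ih _ c.2).2.1 _ ⟨⟨_, h⟩, rfl⟩)
          · exact Or.inl (by simp [h])
          · exact Or.inl ((ih _ b.2).2.1 _ ⟨⟨_, h⟩, rfl⟩))
      rwa [← hx a] at this
  refine ⟨r, x, wo, hseg, fun a => ⟨(key a).1, fun b hb => ⟨(key a).2.1 _ ⟨⟨b, hb⟩, rfl⟩,
    fun e => (key a).2.2.1 (Or.inl ⟨⟨b, hb⟩, e.symm⟩)⟩, (key a).2.2.2⟩,
    fun a n b hb I R hR h1 => by_contra fun h2 => (key a).2.2.1 (Or.inr (mem_iUnion.2 ⟨n,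
      mem_iUnion₂.2 ⟨b, hb, mem_iUnion.2 ⟨I, mem_iUnion₂.2 ⟨R, fun l => ?_, h1, h2⟩⟩⟩⟩))⟩
  rcases hR l with h3 | ⟨c, h3, h4⟩
  exacts [Or.inl h3, Or.inr ⟨_, ⟨⟨c, h3⟩, rfl⟩, h4.symm⟩]

lemma down {J : Type} {r : J → J → Prop} (wo : IsWellOrder J r) {y : J → Z} {n : ℕ} {K : Set (Fin n → Z)}
    {b : J} (hy : ∀ a, r b a → ∀ I (R : Fin n → Set Z), (∀ l, R l ∈ Cy ∨ ∃ c, r c a ∧ R l = {y c}) →
      y a ∈ Sec K I R → ∃ z ∈ Sec K I R, L z (y a)) (β : Fin n → J) (G : Finset (Fin n)) :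
    (∀ l ∈ G, r b (β l)) → ∀ R : Fin n → Set Z, (∀ l, R l ∈ Cy) →
      (∃ v ∈ K, (∀ l ∈ G, v l = y (β l)) ∧ ∀ l ∉ G, v l ∈ R l) →
      ∃ k ∈ K, (∀ l ∈ G, L (k l) (y (β l))) ∧ ∀ l ∉ G, k l ∈ R l := by
  classical
  induction G using Finset.strongInduction with
  | H G ih =>
    rintro h1 R hR ⟨v, hv, h2, h3⟩
    rcases G.eq_empty_or_nonempty with rfl | hG
    · exact ⟨v, hv, by simp, h3⟩
    letI := linearOrderOfSTO r
    obtain ⟨m, hm, h4⟩ := G.exists_max_image β hG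
    obtain ⟨z, ⟨w, hw, h5, h6⟩, h7⟩ := hy (β m) (h1 m hm) {l | l ∈ G ∧ β l = β m}
      (fun l => if l ∈ G ∧ β l ≠ β m then {y (β l)} else R l) (fun l => by
        split_ifs with h5
        exacts [Or.inr ⟨β l, lt_of_le_of_ne (h4 l h5.1) h5.2, rfl⟩, Or.inl (hR l)])
      ⟨v, hv, fun l hl => by rw [h2 l hl.1, hl.2], fun l hl => by
        beta_reduce
        split_ifs with h5
        exacts [h2 l h5.1, h3 l fun h6 => hl ⟨h6, by_contra fun h7 => h5 ⟨h6, h7⟩⟩]⟩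
    obtain ⟨N, hN⟩ := h7.op.exists
    obtain ⟨k, hk, h8, h9⟩ := ih (G.filter fun l => β l ≠ β m)
      ⟨Finset.filter_subset _ _, fun h => (Finset.mem_filter.1 (h hm)).2 rfl⟩
      (fun l hl => h1 l (Finset.mem_filter.1 hl).1)
      (fun l => if l ∈ G then {u | ∀ j < N, u j = z j} else R l) (fun l => by
        split_ifs
        exacts [cy_mem N z, hR l])
      ⟨w, hw, fun l hl => by
        have := h6 l fun h => (Finset.mem_filter.1 hl).2 h.2
        beta_reduce at this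
        rwa [if_pos (Finset.mem_filter.1 hl)] at this, fun l hl => by
        beta_reduce
        split_ifs with h8
        · exact fun j _ => congrFun (h5 l ⟨h8, by_contra fun h => hl (Finset.mem_filter.2 ⟨h8, h⟩)⟩) j
        · have := h6 l fun h => h8 h.1
          beta_reduce at this
          rwa [if_neg fun h => h8 h.1] at this⟩
    refine ⟨k, hk, fun l hl => ?_, fun l hl => ?_⟩
    · by_cases h10 : β l = β m
      · have := h9 l fun h => (Finset.mem_filter.1 h).2 h10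
        beta_reduce at this
        rw [if_pos hl] at this
        exact h10 ▸ hN _ _ this fun _ _ => rfl
      · exact h8 l (Finset.mem_filter.2 ⟨hl, h10⟩)
    · have := h9 l fun h => hl (Finset.mem_filter.1 h).1
      beta_reduce at this
      rwa [if_neg hl] at this

lemma coin {r : J → J → Prop} (wo : IsWellOrder J r) (hseg : ∀ a, {b | r b a}.Countable)
    {y : J → Z} {n : ℕ} {κ : J → Set (Fin n → Z)} (hκ : ∀ K, IsClosed K → K ∈ range κ)
    (hy : ∀ a b, r b a → ∀ I (R : Fin n → Set Z), (∀ l, R l ∈ Cy ∨ ∃ c, r c a ∧ R l = {y c}) →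
      y a ∈ Sec (κ b) I R → ∃ z ∈ Sec (κ b) I R, L z (y a)) {Q : Set Z} (hQ : Q.Countable)
    (F : Finset (Fin n)) : ∀ W : Set (Fin n → Z), (∀ t ∈ W, ∀ l, t l ∈ Q ∪ range y) →
      (∀ t ∈ W, ∀ t' ∈ W, ∀ l ∉ F, t l = t' l) →
      ∃ D ⊆ W, D.Countable ∧ ∀ t ∈ W, ∃ d ∈ D, ∀ l, d l = t l ∨ L (d l) (t l) := by
  classical
  induction F using Finset.strongInduction with
  | H F ih =>
    intro W h1 h2
    obtain ⟨b, hb⟩ := hκ _ (isClosed_closure (s := W))
    obtain ⟨D, h3, h4, h5⟩ := (TopologicalSpace.IsSeparable.of_separableSpace W).exists_countable_dense_subset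
    have h6 : ∀ (l : F) (q : Z), _ := fun l q => ih (F.erase l) (Finset.erase_ssubset l.2)
      {t ∈ W | t l = q} (fun t ht => h1 t ht.1) fun t ht t' ht' m hm => by
        by_cases h6 : m = l
        · rw [h6, ht.2, ht'.2]
        · exact h2 t ht.1 t' ht'.1 m fun h => hm (Finset.mem_erase.2 ⟨h6, h⟩)
    choose E h7 h8 h9 using h6
    have hc : (Q ∪ y '' insert b {c | r c b}).Countable := hQ.union (((hseg b).insert b).image y)
    refine ⟨D ∪ ⋃ l, ⋃ q ∈ Q ∪ y '' insert b {c | r c b}, E l q, union_subset h3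
      (iUnion_subset fun l => iUnion₂_subset fun q _ => (h7 l q).trans (sep_subset _ _)),
      h4.union (countable_iUnion fun l => hc.biUnion fun q _ => h8 l q), fun t ht => ?_⟩
    by_cases h10 : ∃ l : F, t l ∈ Q ∪ y '' insert b {c | r c b}
    · obtain ⟨l, hl⟩ := h10
      obtain ⟨d, hd, h11⟩ := h9 l (t l) t ⟨ht, rfl⟩
      exact ⟨d, Or.inr (mem_iUnion.2 ⟨l, mem_iUnion₂.2 ⟨_, hl, hd⟩⟩), h11⟩
    have : ∀ l, ∃ a, l ∈ F → r b a ∧ t l = y a := fun l => by
      by_cases hl : l ∈ F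
      · rcases h1 t ht l with h | ⟨a, h⟩
        · exact absurd ⟨⟨l, hl⟩, Or.inl h⟩ h10
        · refine ⟨a, fun _ => ⟨?_, h.symm⟩⟩
          rcases trichotomous_of r b a with h' | h' | h'
          exacts [h', absurd ⟨⟨l, hl⟩, Or.inr ⟨a, Or.inl h'.symm, h⟩⟩ h10,
            absurd ⟨⟨l, hl⟩, Or.inr ⟨a, Or.inr h', h⟩⟩ h10]
      · exact ⟨b, fun h => absurd h hl⟩
    choose β hβ using this
    obtain ⟨k, hk, h11, -⟩ := down wo (fun a => hy a b) β F (fun l hl => (hβ l hl).1)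
      (fun _ => {u | ∀ j < 0, u j = true}) (fun _ => cy_mem 0 fun _ => true)
      ⟨t, hb ▸ subset_closure ht, fun l hl => (hβ l hl).2, fun l _ j hj => absurd hj (Nat.not_lt_zero _)⟩
    obtain ⟨N, hN⟩ := ((F.eventually_all).2 fun l hl => (h11 l hl).op).exists
    have h12 : k ∈ closure D := closure_minimal h5 isClosed_closure (hb ▸ hk)
    obtain ⟨d, h13, h14⟩ := mem_closure_iff.1 h12 (univ.pi fun l => (Iio N).pi fun j => {k l j})
      (isOpen_set_pi finite_univ fun l _ => isOpen_set_pi (finite_Iio N) fun _ _ => isOpen_discrete _)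
      fun _ _ _ _ => rfl
    refine ⟨d, Or.inl h14, fun l => ?_⟩
    by_cases hl : l ∈ F
    · exact Or.inr ((hβ l hl).2 ▸ hN l hl _ _ (h13 l trivial) fun _ _ => rfl)
    · exact Or.inl (h2 d (h3 h14) t ht l hl)

lemma kap (n : ℕ) : ∃ κ : J → Set (Fin n → Z), ∀ K, IsClosed K → K ∈ range κ := by
  obtain ⟨f⟩ : Nonempty ({O : Set (Fin n → Z) // IsOpen O} ↪ J) := by
    rw [← Cardinal.le_def]
    exact (card_open _).trans (by simp)
  haveI : Nonempty {O : Set (Fin n → Z) // IsOpen O} := ⟨⟨∅, isOpen_empty⟩⟩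
  refine ⟨fun j => (invFun f j).1ᶜ, fun K hK => ⟨f ⟨Kᶜ, hK.isOpen_compl⟩, ?_⟩⟩
  simp only [leftInverse_invFun f.injective _, compl_compl]

open Classical in
noncomputable def ψ (x : J → Set ℕ) (p : J ⊕ Finset ℕ) : ℕ ⊕ J → Bool :=
  Sum.elim (ch (pr x p)) fun b => decide (ch (x b) = ch (pr x p) ∨ L (ch (x b)) (ch (pr x p)))

lemma nbS {x : J → Set ℕ} {O : Set (ℕ ⊕ J → Bool)} (hO : IsOpen O) {t : J ⊕ Finset ℕ}
    (ht : ψ x t ∈ O) : ∀ᶠ N in atTop, ∀ p, (∀ j < N, ch (pr x p) j = ch (pr x t) j) →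
      ((ch (pr x t) = ch (pr x p) ∨ L (ch (pr x t)) (ch (pr x p))) ∨
        ∀ b, ch (x b) ≠ ch (pr x t)) → ψ x p ∈ O := by
  obtain ⟨D, hD, h1⟩ := Shd.cyl hO ht
  have : ∀ j, ∀ᶠ N in atTop, ∀ p, (∀ j < N, ch (pr x p) j = ch (pr x t) j) →
      ((ch (pr x t) = ch (pr x p) ∨ L (ch (pr x t)) (ch (pr x p))) ∨
        ∀ b, ch (x b) ≠ ch (pr x t)) → ψ x p j = ψ x t j := by
    rintro (i | b)
    · filter_upwards [eventually_gt_atTop i] with N hN p hp _ using hp i hN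
    simp only [ψ, Sum.elim_inr, decide_eq_decide]
    by_cases h2 : ch (x b) = ch (pr x t)
    · exact Eventually.of_forall fun N p _ h3 =>
        iff_of_true (h2 ▸ h3.resolve_right fun h => h b h2) (Or.inl h2)
    rcases L.tot h2 with h3 | h3
    · filter_upwards [h3.op] with N hN p hp _
      exact iff_of_true (Or.inr (hN _ _ (fun _ _ => rfl) hp)) (Or.inr h3)
    · filter_upwards [h3.op] with N hN p hp _
      have h4 := hN _ _ hp fun _ _ => rfl
      exact iff_of_false (fun h => h.elim h4.ne.symm h4.asymm) fun h => h.elim h2 h3.asymm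
  filter_upwards [(eventually_all_finite hD).2 fun j _ => this j] with N hN p hp h2
  exact h1 _ fun j hj => hN j hj p hp h2

end Pool.Agent.H8.Sorg
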