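import Mathlib

open Set Filter Topology Pointwise

namespace Pool.Agent.H8.Torus

/-- van Dantzig type lemma. -/
theorem exists_component {G : Type*} [Group G] [TopologicalSpace G] [IsTopologicalGroup G]
    [T2Space G] (φ : G → ℝ) (hc : Continuous φ) (h0 : ∀ g, 0 ≤ φ g)
    (hpow : ∀ g (n : ℕ), φ (g ^ n) = n * φ g) (hmul : ∀ g h, φ (g * h) ≤ φ g + φ h)
    (hK : IsCompact {g | φ g ≤ 1}) (hsmall : ∀ ε > 0, ∃ g, 0 < φ g ∧ φ g < ε) :
    ∃ g ∈ connectedComponent (1 : G), φ g ≠ 0 := by
  by_contra hcon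
  push Not at hcon
  have h1 : φ 1 = 0 := by simpa using hpow 1 0
  set C := {g | φ g ≤ 1} with hC
  haveI : CompactSpace C := isCompact_iff_compactSpace.1 hK
  have h1C : (1 : G) ∈ C := by simp [hC, h1]
  have hcomp : ∀ x ∈ connectedComponent (⟨1, h1C⟩ : C), φ x = 0 := fun x hx =>
    hcon _ (continuous_subtype_val.image_connectedComponent_subset _ ⟨x, hx, rfl⟩)
  have hD : IsCompact {x : C | 1 / 2 ≤ φ x} :=
    (isClosed_le continuous_const (hc.comp continuous_subtype_val)).isCompact
  obtain ⟨t, ht⟩ := hD.elim_finite_subfamily_closed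
    (fun s : {s : Set C // IsClopen s ∧ (⟨1, h1C⟩ : C) ∈ s} => (s : Set C)) (fun s => s.2.1.1) (by
      rw [← connectedComponent_eq_iInter_isClopen]
      refine Set.disjoint_iff_inter_eq_empty.1 (Set.disjoint_left.2 fun x hx hx' => ?_)
      have := hcomp x hx'
      simp only [mem_setOf_eq] at hx
      linarith)
  set U' : Set C := ⋂ s ∈ t, (s : Set C) with hU'
  have hU'c : IsClopen U' := isClopen_biInter_finset fun s _ => s.2.1
  have hU'1 : (⟨1, h1C⟩ : C) ∈ U' := by
    simp only [hU', mem_iInter]; exact fun s _ => s.2.2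
  have hU'lt : ∀ x ∈ U', φ x < 1 / 2 := by
    intro x hx
    by_contra h
    push Not at h
    exact Set.disjoint_left.1 (Set.disjoint_iff_inter_eq_empty.2 ht) h hx
  set U : Set G := Subtype.val '' U' with hU
  have hUc : IsCompact U := hU'c.1.isCompact.image continuous_subtype_val
  have hUo : IsOpen U := by
    obtain ⟨O, hO, hOe⟩ := isOpen_induced_iff.1 hU'c.2
    have : U = O ∩ {g | φ g < 1} := by
      ext g
      constructor
      · rintro ⟨x, hx, rfl⟩
        refine ⟨?_, ?_⟩
        · rw [← hOe] at hx; exact hx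
        · have := hU'lt x hx
          simp only [mem_setOf_eq]; linarith
      · rintro ⟨hg, hg'⟩
        refine ⟨⟨g, (le_of_lt hg' : φ g ≤ 1)⟩, ?_, rfl⟩
        rw [← hOe]; exact hg
    rw [this]
    exact hO.inter (isOpen_lt hc continuous_const)
  obtain ⟨W, hW, hUW⟩ := compact_open_separated_mul_right hUc hUo subset_rfl
  have hW0 : ∀ w ∈ W, φ w = 0 := by
    intro w hw
    have hn : ∀ n : ℕ, w ^ n ∈ U := by
      intro n
      induction n with
      | zero => exact ⟨_, hU'1, by simp⟩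
      | succ k ih => rw [pow_succ]; exact hUW (mul_mem_mul ih hw)
    by_contra hne
    have hp : 0 < φ w := lt_of_le_of_ne (h0 w) (Ne.symm hne)
    obtain ⟨n, hn'⟩ := exists_nat_gt (1 / φ w)
    obtain ⟨x, hx, hxe⟩ := hn n
    have := hU'lt x hx
    rw [hxe, hpow] at this
    rw [div_lt_iff₀ hp] at hn'
    linarith
  have hZ : IsOpen {g | φ g = 0} := by
    rw [isOpen_iff_mem_nhds]
    intro g hg
    have : (fun x => g⁻¹ * x) ⁻¹' W ∈ 𝓝 g :=
      (continuous_const.mul continuous_id).continuousAt.preimage_mem_nhds (by simpa using hW)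
    filter_upwards [this] with x hx
    have h2 := hmul g (g⁻¹ * x)
    rw [mul_inv_cancel_left, hW0 _ hx, show φ g = 0 from hg] at h2
    exact le_antisymm (by simpa using h2) (h0 x)
  have hD2 : IsCompact (C \ {g | φ g = 0}) := hK.diff hZ
  rcases (C \ {g | φ g = 0}).eq_empty_or_nonempty with he | hne
  · obtain ⟨g, hg, hg'⟩ := hsmall 1 one_pos
    have : g ∈ C \ {g | φ g = 0} := ⟨hg'.le, hg.ne'⟩
    rw [he] at this; exact this
  · obtain ⟨x, hx, hmin⟩ := hD2.exists_isMinOn hne hc.continuousOn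
    have hxp : 0 < φ x := lt_of_le_of_ne (h0 x) (Ne.symm hx.2)
    obtain ⟨g, hg, hg'⟩ := hsmall (φ x) hxp
    have : g ∈ C \ {g | φ g = 0} := ⟨hg'.le.trans hx.1, hg.ne'⟩
    exact absurd (hmin this) (not_le.2 hg')

/-- monomial character -/
noncomputable def chi {ι : Type*} (B : Subgroup (ι → ℂˣ)) (m : ι →₀ ℕ) : B →* ℂ where
  toFun w := m.prod fun i e => ((w : ι → ℂˣ) i : ℂ) ^ e
  map_one' := by simp
  map_mul' a b := by simp [mul_pow, Finsupp.prod_mul]

/-- Dedekind: a polynomial vanishing on a subgroup vanishes at every point satisfying the monomial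
relations of the subgroup. -/
theorem dedekind {ι : Type*} (B : Subgroup (ι → ℂˣ)) (f : MvPolynomial ι ℂ)
    (hf : ∀ w ∈ B, MvPolynomial.eval (fun i => (w i : ℂ)) f = 0) (x : ι → ℂ)
    (hx : ∀ m m' : ι →₀ ℕ, chi B m = chi B m' →
      (m.prod fun i e => x i ^ e) = m'.prod fun i e => x i ^ e) :
    MvPolynomial.eval x f = 0 := by
  classical
  set c : (ι →₀ ℕ) →₀ ℂ := Finsupp.onFinset f.support (fun m => f.coeff m)
    (fun m hm => MvPolynomial.mem_support_iff.2 hm) with hc
  have hev : ∀ y : ι → ℂ, MvPolynomial.eval y f =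
      Finsupp.linearCombination ℂ (fun m : ι →₀ ℕ => m.prod fun i e => y i ^ e) c := by
    intro y
    rw [MvPolynomial.eval_eq, hc, Finsupp.linearCombination_onFinset]
    rfl
  have h1 : Finsupp.mapDomain (chi B) c = 0 := by
    apply linearIndependent_iff.1 (linearIndependent_monoidHom B ℂ)
    rw [Finsupp.linearCombination_mapDomain]
    funext w
    have := hf w w.2
    rw [hev] at this
    rw [Finsupp.linearCombination_apply, Finsupp.sum, Finset.sum_apply] 
    rw [Finsupp.linearCombination_apply, Finsupp.sum] at this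
    exact this
  have hfac : Function.FactorsThrough (fun m : ι →₀ ℕ => m.prod fun i e => x i ^ e) (chi B) :=
    fun m m' h => hx m m' h
  have h2 := hfac.extend_comp (fun _ => (0 : ℂ))
  rw [hev, ← h2, ← Finsupp.linearCombination_mapDomain, h1, map_zero]

theorem small_comb (a b : ℝ) (ε : ℝ) (hε : 0 < ε) :
    ∃ (q : ℕ) (m n : ℤ), 0 < q ∧ |q * a - m| < ε ∧ |q * b - n| < ε := by
  have h := mapClusterPt_zero_atTop_nsmul (((a : UnitAddCircle), (b : UnitAddCircle)))
  have h2 := (h.frequently (Metric.ball_mem_nhds 0 hε)).and_eventually (eventually_gt_atTop 0)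
  obtain ⟨q, hq, hq0⟩ := h2.exists
  simp only [Metric.mem_ball, dist_zero_right, Prod.norm_def, max_lt_iff, Prod.smul_mk,
    ← AddCircle.coe_nsmul, UnitAddCircle.norm_eq, nsmul_eq_mul] at hq
  exact ⟨q, _, _, hq0, hq.1, hq.2⟩

end Pool.Agent.H8.Torus
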