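import Mathlib

open Set Filter Topology Polynomial

namespace Pool.Agent.H8.Torus

noncomputable def fZ : ℤ[X] := X ^ 6 + 4 * X ^ 4 + 2 * X ^ 2 - 2

theorem fZ_natDegree : fZ.natDegree = 6 := by unfold fZ; compute_degree!

theorem fZ_monic : fZ.Monic := by unfold fZ; monicity!

theorem fZ_irred : Irreducible fZ := by
  have hp : (Ideal.span {(2 : ℤ)}).IsPrime :=
    (Ideal.span_singleton_prime (by norm_num)).2 Int.prime_two
  refine IsEisensteinAt.irreducible ⟨?_, ?_, ?_⟩ hp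
    fZ_monic.isPrimitive (by rw [fZ_natDegree]; norm_num)
  · rw [fZ_monic.leadingCoeff, Ideal.mem_span_singleton]; norm_num
  · intro n hn
    rw [fZ_natDegree] at hn
    rw [Ideal.mem_span_singleton]
    have : fZ = X ^ 6 + C 2 * (2 * X ^ 4 + X ^ 2 - 1) := by
      unfold fZ; simp only [eq_intCast, Int.cast_ofNat]; ring
    rw [this, coeff_add, coeff_X_pow, if_neg hn.ne, zero_add, coeff_C_mul]
    exact dvd_mul_right _ _
  · rw [Ideal.span_singleton_pow, Ideal.mem_span_singleton]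
    have : fZ.coeff 0 = -2 := by simp [fZ]
    rw [this]; norm_num

theorem aeval_fZ {A : Type*} [CommRing A] (x : A) :
    aeval x fZ = x ^ 6 + 4 * x ^ 4 + 2 * x ^ 2 - 2 := by
  simp [fZ, map_ofNat]

theorem minpoly_eq {A : Type*} [Field A] [Algebra ℚ A] (x : A)
    (hx : x ^ 6 + 4 * x ^ 4 + 2 * x ^ 2 - 2 = 0) : minpoly ℚ x = fZ.map (algebraMap ℤ ℚ) := by
  symm
  refine minpoly.eq_of_irreducible_of_monic
    ((fZ_monic.irreducible_iff_irreducible_map_fraction_map).1 fZ_irred) ?_ (fZ_monic.map _)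
  rw [aeval_map_algebraMap, aeval_fZ, hx]

theorem transfer {A : Type*} [Field A] [Algebra ℚ A] (x : A)
    (hx : x ^ 6 + 4 * x ^ 4 + 2 * x ^ 2 - 2 = 0) (P : ℤ[X]) (hP : aeval x P = 0)
    {F : Type*} [CommRing F] (r : F) (hr : r ^ 6 + 4 * r ^ 4 + 2 * r ^ 2 - 2 = 0) :
    aeval r P = 0 := by
  have h1 : minpoly ℚ x ∣ P.map (algebraMap ℤ ℚ) :=
    minpoly.dvd ℚ x (by rw [aeval_map_algebraMap, hP])
  rw [minpoly_eq x hx, Polynomial.map_dvd_map _ (algebraMap ℤ ℚ).injective_int fZ_monic] at h1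
  obtain ⟨Q, rfl⟩ := h1
  rw [map_mul, aeval_fZ, hr, zero_mul]

/-- the three logarithms -/
noncomputable def lg (s : ℝ) (n : ℕ) : ℝ := Real.log ((n + s) / (n - s))

theorem fact5 : Fact (Nat.Prime 5) := ⟨by norm_num⟩
theorem fact67 : Fact (Nat.Prime 67) := ⟨by norm_num⟩
theorem fact1069 : Fact (Nat.Prime 1069) := ⟨by norm_num⟩

attribute [local instance] fact5 fact67 fact1069 in
theorem indep_int {s : ℝ} (h0 : 0 < s) (h1 : s < 1)
    (hs : s ^ 6 + 4 * s ^ 4 + 2 * s ^ 2 - 2 = 0) (m1 m2 m3 : ℤ)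
    (h : m1 * lg s 1 + m2 * lg s 2 + m3 * lg s 3 = 0) : m1 = 0 ∧ m2 = 0 ∧ m3 = 0 := by
  obtain ⟨a1, b1, e1, z1⟩ : ∃ a b : ℕ, m1 = a - b ∧ (a = 0 ∨ b = 0) :=
    ⟨m1.toNat, (-m1).toNat, by omega, by omega⟩
  obtain ⟨a2, b2, e2, z2⟩ : ∃ a b : ℕ, m2 = a - b ∧ (a = 0 ∨ b = 0) :=
    ⟨m2.toNat, (-m2).toNat, by omega, by omega⟩
  obtain ⟨a3, b3, e3, z3⟩ : ∃ a b : ℕ, m3 = a - b ∧ (a = 0 ∨ b = 0) :=
    ⟨m3.toNat, (-m3).toNat, by omega, by omega⟩
  have p1 : 0 < 1 + s := by linarith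
  have p2 : 0 < 2 + s := by linarith
  have p3 : 0 < 3 + s := by linarith
  have q1 : 0 < 1 - s := by linarith
  have q2 : 0 < 2 - s := by linarith
  have q3 : 0 < 3 - s := by linarith
  have key : (1 + s) ^ a1 * (1 - s) ^ b1 * ((2 + s) ^ a2 * (2 - s) ^ b2) *
      ((3 + s) ^ a3 * (3 - s) ^ b3) = (1 - s) ^ a1 * (1 + s) ^ b1 * ((2 - s) ^ a2 * (2 + s) ^ b2) *
      ((3 - s) ^ a3 * (3 + s) ^ b3) := by
    apply Real.log_injOn_pos (mem_Ioi.2 (by positivity)) (mem_Ioi.2 (by positivity))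
    simp only [lg, e1, e2, e3] at h
    push_cast at h
    rw [Real.log_div p1.ne' q1.ne', Real.log_div p2.ne' q2.ne', Real.log_div p3.ne' q3.ne'] at h
    simp (disch := positivity) only [Real.log_mul, Real.log_pow]
    linarith
  have tr : ∀ {F : Type} [CommRing F] (r : F), r ^ 6 + 4 * r ^ 4 + 2 * r ^ 2 - 2 = 0 →
      (1 + r) ^ a1 * (1 - r) ^ b1 * ((2 + r) ^ a2 * (2 - r) ^ b2) *
      ((3 + r) ^ a3 * (3 - r) ^ b3) = (1 - r) ^ a1 * (1 + r) ^ b1 * ((2 - r) ^ a2 * (2 + r) ^ b2) *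
      ((3 - r) ^ a3 * (3 + r) ^ b3) := by
    intro F _ r hr
    have := transfer s hs ((1 + X) ^ a1 * (1 - X) ^ b1 * ((2 + X) ^ a2 * (2 - X) ^ b2) *
      ((3 + X) ^ a3 * (3 - X) ^ b3) - (1 - X) ^ a1 * (1 + X) ^ b1 * ((2 - X) ^ a2 * (2 + X) ^ b2) *
      ((3 - X) ^ a3 * (3 + X) ^ b3)) (by simp [map_ofNat, key]) r hr
    simpa [map_ofNat, sub_eq_zero] using this
  have aux : ∀ {F : Type} [Field F] (a b : ℕ) (x y u v : F), (a = 0 ∨ b = 0) → x ≠ 0 → u ≠ 0 →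
      v ≠ 0 → y = 0 → x ^ a * y ^ b * u = y ^ a * x ^ b * v → a = 0 ∧ b = 0 := by
    intro F _ a b x y u v hab hx hu hv hy he
    subst hy
    rcases hab with rfl | rfl
    · by_contra hb
      have hb' : b ≠ 0 := by simpa using hb
      simp [hb', hx, hv] at he
    · by_contra hb
      have hb' : a ≠ 0 := by simpa using hb
      simp [hb', hx, hu] at he
  have r1 := aux a1 b1 (1 + 1 : ZMod 5) (1 - 1) (((2 + 1) ^ a2 * (2 - 1) ^ b2) *
      ((3 + 1) ^ a3 * (3 - 1) ^ b3)) (((2 - 1) ^ a2 * (2 + 1) ^ b2) *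
      ((3 - 1) ^ a3 * (3 + 1) ^ b3)) z1 (by decide +kernel)
      (by refine mul_ne_zero (mul_ne_zero ?_ ?_) (mul_ne_zero ?_ ?_) <;>
        exact pow_ne_zero _ (by decide +kernel))
      (by refine mul_ne_zero (mul_ne_zero ?_ ?_) (mul_ne_zero ?_ ?_) <;>
        exact pow_ne_zero _ (by decide +kernel)) (by simp)
      (by linear_combination tr (1 : ZMod 5) (by decide +kernel))
  have r2 := aux a2 b2 (2 + 2 : ZMod 67) (2 - 2) (((1 + 2) ^ a1 * (1 - 2) ^ b1) *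
      ((3 + 2) ^ a3 * (3 - 2) ^ b3)) (((1 - 2) ^ a1 * (1 + 2) ^ b1) *
      ((3 - 2) ^ a3 * (3 + 2) ^ b3)) z2 (by decide +kernel)
      (by refine mul_ne_zero (mul_ne_zero ?_ ?_) (mul_ne_zero ?_ ?_) <;>
        exact pow_ne_zero _ (by decide +kernel))
      (by refine mul_ne_zero (mul_ne_zero ?_ ?_) (mul_ne_zero ?_ ?_) <;>
        exact pow_ne_zero _ (by decide +kernel)) (by simp)
      (by linear_combination tr (2 : ZMod 67) (by decide +kernel))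
  have r3 := aux a3 b3 (3 + 3 : ZMod 1069) (3 - 3) (((1 + 3) ^ a1 * (1 - 3) ^ b1) *
      ((2 + 3) ^ a2 * (2 - 3) ^ b2)) (((1 - 3) ^ a1 * (1 + 3) ^ b1) *
      ((2 - 3) ^ a2 * (2 + 3) ^ b2)) z3 (by decide +kernel)
      (by refine mul_ne_zero (mul_ne_zero ?_ ?_) (mul_ne_zero ?_ ?_) <;>
        exact pow_ne_zero _ (by decide +kernel))
      (by refine mul_ne_zero (mul_ne_zero ?_ ?_) (mul_ne_zero ?_ ?_) <;>
        exact pow_ne_zero _ (by decide +kernel)) (by simp)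
      (by linear_combination tr (3 : ZMod 1069) (by decide +kernel))
  omega

theorem indep_rat {s : ℝ} (h0 : 0 < s) (h1 : s < 1)
    (hs : s ^ 6 + 4 * s ^ 4 + 2 * s ^ 2 - 2 = 0) (m1 m2 m3 : ℚ)
    (h : m1 * lg s 1 + m2 * lg s 2 + m3 * lg s 3 = 0) : m1 = 0 ∧ m2 = 0 ∧ m3 = 0 := by
  have d1 : (m1.den : ℝ) ≠ 0 := by exact_mod_cast m1.den_nz
  have d2 : (m2.den : ℝ) ≠ 0 := by exact_mod_cast m2.den_nz
  have d3 : (m3.den : ℝ) ≠ 0 := by exact_mod_cast m3.den_nz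
  have := indep_int h0 h1 hs (m1.num * m2.den * m3.den) (m2.num * m1.den * m3.den)
    (m3.num * m1.den * m2.den) (by
      rw [Rat.cast_def m1, Rat.cast_def m2, Rat.cast_def m3] at h
      field_simp at h
      push_cast
      linear_combination h)
  simpa [m1.den_nz, m2.den_nz, m3.den_nz] using this

theorem exists_roots : ∃ s : ℝ, ∃ S : Fin 3 → ℂ, 0 < s ∧ s < 1 ∧
    s ^ 6 + 4 * s ^ 4 + 2 * s ^ 2 - 2 = 0 ∧
    (∀ j, S j ^ 6 + 4 * S j ^ 4 + 2 * S j ^ 2 - 2 = 0) ∧ (∀ i j, S i ^ 2 = S j ^ 2 → i = j) ∧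
    ∀ r : ℂ, r ^ 6 + 4 * r ^ 4 + 2 * r ^ 2 - 2 = 0 → r = s ∨ r = -s ∨ r.re = 0 := by
  have hc : Continuous (fun x : ℝ => x ^ 3 + 4 * x ^ 2 + 2 * x - 2) := by fun_prop
  obtain ⟨θ, ⟨hθ1, hθ2⟩, hθ⟩ := intermediate_value_Icc (show (2 / 5 : ℝ) ≤ 1 / 2 by norm_num)
    hc.continuousOn (show (0 : ℝ) ∈ _ from ⟨by norm_num, by norm_num⟩)
  simp only at hθ
  set D := 8 - 8 * θ - 3 * θ ^ 2 with hD
  have hD0 : 0 < D := by nlinarith
  have hD1 : D < 9 := by nlinarith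
  set d := Real.sqrt D with hd
  have hd2 : d ^ 2 = D := Real.sq_sqrt hD0.le
  have hd0 : 0 < d := Real.sqrt_pos.2 hD0
  have hd3 : d < 3 := by nlinarith
  set s := Real.sqrt θ with hs
  have hs2 : s ^ 2 = θ := Real.sq_sqrt (by linarith)
  have hs0 : 0 < s := Real.sqrt_pos.2 (by linarith)
  set u := Real.sqrt ((4 + θ - d) / 2) with hu
  have hu2 : u ^ 2 = (4 + θ - d) / 2 := Real.sq_sqrt (by linarith)
  set v := Real.sqrt ((4 + θ + d) / 2) with hv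
  have hv2 : v ^ 2 = (4 + θ + d) / 2 := Real.sq_sqrt (by linarith)
  have fac : ∀ r : ℂ, r ^ 6 + 4 * r ^ 4 + 2 * r ^ 2 - 2 =
      (r ^ 2 - s ^ 2) * (r ^ 2 + u ^ 2) * (r ^ 2 + v ^ 2) := by
    intro r
    have c1 : ((s : ℂ)) ^ 2 = θ := by exact_mod_cast hs2
    have c2 : ((u : ℂ)) ^ 2 = (4 + θ - d) / 2 := by exact_mod_cast hu2
    have c3 : ((v : ℂ)) ^ 2 = (4 + θ + d) / 2 := by exact_mod_cast hv2
    have c4 : ((d : ℂ)) ^ 2 = 8 - 8 * θ - 3 * θ ^ 2 := by exact_mod_cast hd2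
    have c5 : (θ : ℂ) ^ 3 + 4 * θ ^ 2 + 2 * θ - 2 = 0 := by exact_mod_cast hθ
    rw [c1, c2, c3]
    linear_combination (r ^ 2 - θ) / 4 * c4 + c5
  refine ⟨s, ![s, u * Complex.I, v * Complex.I], hs0, by nlinarith, ?_, ?_, ?_, ?_⟩
  · have : s ^ 6 + 4 * s ^ 4 + 2 * s ^ 2 - 2 = (s ^ 2) ^ 3 + 4 * (s ^ 2) ^ 2 + 2 * s ^ 2 - 2 := by
      ring
    rw [this, hs2, hθ]
  · intro j
    rw [fac]
    fin_cases j <;> simp [mul_pow]
  · have e0 : (s : ℂ) ^ 2 = ((θ : ℝ) : ℂ) := by exact_mod_cast hs2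
    have e1 : (u * Complex.I) ^ 2 = ((-((4 + θ - d) / 2) : ℝ) : ℂ) := by
      rw [← hu2, mul_pow, Complex.I_sq]; push_cast; ring
    have e2 : (v * Complex.I) ^ 2 = ((-((4 + θ + d) / 2) : ℝ) : ℂ) := by
      rw [← hv2, mul_pow, Complex.I_sq]; push_cast; ring
    intro i j h
    fin_cases i <;> fin_cases j <;>
      simp only [Fin.zero_eta, Fin.mk_one, Fin.reduceFinMk, Matrix.cons_val, e0, e1, e2,
        Complex.ofReal_inj] at h ⊢ <;> first | rfl | (exfalso; linarith)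
  · intro r hr
    rw [fac] at hr
    have im : ∀ t : ℝ, r ^ 2 + t ^ 2 = 0 → r.re = 0 := by
      intro t ht
      have : (r - t * Complex.I) * (r + t * Complex.I) = 0 := by
        linear_combination ht - t ^ 2 * Complex.I_sq
      rcases mul_eq_zero.1 this with h | h
      · have := congrArg Complex.re h; simpa using this
      · have := congrArg Complex.re h; simpa using this
    rcases mul_eq_zero.1 hr with h | h
    · rcases mul_eq_zero.1 h with h | h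
      · have : (r - s) * (r + s) = 0 := by linear_combination h
        rcases mul_eq_zero.1 this with h | h
        · left; linear_combination h
        · right; left; linear_combination h
      · exact Or.inr (Or.inr (im _ h))
    · exact Or.inr (Or.inr (im _ h))

end Pool.Agent.H8.Torus
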