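import Mathlib

open Metric Set Filter Topology

namespace Pool.Agent.H8.UZ

def Small (ψ : ℝ → ℝ) (ε : ℝ) : Prop := ∃ ψ1 ψ2 : ℝ → ℝ, ∀ y, HasDerivAt ψ (ψ1 y) y ∧
  HasDerivAt ψ1 (ψ2 y) y ∧ |ψ y| ≤ ε ∧ |ψ1 y| ≤ ε ∧ |ψ2 y| ≤ ε

theorem Small.add {f g : ℝ → ℝ} {a b : ℝ} (hf : Small f a) (hg : Small g b) :
    Small (fun y => f y + g y) (a + b) := by
  obtain ⟨f1, f2, hf⟩ := hf
  obtain ⟨g1, g2, hg⟩ := hg
  refine ⟨fun y => f1 y + g1 y, fun y => f2 y + g2 y, fun y => ?_⟩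
  obtain ⟨a1, a2, a3, a4, a5⟩ := hf y
  obtain ⟨b1, b2, b3, b4, b5⟩ := hg y
  exact ⟨a1.add b1, a2.add b2, (abs_add_le _ _).trans (add_le_add a3 b3),
    (abs_add_le _ _).trans (add_le_add a4 b4), (abs_add_le _ _).trans (add_le_add a5 b5)⟩

theorem Small.mono {f : ℝ → ℝ} {a b : ℝ} (hf : Small f a) (h : a ≤ b) : Small f b := by
  obtain ⟨f1, f2, hf⟩ := hf
  exact ⟨f1, f2, fun y => ⟨(hf y).1, (hf y).2.1, (hf y).2.2.1.trans h, (hf y).2.2.2.1.trans h,
    (hf y).2.2.2.2.trans h⟩⟩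

theorem Small.scale {w : ℝ → ℝ} {C : ℝ} (hw : Small w C) {a η ρ : ℝ} (c : ℝ) (ha : |a| ≤ η)
    (h0 : 0 < ρ) (h1 : ρ ≤ 1) : Small (fun y => a * ρ ^ 2 * w ((y - c) / ρ)) (η * C) := by
  obtain ⟨w1, w2, hw⟩ := hw
  refine ⟨fun y => a * ρ * w1 ((y - c) / ρ), fun y => a * w2 ((y - c) / ρ), fun y => ?_⟩
  obtain ⟨a1, a2, a3, a4, a5⟩ := hw ((y - c) / ρ)
  have d : HasDerivAt (fun y => (y - c) / ρ) (1 / ρ) y := ((hasDerivAt_id y).sub_const c).div_const ρ
  have hη : 0 ≤ η := (abs_nonneg _).trans ha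
  refine ⟨((a1.comp y d).const_mul _).congr_deriv (by field_simp),
    ((a2.comp y d).const_mul _).congr_deriv (by field_simp), ?_, ?_, ?_⟩
  · rw [abs_mul, abs_mul, abs_of_pos (pow_pos h0 2)]
    refine mul_le_mul (le_trans (mul_le_of_le_one_right (abs_nonneg _) (pow_le_one₀ h0.le h1)) ha)
      a3 (abs_nonneg _) hη
  · rw [abs_mul, abs_mul, abs_of_pos h0]
    exact mul_le_mul (le_trans (mul_le_of_le_one_right (abs_nonneg _) h1) ha) a4 (abs_nonneg _) hη
  · rw [abs_mul]; exact mul_le_mul ha a5 (abs_nonneg _) hη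

theorem small_of {w : ℝ → ℝ} (hw : ContDiff ℝ 2 w) (hs : HasCompactSupport w) :
    ∃ C, 0 ≤ C ∧ Small w C := by
  have h1 : ContDiff ℝ 1 (deriv w) := hw.deriv' (n := 1)
  obtain ⟨C0, h0⟩ := hw.continuous.bounded_above_of_compact_support hs
  obtain ⟨C1, h2⟩ := h1.continuous.bounded_above_of_compact_support hs.deriv
  obtain ⟨C2, h3⟩ := (h1.continuous_deriv le_rfl).bounded_above_of_compact_support hs.deriv.deriv
  have p0 : 0 ≤ C0 := (norm_nonneg _).trans (h0 0)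
  have p1 : 0 ≤ C1 := (norm_nonneg _).trans (h2 0)
  have p2 : 0 ≤ C2 := (norm_nonneg _).trans (h3 0)
  refine ⟨C0 + C1 + C2, by positivity, deriv w, deriv (deriv w), fun y =>
    ⟨(hw.differentiable (by norm_num) y).hasDerivAt, (h1.differentiable (by norm_num) y).hasDerivAt,
      ?_, ?_, ?_⟩⟩
  · have := h0 y; rw [Real.norm_eq_abs] at this; linarith
  · have := h2 y; rw [Real.norm_eq_abs] at this; linarith
  · have := h3 y; rw [Real.norm_eq_abs] at this; linarith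

theorem bump : ∃ C, 0 < C ∧ ∀ c ρ η α β γ : ℝ, 0 < ρ → ρ ≤ 1 → |α| ≤ η * ρ ^ 2 → |β| ≤ η * ρ →
    |γ| ≤ η → ∃ ψ, Small ψ (η * C) ∧ (∀ y, ρ ≤ |y - c| → ψ y = 0) ∧
      ∀ y, |y - c| ≤ ρ / 2 → ψ y = α + β * (y - c) + γ * (y - c) ^ 2 := by
  let φ : ContDiffBump (0:ℝ) := ⟨1 / 2, 1, by norm_num, by norm_num⟩
  have h : ∀ i : ℕ, ∃ C, 0 ≤ C ∧ Small (fun t => φ t * t ^ i) C := fun i =>
    small_of (φ.contDiff.mul (contDiff_id.pow i)) φ.hasCompactSupport.mul_right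
  obtain ⟨C0, p0, h0⟩ := h 0
  obtain ⟨C1, p1, h1⟩ := h 1
  obtain ⟨C2, p2, h2⟩ := h 2
  refine ⟨C0 + C1 + C2 + 1, by positivity, fun c ρ η α β γ r0 r1 ha hb hc => ?_⟩
  have ha' : |α / ρ ^ 2| ≤ η := by
    rw [abs_div, abs_of_pos (pow_pos r0 2), div_le_iff₀ (pow_pos r0 2)]; exact ha
  have hb' : |β / ρ| ≤ η := by rw [abs_div, abs_of_pos r0, div_le_iff₀ r0]; exact hb
  have hη : 0 ≤ η := (abs_nonneg _).trans hc
  refine ⟨_, (((h0.scale c ha' r0 r1).add (h1.scale c hb' r0 r1)).add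
    (h2.scale c hc r0 r1)).mono (by nlinarith), fun y hy => ?_, fun y hy => ?_⟩
  · have : φ ((y - c) / ρ) = 0 := φ.zero_of_le_dist (by
      rw [Real.dist_eq, sub_zero, abs_div, abs_of_pos r0, le_div_iff₀ r0]; simpa [φ] using hy)
    simp [this]
  · have : φ ((y - c) / ρ) = 1 := φ.one_of_mem_closedBall (by
      rw [mem_closedBall, Real.dist_eq, sub_zero, abs_div, abs_of_pos r0, div_le_iff₀ r0]
      simp only [φ]; linarith)
    simp only [this]
    field_simp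

theorem tree (g : ℝ → ℝ) (hg : Continuous g) (J : Set (ℝ × (ℝ → ℝ)))
    (hJ : ∀ j ∈ J, Continuous j.2 ∧ j.2 j.1 = g j.1) (j0 : ℝ × (ℝ → ℝ)) (hj0 : j0 ∈ J)
    (d1 : Differentiable ℝ j0.2) (d2 : Differentiable ℝ (deriv j0.2))
    (step : ∀ j ∈ J, ∀ r > 0, ∀ ε > 0, ∃ u ∈ J, ∃ v ∈ J, ∃ ψ, u.1 ≠ v.1 ∧ u.1 ∈ ball j.1 r ∧
      v.1 ∈ ball j.1 r ∧ Small ψ ε ∧ (∀ y, y ∉ ball j.1 r → ψ y = 0) ∧
      (∀ᶠ y in 𝓝 u.1, j.2 y + ψ y = u.2 y) ∧ (∀ᶠ y in 𝓝 v.1, j.2 y + ψ y = v.2 y)) :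
    ∃ f : ℝ → ℝ, Differentiable ℝ f ∧ Differentiable ℝ (deriv f) ∧
      ¬ Set.Countable {x : ℝ | f x = g x} := by
  classical
  let N := {p : (ℝ × (ℝ → ℝ)) × ℝ // p.1 ∈ J ∧ 0 < p.2}
  let cb : N → Set ℝ := fun n => closedBall n.1.1.1 n.1.2
  have step' : ∀ (n : N) (ε : ℝ), ∃ (c : Bool → N) (ψ : ℝ → ℝ), 0 < ε → (Small ψ ε ∧
      (∀ y, y ∉ cb n → ψ y = 0) ∧ (∀ b, cb (c b) ⊆ cb n) ∧ Disjoint (cb (c true)) (cb (c false)) ∧
      ∀ b, ∀ y ∈ cb (c b), n.1.1.2 y + ψ y = (c b).1.1.2 y ∧ |(c b).1.1.2 y - g y| ≤ ε) := by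
    intro n ε
    by_cases hε : 0 < ε
    swap
    · exact ⟨fun _ => n, 0, fun h => absurd h hε⟩
    obtain ⟨u, hu, v, hv, ψ, h1, h2, h3, h4, h5, h6, h7⟩ := step _ n.2.1 _ n.2.2 ε hε
    have key : ∀ w ∈ J, w.1 ∈ ball n.1.1.1 n.1.2 → (∀ᶠ y in 𝓝 w.1, n.1.1.2 y + ψ y = w.2 y) →
        ∃ r > 0, ∀ y ∈ closedBall w.1 r, y ∈ ball w.1 (dist u.1 v.1 / 2) ∧ y ∈ cb n ∧
          n.1.1.2 y + ψ y = w.2 y ∧ |w.2 y - g y| ≤ ε := by
      intro w hw a1 a2
      have a3 : ∀ᶠ y in 𝓝 w.1, |w.2 y - g y| ≤ ε := by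
        have : ContinuousAt (fun y => |w.2 y - g y|) w.1 :=
          ((hJ w hw).1.sub hg).abs.continuousAt
        exact this.eventually (ge_mem_nhds (by simp [(hJ w hw).2, hε]))
      have a4 : ∀ᶠ y in 𝓝 w.1, y ∈ ball w.1 (dist u.1 v.1 / 2) :=
        ball_mem_nhds _ (half_pos (dist_pos.2 h1))
      have a5 : ∀ᶠ y in 𝓝 w.1, y ∈ cb n :=
        mem_of_superset (isOpen_ball.mem_nhds a1) ball_subset_closedBall
      obtain ⟨r, hr, h⟩ := nhds_basis_closedBall.eventually_iff.1 (a4.and (a5.and (a2.and a3)))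
      exact ⟨r, hr, h⟩
    obtain ⟨r1, p1, q1⟩ := key u hu h2 h6
    obtain ⟨r2, p2, q2⟩ := key v hv h3 h7
    refine ⟨fun b => if b then ⟨(u, r1), hu, p1⟩ else ⟨(v, r2), hv, p2⟩, ψ, fun _ =>
      ⟨h4, fun y hy => h5 y fun h => hy (ball_subset_closedBall h), ?_, ?_, ?_⟩⟩
    · rintro (_ | _) y hy
      · exact (q2 y hy).2.1
      · exact (q1 y hy).2.1
    · rw [Set.disjoint_left]
      intro y hy1 hy2
      have b1 := (q1 y hy1).1
      have b2 := (q2 y hy2).1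
      rw [mem_ball] at b1 b2
      linarith [dist_triangle_left u.1 v.1 y]
    · rintro (_ | _) y hy
      · exact (q2 y hy).2.2
      · exact (q1 y hy).2.2
  choose C Ψ hC using step'
  set e : List Bool → ℝ := fun l => (1 / 2) ^ Encodable.encode l with he
  have he0 : ∀ l, 0 < e l := fun l => by positivity
  have hes : Summable e := summable_geometric_two.comp_injective Encodable.encode_injective
  let node : List Bool → N := fun l => List.rec ⟨(j0, 1), hj0, one_pos⟩ (fun b l n => C n (e l) b) l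
  have hn : ∀ b l, node (b :: l) = C (node l) (e l) b := fun _ _ => rfl
  set ψ : List Bool → ℝ → ℝ := fun l => Ψ (node l) (e l) with hψ
  have H := fun l => hC (node l) (e l) (he0 l)
  choose ψ1 ψ2 hψd using fun l => (H l).1
  have hdis : ∀ l l' : List Bool, l.length = l'.length → l ≠ l' →
      Disjoint (cb (node l)) (cb (node l')) := by
    intro l
    induction l with
    | nil => intro l' h h'; exact absurd (List.length_eq_zero_iff.1 h.symm).symm h'
    | cons b l ih =>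
      intro l' h h'
      cases l' with
      | nil => simp at h
      | cons b' l' =>
        rw [hn, hn]
        by_cases e1 : l = l'
        · subst e1
          have : b ≠ b' := fun h => h' (by rw [h])
          cases b <;> cases b'
          · exact absurd rfl this
          · exact (H l).2.2.2.1.symm
          · exact (H l).2.2.2.1
          · exact absurd rfl this
        · exact (ih l' (by simpa using h) e1).mono ((H l).2.2.1 b) ((H l').2.2.1 b')
  have hpt : ∀ b : ℕ → Bool, ∃ x, ∀ n, x ∈ cb (node (PiNat.res b n)) := by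
    intro b
    obtain ⟨x, hx⟩ := IsCompact.nonempty_iInter_of_sequence_nonempty_isCompact_isClosed
      (fun n => cb (node (PiNat.res b n))) (fun n => (H _).2.2.1 _)
      (fun n => ⟨_, mem_closedBall_self (node _).2.2.le⟩) (isCompact_closedBall _ _)
      (fun n => isClosed_closedBall)
    exact ⟨x, mem_iInter.1 hx⟩
  choose X hX using hpt
  have s0 : ∀ y, Summable fun l => ψ l y := fun y =>
    Summable.of_norm_bounded hes fun l => (hψd l y).2.2.1
  have s1 : ∀ y, Summable fun l => ψ1 l y := fun y =>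
    Summable.of_norm_bounded hes fun l => (hψd l y).2.2.2.1
  have D1 : ∀ y, HasDerivAt (fun y => ∑' l, ψ l y) (∑' l, ψ1 l y) y := fun y =>
    hasDerivAt_tsum hes (fun l y => (hψd l y).1) (fun l y => (hψd l y).2.2.2.1) (s0 0) y
  have D2 : ∀ y, HasDerivAt (fun y => ∑' l, ψ1 l y) (∑' l, ψ2 l y) y := fun y =>
    hasDerivAt_tsum hes (fun l y => (hψd l y).2.1) (fun l y => (hψd l y).2.2.2.2) (s1 0) y
  refine ⟨fun y => j0.2 y + ∑' l, ψ l y, fun y => (d1 y).add (D1 y).differentiableAt, ?_, ?_⟩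
  · have : deriv (fun y => j0.2 y + ∑' l, ψ l y) = fun y => deriv j0.2 y + ∑' l, ψ1 l y :=
      funext fun y => ((d1 y).hasDerivAt.add (D1 y)).deriv
    rw [this]
    exact fun y => (d2 y).add (D2 y).differentiableAt
  intro hc
  have hinj : Function.Injective X := by
    intro b b' h
    by_contra hne
    obtain ⟨n, hn⟩ : ∃ n, PiNat.res b n ≠ PiNat.res b' n := by
      by_contra h2
      push Not at h2
      exact hne (PiNat.res_injective (funext h2))
    exact Set.disjoint_left.1 (hdis _ _ (by simp) hn) (hX b n) (h ▸ hX b' n)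
  have hmem : ∀ b, X b ∈ {x : ℝ | j0.2 x + ∑' l, ψ l x = g x} := by
    intro b
    have ri : Function.Injective (PiNat.res b) := fun m n h => by
      simpa using congrArg List.length h
    have e1 : ∑' n, ψ (PiNat.res b n) (X b) = ∑' l, ψ l (X b) := by
      refine ri.tsum_eq (f := fun l => ψ l (X b)) fun l hl => ?_
      by_contra h2
      refine hl ((H l).2.1 _ fun h3 => ?_)
      exact Set.disjoint_left.1 (hdis l (PiNat.res b l.length) (by simp)
        fun h => h2 ⟨_, h.symm⟩) h3 (hX b _)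
    have e2 : ∀ n, j0.2 (X b) + ∑ i ∈ Finset.range n, ψ (PiNat.res b i) (X b) =
        (node (PiNat.res b n)).1.1.2 (X b) := by
      intro n
      induction n with
      | zero => simp [node]
      | succ n ih =>
        rw [Finset.sum_range_succ, ← add_assoc, ih]
        exact ((H _).2.2.2.2 (b n) _ (hX b (n + 1))).1
    have t1 : Tendsto (fun n => (node (PiNat.res b n)).1.1.2 (X b)) atTop
        (𝓝 (j0.2 (X b) + ∑' l, ψ l (X b))) := by
      rw [← e1]
      simp_rw [← e2]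
      exact ((s0 _).comp_injective ri).hasSum.tendsto_sum_nat.const_add _
    have t2 : Tendsto (fun n => (node (PiNat.res b (n + 1))).1.1.2 (X b)) atTop (𝓝 (g (X b))) := by
      rw [tendsto_iff_norm_sub_tendsto_zero]
      exact squeeze_zero (fun _ => norm_nonneg _)
        (fun n => ((H _).2.2.2.2 (b n) _ (hX b (n + 1))).2) (hes.comp_injective ri).tendsto_atTop_zero
    exact tendsto_nhds_unique ((tendsto_add_atTop_iff_nat 1).2 t1) t2
  have : Countable (ℕ → Bool) := by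
    haveI := hc.to_subtype
    exact (show Function.Injective (fun b => (⟨X b, hmem b⟩ : {x : ℝ | j0.2 x + ∑' l, ψ l x = g x}))
      from fun b b' h => hinj (congrArg Subtype.val h)).countable
  obtain ⟨s, hs⟩ := exists_surjective_nat (ℕ → Bool)
  obtain ⟨n, hn⟩ := hs fun n => !(s n n)
  have := congrFun hn n
  simp at this

end Pool.Agent.H8.UZ
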