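import Mathlib
import Pool.Agent.H8.UZ1

open Metric Set Filter Topology MeasureTheory

namespace Pool.Agent.H8.UZ

theorem cond {Y : Type*} [TopologicalSpace Y] [SecondCountableTopology Y] {S : Set Y}
    (hS : ¬ S.Countable) : ∃ T ⊆ S, T.Nonempty ∧ ∀ p ∈ T, ∀ U ∈ 𝓝 p, ∃ q ∈ T, q ∈ U ∧ q ≠ p := by
  set B := {x ∈ S | ∃ U ∈ 𝓝 x, (U ∩ S).Countable} with hB
  have hBc : B.Countable := by
    have h : ∀ x ∈ B, ∃ U ∈ 𝓝 x, (U ∩ S).Countable := fun x hx => hx.2
    choose! U hU1 hU2 using h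
    obtain ⟨t, ht, hc, hsub⟩ := TopologicalSpace.countable_cover_nhdsWithin (f := U) (s := B)
      fun x hx => mem_nhdsWithin_of_mem_nhds (hU1 x hx)
    refine (hc.biUnion fun x hx => hU2 x (ht hx)).mono fun y hy => ?_
    obtain ⟨x, hx, h⟩ := mem_iUnion₂.1 (hsub hy)
    exact mem_iUnion₂.2 ⟨x, hx, h, hy.1⟩
  refine ⟨S \ B, diff_subset, ?_, fun p hp U hU => ?_⟩
  · by_contra h
    rw [not_nonempty_iff_eq_empty, diff_eq_empty] at h
    exact hS (hBc.mono h)
  · by_contra h
    push Not at h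
    refine hp.2 ⟨hp.1, U, hU, (hBc.insert p).mono fun q hq => ?_⟩
    by_contra h2
    simp only [mem_insert_iff, not_or] at h2
    exact h2.1 (h q ⟨hq.2, h2.2⟩ hq.1)

theorem caseA (g : ℝ → ℝ) (hg : Differentiable ℝ g)
    (hD : ¬ {x | DifferentiableAt ℝ (deriv g) x}.Countable) :
    ∃ f : ℝ → ℝ, Differentiable ℝ f ∧ Differentiable ℝ (deriv f) ∧
      ¬ Set.Countable {x : ℝ | f x = g x} := by
  set k := deriv (deriv g) with hk
  obtain ⟨T, hT, ⟨p0, hp0⟩, hc⟩ := cond (S := (fun x => (x, k x)) '' {x | DifferentiableAt ℝ (deriv g) x})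
    fun h => hD (countable_of_injective_of_countable_image
      (fun x _ y _ h => congrArg Prod.fst h) h)
  set q : ℝ → ℝ → ℝ := fun x y => g x + deriv g x * (y - x) + k x / 2 * (y - x) ^ 2 with hq
  have hqd : ∀ x y, HasDerivAt (q x) (deriv g x + k x * (y - x)) y := by
    intro x y
    have h := (hasDerivAt_id y).sub_const x
    refine (((h.const_mul (deriv g x)).const_add (g x)).add
      ((h.pow 2).const_mul (k x / 2))).congr_deriv ?_
    simp; ring
  obtain ⟨C, hC, hb⟩ := bump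
  obtain ⟨x0, -, rfl⟩ := hT hp0
  refine tree g hg.continuous {j | (j.1, k j.1) ∈ T ∧ j.2 = q j.1} ?_ (x0, q x0) ⟨hp0, rfl⟩
    (fun y => (hqd x0 y).differentiableAt) ?_ ?_
  · rintro ⟨x, f⟩ ⟨-, h⟩
    simp only at h ⊢
    subst h
    exact ⟨continuous_iff_continuousAt.2 fun y => (hqd x y).continuousAt, by simp [hq]⟩
  · have : deriv (q x0) = fun y => deriv g x0 + k x0 * (y - x0) := funext fun y => (hqd x0 y).deriv
    simp only [this]; fun_prop
  rintro ⟨x, f⟩ ⟨hx, h⟩ r hr ε hε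
  simp only at h hx ⊢
  subst h
  set η := ε / C with hη
  have hη0 : 0 < η := by positivity
  have hxD : DifferentiableAt ℝ (deriv g) x := by
    obtain ⟨y, hy, e⟩ := hT hx
    have : y = x := (Prod.ext_iff.1 e).1
    rw [← this]; exact hy
  obtain ⟨δ, hδ, h1⟩ := Metric.eventually_nhds_iff.1
    (hxD.hasDerivAt.isLittleO.bound (c := η / 4) (by positivity))
  obtain ⟨⟨v, kv⟩, hv, hU, hne⟩ := hc _ hx (ball x (min δ (min (r / 2) 1)) ×ˢ ball (k x) η)
    (prod_mem_nhds (ball_mem_nhds _ (by positivity)) (ball_mem_nhds _ hη0))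
  obtain ⟨v', -, e⟩ := hT hv
  obtain ⟨rfl, rfl⟩ := Prod.ext_iff.1 e
  simp only at *
  have hvx : v' ≠ x := fun h => hne (by rw [h])
  obtain ⟨h2, h3⟩ := hU
  simp only [mem_ball, lt_min_iff, Real.dist_eq] at h2 h3
  have h4 : 0 < |v' - x| := abs_pos.2 (sub_ne_zero.2 hvx)
  have h5 : ∀ y, |y - x| ≤ |v' - x| → |deriv g y - (deriv g x + k x * (y - x))| ≤
      η / 4 * |v' - x| := by
    intro y hy
    have := h1 (y := y) (by rw [Real.dist_eq]; linarith [h2.1])
    simp only [Real.norm_eq_abs, smul_eq_mul] at this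
    rw [show deriv g y - (deriv g x + k x * (y - x)) = deriv g y - deriv g x - (y - x) * k x by ring]
    exact this.trans (by gcongr)
  have h6 : |g v' - q x v'| ≤ η / 4 * |v' - x| * |v' - x| := by
    have := (convex_closedBall x |v' - x|).norm_image_sub_le_of_norm_hasDerivWithin_le
      (f := fun y => g y - q x y) (fun y _ => ((hg y).hasDerivAt.sub (hqd x y)).hasDerivWithinAt)
      (fun y hy => h5 y hy) (mem_closedBall_self h4.le) (y := v') (le_refl |v' - x|)
    simpa [hq] using this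
  obtain ⟨ψ, s1, s2, s3⟩ := hb v' (|v' - x| / 2) η (g v' - q x v')
    (deriv g v' - (deriv g x + k x * (v' - x))) ((k v' - k x) / 2) (by positivity)
    (by linarith [h2.2.2]) (h6.trans (le_of_eq (by ring)))
    ((h5 v' le_rfl).trans (by nlinarith)) (by rw [abs_div, abs_two]; linarith)
  refine ⟨(x, q x), ⟨hx, rfl⟩, (v', q v'), ⟨hv, rfl⟩, ψ, hvx.symm, mem_ball_self hr, ?_, ?_, ?_, ?_, ?_⟩
  · rw [mem_ball, Real.dist_eq]; linarith [h2.2.1]
  · rwa [hη, div_mul_cancel₀ _ hC.ne'] at s1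
  · intro y hy
    rw [mem_ball, Real.dist_eq, not_lt] at hy
    refine s2 y ?_
    have := abs_sub_le y v' x
    linarith [h2.2.1]
  · filter_upwards [ball_mem_nhds x (half_pos h4)] with y hy
    rw [mem_ball, Real.dist_eq] at hy
    rw [s2 y, add_zero]
    have := abs_sub_le v' y x
    rw [abs_sub_comm v' y] at this
    linarith
  · filter_upwards [closedBall_mem_nhds v' (half_pos (half_pos h4))] with y hy
    rw [s3 y hy]
    simp only [hq]; ring

theorem bitan (g : ℝ → ℝ) (hg : Differentiable ℝ g)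
    (hn : ∀ a b, a < b → ¬ MonotoneOn (deriv g) (Icc a b)) {c d m1 m2 : ℝ} (hcd : c < d)
    (h1 : deriv g c < m1) (h2 : m1 < m2) (h3 : m2 < deriv g d) :
    ∃ u v m, c < u ∧ u < v ∧ v < d ∧ m1 ≤ m ∧ m ≤ m2 ∧ deriv g u = m ∧ deriv g v = m ∧
      g v - g u = m * (v - u) := by
  set F : ℝ → ℝ → ℝ := fun m x => g x - m * x with hF
  have hFd : ∀ m x, HasDerivAt (F m) (deriv g x - m) x := fun m x =>
    ((hg x).hasDerivAt.sub ((hasDerivAt_id x).const_mul m)).congr_deriv (by simp)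
  have hFc : Continuous ↿F := by
    have := hg.continuous
    simp only [hF]; fun_prop
  have hFc' : ∀ m, Continuous (F m) := fun m => continuous_iff_continuousAt.2
    fun x => (hFd m x).continuousAt
  have int : ∀ m ∈ Icc m1 m2, ∀ x ∈ Icc c d, IsMinOn (F m) (Icc c d) x →
      c < x ∧ x < d ∧ deriv g x = m := by
    intro m hm x hx hmin
    have a1 : c < x := by
      refine lt_of_le_of_ne hx.1 ?_
      rintro rfl
      have := hmin.localize.hasFDerivWithinAt_nonneg
        (hFd m c).hasFDerivAt.hasFDerivWithinAt (y := d - c)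
        (sub_mem_posTangentConeAt_of_segment_subset (by rw [segment_eq_Icc hcd.le]))
      simp only [ContinuousLinearMap.toSpanSingleton_apply, smul_eq_mul] at this
      nlinarith [hm.1]
    have a2 : x < d := by
      refine lt_of_le_of_ne hx.2 ?_
      rintro rfl
      have := hmin.localize.hasFDerivWithinAt_nonneg
        (hFd m x).hasFDerivAt.hasFDerivWithinAt (y := c - x)
        (sub_mem_posTangentConeAt_of_segment_subset (by rw [segment_symm, segment_eq_Icc hcd.le]))
      simp only [ContinuousLinearMap.toSpanSingleton_apply, smul_eq_mul] at this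
      nlinarith [hm.2]
    have := (hmin.isLocalMin (Icc_mem_nhds a1 a2)).hasDerivAt_eq_zero (hFd m x)
    exact ⟨a1, a2, by linarith⟩
  obtain ⟨x1, hx1, e1⟩ := isCompact_Icc.exists_isMinOn (nonempty_Icc.2 hcd.le) (hFc' m1).continuousOn
  obtain ⟨x2, hx2, e2⟩ := isCompact_Icc.exists_isMinOn (nonempty_Icc.2 hcd.le) (hFc' m2).continuousOn
  obtain ⟨p1, p2, p3⟩ := int m1 ⟨le_rfl, h2.le⟩ x1 hx1 e1
  obtain ⟨q1, q2, q3⟩ := int m2 ⟨h2.le, le_rfl⟩ x2 hx2 e2
  have h12 : x1 < x2 := by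
    have a1 : F m1 x1 ≤ F m1 x2 := e1 hx2
    have a2 : F m2 x2 ≤ F m2 x1 := e2 hx1
    simp only [hF] at a1 a2
    refine lt_of_le_of_ne (by nlinarith) ?_
    rintro rfl; linarith
  by_contra hno
  have key : ∀ y ∈ Icc x1 x2, IsMinOn (F (deriv g y)) (Icc c d) y := by
    intro y hy
    have n1 : (Icc c y).Nonempty := nonempty_Icc.2 (by linarith [hy.1])
    have n2 : (Icc y d).Nonempty := nonempty_Icc.2 (by linarith [hy.2])
    have s1 : Icc c y ⊆ Icc c d := Icc_subset_Icc_right (by linarith [hy.2])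
    have s2 : Icc y d ⊆ Icc c d := Icc_subset_Icc_left (by linarith [hy.1])
    have hA := (isCompact_Icc (a := c) (b := y)).continuous_sInf hFc
    have hB := (isCompact_Icc (a := y) (b := d)).continuous_sInf hFc
    have ex : ∀ m a b, (Icc a b).Nonempty → ∃ u ∈ Icc a b, sInf (F m '' Icc a b) = F m u ∧
        ∀ z ∈ Icc a b, F m u ≤ F m z := fun m a b h =>
      isCompact_Icc.exists_sInf_image_eq_and_le h (hFc' m).continuousOn
    obtain ⟨m, hm, e⟩ := intermediate_value_Icc h2.le (hA.sub hB).continuousOn (show (0:ℝ) ∈ _ by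
      constructor
      · obtain ⟨u, hu, a1, a2⟩ := ex m1 c y n1
        obtain ⟨v, hv, b1, -⟩ := ex m1 y d n2
        simp only [Pi.sub_apply, a1, b1]
        have : F m1 x1 ≤ F m1 v := e1 (s2 hv)
        linarith [a2 x1 ⟨p1.le, hy.1⟩]
      · obtain ⟨u, hu, a1, -⟩ := ex m2 c y n1
        obtain ⟨v, hv, b1, b2⟩ := ex m2 y d n2
        simp only [Pi.sub_apply, a1, b1]
        have : F m2 x2 ≤ F m2 u := e2 (s1 hu)
        linarith [b2 x2 ⟨hy.2, q2.le⟩])
    obtain ⟨u, hu, a1, a2⟩ := ex m c y n1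
    obtain ⟨v, hv, b1, b2⟩ := ex m y d n2
    simp only [Pi.sub_apply, a1, b1] at e
    have mu : IsMinOn (F m) (Icc c d) u := fun z hz => by
      rcases le_total z y with h | h
      · exact a2 z ⟨hz.1, h⟩
      · have := b2 z ⟨h, hz.2⟩
        simp only [mem_setOf_eq]; linarith
    have mv : IsMinOn (F m) (Icc c d) v := fun z hz => by
      have : F m u ≤ F m z := mu hz
      simp only [mem_setOf_eq]; linarith
    obtain ⟨u1, u2, u3⟩ := int m hm u (s1 hu) mu
    obtain ⟨v1, v2, v3⟩ := int m hm v (s2 hv) mv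
    rcases (hu.2.trans hv.1).eq_or_lt with h | h
    · have : u = y := le_antisymm hu.2 (h ▸ hv.1)
      rw [← this, u3]; exact mu
    · exact absurd ⟨u, v, m, u1, h, v2, hm.1, hm.2, u3, v3, by simp only [hF] at e; linarith⟩ hno
  refine hn x1 x2 h12 fun y hy z hz hyz => ?_
  have s : Icc x1 x2 ⊆ Icc c d := Icc_subset_Icc p1.le q2.le
  have a1 : F (deriv g y) y ≤ F (deriv g y) z := key y hy (s hz)
  have a2 : F (deriv g z) z ≤ F (deriv g z) y := key z hz (s hy)
  simp only [hF] at a1 a2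
  rcases hyz.eq_or_lt with h | h
  · rw [h]
  · nlinarith

theorem bitan2 (g : ℝ → ℝ) (hg : Differentiable ℝ g)
    (hn : ∀ a b, a < b → ¬ MonotoneOn (deriv g) (Icc a b))
    (hn' : ∀ a b, a < b → ¬ AntitoneOn (deriv g) (Icc a b)) (x : ℝ) {δ η : ℝ} (hδ : 0 < δ)
    (hη : 0 < η) : ∃ u v m, x < u ∧ u < v ∧ v ≤ x + δ ∧ |m - deriv g x| ≤ η ∧ deriv g u = m ∧
      deriv g v = m ∧ g v - g u = m * (v - u) := by
  obtain ⟨d, hd, hne⟩ : ∃ d ∈ Icc x (x + δ), deriv g d ≠ deriv g x := by
    by_contra h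
    push Not at h
    exact hn x (x + δ) (by linarith) fun y hy z hz _ => by rw [h y hy, h z hz]
  have hxd : x < d := lt_of_le_of_ne hd.1 (by rintro rfl; exact hne rfl)
  rcases lt_or_gt_of_ne hne with h | h
  · have e : deriv (-g) = fun y => -deriv g y := funext fun y => deriv.neg
    obtain ⟨m2, a1, a2⟩ := exists_between (lt_min (neg_lt_neg h)
      (show -deriv g x < -deriv g x + η by linarith))
    obtain ⟨m1, a3, a4⟩ := exists_between a1
    rw [lt_min_iff] at a2
    obtain ⟨u, v, m, b1, b2, b3, b4, b5, b6, b7, b8⟩ := bitan (-g) hg.neg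
      (fun a b hab hm => hn' a b hab fun y hy z hz hyz => by
        have := hm hy hz hyz; rw [e] at this; simpa using this)
      hxd (m1 := m1) (m2 := m2) (by rw [e]; exact a3) a4 (by rw [e]; exact a2.1)
    rw [e] at b6 b7
    simp only [Pi.neg_apply] at b6 b7 b8
    exact ⟨u, v, -m, b1, b2, by linarith [hd.2], by rw [abs_le]; constructor <;> linarith [a2.2],
      by linarith, by linarith, by linarith⟩
  · obtain ⟨m2, a1, a2⟩ := exists_between (lt_min h (show deriv g x < deriv g x + η by linarith))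
    obtain ⟨m1, a3, a4⟩ := exists_between a1
    rw [lt_min_iff] at a2
    obtain ⟨u, v, m, b1, b2, b3, b4, b5, b6, b7, b8⟩ := bitan g hg hn hxd a3 a4 a2.1
    exact ⟨u, v, m, b1, b2, by linarith [hd.2], by rw [abs_le]; constructor <;> linarith [a2.2],
      b6, b7, b8⟩

theorem caseB (g : ℝ → ℝ) (hg : Differentiable ℝ g)
    (hn : ∀ a b, a < b → ¬ MonotoneOn (deriv g) (Icc a b))
    (hn' : ∀ a b, a < b → ¬ AntitoneOn (deriv g) (Icc a b)) :
    ∃ f : ℝ → ℝ, Differentiable ℝ f ∧ Differentiable ℝ (deriv f) ∧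
      ¬ Set.Countable {x : ℝ | f x = g x} := by
  set q : ℝ → ℝ → ℝ := fun x y => g x + deriv g x * (y - x) with hq
  have hqd : ∀ x y, HasDerivAt (q x) (deriv g x) y := fun x y =>
    ((((hasDerivAt_id y).sub_const x).const_mul (deriv g x)).const_add (g x)).congr_deriv (by simp)
  obtain ⟨C, hC, hb⟩ := bump
  refine tree g hg.continuous {j | j.2 = q j.1} ?_ (0, q 0) rfl
    (fun y => (hqd 0 y).differentiableAt) ?_ ?_
  · rintro ⟨x, f⟩ h
    simp only [mem_setOf_eq] at h ⊢
    subst h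
    exact ⟨continuous_iff_continuousAt.2 fun y => (hqd x y).continuousAt, by simp [hq]⟩
  · have : deriv (q 0) = fun _ => deriv g 0 := funext fun y => (hqd 0 y).deriv
    simp only [this]; fun_prop
  rintro ⟨x, f⟩ h r hr ε hε
  simp only [mem_setOf_eq] at h ⊢
  subst h
  set η := ε / C with hη
  have hη0 : 0 < η := by positivity
  set ρ := min r 1 with hρ
  have hρ0 : 0 < ρ := by positivity
  have hρ1 : ρ ≤ 1 := min_le_right _ _
  have hρr : ρ ≤ r := min_le_left _ _
  have hc : ContinuousAt (fun y => |g y - g x| + (|deriv g x| + η) * |y - x|) x := by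
    have := hg.continuous
    fun_prop
  obtain ⟨δ, hδ, h1⟩ := Metric.eventually_nhds_iff.1
    (hc.eventually (gt_mem_nhds (a := η * ρ ^ 2) (by simp; positivity)))
  obtain ⟨u, v, m, b1, b2, b3, b4, b5, b6, b7⟩ := bitan2 g hg hn hn' x
    (δ := min (δ / 2) (ρ / 4)) (η := η * ρ) (by positivity) (by positivity)
  have c1 := min_le_left (δ / 2) (ρ / 4)
  have c2 := min_le_right (δ / 2) (ρ / 4)
  have h2 := h1 (y := u) (by rw [Real.dist_eq, abs_lt]; constructor <;> linarith)
  have h3 : |g u - g x - m * (u - x)| ≤ η * ρ ^ 2 := by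
    refine (abs_sub _ _).trans (le_trans ?_ h2.le)
    rw [abs_mul]
    gcongr
    have := abs_sub_abs_le_abs_sub m (deriv g x)
    nlinarith
  obtain ⟨ψ, s1, s2, s3⟩ := hb x ρ η (g u - g x - m * (u - x)) (m - deriv g x) 0 hρ0 hρ1 h3 b4
    (by simpa using hη0.le)
  have nb : ∀ w, x < w → w ≤ x + ρ / 4 → ∀ᶠ y in 𝓝 w, q x y + ψ y = g u + m * (y - u) := by
    intro w w1 w2
    filter_upwards [closedBall_mem_nhds w (show 0 < ρ / 4 by positivity)] with y hy
    rw [mem_closedBall, Real.dist_eq, abs_le] at hy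
    rw [s3 y (by rw [abs_le]; constructor <;> linarith [hy.1, hy.2])]
    simp only [hq]; ring
  refine ⟨(u, q u), rfl, (v, q v), rfl, ψ, b2.ne, ?_, ?_, ?_, ?_, ?_, ?_⟩
  · rw [mem_ball, Real.dist_eq, abs_lt]; constructor <;> linarith
  · rw [mem_ball, Real.dist_eq, abs_lt]; constructor <;> linarith
  · rwa [hη, div_mul_cancel₀ _ hC.ne'] at s1
  · intro y hy
    rw [mem_ball, Real.dist_eq, not_lt] at hy
    exact s2 y (hρr.trans hy)
  · filter_upwards [nb u b1 (by linarith)] with y hy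
    rw [hy]; simp only [hq, b5]
  · filter_upwards [nb v (by linarith) (by linarith)] with y hy
    rw [hy]; simp only [hq, b6]; linarith

theorem unc {h : ℝ → ℝ} {a b : ℝ} (hab : a < b) (hm : MonotoneOn h (Icc a b)) :
    ¬ {x | DifferentiableAt ℝ h x}.Countable := by
  intro hc
  have h1 := hm.ae_differentiableWithinAt_of_mem
  have h2 : ∀ᵐ x, x ∉ {x | DifferentiableAt ℝ h x} := hc.ae_notMem volume
  have h3 : ∀ᵐ x, x ∉ Ioo a b := by
    filter_upwards [h1, h2] with x a1 a2 hx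
    exact a2 ((a1 (Ioo_subset_Icc_self hx)).differentiableAt (Icc_mem_nhds hx.1 hx.2))
  have h4 : volume (Ioo a b) = 0 := measure_eq_zero_iff_ae_notMem.2 h3
  simp at h4
  linarith

theorem final (g : ℝ → ℝ) (hg : Differentiable ℝ g) :
    ∃ f : ℝ → ℝ, Differentiable ℝ f ∧ Differentiable ℝ (deriv f) ∧
      ¬ Set.Countable {x : ℝ | f x = g x} := by
  by_cases hD : {x | DifferentiableAt ℝ (deriv g) x}.Countable
  · refine caseB g hg (fun a b hab hm => unc hab hm hD) fun a b hab hm => unc hab hm.neg ?_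
    simpa using hD
  · exact caseA g hg hD

end Pool.Agent.H8.UZ
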