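import Mathlib

set_option autoImplicit false

open MeasureTheory Set Filter Topology
open scoped ENNReal NNReal

namespace Pool.Agent.H8.VecRange

variable {α : Type*} [MeasurableSpace α]

/-- uniform absolute continuity of a vector measure with respect to a control measure -/
theorem unif_ac {X : Type*} [NormedAddCommGroup X] (ν : VectorMeasure α X) (μ : Measure α)
    (h0 : ∀ E, MeasurableSet E → μ E = 0 → ν E = 0) (ε : ℝ) (hε : 0 < ε) :
    ∃ δ : ℝ≥0∞, 0 < δ ∧ ∀ E, MeasurableSet E → μ E ≤ δ → ‖ν E‖ ≤ ε := by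
  by_contra hcon
  push Not at hcon
  have hex : ∀ n : ℕ, ∃ E, MeasurableSet E ∧ μ E ≤ (2⁻¹ : ℝ≥0∞) ^ n ∧ ε < ‖ν E‖ := fun n =>
    hcon _ (ENNReal.pow_pos (by simp) n)
  choose E hEm hEμ hEν using hex
  have hsum : ∑' n, μ (E n) ≠ ∞ := by
    refine ne_top_of_le_ne_top ?_ (ENNReal.tsum_le_tsum hEμ)
    simp [ENNReal.tsum_geometric]
  set F : Set α := limsup E atTop with hF
  have hFμ : μ F = 0 := measure_limsup_atTop_eq_zero hsum
  have hFm : MeasurableSet F := MeasurableSet.measurableSet_limsup hEm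
  set D : ℕ → Set α := fun n => E n \ F with hD
  have hDm : ∀ n, MeasurableSet (D n) := fun n => (hEm n).diff hFm
  have hDν : ∀ n, ν (D n) = ν (E n) := by
    intro n
    have h1 : ν (E n ∩ F) = 0 :=
      h0 _ ((hEm n).inter hFm) (measure_mono_null inter_subset_right hFμ)
    have h2 := VectorMeasure.of_union (v := ν) (A := E n ∩ F) (B := E n \ F)
      (Set.disjoint_left.2 fun x hx hx' => hx'.2 hx.2) ((hEm n).inter hFm) (hDm n)
    rw [inter_union_diff, h1, zero_add] at h2
    exact h2.symm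
  set G : ℕ → Set α := fun m => ⋃ k, ⋃ (_ : m ≤ k), D k with hG
  have hGm : ∀ m, MeasurableSet (G m) := fun m =>
    MeasurableSet.iUnion fun k => MeasurableSet.iUnion fun _ => hDm k
  have hGanti : Antitone G := by
    intro a b hab x hx
    simp only [hG, mem_iUnion] at hx ⊢
    obtain ⟨k, hk, hx⟩ := hx
    exact ⟨k, hab.trans hk, hx⟩
  have hstep : ∀ n, ∃ m, n < m ∧ ε < ‖ν (D n \ G m)‖ := by
    intro n
    have hmono : Monotone fun m => D n \ G m := fun a b hab => diff_subset_diff_right (hGanti hab)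
    have ht := VectorMeasure.tendsto_vectorMeasure_iUnion_atTop_nat (v := ν) hmono
      (fun m => (hDm n).diff (hGm m))
    have hU : (⋃ m, D n \ G m) = D n := by
      apply Subset.antisymm (iUnion_subset fun m => diff_subset)
      intro x hx
      have hxF : x ∉ F := hx.2
      rw [hF, mem_limsup_iff_frequently_mem, not_frequently, eventually_atTop] at hxF
      obtain ⟨m, hm⟩ := hxF
      refine mem_iUnion.2 ⟨m, hx, ?_⟩
      simp only [hG, mem_iUnion, not_exists]
      intro k hk hxk
      exact hm k hk hxk.1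
    rw [hU] at ht
    have h3 : ∀ᶠ m in atTop, ε < ‖ν (D n \ G m)‖ :=
      (ht.norm).eventually (lt_mem_nhds (by rw [hDν]; exact hEν n))
    obtain ⟨m, hm1, hm2⟩ := (h3.and (eventually_gt_atTop n)).exists
    exact ⟨m, hm2, hm1⟩
  choose φ hφ1 hφ2 using hstep
  set s : ℕ → ℕ := fun i => φ^[i] 0 with hs
  have hsS : ∀ i, s (i + 1) = φ (s i) := fun i => Function.iterate_succ_apply' φ i 0
  have hsm : StrictMono s := strictMono_nat_of_lt_succ fun i => by rw [hsS]; exact hφ1 _
  set H : ℕ → Set α := fun i => D (s i) \ G (s (i + 1)) with hH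
  have hHm : ∀ i, MeasurableSet (H i) := fun i => (hDm _).diff (hGm _)
  have hHd : Pairwise (Function.onFun Disjoint H) := by
    have key : ∀ i l, i < l → Disjoint (H i) (H l) := by
      intro i l hil
      refine Set.disjoint_left.2 fun x hx hx' => hx.2 ?_
      simp only [hG, mem_iUnion]
      exact ⟨s l, hsm.monotone hil, hx'.1⟩
    intro i l hil
    rcases lt_or_gt_of_ne hil with h | h
    · exact key i l h
    · exact (key l i h).symm
  have ht := (ν.m_iUnion hHm hHd).summable.tendsto_atTop_zero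
  have h4 : ∀ᶠ i in atTop, ‖ν (H i)‖ < ε := by
    have := ht.norm
    rw [norm_zero] at this
    exact this.eventually (gt_mem_nhds hε)
  obtain ⟨i, hi⟩ := h4.exists
  have := hφ2 (s i)
  rw [← hsS] at this
  exact absurd hi (not_lt.2 this.le)

/-- dyadic averages of indicators -/
noncomputable def av (E : ℕ → Set α) : ℕ → ℕ → α → ℝ
  | 0, a => (E a).indicator 1
  | d + 1, a => fun x => (av E d a x + av E d (a + 2 ^ d) x) / 2

theorem av_meas (E : ℕ → Set α) (hE : ∀ k, MeasurableSet (E k)) (d a : ℕ) :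
    Measurable (av E d a) := by
  induction d generalizing a with
  | zero => exact measurable_const.indicator (hE a)
  | succ d ih => exact ((ih a).add (ih _)).div_const 2

omit [MeasurableSpace α] in
theorem av_bd (E : ℕ → Set α) (d a : ℕ) (x : α) : 0 ≤ av E d a x ∧ av E d a x ≤ 1 := by
  induction d generalizing a with
  | zero =>
    simp only [av]
    by_cases h : x ∈ E a <;> simp [h]
  | succ d ih =>
    simp only [av]
    have := ih a
    have := ih (a + 2 ^ d)
    constructor <;> linarith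

theorem integ_of_bd (μ : Measure α) [IsFiniteMeasure μ] {f : α → ℝ} (hf : Measurable f) (C : ℝ)
    (hb : ∀ x, |f x| ≤ C) : Integrable f μ :=
  Integrable.of_bound hf.aestronglyMeasurable C (Eventually.of_forall hb)

theorem av_integ (E : ℕ → Set α) (hE : ∀ k, MeasurableSet (E k)) (μ : Measure α)
    [IsFiniteMeasure μ] (d a : ℕ) : Integrable (av E d a) μ :=
  integ_of_bd μ (av_meas E hE d a) 1 fun x => by
    have := av_bd E d a x
    rw [abs_le]; constructor <;> linarith

theorem av_val (E : ℕ → Set α) (hE : ∀ k, MeasurableSet (E k)) (P N : Measure α)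
    [IsFiniteMeasure P] [IsFiniteMeasure N] (c : ℝ) (d a : ℕ)
    (h : ∀ k, a ≤ k → k < a + 2 ^ d → P.real (E k) - N.real (E k) = c) :
    ∫ x, av E d a x ∂P - ∫ x, av E d a x ∂N = c := by
  induction d generalizing a with
  | zero =>
    simp only [av]
    rw [integral_indicator_one (hE a), integral_indicator_one (hE a)]
    exact h a le_rfl (by simp)
  | succ d ih =>
    simp only [av]
    rw [integral_div, integral_div, integral_add (av_integ E hE P d a) (av_integ E hE P d _),
      integral_add (av_integ E hE N d a) (av_integ E hE N d _)]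
    have h1 := ih a fun k h1 h2 => h k h1 (by rw [pow_succ]; omega)
    have h2 := ih (a + 2 ^ d) fun k h1 h2 => h k (by omega) (by rw [pow_succ]; omega)
    linarith

theorem av_drop (E : ℕ → Set α) (hE : ∀ k, MeasurableSet (E k)) (μ : Measure α)
    [IsFiniteMeasure μ] (η : ℝ) (n : ℕ)
    (h : ∀ d a, a + 2 ^ (d + 1) ≤ n →
      η ≤ ∫ x, (av E d (a + 2 ^ d) x - av E d a x) ^ 2 ∂μ) (d a : ℕ) (hd : a + 2 ^ d ≤ n) :
    ∫ x, (av E d a x) ^ 2 ∂μ ≤ μ.real univ - d * η / 4 := by
  have hsq : ∀ d a, Integrable (fun x => (av E d a x) ^ 2) μ := fun d a =>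
    integ_of_bd μ ((av_meas E hE d a).pow_const 2) 1 fun x => by
      have := av_bd E d a x
      rw [abs_le]; constructor <;> nlinarith
  induction d generalizing a with
  | zero =>
    have : ∫ x, (av E 0 a x) ^ 2 ∂μ ≤ ∫ _x, (1 : ℝ) ∂μ :=
      integral_mono (hsq 0 a) (integrable_const 1) fun x => by
        have := av_bd E 0 a x
        show _ ≤ (1 : ℝ)
        nlinarith
    simpa using this
  | succ d ih =>
    have h1 := ih a (by rw [pow_succ] at hd; omega)
    have h2 := ih (a + 2 ^ d) (by rw [pow_succ] at hd; omega)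
    have h3 := h d a hd
    have hdi : Integrable (fun x => (av E d (a + 2 ^ d) x - av E d a x) ^ 2) μ :=
      integ_of_bd μ (((av_meas E hE d _).sub (av_meas E hE d a)).pow_const 2) 1 fun x => by
        have := av_bd E d a x
        have := av_bd E d (a + 2 ^ d) x
        rw [abs_le]; constructor <;> nlinarith
    have he : (fun x => (av E (d + 1) a x) ^ 2) = fun x =>
        ((av E d a x) ^ 2 + (av E d (a + 2 ^ d) x) ^ 2) / 2
          - (av E d (a + 2 ^ d) x - av E d a x) ^ 2 / 4 := by
      funext x; simp only [av]; ring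
    have hs2 : Integrable (fun x => ((av E d a x) ^ 2 + (av E d (a + 2 ^ d) x) ^ 2) / 2) μ :=
      ((hsq d a).add (hsq d _)).div_const 2
    rw [he, integral_sub hs2 (hdi.div_const 4),
      integral_div, integral_div, integral_add (hsq d a) (hsq d _)]
    push_cast
    linarith

theorem int_small (P : Measure α) [IsFiniteMeasure P] {w : α → ℝ} (hw : Measurable w)
    (hb : ∀ x, |w x| ≤ 1) (t : ℝ) (ht : 0 ≤ t) :
    |∫ x, w x ∂P| ≤ t * P.real univ + P.real {x | t < |w x|} := by
  have hA : MeasurableSet {x | t < |w x|} := measurableSet_lt measurable_const hw.abs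
  have h1 : |∫ x, w x ∂P| ≤ ∫ x, |w x| ∂P := abs_integral_le_integral_abs
  have h2 : ∫ x, |w x| ∂P ≤ ∫ x, (t + ({x | t < |w x|}).indicator (1 : α → ℝ) x) ∂P := by
    refine integral_mono (integ_of_bd P hw 1 hb).abs
      ((integrable_const t).add ((integrable_const (1 : ℝ)).indicator hA)) fun x => ?_
    by_cases hx : t < |w x|
    · have : x ∈ {x | t < |w x|} := hx
      simp only [indicator_of_mem this, Pi.one_apply]
      linarith [hb x]
    · have : x ∉ {x | t < |w x|} := hx
      simp only [indicator_of_notMem this]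
      linarith [not_lt.1 hx]
  have hi : Integrable (fun x => ({x | t < |w x|}).indicator (1 : α → ℝ) x) P :=
    (integrable_const (1 : ℝ)).indicator hA
  rw [integral_add (integrable_const t) hi, integral_indicator_one hA] at h2
  simp only [integral_const, smul_eq_mul] at h2
  linarith

theorem core (P N : ℕ → Measure α) [∀ j, IsFiniteMeasure (P j)] [∀ j, IsFiniteMeasure (N j)]
    (C : ℝ) (hC : 0 < C) (hP : ∀ j, (P j).real univ ≤ C) (hN : ∀ j, (N j).real univ ≤ C)
    (μ : Measure α) [IsFiniteMeasure μ] (δ : ℝ) (hδ : 0 < δ)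
    (hac : ∀ A, MeasurableSet A → μ.real A ≤ δ → ∀ j, (P j).real A ≤ 1 / 8 ∧ (N j).real A ≤ 1 / 8)
    (hE : ∀ n : ℕ, ∃ E : ℕ → Set α, (∀ k, MeasurableSet (E k)) ∧ ∃ j : ℕ → ℕ, ∀ m k, k < n →
      (P (j m)).real (E k) - (N (j m)).real (E k) = if m ≤ k then 1 else 0) : False := by
  set t : ℝ := 1 / (8 * C) with ht
  have ht0 : 0 < t := by positivity
  have htC : t * C = 1 / 8 := by rw [ht]; field_simp
  set η : ℝ := δ * t ^ 2 with hη
  have hη0 : 0 < η := by positivity
  obtain ⟨d0, hd0⟩ := exists_nat_gt (μ.real univ * 4 / η)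
  obtain ⟨E, hEm, j, hj⟩ := hE (2 ^ d0)
  have key := av_drop E hEm μ η (2 ^ d0) ?_ d0 0 (by simp)
  · have h0 : 0 ≤ ∫ x, (av E d0 0 x) ^ 2 ∂μ := integral_nonneg fun x => sq_nonneg _
    rw [div_lt_iff₀ hη0] at hd0
    linarith
  intro d a hda
  by_contra hlt
  push Not at hlt
  set w : α → ℝ := fun x => av E d (a + 2 ^ d) x - av E d a x with hw
  have hwm : Measurable w := (av_meas E hEm d _).sub (av_meas E hEm d a)
  have hwb : ∀ x, |w x| ≤ 1 := fun x => by
    have := av_bd E d a x
    have := av_bd E d (a + 2 ^ d) x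
    simp only [hw]
    rw [abs_le]; constructor <;> linarith
  have hA : MeasurableSet {x | t < |w x|} := measurableSet_lt measurable_const hwm.abs
  have hμA : μ.real {x | t < |w x|} ≤ δ := by
    have h1 : ∫ x, ({x | t < |w x|}).indicator (fun _ => t ^ 2) x ∂μ ≤ ∫ x, (w x) ^ 2 ∂μ := by
      refine integral_mono ((integrable_const _).indicator hA)
        (integ_of_bd μ (hwm.pow_const 2) 1 fun x => ?_) fun x => ?_
      · have := hwb x
        rw [abs_pow]; nlinarith [abs_nonneg (w x)]
      · by_cases hx : t < |w x|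
        · have : x ∈ {x | t < |w x|} := hx
          simp only [indicator_of_mem this]
          rw [← sq_abs (w x)]; nlinarith
        · have : x ∉ {x | t < |w x|} := hx
          simp only [indicator_of_notMem this]
          positivity
    rw [integral_indicator_const _ hA, smul_eq_mul] at h1
    have h2 : μ.real {x | t < |w x|} * t ^ 2 ≤ δ * t ^ 2 := by linarith
    exact le_of_mul_le_mul_right h2 (by positivity)
  obtain ⟨hPA, hNA⟩ := hac _ hA hμA (j (a + 2 ^ d))
  have h1 := int_small (P (j (a + 2 ^ d))) hwm hwb t ht0.le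
  have h2 := int_small (N (j (a + 2 ^ d))) hwm hwb t ht0.le
  have v1 := av_val E hEm (P (j (a + 2 ^ d))) (N (j (a + 2 ^ d))) 1 d (a + 2 ^ d)
    fun k h1 h2 => by rw [hj _ k (by rw [pow_succ] at hda; omega), if_pos h1]
  have v0 := av_val E hEm (P (j (a + 2 ^ d))) (N (j (a + 2 ^ d))) 0 d a
    fun k h1 h2 => by rw [hj _ k (by rw [pow_succ] at hda; omega), if_neg (by omega)]
  have e1 : ∫ x, w x ∂(P (j (a + 2 ^ d))) = ∫ x, av E d (a + 2 ^ d) x ∂(P (j (a + 2 ^ d)))
      - ∫ x, av E d a x ∂(P (j (a + 2 ^ d))) :=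
    integral_sub (av_integ E hEm _ d _) (av_integ E hEm _ d a)
  have e2 : ∫ x, w x ∂(N (j (a + 2 ^ d))) = ∫ x, av E d (a + 2 ^ d) x ∂(N (j (a + 2 ^ d)))
      - ∫ x, av E d a x ∂(N (j (a + 2 ^ d))) :=
    integral_sub (av_integ E hEm _ d _) (av_integ E hEm _ d a)
  have b1 : t * (P (j (a + 2 ^ d))).real univ ≤ 1 / 8 := by
    rw [← htC]; exact mul_le_mul_of_nonneg_left (hP _) ht0.le
  have b2 : t * (N (j (a + 2 ^ d))).real univ ≤ 1 / 8 := by
    rw [← htC]; exact mul_le_mul_of_nonneg_left (hN _) ht0.le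
  have := le_abs_self (∫ x, w x ∂(P (j (a + 2 ^ d))))
  have := neg_abs_le (∫ x, w x ∂(N (j (a + 2 ^ d))))
  linarith

/-- no long triangular patterns in the range of a vector measure -/
theorem no_pattern {X : Type*} [NormedAddCommGroup X] [NormedSpace ℝ X] (ν : VectorMeasure α X)
    (ev : ℕ → X →L[ℝ] ℝ) (hev : ∀ j x, |ev j x| ≤ ‖x‖) (hsep : ∀ x, (∀ j, ev j x = 0) → x = 0)
    (hE : ∀ n : ℕ, ∃ E : ℕ → Set α, (∀ k, MeasurableSet (E k)) ∧ ∃ j : ℕ → ℕ, ∀ m k, k < n →
      ev (j m) (ν (E k)) = if m ≤ k then 1 else 0) : False := by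
  set s : ℕ → SignedMeasure α := fun j => ν.mapRange (ev j : X →+ ℝ) (ev j).continuous with hs
  have hsa : ∀ j A, s j A = ev j (ν A) := fun j A => rfl
  set P : ℕ → Measure α := fun j => (s j).toJordanDecomposition.posPart with hPd
  set N : ℕ → Measure α := fun j => (s j).toJordanDecomposition.negPart with hNd
  have hPN : ∀ j A, MeasurableSet A → (P j).real A - (N j).real A = ev j (ν A) := fun j A hA => by
    rw [← hsa, SignedMeasure.apply_eq_posPart_real_sub_negPart_real _ hA]
  have hsub : ∀ j A (c : ℝ), MeasurableSet A → (∀ B, B ⊆ A → MeasurableSet B → ‖ν B‖ ≤ c) →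
      (P j).real A ≤ c ∧ (N j).real A ≤ c := by
    intro j A c hA h
    obtain ⟨i, hi1, hi2, hi3, e1, e2⟩ := (s j).toJordanDecomposition_spec
    simp only [hPd, hNd]
    rw [e1, e2, SignedMeasure.toMeasureOfZeroLE_real_apply _ hi2 hi1 hA,
      SignedMeasure.toMeasureOfLEZero_real_apply _ hi3 hi1.compl hA, hsa, hsa]
    constructor
    · exact (le_abs_self _).trans ((hev j _).trans (h _ inter_subset_right (hi1.inter hA)))
    · exact (neg_le_abs _).trans ((hev j _).trans (h _ inter_subset_right (hi1.compl.inter hA)))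
  set C : ℝ := (ν.bound : ℝ) + 1 with hC
  have hC0 : 0 < C := by positivity
  have hPC : ∀ j, (P j).real univ ≤ C ∧ (N j).real univ ≤ C := fun j =>
    hsub j univ C MeasurableSet.univ fun B _ _ => by
      have := VectorMeasure.norm_apply_le_bound (μ := ν) (s := B)
      linarith
  set μ : Measure α := Measure.sum fun j => ((2⁻¹ : ℝ≥0∞) ^ j) • (P j + N j) with hμ
  have hfin : IsFiniteMeasure μ := by
    constructor
    rw [hμ, Measure.sum_apply _ MeasurableSet.univ]
    have hle : ∀ j, (((2⁻¹ : ℝ≥0∞) ^ j) • (P j + N j)) univ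
        ≤ (2⁻¹ : ℝ≥0∞) ^ j * ENNReal.ofReal (C + C) := by
      intro j
      simp only [Measure.smul_apply, Measure.add_apply, smul_eq_mul]
      gcongr
      rw [ENNReal.ofReal_add hC0.le hC0.le, ← ofReal_measureReal (μ := P j),
        ← ofReal_measureReal (μ := N j)]
      exact add_le_add (ENNReal.ofReal_le_ofReal (hPC j).1) (ENNReal.ofReal_le_ofReal (hPC j).2)
    refine lt_of_le_of_lt (ENNReal.tsum_le_tsum hle) ?_
    rw [ENNReal.tsum_mul_right]
    refine ENNReal.mul_lt_top ?_ ENNReal.ofReal_lt_top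
    simp [ENNReal.tsum_geometric]
  have h0 : ∀ E, MeasurableSet E → μ E = 0 → ν E = 0 := by
    intro E hEm hz
    rw [hμ, Measure.sum_apply _ hEm, ENNReal.tsum_eq_zero] at hz
    refine hsep _ fun j => ?_
    have := hz j
    simp only [Measure.smul_apply, Measure.add_apply, smul_eq_mul, mul_eq_zero, add_eq_zero] at this
    rcases this with h | h
    · exact absurd h (ENNReal.pow_pos (by simp) j).ne'
    · rw [← hPN j E hEm]; simp [measureReal_def, h.1, h.2]
  obtain ⟨δ, hδ0, hδ⟩ := unif_ac ν μ h0 (1 / 8) (by norm_num)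
  obtain ⟨δ', hδ'0, hδ'⟩ : ∃ δ' : ℝ, 0 < δ' ∧ ENNReal.ofReal δ' ≤ δ := by
    by_cases ht : δ = ∞
    · exact ⟨1, one_pos, by simp [ht]⟩
    · exact ⟨δ.toReal, ENNReal.toReal_pos hδ0.ne' ht, by rw [ENNReal.ofReal_toReal ht]⟩
  refine core P N C hC0 (fun j => (hPC j).1) (fun j => (hPC j).2) μ δ' hδ'0 ?_ ?_
  · intro A hA hμA j
    refine hsub j A _ hA fun B hB hBm => hδ B hBm ?_
    refine (measure_mono hB).trans (le_trans ?_ hδ')
    rw [← ofReal_measureReal (μ := μ)]
    exact ENNReal.ofReal_le_ofReal hμA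
  · intro n
    obtain ⟨E, hEm, j, hj⟩ := hE n
    exact ⟨E, hEm, j, fun m k hk => by rw [hPN _ _ (hEm k), hj m k hk]⟩

end Pool.Agent.H8.VecRange
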