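import Mathlib

set_option autoImplicit false
open Set Cardinal Function

universe v

namespace Pool.Agent.H8.WD

lemma pw {μ : Cardinal.{v}} (hμ : ℵ₀ ≤ μ) {I H : Type v} (hI : (2 : Cardinal.{v}) ^ #I ≤ (2 : Cardinal.{v}) ^ μ) (hH : #H ≤ (2 : Cardinal.{v}) ^ μ) :
    #(I → H) ≤ (2 : Cardinal.{v}) ^ μ := by
  rw [← Cardinal.power_def]
  refine (power_le_power_right hH).trans ?_
  rw [← power_mul]
  rcases le_total #I μ with h | h
  · exact power_le_power_left two_ne_zero ((mul_le_mul_right h μ).trans (mul_eq_self hμ).le)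
  · exact (power_le_power_left two_ne_zero
      ((mul_le_mul_left h _).trans (mul_eq_self (hμ.trans h)).le)).trans hI

section
variable {K : Type v} [LinearOrder K] [WellFoundedLT K] {μ : Cardinal.{v}}

lemma lub (E : Set K) (b : K) (hb : ∀ e ∈ E, e ≤ b) :
    ∃ δ, δ ≤ b ∧ (∀ e ∈ E, e ≤ δ) ∧ ∀ ξ < δ, ∃ e ∈ E, ξ < e := by
  obtain ⟨δ, h1, h2⟩ := (wellFounded_lt (α := K)).has_min {b | ∀ e ∈ E, e ≤ b} ⟨b, hb⟩
  refine ⟨δ, not_lt.1 (h2 b hb), h1, fun ξ hξ => ?_⟩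
  by_contra hc
  push Not at hc
  exact h2 ξ hc hξ

omit [WellFoundedLT K] in
lemma exists_enc (hμ : ℵ₀ ≤ μ) (h1 : ∀ a : K, (2 : Cardinal.{v}) ^ #(Iic a) ≤ (2 : Cardinal.{v}) ^ μ) (h3 : #K ≤ (2 : Cardinal.{v}) ^ μ)
    (H : Type v) (hH : #H ≤ (2 : Cardinal.{v}) ^ μ) : ∃ enc : K → (K → H) → (μ.out → Bool),
      ∀ a f a' f', enc a f = enc a' f' → a = a' ∧ ∀ x ≤ a, f x = f' x := by
  have hl : ℵ₀ ≤ (2 : Cardinal.{v}) ^ μ := hμ.trans (cantor μ).le
  have : #(Σ a : K, (Iic a → H)) ≤ #(μ.out → Bool) := by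
    rw [mk_sigma]
    refine (sum_le_sum _ (fun _ => (2 : Cardinal.{v}) ^ μ) fun a => pw hμ (h1 a) hH).trans ?_
    simp only [sum_const, lift_id, mk_pi, prod_const, mk_out, mk_bool, lift_two, lift_uzero]
    exact (mul_le_mul_left h3 _).trans (mul_eq_self hl).le
  obtain ⟨e⟩ := this
  refine ⟨fun a f => e ⟨a, fun x => f x⟩, fun a f a' f' h => ?_⟩
  have h2 := e.injective h
  obtain rfl : a = a' := (Sigma.mk.inj h2).1
  exact ⟨rfl, fun x hx => congrFun (eq_of_heq (Sigma.mk.inj h2).2) ⟨x, hx⟩⟩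

lemma mkV : #(μ.out → Bool) = (2 : Cardinal.{v}) ^ μ := by simp

omit [WellFoundedLT K] in
lemma bdd (hμ : ℵ₀ ≤ μ) (h1 : ∀ a : K, (2 : Cardinal.{v}) ^ #(Iic a) ≤ (2 : Cardinal.{v}) ^ μ) (h2 : (2 : Cardinal.{v}) ^ μ < (2 : Cardinal.{v}) ^ #K)
    (h3 : #K ≤ (2 : Cardinal.{v}) ^ μ) {I : Type v} (hI : (2 : Cardinal.{v}) ^ #I ≤ (2 : Cardinal.{v}) ^ μ) (f : I → K) : ∃ b, ∀ i, f i < b := by
  by_contra hc
  push Not at hc
  obtain ⟨enc, he⟩ := exists_enc hμ h1 h3 (ULift Bool) (by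
    simp only [mk_uLift, mk_bool, lift_two]
    exact ((natCast_lt_aleph0 (n := 2)).le.trans hμ).trans (cantor μ).le)
  have : #(K → ULift.{v} Bool) ≤ #(I → μ.out → Bool) :=
    mk_le_of_injective (f := fun η i => enc (f i) η) fun η η' h => funext fun x => by
      obtain ⟨i, hi⟩ := hc x
      exact (he _ _ _ _ (congrFun h i)).2 x hi
  have h4 := this.trans (pw hμ hI mkV.le)
  simp only [mk_pi, prod_const, mk_uLift, mk_bool, lift_two, lift_id] at h4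
  exact absurd h2 (not_lt.2 h4)

def Cl (Φ : K → K) (δ : K) : Prop := ∀ ξ < δ, Φ ξ < δ

lemma two_nat (hμ : ℵ₀ ≤ μ) : (2 : Cardinal.{v}) ^ #(ULift.{v} ℕ) ≤ (2 : Cardinal.{v}) ^ μ :=
  power_le_power_left two_ne_zero (by simpa using hμ)

lemma exists_cl (hμ : ℵ₀ ≤ μ) (h1 : ∀ a : K, (2 : Cardinal.{v}) ^ #(Iic a) ≤ (2 : Cardinal.{v}) ^ μ) (h2 : (2 : Cardinal.{v}) ^ μ < (2 : Cardinal.{v}) ^ #K)
    (h3 : #K ≤ (2 : Cardinal.{v}) ^ μ) (Φ : K → K) (α : K) : ∃ β, α < β ∧ Cl Φ β := by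
  have st : ∀ a : K, ∃ b, ∀ x ≤ a, x < b ∧ Φ x < b := fun a => by
    obtain ⟨b, hb⟩ := bdd hμ h1 h2 h3 (h1 a) (fun x : Iic a => max x.1 (Φ x))
    exact ⟨b, fun x hx => max_lt_iff.1 (hb ⟨x, hx⟩)⟩
  choose s hs using st
  obtain ⟨b, hb⟩ := bdd hμ h1 h2 h3 (two_nat hμ) (fun n : ULift.{v} ℕ => s^[n.down] α)
  obtain ⟨δ, -, d2, d3⟩ := lub (range fun n : ℕ => s^[n] α) b
    (by rintro _ ⟨n, rfl⟩; exact (hb ⟨n⟩).le)
  refine ⟨δ, (hs α α le_rfl).1.trans_le (d2 _ ⟨1, rfl⟩), fun ξ hξ => ?_⟩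
  obtain ⟨_, ⟨n, rfl⟩, hn⟩ := d3 ξ hξ
  exact (hs _ ξ hn.le).2.trans_le (d2 _ ⟨n + 1, iterate_succ_apply' _ _ _⟩)

/-- Devlin and Shelah: no uniform prediction on clubs. -/
theorem no_predict (hμ : ℵ₀ ≤ μ) (h1 : ∀ a : K, (2 : Cardinal.{v}) ^ #(Iic a) ≤ (2 : Cardinal.{v}) ^ μ) (h2 : (2 : Cardinal.{v}) ^ μ < (2 : Cardinal.{v}) ^ #K)
    (h3 : #K ≤ (2 : Cardinal.{v}) ^ μ) (m : K) (F : K → (K → Bool) → K) (ψ : (K → Bool) → K → K)
    (P1 : ∀ η η' δ, m ≤ δ → Cl (ψ η) δ → (∀ β < δ, η β = η' β ∧ F β η = F β η') → η δ = η' δ) :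
    False := by
  have hl : ℵ₀ ≤ (2 : Cardinal.{v}) ^ μ := hμ.trans (cantor μ).le
  let V := μ.out → Bool
  let H := V × (μ.out → K) × K
  have hH : #H ≤ (2 : Cardinal.{v}) ^ μ := by
    simp only [H, mk_prod, lift_id]
    exact mul_le_of_le hl mkV.le (mul_le_of_le hl (pw hμ (by simp) h3) h3)
  have hΨ : ∀ (g : K → V) (α : K), ∃ b, ∀ i, ψ (fun a => g a i) α < b := fun g α =>
    bdd hμ h1 h2 h3 (by simp) _
  choose Ψ hΨ using hΨ
  have hβ : ∀ (Φ : K → K) (α : K), ∃ β, (α < β ∧ Cl Φ β) ∧ ∀ β', α < β' ∧ Cl Φ β' → β ≤ β' :=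
    fun Φ α => by
      obtain ⟨β, a1, a2⟩ := (wellFounded_lt (α := K)).has_min {β | α < β ∧ Cl Φ β}
        (exists_cl hμ h1 h2 h3 Φ α)
      exact ⟨β, a1, fun β' h => not_lt.1 (a2 β' h)⟩
  choose β hβ1 hβ2 using hβ
  obtain ⟨enc, he⟩ := exists_enc hμ h1 h3 H hH
  let h : (K → V) × (K → K) → K → H := fun s α => (s.1 α, fun i => F α (fun a => s.1 a i), s.2 α)
  let nx : (K → V) × (K → K) → (K → V) × (K → K) := fun s =>
    (fun α => enc (β s.2 α) (h s), fun α => max (s.2 α) (Ψ (fun α => enc (β s.2 α) (h s)) α))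
  let st : (K → Bool) → ℕ → (K → V) × (K → K) := fun η n => nx^[n] (fun a _ => η a, id)
  have hst : ∀ η n, st η (n + 1) = nx (st η n) := fun η n => iterate_succ_apply' _ _ _
  have mono : ∀ η n k ξ, n ≤ k → (st η n).2 ξ ≤ (st η k).2 ξ := fun η n k ξ hnk => by
    induction hnk with
    | refl => exact le_rfl
    | step _ ih => rw [hst]; exact ih.trans (le_max_left _ _)
  have clm : ∀ η n k δ, n ≤ k → Cl (st η k).2 δ → Cl (st η n).2 δ := fun η n k δ hnk hc ξ hξ =>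
    (mono η n k ξ hnk).trans_lt (hc ξ hξ)
  have h0 : ∀ η, ∃ δ, m ≤ δ ∧ ∀ n, Cl (st η n).2 δ := fun η => by
    have : ∀ ξ, ∃ b, ∀ n : ULift.{v} ℕ, (st η n.down).2 ξ < b := fun ξ =>
      bdd hμ h1 h2 h3 (two_nat hμ) _
    choose Φ hΦ using this
    obtain ⟨δ, a1, a2⟩ := exists_cl hμ h1 h2 h3 Φ m
    exact ⟨δ, a1.le, fun n ξ hξ => (hΦ ξ ⟨n⟩).trans (a2 ξ hξ)⟩
  choose δ0 d1 d2 using h0
  obtain ⟨enc2, he2⟩ := exists_enc hμ h1 h3 (ULift.{v} ℕ → H) (pw hμ (two_nat hμ) hH)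
  have inj : Injective fun η => enc2 (δ0 η) (fun a n => h (st η n.down) a) := by
    intro η η' e
    obtain ⟨e1, e2⟩ := he2 _ _ _ _ e
    have key : ∀ γ n, h (st η n) γ = h (st η' n) γ := by
      intro γ
      induction γ using WellFoundedLT.induction with
      | ind γ ih =>
        by_cases hγ : γ ≤ δ0 η
        · exact fun n => congrFun (e2 γ hγ) ⟨n⟩
        obtain ⟨δ, a1, a2, a3⟩ := lub {δ | δ ≤ γ ∧ m ≤ δ ∧ ∀ n, Cl (st η n).2 δ} γ
          (fun e he => he.1)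
        have a4 : m ≤ δ := (d1 η).trans (a2 _ ⟨(not_le.1 hγ).le, d1 η, d2 η⟩)
        have a5 : ∀ n, Cl (st η n).2 δ := fun n ξ hξ => by
          obtain ⟨e, e1, e2⟩ := a3 ξ hξ
          exact (e1.2.2 n ξ e2).trans_le (a2 e e1)
        have b1 : ∀ n, ∀ x ≤ β (st η n).2 δ, h (st η n) x = h (st η' n) x := fun n => by
          refine (he _ _ (β (st η' n).2 δ) _ ?_).2
          have : (st η (n + 1)).1 δ = (st η' (n + 1)).1 δ := by
            funext i
            refine P1 (fun a => (st η (n + 1)).1 a i) (fun a => (st η' (n + 1)).1 a i) δ a4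
              (fun ξ hξ => ?_) (fun b hb => ?_)
            · refine lt_of_le_of_lt ?_ (a5 (n + 1) ξ hξ)
              rw [hst]
              exact (hΨ _ ξ i).le.trans (le_max_right _ _)
            · have := ih b (hb.trans_le a1) (n + 1)
              exact ⟨congrFun (congrArg Prod.fst this) i,
                congrFun (congrArg (fun t : H => t.2.1) this) i⟩
          rw [hst, hst] at this
          exact this
        have b2 : ∀ n, h (st η (n + 1)) γ = h (st η' (n + 1)) γ → h (st η n) γ = h (st η' n) γ :=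
          fun n e => by
            have := congrArg Prod.fst e
            simp only [h, hst] at this
            exact (he _ _ _ _ this).2 γ (hβ1 _ _).1.le
        have b3 : ∀ n0, ∃ n, n0 ≤ n ∧ γ < β (st η n).2 δ := fun n0 => by
          by_contra hc
          push Not at hc
          obtain ⟨ε, c1, c2, c3⟩ := lub {b | ∃ n, n0 ≤ n ∧ b = β (st η n).2 δ} γ
            (by rintro _ ⟨n, hn, rfl⟩; exact hc n hn)
          have c4 : δ < ε := (hβ1 _ _).1.trans_le (c2 _ ⟨n0, le_rfl, rfl⟩)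
          refine absurd (a2 ε ⟨c1, a4.trans c4.le, fun k ξ hξ => ?_⟩) (not_le.2 c4)
          obtain ⟨_, ⟨n, hn, rfl⟩, hξ'⟩ := c3 ξ hξ
          have c5 : β (st η n).2 δ ≤ β (st η (max n k)).2 δ :=
            hβ2 _ _ _ ⟨(hβ1 _ _).1, clm η _ _ _ (le_max_left _ _) (hβ1 _ _).2⟩
          exact (clm η _ _ _ (le_max_right n k) (hβ1 _ _).2 ξ (hξ'.trans_le c5)).trans_le
            (c2 _ ⟨max n k, hn.trans (le_max_left _ _), rfl⟩)
        intro n0
        obtain ⟨n, hn, hγ'⟩ := b3 n0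
        have := b1 n γ hγ'.le
        clear hγ'
        induction hn with
        | refl => exact this
        | step _ ih' => exact ih' (b2 _ this)
    obtain ⟨i⟩ : Nonempty μ.out := mk_ne_zero_iff.1 (by
      rw [mk_out]; exact (aleph0_pos.trans_le hμ).ne')
    funext a
    exact congrFun (congrArg Prod.fst (key a 0)) i
  have h4 := (lift_mk_le_lift_mk_of_injective inj)
  simp only [mk_pi, prod_const, mk_bool, lift_two, lift_id, mk_out, lift_uzero] at h4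
  exact absurd h2 (not_lt.2 h4)

theorem mono_set (hμ : ℵ₀ ≤ μ) (h1 : ∀ a : K, (2 : Cardinal.{v}) ^ #(Iic a) ≤ (2 : Cardinal.{v}) ^ μ) (h2 : (2 : Cardinal.{v}) ^ μ < (2 : Cardinal.{v}) ^ #K)
    (h3 : #K ≤ (2 : Cardinal.{v}) ^ μ) (m : K) (c : (K → Bool) → (K → Bool) → K) (hs : ∀ x y, c x y = c y x)
    (hr : ∀ x y δ, x δ ≠ y δ → (∀ β < δ, x β = y β) → c x y < max δ m) :
    ∃ Y : Set (K → Bool), ¬ Y.Countable ∧ ∃ ξ, ∀ x ∈ Y, ∀ y ∈ Y, x ≠ y → c x y = ξ := by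
  classical
  let F : K → (K → Bool) → K := (wellFounded_lt (α := K)).fix fun α T η =>
    c η (Classical.epsilon fun ρ => ρ α ≠ η α ∧ ∀ β (hb : β < α), ρ β = η β ∧ T β hb ρ = T β hb η)
  let P : K → (K → Bool) → (K → Bool) → Prop := fun α η ρ =>
    ρ α ≠ η α ∧ ∀ β < α, ρ β = η β ∧ F β ρ = F β η
  let x : K → (K → Bool) → (K → Bool) := fun α η => Classical.epsilon (P α η)
  have hF : ∀ α η, F α η = c η (x α η) := fun α η => by
    conv_lhs => unfold F; rw [WellFounded.fix_eq]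
  have hx : ∀ α η, (∃ ρ, P α η ρ) → P α η (x α η) := fun α η h => Classical.epsilon_spec h
  by_cases hb : ∀ η ξ, ∃ b, ∀ δ, (∃ ρ, P δ η ρ) → F δ η = ξ → δ < b
  · choose ψ hψ using hb
    refine (no_predict hμ h1 h2 h3 m F ψ fun η η' δ a1 a2 a3 => ?_).elim
    by_contra hne
    have h4 : ∃ ρ, P δ η ρ := ⟨η', Ne.symm hne, fun β hβ => ⟨(a3 β hβ).1.symm, (a3 β hβ).2.symm⟩⟩
    have h5 : F δ η < δ := by
      rw [hF]
      exact (hr _ _ δ (hx _ _ h4).1.symm fun β hβ => ((hx _ _ h4).2 β hβ).1.symm).trans_eq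
        (max_eq_left a1)
    exact lt_asymm (hψ η _ δ h4 rfl) (a2 _ h5)
  push Not at hb
  obtain ⟨η, ξ, hb⟩ := hb
  let S : Set K := {δ | (∃ ρ, P δ η ρ) ∧ F δ η = ξ}
  have k : ∀ a ∈ S, ∀ b ∈ S, a < b → x a η ≠ x b η ∧ c (x b η) (x a η) = ξ := by
    intro a ha b hb hab
    have pb := hx _ _ hb.1
    refine ⟨fun e => (hx _ _ ha.1).1 (e ▸ (pb.2 a hab).1), ?_⟩
    have : x a (x b η) = x a η := by
      refine congrArg Classical.epsilon (funext fun ρ => propext ?_)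
      simp only [P, (pb.2 a hab).1]
      exact and_congr_right fun _ => forall₂_congr fun β hβ => by
        rw [(pb.2 β (hβ.trans hab)).1, (pb.2 β (hβ.trans hab)).2]
    rw [← this, ← hF, (pb.2 a hab).2, ha.2]
  refine ⟨(fun a => x a η) '' S, fun hc => ?_, ξ, ?_⟩
  · have h5 : S.Countable := countable_of_injective_of_countable_image (fun a ha b hb e => by
      rcases lt_trichotomy a b with h | h | h
      · exact absurd e (k a ha b hb h).1
      · exact h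
      · exact absurd e.symm (k b hb a ha h).1) hc
    obtain ⟨b, hb'⟩ := bdd hμ h1 h2 h3 (I := S) (power_le_power_left two_ne_zero
      ((Cardinal.le_aleph0_iff_set_countable.2 h5).trans hμ)) Subtype.val
    obtain ⟨δ, a1, a2, a3⟩ := hb b
    exact absurd (hb' ⟨δ, a1, a2⟩) (not_lt.2 a3)
  · rintro _ ⟨a, ha, rfl⟩ _ ⟨b, hb, rfl⟩ hne
    rcases lt_trichotomy a b with h | rfl | h
    · rw [hs]; exact (k a ha b hb h).2
    · exact absurd rfl hne
    · exact (k b hb a ha h).2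

end

universe u

theorem main (κ : Cardinal.{u}) (hunc : ℵ₀ < κ)
    (hpow : ∀ μ < κ, (2 : Cardinal.{u}) ^ μ < 2 ^ κ)
    (c : (Iio κ.ord → Bool) → (Iio κ.ord → Bool) → Iio κ.ord) (hs : ∀ x y, c x y = c y x)
    (m : Iio κ.ord) (hr : ∀ x y i, x i ≠ y i → (∀ j < i, x j = y j) → c x y < max i m) :
    ∃ Y : Set (Iio κ.ord → Bool), ¬ Y.Countable ∧
      ∃ γ, ∀ x ∈ Y, ∀ y ∈ Y, x ≠ y → c x y = γ := by
  classical
  set μ : Cardinal.{u} := max m.1.card ℵ₀ with hμ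
  have hμκ : μ < κ := max_lt (lt_ord.1 m.2) hunc
  obtain ⟨ν, n1, n2⟩ := (wellFounded_lt (α := Cardinal.{u})).has_min
    {ν | (2 : Cardinal.{u}) ^ μ < 2 ^ ν} ⟨κ, hpow μ hμκ⟩
  have n3 : ∀ l < ν, (2 : Cardinal.{u}) ^ l ≤ 2 ^ μ := fun l hl => not_lt.1 fun h => n2 l h hl
  have n4 : ν ≤ κ := not_lt.1 (n2 κ (hpow μ hμκ))
  have n5 : μ < ν := by
    by_contra h
    exact absurd n1 (not_lt.2 (power_le_power_left two_ne_zero (not_lt.1 h)))
  have n6 : ν ≤ 2 ^ μ := by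
    by_contra h
    exact absurd (cantor _) (not_lt.2 (n3 _ (not_le.1 h)))
  have n7 : ℵ₀ ≤ ν := (le_max_right _ _).trans n5.le
  have mkK : #(Iio ν.ord) = lift.{u + 1} ν := by rw [Ordinal.mk_Iio_ordinal, card_ord]
  have hm : m.1 < ν.ord := lt_ord.2 ((le_max_left _ _).trans_lt n5)
  have hνκ : ν.ord ≤ κ.ord := ord_le_ord.2 n4
  let e : (Iio ν.ord → Bool) → (Iio κ.ord → Bool) := fun x i =>
    if h : i.1 < ν.ord then x ⟨i.1, h⟩ else false
  let up : Iio ν.ord → Iio κ.ord := fun δ => ⟨δ.1, δ.2.trans_le hνκ⟩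
  have he : ∀ x δ, e x (up δ) = x δ := fun x δ => dif_pos δ.2
  have ei : Injective e := fun x y h => funext fun δ => by rw [← he x, ← he y, h]
  have key : ∀ x y δ, x δ ≠ y δ → (∀ β < δ, x β = y β) →
      (c (e x) (e y)).1 < max δ.1 m.1 := fun x y δ h1 h2 => by
    have := hr (e x) (e y) (up δ) (by rwa [he, he]) fun j hj => by
      have hj' : j.1 < ν.ord := lt_trans hj δ.2
      simp only [e, dif_pos hj']
      exact h2 _ hj
    rcases lt_max_iff.1 this with h | h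
    · exact lt_max_of_lt_left h
    · exact lt_max_of_lt_right h
  have two : ∀ l : Cardinal.{u}, (2 : Cardinal.{u + 1}) ^ lift.{u + 1} l = lift.{u + 1} (2 ^ l) :=
    fun l => by simp
  obtain ⟨Y, y1, ξ, y2⟩ := mono_set (K := Iio ν.ord) (μ := lift.{u + 1} μ)
    (aleph0_le_lift.2 (le_max_right _ _))
    (fun a => by
      have h1 : #(Iic a) ≤ #(Iio (Order.succ a.1)) :=
        mk_le_of_injective (f := fun x => ⟨x.1.1, Order.lt_succ_iff.2 (show x.1.1 ≤ a.1 from x.2)⟩)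
          fun x y h => Subtype.ext (Subtype.ext (by simpa using h))
      rw [Ordinal.mk_Iio_ordinal] at h1
      refine (power_le_power_left two_ne_zero h1).trans ?_
      rw [two, two, lift_le]
      exact n3 _ (lt_ord.1 ((isSuccLimit_ord n7).succ_lt a.2)))
    (by rw [mkK, two, two, lift_lt]; exact n1)
    (by rw [mkK, two, lift_le]; exact n6) ⟨m.1, hm⟩
    (fun x y => if h : (c (e x) (e y)).1 < ν.ord then ⟨_, h⟩ else ⟨m.1, hm⟩)
    (fun x y => by rw [hs])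
    (fun x y δ h1 h2 => by
      have h3 := key x y δ h1 h2
      rw [dif_pos (h3.trans (max_lt δ.2 hm))]
      rcases lt_max_iff.1 h3 with h | h
      · exact lt_max_of_lt_left h
      · exact lt_max_of_lt_right h)
  refine ⟨e '' Y, fun h => y1 (countable_of_injective_of_countable_image ei.injOn h), up ξ, ?_⟩
  rintro _ ⟨x, hx, rfl⟩ _ ⟨y, hy, rfl⟩ hne
  have hxy : x ≠ y := fun h => hne (h ▸ rfl)
  obtain ⟨δ, d1, d2⟩ := (wellFounded_lt (α := Iio ν.ord)).has_min {δ | x δ ≠ y δ}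
    (Function.ne_iff.1 hxy)
  have h3 := key x y δ d1 fun β hβ => by
    by_contra h
    exact d2 β h hβ
  have h4 := y2 x hx y hy hxy
  rw [dif_pos (h3.trans (max_lt δ.2 hm))] at h4
  exact Subtype.ext (congrArg (fun t : Iio ν.ord => t.1) h4)

end Pool.Agent.H8.WD
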