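import Mathlib

open Complex Metric Set
open scoped ComplexConjugate Real

namespace Pool.Agent.H8.WProd

theorem pole_int (h : ℂ → ℂ) (hh : ∀ x, ‖x‖ < 1 → DifferentiableAt ℂ h x) (ρ : ℝ) (h0 : 0 < ρ)
    (h1 : ρ < 1) (r : ℂ) (hr : 1 ≤ ‖r‖) :
    ∫ θ in (0:ℝ)..2 * π, circleMap 0 ρ θ * h (circleMap 0 ρ θ) *
      conj (circleMap 0 ρ θ / (r - circleMap 0 ρ θ)) =
      2 * π * ((ρ ^ 2 * (conj r)⁻¹) * h (ρ ^ 2 * (conj r)⁻¹)) := by
  set w : ℂ := ρ ^ 2 * (conj r)⁻¹ with hw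
  have hr0 : r ≠ 0 := by intro h; rw [h] at hr; norm_num at hr
  have hcr : conj r ≠ 0 := by simpa using hr0
  have hwn : ‖w‖ < ρ := by
    rw [hw, norm_mul, norm_inv, Complex.norm_conj, norm_pow, Complex.norm_real, Real.norm_eq_abs,
      abs_of_pos h0]
    have : ‖r‖⁻¹ ≤ 1 := inv_le_one_of_one_le₀ hr
    nlinarith [mul_pos h0 h0]
  have key := circleIntegral_sub_inv_smul_of_differentiable_on_off_countable (f := h) (c := 0)
    (R := ρ) (w := w) countable_empty (by simpa using hwn)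
    (fun x hx => (hh x (by simp at hx; linarith)).continuousAt.continuousWithinAt)
    (fun x hx => hh x (by simp at hx; linarith))
  rw [circleIntegral] at key
  have e : ∀ θ : ℝ, circleMap 0 ρ θ * h (circleMap 0 ρ θ) *
      conj (circleMap 0 ρ θ / (r - circleMap 0 ρ θ)) =
      (w / I) * (deriv (circleMap 0 ρ) θ • ((circleMap 0 ρ θ - w)⁻¹ • h (circleMap 0 ρ θ))) := by
    intro θ
    rw [deriv_circleMap]
    set z := circleMap 0 ρ θ with hz
    have hzn : ‖z‖ = ρ := by rw [hz, norm_circleMap_zero, abs_of_pos h0]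
    have hzz : z * conj z = ρ ^ 2 := by
      rw [Complex.mul_conj, Complex.normSq_eq_norm_sq, hzn]; push_cast; ring
    have hz0 : z ≠ 0 := by intro h; rw [h] at hzn; simp at hzn; linarith
    have hzw : z - w ≠ 0 := by
      intro h; have := sub_eq_zero.1 h; rw [this] at hzn; linarith
    have hrz : conj r - conj z ≠ 0 := by
      rw [← map_sub]; simp only [ne_eq, map_eq_zero]
      intro h; have := sub_eq_zero.1 h; rw [this] at hr; linarith
    have e2 : conj (z / (r - z)) = w * (z - w)⁻¹ := by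
      rw [map_div₀, map_sub, ← div_eq_mul_inv, div_eq_div_iff hrz hzw, hw, ← hzz]
      field_simp
    rw [e2]
    simp only [smul_eq_mul]
    field_simp
  simp_rw [e]
  rw [intervalIntegral.integral_const_mul, key]
  simp only [smul_eq_mul]
  field_simp

theorem pos_sum {ι : Type*} (s : Finset ι) (r : ι → ℂ) (d : ι → ℝ) (hr : ∀ i ∈ s, 1 ≤ ‖r i‖)
    (h : ℂ → ℂ) (hh : ∀ x, ‖x‖ < 1 → DifferentiableAt ℂ h x)
    (hpos : ∀ x, ‖x‖ < 1 → 0 ≤ (x * h x * conj (∑ i ∈ s, (d i : ℂ) * (x / (r i - x)))).re)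
    (t : ℝ) (h0 : 0 < t) (h1 : t < 1) :
    0 ≤ ∑ i ∈ s, d i * ((conj (r i))⁻¹ * h (t * (conj (r i))⁻¹)).re := by
  set ρ := Real.sqrt t with hρ
  have hρ0 : 0 < ρ := Real.sqrt_pos.2 h0
  have hρ1 : ρ < 1 := by rw [hρ, Real.sqrt_lt' one_pos]; simpa using h1
  have hρ2 : (ρ:ℂ) ^ 2 = t := by
    rw [← Complex.ofReal_pow, hρ, Real.sq_sqrt h0.le]
  have hn : ∀ θ, ‖circleMap 0 ρ θ‖ < 1 := fun θ => by
    rw [norm_circleMap_zero, abs_of_pos hρ0]; exact hρ1
  have hc : Continuous fun θ => h (circleMap 0 ρ θ) := by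
    rw [continuous_iff_continuousAt]
    intro θ
    exact ContinuousAt.comp (f := circleMap 0 ρ) (hh _ (hn θ)).continuousAt
      (continuous_circleMap 0 ρ).continuousAt
  have hci : ∀ i ∈ s, Continuous fun θ => circleMap 0 ρ θ * h (circleMap 0 ρ θ) *
      conj (circleMap 0 ρ θ / (r i - circleMap 0 ρ θ)) := by
    intro i hi
    refine ((continuous_circleMap 0 ρ).mul hc).mul (Complex.continuous_conj.comp ?_)
    refine (continuous_circleMap 0 ρ).div (continuous_const.sub (continuous_circleMap 0 ρ)) ?_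
    intro θ h
    have h2 := hn θ
    rw [← sub_eq_zero.1 h] at h2
    linarith [hr i hi]
  have hI : ∫ θ in (0:ℝ)..2 * π, ∑ i ∈ s, (d i : ℂ) * (circleMap 0 ρ θ * h (circleMap 0 ρ θ) *
      conj (circleMap 0 ρ θ / (r i - circleMap 0 ρ θ))) =
      ∑ i ∈ s, (d i : ℂ) * (2 * π * ((t * (conj (r i))⁻¹) * h (t * (conj (r i))⁻¹))) := by
    rw [intervalIntegral.integral_finset_sum]
    · refine Finset.sum_congr rfl fun i hi => ?_
      rw [intervalIntegral.integral_const_mul, pole_int h hh ρ hρ0 hρ1 _ (hr i hi), hρ2]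
    · intro i hi
      exact (continuous_const.mul (hci i hi)).intervalIntegrable _ _
  have hcs : Continuous fun θ => ∑ i ∈ s, (d i : ℂ) * (circleMap 0 ρ θ * h (circleMap 0 ρ θ) *
      conj (circleMap 0 ρ θ / (r i - circleMap 0 ρ θ))) :=
    continuous_finset_sum _ fun i hi => continuous_const.mul (hci i hi)
  have hre := (Complex.reCLM.intervalIntegral_comp_comm (hcs.intervalIntegrable (μ := MeasureTheory.volume) 0 (2 * π)))
  rw [hI] at hre
  have hnn : 0 ≤ ∫ θ in (0:ℝ)..2 * π, Complex.reCLM (∑ i ∈ s, (d i : ℂ) * (circleMap 0 ρ θ *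
      h (circleMap 0 ρ θ) * conj (circleMap 0 ρ θ / (r i - circleMap 0 ρ θ)))) := by
    refine intervalIntegral.integral_nonneg (by positivity) fun θ _ => ?_
    have := hpos _ (hn θ)
    rw [map_sum, Finset.mul_sum] at this
    rw [Complex.reCLM_apply]
    convert this using 2
    refine Finset.sum_congr rfl fun i _ => ?_
    rw [map_mul, Complex.conj_ofReal]; ring
  rw [hre, Complex.reCLM_apply, Complex.re_sum] at hnn
  have e : ∀ i ∈ s, ((d i : ℂ) * (2 * π * ((t * (conj (r i))⁻¹) * h (t * (conj (r i))⁻¹)))).re =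
      (2 * π * t) * (d i * ((conj (r i))⁻¹ * h (t * (conj (r i))⁻¹)).re) := by
    intro i _
    have : ((d i : ℂ) * (2 * π * ((t * (conj (r i))⁻¹) * h (t * (conj (r i))⁻¹)))) =
      ((2 * π * t * d i : ℝ) : ℂ) * ((conj (r i))⁻¹ * h (t * (conj (r i))⁻¹)) := by
      push_cast; ring
    rw [this, Complex.re_ofReal_mul]; ring
  rw [Finset.sum_congr rfl e, ← Finset.mul_sum] at hnn
  exact nonneg_of_mul_nonneg_right' hnn (by positivity)
where
  nonneg_of_mul_nonneg_right' {a b : ℝ} (h : 0 ≤ a * b) (ha : 0 < a) : 0 ≤ b :=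
    (mul_nonneg_iff_of_pos_left ha).1 h

theorem mono {ι : Type*} (s : Finset ι) (r : ι → ℂ) (d : ι → ℝ) (hr : ∀ i ∈ s, 1 ≤ ‖r i‖)
    (a h : ℂ → ℂ) (ha : ∀ x, ‖x‖ < 1 → HasDerivAt a (h x) x)
    (hh : ∀ x, ‖x‖ < 1 → DifferentiableAt ℂ h x)
    (hc : ∀ i ∈ s, ContinuousAt a (conj (r i))⁻¹)
    (hpos : ∀ x, ‖x‖ < 1 → 0 ≤ (x * h x * conj (∑ i ∈ s, (d i : ℂ) * (x / (r i - x)))).re) :
    ∑ i ∈ s, d i * (a 0).re ≤ ∑ i ∈ s, d i * (a (conj (r i))⁻¹).re := by
  set Ψ : ℝ → ℝ := fun t => ∑ i ∈ s, d i * (a (t * (conj (r i))⁻¹)).re with hΨ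
  have hn : ∀ i ∈ s, ∀ t : ℝ, 0 ≤ t → t < 1 → ‖(t:ℂ) * (conj (r i))⁻¹‖ < 1 := by
    intro i hi t h0 h1
    rw [norm_mul, norm_inv, Complex.norm_conj, Complex.norm_real, Real.norm_eq_abs, abs_of_nonneg h0]
    have : ‖r i‖⁻¹ ≤ 1 := inv_le_one_of_one_le₀ (hr i hi)
    have : 0 ≤ ‖r i‖⁻¹ := by positivity
    nlinarith
  have hd : ∀ t : ℝ, 0 ≤ t → t < 1 → HasDerivAt Ψ
      (∑ i ∈ s, d i * ((conj (r i))⁻¹ * h (t * (conj (r i))⁻¹)).re) t := by
    intro t h0 h1
    refine HasDerivAt.fun_sum fun i hi => HasDerivAt.const_mul _ ?_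
    have h2 : HasDerivAt (fun z : ℂ => a (z * (conj (r i))⁻¹))
        (h (t * (conj (r i))⁻¹) * (conj (r i))⁻¹) t := by
      have := (ha _ (hn i hi t h0 h1)).comp (t:ℂ) ((hasDerivAt_id (t:ℂ)).mul_const (conj (r i))⁻¹)
      rw [one_mul] at this
      exact this
    have := h2.real_of_complex
    rw [mul_comm]; exact this
  have hcont : ContinuousOn Ψ (Icc 0 1) := by
    intro t ht
    rcases eq_or_lt_of_le ht.2 with h1 | h1
    · refine ContinuousAt.continuousWithinAt ?_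
      rw [h1]
      refine tendsto_finset_sum _ fun i hi => ?_
      refine Filter.Tendsto.const_mul _ (Complex.continuous_re.continuousAt.tendsto.comp ?_)
      have h3 : ContinuousAt a (((1:ℝ):ℂ) * (conj (r i))⁻¹) := by simpa using hc i hi
      exact ContinuousAt.comp (f := fun t : ℝ => (t:ℂ) * (conj (r i))⁻¹) h3 (by fun_prop)
    · exact (hd t ht.1 h1).continuousAt.continuousWithinAt
  have hm : MonotoneOn Ψ (Icc 0 1) := by
    refine monotoneOn_of_deriv_nonneg (convex_Icc 0 1) hcont ?_ ?_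
    · rw [interior_Icc]; intro t ht
      exact (hd t ht.1.le ht.2).differentiableAt.differentiableWithinAt
    · rw [interior_Icc]; intro t ht
      rw [(hd t ht.1.le ht.2).deriv]
      exact pos_sum s r d hr h hh hpos t ht.1 ht.2
  have := hm (left_mem_Icc.2 zero_le_one) (right_mem_Icc.2 zero_le_one) zero_le_one
  simpa [hΨ] using this

end Pool.Agent.H8.WProd
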