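import Mathlib
import Pool.Agent.H8.WProd1

open Complex Polynomial
open scoped ComplexConjugate Real

namespace Pool.Agent.H8.WProd

structure Hyp (Z : Finset ℂ) (p : ℂ → ℝ) : Prop where
  hZ : ∀ z ∈ Z, ‖z‖ = 1
  hp : ∀ z ∈ Z, 0 < p z
  h1 : ∑ z ∈ Z, p z = 1

noncomputable section
variable (Z : Finset ℂ) (p : ℂ → ℝ)

def T (x : ℂ) : ℂ := ∑ z ∈ Z, 2 * p z * z / (z - x)
def T' (x : ℂ) : ℂ := ∑ z ∈ Z, 2 * p z * z / (z - x) ^ 2
def S (x : ℂ) : ℝ := ∑ z ∈ Z, p z / ‖z - x‖ ^ 2
def P : ℂ[X] := Lagrange.nodal Z id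
open Classical in
def R : ℂ[X] := ∑ z ∈ Z, C (-2 * p z * z) * Lagrange.nodal (Z.erase z) id
def N : ℂ[X] := P Z - R Z p
end

variable {Z : Finset ℂ} {p : ℂ → ℝ}

theorem sub_ne {x z : ℂ} (hx : x ∉ Z) (hz : z ∈ Z) : z - x ≠ 0 := by
  intro h; rw [← sub_eq_zero.1 h] at hx; exact hx hz

theorem P_ne {x : ℂ} (hx : x ∉ Z) : (P Z).eval x ≠ 0 :=
  Lagrange.eval_nodal_not_at_node fun i hi h => hx (by rw [h]; exact hi)

theorem evalR {x : ℂ} (hx : x ∉ Z) : (R Z p).eval x = (P Z).eval x * T Z p x := by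
  classical
  unfold R T
  rw [eval_finset_sum, Finset.mul_sum]
  refine Finset.sum_congr rfl fun z hz => ?_
  have h := sub_ne hx hz
  rw [P, Lagrange.nodal_eq_mul_nodal_erase hz]
  simp only [eval_mul, eval_C, eval_sub, eval_X, id]
  field_simp
  ring

theorem evalN {x : ℂ} (hx : x ∉ Z) : (N Z p).eval x = (P Z).eval x * (1 - T Z p x) := by
  rw [N, eval_sub, evalR hx]; ring

theorem Hyp.R_ne (H : Hyp Z p) {z : ℂ} (hz : z ∈ Z) : (R Z p).eval z ≠ 0 := by
  classical
  unfold R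
  rw [eval_finset_sum, Finset.sum_eq_single z]
  · simp only [eval_mul, eval_C]
    have h0 : z ≠ 0 := by intro h; have := H.hZ z hz; rw [h] at this; simp at this
    have h1 : (p z : ℂ) ≠ 0 := by exact_mod_cast (H.hp z hz).ne'
    refine mul_ne_zero (mul_ne_zero (mul_ne_zero (by norm_num) h1) h0) ?_
    exact Lagrange.eval_nodal_not_at_node fun i hi h => (Finset.ne_of_mem_erase hi) h.symm
  · intro b _ hb
    rw [eval_mul]
    have : eval z (Lagrange.nodal (Z.erase b) id) = 0 :=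
      Lagrange.eval_nodal_at_node (v := id) (i := z) (Finset.mem_erase.2 ⟨hb.symm, hz⟩)
    rw [this, mul_zero]
  · intro h; exact absurd hz h

theorem evalN_node {z : ℂ} (hz : z ∈ Z) : (N Z p).eval z = - (R Z p).eval z := by
  have : (P Z).eval z = 0 := Lagrange.eval_nodal_at_node (v := id) (i := z) hz
  rw [N, eval_sub, this, zero_sub]

theorem Hyp.ne (H : Hyp Z p) : Z.Nonempty := by
  rw [Finset.nonempty_iff_ne_empty]; intro h; have := H.h1; rw [h] at this; simp at this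

theorem Hyp.S_pos (H : Hyp Z p) {x : ℂ} (hx : x ∉ Z) : 0 < S Z p x :=
  Finset.sum_pos (fun z hz => div_pos (H.hp z hz) (pow_pos (norm_pos_iff.2 (sub_ne hx hz)) 2)) H.ne

theorem Hyp.reT (H : Hyp Z p) {x : ℂ} (hx : x ∉ Z) :
    (T Z p x).re = 1 + (1 - ‖x‖ ^ 2) * S Z p x := by
  unfold T S
  rw [Complex.re_sum, Finset.mul_sum]
  conv_rhs => rw [← H.h1]
  rw [H.h1, ← H.h1, ← Finset.sum_add_distrib]
  refine Finset.sum_congr rfl fun z hz => ?_
  rw [H.h1]
  have h := sub_ne hx hz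
  have hn : Complex.normSq (z - x) ≠ 0 := by simpa using h
  have hz1 : Complex.normSq z = 1 := by rw [Complex.normSq_eq_norm_sq, H.hZ z hz]; norm_num
  have : 2 * (p z : ℂ) * z / (z - x) = ((2 * p z : ℝ) : ℂ) * (z / (z - x)) := by push_cast; ring
  rw [this, Complex.re_ofReal_mul, Complex.div_re, ← Complex.normSq_eq_norm_sq,
    ← Complex.normSq_eq_norm_sq]
  field_simp
  simp only [Complex.normSq_apply, Complex.sub_re, Complex.sub_im] at *
  linear_combination (p z) * hz1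

theorem hasDerivAt_T {x : ℂ} (hx : x ∉ Z) : HasDerivAt (T Z p) (T' Z p x) x := by
  unfold T T'
  refine HasDerivAt.fun_sum fun z hz => ?_
  have h := sub_ne hx hz
  have := (hasDerivAt_const x (2 * (p z : ℂ) * z)).fun_div ((hasDerivAt_id x).const_sub z) h
  exact this.congr_deriv (by simp)

theorem diff_T' {x : ℂ} (hx : x ∉ Z) : DifferentiableAt ℂ (T' Z p) x := by
  unfold T'
  refine DifferentiableAt.fun_sum fun z hz => ?_
  have h := sub_ne hx hz
  exact (differentiableAt_const _).div (by fun_prop) (pow_ne_zero 2 h)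

theorem Hyp.xT' (H : Hyp Z p) {w : ℂ} (hw : w ∉ Z) (h1 : ‖w‖ = 1) :
    w * T' Z p w = -2 * S Z p w := by
  unfold T' S
  push_cast
  rw [Finset.mul_sum, Finset.mul_sum]
  refine Finset.sum_congr rfl fun z hz => ?_
  have h := sub_ne hw hz
  have e1 : z * conj z = 1 := by rw [Complex.mul_conj, Complex.normSq_eq_norm_sq, H.hZ z hz]; simp
  have e2 : w * conj w = 1 := by rw [Complex.mul_conj, Complex.normSq_eq_norm_sq, h1]; simp
  have e3 : ((‖z - w‖ : ℝ) : ℂ) ^ 2 = (z - w) * (conj z - conj w) := by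
    rw [← map_sub, Complex.mul_conj, Complex.normSq_eq_norm_sq]; push_cast; ring
  have h' : conj z - conj w ≠ 0 := by rw [← map_sub]; exact (_root_.map_ne_zero _).2 h
  rw [e3]
  field_simp
  linear_combination (p z : ℂ) * w * e1 - (p z : ℂ) * z * e2

theorem degR : (R Z p).degree < Z.card := by
  classical
  unfold R
  refine (degree_sum_le _ _).trans_lt ?_
  rw [Finset.sup_lt_iff (by exact WithBot.bot_lt_coe _)]
  intro z hz
  refine (degree_mul_le _ _).trans_lt ?_
  rw [Lagrange.degree_nodal, Finset.card_erase_of_mem hz]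
  have h0 : 0 < Z.card := Finset.card_pos.2 ⟨z, hz⟩
  calc (C (-2 * (p z : ℂ) * z)).degree + ((Z.card - 1 : ℕ) : WithBot ℕ)
      ≤ 0 + ((Z.card - 1 : ℕ) : WithBot ℕ) := by gcongr; exact degree_C_le
    _ < Z.card := by rw [zero_add]; exact_mod_cast Nat.sub_lt h0 one_pos

theorem degP : (P Z).degree = Z.card := Lagrange.degree_nodal

theorem monicN : (N Z p).Monic :=
  Monic.sub_of_left Lagrange.nodal_monic (by rw [degP]; exact degR)

theorem degN : (N Z p).natDegree = Z.card := by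
  have : (N Z p).degree = Z.card := by
    rw [N, degree_sub_eq_left_of_degree_lt (by rw [degP]; exact degR), degP]
  exact natDegree_eq_of_degree_eq_some this

theorem derivR {x : ℂ} (hx : x ∉ Z) : (derivative (R Z p)).eval x =
    (derivative (P Z)).eval x * T Z p x + (P Z).eval x * T' Z p x := by
  have h1 := (R Z p).hasDerivAt x
  have h2 := ((P Z).hasDerivAt x).fun_mul (hasDerivAt_T (p := p) hx)
  have h3 : (fun y => (R Z p).eval y) =ᶠ[nhds x] fun y => (P Z).eval y * T Z p y := by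
    have : ((Z : Set ℂ)ᶜ) ∈ nhds x := Z.finite_toSet.isClosed.isOpen_compl.mem_nhds hx
    filter_upwards [this] with y hy using evalR hy
  exact h1.unique (h2.congr_of_eventuallyEq h3)

theorem derivN {x : ℂ} (hx : x ∉ Z) : (derivative (N Z p)).eval x =
    (derivative (P Z)).eval x * (1 - T Z p x) - (P Z).eval x * T' Z p x := by
  rw [N, derivative_sub, eval_sub, derivR hx]; ring

theorem Hyp.T0 (H : Hyp Z p) : T Z p 0 = 2 := by
  unfold T
  have : ((∑ z ∈ Z, p z : ℝ) : ℂ) = 1 := by rw [H.h1]; simp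
  push_cast at this
  have e : (2:ℂ) = ∑ z ∈ Z, 2 * (p z : ℂ) := by rw [← Finset.mul_sum, this, mul_one]
  refine Eq.trans (Finset.sum_congr rfl fun z hz => ?_) e.symm
  have h0 : z ≠ 0 := by intro h; have := H.hZ z hz; rw [h] at this; simp at this
  rw [sub_zero]
  field_simp

theorem Hyp.Trefl (H : Hyp Z p) {r : ℂ} (hr : r ∉ Z) (h0 : r ≠ 0) :
    T Z p (conj r)⁻¹ = 2 - conj (T Z p r) := by
  unfold T
  have : ((∑ z ∈ Z, p z : ℝ) : ℂ) = 1 := by rw [H.h1]; simp
  push_cast at this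
  have e : (2:ℂ) = ∑ z ∈ Z, 2 * (p z : ℂ) := by rw [← Finset.mul_sum, this, mul_one]
  rw [map_sum, eq_sub_iff_add_eq, ← Finset.sum_add_distrib]
  refine Eq.trans (Finset.sum_congr rfl fun z hz => ?_) e.symm
  have h := sub_ne hr hz
  have e1 : z * conj z = 1 := by rw [Complex.mul_conj, Complex.normSq_eq_norm_sq, H.hZ z hz]; simp
  have h' : conj z - conj r ≠ 0 := by rw [← map_sub]; exact (_root_.map_ne_zero _).2 h
  have hc : conj r ≠ 0 := by simpa using h0
  have hz0 : z ≠ 0 := by intro h; rw [h] at e1; simp at e1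
  have h2 : z * conj r - 1 ≠ 0 := by
    have : z * conj r - 1 = -z * (conj z - conj r) := by linear_combination e1
    rw [this]; exact mul_ne_zero (neg_ne_zero.2 hz0) h'
  have h3 : z - (conj r)⁻¹ = (z * conj r - 1) / conj r := by field_simp
  rw [h3]
  simp only [map_div₀, map_mul, map_sub, Complex.conj_ofReal, map_ofNat]
  field_simp
  linear_combination (p z : ℂ) * conj r * e1

theorem Hyp.rootN (H : Hyp Z p) {w : ℂ} (hw : (N Z p).eval w = 0) :
    w ∉ Z ∧ T Z p w = 1 ∧ ‖w‖ = 1 := by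
  have h1 : w ∉ Z := fun h => H.R_ne h (by rw [evalN_node h] at hw; simpa using hw)
  rw [evalN h1] at hw
  have h2 : T Z p w = 1 := by
    have := (mul_eq_zero.1 hw).resolve_left (P_ne h1)
    linear_combination -this
  refine ⟨h1, h2, ?_⟩
  have h3 := H.reT h1
  rw [h2] at h3
  simp only [Complex.one_re] at h3
  have h4 : (1 - ‖w‖ ^ 2) * S Z p w = 0 := by linarith
  have h5 := (mul_eq_zero.1 h4).resolve_right (H.S_pos h1).ne'
  nlinarith [norm_nonneg w]

theorem Hyp.rootR (H : Hyp Z p) {r : ℂ} (hr : (R Z p).eval r = 0) :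
    r ∉ Z ∧ T Z p r = 0 ∧ 1 < ‖r‖ := by
  have h1 : r ∉ Z := fun h => H.R_ne h hr
  rw [evalR h1] at hr
  have h2 := (mul_eq_zero.1 hr).resolve_left (P_ne h1)
  refine ⟨h1, h2, ?_⟩
  have h3 := H.reT h1
  rw [h2] at h3
  simp only [Complex.zero_re] at h3
  have := H.S_pos h1
  by_contra h
  push Not at h
  have : 0 ≤ 1 - ‖r‖ ^ 2 := by nlinarith [norm_nonneg r]
  nlinarith

theorem Hyp.dN (H : Hyp Z p) {w : ℂ} (hw : (N Z p).eval w = 0) :
    w * (derivative (N Z p)).eval w = 2 * S Z p w * (P Z).eval w := by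
  obtain ⟨h1, h2, h3⟩ := H.rootN hw
  rw [derivN h1, h2]
  linear_combination -(P Z).eval w * H.xT' h1 h3

theorem Hyp.nodup (H : Hyp Z p) : (N Z p).roots.Nodup := by
  classical
  rw [Multiset.nodup_iff_count_le_one]
  intro w
  rw [count_roots]
  by_contra h
  push Not at h
  obtain ⟨h1, h2⟩ := (one_lt_rootMultiplicity_iff_isRoot monicN.ne_zero).1 h
  have := H.dN h1
  rw [h2.eq_zero, mul_zero] at this
  have h3 := (H.rootN h1).1
  have h4 : (S Z p w : ℂ) ≠ 0 := by exact_mod_cast (H.S_pos h3).ne'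
  exact mul_ne_zero (mul_ne_zero two_ne_zero h4) (P_ne h3) this.symm

end Pool.Agent.H8.WProd
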