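import Mathlib
import Pool.Agent.H8.WProd2

open Complex Polynomial
open scoped ComplexConjugate Real

namespace Pool.Agent.H8.WProd

noncomputable section
variable (Z : Finset ℂ) (p : ℂ → ℝ)
open Classical in
def W : Finset ℂ := (N Z p).roots.toFinset
open Classical in
def V : Finset ℂ := (R Z p).roots.toFinset
open Classical in
def cnt (r : ℂ) : ℕ := (R Z p).roots.count r
def m (w : ℂ) : ℝ := 1 / (4 * S Z p w)
def lam : ℝ := 1 / Z.card
def aa (x : ℂ) : ℂ := -(∑ z ∈ Z, p z * log (1 - x / z)) - lam Z * log (T Z p x / 2)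
def hh (x : ℂ) : ℂ := (∑ z ∈ Z, p z / (z - x)) - lam Z * (T' Z p x / T Z p x)
def U (x : ℂ) : ℝ := ∑ z ∈ Z, p z * Real.log ‖z - x‖
end

variable {Z : Finset ℂ} {p : ℂ → ℝ}

theorem memW {w : ℂ} : w ∈ W Z p ↔ (N Z p).eval w = 0 := by
  simp [W, monicN.ne_zero]

theorem Hyp.R0 (H : Hyp Z p) : R Z p ≠ 0 := by
  obtain ⟨z, hz⟩ := H.ne
  intro h; exact H.R_ne hz (by rw [h]; simp)

theorem Hyp.memV (H : Hyp Z p) {w : ℂ} : w ∈ V Z p ↔ (R Z p).eval w = 0 := by
  simp [V, H.R0]

theorem Hyp.Wval (H : Hyp Z p) : (W Z p).val = (N Z p).roots := by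
  classical
  unfold W
  rw [Multiset.toFinset_val, H.nodup.dedup]

theorem Hyp.N_eq (H : Hyp Z p) : N Z p = Lagrange.nodal (W Z p) id := by
  rw [Lagrange.nodal, Finset.prod_eq_multiset_prod, H.Wval]
  exact (IsAlgClosed.splits _).eq_prod_roots_of_monic monicN

theorem Hyp.cardW (H : Hyp Z p) : (W Z p).card = Z.card := by
  rw [← degN (Z := Z) (p := p), (IsAlgClosed.splits _).natDegree_eq_card_roots, ← H.Wval]; rfl

theorem Hyp.pf (H : Hyp Z p) {x : ℂ} (hx : x ∉ W Z p) :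
    (R Z p).eval x = (N Z p).eval x * ∑ w ∈ W Z p, 2 * m Z p w * w / (x - w) := by
  classical
  have h1 : R Z p = Lagrange.interpolate (W Z p) id fun w => (R Z p).eval w :=
    Lagrange.eq_interpolate (Set.injOn_id _) (by rw [H.cardW]; exact degR)
  have hx' : ∀ i ∈ W Z p, x ≠ id i := fun i hi h => hx (by rw [h]; exact hi)
  conv_lhs => rw [h1]
  rw [Lagrange.eval_interpolate_not_at_node _ hx', ← H.N_eq]
  congr 1
  refine Finset.sum_congr rfl fun w hw => ?_
  rw [Lagrange.nodalWeight_eq_eval_derivative_nodal hw, ← H.N_eq]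
  obtain ⟨h2, h3, h4⟩ := H.rootN (memW.1 hw)
  have h5 := H.dN (memW.1 hw)
  have h6 : (S Z p w : ℂ) ≠ 0 := by exact_mod_cast (H.S_pos h2).ne'
  have h7 := P_ne h2
  have h8 : (derivative (N Z p)).eval w ≠ 0 := by
    intro h; rw [h, mul_zero] at h5
    exact mul_ne_zero (mul_ne_zero two_ne_zero h6) h7 h5.symm
  have h9 : x - w ≠ 0 := sub_ne_zero.2 (hx' w hw)
  simp only [id, m]
  rw [evalR h2, h3]
  push_cast
  field_simp
  linear_combination (-2) * h5

theorem Hyp.notZ (H : Hyp Z p) {x : ℂ} (hx : ‖x‖ < 1) : x ∉ Z := fun h => by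
  rw [H.hZ x h] at hx; exact lt_irrefl _ hx

theorem Hyp.notW (H : Hyp Z p) {x : ℂ} (hx : ‖x‖ < 1) : x ∉ W Z p := fun h => by
  rw [(H.rootN (memW.1 h)).2.2] at hx; exact lt_irrefl _ hx

theorem Hyp.sum_m (H : Hyp Z p) : ∑ w ∈ W Z p, m Z p w = 1 := by
  have h0 : ‖(0:ℂ)‖ < 1 := by simp
  have h1 := H.pf (H.notW h0)
  rw [evalR (H.notZ h0), evalN (H.notZ h0), H.T0] at h1
  have h2 : ∑ w ∈ W Z p, 2 * (m Z p w : ℂ) * w / (0 - w) = -2 * ∑ w ∈ W Z p, (m Z p w : ℂ) := by
    rw [Finset.mul_sum]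
    refine Finset.sum_congr rfl fun w hw => ?_
    have : w ≠ 0 := by intro h; rw [h] at hw; exact H.notW h0 hw
    rw [zero_sub]; field_simp
  rw [h2] at h1
  have h3 := P_ne (H.notZ h0)
  have : ∑ w ∈ W Z p, (m Z p w : ℂ) = 1 := by
    apply mul_left_cancel₀ h3
    linear_combination (-1/2) * h1
  exact_mod_cast this

theorem Hyp.reT_ge (H : Hyp Z p) {x : ℂ} (hx : x ∉ Z) (h1 : ‖x‖ ≤ 1) : 1 ≤ (T Z p x).re := by
  rw [H.reT hx]
  have := H.S_pos hx
  have : 0 ≤ 1 - ‖x‖ ^ 2 := by nlinarith [norm_nonneg x]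
  nlinarith

theorem Hyp.z0 (H : Hyp Z p) {z : ℂ} (hz : z ∈ Z) : z ≠ 0 := by
  intro h; have := H.hZ z hz; rw [h] at this; simp at this

theorem Hyp.hasDerivAt_aa (H : Hyp Z p) {x : ℂ} (hx : x ∉ Z) (h1 : ‖x‖ ≤ 1) :
    HasDerivAt (aa Z p) (hh Z p x) x := by
  unfold aa hh
  have hT := H.reT_ge hx h1
  have hT0 : T Z p x ≠ 0 := by intro h; rw [h] at hT; simp at hT; linarith
  have e1 : HasDerivAt (fun x => ∑ z ∈ Z, p z * log (1 - x / z))
      (∑ z ∈ Z, -(p z / (z - x))) x := by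
    refine HasDerivAt.fun_sum fun z hz => ?_
    have hz0 := H.z0 hz
    have h2 := sub_ne hx hz
    have h3 : 1 - x / z ≠ 0 := by
      have : 1 - x / z = (z - x) / z := by field_simp
      rw [this]; exact div_ne_zero h2 hz0
    have h4 : 1 - x / z ∈ slitPlane := by
      have h5 : ‖x / z‖ ≤ 1 := by rw [norm_div, H.hZ z hz, div_one]; exact h1
      have h6 : (x / z).re ≤ 1 := (Complex.re_le_norm _).trans h5
      rw [mem_slitPlane_iff]
      by_contra hc
      push Not at hc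
      apply h3
      apply Complex.ext
      · have := hc.1; simp only [sub_re, one_re, zero_re] at *; linarith
      · exact hc.2
    have := (((hasDerivAt_id x).div_const z).const_sub 1).clog h4
    refine (this.const_mul (p z : ℂ)).congr_deriv ?_
    simp only [id]
    have : 1 - x / z = (z - x) / z := by field_simp
    rw [this]
    field_simp
  have e2 : HasDerivAt (fun x => log (T Z p x / 2)) (T' Z p x / T Z p x) x := by
    have h4 : T Z p x / 2 ∈ slitPlane := by
      rw [mem_slitPlane_iff]; left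
      simp only [div_ofNat_re]; linarith
    refine (((hasDerivAt_T hx).div_const 2).clog h4).congr_deriv ?_
    field_simp
  refine (e1.neg.sub (e2.const_mul (lam Z : ℂ))).congr_deriv ?_
  rw [Finset.sum_neg_distrib, neg_neg]

theorem Hyp.diff_hh (H : Hyp Z p) {x : ℂ} (h1 : ‖x‖ < 1) : DifferentiableAt ℂ (hh Z p) x := by
  have hx := H.notZ h1
  have hT := H.reT_ge hx h1.le
  have hT0 : T Z p x ≠ 0 := by intro h; rw [h] at hT; simp at hT; linarith
  unfold hh
  refine DifferentiableAt.fun_sub (DifferentiableAt.fun_sum fun z hz => ?_) ?_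
  · exact (differentiableAt_const _).div (by fun_prop) (sub_ne hx hz)
  · exact ((diff_T' hx).div (hasDerivAt_T hx).differentiableAt hT0).const_mul _

theorem Hyp.xhh (H : Hyp Z p) {x : ℂ} (hx : x ∉ Z) :
    x * hh Z p x = T Z p x / 2 - 1 - lam Z * (x * T' Z p x / T Z p x) := by
  have : x * ∑ z ∈ Z, p z / (z - x) = T Z p x / 2 - 1 := by
    have e : ((∑ z ∈ Z, p z : ℝ) : ℂ) = 1 := by rw [H.h1]; simp
    push_cast at e
    rw [T, ← e, Finset.mul_sum, Finset.sum_div, ← Finset.sum_sub_distrib]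
    refine Finset.sum_congr rfl fun z hz => ?_
    have := sub_ne hx hz
    field_simp
    ring
  rw [hh, mul_sub, this]; ring

theorem Hyp.G_eq (H : Hyp Z p) {x : ℂ} (h1 : ‖x‖ < 1) :
    ∑ w ∈ W Z p, ((lam Z - m Z p w : ℝ) : ℂ) * (x / (w - x)) +
      ∑ r ∈ V Z p, ((-(lam Z) * cnt Z p r : ℝ) : ℂ) * (x / (r - x)) =
      x * hh Z p x / (T Z p x - 1) := by
  classical
  have hx := H.notZ h1
  have hW := H.notW h1
  have hN : (N Z p).eval x ≠ 0 := fun h => hW (memW.2 h)
  have hR : (R Z p).eval x ≠ 0 := fun h => by linarith [(H.rootR h).2.2]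
  have e1 := (IsAlgClosed.splits (N Z p)).eval_derivative_div_eval_of_ne_zero hN
  have e2 := (IsAlgClosed.splits (R Z p)).eval_derivative_div_eval_of_ne_zero hR
  rw [← H.Wval, ← Finset.sum_eq_multiset_sum] at e1
  rw [Finset.sum_multiset_map_count] at e2
  have e3 := H.pf hW
  have e4 : ∑ w ∈ W Z p, (m Z p w : ℂ) = 1 := by exact_mod_cast H.sum_m
  have a1 : ∑ w ∈ W Z p, ((lam Z - m Z p w : ℝ) : ℂ) * (x / (w - x)) =
      -(lam Z) * x * ∑ w ∈ W Z p, 1 / (x - w) + (∑ w ∈ W Z p, (m Z p w : ℂ) +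
        (∑ w ∈ W Z p, 2 * m Z p w * w / (x - w)) / 2) := by
    rw [Finset.mul_sum, Finset.sum_div, ← Finset.sum_add_distrib, ← Finset.sum_add_distrib]
    refine Finset.sum_congr rfl fun w hw => ?_
    have h2 := sub_ne hW hw
    have h3 : x - w ≠ 0 := by intro h; apply h2; linear_combination -h
    push_cast
    field_simp
    ring
  have a2 : ∑ r ∈ V Z p, ((-(lam Z) * cnt Z p r : ℝ) : ℂ) * (x / (r - x)) =
      lam Z * x * ∑ r ∈ (R Z p).roots.toFinset, (R Z p).roots.count r • (1 / (x - r)) := by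
    rw [Finset.mul_sum]
    refine Finset.sum_congr rfl fun r hr => ?_
    have : x / (r - x) = -(x * (1 / (x - r))) := by
      rw [← neg_sub x r, div_neg]; ring
    rw [this, nsmul_eq_mul, cnt]
    push_cast; ring
  rw [a1, a2, ← e1, ← e2, e4, H.xhh hx]
  have e5 : ∑ w ∈ W Z p, 2 * (m Z p w : ℂ) * w / (x - w) = (R Z p).eval x / (N Z p).eval x := by
    rw [e3]; field_simp
  rw [e5]
  rw [derivN hx, derivR hx]
  rw [evalN hx] at hN ⊢
  rw [evalR hx] at hR ⊢
  have b1 := P_ne hx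
  have b2 : 1 - T Z p x ≠ 0 := right_ne_zero_of_mul hN
  have b3 : T Z p x ≠ 0 := right_ne_zero_of_mul hR
  have b4 : T Z p x - 1 ≠ 0 := by intro h; apply b2; linear_combination -h
  field_simp
  ring

theorem log_eval (f : ℂ[X]) {x : ℂ} (hx : f.eval x ≠ 0) :
    Real.log ‖f.eval x‖ = Real.log ‖f.leadingCoeff‖ +
      ∑ r ∈ f.roots.toFinset, (f.roots.count r : ℝ) * Real.log ‖x - r‖ := by
  have hf : f ≠ 0 := by intro h; rw [h] at hx; simp at hx
  have h1 : ∀ r ∈ f.roots.toFinset, x - r ≠ 0 := by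
    intro r hr h
    rw [sub_eq_zero.1 h] at hx
    simp only [Multiset.mem_toFinset, mem_roots', IsRoot.def] at hr
    exact hx hr.2
  rw [(IsAlgClosed.splits f).eval_eq_prod_roots, Finset.prod_multiset_map_count, norm_mul,
    norm_prod, Real.log_mul (by simpa using hf), Real.log_prod]
  · congr 1
    refine Finset.sum_congr rfl fun r _ => ?_
    rw [norm_pow, Real.log_pow]
  · intro r hr; exact norm_ne_zero_iff.2 (pow_ne_zero _ (h1 r hr))
  · exact Finset.prod_ne_zero_iff.2 fun r hr => norm_ne_zero_iff.2 (pow_ne_zero _ (h1 r hr))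

theorem Hyp.re_aa (H : Hyp Z p) (x : ℂ) :
    (aa Z p x).re = -U Z p x - lam Z * Real.log (‖T Z p x‖ / 2) := by
  unfold aa U
  rw [sub_re, neg_re, Complex.re_sum, Complex.re_ofReal_mul, Complex.log_re, norm_div]
  simp only [Complex.norm_ofNat]
  congr 2
  refine Finset.sum_congr rfl fun z hz => ?_
  rw [Complex.re_ofReal_mul, Complex.log_re]
  have hz0 := H.z0 hz
  have : 1 - x / z = (z - x) / z := by field_simp
  rw [this, norm_div, H.hZ z hz, div_one]

theorem Hyp.sumU (H : Hyp Z p) : ∑ r ∈ V Z p, (cnt Z p r : ℝ) * U Z p (conj r)⁻¹ =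
    ∑ w ∈ W Z p, U Z p w - Real.log 2 := by
  classical
  have h0 : ‖(0:ℂ)‖ < 1 := by simp
  have hP0 : ‖(P Z).eval 0‖ = 1 := by
    rw [P, Lagrange.eval_nodal, norm_prod]
    exact Finset.prod_eq_one fun z hz => by simp [H.hZ z hz]
  have hR0 : ‖(R Z p).eval 0‖ = 2 := by
    rw [evalR (H.notZ h0), H.T0, norm_mul, hP0]; simp
  have hR0' : (R Z p).eval 0 ≠ 0 := by intro h; rw [h] at hR0; simp at hR0
  have key : ∀ z ∈ Z, ∑ r ∈ V Z p, (cnt Z p r : ℝ) * Real.log ‖z - (conj r)⁻¹‖ =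
      ∑ w ∈ W Z p, Real.log ‖z - w‖ - Real.log 2 := by
    intro z hz
    have e1 := log_eval _ (H.R_ne hz)
    have e2 := log_eval _ hR0'
    have e3 : Real.log ‖(R Z p).eval z‖ = ∑ w ∈ W Z p, Real.log ‖z - w‖ := by
      rw [← norm_neg, ← evalN_node hz, H.N_eq, Lagrange.eval_nodal, norm_prod, Real.log_prod]
      · rfl
      · intro w hw
        have := sub_ne (H.rootN (memW.1 hw)).1 hz
        exact norm_ne_zero_iff.2 this
    rw [hR0] at e2
    rw [← e3, e1, e2, add_sub_add_left_eq_sub, ← Finset.sum_sub_distrib]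
    refine Finset.sum_congr rfl fun r hr => ?_
    obtain ⟨h1, -, h3⟩ := H.rootR (H.memV.1 hr)
    have hr0 : r ≠ 0 := by intro h; rw [h] at h3; norm_num at h3
    have hc : conj r ≠ 0 := by simpa using hr0
    have e4 : z * conj z = 1 := by
      rw [Complex.mul_conj, Complex.normSq_eq_norm_sq, H.hZ z hz]; simp
    have e5 : z - (conj r)⁻¹ = -z * conj (z - r) / conj r := by
      rw [map_sub]; field_simp; linear_combination e4
    rw [e5, norm_div, norm_mul, norm_neg, H.hZ z hz, one_mul, Complex.norm_conj, Complex.norm_conj,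
      Real.log_div (norm_ne_zero_iff.2 (sub_ne h1 hz)) (norm_ne_zero_iff.2 hr0), zero_sub, norm_neg,
      cnt]
    ring
  unfold U
  simp_rw [Finset.mul_sum]
  rw [Finset.sum_comm, Finset.sum_comm (s := W Z p)]
  have : Real.log 2 = ∑ z ∈ Z, p z * Real.log 2 := by rw [← Finset.sum_mul, H.h1, one_mul]
  rw [this, ← Finset.sum_sub_distrib]
  refine Finset.sum_congr rfl fun z hz => ?_
  rw [← Finset.mul_sum, ← mul_sub, ← key z hz, Finset.mul_sum]
  refine Finset.sum_congr rfl fun r _ => by ring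

theorem Hyp.core (H : Hyp Z p) : ∃ w, ‖w‖ = 1 ∧ w ∉ Z ∧ Real.log 2 / Z.card ≤ U Z p w := by
  classical
  have hw1 : ∀ w ∈ W Z p, (conj w)⁻¹ = w := by
    intro w hw
    have := (H.rootN (memW.1 hw)).2.2
    have e : w * conj w = 1 := by rw [Complex.mul_conj, Complex.normSq_eq_norm_sq, this]; simp
    exact (eq_inv_of_mul_eq_one_left e).symm
  have hv1 : ∀ r ∈ V Z p, ‖(conj r)⁻¹‖ < 1 := by
    intro r hr
    rw [norm_inv, Complex.norm_conj]
    exact inv_lt_one_of_one_lt₀ (H.rootR (H.memV.1 hr)).2.2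
  have key := mono ((W Z p).disjSum (V Z p)) (Sum.elim id id)
    (Sum.elim (fun w => lam Z - m Z p w) (fun r => -(lam Z) * cnt Z p r)) ?_ (aa Z p) (hh Z p)
    (fun x hx => H.hasDerivAt_aa (H.notZ hx) hx.le) (fun x hx => H.diff_hh hx) ?_ ?_
  · have a0 : (aa Z p 0).re = 0 := by
      rw [H.re_aa, H.T0]
      have : U Z p 0 = 0 := Finset.sum_eq_zero fun z hz => by simp [H.hZ z hz]
      simp [this]
    rw [a0] at key
    simp only [mul_zero, Finset.sum_const_zero, Finset.sum_disjSum, Sum.elim_inl, Sum.elim_inr,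
      id] at key
    have b1 : ∑ w ∈ W Z p, (lam Z - m Z p w) * (aa Z p (conj w)⁻¹).re =
        -(lam Z) * ∑ w ∈ W Z p, U Z p w + ∑ w ∈ W Z p, m Z p w * U Z p w +
        (∑ w ∈ W Z p, lam Z - ∑ w ∈ W Z p, m Z p w) * (lam Z * Real.log 2) := by
      rw [Finset.mul_sum, ← Finset.sum_sub_distrib, Finset.sum_mul, ← Finset.sum_add_distrib,
        ← Finset.sum_add_distrib]
      refine Finset.sum_congr rfl fun w hw => ?_
      rw [hw1 w hw, H.re_aa, (H.rootN (memW.1 hw)).2.1, norm_one, one_div, Real.log_inv]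
      ring
    have b2 : ∑ r ∈ V Z p, (-(lam Z) * cnt Z p r) * (aa Z p (conj r)⁻¹).re =
        lam Z * ∑ r ∈ V Z p, (cnt Z p r : ℝ) * U Z p (conj r)⁻¹ := by
      rw [Finset.mul_sum]
      refine Finset.sum_congr rfl fun r hr => ?_
      obtain ⟨h1, h2, h3⟩ := H.rootR (H.memV.1 hr)
      have hr0 : r ≠ 0 := by intro h; rw [h] at h3; norm_num at h3
      rw [H.re_aa, H.Trefl h1 hr0, h2]
      simp [mul_assoc]
    have hc : (0:ℝ) < Z.card := by exact_mod_cast H.ne.card_pos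
    have b3 : ∑ w ∈ W Z p, lam Z = 1 := by
      rw [Finset.sum_const, H.cardW, nsmul_eq_mul, lam]; field_simp
    rw [b1, b2, H.sumU, b3, H.sum_m] at key
    have b4 : ∑ w ∈ W Z p, m Z p w * (Real.log 2 / Z.card) ≤ ∑ w ∈ W Z p, m Z p w * U Z p w := by
      rw [← Finset.sum_mul, H.sum_m]
      have : Real.log 2 / Z.card = lam Z * Real.log 2 := by rw [lam]; ring
      rw [this]; linarith
    have hne : (W Z p).Nonempty := by
      rw [← Finset.card_pos, H.cardW]; exact H.ne.card_pos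
    obtain ⟨w, hw, h⟩ := Finset.exists_le_of_sum_le hne b4
    obtain ⟨h1, -, h3⟩ := H.rootN (memW.1 hw)
    have hm : 0 < m Z p w := by have := H.S_pos h1; unfold m; positivity
    exact ⟨w, h3, h1, le_of_mul_le_mul_left h hm⟩
  · rintro (w | r) hi
    · simp only [Finset.inl_mem_disjSum] at hi
      exact (H.rootN (memW.1 hi)).2.2.ge
    · simp only [Finset.inr_mem_disjSum] at hi
      exact (H.rootR (H.memV.1 hi)).2.2.le
  · rintro (w | r) hi
    · simp only [Finset.inl_mem_disjSum] at hi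
      simp only [Sum.elim_inl, id, hw1 w hi]
      obtain ⟨h1, -, h3⟩ := H.rootN (memW.1 hi)
      exact (H.hasDerivAt_aa h1 h3.le).continuousAt
    · simp only [Finset.inr_mem_disjSum] at hi
      exact (H.hasDerivAt_aa (H.notZ (hv1 r hi)) (hv1 r hi).le).continuousAt
  · intro x hx
    simp only [Finset.sum_disjSum, Sum.elim_inl, Sum.elim_inr, id]
    rw [H.G_eq hx]
    have h1 := H.reT_ge (H.notZ hx) hx.le
    set y := x * hh Z p x
    rw [map_div₀, ← mul_div_assoc, Complex.mul_conj, div_eq_mul_inv, Complex.re_ofReal_mul,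
      Complex.inv_re]
    refine mul_nonneg (Complex.normSq_nonneg _) (div_nonneg ?_ (Complex.normSq_nonneg _))
    simp only [conj_re, sub_re, one_re]; linarith

theorem final (r : ℕ) (hr : 1 ≤ r) (z : Fin r → ℂ) (hz : ∀ j, ‖z j‖ = 1) (p : Fin r → ℝ)
    (hp : ∀ j, 0 ≤ p j) (hs : ∑ j, p j = r) :
    ∃ w : ℂ, ‖w‖ = 1 ∧ 2 ≤ ∏ j, ‖w - z j‖ ^ p j := by
  classical
  set J : Finset (Fin r) := Finset.univ.filter fun j => 0 < p j with hJ
  set q : ℂ → ℝ := fun ζ => (∑ j ∈ J.filter (fun j => z j = ζ), p j) / r with hq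
  have hr0 : (0:ℝ) < r := by exact_mod_cast hr
  have hsum : ∀ F : ℂ → ℝ, ∑ ζ ∈ J.image z, q ζ * F ζ = (∑ j, p j * F (z j)) / r := by
    intro F
    have e1 : ∑ j, p j * F (z j) = ∑ j ∈ J, p j * F (z j) := by
      rw [hJ, Finset.sum_filter]
      refine Finset.sum_congr rfl fun j _ => ?_
      split_ifs with h
      · rfl
      · rw [le_antisymm (not_lt.1 h) (hp j), zero_mul]
    rw [e1, ← Finset.sum_fiberwise_of_maps_to (s := J) (t := J.image z) (g := z)
      (fun j hj => Finset.mem_image_of_mem z hj), Finset.sum_div]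
    refine Finset.sum_congr rfl fun ζ _ => ?_
    rw [hq]; simp only
    rw [div_mul_eq_mul_div, Finset.sum_mul]
    congr 1
    refine Finset.sum_congr rfl fun j hj => ?_
    rw [(Finset.mem_filter.1 hj).2]
  have H : Hyp (J.image z) q := by
    refine ⟨fun ζ h => ?_, fun ζ h => ?_, ?_⟩
    · obtain ⟨j, -, rfl⟩ := Finset.mem_image.1 h; exact hz j
    · obtain ⟨j, hj, rfl⟩ := Finset.mem_image.1 h
      refine div_pos (Finset.sum_pos (fun i hi => ?_) ⟨j, Finset.mem_filter.2 ⟨hj, rfl⟩⟩) hr0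
      exact (Finset.mem_filter.1 (Finset.mem_filter.1 hi).1).2
    · have := hsum fun _ => 1
      simp only [mul_one] at this
      rw [this, hs, div_self hr0.ne']
  obtain ⟨w, h1, h2, h3⟩ := H.core
  refine ⟨w, h1, ?_⟩
  unfold U at h3
  rw [hsum fun ζ => Real.log ‖ζ - w‖] at h3
  have hc : (0:ℝ) < (J.image z).card := by exact_mod_cast H.ne.card_pos
  have hc2 : ((J.image z).card : ℝ) ≤ r := by
    have : (J.image z).card ≤ r :=
      Finset.card_image_le.trans ((Finset.card_le_univ _).trans (by simp))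
    exact_mod_cast this
  have h4 : Real.log 2 / r ≤ (∑ j, p j * Real.log ‖z j - w‖) / r :=
    (div_le_div_of_nonneg_left (Real.log_nonneg one_le_two) hc hc2).trans h3
  have h5 := (div_le_div_iff_of_pos_right hr0).1 h4
  have h6 : ∏ j, ‖w - z j‖ ^ p j = Real.exp (∑ j, p j * Real.log ‖z j - w‖) := by
    rw [Real.exp_sum]
    refine Finset.prod_congr rfl fun j _ => ?_
    rcases (hp j).eq_or_lt with h | h
    · rw [← h]; simp
    · have : z j - w ≠ 0 := sub_ne h2 (Finset.mem_image_of_mem z (by simp [hJ, h]))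
      rw [norm_sub_rev, Real.rpow_def_of_pos (norm_pos_iff.2 this), mul_comm]
  rw [h6]
  calc (2:ℝ) = Real.exp (Real.log 2) := (Real.exp_log two_pos).symm
    _ ≤ _ := Real.exp_le_exp.2 h5

end Pool.Agent.H8.WProd
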